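import Pool.Agent.P.MP_71e30e_nt.GZero

set_option autoImplicit false

/-! Coefficient bounds, Siegel's lemma for families, evaluation of two variable sums. -/

namespace Pool.Agent.P.MP_71e30e_nt

open Polynomial Finset

attribute [local instance] Matrix.seminormedAddCommGroup

theorem bd_mul {F G : ℤ[X]} {c ρ : ℝ} (hc : 0 ≤ c) (hρ : 0 ≤ ρ)
    (hF : ∀ k, |(F.coeff k : ℝ)| ≤ c * (2 * ρ) ^ k) (hG : ∀ k, |(G.coeff k : ℝ)| ≤ ρ ^ k) (k : ℕ) :
    |((F * G).coeff k : ℝ)| ≤ 2 * c * (2 * ρ) ^ k := by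
  rw [coeff_mul]
  push_cast
  refine (abs_sum_le_sum_abs _ _).trans ?_
  calc ∑ p ∈ antidiagonal k, |(F.coeff p.1 : ℝ) * G.coeff p.2|
      ≤ ∑ p ∈ antidiagonal k, c * ρ ^ k * 2 ^ p.1 := by
        refine sum_le_sum fun p hp => ?_
        rw [abs_mul, ← mem_antidiagonal.1 hp]
        calc |(F.coeff p.1 : ℝ)| * |(G.coeff p.2 : ℝ)| ≤ c * (2 * ρ) ^ p.1 * ρ ^ p.2 :=
              mul_le_mul (hF _) (hG _) (abs_nonneg _) (by positivity)
          _ = _ := by ring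
    _ = c * ρ ^ k * ∑ i ∈ range (k + 1), (2 : ℝ) ^ i := by
        rw [← mul_sum, Finset.Nat.sum_antidiagonal_eq_sum_range_succ_mk]
    _ ≤ c * ρ ^ k * 2 ^ (k + 1) := by
        rw [geom_sum_eq (by norm_num)]
        gcongr
        norm_num
    _ = _ := by ring

theorem bd_pow {F G : ℤ[X]} {c ρ : ℝ} (hc : 0 ≤ c) (hρ : 0 ≤ ρ)
    (hF : ∀ k, |(F.coeff k : ℝ)| ≤ c * (2 * ρ) ^ k) (hG : ∀ k, |(G.coeff k : ℝ)| ≤ ρ ^ k) (m : ℕ) :
    ∀ k, |((F * G ^ m).coeff k : ℝ)| ≤ 2 ^ m * c * (2 * ρ) ^ k := by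
  induction m with
  | zero => simpa using hF
  | succ m ih =>
    intro k
    rw [pow_succ, ← mul_assoc]
    exact (bd_mul (by positivity) hρ ih hG k).trans (le_of_eq (by ring))

theorem bd_two {G G' : ℤ[X]} {ρ : ℝ} (hρ : 0 ≤ ρ) (hG : ∀ k, |(G.coeff k : ℝ)| ≤ ρ ^ k)
    (hG' : ∀ k, |(G'.coeff k : ℝ)| ≤ ρ ^ k) (m m' k : ℕ) :
    |((G ^ m * G' ^ m').coeff k : ℝ)| ≤ 2 ^ (m + m') * (2 * ρ) ^ k := by
  have h1 : ∀ k, |((1 : ℤ[X]).coeff k : ℝ)| ≤ 1 * (2 * ρ) ^ k := by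
    intro k
    rw [coeff_one]
    split_ifs with h
    · simp [h]
    · simp only [Int.cast_zero, abs_zero]
      positivity
  have h2 := bd_pow (by positivity) hρ (bd_pow zero_le_one hρ h1 hG m) hG' m' k
  rw [one_mul] at h2
  exact h2.trans (le_of_eq (by ring))

theorem bd_lin (a b : ℤ) {ρ : ℝ} (ha : |(a : ℝ)| ≤ 1) (hb : |(b : ℝ)| ≤ ρ) (k : ℕ) :
    |((C a + C b * X : ℤ[X]).coeff k : ℝ)| ≤ ρ ^ k := by
  have h0 : 0 ≤ ρ := (abs_nonneg _).trans hb
  rcases k with _ | _ | k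
  · simpa using ha
  · rw [coeff_add, coeff_C_succ, coeff_C_mul]
    simpa using hb
  · simp only [coeff_add, coeff_C_succ, coeff_C_mul, coeff_X, zero_add]
    rw [if_neg (by omega)]
    simp only [mul_zero, Int.cast_zero, abs_zero]
    positivity

/-- a truncated root with bounded coefficients -/
theorem exists_rt {q : ℕ} (hq : 1 ≤ q) (N : ℕ) : ∃ r : ℤ[X], r.coeff 0 = 1 ∧
    X ^ N ∣ r ^ q - (C 1 + C (-(q : ℤ) ^ 2) * X) ∧ ∀ k, |(r.coeff k : ℝ)| ≤ ((q : ℝ) ^ 2) ^ k := by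
  obtain ⟨r, h0, hd, h1⟩ := exists_trunc q (-1) 0 N
  have h2 : X ^ (N + 1) ∣ r ^ q - (C 1 + C (-(q : ℤ) ^ 2) * X) := by
    refine (Dvd.intro_left _ rfl).trans (h1.trans (dvd_of_eq ?_))
    simp only [map_neg, map_one]
    ring
  refine ⟨r, h0, (pow_dvd_pow _ (Nat.le_succ N)).trans h2, ?_⟩
  obtain ⟨p, rfl⟩ : ∃ p, q = p + 1 := ⟨q - 1, by omega⟩
  have h3 := pow_sub_one_dvd_derivative_of_pow_dvd h2
  rw [Nat.add_sub_cancel] at h3
  have h4 : X ^ N ∣ C ((p + 1 : ℕ) : ℤ) * (derivative r - C (((p + 1 : ℕ) : ℤ) ^ 2) *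
      (X * derivative r) + C ((p + 1 : ℕ) : ℤ) * r) := by
    have h5 := dvd_sub (h3.mul_left r)
      (((pow_dvd_pow _ (Nat.le_succ N)).trans h2).mul_left (C ((p + 1 : ℕ) : ℤ) * derivative r))
    refine h5.trans (dvd_of_eq ?_)
    simp only [derivative_sub, derivative_pow_succ, derivative_mul, derivative_X, map_neg, map_one,
      map_pow, map_natCast, map_add, derivative_one, derivative_natCast]
    push_cast
    ring
  intro k
  induction k with
  | zero => simp [h0]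
  | succ k ih =>
    by_cases hk : N < k + 1
    · rw [coeff_eq_zero_of_natDegree_lt (hd.trans_lt hk)]
      simp only [Int.cast_zero, abs_zero]
      positivity
    have h5 := X_pow_dvd_iff.1 h4 k (by omega)
    have h6 : (X * derivative r).coeff k = r.coeff k * k := by
      rcases k with _ | k
      · simp
      · rw [coeff_X_mul, coeff_derivative]
        push_cast
        ring
    rw [coeff_C_mul, coeff_add, coeff_sub, coeff_C_mul, coeff_C_mul, h6, coeff_derivative] at h5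
    have h7 := (mul_eq_zero.1 h5).resolve_left (by positivity)
    have h8 : (r.coeff (k + 1) : ℝ) * (k + 1) =
        (((p + 1 : ℕ) : ℝ) ^ 2 * k - (p + 1 : ℕ)) * r.coeff k := by
      have : r.coeff (k + 1) * (k + 1) =
        (((p + 1 : ℕ) : ℤ) ^ 2 * k - (p + 1 : ℕ)) * r.coeff k := by linear_combination h7
      exact_mod_cast this
    have hq1 : (1 : ℝ) ≤ (p + 1 : ℕ) := by exact_mod_cast hq
    generalize ((p + 1 : ℕ) : ℝ) = Q at *
    have h9 : |Q ^ 2 * k - Q| ≤ Q ^ 2 * (k + 1) := by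
      rw [abs_le]
      constructor <;> nlinarith [(Nat.cast_nonneg k : (0 : ℝ) ≤ k), sq_nonneg Q]
    have h10 := congrArg abs h8
    rw [abs_mul, abs_mul, abs_of_nonneg (by positivity : (0 : ℝ) ≤ k + 1)] at h10
    refine le_of_mul_le_mul_right ?_ (by positivity : (0 : ℝ) < k + 1)
    rw [h10]
    exact (mul_le_mul h9 ih (abs_nonneg _) (by positivity)).trans (le_of_eq (by ring))

theorem siegel_fam {ι ρ : Type} [Fintype ι] [Fintype ρ] (D : ι → ℕ) (M : ρ → ι → ℕ → ℤ) {B : ℝ}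
    (hB : 1 ≤ B) (hM : ∀ r i, ∀ a < D i, |(M r i a : ℝ)| ≤ B) (E : ℕ) (h0 : 0 < Fintype.card ρ)
    (hE : (E + 1) * Fintype.card ρ ≤ E * ∑ i, D i) :
    ∃ c : ι → ℕ → ℤ, (∃ i a, c i a ≠ 0) ∧ (∀ i a, D i ≤ a → c i a = 0) ∧
      (∀ i a, |(c i a : ℝ)| ≤ ((∑ i, D i : ℕ) * B) ^ E) ∧
      ∀ r, ∑ w ∈ univ.sigma fun i => range (D i), c w.1 w.2 * M r w.1 w.2 = 0 := by
  classical
  have hc : Fintype.card (Σ i, Fin (D i)) = ∑ i, D i := by simp
  let A : Matrix ρ (Σ i, Fin (D i)) ℤ := fun r w => M r w.1 w.2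
  have hlt : Fintype.card ρ < ∑ i, D i := by
    by_contra h
    have := Nat.mul_le_mul_left E (not_lt.1 h)
    nlinarith
  obtain ⟨t, ht0, ht, hb⟩ := Int.Matrix.exists_ne_zero_int_vec_norm_le A (hc ▸ hlt) h0
  rw [hc] at hb
  generalize ∑ i, D i = n at *
  generalize Fintype.card ρ = m at *
  have hA : ‖A‖ ≤ B := by
    rw [Matrix.norm_le_iff (by linarith)]
    intro r w
    rw [Int.norm_eq_abs]
    exact hM _ _ _ w.2.2
  have hn : (m : ℝ) < n := by exact_mod_cast hlt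
  have hn1 : (1 : ℝ) ≤ n := by exact_mod_cast (by omega : 1 ≤ n)
  have hexp : (m : ℝ) / (n - m) ≤ (E : ℕ) := by
    rw [div_le_iff₀ (by linarith)]
    have : ((E : ℝ) + 1) * m ≤ E * n := by exact_mod_cast hE
    linarith
  have hb2 : ‖t‖ ≤ (n * B) ^ E := by
    rw [← Real.rpow_natCast]
    refine hb.trans ((Real.rpow_le_rpow (by positivity) (by gcongr; exact max_le hB hA)
      (div_nonneg (by positivity) (by linarith))).trans
      (Real.rpow_le_rpow_of_exponent_le (by nlinarith) hexp))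
  refine ⟨fun i a => if h : a < D i then t ⟨i, a, h⟩ else 0, ?_,
    fun i a h => dif_neg (not_lt.2 h), fun i a => ?_, fun r => ?_⟩
  · obtain ⟨w, hw⟩ := Function.ne_iff.1 ht0
    exact ⟨w.1, w.2, by simpa using hw⟩
  · dsimp only
    split_ifs with h
    · rw [← Int.norm_eq_abs]
      exact (norm_le_pi_norm t _).trans hb2
    · simp only [Int.cast_zero, abs_zero]
      positivity
  · have := congrFun ht r
    simp only [Matrix.mulVec, dotProduct, A, Pi.zero_apply, Fintype.sum_sigma] at this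
    rw [sum_sigma]
    refine Eq.trans (sum_congr rfl fun i _ => ?_) this
    rw [sum_range]
    exact sum_congr rfl fun a _ => by simp only [dif_pos a.2, mul_comm]

theorem dvd_two {ι S : Type*} [CommRing S] (T : Finset ι) (c : ι → ℤ) (F H : ι → ℤ[X]) {n G : ℕ}
    (h : ∀ i k, i + n * k < G → ∑ w ∈ T, c w * ((F w).coeff i * (H w).coeff k) = 0) {π a b : S}
    (ha : π ∣ a) (hb : π ^ n ∣ b) :
    π ^ G ∣ ∑ w ∈ T, (c w : S) * (aeval a (F w) * aeval b (H w)) := by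
  obtain ⟨N, hN⟩ : ∃ N, ∀ w ∈ T, (F w).natDegree < N ∧ (H w).natDegree < N :=
    ⟨T.sup (fun w => max (F w).natDegree (H w).natDegree) + 1, fun w hw => by
      have := le_sup (f := fun w => max (F w).natDegree (H w).natDegree) hw
      omega⟩
  have e : ∑ w ∈ T, (c w : S) * (aeval a (F w) * aeval b (H w)) = ∑ i ∈ range N, ∑ k ∈ range N,
      ((∑ w ∈ T, c w * ((F w).coeff i * (H w).coeff k) : ℤ) : S) * (a ^ i * b ^ k) := by
    simp only [Int.cast_sum, sum_mul]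
    rw [sum_congr rfl fun i _ => sum_comm, sum_comm]
    refine sum_congr rfl fun w hw => ?_
    rw [aeval_eq_sum_range' (hN w hw).1, aeval_eq_sum_range' (hN w hw).2, sum_mul_sum, mul_sum]
    refine sum_congr rfl fun i _ => ?_
    rw [mul_sum]
    refine sum_congr rfl fun k _ => ?_
    simp only [zsmul_eq_mul, Int.cast_mul]
    ring
  rw [e]
  refine dvd_sum fun i _ => dvd_sum fun k _ => ?_
  by_cases hik : i + n * k < G
  · rw [h i k hik, Int.cast_zero, zero_mul]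
    exact dvd_zero _
  · refine Dvd.dvd.mul_left ((pow_dvd_pow π (not_lt.1 hik)).trans ?_) _
    rw [pow_add, pow_mul]
    exact mul_dvd_mul (pow_dvd_pow_of_dvd ha i) (pow_dvd_pow_of_dvd hb k)

end Pool.Agent.P.MP_71e30e_nt
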