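import Mathlib

set_option autoImplicit false

/-! Algebraic lemmas: integral truncated roots, the Wronskian, Siegel's lemma. -/

namespace Pool.Agent.P.MP_71e30e_nt

open Polynomial

attribute [local instance] Matrix.seminormedAddCommGroup

/-- Integral truncated q-th roots. -/
theorem exists_trunc (q : ℕ) (A B : ℤ[X]) (K : ℕ) : ∃ G : ℤ[X], G.coeff 0 = 1 ∧
    G.natDegree ≤ K ∧ C ((q : ℤ) ^ 2) * X ^ (K + 1) ∣
      G ^ q * (1 + C ((q : ℤ) ^ 2) * X * B) - (1 + C ((q : ℤ) ^ 2) * X * A) := by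
  induction K with
  | zero => exact ⟨1, by simp, by simp, B - A, by ring⟩
  | succ K ih =>
    obtain ⟨G, h0, hd, S, hS⟩ := ih
    obtain ⟨k, hk⟩ := powAddExpansion G (C (q : ℤ) * C (-S.coeff 0) * X ^ (K + 1)) q
    set V : ℤ[X] := 1 + C ((q : ℤ) ^ 2) * X * B with hV
    have hX : X ∣ S + C (-S.coeff 0) * G ^ (q - 1) * V +
        C (-S.coeff 0) ^ 2 * X ^ (K + 1) * k * V := by
      rw [X_dvd_iff, coeff_zero_eq_eval_zero]
      rw [coeff_zero_eq_eval_zero] at h0
      simp [hV, h0, ← coeff_zero_eq_eval_zero S]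
    obtain ⟨E, hE⟩ := hX
    refine ⟨G + C (q : ℤ) * C (-S.coeff 0) * X ^ (K + 1), ?_, ?_, E, ?_⟩
    · rw [coeff_add, h0, ← C_mul, coeff_C_mul_X_pow]
      simp
    · refine (natDegree_add_le _ _).trans (max_le (by omega) ?_)
      rw [← C_mul]
      exact natDegree_C_mul_X_pow_le _ _
    · rw [hk]
      have e1 : (q : ℤ[X]) = C (q : ℤ) := by simp
      rw [e1, C_pow] at *
      linear_combination hS + C (q : ℤ) ^ 2 * X ^ (K + 1) * hE

/-- The Wronskian attached to P - Q (U / V) ^ (1 / q). -/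
noncomputable def wr (q : ℕ) (P Q U V : ℂ[X]) : ℂ[X] :=
  (q : ℂ[X]) * U * V * (derivative P * Q - P * derivative Q) -
    P * Q * (derivative U * V - U * derivative V)

theorem wr_dvd {p K : ℕ} {π a b c1 c2 P Q U V G : ℂ[X]} (ha : derivative a = 0)
    (hb : derivative b = 0) (hc1 : derivative c1 = 0) (hc2 : derivative c2 = 0)
    (h1 : π ^ (K + 1) ∣ a * P - b * Q * G) (h2 : π ^ (K + 1) ∣ G ^ (p + 1) * (c2 * V) - c1 * U) :
    π ^ K ∣ a * c1 * c2 * wr (p + 1) P Q U V := by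
  have h1' := pow_sub_one_dvd_derivative_of_pow_dvd h1
  have h2' := pow_sub_one_dvd_derivative_of_pow_dvd h2
  rw [Nat.add_sub_cancel] at h1' h2'
  obtain ⟨D1, e1⟩ := (pow_dvd_pow π (Nat.le_succ K)).trans h1
  obtain ⟨D2, e2⟩ := (pow_dvd_pow π (Nat.le_succ K)).trans h2
  obtain ⟨E1, e3⟩ := h1'
  obtain ⟨E2, e4⟩ := h2'
  simp only [derivative_sub, derivative_mul, derivative_pow_succ, ha, hb, hc1, hc2, zero_mul,
    zero_add, map_add, map_natCast, map_one] at e3 e4
  refine ⟨b * Q ^ 2 * c2 * (G * V * E2 - (p + 1) * D2 * V * derivative G - G * D2 * derivative V) +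
    c1 * c2 * ((p + 1) * U * V * (E1 * Q - D1 * derivative Q) -
      D1 * Q * (derivative U * V - U * derivative V)), ?_⟩
  simp only [wr, Nat.cast_add, Nat.cast_one]
  linear_combination
    (c1 * c2 * (p + 1) * U * V * Q) * e3 -
    (c1 * c2 * ((p + 1) * U * V * derivative Q + Q * (derivative U * V - U * derivative V))) * e1 +
    (b * Q ^ 2 * c2 * G * V) * e4 -
    (b * Q ^ 2 * c2 * ((p + 1) * V * derivative G + G * derivative V)) * e2

theorem wr_natDegree {q R e : ℕ} {P Q U V : ℂ[X]} (hP : P.natDegree ≤ R) (hQ : Q.natDegree ≤ R)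
    (hU : U.natDegree ≤ e) (hV : V.natDegree ≤ e) : (wr q P Q U V).natDegree ≤ 2 * R + 2 * e := by
  have d1 := (natDegree_derivative_le P).trans ((Nat.sub_le _ _).trans hP)
  have d2 := (natDegree_derivative_le Q).trans ((Nat.sub_le _ _).trans hQ)
  have d3 := (natDegree_derivative_le U).trans ((Nat.sub_le _ _).trans hU)
  have d4 := (natDegree_derivative_le V).trans ((Nat.sub_le _ _).trans hV)
  have d5 : (q : ℂ[X]).natDegree ≤ 0 := (natDegree_natCast q).le
  have e1 := natDegree_mul_le_of_le (natDegree_mul_le_of_le (natDegree_mul_le_of_le d5 hU) hV)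
    (natDegree_sub_le_of_le (natDegree_mul_le_of_le d1 hQ) (natDegree_mul_le_of_le hP d2))
  have e2 := natDegree_mul_le_of_le (natDegree_mul_le_of_le hP hQ)
    (natDegree_sub_le_of_le (natDegree_mul_le_of_le d3 hV) (natDegree_mul_le_of_le hU d4))
  refine (natDegree_sub_le_of_le e1 e2).trans ?_
  omega

/-- U / V has a zero or pole whose order is not divisible by q. -/
def NR (q : ℕ) (U V : ℂ[X]) : Prop :=
  ∃ (ρ : ℂ) (i j : ℕ) (a b : ℂ[X]), U = (X - C ρ) ^ i * a ∧ V = (X - C ρ) ^ j * b ∧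
    a.eval ρ ≠ 0 ∧ b.eval ρ ≠ 0 ∧ ¬ (q : ℤ) ∣ (i : ℤ) - j

theorem mul_derivative (ρ : ℂ) (i : ℕ) (a : ℂ[X]) : (X - C ρ) * derivative ((X - C ρ) ^ i * a) =
    (X - C ρ) ^ i * ((i : ℂ[X]) * a + (X - C ρ) * derivative a) := by
  rcases i with _ | i
  · simp
  · simp only [derivative_mul, derivative_pow_succ, derivative_sub, derivative_X, derivative_C,
      map_add, map_natCast, map_one]
    push_cast
    ring

theorem wr_ne_zero {q : ℕ} {P Q U V : ℂ[X]} (h : NR q U V) (hP : P ≠ 0) (hQ : Q ≠ 0) :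
    wr q P Q U V ≠ 0 := by
  obtain ⟨ρ, i, j, a, b, rfl, rfl, ha, hb, hq⟩ := h
  obtain ⟨c, hc, hc'⟩ := exists_eq_pow_rootMultiplicity_mul_and_not_dvd P hP ρ
  obtain ⟨d, hd, hd'⟩ := exists_eq_pow_rootMultiplicity_mul_and_not_dvd Q hQ ρ
  generalize rootMultiplicity ρ P = k at hc
  generalize rootMultiplicity ρ Q = l at hd
  subst hc hd
  rw [dvd_iff_isRoot] at hc' hd'
  intro h0
  have e : (X - C ρ) ^ (i + j + k + l) * ((q : ℂ[X]) * a * b *
      (((k : ℂ[X]) * c + (X - C ρ) * derivative c) * d -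
        c * ((l : ℂ[X]) * d + (X - C ρ) * derivative d)) -
      c * d * (((i : ℂ[X]) * a + (X - C ρ) * derivative a) * b -
        a * ((j : ℂ[X]) * b + (X - C ρ) * derivative b))) = 0 := by
    unfold wr at h0
    have e1 := mul_derivative ρ i a
    have e2 := mul_derivative ρ j b
    have e3 := mul_derivative ρ k c
    have e4 := mul_derivative ρ l d
    simp only [pow_add]
    generalize (X - C ρ) ^ i = xi at *
    generalize (X - C ρ) ^ j = xj at *
    generalize (X - C ρ) ^ k = xk at *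
    generalize (X - C ρ) ^ l = xl at *
    linear_combination (X - C ρ) * h0 - (q * xi * a * xj * b * xl * d) * e3 +
      (q * xi * a * xj * b * xk * c) * e4 + (xk * c * xl * d * xj * b) * e1 -
      (xk * c * xl * d * xi * a) * e2
  have e' := congrArg (eval ρ)
    ((mul_eq_zero.1 e).resolve_left (pow_ne_zero _ (X_sub_C_ne_zero ρ)))
  simp only [eval_sub, eval_mul, eval_add, eval_natCast, eval_X, eval_C, sub_self, zero_mul,
    add_zero, eval_zero] at e'
  have e5 : (eval ρ a * eval ρ b * eval ρ c * eval ρ d) * ((q : ℂ) * (k - l) - (i - j)) = 0 := by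
    linear_combination e'
  have e6 := (mul_eq_zero.1 e5).resolve_left
    (mul_ne_zero (mul_ne_zero (mul_ne_zero ha hb) hc') hd')
  apply hq
  refine ⟨(k : ℤ) - l, ?_⟩
  have : ((i : ℤ) - j : ℤ) = ((q * ((k : ℤ) - l) : ℤ) : ℂ) := by
    push_cast
    linear_combination -e6
  exact_mod_cast this

theorem NR.ne {p : ℕ} {T U V : ℂ[X]} (h : NR (p + 1) U V) (hT : T ≠ 0) :
    T ^ (p + 1) * V - U ≠ 0 := by
  intro h0
  apply wr_ne_zero h hT one_ne_zero
  rw [← sub_eq_zero.1 h0]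
  simp only [wr, derivative_mul, derivative_pow_succ, derivative_one, map_add, map_natCast,
    map_one]
  push_cast
  ring

theorem NR.scale {q : ℕ} {U V : ℂ[X]} (h : NR q U V) {c : ℂ} (hc : c ≠ 0) :
    NR q (U.comp (C c * X)) (V.comp (C c * X)) := by
  obtain ⟨ρ, i, j, a, b, rfl, rfl, ha, hb, hq⟩ := h
  have e : (C c * X - C ρ : ℂ[X]) = (X - C (ρ / c)) * C c := by
    rw [sub_mul, ← C_mul, div_mul_cancel₀ _ hc, mul_comm]
  have e2 : c * (ρ / c) = ρ := mul_div_cancel₀ _ hc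
  refine ⟨ρ / c, i, j, C c ^ i * a.comp (C c * X), C c ^ j * b.comp (C c * X), ?_, ?_, ?_, ?_, hq⟩
  · simp only [mul_comp, pow_comp, sub_comp, X_comp, C_comp, e, mul_pow]
    ring
  · simp only [mul_comp, pow_comp, sub_comp, X_comp, C_comp, e, mul_pow]
    ring
  · simp [eval_comp, e2, ha, hc]
  · simp [eval_comp, e2, hb, hc]

theorem NR.symm {q : ℕ} {U V : ℂ[X]} (h : NR q U V) : NR q V U := by
  obtain ⟨ρ, i, j, a, b, h1, h2, ha, hb, hq⟩ := h
  exact ⟨ρ, j, i, b, a, h2, h1, hb, ha, fun h => hq (dvd_sub_comm.1 h)⟩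

theorem NR.of_simple {q : ℕ} (hq : 2 ≤ q) {U V : ℂ[X]} (ρ : ℂ) (h0 : U.eval ρ = 0)
    (h1 : (derivative U).eval ρ ≠ 0) (h2 : V.eval ρ ≠ 0) : NR q U V := by
  obtain ⟨a, rfl⟩ := dvd_iff_isRoot.2 h0
  refine ⟨ρ, 1, 0, a, V, by simp, by simp, by simpa using h1, h2, fun h => ?_⟩
  have := Int.le_of_dvd (by norm_num) h
  omega

/-- Siegel's lemma for a Pade approximant. -/
theorem exists_pade (T : ℤ[X]) (L l : ℕ) (hL : 2 ≤ L) (hl : 1 ≤ l) (B : ℝ) (hB : 1 ≤ B)
    (hT : ∀ j < (2 * L - 1) * l, |(T.coeff j : ℝ)| ≤ B) :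
    ∃ P Q : ℤ[X], Q ≠ 0 ∧ P.natDegree < L * l ∧ Q.natDegree < L * l ∧
      (∀ i, |(Q.coeff i : ℝ)| ≤ (L * l * B) ^ (L - 1)) ∧ X ^ ((2 * L - 1) * l) ∣ P - Q * T := by
  obtain ⟨M, rfl⟩ : ∃ M, L = M + 1 := ⟨L - 1, by omega⟩
  have hM : 0 < M * l := Nat.mul_pos (by omega) hl
  have hn : (M + 1) * l = M * l + l := by ring
  have hN : (2 * (M + 1) - 1) * l = (M + 1) * l + M * l := by
    rw [show 2 * (M + 1) - 1 = M + 1 + M by omega]; ring
  rw [hN] at hT ⊢
  obtain ⟨n, hn'⟩ : ∃ n, n = (M + 1) * l := ⟨_, rfl⟩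
  have hnr : ((M + 1 : ℕ) : ℝ) * l = n := by rw [hn']; push_cast; ring
  rw [hnr]
  rw [← hn'] at hT hn ⊢
  clear hN hn' hnr
  let A : Matrix (Fin (M * l)) (Fin n) ℤ := fun j i => T.coeff (n + j - i)
  obtain ⟨t, ht0, ht, hb⟩ := Int.Matrix.exists_ne_zero_int_vec_norm_le A
    (by simp only [Fintype.card_fin]; omega) (by simpa using hM)
  simp only [Fintype.card_fin] at hb
  have hA : ‖A‖ ≤ B := by
    rw [Matrix.norm_le_iff (by linarith)]
    intro j i
    rw [Int.norm_eq_abs]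
    exact hT _ (by omega)
  have hexp : ((M * l : ℕ) : ℝ) / ((n : ℝ) - (M * l : ℕ)) = (M : ℕ) := by
    have hl' : (l : ℝ) ≠ 0 := by exact_mod_cast (by omega : l ≠ 0)
    rw [hn]
    push_cast
    field_simp
    ring
  rw [hexp, Real.rpow_natCast] at hb
  have hb2 : ‖t‖ ≤ (n * B) ^ M := hb.trans (by gcongr; exact max_le hB hA)
  set Q : ℤ[X] := ∑ i : Fin n, monomial i (t i) with hQ
  have hQc : ∀ i : Fin n, Q.coeff i = t i := by
    intro i
    rw [hQ, finsetSum_coeff, Finset.sum_eq_single i (fun j _ hj => by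
      rw [coeff_monomial, if_neg (fun h => hj (Fin.ext h))]) (by simp), coeff_monomial_same]
  have hQc' : ∀ i, n ≤ i → Q.coeff i = 0 := by
    intro i hi
    rw [hQ, finsetSum_coeff]
    refine Finset.sum_eq_zero fun j _ => ?_
    rw [coeff_monomial, if_neg (by have := j.2; omega)]
  have hQd : Q.natDegree < n := by
    have : Q.natDegree ≤ n - 1 := natDegree_le_iff_coeff_eq_zero.2 fun i hi => hQc' i (by omega)
    omega
  refine ⟨∑ i ∈ Finset.range n, monomial i ((Q * T).coeff i), Q, fun h => ht0 ?_, ?_, hQd,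
    fun i => ?_, ?_⟩
  · funext i
    rw [← hQc i, h]
    simp
  · have : (∑ i ∈ Finset.range n, monomial i ((Q * T).coeff i)).natDegree ≤ n - 1 :=
      natDegree_sum_le_of_forall_le _ _ fun i hi =>
        (natDegree_monomial_le _).trans (by have := Finset.mem_range.1 hi; omega)
    omega
  · rw [Nat.add_sub_cancel]
    by_cases hi : i < n
    · have := hQc ⟨i, hi⟩
      rw [this, ← Int.norm_eq_abs]
      exact (norm_le_pi_norm t _).trans hb2
    · rw [hQc' i (by omega)]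
      simp only [Int.cast_zero, abs_zero]
      positivity
  · rw [X_pow_dvd_iff]
    intro d hd
    rw [coeff_sub, finsetSum_coeff]
    simp only [coeff_monomial, Finset.sum_ite_eq', Finset.mem_range]
    split_ifs with h
    · exact sub_self _
    · have := congrFun ht ⟨d - n, by omega⟩
      simp only [Matrix.mulVec, dotProduct, A, Pi.zero_apply] at this
      rw [zero_sub, neg_eq_zero, hQ, Finset.sum_mul, finsetSum_coeff, ← this]
      refine Finset.sum_congr rfl fun i _ => ?_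
      have hi := i.2
      rw [← C_mul_X_pow_eq_monomial, mul_assoc, coeff_C_mul, coeff_X_pow_mul', if_pos (by omega),
        mul_comm, show n + (d - n) - i = d - i by omega]

end Pool.Agent.P.MP_71e30e_nt
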