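import Mathlib

set_option autoImplicit false

/-! Analytic lemmas: Schwarz, Cauchy estimates for truncated expansions, q-th roots. -/

namespace Pool.Agent.P.MP_71e30e_nt

open Polynomial Filter Topology Asymptotics Metric

theorem schwarz {h : ℂ → ℂ} {r M : ℝ} {N : ℕ} (hd : DifferentiableOn ℂ h (ball 0 r))
    (hM : ∀ w ∈ ball (0 : ℂ) r, ‖h w‖ ≤ M) (hN : h =O[𝓝 0] fun w => w ^ N) {w : ℂ}
    (hw : w ∈ ball (0 : ℂ) r) : ‖h w‖ ≤ M * (‖w‖ / r) ^ N := by
  rcases N with _ | n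
  · simpa using hM w hw
  have h0 : h 0 = 0 := by
    obtain ⟨c, hc⟩ := hN.bound
    simpa using hc.self_of_nhds
  have h1 : (h · - h 0) =o[𝓝 0] fun w : ℂ => ‖w - 0‖ ^ n := by
    simp only [h0, sub_zero]
    refine hN.trans_isLittleO ?_
    have := (isLittleO_pow_pow (𝕜 := ℂ) (Nat.lt_succ_self n)).norm_right
    simpa only [norm_pow] using this
  have := Complex.dist_le_mul_div_pow_of_mapsTo_ball_of_isLittleO (R₂ := M) hd
    (fun w hw => by simpa [h0] using hM w hw) h1 hw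
  simpa [h0] using this

theorem coeff_bound_aux {r : ℝ} (hr : 0 < r) : ∀ (k K : ℕ) (h : ℂ → ℂ) (S : ℂ[X]) (M : ℝ),
    DifferentiableOn ℂ h (ball 0 r) → (∀ w ∈ ball (0 : ℂ) r, ‖h w‖ ≤ M) →
    (fun w => h w - S.eval w) =O[𝓝[≠] 0] (fun w => w ^ K) → k < K →
    ‖S.coeff k‖ ≤ M * (2 / r) ^ k := by
  have h00 : ∀ (K : ℕ) (h : ℂ → ℂ) (S : ℂ[X]), DifferentiableOn ℂ h (ball 0 r) →
      (fun w => h w - S.eval w) =O[𝓝[≠] 0] (fun w => w ^ (K + 1)) → h 0 = S.coeff 0 := by
    intro K h S hd hO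
    have c1 : ContinuousAt (fun w => h w - S.eval w) 0 :=
      (hd.continuousOn.continuousAt (ball_mem_nhds 0 hr)).sub S.continuous.continuousAt
    have c2 : Tendsto (fun w : ℂ => w ^ (K + 1)) (𝓝[≠] 0) (𝓝 0) := by
      have : Tendsto (fun w : ℂ => w ^ (K + 1)) (𝓝 0) (𝓝 (0 ^ (K + 1))) :=
        (continuous_pow (K + 1)).tendsto 0
      rw [zero_pow (by omega)] at this
      exact this.mono_left nhdsWithin_le_nhds
    have := tendsto_nhds_unique (c1.tendsto.mono_left nhdsWithin_le_nhds) (hO.trans_tendsto c2)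
    rw [coeff_zero_eq_eval_zero]
    exact sub_eq_zero.1 this
  intro k
  induction k with
  | zero =>
    intro K h S M hd hM hO hk
    obtain ⟨K, rfl⟩ : ∃ j, K = j + 1 := ⟨K - 1, by omega⟩
    rw [← h00 K h S hd hO]
    simpa using hM 0 (mem_ball_self hr)
  | succ k ih =>
    intro K h S M hd hM hO hk
    obtain ⟨K, rfl⟩ : ∃ j, K = j + 1 := ⟨K - 1, by omega⟩
    have e0 := h00 K h S hd hO
    have := ih K (dslope h 0) S.divX (2 * M / r)
      ((Complex.differentiableOn_dslope (ball_mem_nhds 0 hr)).2 hd)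
      (fun w hw => Complex.norm_dslope_le_div_of_mapsTo_ball hd (fun y hy => by
        rw [mem_closedBall, dist_eq_norm]
        have := norm_sub_le (h y) (h 0)
        linarith [hM y hy, hM 0 (mem_ball_self hr)]) hw)
      (by
        have e1 := hO.mul (isBigO_refl (fun w : ℂ => w⁻¹) (𝓝[≠] 0))
        refine e1.congr' ?_ ?_
        · filter_upwards [self_mem_nhdsWithin] with w hw
          have hw' : w ≠ 0 := hw
          have e2 := congrArg (eval w) (X_mul_divX_add S)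
          rw [eval_add, eval_mul, eval_X, eval_C] at e2
          rw [dslope_of_ne _ hw', slope_def_field, e0, ← e2, sub_zero]
          field_simp
          ring
        · filter_upwards [self_mem_nhdsWithin] with w hw
          have hw' : w ≠ 0 := hw
          rw [pow_succ, mul_inv_cancel_right₀ hw'])
      (by omega)
    rw [coeff_divX] at this
    calc _ ≤ _ := this
      _ = _ := by ring

/-- Cauchy estimate for a truncated expansion. -/
theorem coeff_bound {r M : ℝ} (hr : 0 < r) {k K : ℕ} {h : ℂ → ℂ} {S : ℂ[X]}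
    (hd : DifferentiableOn ℂ h (ball 0 r)) (hM : ∀ w ∈ ball (0 : ℂ) r, ‖h w‖ ≤ M)
    (hO : (fun w => h w - S.eval w) =O[𝓝 0] (fun w => w ^ K)) (hk : k < K) :
    ‖S.coeff k‖ ≤ M * (2 / r) ^ k :=
  coeff_bound_aux hr k K h S M hd hM (hO.mono nhdsWithin_le_nhds) hk

theorem isBigO_of_dvd {S : ℂ[X]} {N : ℕ} (h : X ^ N ∣ S) :
    (fun w => S.eval w) =O[𝓝 0] fun w => w ^ N := by
  obtain ⟨E, rfl⟩ := h
  have := (isBigO_refl (fun w : ℂ => w ^ N) (𝓝 0)).mul
    ((E.continuous.tendsto 0).isBigO_one ℂ)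
  simpa using this

/-- A truncated q-th root approximates the analytic q-th root. -/
theorem root_close {f : ℂ → ℂ} (hf : ContinuousAt f 0) {U V T : ℂ[X]} {q N : ℕ} (hq : 1 ≤ q)
    (he : ∀ᶠ w in 𝓝 (0 : ℂ), f w ^ q * V.eval w = U.eval w) (hV : V.eval 0 ≠ 0)
    (hT : T.eval 0 = f 0) (h0 : f 0 ≠ 0) (hd : X ^ N ∣ T ^ q * V - U) :
    (fun w => f w - T.eval w) =O[𝓝 0] fun w => w ^ N := by
  set G : ℂ → ℂ := fun w =>
    (∑ i ∈ Finset.range q, T.eval w ^ i * f w ^ (q - 1 - i)) * V.eval w with hG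
  have hGc : ContinuousAt G 0 := by
    refine ContinuousAt.mul (tendsto_finsetSum _ fun i _ => ?_) V.continuous.continuousAt
    exact (T.continuous.continuousAt.pow i).mul (hf.pow _)
  have hG0 : G 0 ≠ 0 := by
    simp only [hG, hT]
    rw [geom_sum₂_self]
    exact mul_ne_zero (mul_ne_zero (by exact_mod_cast (by omega : q ≠ 0)) (pow_ne_zero _ h0)) hV
  have h1 := (isBigO_of_dvd hd).mul ((hGc.inv₀ hG0).tendsto.isBigO_one ℂ)
  refine h1.neg_left.congr' ?_ (Eventually.of_forall fun w => mul_one _)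
  filter_upwards [he, hGc.eventually_ne hG0] with w hw hw0
  have e := (Commute.all (T.eval w) (f w)).geom_sum₂_mul q
  have e2 : eval w (T ^ q * V - U) = G w * (T.eval w - f w) := by
    rw [eval_sub, eval_mul, eval_pow, ← hw, ← sub_mul, ← e]
    simp only [hG]
    ring
  rw [e2, Pi.inv_apply]
  field_simp
  ring

/-- The analytic q-th root of U / V near a point where both are close to 1. -/
theorem exists_root (U V : ℂ[X]) {q : ℕ} (hq : 1 ≤ q) {r : ℝ}
    (hb : ∀ w ∈ ball (0 : ℂ) r, ‖U.eval w - 1‖ ≤ 1 / 4 ∧ ‖V.eval w - 1‖ ≤ 1 / 4) :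
    ∃ f : ℂ → ℂ, DifferentiableOn ℂ f (ball 0 r) ∧
      (∀ w ∈ ball (0 : ℂ) r, f w ^ q * V.eval w = U.eval w ∧ 1 / 2 ≤ ‖f w‖ ∧ ‖f w‖ ≤ 2) ∧
      ∀ (w : ℂ) (x : ℝ), 0 < x → U.eval w / V.eval w = x → ∃ a : ℝ, 0 < a ∧ f w = a ∧
        (x = 1 → a = 1) := by
  have hq0 : (q : ℂ) ≠ 0 := by exact_mod_cast (by omega : q ≠ 0)
  have hn : ∀ w ∈ ball (0 : ℂ) r, 3 / 4 ≤ ‖U.eval w‖ ∧ ‖U.eval w‖ ≤ 5 / 4 ∧
      3 / 4 ≤ ‖V.eval w‖ ∧ ‖V.eval w‖ ≤ 5 / 4 := by
    intro w hw
    obtain ⟨h1, h2⟩ := hb w hw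
    have a1 := abs_norm_sub_norm_le (U.eval w) 1
    have a2 := abs_norm_sub_norm_le (V.eval w) 1
    rw [norm_one, abs_le] at a1 a2
    refine ⟨?_, ?_, ?_, ?_⟩ <;> linarith [a1.1, a1.2, a2.1, a2.2]
  have hV0 : ∀ w ∈ ball (0 : ℂ) r, V.eval w ≠ 0 := fun w hw h => by
    have := (hn w hw).2.2.1
    rw [h, norm_zero] at this
    linarith
  have hs : ∀ w ∈ ball (0 : ℂ) r, U.eval w / V.eval w ∈ Complex.slitPlane := by
    intro w hw
    have e : U.eval w / V.eval w = 1 + ((U.eval w - 1) - (V.eval w - 1)) / V.eval w := by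
      have := hV0 w hw
      field_simp
      ring
    rw [e]
    apply Complex.mem_slitPlane_of_norm_lt_one
    rw [norm_div, div_lt_one (norm_pos_iff.2 (hV0 w hw))]
    have := norm_sub_le (U.eval w - 1) (V.eval w - 1)
    linarith [(hb w hw).1, (hb w hw).2, (hn w hw).2.2.1]
  refine ⟨fun w => Complex.exp (Complex.log (U.eval w / V.eval w) / q), ?_, ?_, ?_⟩
  · refine DifferentiableOn.cexp (DifferentiableOn.div_const (DifferentiableOn.clog ?_ hs) _)
    exact U.differentiable.differentiableOn.div V.differentiable.differentiableOn hV0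
  · intro w hw
    have e : Complex.exp (Complex.log (U.eval w / V.eval w) / q) ^ q = U.eval w / V.eval w := by
      rw [← Complex.exp_nat_mul, mul_div_cancel₀ _ hq0,
        Complex.exp_log (Complex.slitPlane_ne_zero (hs w hw))]
    obtain ⟨a1, a2, a3, a4⟩ := hn w hw
    have e2 := congrArg norm e
    rw [norm_pow, norm_div] at e2
    set a := ‖Complex.exp (Complex.log (U.eval w / V.eval w) / q)‖
    have hp : 0 < ‖V.eval w‖ := by linarith
    have a0 : 0 ≤ a := norm_nonneg _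
    refine ⟨by rw [e, div_mul_cancel₀ _ (hV0 w hw)], ?_, ?_⟩
    · by_contra hlt
      have h1 : a ^ q ≤ a ^ 1 := pow_le_pow_of_le_one a0 (by linarith) hq
      rw [e2, div_le_iff₀ hp, pow_one] at h1
      nlinarith
    · by_contra hlt
      have h1 : a ^ 1 ≤ a ^ q := pow_le_pow_right₀ (by linarith) hq
      rw [e2, le_div_iff₀ hp, pow_one] at h1
      nlinarith
  · intro w x hx e
    refine ⟨Real.exp (Real.log x / q), Real.exp_pos _, ?_, fun h => by simp [h]⟩
    simp only [e]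
    rw [← Complex.ofReal_log hx.le]
    push_cast
    rfl

theorem eval_bound {S : ℂ[X]} {n : ℕ} {H : ℝ} (hn : S.natDegree < n)
    (hH : ∀ i < n, ‖S.coeff i‖ ≤ H) {w : ℂ} (hw : ‖w‖ ≤ 1) : ‖S.eval w‖ ≤ n * H := by
  rw [eval_eq_sum_range' hn]
  refine (norm_sum_le _ _).trans ?_
  have : ∀ i ∈ Finset.range n, ‖S.coeff i * w ^ i‖ ≤ H := fun i hi => by
    rw [norm_mul, norm_pow]
    have h1 := hH i (Finset.mem_range.1 hi)
    have h2 : ‖w‖ ^ i ≤ 1 := pow_le_one₀ (norm_nonneg _) hw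
    calc _ ≤ ‖S.coeff i‖ * 1 := by gcongr
      _ ≤ H := by linarith
  simpa using Finset.sum_le_card_nsmul _ _ _ this

theorem sub_mul_pow_le {x a : ℝ} (hx : 0 ≤ x) (ha : 0 < a) (p : ℕ) :
    |x - a| * a ^ p ≤ |x ^ (p + 1) - a ^ (p + 1)| := by
  rw [← (Commute.all x a).geom_sum₂_mul (p + 1), abs_mul, mul_comm]
  refine mul_le_mul_of_nonneg_right (le_trans ?_ (le_abs_self _)) (abs_nonneg _)
  have := Finset.single_le_sum (f := fun i => x ^ i * a ^ (p + 1 - 1 - i))
    (s := Finset.range (p + 1)) (fun i _ => by positivity) (a := 0) (by simp)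
  simpa using this

end Pool.Agent.P.MP_71e30e_nt
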