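import Mathlib

set_option autoImplicit false

/-! The classical case of four digits with odd base. -/

namespace Pool.Agent.P.MP_71e30e_nt.Comp

theorem pow_or_neg {a b c : ℤ} {k : ℕ} (h : IsCoprime a b) (e : a * b = c ^ k) :
    ∃ d : ℤ, d ^ k = a ∨ d ^ k = -a := by
  obtain ⟨d, hd⟩ := exists_associated_pow_of_mul_eq_pow' h e
  exact ⟨d, Int.associated_iff.1 hd⟩

theorem sq_sq {a b c : ℤ} (h : IsCoprime a b) (e : a * b = c ^ 2) : ∃ d : ℤ, d ^ 4 = a ^ 2 := by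
  obtain ⟨d, hd | hd⟩ := pow_or_neg h e
  · exact ⟨d, by rw [← hd]; ring⟩
  · exact ⟨d, by rw [← neg_sq, ← hd]; ring⟩

/-- Fermat's descent for a difference of two fourth powers -/
theorem descent (N : ℕ) : ∀ a b c : ℤ, a.natAbs ≤ N → IsCoprime a b → b ≠ 0 → c ≠ 0 →
    a ^ 4 ≠ b ^ 4 + c ^ 2 := by
  induction N using Nat.strong_induction_on with
  | _ N ih =>
  intro a b c hN hab hb hc h
  have ha : a ≠ 0 := by
    rintro rfl
    nlinarith [sq_pos_of_ne_zero hc, sq_nonneg (b ^ 2)]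
  have hbc : IsCoprime (b ^ 2) c := by
    have h1 : IsCoprime (a ^ 4) b := hab.pow_left
    rw [h, add_comm, show b ^ 4 = b * b ^ 3 by ring] at h1
    exact (IsCoprime.of_mul_left_left (y := c) (by
      simpa [sq] using h1.of_add_mul_left_left)).symm.pow_left
  have ht : PythagoreanTriple (b ^ 2) c (a ^ 2) := by
    unfold PythagoreanTriple
    linear_combination -h
  have lt : ∀ r : ℤ, r ^ 2 < a ^ 2 → r.natAbs < N := fun r hr =>
    (Int.natAbs_lt_iff_sq_lt.2 hr).trans_le hN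
  rcases ht.even_odd_of_coprime (Int.isCoprime_iff_gcd_eq_one.1 hbc) with ⟨-, h2⟩ | ⟨h2, -⟩
  · obtain ⟨m, n, e1, e2, e3, e4, e5, -⟩ := ht.symm.coprime_classification'
      (Int.isCoprime_iff_gcd_eq_one.1 hbc.symm) h2 (by positivity)
    have key : ∀ m n : ℤ, b ^ 2 = 2 * m * n → a ^ 2 = m ^ 2 + n ^ 2 → Int.gcd m n = 1 →
        m % 2 = 1 → False := by
      intro m n e2 e3 e4 e5
      have ht2 : PythagoreanTriple m n |a| := by
        unfold PythagoreanTriple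
        rw [abs_mul_abs_self]
        linear_combination -e3
      obtain ⟨u, v, f1, f2, f3, f4, -, -⟩ := ht2.coprime_classification' e4 e5 (abs_pos.2 ha)
      have c1 := Int.isCoprime_iff_gcd_eq_one.2 e4
      have c2 := Int.isCoprime_iff_gcd_eq_one.2 f4
      obtain ⟨b', rfl⟩ : 2 ∣ b := Int.prime_two.dvd_of_dvd_pow (n := 2) ⟨m * n, by linarith⟩
      have g1 : m * (u * v) = b' ^ 2 := by
        rw [f2] at e2
        linarith
      have hb' : b' ≠ 0 := by rintro rfl; simp at hb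
      have g0 := g1 ▸ pow_ne_zero 2 hb'
      rw [f2, mul_assoc] at c1
      have c3 := c1.of_mul_right_right
      obtain ⟨r, hr⟩ := sq_sq (a := u) (b := m * v) (c := b')
        (c3.of_mul_right_left.symm.mul_right c2) (by linarith)
      obtain ⟨s, hs⟩ := sq_sq (a := v) (b := m * u) (c := b')
        (c3.of_mul_right_right.symm.mul_right c2.symm) (by linarith)
      have hv : v ≠ 0 := by rintro rfl; simp at g0
      have hm : m ≠ 0 := left_ne_zero_of_mul g0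
      obtain ⟨t, ht⟩ := pow_or_neg c3 g1
      have c4 : IsCoprime r s := by
        have : IsCoprime (r ^ 4) (s ^ 4) := by rw [hr, hs]; exact c2.pow
        exact (IsCoprime.pow_iff (by norm_num) (by norm_num)).1 this
      have hu : u ≠ 0 := by rintro rfl; simp at g0
      have hr0 : r ≠ 0 := by rintro rfl; exact pow_ne_zero 2 hu (by simpa using hr.symm)
      have hs0 : s ≠ 0 := by rintro rfl; exact pow_ne_zero 2 hv (by simpa using hs.symm)
      have ht0 : t ≠ 0 := by rintro rfl; rcases ht with k | k <;> simp [eq_comm, hm] at k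
      have l1 : ∀ w : ℤ, w ≠ 0 → w ^ 4 < |a| → w.natAbs < N := fun w hw k => lt w (by
        have k1 : 1 ≤ w ^ 2 := sq_pos_of_ne_zero hw
        have k2 : 1 ≤ |a| := abs_pos.2 ha
        rw [← sq_abs a]
        nlinarith)
      rcases ht with k | k
      · exact ih _ (l1 r hr0 (by nlinarith [sq_pos_of_ne_zero hv])) r s t le_rfl c4 hs0 ht0
          (by linarith)
      · exact ih _ (l1 s hs0 (by nlinarith [sq_pos_of_ne_zero hu])) s r t le_rfl c4.symm hr0 ht0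
          (by linarith)
    rcases e5 with ⟨-, k⟩ | ⟨k, -⟩
    · exact key n m (by linarith) (by linarith) (by rwa [Int.gcd_comm]) k
    · exact key m n e2 e3 e4 k
  · obtain ⟨m, n, e1, e2, e3, e4, -, -⟩ := ht.coprime_classification'
      (Int.isCoprime_iff_gcd_eq_one.1 hbc) h2 (by positivity)
    have hn : n ≠ 0 := by rintro rfl; simp [hc] at e2
    exact ih _ (lt m (by nlinarith [sq_pos_of_ne_zero hn])) m n (a * b) le_rfl
      (Int.isCoprime_iff_gcd_eq_one.2 e4) hn (mul_ne_zero ha hb) (by rw [mul_pow, e1, e3]; ring)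

theorem tri_four {k r : ℤ} (h : k * (2 * k + 1) = r ^ 4) : r ^ 4 ≤ 1 := by
  have c1 : IsCoprime k (2 * k + 1) := ⟨-2, 1, by ring⟩
  obtain ⟨u, hu⟩ := pow_or_neg c1 h
  obtain ⟨g, hg⟩ := pow_or_neg c1.symm ((mul_comm _ _).trans h)
  have p1 : 0 ≤ u ^ 4 := by positivity
  have p2 : 0 ≤ g ^ 4 := by positivity
  have hg0 : g ≠ 0 := by rintro rfl; omega
  have : k = 0 ∨ k = -1 := by
    rcases hu with hu | hu <;> rcases hg with hg | hg
    · by_contra! k0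
      exact not_fermat_42 (a := u ^ 2) (b := g) (c := u ^ 4 + 1)
        (by rintro k1; exact k0.1 (by nlinarith)) hg0 (by rw [hg, ← hu]; ring)
    · omega
    · omega
    · by_contra! k0
      refine descent _ (u ^ 2) g (u ^ 4 - 1) le_rfl ⟨2 * u ^ 2, -g ^ 3, ?_⟩ hg0 (by omega) ?_
      · linear_combination 2 * hu - hg
      · linear_combination 2 * hu - hg
  rcases this with rfl | rfl <;> omega

theorem four_sq {w a b : ℤ} (h1 : w + 1 = a ^ 2) (h2 : w ^ 2 + (w + 1) ^ 2 = b ^ 2) : w ≤ 4 := by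
  have hb : b ≠ 0 := by
    rintro rfl
    nlinarith [sq_nonneg (2 * w + 1)]
  have ht : PythagoreanTriple w (w + 1) |b| := by
    unfold PythagoreanTriple
    rw [abs_mul_abs_self]
    linear_combination h2
  have hc : IsCoprime w (w + 1) := ⟨-1, 1, by ring⟩
  rcases Int.emod_two_eq_zero_or_one w with k | k
  · obtain ⟨m, n, e1, e2, -, -, e5, -⟩ := ht.symm.coprime_classification'
      (Int.isCoprime_iff_gcd_eq_one.1 hc.symm) (by omega) (abs_pos.2 hb)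
    obtain ⟨j, hj⟩ : ∃ j, m = 2 * j + 1 - n := ⟨(m + n - 1) / 2, by omega⟩
    obtain ⟨s, hs⟩ := sq_sq (a := m + n) (b := m - n) (c := a)
      ⟨1 - j * (2 * (m - n) - (m + n)), -j * (m - n), by
        linear_combination hj + 2 * j * e1 - 2 * j * e2⟩ (by linear_combination h1 - e1)
    have e6 : s ^ 4 = 2 * m ^ 2 - 1 := by linear_combination hs + e1 - e2
    by_contra! k0
    refine descent _ m s (m ^ 2 - 1) le_rfl ⟨2 * m, -s ^ 3, by linear_combination -e6⟩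
      (by rintro rfl; omega) (fun k1 => ?_) (by linear_combination -e6)
    nlinarith [sq_nonneg n]
  · obtain ⟨m, n, e1, e2, -, e4, e5, -⟩ := ht.coprime_classification'
      (Int.isCoprime_iff_gcd_eq_one.1 hc) k (abs_pos.2 hb)
    obtain ⟨a', rfl⟩ : 2 ∣ a := Int.prime_two.dvd_of_dvd_pow (n := 2) ⟨m * n, by linarith⟩
    have e6 : (m + n) ^ 2 = 2 * m ^ 2 + 1 := by linear_combination e1 - e2
    obtain ⟨j, hj⟩ : ∃ j, m + n = 2 * j + 1 := ⟨(m + n - 1) / 2, by omega⟩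
    rw [hj] at e6
    obtain ⟨m', rfl⟩ : 2 ∣ m := Int.prime_two.dvd_of_dvd_pow (n := 2) ⟨j ^ 2 + j, by linarith⟩
    obtain ⟨r, hr⟩ := sq_sq (a := m') (b := n) (c := a')
      (Int.isCoprime_iff_gcd_eq_one.2 e4).of_mul_left_right (by linarith)
    have : r ^ 4 ≤ 1 := by
      obtain ⟨i, rfl | rfl⟩ := Int.even_or_odd' j
      · exact tri_four (k := i) (by linarith)
      · exact tri_four (k := -1 - i) (by linarith)
    nlinarith [sq_nonneg n]

theorem re_pow_odd (γ : GaussianInt) (k : ℕ) : ∃ T U : ℤ, (γ ^ (2 * k + 1)).re = γ.re * T ∧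
    (γ ^ (2 * k + 1)).im = γ.im * U ∧ (Odd (γ.re ^ 2 - γ.im ^ 2) → Odd T) ∧
    (γ.re ^ 2 = 1 → γ.im ^ 2 ∣ T - 1) := by
  induction k with
  | zero => exact ⟨1, 1, by simp, by simp, fun _ => odd_one, by simp⟩
  | succ k ih =>
    obtain ⟨T, U, h1, h2, h3, h4⟩ := ih
    have e : γ ^ (2 * (k + 1) + 1) = γ ^ (2 * k + 1) * γ * γ := by ring
    refine ⟨(γ.re ^ 2 - γ.im ^ 2) * T - 2 * (γ.im ^ 2 * U),
      (γ.re ^ 2 - γ.im ^ 2) * U + 2 * γ.re ^ 2 * T, ?_, ?_,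
      fun h => (h.mul (h3 h)).sub_even (even_two_mul _), fun h => ?_⟩
    · simp only [e, Zsqrtd.re_mul, Zsqrtd.im_mul, h1, h2]
      ring
    · simp only [e, Zsqrtd.re_mul, Zsqrtd.im_mul, h1, h2]
      ring
    · obtain ⟨c, hc⟩ := h4 h
      exact ⟨c - T - 2 * U, by rw [h]; linear_combination hc⟩

theorem four_odd {w b : ℤ} {k : ℕ} (hk : 1 ≤ k) (hw : w + 1 ≠ 0) (h1 : 2 ^ (2 * k - 1) ∣ w + 1)
    (h2 : 2 * w ^ 2 + 2 * w + 1 = b ^ (2 * k + 1)) : False := by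
  obtain ⟨γ, hγ⟩ : ∃ γ : GaussianInt, γ ^ (2 * k + 1) = ⟨w + 1, -w⟩ := by
    obtain ⟨d, u, hu⟩ := exists_associated_pow_of_mul_eq_pow' (R := GaussianInt)
      (a := ⟨w + 1, -w⟩) (b := ⟨w + 1, w⟩) (c := b) (k := 2 * k + 1)
      ⟨⟨w + 1, w⟩ - (w ^ 2 + w : ℤ) * ⟨1, -1⟩, -(w ^ 2 + w : ℤ) * ⟨1, 1⟩, by
        ext <;> simp [sq] <;> ring⟩ (by
        rw [← Int.cast_pow, ← h2]
        ext <;> simp [sq] <;> ring)
    have h4 : (u : GaussianInt) ^ 4 = 1 := by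
      have h5 := (Zsqrtd.norm_eq_one_iff' (by norm_num) _).2 u.isUnit
      generalize (u : GaussianInt) = v at h5
      obtain ⟨r, s⟩ := v
      simp only [Zsqrtd.norm_def] at h5
      have : -1 ≤ r ∧ r ≤ 1 ∧ -1 ≤ s ∧ s ≤ 1 := by
        refine ⟨?_, ?_, ?_, ?_⟩ <;> nlinarith [sq_nonneg r, sq_nonneg s]
      obtain ⟨a1, a2, a3, a4⟩ := this
      interval_cases r <;> interval_cases s <;> first | decide | simp at h5
    refine ⟨d * u ^ (2 * k + 1), ?_⟩
    rw [mul_pow, ← pow_mul, show (2 * k + 1) * (2 * k + 1) = 4 * (k * k + k) + 1 by ring,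
      pow_succ (u : GaussianInt), pow_mul (u : GaussianInt), h4, one_pow, one_mul, hu]
  have hodd : Odd (γ.re ^ 2 - γ.im ^ 2) := by
    have h3 : γ.norm ^ (2 * k + 1) = Zsqrtd.norm ⟨w + 1, -w⟩ :=
      (map_pow Zsqrtd.normMonoidHom γ _).symm.trans (congrArg Zsqrtd.norm hγ)
    have h4 : Odd (γ.norm ^ (2 * k + 1)) := ⟨w ^ 2 + w, by rw [h3, Zsqrtd.norm_def]; ring⟩
    have h5 := ((Int.odd_pow' (by omega)).1 h4).sub_even (even_two_mul (γ.im ^ 2))
    rw [Zsqrtd.norm_def] at h5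
    exact (show γ.re * γ.re - -1 * γ.im * γ.im - 2 * γ.im ^ 2 = γ.re ^ 2 - γ.im ^ 2 by ring) ▸ h5
  obtain ⟨T, -, t1, -, t3, -⟩ := re_pow_odd γ k
  rw [hγ] at t1
  dsimp only at t1
  have hr : 2 ^ (2 * k - 1) ∣ γ.re :=
    ((Int.isCoprime_two_left.2 (t3 hodd)).pow_left).dvd_of_dvd_mul_right (t1 ▸ h1)
  have hr0 : γ.re ≠ 0 := fun h => hw (by rw [t1, h, zero_mul])
  obtain ⟨δ, d1, d2, d3⟩ : ∃ δ : GaussianInt, δ.re ∣ γ.re ^ 2 - γ.im ^ 2 ∧
      δ.im ^ 2 = (2 * γ.re - δ.re) ^ 2 ∧ |(δ ^ (2 * k + 1)).re| = 2 ^ k := by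
    have p1 : (⟨1, -1⟩ : GaussianInt) ^ 4 = (-4 : ℤ) := by decide
    have p2 : (⟨1, 1⟩ : GaussianInt) ^ 4 = (-4 : ℤ) := by decide
    have p3 : (⟨1, 1⟩ : GaussianInt) ^ 3 = ⟨-2, 2⟩ := by decide
    obtain ⟨j, rfl | rfl⟩ := Nat.even_or_odd' k
    · refine ⟨⟨1, -1⟩ * γ, ⟨γ.re - γ.im, by simp; ring⟩, by simp; ring, ?_⟩
      rw [mul_pow, hγ, show 2 * (2 * j) + 1 = 4 * j + 1 by ring, pow_succ, pow_mul, p1,
        ← Int.cast_pow, mul_assoc, Zsqrtd.re_smul]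
      simp [abs_pow, pow_mul]
    · refine ⟨⟨1, 1⟩ * γ, ⟨γ.re + γ.im, by simp; ring⟩, by simp; ring, ?_⟩
      rw [mul_pow, hγ, show 2 * (2 * j + 1) + 1 = 4 * j + 3 by ring, pow_add, pow_mul, p2, p3,
        ← Int.cast_pow, mul_assoc, Zsqrtd.re_smul, abs_mul, abs_pow, pow_succ, pow_mul]
      congr 1
      simp only [Zsqrtd.re_mul]
      rw [show -2 * (w + 1) + -1 * 2 * -w = -2 by ring]
      rfl
  obtain ⟨T', -, s1, -, -, s4⟩ := re_pow_odd δ k
  rw [s1, abs_mul] at d3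
  have e1 : |δ.re| = 1 := by
    have := ((Int.isCoprime_two_right.2 (by
      obtain ⟨c, hc⟩ := d1
      exact (Int.odd_mul.1 (hc ▸ hodd)).1)).pow_right (n := k)).isUnit_of_dvd'
      dvd_rfl ((abs_dvd _ _).1 ⟨_, d3.symm⟩)
    exact Int.isUnit_iff_abs_eq.1 this
  rw [e1, one_mul] at d3
  have e2 := s4 (by rw [← sq_abs, e1, one_pow])
  have e3 : (2 : ℤ) ≤ 2 ^ k := le_self_pow₀ one_le_two (by omega)
  have e4 := Int.le_of_dvd (abs_pos.2 hr0) ((dvd_abs _ _).2 hr)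
  have e5 : 2 * (2 : ℤ) ^ (2 * k - 1) = 2 ^ k * 2 ^ k := by
    rw [← pow_succ', ← pow_add]
    congr 1
    omega
  have e6 : T' - 1 ≠ 0 := fun h => by
    rw [show T' = 1 by omega, abs_one] at d3
    omega
  have e7 := Int.le_of_dvd (abs_pos.2 e6) ((dvd_abs _ _).2 e2)
  have e8 := abs_sub T' 1
  have e9 := abs_sub_abs_le_abs_sub (2 * γ.re) δ.re
  rw [d2, ← sq_abs] at e7
  rw [abs_mul, abs_two, e1] at e9
  rw [abs_one, d3] at e8
  generalize |2 * γ.re - δ.re| = v at *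
  generalize (2 : ℤ) ^ k = P at *
  have e10 : P * P - 1 ≤ v := by linarith
  have e11 : 2 * P ≤ P * P := by nlinarith
  nlinarith

theorem four_digits {q x y : ℕ} (hq : q.Prime) (hx : Odd x)
    (h : ∑ i ∈ Finset.range 4, x ^ i = y ^ q) : x ≤ 9 := by
  obtain ⟨w, rfl⟩ := hx
  have e : 4 * ((w : ℤ) + 1) * (2 * w ^ 2 + 2 * w + 1) = y ^ q := by
    zify at h
    rw [← h]
    simp [Finset.sum_range_succ]
    ring
  have c1 : IsCoprime (2 * (w : ℤ) ^ 2 + 2 * w + 1) ((w : ℤ) + 1) := ⟨1, -2 * w, by ring⟩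
  have c2 : IsCoprime (2 * (w : ℤ) ^ 2 + 2 * w + 1) 2 := ⟨1, -(w ^ 2 + w), by ring⟩
  obtain ⟨y', hy⟩ : 2 ∣ (y : ℤ) := Int.prime_two.dvd_of_dvd_pow (n := q)
    ⟨2 * (w + 1) * (2 * w ^ 2 + 2 * w + 1), by linarith⟩
  obtain ⟨r, rfl⟩ : ∃ r, q = r + 2 := ⟨q - 2, by have := hq.two_le; omega⟩
  have e2 : ((w : ℤ) + 1) * (2 * w ^ 2 + 2 * w + 1) = 2 ^ r * y' ^ (r + 2) := by
    rw [hy, mul_pow, pow_add] at e
    linarith
  rcases hq.eq_two_or_odd' with k | ⟨k, hk⟩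
  · obtain rfl : r = 0 := by omega
    rw [pow_zero, one_mul, zero_add] at e2
    have hw : (0 : ℤ) ≤ w := Int.natCast_nonneg w
    obtain ⟨a, ha⟩ := pow_or_neg c1.symm e2
    obtain ⟨b, hb⟩ := pow_or_neg c1 ((mul_comm _ _).trans e2)
    have := four_sq (w := w) (a := a) (b := b)
      (ha.resolve_right (fun k => by nlinarith [sq_nonneg a])).symm
      (by linarith [hb.resolve_right fun k => by nlinarith [sq_nonneg b, sq_nonneg (w : ℤ)]])
    omega
  · obtain ⟨b, hb⟩ := Int.eq_pow_of_mul_eq_pow_odd_left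
      (((c2.pow_right (n := 2)).mul_right c1)) ⟨k, hk⟩ (c := y) (by linarith)
    obtain rfl : r = 2 * k - 1 := by omega
    exact (four_odd (b := b) (by omega) (by omega)
      (c2.symm.pow_left.dvd_of_dvd_mul_right ⟨_, e2⟩) (hk ▸ hb)).elim

end Pool.Agent.P.MP_71e30e_nt.Comp
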