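import Pool.Agent.P.MP_71e30e_nt.CR

set_option autoImplicit false

/-! The auxiliary polynomials and the non-vanishing of their Wronskian. -/

namespace Pool.Agent.P.MP_71e30e_nt.Comp

open MvPolynomial Finset Pool.Agent.P.MP_6e34ef_nt.Roth

/-- exponent vectors of bounded weight -/
noncomputable def mon (g : Fin 4 → ℕ) (D : ℕ) : Finset (Fin 4 →₀ ℕ) :=
  ((Fintype.piFinset fun _ => range (D + 1)).image Finsupp.equivFunOnFinite.symm).filter
    fun d => ∑ k, d k * g k ≤ D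

theorem mem_mon {g : Fin 4 → ℕ} (hg : ∀ k, 1 ≤ g k) {D : ℕ} {d : Fin 4 →₀ ℕ} :
    d ∈ mon g D ↔ ∑ k, d k * g k ≤ D := by
  rw [mon, mem_filter, and_iff_right_iff_imp]
  refine fun h => mem_image.2 ⟨d, Fintype.mem_piFinset.2 fun k => mem_range.2 ?_, by simp⟩
  have := single_le_sum (f := fun k => d k * g k) (fun _ _ => Nat.zero_le _) (mem_univ k)
  have := Nat.le_mul_of_pos_right (d k) (hg k)
  omega

theorem wt_nat (g : Fin 4 → ℕ) (d : Fin 4 →₀ ℕ) :
    wt (fun k => (g k : ℝ)) d = (∑ k, d k * g k : ℕ) := by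
  rw [wt_eq_sum]
  push_cast
  rfl

theorem card_mon (g : Fin 4 → ℕ) (D : ℕ) : (mon g D).card ≤ 16 ^ D := by
  refine (card_filter_le _ _).trans (card_image_le.trans ?_)
  rw [Fintype.card_piFinset, prod_const, card_range, card_univ, Fintype.card_fin,
    show 16 ^ D = (2 ^ D) ^ 4 by rw [← pow_mul, mul_comm, pow_mul]; norm_num]
  exact Nat.pow_le_pow_left Nat.lt_two_pow_self _

theorem card_mon_mul {g : Fin 4 → ℕ} (hg : ∀ k, 1 ≤ g k) {j : ℕ} (hj : 0 < j) (X : ℕ) :
    (mon g (j * X)).card ≤ j ^ 4 * (mon g X).card := by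
  have : (mon g (j * X)).card ≤ ((Fintype.piFinset fun _ : Fin 4 => range j) ×ˢ mon g X).card := by
    refine card_le_card_of_injOn (fun d => (fun k => d k % j, d.mapRange (· / j) (by simp)))
      (fun d hd => ?_) fun d _ d' _ h => ?_
    · rw [mem_coe, mem_mon hg] at hd
      rw [mem_coe, mem_product, mem_mon hg]
      refine ⟨Fintype.mem_piFinset.2 fun k => mem_range.2 (Nat.mod_lt _ hj),
        Nat.le_of_mul_le_mul_left (le_trans ?_ hd) hj⟩
      rw [mul_sum]
      refine sum_le_sum fun k _ => ?_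
      rw [← mul_assoc]
      exact Nat.mul_le_mul_right _ (Nat.mul_div_le _ _)
    · ext k
      have h1 : d k % j = d' k % j := congrFun (congrArg Prod.fst h) k
      have h2 : d k / j = d' k / j := by simpa using DFunLike.congr_fun (congrArg Prod.snd h) k
      rw [← Nat.div_add_mod (d k) j, h1, h2, Nat.div_add_mod]
  rwa [card_product, Fintype.card_piFinset, prod_const, card_range, card_univ,
    Fintype.card_fin] at this

theorem exists_j {g : Fin 4 → ℕ} (hg : ∀ k, 1 ≤ g k) (X : ℕ) : ∃ j, 1 ≤ j ∧ j ≤ 40 ∧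
    2 * (mon g (j * X + X)).card ≤ 3 * (mon g (j * X)).card := by
  by_contra! h
  have h1 : ∀ j ≤ 40, 3 ^ j * (mon g X).card ≤ 2 ^ j * (mon g ((j + 1) * X)).card := by
    intro j hj
    induction j with
    | zero => simp
    | succ j ih =>
      have h2 := h (j + 1) (by omega) hj
      have h3 := ih (by omega)
      rw [← add_one_mul] at h2
      rw [pow_succ, pow_succ]
      nlinarith [Nat.mul_le_mul_left (2 ^ j) h2.le]
  have h2 := (h1 40 le_rfl).trans (Nat.mul_le_mul_left _ (card_mon_mul hg (by norm_num) X))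
  have h3 : 0 < (mon g X).card := card_pos.2 ⟨0, (mem_mon hg).2 (by simp)⟩
  omega

theorem exists_aux {g : Fin 4 → ℕ} (hg : ∀ k, 1 ≤ g k) {D K : ℕ} (hDK : D < K)
    (h : 2 * (mon g K).card ≤ 3 * (mon g D).card) {Θ : MvPolynomial (Fin 4) ℚ} (hΘ : Θ ∈ ZR _)
    (h0 : coeff 0 Θ ≠ 0) {b : ℝ} (hb : 16 ≤ b) (hD : 16 ^ D ≤ b)
    (hB : ∀ d ∈ mon g K, |((coeff d Θ : ℚ) : ℝ)| ≤ b) :
    ∃ A ∈ ZR (Fin 4), ∃ B ∈ ZR (Fin 4), A ≠ 0 ∧ B ≠ 0 ∧ Lo (-fun k => (g k : ℝ)) (-D) A ∧
      Lo (-fun k => (g k : ℝ)) (-D) B ∧ n1 A ≤ b ^ 10 ∧ n1 B ≤ b ^ 10 ∧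
      Lo (fun k => (g k : ℝ)) K (A + B * Θ) := by
  classical
  set p : mon g D ⊕ mon g D → MvPolynomial (Fin 4) ℚ :=
    Sum.elim (fun d => monomial d.1 1) fun d => monomial d.1 1 * Θ with hp
  have h1 : ∀ d : Fin 4 →₀ ℕ, monomial d (1 : ℚ) ∈ ZR _ := fun d => by simpa using monomial_mem d 1
  have hZ : ∀ i, p i ∈ ZR _ := fun i => by
    cases i
    · exact h1 _
    · exact mul_mem (h1 _) hΘ
  choose z hz using fun i => mem_ZR.1 (hZ i)
  obtain ⟨t, ht0, ht1, ht2⟩ := siegel3 (α := mon g K) (fun d i => z i d.1) (B := b) (by linarith)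
    (fun d i => by
      rw [← Rat.cast_intCast (α := ℝ), hz]
      cases i with
      | inl e =>
        simp only [hp, Sum.elim_inl, coeff_monomial]
        split_ifs <;> simp <;> linarith
      | inr e =>
        simp only [hp, Sum.elim_inr, coeff_monomial_mul']
        split_ifs
        · rw [one_mul]
          refine hB _ ((mem_mon hg).2 (le_trans (sum_le_sum fun k _ => ?_) ((mem_mon hg).1 d.2)))
          exact Nat.mul_le_mul_right _ (by simp)
        · simp
          linarith)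
    (by simpa using ⟨0, (mem_mon hg).2 (by simp)⟩) (by simp; omega)
  have hN : ((mon g D).card : ℝ) ≤ b := le_trans (by exact_mod_cast card_mon g D) hD
  have key : ∀ s : mon g D → ℤ, (∀ d, |(s d : ℝ)| ≤ b ^ 9) →
      (∑ d : mon g D, monomial d.1 (s d : ℚ)) ∈ ZR _ ∧
      Lo (-fun k => (g k : ℝ)) (-D) (∑ d : mon g D, monomial d.1 (s d : ℚ)) ∧
      n1 (∑ d : mon g D, monomial d.1 (s d : ℚ)) ≤ b ^ 10 ∧
      (∑ d : mon g D, monomial d.1 (s d : ℚ) = 0 → ∀ d, s d = 0) := by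
    refine fun s hs => ⟨sum_mem fun d _ => monomial_mem _ _,
      Lo.sum _ _ fun d _ => (lo_monomial _ _ _).mono ?_, ?_, fun e d => ?_⟩
    · rw [wt_neg, wt_nat, neg_le_neg_iff]
      exact_mod_cast (mem_mon hg).1 d.2
    · refine (subW_one.sum_le _ _).trans ((sum_le_card_nsmul _ _ (b ^ 9) fun d _ => ?_).trans ?_)
      · simpa [nw_monomial] using hs d
      · rw [card_univ, Fintype.card_coe, nsmul_eq_mul, pow_succ' b 9]
        gcongr
    · have := congrArg (coeff d.1) e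
      rw [coeff_sum, sum_eq_single d (fun d' _ hd => by
        rw [coeff_monomial, if_neg fun e => hd (Subtype.ext e)]) (by simp)] at this
      simpa using this
  have hb9 : ∀ i, |(t i : ℝ)| ≤ b ^ 9 := fun i => (ht1 i).trans (by
    rw [show b ^ 9 = (b ^ 3) ^ 3 by ring, Fintype.card_sum, Fintype.card_coe]
    refine pow_le_pow_left₀ (by positivity) ?_ _
    push_cast
    nlinarith [mul_le_mul_of_nonneg_right hN (by linarith : 0 ≤ b)])
  obtain ⟨a1, a2, a3, a4⟩ := key (fun d => t (Sum.inl d)) fun d => hb9 _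
  obtain ⟨b1, b2, b3, b4⟩ := key (fun d => t (Sum.inr d)) fun d => hb9 _
  set A := ∑ d : mon g D, monomial d.1 (t (Sum.inl d) : ℚ) with hA
  set B := ∑ d : mon g D, monomial d.1 (t (Sum.inr d) : ℚ) with hB'
  have hL : Lo (fun k => (g k : ℝ)) K (A + B * Θ) := by
    intro d hd
    by_contra hlt
    have hm : d ∈ mon g K := by
      rw [wt_nat, Nat.cast_le] at hlt
      exact (mem_mon hg).2 (by omega)
    have e : A + B * Θ = ∑ i, C (t i : ℚ) * p i := by
      simp only [Fintype.sum_sum_type, hp, Sum.elim_inl, Sum.elim_inr, hA, hB', sum_mul,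
        ← mul_assoc, C_mul_monomial, mul_one]
    apply hd
    have := congrArg (Int.cast : ℤ → ℚ) (ht2 ⟨d, hm⟩)
    push_cast at this
    rw [e, coeff_sum, ← this]
    exact sum_congr rfl fun i _ => by rw [coeff_C_mul, hz, mul_comm]
  have hz0 : ∀ P : MvPolynomial (Fin 4) ℚ, Lo (fun k => (g k : ℝ)) K P →
      Lo (-fun k => (g k : ℝ)) (-D) P → P = 0 := by
    intro P h1 h2
    ext d
    by_contra hd
    have h3 := h1 d hd
    have h4 := h2 d hd
    have : (D : ℝ) < K := by exact_mod_cast hDK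
    rw [wt_neg] at h4
    linarith
  have hne : ¬ (A = 0 ∧ B = 0) := fun e => ht0 (funext fun i => by
    cases i
    · exact a4 e.1 _
    · exact b4 e.2 _)
  refine ⟨A, a1, B, b1, fun e => hne ⟨e, hz0 B ?_ b2⟩, fun e => hne ⟨hz0 A ?_ a2, e⟩, a2, b2, a3,
    b3, hL⟩
  · rw [e, zero_add] at hL
    exact lo_cancel hL h0
  · rwa [e, zero_mul, add_zero] at hL

/-- the Wronskian of a pair -/
noncomputable def dlt {σ : Type} (q : ℕ) (k : σ) (A B U : MvPolynomial σ ℚ) : MvPolynomial σ ℚ :=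
  C (q : ℚ) * U * (pderiv k A * B - A * pderiv k B) - A * B * pderiv k U

theorem lo_dlt {σ : Type} {φ : σ → ℝ} (hφ : ∀ k, 0 ≤ φ k) {q : ℕ} (hq : 1 ≤ q) (k : σ) {J : ℝ}
    {A B U G : MvPolynomial σ ℚ} {ρ u : ℚ} (h1 : Lo φ J (A + C ρ * B * G))
    (h2 : Lo φ J (U - C u * G ^ q)) : Lo φ (J - φ k) (dlt q k A B U) := by
  obtain ⟨p, rfl⟩ : ∃ p, q = p + 1 := ⟨q - 1, by omega⟩
  have a1 := lo_pderiv h1 k
  have a2 := lo_pderiv h2 k
  have a3 := h1.mono (b := J - φ k) (by linarith [hφ k])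
  have a4 := h2.mono (b := J - φ k) (by linarith [hφ k])
  have e : dlt (p + 1) k A B U =
      pderiv k (A + C ρ * B * G) * (C ((p + 1 : ℕ) : ℚ) * U * B) -
      (A + C ρ * B * G) * (C ((p + 1 : ℕ) : ℚ) * U * pderiv k B + B * pderiv k U) -
      (U - C u * G ^ (p + 1)) * (C ρ * B ^ 2 * C ((p + 1 : ℕ) : ℚ) * pderiv k G) +
      pderiv k (U - C u * G ^ (p + 1)) * (C ρ * B ^ 2 * G) := by
    simp only [dlt, map_add, map_sub, pderiv_mul, pderiv_C, pderiv_pow, Nat.add_sub_cancel,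
      map_natCast]
    ring
  rw [e]
  exact (((lo_mul_right hφ a1 _).sub (lo_mul_right hφ a3 _)).sub (lo_mul_right hφ a4 _)).add
    (lo_mul_right hφ a2 _)

theorem rm_prod {ι : Type} (s : Finset ι) (f : ι → Polynomial ℂ) (a : ι → ℕ) (hf : ∀ i, f i ≠ 0)
    (ρ : ℂ) : Polynomial.rootMultiplicity ρ (∏ i ∈ s, f i ^ a i) =
      ∑ i ∈ s, a i * Polynomial.rootMultiplicity ρ (f i) := by
  classical
  rw [← Polynomial.count_roots, Polynomial.roots_prod _ _
    (prod_ne_zero_iff.2 fun i _ => pow_ne_zero _ (hf i)), Multiset.count_bind]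
  refine sum_congr rfl fun i _ => ?_
  rw [Polynomial.roots_pow, Multiset.count_nsmul, Polynomial.count_roots]

/-- the factors of the radicand -/
noncomputable def fac {σ : Type} (q : ℕ) (k : σ) (c : ℕ) : MvPolynomial σ ℚ :=
  1 - (C ((q : ℚ) ^ 2) * X k) ^ c

theorem dlt_ne_zero {σ ι : Type} [Fintype ι] {q : ℕ} (hq : 1 ≤ q) (k : ι → σ) (c a : ι → ℕ)
    (hc : ∀ i, 1 ≤ c i) (hinj : ∀ i j, k i = k j → c i = c j → i = j) (ha : ∃ i, ¬ q ∣ a i) :
    ∃ k0, ∀ A B : MvPolynomial σ ℚ, A ≠ 0 → B ≠ 0 →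
      dlt q k0 A B (∏ i, fac q (k i) (c i) ^ a i) ≠ 0 := by
  classical
  obtain ⟨i0, hi0, hmax⟩ := exists_max_image (univ.filter fun i => ¬ q ∣ a i) c
    (by simpa [Finset.Nonempty] using ha)
  refine ⟨k i0, fun A B hA hB h0 => ?_⟩
  have hf : ∀ i, fac q (k i) (c i) ≠ 0 := fun i h => by
    have := congrArg constantCoeff h
    have h1 : c i ≠ 0 := Nat.one_le_iff_ne_zero.1 (hc i)
    simp [fac, h1] at this
  obtain ⟨y, hy⟩ : ∃ y : σ → ℚ, eval y (A * B * ∏ i, fac q (k i) (c i)) ≠ 0 := by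
    by_contra! h
    exact mul_ne_zero (mul_ne_zero hA hB) (prod_ne_zero_iff.2 fun i _ => hf i)
      (MvPolynomial.funext fun y => by simpa using h y)
  set ψ : MvPolynomial σ ℚ →ₐ[ℚ] Polynomial ℂ :=
    aeval fun j => if j = k i0 then Polynomial.X else Polynomial.C (y j : ℂ) with hψ
  have h1 : ∀ P, ψ (pderiv (k i0) P) = Polynomial.derivative (ψ P) := by
    intro P
    induction P using MvPolynomial.induction_on with
    | C r => simp [hψ]
    | add p p' hp hp' => simp only [map_add, hp, hp']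
    | mul_X p j hp =>
      rw [pderiv_mul, map_add, map_mul, map_mul, map_mul, hp, Polynomial.derivative_mul]
      congr 2
      by_cases e : j = k i0
      · simp [hψ, e]
      · simp [hψ, e, pderiv_X_of_ne e]
  have h2 : ∀ P, ψ P = 0 → eval y P = 0 := by
    have : ∀ P, (ψ P).eval (y (k i0) : ℂ) = (eval y P : ℚ) := by
      intro P
      induction P using MvPolynomial.induction_on with
      | C r => simp [hψ]
      | add p p' hp hp' => simp only [map_add, Polynomial.eval_add, hp, hp', Rat.cast_add]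
      | mul_X p j hp =>
        rw [map_mul, map_mul, Polynomial.eval_mul, hp, Rat.cast_mul]
        congr 1
        by_cases e : j = k i0 <;> simp [hψ, e]
    intro P hP
    have h3 := this P
    rw [hP, Polynomial.eval_zero] at h3
    exact_mod_cast h3.symm
  simp only [map_mul, map_prod, ne_eq, mul_eq_zero, not_or, prod_eq_zero_iff, mem_univ, true_and,
    not_exists] at hy
  have hf' : ∀ i, ψ (fac q (k i) (c i)) ≠ 0 := fun i h => hy.2 i (h2 _ h)
  have hζ := Complex.isPrimitiveRoot_exp (c i0) (by have := hc i0; omega)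
  set ζ := Complex.exp (2 * Real.pi * Complex.I / c i0) with hζ'
  have hq0 : (q : ℂ) ≠ 0 := by exact_mod_cast (by omega : q ≠ 0)
  have e1 : ∀ i, k i = k i0 → ψ (fac q (k i) (c i)) =
      1 - (Polynomial.C ((q : ℂ) ^ 2) * Polynomial.X) ^ c i := fun i hi => by simp [hψ, fac, hi]
  have e2 : (q : ℂ) ^ 2 * (ζ / q ^ 2) = ζ := mul_div_cancel₀ _ (pow_ne_zero _ hq0)
  have m0 : Polynomial.rootMultiplicity (ζ / q ^ 2) (ψ (fac q (k i0) (c i0))) = 1 := by
    have a1 : 0 < Polynomial.rootMultiplicity (ζ / q ^ 2) (ψ (fac q (k i0) (c i0))) := by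
      rw [Polynomial.rootMultiplicity_pos (hf' i0), e1 i0 rfl]
      simp [e2, hζ.pow_eq_one]
    have a2 : ¬ 1 < Polynomial.rootMultiplicity (ζ / q ^ 2) (ψ (fac q (k i0) (c i0))) := by
      rw [Polynomial.one_lt_rootMultiplicity_iff_isRoot (hf' i0), e1 i0 rfl]
      have : c i0 ≠ 0 := by have := hc i0; omega
      simp [Polynomial.derivative_pow, e2, this, hq0, hζ.ne_zero this]
    omega
  have m1 : ∀ i ∈ univ.erase i0, q ∣ a i *
      Polynomial.rootMultiplicity (ζ / q ^ 2) (ψ (fac q (k i) (c i))) := by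
    intro i hi
    by_cases hd : q ∣ a i
    · exact hd.mul_right _
    rw [Polynomial.rootMultiplicity_eq_zero, mul_zero]
    · exact dvd_zero _
    by_cases e : k i = k i0
    · have a1 : c i < c i0 := lt_of_le_of_ne (hmax i (by simpa using hd))
        fun h => (mem_erase.1 hi).1 (hinj _ _ e h)
      have a2 := hζ.pow_ne_one_of_pos_of_lt (by have := hc i; omega) a1
      rw [e1 i e]
      simpa [e2, sub_eq_zero] using a2.symm
    · have a1 : ψ (fac q (k i) (c i)) = Polynomial.C (1 - ((q : ℂ) ^ 2 * y (k i)) ^ c i) := by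
        simp [hψ, fac, e]
      intro h
      apply hf' i
      rw [a1] at h ⊢
      rw [Polynomial.IsRoot.def, Polynomial.eval_C] at h
      rw [h, map_zero]
  have hU : ψ (∏ i, fac q (k i) (c i) ^ a i) = ∏ i, ψ (fac q (k i) (c i)) ^ a i := by simp
  obtain ⟨b, hb1, hb2⟩ := Polynomial.exists_eq_pow_rootMultiplicity_mul_and_not_dvd _
    (prod_ne_zero_iff.2 fun i _ => pow_ne_zero (a i) (hf' i)) (ζ / q ^ 2)
  refine wr_ne_zero (q := q) (U := ∏ i, ψ (fac q (k i) (c i)) ^ a i) (V := 1)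
    ⟨ζ / q ^ 2, _, 0, b, 1, hb1, by simp, by rwa [Polynomial.dvd_iff_isRoot] at hb2, by simp, ?_⟩
    (fun h => hy.1.1 (h2 _ h)) (fun h => hy.1.2 (h2 _ h)) ?_
  · rw [rm_prod _ _ _ hf', ← add_sum_erase _ _ (mem_univ i0), m0, mul_one, Nat.cast_zero, sub_zero,
      Int.natCast_dvd_natCast, Nat.dvd_add_left (dvd_sum m1)]
    exact (mem_filter.1 hi0).2
  · have := congrArg ψ h0
    simp only [dlt, map_sub, map_mul, h1, map_natCast, map_zero, hU] at this
    simp only [wr, Polynomial.derivative_one, mul_one, mul_zero, sub_zero]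
    exact this

end Pool.Agent.P.MP_71e30e_nt.Comp
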