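import Pool.Agent.P.MP_71e30e_nt.CG1

set_option autoImplicit false

/-! Expansions at the origin and at the point attached to a solution. -/

namespace Pool.Agent.P.MP_71e30e_nt.Comp

open MvPolynomial Finset Pool.Agent.P.MP_6e34ef_nt.Roth
open Pool.Agent.Lib.Ridout (tau tau_X tau_C pderiv_tau)

variable {σ : Type}

/-- congruent to one modulo `q ^ 2` and modulo the variables -/
def Cg (φ : σ → ℝ) (q : ℕ) (f : MvPolynomial σ ℚ) : Prop :=
  ∃ W ∈ ZR σ, Lo φ 1 W ∧ f = 1 - C ((q : ℚ) ^ 2) * W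

theorem sq_mem (q : ℕ) : (C ((q : ℚ) ^ 2) : MvPolynomial σ ℚ) ∈ ZR σ := by
  rw [map_pow]
  exact pow_mem (C_nat_mem q) 2

theorem Cg.prod_pow {φ : σ → ℝ} (hφ : ∀ k, 0 ≤ φ k) {q : ℕ} {ι : Type} (s : Finset ι)
    {f : ι → MvPolynomial σ ℚ} (a : ι → ℕ) (h : ∀ i, Cg φ q (f i)) :
    Cg φ q (∏ i ∈ s, f i ^ a i) := by
  have h1 : Cg φ q 1 := ⟨0, zero_mem _, Lo.zero, by simp⟩
  have h2 : ∀ f f', Cg φ q f → Cg φ q f' → Cg φ q (f * f') := by
    rintro _ _ ⟨W, a1, a2, rfl⟩ ⟨W', b1, b2, rfl⟩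
    exact ⟨W + W' - W * (C ((q : ℚ) ^ 2) * W'), sub_mem (add_mem a1 b1)
      (mul_mem a1 (mul_mem (sq_mem q) b1)), (a2.add b2).sub (lo_mul_right hφ a2 _), by ring⟩
  refine prod_induction _ _ h2 h1 fun i _ => ?_
  induction a i with
  | zero => simpa using h1
  | succ n ih => rw [pow_succ]; exact h2 _ _ ih (h i)

theorem Cg.root {φ : σ → ℝ} (hφ : ∀ k, 0 ≤ φ k) {q : ℕ} (hq : 1 ≤ q) (N : ℕ)
    {V : MvPolynomial σ ℚ} (h : Cg φ q V) :
    ∃ G ∈ ZR σ, Lo φ N (G ^ q - V) ∧ coeff 0 G = 1 ∧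
      ∀ w, SubW w → ∀ η : ℝ, η ≤ 1 / 2 → nw w (V - 1) ≤ η → nw w (G - 1) ≤ 2 * η := by
  obtain ⟨W, h1, h2, rfl⟩ := h
  obtain ⟨G, a1, a2, a3, a4⟩ := Comp.root hφ hq N h1 h2
  refine ⟨G, a1, a2, ?_, fun w hw η hη h => a4 w hw η hη ?_⟩
  · have := lo_coeff_zero a3 one_pos
    rwa [coeff_sub, coeff_zero_one, sub_eq_zero] at this
  · rwa [sub_sub_cancel_left, nw_neg] at h

theorem near_prod {w : (σ →₀ ℕ) → ℝ} (hw : SubW w) {ι : Type} [Fintype ι]
    {f : ι → MvPolynomial σ ℚ} (a : ι → ℕ) {s : ℝ} {S : ℕ} (hs : 0 ≤ s) (hS : ∑ i, a i ≤ S)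
    (h1 : S * s ≤ 1) (h : ∀ i, nw w (f i - 1) ≤ s) : nw w (∏ i, f i ^ a i - 1) ≤ 2 * (S * s) := by
  refine ((Nr.prod hw univ fun i _ => (Nr.of_le (h i)).pow hw (a i)).mono ?_).le (by positivity) h1
  rw [← sum_mul]
  exact mul_le_mul_of_nonneg_right (by exact_mod_cast hS) hs

theorem nw_rad_X [Fintype σ] (t : σ → ℝ) (k : σ) : nw (rad t) (X k) = t k := by
  classical
  simp [X, nw_monomial, rad_single]

theorem exists_theta {ι : Type} [Fintype ι] [Fintype σ] (k : ι → σ) (c a : ι → ℕ) (g : σ → ℕ)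
    {q S : ℕ} (hq : 1 ≤ q) (hc : ∀ i, 1 ≤ c i) (hg : ∀ h, 1 ≤ g h) (hS : ∑ i, a i ≤ S) {s : ℝ}
    (hs : 0 ≤ s) (hs1 : s ≤ 1) (h1 : 16 * q * S * s ≤ 1) (K : ℕ) :
    ∃ Θ ∈ ZR σ, coeff 0 Θ = 1 ∧ Lo (fun h => (g h : ℝ)) K (Θ ^ q - ∏ i, fac q (k i) (c i) ^ a i) ∧
      nw (rad fun h => s ^ g h / q ^ 2) (Θ - 1) ≤ 1 / (4 * q) ∧
      nw (rad fun h => s ^ g h / q ^ 2) (Θ ^ q - ∏ i, fac q (k i) (c i) ^ a i) ≤ 1 := by
  have hφ : ∀ h, (0 : ℝ) ≤ g h := fun h => Nat.cast_nonneg _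
  have hq' : (1 : ℝ) ≤ q := by exact_mod_cast hq
  have hw := subW_rad (t := fun h => s ^ g h / q ^ 2) fun h => by positivity
  obtain ⟨Θ, a1, a2, a3, a4⟩ := (Cg.prod_pow hφ univ (f := fun i => fac q (k i) (c i)) a fun i => by
    obtain ⟨j, hj⟩ : ∃ j, c i = j + 1 := ⟨c i - 1, by have := hc i; omega⟩
    refine ⟨X (k i) * (C ((q : ℚ) ^ 2) * X (k i)) ^ j, mul_mem (X_mem _)
      (pow_mem (mul_mem (sq_mem q) (X_mem _)) _),
      lo_mul_right hφ ((lo_X _ _).mono (by exact_mod_cast hg _)) _, ?_⟩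
    rw [fac, hj]
    ring).root hφ hq K
  have hS0 : (0 : ℝ) ≤ S * s := by positivity
  have h2 : S * s ≤ 1 / (16 * q) := by
    rw [le_div_iff₀ (by positivity)]
    linarith
  have h3 : (1 : ℝ) / (16 * q) ≤ 1 / 16 := by gcongr; linarith
  have h4 := near_prod hw (f := fun i => fac q (k i) (c i)) a hs hS (by linarith) fun i => by
    rw [fac, sub_sub_cancel_left, nw_neg]
    refine (hw.pow_le (a := s) ?_ _).trans (pow_le_of_le_one hs hs1 (by have := hc i; omega))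
    rw [nw_C_mul, nw_rad_X]
    push_cast
    rw [abs_of_nonneg (by positivity), mul_div_cancel₀ _ (by positivity)]
    exact pow_le_of_le_one hs hs1 (by have := hg (k i); omega)
  have h5 : nw (rad fun h => s ^ g h / q ^ 2) (Θ - 1) ≤ 1 / (4 * q) :=
    (a4 _ hw _ (by linarith) h4).trans (by
      have : (1 : ℝ) / (4 * q) = 4 * (1 / (16 * q)) := by field_simp; norm_num
      linarith)
  refine ⟨Θ, a1, a3, a2, h5, ?_⟩
  have h6 := (((Nr.of_le h5).pow hw q).mono (t' := 1 / 4) (le_of_eq (by field_simp))).le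
    (by norm_num) (by norm_num)
  have h7 := hw.sub_le (Θ ^ q - 1) (∏ i, fac q (k i) (c i) ^ a i - 1)
  rw [sub_sub_sub_cancel_right] at h7
  linarith

/-- the change of variables to the point attached to a solution -/
noncomputable def loc (q x : ℕ) (g m : σ → ℕ) : MvPolynomial σ ℚ →ₐ[ℚ] MvPolynomial σ ℚ :=
  aeval fun k => C (1 / ((q ^ 2 * x ^ g k : ℕ) : ℚ)) * (1 + C ((q ^ 2 * m k : ℕ) : ℚ) * X k)

theorem loc_int [Fintype σ] {q x : ℕ} (hq : 1 ≤ q) (hx : 1 ≤ x) {g : σ → ℕ} (hg : ∀ h, 1 ≤ g h)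
    (m : σ → ℕ) {D : ℕ} {A : MvPolynomial σ ℚ} (hA : A ∈ ZR σ)
    (hD : Lo (-fun h => (g h : ℝ)) (-D) A) : C (((q ^ 2 * x) ^ D : ℕ) : ℚ) * loc q x g m A ∈ ZR σ := by
  rw [A.as_sum, map_sum, mul_sum]
  refine sum_mem fun d hd => ?_
  have h1 := hD d (mem_support_iff.1 hd)
  rw [wt_neg, wt_eq_sum, neg_le_neg_iff] at h1
  have h2 : ∑ k, g k * d k ≤ D := by
    simp only [mul_comm (g _)]
    exact_mod_cast h1
  obtain ⟨n, hn⟩ : ∏ k, (q ^ 2 * x ^ g k) ^ d k ∣ (q ^ 2 * x) ^ D := by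
    refine (prod_dvd_prod_of_dvd _ (fun k => (q ^ 2 * x) ^ (g k * d k)) fun k _ => ?_).trans ?_
    · rw [pow_mul, mul_pow _ x]
      exact pow_dvd_pow_of_dvd (mul_dvd_mul_right (dvd_pow_self _ (by have := hg k; omega)) _) _
    · rw [prod_pow_eq_pow_sum]
      exact pow_dvd_pow _ h2
  obtain ⟨z, hz⟩ := mem_ZR.1 hA d
  have e : (((q ^ 2 * x) ^ D : ℕ) : ℚ) * ∏ k, (1 / ((q ^ 2 * x ^ g k : ℕ) : ℚ)) ^ d k = n := by
    rw [hn, Nat.cast_mul, Nat.cast_prod, mul_right_comm, ← prod_mul_distrib, prod_eq_one, one_mul]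
    intro k _
    rw [Nat.cast_pow, ← mul_pow, mul_one_div_cancel (by positivity), one_pow]
  rw [loc, aeval_monomial, Finsupp.prod_fintype _ _ (by simp), algebraMap_eq, ← hz]
  simp only [mul_pow, prod_mul_distrib, ← map_pow C, ← map_prod C]
  rw [← mul_pow, mul_left_comm, ← mul_assoc (C (((q ^ 2 * x) ^ D : ℕ) : ℚ)), ← map_mul, e]
  exact mul_mem (C_mem _) (mul_mem (C_nat_mem _) (prod_mem fun k _ =>
    pow_mem (add_mem (one_mem _) (mul_mem (C_nat_mem _) (X_mem _))) _))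

theorem lo_tau [Fintype σ] {q x : ℕ} (hq : 1 ≤ q) (hx : 1 ≤ x) (g : σ → ℕ) {m : σ → ℕ}
    (hm : ∀ h, 1 ≤ m h) {φ : σ → ℝ} (hφ : ∀ k, 0 ≤ φ k) (k : σ) {J : ℝ}
    {A B U G : MvPolynomial σ ℚ} {ρ u : ℚ}
    (h1 : Lo φ J (loc q x g m A + C ρ * loc q x g m B * G))
    (h2 : Lo φ J (loc q x g m U - C u * G ^ q)) :
    Lo φ (J - φ k) (tau (fun h => 1 / ((q ^ 2 * x ^ g h : ℕ) : ℚ)) (dlt q k A B U)) := by
  set sc : MvPolynomial σ ℚ →ₐ[ℚ] MvPolynomial σ ℚ :=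
    aeval fun h => C (((q ^ 2 * x ^ g h : ℕ) : ℚ) / ((q ^ 2 * m h : ℕ) : ℚ)) * X h with hsc
  have e : ∀ P, sc (loc q x g m P) = tau (fun h => 1 / ((q ^ 2 * x ^ g h : ℕ) : ℚ)) P := by
    refine DFunLike.congr_fun (f := sc.comp (loc q x g m)) (MvPolynomial.algHom_ext fun h => ?_)
    have := hm h
    have e1 : 1 / ((q ^ 2 * x ^ g h : ℕ) : ℚ) * (((q ^ 2 * m h : ℕ) : ℚ) *
        (((q ^ 2 * x ^ g h : ℕ) : ℚ) / ((q ^ 2 * m h : ℕ) : ℚ))) = 1 := by field_simp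
    rw [AlgHom.comp_apply, loc, aeval_X, tau_X, map_mul, map_add, map_mul, map_one, algHom_C,
      algHom_C, hsc, aeval_X, algebraMap_eq, mul_add, mul_one, ← mul_assoc (C _) (C _) (X h),
      ← mul_assoc, ← map_mul, ← map_mul, e1, map_one, one_mul, add_comm]
  have a1 := lo_aeval (fun h => lo_C_mul (lo_X φ h) _) h1 (f := fun h =>
    C (((q ^ 2 * x ^ g h : ℕ) : ℚ) / ((q ^ 2 * m h : ℕ) : ℚ)) * X h)
  have a2 := lo_aeval (fun h => lo_C_mul (lo_X φ h) _) h2 (f := fun h =>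
    C (((q ^ 2 * x ^ g h : ℕ) : ℚ) / ((q ^ 2 * m h : ℕ) : ℚ)) * X h)
  rw [← hsc] at a1 a2
  simp only [map_add, map_sub, map_mul, map_pow, algHom_C, algebraMap_eq, e] at a1 a2
  have := lo_dlt hφ hq k a1 a2
  simpa only [dlt, map_sub, map_mul, tau_C, pderiv_tau] using this

theorem exists_G {ι : Type} [Fintype ι] [Fintype σ] (k : ι → σ) (c a : ι → ℕ) (g m : σ → ℕ)
    {q x S Cc : ℕ} (hq : 1 ≤ q) (hx : 2 ≤ x) (hc : ∀ i, 1 ≤ c i ∧ c i ≤ Cc) (hg : ∀ h, 1 ≤ g h)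
    (hm : ∀ h, 1 ≤ m h) (hd : ∀ i, x ^ (g (k i) * c i) - 1 ∣ m (k i)) (hS : ∑ i, a i ≤ S)
    (h1 : 2 ^ (Cc + 7) * q * S ≤ x) {ρ : ℚ} (hρ : 0 ≤ ρ)
    (he : ρ ^ q = ∏ i, (1 - 1 / (x : ℚ) ^ (g (k i) * c i)) ^ a i) (J : ℕ) :
    ∃ G ∈ ZR σ,
      Lo (fun h => (g h : ℝ)) J (loc q x g m (∏ i, fac q (k i) (c i) ^ a i) - C (ρ ^ q) * G ^ q) ∧
      nw (rad fun h => 1 / (q ^ 2 * m h)) (C ρ * G - 1) ≤ 1 / (4 * q) := by
  have hφ : ∀ h, (0 : ℝ) ≤ g h := fun h => Nat.cast_nonneg _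
  have hq' : (1 : ℝ) ≤ q := by exact_mod_cast hq
  have hx' : (2 : ℝ) ≤ x := by exact_mod_cast hx
  have hw := subW_rad (t := fun h => (1 : ℝ) / (q ^ 2 * m h)) fun h => by positivity
  choose n hn using hd
  have hy : ∀ i, x ≤ x ^ (g (k i) * c i) := fun i =>
    Nat.le_self_pow (Nat.mul_ne_zero (by have := hg (k i); omega) (by have := (hc i).1; omega)) _
  have hn' : ∀ i, (m (k i) : ℚ) = ((x : ℚ) ^ (g (k i) * c i) - 1) * n i := fun i => by
    rw [hn i, Nat.cast_mul, Nat.cast_sub (by have := hy i; omega)]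
    simp
  set W : ι → MvPolynomial σ ℚ := fun i => X (k i) * (C (n i : ℚ) *
    ∑ j ∈ range (c i), (1 + C ((q ^ 2 * m (k i) : ℕ) : ℚ) * X (k i)) ^ j) with hW
  obtain ⟨G, a1, a2, -, a4⟩ := (Cg.prod_pow hφ univ (f := fun i => 1 - C ((q : ℚ) ^ 2) * W i) a
    fun i => ⟨W i, mul_mem (X_mem _) (mul_mem (C_nat_mem _) (sum_mem fun j _ =>
      pow_mem (add_mem (one_mem _) (mul_mem (C_nat_mem _) (X_mem _))) _)),
      lo_mul_right hφ ((lo_X _ _).mono (by exact_mod_cast hg _)) _, rfl⟩).root hφ hq J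
  have e1 : ∀ i, loc q x g m (fac q (k i) (c i)) =
      C (1 - 1 / (x : ℚ) ^ (g (k i) * c i)) * (1 - C ((q : ℚ) ^ 2) * W i) := by
    intro i
    have b1 : (q : ℚ) ^ 2 * (1 / ((q ^ 2 * x ^ g (k i) : ℕ) : ℚ)) = 1 / (x : ℚ) ^ g (k i) := by
      push_cast
      field_simp
    have b2 := geom_sum_mul (1 + C ((q ^ 2 * m (k i) : ℕ) : ℚ) * X (k i) : MvPolynomial σ ℚ) (c i)
    have b3 : 1 / (x : ℚ) ^ (g (k i) * c i) * ((q ^ 2 * m (k i) : ℕ) : ℚ) =
        (1 - 1 / (x : ℚ) ^ (g (k i) * c i)) * (q ^ 2 * n i) := by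
      push_cast
      rw [hn']
      field_simp
    have b4 := congrArg (C : ℚ →+* MvPolynomial σ ℚ) b3
    rw [fac, map_sub, map_one, map_pow, map_mul, algHom_C, loc, aeval_X, algebraMap_eq,
      ← mul_assoc, ← map_mul, b1, mul_pow, ← map_pow, one_div_pow, ← pow_mul]
    simp only [hW, map_mul, map_sub, map_one] at b2 b4 ⊢
    linear_combination (C (1 / (x : ℚ) ^ (g (k i) * c i))) * b2 - (X (k i) *
      ∑ j ∈ range (c i), (1 + C ((q ^ 2 * m (k i) : ℕ) : ℚ) * X (k i)) ^ j) * b4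
  refine ⟨G, a1, ?_, ?_⟩
  · simp only [map_prod, map_pow, e1, mul_pow, prod_mul_distrib]
    simp only [← map_pow, ← map_prod, ← he]
    rw [← mul_sub, ← neg_sub]
    exact lo_C_mul (by simpa only [map_pow] using a2.neg) _
  have h2 : (S : ℝ) * (2 ^ (Cc + 1) / x) ≤ 1 / (64 * q) := by
    have : (2 : ℝ) ^ (Cc + 7) * q * S ≤ x := by exact_mod_cast h1
    rw [← mul_div_assoc, div_le_div_iff₀ (by positivity) (by positivity)]
    refine le_trans (le_of_eq (by ring)) (this.trans (one_mul _).ge)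
  have h3 : (1 : ℝ) / (64 * q) ≤ 1 / 64 := by gcongr; linarith
  have h4 := near_prod hw (f := fun i => 1 - C ((q : ℚ) ^ 2) * W i) a
    (s := 2 ^ (Cc + 1) / x) (by positivity) hS (by linarith) fun i => by
      have b0 : (0 : ℝ) < m (k i) := by exact_mod_cast hm _
      have b1 : nw (rad fun h => (1 : ℝ) / (q ^ 2 * m h))
          (1 + C ((q ^ 2 * m (k i) : ℕ) : ℚ) * X (k i)) ≤ 1 + 1 := le_of_near hw (by
        rw [add_sub_cancel_left, nw_C_mul, nw_rad_X]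
        push_cast
        rw [abs_of_nonneg (by positivity), mul_one_div_cancel (by positivity)])
      have b2 := (hw.sum_le (range (c i)) _).trans (sum_le_sum fun j _ => hw.pow_le b1 j)
      have b3 : ∑ j ∈ range (c i), (1 + 1 : ℝ) ^ j ≤ 2 ^ Cc := by
        rw [geom_sum_eq (by norm_num)]
        have := pow_le_pow_right₀ (one_le_two (α := ℝ)) (hc i).2
        norm_num
        linarith
      have b4 : (x : ℝ) * n i ≤ 2 * m (k i) := by
        have b5 : (m (k i) : ℝ) = ((x : ℝ) ^ (g (k i) * c i) - 1) * n i := by exact_mod_cast hn' i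
        have b6 : (x : ℝ) ≤ x ^ (g (k i) * c i) := by exact_mod_cast hy i
        rw [b5, ← mul_assoc]
        exact mul_le_mul_of_nonneg_right (by linarith) (Nat.cast_nonneg _)
      rw [sub_sub_cancel_left, nw_neg, nw_C_mul]
      refine (mul_le_mul_of_nonneg_left (hw.mul_le' (nw_rad_X _ _).le
        (b := n i * 2 ^ Cc) ?_) (abs_nonneg _)).trans ?_
      · rw [nw_C_mul, Rat.cast_natCast, Nat.abs_cast]
        exact mul_le_mul_of_nonneg_left (b2.trans b3) (Nat.cast_nonneg _)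
      · push_cast
        rw [abs_of_nonneg (by positivity), le_div_iff₀ (by positivity), pow_succ 2]
        field_simp
        linarith
  have h5 := a4 _ hw _ (by linarith) h4
  have h6 : |((ρ - 1 : ℚ) : ℝ)| ≤ 1 / (16 * q) := by
    have hxq : (0 : ℚ) < x := by positivity
    have b0 : ∀ i, 1 / (x : ℚ) ^ (g (k i) * c i) ≤ 1 / x := fun i =>
      one_div_le_one_div_of_le hxq (by exact_mod_cast hy i)
    have b00 : 1 / (x : ℚ) ≤ 1 := by
      rw [div_le_one hxq]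
      exact_mod_cast (by omega : 1 ≤ x)
    have b1 : ρ ^ q ≤ 1 := he ▸ prod_le_one (fun i _ => pow_nonneg (by linarith [b0 i]) _)
      fun i _ => pow_le_one₀ (by linarith [b0 i]) (sub_le_self _ (by positivity))
    have b2 : ρ ≤ 1 := (pow_le_one_iff_of_nonneg hρ (by omega)).1 b1
    have b3 : 1 - S / (x : ℚ) ≤ ρ := by
      refine le_trans ?_ (pow_le_of_le_one hρ b2 (by omega : q ≠ 0))
      rw [he]
      refine le_trans ?_ (prod_le_prod (f := fun i => (1 - 1 / (x : ℚ)) ^ a i)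
        (fun i _ => pow_nonneg (by linarith) _)
        fun i _ => pow_le_pow_left₀ (by linarith) (by linarith [b0 i]) _)
      rw [prod_pow_eq_pow_sum]
      have b4 := one_add_mul_le_pow (a := -(1 / (x : ℚ))) (by linarith) (∑ i, a i)
      have b5 : ((∑ i, a i : ℕ) : ℚ) * (1 / x) ≤ S / x := by
        rw [mul_one_div]
        gcongr
      rw [← sub_eq_add_neg] at b4
      linarith
    have b6 : (1 : ℝ) - S / x ≤ ρ := by simpa using (Rat.cast_le (K := ℝ)).2 b3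
    have b7 : (ρ : ℝ) ≤ 1 := by exact_mod_cast b2
    have b8 : (S : ℝ) / x ≤ S * (2 ^ (Cc + 1) / x) := by
      rw [div_eq_mul_one_div]
      gcongr
      exact one_le_pow₀ one_le_two
    have b9 : (1 : ℝ) / (64 * q) ≤ 1 / (16 * q) := by gcongr; norm_num
    push_cast
    rw [abs_of_nonpos (by linarith)]
    linarith
  have h7 : nw (rad fun h => (1 : ℝ) / (q ^ 2 * m h)) (C ρ - 1) ≤ 1 / (16 * q) := by
    rw [← map_one C, ← map_sub]
    exact (hw.C_le _).trans h6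
  have h8 : (1 : ℝ) / (16 * q) = 4 * (1 / (64 * q)) := by field_simp; norm_num
  have h9 : (1 : ℝ) / (4 * q) = 16 * (1 / (64 * q)) := by field_simp; norm_num
  have h10 : (0 : ℝ) ≤ 1 / (64 * q) := by positivity
  refine ((((Nr.of_le h7).mul hw (Nr.of_le h5)).mono (t' := 8 * (1 / (64 * q))) ?_).le
    (by positivity) (by linarith)).trans (by linarith)
  linarith

end Pool.Agent.P.MP_71e30e_nt.Comp
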