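import Pool.Agent.P.MP_71e30e_nt.CG2

set_option autoImplicit false

/-! A Runge type theorem on several scales. -/

namespace Pool.Agent.P.MP_71e30e_nt.Comp

open MvPolynomial Finset Pool.Agent.P.MP_6e34ef_nt.Roth

variable {σ : Type}

theorem vanish [Fintype σ] {q x : ℕ} {g m : σ → ℕ} {F D K J κ u : ℕ} {s H : ℝ} (hq : 1 ≤ q)
    (hx : 1 ≤ x) (hg : ∀ h, 1 ≤ g h) (hm : ∀ h, 1 ≤ m h) (hmF : ∀ h, m h ≤ x ^ (F * g h))
    (hs : 0 < s) (hs1 : s ≤ 1) (hθ : 2 ≤ s * x) {A B Θ U G : MvPolynomial σ ℚ} (zA : A ∈ ZR σ)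
    (zB : B ∈ ZR σ) (zG : G ∈ ZR σ) (dA : Lo (-fun h => (g h : ℝ)) (-D) A)
    (dB : Lo (-fun h => (g h : ℝ)) (-D) B) (nA : n1 A ≤ H) (nB : n1 B ≤ H)
    (h1 : Lo (fun h => (g h : ℝ)) K (A + B * Θ)) (h2 : Lo (fun h => (g h : ℝ)) K (Θ ^ q - U))
    (h3 : nw (rad fun h => s ^ g h / q ^ 2) (Θ - 1) ≤ 1 / (4 * q))
    (h4 : nw (rad fun h => s ^ g h / q ^ 2) (Θ ^ q - U) ≤ 1)
    (h5 : Lo (fun h => (g h : ℝ)) J (loc q x g m U - C (((u : ℚ) / x ^ κ) ^ q) * G ^ q))
    (h6 : nw (rad fun h => 1 / (q ^ 2 * m h)) (C ((u : ℚ) / x ^ κ) * G - 1) ≤ 1 / (4 * q))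
    (hn : 5 * H * (2 / (s * x)) ^ K * ((q ^ 2 * x ^ F) ^ J * ((q ^ 2 * x) ^ D * x ^ κ)) < 1) :
    Lo (fun h => (g h : ℝ)) J (loc q x g m A + C ((u : ℚ) / x ^ κ) * loc q x g m B * G) := by
  have hφ : ∀ h, (0 : ℝ) ≤ g h := fun h => Nat.cast_nonneg _
  have hq' : (1 : ℝ) ≤ q := by exact_mod_cast hq
  have hx' : (1 : ℝ) ≤ x := by exact_mod_cast hx
  have ht : ∀ h, (0 : ℝ) ≤ 1 / (q ^ 2 * m h) := fun h => by positivity
  have hw := subW_tw hφ J ht
  have hR := subW_rad (t := fun h => s ^ g h / q ^ 2) fun h => by positivity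
  set w := tw (fun h => (g h : ℝ)) J fun h => 1 / (q ^ 2 * m h) with hw'
  set R := rad fun h => s ^ g h / q ^ 2 with hR'
  set θ := 2 / (s * x) with hθ'
  set ρ : ℚ := u / x ^ κ with hρ
  have hθ0 : 0 ≤ θ := by positivity
  have hθ1 : θ ≤ 1 := (div_le_one (by positivity)).2 hθ
  have key : ∀ (n : ℕ) (P : MvPolynomial σ ℚ), Lo (fun h => (g h : ℝ)) n P →
      nw w (loc q x g m P) ≤ θ ^ n * nw R P := by
    intro n P hP
    refine (nw_aeval hw (t := fun h => θ ^ g h * (s ^ g h / q ^ 2)) (fun h => ?_) P).trans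
      (nw_le fun d hd => ?_)
    · have b0 : (0 : ℝ) < m h := by exact_mod_cast hm _
      have b1 : nw w (1 + C ((q ^ 2 * m h : ℕ) : ℚ) * X h) ≤ 1 + 1 := le_of_near hw (by
        refine le_trans (nw_tw_le _ ht _) ?_
        rw [add_sub_cancel_left, nw_C_mul, nw_rad_X]
        push_cast
        rw [abs_of_nonneg (by positivity), mul_one_div_cancel (by positivity)])
      rw [nw_C_mul]
      refine (mul_le_mul_of_nonneg_left b1 (abs_nonneg _)).trans ?_
      have b2 : (2 : ℝ) ≤ 2 ^ g h := le_self_pow₀ one_le_two (by have := hg h; omega)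
      push_cast
      rw [abs_of_nonneg (by positivity), hθ', div_pow, mul_pow]
      field_simp
      linarith
    · have b1 := hP d hd
      rw [wt_eq_sum] at b1
      have b2 : n ≤ ∑ h, g h * d h := by
        simp only [mul_comm (g _)]
        exact_mod_cast b1
      simp only [rad, mul_pow, prod_mul_distrib, ← pow_mul, prod_pow_eq_pow_sum]
      exact mul_le_mul_of_nonneg_right (pow_le_pow_of_le_one hθ0 hθ1 b2) (hR.nonneg d)
  have key0 : ∀ P : MvPolynomial σ ℚ, nw w (loc q x g m P) ≤ nw R P := fun P => by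
    simpa using key 0 P (by simpa using Lo.of_nonneg hφ P)
  have hR1 : ∀ P : MvPolynomial σ ℚ, nw R P ≤ n1 P := fun P =>
    (nw_le (c := 1) fun d _ => by
      rw [mul_one]
      refine prod_le_one (fun h _ => by positivity) fun h _ => pow_le_one₀ (by positivity) ?_
      exact (div_le_one (by positivity)).2 ((pow_le_one₀ hs.le hs1).trans (one_le_pow₀ hq'))).trans
      (one_mul _).le
  have hH : 0 ≤ H := (subW_one.nw_nonneg A).trans nA
  have a1 : nw w (loc q x g m Θ - C ρ * G) ≤ 2 * θ ^ K := by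
    refine (pert hw hq ?_ ((nw_tw_le _ ht _).trans h6)).trans ?_
    · simpa using (key0 (Θ - 1)).trans h3
    · have e : loc q x g m Θ ^ q - (C ρ * G) ^ q = loc q x g m (Θ ^ q - U) +
          (loc q x g m U - C (ρ ^ q) * G ^ q) := by
        simp only [map_sub, map_pow]
        ring
      have b1 := hw.add_le (loc q x g m (Θ ^ q - U)) (loc q x g m U - C (ρ ^ q) * G ^ q)
      rw [← e, hw', nw_tw_lo h5, ← hw'] at b1
      have b2 := (key K _ h2).trans (mul_le_mul_of_nonneg_left h4 (by positivity))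
      linarith
  have a2 : nw w (loc q x g m A + C ρ * loc q x g m B * G) ≤ 5 * H * θ ^ K := by
    have e : loc q x g m A + C ρ * loc q x g m B * G = loc q x g m (A + B * Θ) -
        loc q x g m B * (loc q x g m Θ - C ρ * G) := by
      simp only [map_add, map_mul]
      ring
    have b1 : nw R Θ ≤ 2 := (le_of_near hR h3).trans (by
      have : (1 : ℝ) / (4 * q) ≤ 1 := (div_le_one (by positivity)).2 (by linarith)
      linarith)
    have b2 := (hR.add_le A (B * Θ)).trans (add_le_add ((hR1 A).trans nA)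
      (hR.mul_le' ((hR1 B).trans nB) b1))
    have b3 := (key K _ h1).trans (mul_le_mul_of_nonneg_left b2 (by positivity))
    have b4 := hw.mul_le' ((key0 B).trans ((hR1 B).trans nB)) a1
    rw [e]
    refine (hw.sub_le _ _).trans ?_
    linarith
  have a3 : C (((q ^ 2 * x) ^ D * x ^ κ : ℕ) : ℚ) *
      (loc q x g m A + C ρ * loc q x g m B * G) ∈ ZR σ := by
    have b1 : (((q ^ 2 * x) ^ D * x ^ κ : ℕ) : ℚ) * ρ = u * ((q ^ 2 * x) ^ D : ℕ) := by
      rw [hρ]
      push_cast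
      field_simp
    have b2 := add_mem (mul_mem (C_nat_mem (x ^ κ)) (loc_int hq hx hg m zA dA))
      (mul_mem (mul_mem (C_nat_mem u) (loc_int hq hx hg m zB dB)) zG)
    rw [mul_add, ← mul_assoc, ← mul_assoc, ← map_mul, b1, Nat.cast_mul, map_mul, map_mul,
      mul_comm (C _) (C ((x ^ κ : ℕ) : ℚ)), mul_assoc, mul_assoc (C (u : ℚ))]
    exact b2
  intro d hd
  by_contra! hlt
  obtain ⟨z, hz⟩ := mem_ZR.1 a3 d
  rw [coeff_C_mul] at hz
  have hz0 : z ≠ 0 := fun h => by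
    rw [h, Int.cast_zero] at hz
    exact mul_ne_zero (by positivity) hd hz.symm
  have a4 := (hw.coeff_le _ d).trans a2
  rw [hw', tw, if_pos hlt] at a4
  have a5 : 1 ≤ rad (fun h => (1 : ℝ) / (q ^ 2 * m h)) d * (q ^ 2 * x ^ F) ^ J := by
    rw [wt_eq_sum] at hlt
    have b2 : ∑ h, g h * d h ≤ J := by
      simp only [mul_comm (g _)]
      exact_mod_cast hlt.le
    refine le_trans ?_ (mul_le_mul_of_nonneg_left (pow_le_pow_right₀ (one_le_mul_of_one_le_of_one_le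
      (one_le_pow₀ hq') (one_le_pow₀ hx')) b2) ((subW_rad ht).nonneg d))
    rw [← prod_pow_eq_pow_sum, rad, ← prod_mul_distrib]
    refine one_le_prod fun h _ => ?_
    have b0 : (0 : ℝ) < m h := by exact_mod_cast hm _
    rw [pow_mul, ← mul_pow]
    refine one_le_pow₀ ?_
    rw [one_div_mul_eq_div, one_le_div (by positivity), mul_pow _ _ (g h), ← pow_mul _ F]
    exact mul_le_mul (le_self_pow₀ (one_le_pow₀ hq') (by have := hg h; omega))
      (by exact_mod_cast hmF h) b0.le (by positivity)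
  have a6 : (1 : ℝ) ≤ |(z : ℝ)| := by exact_mod_cast Int.one_le_abs hz0
  have a7 := congrArg (fun r : ℚ => |(r : ℝ)|) hz
  simp only [Rat.cast_intCast, Rat.cast_mul, Rat.cast_natCast, abs_mul, Nat.abs_cast] at a7
  push_cast at a7
  rw [a7] at a6
  generalize |((coeff d (loc q x g m A + C ρ * loc q x g m B * G) : ℚ) : ℝ)| = y at *
  have a8 := mul_le_mul a6 a5 zero_le_one (zero_le_one.trans a6)
  have a9 := mul_le_mul_of_nonneg_right a4
    (by positivity : (0 : ℝ) ≤ (q ^ 2 * x ^ F) ^ J * ((q ^ 2 * x) ^ D * x ^ κ))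
  linarith

theorem n1_pderiv [Fintype σ] {g : σ → ℕ} (hg : ∀ h, 1 ≤ g h) {D : ℕ} {A : MvPolynomial σ ℚ}
    (hD : Lo (-fun h => (g h : ℝ)) (-D) A) (k : σ) : n1 (pderiv k A) ≤ D * n1 A := by
  conv_lhs => rw [A.as_sum, map_sum]
  refine (subW_one.sum_le _ _).trans ?_
  rw [n1, nw, mul_sum]
  refine sum_le_sum fun d hd => ?_
  have h1 := hD d (mem_support_iff.1 hd)
  rw [wt_neg, wt_eq_sum, neg_le_neg_iff] at h1
  have h2 := single_le_sum (f := fun k => (d k : ℝ) * g k) (fun _ _ => by positivity) (mem_univ k)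
  have h3 : (1 : ℝ) ≤ g k := by exact_mod_cast hg k
  rw [pderiv_monomial, nw_monomial, mul_one, mul_one, Rat.cast_mul, abs_mul, Rat.cast_natCast,
    Nat.abs_cast, mul_comm]
  refine mul_le_mul_of_nonneg_right ?_ (abs_nonneg _)
  nlinarith [(Nat.cast_nonneg (d k) : (0 : ℝ) ≤ d k)]

theorem dlt_bounds [Fintype σ] {g : σ → ℕ} (hg : ∀ h, 1 ≤ g h) {D : ℕ} (q : ℕ) (k : σ) {H : ℝ}
    {A B U : MvPolynomial σ ℚ} (zA : A ∈ ZR σ) (zB : B ∈ ZR σ) (zU : U ∈ ZR σ)
    (dA : Lo (-fun h => (g h : ℝ)) (-D) A) (dB : Lo (-fun h => (g h : ℝ)) (-D) B)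
    (dU : Lo (-fun h => (g h : ℝ)) (-D) U) (nA : n1 A ≤ H) (nB : n1 B ≤ H) (nU : n1 U ≤ H) :
    dlt q k A B U ∈ ZR σ ∧ Lo (-fun h => (g h : ℝ)) (-(3 * D)) (dlt q k A B U) ∧
      n1 (dlt q k A B U) ≤ (2 * q + 1) * D * H ^ 3 := by
  have dd : ∀ P : MvPolynomial σ ℚ, Lo (-fun h => (g h : ℝ)) (-D) P →
      Lo (-fun h => (g h : ℝ)) (-D) (pderiv k P) := fun P hP =>
    (lo_pderiv hP k).mono (by simp)
  have nd : ∀ P : MvPolynomial σ ℚ, Lo (-fun h => (g h : ℝ)) (-D) P → n1 P ≤ H →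
      n1 (pderiv k P) ≤ D * H := fun P hP h =>
    (n1_pderiv hg hP k).trans (mul_le_mul_of_nonneg_left h (Nat.cast_nonneg _))
  refine ⟨sub_mem (mul_mem (mul_mem (C_nat_mem q) zU) (sub_mem (mul_mem (pderiv_mem zA k) zB)
    (mul_mem zA (pderiv_mem zB k)))) (mul_mem (mul_mem zA zB) (pderiv_mem zU k)), ?_, ?_⟩
  · exact (((lo_C_mul dU _).mul (((dd A dA).mul dB).sub (dA.mul (dd B dB)))).mono
      (by linarith)).sub (((dA.mul dB).mul (dd U dU)).mono (by linarith))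
  · have h1 : n1 (C (q : ℚ) * U) ≤ q * H := by
      rw [n1, nw_C_mul, Rat.cast_natCast, Nat.abs_cast]
      exact mul_le_mul_of_nonneg_left nU (Nat.cast_nonneg _)
    have h2 := subW_one.mul_le' h1 ((subW_one.sub_le _ _).trans (add_le_add
      (subW_one.mul_le' (nd A dA nA) nB) (subW_one.mul_le' nA (nd B dB nB))))
    have h3 := subW_one.mul_le' (subW_one.mul_le' nA nB) (nd U dU nU)
    refine (subW_one.sub_le _ _).trans ((add_le_add h2 h3).trans (le_of_eq (by ring)))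

theorem rad_bounds [Fintype σ] {ι : Type} [Fintype ι] (k : ι → σ) (c a : ι → ℕ) (g : σ → ℕ)
    {q S Cc G : ℕ} (hq : 1 ≤ q) (hc : ∀ i, c i ≤ Cc) (hg : ∀ h, g h ≤ G) (hS : ∑ i, a i ≤ S) :
    (∏ i, fac q (k i) (c i) ^ a i) ∈ ZR σ ∧
      Lo (-fun h => (g h : ℝ)) (-(S * Cc * G : ℕ)) (∏ i, fac q (k i) (c i) ^ a i) ∧
      n1 (∏ i, fac q (k i) (c i) ^ a i) ≤ (2 * (q ^ 2) ^ Cc) ^ S := by
  have hq' : (1 : ℝ) ≤ q := by exact_mod_cast hq
  have hS' : ∑ i, (a i : ℝ) ≤ S := by exact_mod_cast hS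
  refine ⟨prod_mem fun i _ => pow_mem (sub_mem (one_mem _)
    (pow_mem (mul_mem (sq_mem q) (X_mem _)) _)) _, ?_, ?_⟩
  · refine (Lo.prod _ _ (fun i => a i * -((Cc : ℝ) * G)) fun i _ => lo_pow ?_ _).mono ?_
    · refine (Lo.one.mono (neg_nonpos.2 (by positivity))).sub
        ((lo_pow (lo_C_mul (lo_X _ _) _) _).mono ?_)
      rw [Pi.neg_apply, mul_neg, neg_le_neg_iff]
      exact_mod_cast Nat.mul_le_mul (hc i) (hg _)
    · rw [← sum_mul]
      push_cast
      nlinarith [(by positivity : (0 : ℝ) ≤ Cc * G)]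
  · have h1 : (1 : ℝ) ≤ (q ^ 2) ^ Cc := one_le_pow₀ (one_le_pow₀ hq')
    refine (subW_one.prod_le _ (a := fun i => (2 * (q ^ 2) ^ Cc) ^ a i) fun i _ =>
      subW_one.pow_le ?_ _).trans ?_
    · refine (subW_one.sub_le _ _).trans ?_
      have h2 : n1 (C ((q : ℚ) ^ 2) * X (k i)) ≤ q ^ 2 := by
        rw [n1, nw_C_mul, X, nw_monomial]
        simp
      have h3 := (subW_one.pow_le h2 (c i)).trans (pow_le_pow_right₀ (one_le_pow₀ hq') (hc i))
      linarith [subW_one.one_le (σ := σ)]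
    · rw [prod_pow_eq_pow_sum]
      exact pow_le_pow_right₀ (by linarith) hS

/-- Runge's method on at most four scales -/
theorem multi_runge (Cc : ℕ) (hC : 1 ≤ Cc) : ∃ Λ A : ℕ, ∀ (ι : Type) [Fintype ι] (k : ι → Fin 4)
    (c a : ι → ℕ) (g : Fin 4 → ℕ) (q x u κ : ℕ), 1 ≤ q → (∀ i, 1 ≤ c i ∧ c i ≤ Cc) →
    ∑ i, a i ≤ Cc * q → (∀ i j, k i = k j → c i = c j → i = j) → (∃ i, ¬ q ∣ a i) →
    (∀ h, 1 ≤ g h) → (∀ h h', h < h' → Λ * g h' ≤ g h) → κ ≤ Cc * g 0 →
    ((u : ℚ) / x ^ κ) ^ q = ∏ i, (1 - 1 / (x : ℚ) ^ (g (k i) * c i)) ^ a i → x < (A * q) ^ A := by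
  set F := Cc.factorial with hF
  have hF1 : 1 ≤ F := Cc.factorial_pos
  have hF' : (1 : ℝ) ≤ F := by exact_mod_cast hF1
  obtain ⟨Λ, δ, hΛ, hδ, hroth⟩ := roth 4 (1 / (960 * F)) (by positivity)
  obtain ⟨m0, hm0, hm0'⟩ : ∃ m0 : ℕ, 1148 ≤ m0 ∧ 22 ≤ δ * m0 := by
    refine ⟨⌈22 / δ⌉₊ + 1148, by omega, ?_⟩
    have b3 := Nat.le_ceil (22 / δ)
    rw [div_le_iff₀ hδ] at b3
    push_cast
    nlinarith
  set m1 := m0 + 1 with hm1
  refine ⟨⌈Λ⌉₊, 2 ^ (Cc + 7) * Cc + 4 * m1,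
    fun ι _ k c a g q x u κ hq hc hS hinj ha hg hgap hκ he => ?_⟩
  by_contra! hx
  set Z := 2 ^ (Cc + 7) * Cc * q ^ 4 with hZ
  have hq4 : q ^ 2 ≤ q ^ 4 := Nat.pow_le_pow_right hq (by norm_num)
  have hq2 : q ≤ q ^ 2 := Nat.le_self_pow two_ne_zero q
  have hZ0 : 128 * (Cc * q ^ 4) ≤ Z := by
    rw [hZ, mul_assoc]
    exact Nat.mul_le_mul_right _ (Nat.pow_le_pow_right two_pos (by omega : 7 ≤ Cc + 7))
  have hZ1 : q ^ 4 ≤ Cc * q ^ 4 := Nat.le_mul_of_pos_left _ hC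
  have hZx : Z ^ m1 ≤ x := by
    refine le_trans ?_ hx
    have h0 : 1 ≤ 2 ^ (Cc + 7) * Cc := Nat.mul_pos (by positivity) hC
    calc Z ^ m1 ≤ ((2 ^ (Cc + 7) * Cc * q) ^ 4) ^ m1 := by
          refine Nat.pow_le_pow_left ?_ _
          rw [mul_pow]
          exact Nat.mul_le_mul_right _ (Nat.le_self_pow (by norm_num) _)
      _ ≤ ((2 ^ (Cc + 7) * Cc + 4 * m1) * q) ^ (4 * m1) := by
          rw [← pow_mul]
          exact Nat.pow_le_pow_left (Nat.mul_le_mul_right _ (by omega)) _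
      _ ≤ _ := Nat.pow_le_pow_right (Nat.mul_pos (by omega) hq) (by omega)
  have hZx1 : Z ^ m0 < x :=
    (Nat.pow_lt_pow_right (by omega) (by omega : m0 < m1)).trans_le hZx
  have hZx2 : Z ≤ x := (Nat.le_self_pow (by omega) Z).trans hZx1.le
  have hq' : (1 : ℝ) ≤ q := by exact_mod_cast hq
  have hC' : (1 : ℝ) ≤ Cc := by exact_mod_cast hC
  have hZ' : (128 : ℝ) ≤ Z := by exact_mod_cast (by omega : 128 ≤ Z)
  have hZ1' : (1 : ℝ) ≤ Z := by linarith
  have hx' : (Z : ℝ) ≤ x := by exact_mod_cast hZx2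
  have hφ : ∀ h, (0 : ℝ) ≤ g h := fun h => Nat.cast_nonneg _
  have hg0 : ∀ h, g h ≤ g 0 := fun h => by
    rcases (Fin.zero_le h).eq_or_lt with e | e
    · rw [e]
    · exact (Nat.le_mul_of_pos_left _ (Nat.ceil_pos.2 (by linarith))).trans (hgap 0 h e)
  set Y := 2 * (Cc * q * Cc * g 0) with hY
  have hY1 : Cc * q * Cc ≤ Cc * q * Cc * g 0 := Nat.le_mul_of_pos_right _ (hg 0)
  have hY2 : Cc * g 0 ≤ Cc * q * Cc * g 0 :=
    Nat.mul_le_mul_right _ (Nat.le_mul_of_pos_left _ (Nat.mul_pos hC hq))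
  have hY3 : g 0 ≤ Cc * g 0 := Nat.le_mul_of_pos_left _ hC
  have hY4 : Y ≤ F * Y := Nat.le_mul_of_pos_left _ hF1
  obtain ⟨j, hj1, hj2, hj⟩ := exists_j hg (4 * (F * Y))
  set D := j * (4 * (F * Y)) with hD
  have hD1 : 4 * (F * Y) ≤ D := Nat.le_mul_of_pos_left _ hj1
  have hD2 : D ≤ 40 * (4 * (F * Y)) := Nat.mul_le_mul_right _ hj2
  have hg1 := hg 0
  set K := D + 4 * (F * Y) with hK
  set s : ℝ := 1 / (16 * Cc * q ^ 2) with hs
  have hs0 : 0 < s := by positivity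
  have hs2 : 2 * q ^ 2 / s ≤ Z := by
    have : (128 : ℝ) * (Cc * q ^ 4) ≤ Z := by exact_mod_cast hZ0
    rw [hs, div_div_eq_mul_div, div_one]
    nlinarith [(by positivity : (0 : ℝ) ≤ Cc * q ^ 4)]
  have hqq : (1 : ℝ) ≤ q ^ 2 := one_le_pow₀ hq'
  have hs3 : 2 / s ≤ Z := le_trans (by gcongr; linarith) hs2
  have hs1 : s ≤ 1 := (div_le_one (by positivity)).2 (by nlinarith)
  obtain ⟨Θ, zΘ, t0, t1, t2, t3⟩ := exists_theta k c a g hq (fun i => (hc i).1) hg hS hs0.le hs1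
    (le_of_eq (by rw [hs]; push_cast; field_simp)) K
  have hR := subW_rad (t := fun h => s ^ g h / q ^ 2) fun h => by positivity
  obtain ⟨A, zA, B, zB, hA, hB, dA, dB, nA, nB, hL⟩ := exists_aux hg (by omega : D < K) hj zΘ
    (by rw [t0]; exact one_ne_zero) (b := (Z : ℝ) ^ K)
    (le_trans (by linarith) (le_self_pow₀ hZ1' (by omega)))
    ((pow_le_pow_left₀ (by norm_num) (by linarith) D).trans (pow_le_pow_right₀ hZ1' (by omega)))
    (fun d hd => by
      have b1 := (hR.coeff_le Θ d).trans ((le_of_near hR t2).trans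
        (show 1 + 1 / (4 * (q : ℝ)) ≤ 2 by
          have : (1 : ℝ) / (4 * q) ≤ 1 := (div_le_one (by positivity)).2 (by linarith)
          linarith))
      have b2 : (s / q ^ 2) ^ K ≤ rad (fun h => s ^ g h / q ^ 2) d := by
        refine (pow_le_pow_of_le_one (by positivity) ((div_le_one (by positivity)).2 (by linarith))
          ((mem_mon hg).1 hd)).trans ?_
        rw [← prod_pow_eq_pow_sum]
        refine prod_le_prod (fun _ _ => by positivity) fun h _ => ?_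
        rw [mul_comm, pow_mul]
        refine pow_le_pow_left₀ (by positivity) ?_ _
        rw [div_pow]
        exact div_le_div_of_nonneg_left (by positivity) (by positivity)
          (le_self_pow₀ hqq (Nat.one_le_iff_ne_zero.1 (hg h)))
      have b3 := (mul_le_mul_of_nonneg_left b2 (abs_nonneg _)).trans b1
      rw [← le_div_iff₀ (by positivity)] at b3
      refine b3.trans (le_trans ?_ (pow_le_pow_left₀ (by positivity) hs2 K))
      rw [mul_div_assoc, mul_pow, div_eq_mul_inv, ← inv_pow, inv_div]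
      exact mul_le_mul_of_nonneg_right (le_self_pow₀ one_le_two (by omega)) (by positivity))
  have hm : ∀ h, 1 ≤ x ^ (F * g h) - 1 := fun h => by
    have := Nat.le_self_pow (Nat.mul_pos hF1 (hg h)).ne' x
    omega
  obtain ⟨G, zG, g1, g2⟩ := exists_G k c a g (fun h => x ^ (F * g h) - 1) hq (by omega) hc hg hm
    (fun i => by
      obtain ⟨n, hn⟩ := Nat.dvd_factorial (hc i).1 (hc i).2
      rw [hF, hn, show c i * n * g (k i) = g (k i) * c i * n by ring, pow_mul _ _ n]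
      exact Nat.sub_one_dvd_pow_sub_one _ _) hS
    (le_trans (by
      rw [hZ]
      calc _ = 2 ^ (Cc + 7) * Cc * q ^ 2 := by ring
        _ ≤ _ := Nat.mul_le_mul_left _ hq4) hZx2) (by positivity) he Y
  have hq3 : (q : ℝ) ^ 2 ≤ Z := by exact_mod_cast (by omega : q ^ 2 ≤ Z)
  have hx0 : (0 : ℝ) < x := by linarith
  have hv := vanish (F := F) hq (by omega) hg hm (fun h => Nat.sub_le _ _) hs0 hs1
    (by rw [div_le_iff₀ hs0] at hs3; nlinarith) zA zB zG dA dB nA nB hL t1 t2 t3 g1 g2 (by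
      have b1 : (5 : ℝ) * ((Z : ℝ) ^ K) ^ 10 * (2 / s) ^ K * ((q ^ 2) ^ Y * (q ^ 2) ^ D) ≤
          (Z ^ m0) ^ (2 * (F * Y)) := by
        calc _ ≤ (Z : ℝ) ^ K * ((Z : ℝ) ^ K) ^ 10 * Z ^ K * (Z ^ Y * Z ^ D) := by
              gcongr
              exact le_trans (by linarith) (le_self_pow₀ hZ1' (by omega))
          _ = Z ^ (12 * K + Y + D) := by ring
          _ ≤ _ := by
              rw [← pow_mul]
              have := Nat.mul_le_mul_right (2 * (F * Y)) hm0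
              exact pow_le_pow_right₀ hZ1' (by omega)
      have b2 : ((Z : ℝ) ^ m0) ^ (2 * (F * Y)) < x ^ (2 * (F * Y)) :=
        pow_lt_pow_left₀ (by exact_mod_cast hZx1) (by positivity) (by omega)
      have b3 : (x : ℝ) ^ (2 * (F * Y)) * x ^ (F * Y + D + κ) ≤ x ^ K := by
        rw [← pow_add]
        exact pow_le_pow_right₀ (by linarith) (by omega)
      have b4 := (mul_lt_mul_of_pos_right (b1.trans_lt b2)
        (by positivity : (0 : ℝ) < x ^ (F * Y + D + κ))).trans_le b3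
      rw [← div_lt_one (by positivity)] at b4
      refine lt_of_eq_of_lt ?_ b4
      rw [← div_div, div_pow _ (x : ℝ), mul_pow, mul_pow, ← pow_mul (x : ℝ), pow_add (x : ℝ),
        pow_add (x : ℝ)]
      generalize (2 / s) ^ K = y1
      generalize ((Z : ℝ) ^ K) ^ 10 = y2
      ring)
  obtain ⟨k0, hk0⟩ := dlt_ne_zero hq k c a (fun i => (hc i).1) hinj ha
  obtain ⟨u1, u2, u3⟩ := rad_bounds k c a g hq (fun i => (hc i).2) hg0 hS
  obtain ⟨w1, w2, w3⟩ := dlt_bounds hg q k0 zA zB u1 dA dB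
    (u2.mono (neg_le_neg (by exact_mod_cast (by omega : Cc * q * Cc * g 0 ≤ D)))) nA nB
    (u3.trans (by
      calc _ ≤ ((Z : ℝ) ^ Cc) ^ (Cc * q) := by
            refine pow_le_pow_left₀ (by positivity) (le_trans (b := (2 * (q : ℝ) ^ 2) ^ Cc) ?_ ?_) _
            · rw [mul_pow]
              exact mul_le_mul_of_nonneg_right (le_self_pow₀ one_le_two (by omega)) (by positivity)
            · exact pow_le_pow_left₀ (by positivity)
                (by exact_mod_cast (by omega : 2 * q ^ 2 ≤ Z)) _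
        _ ≤ _ := by
            rw [← pow_mul, ← pow_mul, mul_comm Cc]
            exact pow_le_pow_right₀ hZ1' (by omega)))
  have hD' : (1 : ℝ) ≤ D := by exact_mod_cast (by omega : 1 ≤ D)
  have hlog : 22 * Real.log Z ≤ δ * Real.log x := by
    have b1 : m0 * Real.log Z ≤ Real.log x := by
      rw [← Real.log_pow]
      exact Real.log_le_log (by positivity) (by exact_mod_cast hZx1.le)
    nlinarith [Real.log_nonneg hZ1']
  have hlogZ : 1 ≤ Real.log Z := by
    rw [Real.le_log_iff_exp_le (by positivity)]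
    linarith [Real.exp_one_lt_d9]
  refine hroth (fun h => g h) (3 * D) (Real.log x) (fun h => q ^ 2 * x ^ g h) _
    (fun h => by exact_mod_cast hg h)
    (fun h h' hh => (mul_le_mul_of_nonneg_right (Nat.le_ceil Λ) (hφ _)).trans
      (by exact_mod_cast hgap h h' hh)) (by linarith) (by linarith) (fun h => ?_) (hk0 A B hA hB) w1
    (fun h d hd => ?_) (w3.trans ?_)
    ((lo_tau hq (by omega) g hm hφ k0 hv g1).mono ?_)
  · rw [mul_comm, Real.exp_nat_mul, Real.exp_log hx0]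
    push_cast
    exact le_mul_of_one_le_left (by positivity) hqq
  · have b1 := w2 d hd
    rw [wt_neg, wt_eq_sum] at b1
    have b2 := single_le_sum (f := fun k => (d k : ℝ) * g k) (fun _ _ => by positivity) (mem_univ h)
    rw [wt_sing]
    linarith
  · calc _ ≤ (Z : ℝ) * Z ^ D * ((Z ^ K) ^ 10) ^ 3 := by
          gcongr
          · exact_mod_cast (by omega : 2 * q + 1 ≤ Z)
          · exact_mod_cast Nat.lt_two_pow_self.le.trans (Nat.pow_le_pow_left (by omega : 2 ≤ Z) D)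
      _ = Z ^ (1 + D + 30 * K) := by ring
      _ ≤ Z ^ (66 * D) := pow_le_pow_right₀ hZ1' (by omega)
      _ = Real.exp (22 * Real.log Z * (3 * D)) := by
          rw [← Real.exp_log (by positivity : (0 : ℝ) < Z ^ (66 * D)), Real.log_pow]
          congr 1
          push_cast
          ring
      _ ≤ _ := by gcongr
  · have b1 : (D : ℝ) ≤ 40 * (4 * (F * Y)) := by exact_mod_cast hD2
    have b2 : 2 * (g k0 : ℝ) ≤ Y := by
      have := hg0 k0
      exact_mod_cast (by omega : 2 * g k0 ≤ Y)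
    rw [one_div_mul_eq_div, div_le_iff₀ (by positivity)]
    nlinarith

end Pool.Agent.P.MP_71e30e_nt.Comp
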