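import Pool.Agent.P.MP_71e30e_nt.CRed
import Pool.Agent.P.MP_71e30e_nt.C4

set_option autoImplicit false

/-! Finiteness for composite length. -/

namespace Pool.Agent.P.MP_71e30e_nt.Comp

open Finset Filter

theorem rel_of_coprime {q x m l y : ℕ} (hq : 2 ≤ q) (hx : 2 ≤ x) (hm : 1 ≤ m) (hl : 1 ≤ l)
    (hc : ∀ s : ℕ, s.Prime → s ∣ l → (x : ZMod s) ^ m = 1 → ¬ s ∣ ∑ i ∈ range m, x ^ i)
    (h : ∑ i ∈ range (m * l), x ^ i = y ^ q) : Rel q x ![1, m, m * l] := by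
  rw [geom_mul hx] at h
  have cop : Nat.Coprime (∑ i ∈ range m, x ^ i) (∑ i ∈ range l, (x ^ m) ^ i) :=
    Nat.coprime_of_dvd fun s hs h1 h2 => hc s hs
      (geom_one (z := x ^ m) l (by push_cast; exact geom_pow m h1) h2) (geom_pow m h1) h1
  obtain ⟨v, h1⟩ := exists_eq_pow_of_mul_eq_pow (Nat.isUnit_iff.2 cop) h
  obtain ⟨w, h2⟩ := exists_eq_pow_of_mul_eq_pow (Nat.isUnit_iff.2 cop.symm)
    ((mul_comm _ _).trans h)
  obtain ⟨β, b0, ⟨i, b1⟩, b2, b3⟩ := exists_beta hq ![m - 1, m * (l - 1), 0] ![0, 0, 1]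
  have b4 : β 2 = 0 := Nat.eq_zero_of_dvd_of_lt (by simpa [Fin.sum_univ_succ] using b3) (b0 2)
  refine rel_three (v := v ^ β 0 * w ^ β 1) (by omega) hm hl (b0 0) (b0 1) ?_
    (by simpa [Fin.sum_univ_succ] using b2) (by rw [h1, h2]; ring)
  fin_cases i
  exacts [Or.inl b1, Or.inr b1, absurd b4 b1]

theorem level_pow {q x p e y j : ℕ} (hx : 2 ≤ x) (hp : p.Prime) (hj : j < e)
    (h : ∑ i ∈ range (p ^ e), x ^ i = y ^ q) :
    ∃ t z, ∑ i ∈ range p, (x ^ p ^ j) ^ i = p ^ t * z ^ q := by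
  obtain ⟨r, rfl⟩ := Nat.exists_eq_add_of_lt hj
  have hX : 2 ≤ x ^ p ^ j := hx.trans (Nat.le_self_pow (pow_ne_zero _ hp.ne_zero) x)
  rw [add_right_comm, pow_add, pow_succ, mul_assoc, geom_mul hx, geom_mul hX] at h
  have h0 : ∑ i ∈ range p, (x ^ p ^ j) ^ i ≠ 0 :=
    (sum_pos (fun i _ => by positivity) ⟨0, mem_range.2 hp.pos⟩).ne'
  obtain ⟨t, s, hs, h1⟩ := Nat.exists_eq_pow_mul_and_not_dvd h0 p hp.ne_one
  have cop : Nat.Coprime s (p ^ t * ((∑ i ∈ range (p ^ j), x ^ i) *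
      ∑ i ∈ range (p ^ r), ((x ^ p ^ j) ^ p) ^ i)) := by
    refine Nat.coprime_of_dvd fun u hu a1 a2 => hs ?_
    have a3 : u ∣ ∑ i ∈ range p, (x ^ p ^ j) ^ i := h1 ▸ a1.mul_left _
    have a4 : u ∣ p := by
      rcases (Nat.Prime.dvd_mul hu).1 a2 with k | k
      · exact hu.dvd_of_dvd_pow k
      rcases (Nat.Prime.dvd_mul hu).1 k with k | k
      · exact geom_one (z := x ^ p ^ j) p (by push_cast; exact geom_pow _ k) a3
      · exact hu.dvd_of_dvd_pow (geom_one (z := (x ^ p ^ j) ^ p) _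
          (by rw [Nat.cast_pow]; exact geom_pow p a3) k)
    rwa [← (Nat.prime_dvd_prime_iff_eq hu hp).1 a4]
  obtain ⟨z, hz⟩ := exists_eq_pow_of_mul_eq_pow (Nat.isUnit_iff.2 cop) (c := y) (k := q) (by
    rw [← h, h1]
    ring)
  exact ⟨t, z, by rw [h1, hz]⟩

theorem comp_bound : ∃ A : ℕ, ∀ q x n y : ℕ, q.Prime → 2 ≤ x → 2 ≤ n → ¬ n.Prime →
    ∑ i ∈ range n, x ^ i = y ^ q → x < (A * q) ^ A := by
  obtain ⟨A1, h1⟩ := three_scales
  obtain ⟨A2, h2⟩ := four_scales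
  refine ⟨A1 + A2 + 3 + 1, fun q x n y hq hx hn hnp h => ?_⟩
  have hq1 := hq.one_le
  have hp : n.minFac.Prime := Nat.minFac_prime (by omega)
  have hmin : ∀ s, s.Prime → s ∣ n → n.minFac ≤ s := fun s hs h =>
    Nat.minFac_le_of_dvd hs.two_le h
  have hpn := Nat.minFac_dvd n
  generalize n.minFac = p at hp hmin hpn
  have := Fact.mk hp
  have hp2 := hp.two_le
  obtain ⟨a, m, hm, rfl⟩ := Nat.exists_eq_pow_mul_and_not_dvd (by omega : n ≠ 0) p hp.ne_one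
  have hm0 : m ≠ 0 := by rintro rfl; simp at hn
  have ha : a ≠ 0 := by
    rintro rfl
    exact hm (by simpa using hpn)
  by_cases hm1 : m = 1
  swap
  · rw [mul_comm] at h
    have hl : 2 ≤ p ^ a := hp2.trans (Nat.le_self_pow ha p)
    refine bd_mono hq1 (h1 q x m _ hq1 (by omega) (by omega) hl
      (rel_of_coprime hq.two_le hx (by omega) (by omega) (fun s hs k1 a1 k2 => ?_) h)) (by omega)
    obtain rfl : s = p := (Nat.prime_dvd_prime_iff_eq hs hp).1 (hs.dvd_of_dvd_pow k1)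
    have c2 : Nat.Coprime m (s - 1) := by
      refine Nat.coprime_of_dvd fun r hr h1 h2 => ?_
      have := hmin r hr (h1.mul_left _)
      have := Nat.le_of_dvd (by omega) h2
      omega
    have a3 : (x : ZMod s) ≠ 0 := fun h => by
      rw [h, zero_pow hm0] at a1
      exact zero_ne_one a1
    have a4 := (pow_gcd_eq_one (a := (x : ZMod s))).2 ⟨a1, ZMod.pow_card_sub_one_eq_one a3⟩
    rw [c2, pow_one] at a4
    exact hm (geom_one m a4 k2)
  subst hm1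
  rw [mul_one] at h hnp
  by_cases ha3 : 3 ≤ a
  · choose! t z hz using fun j (hj : j < 3) => level_pow hx hp (hj.trans_le ha3) h
    exact bd_mono hq1 (h2 q x p hq1 (by omega) hp2
      (rel_four hq.two_le (by omega) (by omega) t z hz)) (by omega)
  have ha1 : a ≠ 1 := by
    rintro rfl
    exact hnp (by simpa using hp)
  obtain rfl : a = 2 := by omega
  by_cases h4 : p = 2 ∧ (x : ZMod p) = 1
  · obtain ⟨rfl, h4⟩ := h4
    have h5 := four_digits hq (ZMod.natCast_eq_one_iff_odd.1 h4) h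
    refine bd_mono (A := 3) hq1 ?_ (by omega)
    have := Nat.pow_le_pow_left (by omega : 3 ≤ 3 * q) 3
    omega
  refine bd_mono hq1 (h1 q x p p hq1 (by omega) hp2 hp2 ?_) (by omega)
  by_cases hx1 : (x : ZMod p) = 1
  · have ho : Odd p := hp.odd_of_ne_two fun k => h4 ⟨k, hx1⟩
    have d1 : p ∣ x - 1 := by
      rw [← ZMod.natCast_eq_zero_iff, Nat.cast_sub (by omega), hx1]
      simp
    have d2 : ¬ p ∣ x := fun k => by
      rw [(ZMod.natCast_eq_zero_iff _ _).2 k] at hx1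
      exact zero_ne_one hx1
    have v1 := padicValNat.pow_sub_pow ho (by omega : 1 < x) d1 d2 (pow_ne_zero 2 hp.ne_zero)
    have hy : y ^ q ≠ 0 := h ▸ (sum_pos (fun i _ => by positivity)
      ⟨0, mem_range.2 (by positivity)⟩).ne'
    rw [one_pow, pow_sub_one_eq (by omega), h, padicValNat.mul (by omega) hy, padicValNat.pow,
      padicValNat.prime_pow] at v1
    obtain rfl : q = 2 := (Nat.prime_dvd_prime_iff_eq hq Nat.prime_two).1
      ⟨padicValNat p y, by omega⟩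
    obtain ⟨r, rfl⟩ := ho
    rw [sq, geom_mul hx] at h
    exact rel_three (b0 := 1) (b1 := 1) (v := y) (by omega) (by omega) (by omega) one_lt_two
      one_lt_two (Or.inl one_ne_zero) ⟨r + (2 * r + 1) * r, by simp; ring⟩ (by simpa using h)
  · rw [sq] at h
    refine rel_of_coprime hq.two_le hx (by omega) (by omega) (fun s hs k1 a1 _ => hx1 ?_) h
    obtain rfl : s = p := (Nat.prime_dvd_prime_iff_eq hs hp).1 k1
    rwa [ZMod.pow_card] at a1

theorem bounded_of (A : ℕ) : ∃ X : ℕ, ∀ q x n y : ℕ, q.Prime → 2 ≤ x → 2 ≤ n →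
    ∑ i ∈ range n, x ^ i = y ^ q → x < (A * q) ^ A → x ≤ X ∧ q ≤ X := by
  obtain ⟨c, hc⟩ := large_exp
  obtain ⟨b0, hb0⟩ : ∃ b0 : ℕ, ∀ b ≥ b0, (A * (c * b) ^ 2) ^ (2 * A) ≤ 2 ^ b := by
    have := (tendsto_pow_const_div_const_pow_of_one_lt (4 * A) (one_lt_two (α := ℝ))).const_mul
      ((A * c ^ 2 : ℝ) ^ (2 * A))
    rw [mul_zero] at this
    obtain ⟨b0, hb0⟩ := eventually_atTop.1 (this.eventually_le_const one_pos)
    refine ⟨b0, fun b hb => ?_⟩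
    have h1 := hb0 b hb
    rw [← mul_div_assoc, div_le_one (by positivity)] at h1
    have h2 : (((A * (c * b) ^ 2) ^ (2 * A) : ℕ) : ℝ) ≤ 2 ^ b :=
      le_trans (le_of_eq (by push_cast; ring)) h1
    exact_mod_cast h2
  refine ⟨2 ^ b0 + (c * b0) ^ 2, fun q x n y hq hx hn h hA => ?_⟩
  have h1 : x < 2 ^ (Nat.log 2 x + 1) := Nat.lt_pow_succ_log_self one_lt_two x
  have h2 : 2 ^ (Nat.log 2 x + 1) ≤ x ^ 2 := by
    have := Nat.pow_log_le_self 2 (by omega : x ≠ 0)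
    rw [pow_succ, sq]
    exact Nat.mul_le_mul this hx
  generalize Nat.log 2 x + 1 = b at *
  have h3 : q < (c * b) ^ 2 := not_le.1 fun k => hc q x b n y hq hx h1.le h2 k hn h
  have h4 : b < b0 := by
    by_contra! k
    have h5 := Nat.pow_lt_pow_left hA two_ne_zero
    have h6 := Nat.pow_le_pow_left (Nat.mul_le_mul_left A h3.le) (2 * A)
    have h7 := hb0 b k
    rw [← pow_mul, mul_comm A 2] at h5
    omega
  have h5 := Nat.pow_le_pow_right two_pos h4.le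
  have h6 := Nat.pow_le_pow_left (Nat.mul_le_mul_left c h4.le) 2
  omega

theorem finite_of_bound (P : ℕ → ℕ → Prop) (A : ℕ) (hA : ∀ q x n y : ℕ, q.Prime → 2 ≤ x →
    3 ≤ n → P x n → ∑ i ∈ range n, x ^ i = y ^ q → x < (A * q) ^ A) :
    {s : ℕ × ℕ × ℕ × ℕ | 2 ≤ s.1 ∧ 3 ≤ s.2.2.1 ∧ 2 ≤ s.2.2.2 ∧ P s.1 s.2.2.1 ∧
      ∑ i ∈ range s.2.2.1, s.1 ^ i = s.2.1 ^ s.2.2.2}.Finite := by
  obtain ⟨X, hX⟩ := bounded_of A
  have h1 : ∀ q x, 2 ≤ q → 2 ≤ x → {n : ℕ | ∃ y : ℕ, ∑ i ∈ range n, x ^ i = y ^ q}.Finite :=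
    fun q x hq hx => ((Set.finite_Iio (q * x)).biUnion fun c _ => fixed_class hq hx c).subset
      fun n ⟨y, hy⟩ => Set.mem_biUnion (Nat.mod_lt y (by positivity)) ⟨y, hy, rfl⟩
  obtain ⟨n0, hn0⟩ := (((Set.finite_Icc 2 X).prod (Set.finite_Icc 2 X)).biUnion
    fun s hs => h1 s.1 s.2 hs.1.1 hs.2.1).bddAbove
  refine (Set.finite_Iic (X, ∑ i ∈ range n0, X ^ i, n0, ∑ i ∈ range n0, X ^ i)).subset ?_
  rintro ⟨x, y, n, q⟩ ⟨hx, hn, hq, hP, h⟩
  dsimp only at hx hn hq hP h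
  obtain ⟨r, hr, s, rfl⟩ := Nat.exists_prime_and_dvd (by omega : q ≠ 1)
  have h2 : ∑ i ∈ range n, x ^ i = (y ^ s) ^ r := by rw [h, ← pow_mul, mul_comm]
  obtain ⟨a1, a2⟩ := hX r x n _ hr hx (by omega) h2 (hA r x n _ hr hx hn hP h2)
  have a3 : n ≤ n0 := hn0 (Set.mem_biUnion (x := (r, x)) ⟨⟨hr.two_le, a2⟩, hx, a1⟩ ⟨_, h2⟩)
  have a4 : y ^ (r * s) ≤ ∑ i ∈ range n0, X ^ i := h ▸
    (sum_le_sum fun i _ => Nat.pow_le_pow_left a1 i).trans (sum_le_sum_of_subset (range_mono a3))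
  have a5 : 2 ≤ y := by
    by_contra! hy
    have b1 : y ^ (r * s) ≤ 1 := pow_le_one₀ (Nat.zero_le _) (by omega)
    have b2 := single_le_sum (f := fun i => x ^ i) (fun _ _ => Nat.zero_le _)
      (mem_range.2 (by omega : 1 < n))
    rw [h, pow_one] at b2
    omega
  exact ⟨a1, (Nat.le_self_pow (by omega) y).trans a4, a3,
    (Nat.lt_pow_self (by omega)).le.trans a4⟩

theorem composite_finite : {s : ℕ × ℕ × ℕ × ℕ | 2 ≤ s.1 ∧ 3 ≤ s.2.2.1 ∧ 2 ≤ s.2.2.2 ∧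
    ¬ s.2.2.1.Prime ∧
    ∑ i ∈ range s.2.2.1, s.1 ^ i = s.2.1 ^ s.2.2.2}.Finite := by
  obtain ⟨A, hA⟩ := comp_bound
  exact finite_of_bound (fun _ n => ¬ n.Prime) A
    fun q x n y hq hx hn hP h => hA q x n y hq hx (by omega) hP h

end Pool.Agent.P.MP_71e30e_nt.Comp
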