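import Pool.Agent.P.MP_71e30e_nt.GAux
import Pool.Agent.P.MP_6e34ef_nt.Roth.Lo

set_option autoImplicit false

/-! Weighted norms of polynomials in several variables, integrality, truncated roots. -/

namespace Pool.Agent.P.MP_71e30e_nt.Comp

open MvPolynomial Finset Pool.Agent.P.MP_6e34ef_nt.Roth

variable {σ : Type}

/-- polynomials with integer coefficients -/
def ZR (σ : Type) : Subring (MvPolynomial σ ℚ) where
  carrier := {P | ∀ d, coeff d P ∈ (⊥ : Subring ℚ)}
  mul_mem' := by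
    classical
    intro A B hA hB d
    rw [coeff_mul]
    exact sum_mem fun x _ => mul_mem (hA _) (hB _)
  one_mem' := by
    classical
    intro d
    rw [coeff_one]
    split_ifs
    · exact one_mem _
    · exact zero_mem _
  add_mem' := fun hA hB d => by
    rw [coeff_add]
    exact add_mem (hA _) (hB _)
  zero_mem' := fun d => zero_mem _
  neg_mem' := fun hA d => by
    rw [coeff_neg]
    exact neg_mem (hA _)

theorem mem_ZR {P : MvPolynomial σ ℚ} : P ∈ ZR σ ↔ ∀ d, ∃ z : ℤ, (z : ℚ) = coeff d P :=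
  forall_congr' fun _ => Subring.mem_bot

theorem monomial_mem (d : σ →₀ ℕ) (z : ℤ) : monomial d (z : ℚ) ∈ ZR σ := by
  classical
  intro d'
  rw [coeff_monomial]
  split_ifs
  · exact intCast_mem _ _
  · exact zero_mem _

theorem X_mem (k : σ) : (X k : MvPolynomial σ ℚ) ∈ ZR σ := by
  simpa [X] using monomial_mem (Finsupp.single k 1) 1

theorem C_mem (z : ℤ) : (C (z : ℚ) : MvPolynomial σ ℚ) ∈ ZR σ := monomial_mem 0 z

theorem C_nat_mem (z : ℕ) : (C (z : ℚ) : MvPolynomial σ ℚ) ∈ ZR σ := by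
  simp

theorem pderiv_mem {P : MvPolynomial σ ℚ} (h : P ∈ ZR σ) (k : σ) : pderiv k P ∈ ZR σ := by
  intro d
  rw [coeff_pderiv]
  exact mul_mem (h _) (add_mem (natCast_mem _ _) (one_mem _))

theorem det_mem {ι : Type} [Fintype ι] [DecidableEq ι] (M : Matrix ι ι (MvPolynomial σ ℚ))
    (h : ∀ i j, M i j ∈ ZR σ) : M.det ∈ ZR σ := by
  rw [Matrix.det_apply']
  exact sum_mem fun π _ => mul_mem (intCast_mem _ _) (prod_mem fun i _ => h _ _)

section LoMore

variable {φ : σ → ℝ} {a : ℝ} {A B : MvPolynomial σ ℚ}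

theorem wt_one (φ : σ → ℝ) (k : σ) : wt φ (Finsupp.single k 1) = φ k := by
  simp [wt, Finsupp.weight_apply]

theorem lo_monomial (φ : σ → ℝ) (d : σ →₀ ℕ) (c : ℚ) : Lo φ (wt φ d) (monomial d c) := by
  classical
  intro d' hd
  rw [coeff_monomial] at hd
  split_ifs at hd with h
  · rw [h]
  · exact absurd rfl hd

theorem lo_X (φ : σ → ℝ) (k : σ) : Lo φ (φ k) (X k : MvPolynomial σ ℚ) := by
  have := lo_monomial φ (Finsupp.single k 1) 1
  rwa [wt_one] at this

theorem lo_pow (h : Lo φ a A) (n : ℕ) : Lo φ (n * a) (A ^ n) := by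
  induction n with
  | zero => simpa using Lo.one
  | succ n ih =>
    rw [pow_succ]
    exact (ih.mul h).mono (le_of_eq (by push_cast; ring))

theorem lo_C_mul (h : Lo φ a A) (c : ℚ) : Lo φ a (C c * A) := by
  simpa using (Lo.C c).mul h

theorem lo_mul_left (hφ : ∀ i, 0 ≤ φ i) (h : Lo φ a A) (B : MvPolynomial σ ℚ) :
    Lo φ a (B * A) := by
  simpa using (Lo.of_nonneg hφ B).mul h

theorem lo_mul_right (hφ : ∀ i, 0 ≤ φ i) (h : Lo φ a A) (B : MvPolynomial σ ℚ) :
    Lo φ a (A * B) := by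
  rw [mul_comm]
  exact lo_mul_left hφ h B

theorem lo_pderiv (h : Lo φ a A) (k : σ) : Lo φ (a - φ k) (pderiv k A) := by
  intro d hd
  rw [coeff_pderiv] at hd
  have := h _ (left_ne_zero_of_mul hd)
  rw [wt_add, wt_one] at this
  linarith

theorem lo_cancel (h : Lo φ a (A * B)) (hB : coeff 0 B ≠ 0) : Lo φ a A := by
  intro d hd
  obtain ⟨d', h1, h2⟩ := exists_le_mul φ hd hB
  rw [wt_zero, add_zero] at h2
  exact (h d' h1).trans h2

theorem lo_aeval [Fintype σ] {τ : Type} {ψ : τ → ℝ} {f : σ → MvPolynomial τ ℚ}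
    (hf : ∀ k, Lo ψ (φ k) (f k)) (h : Lo φ a A) : Lo ψ a (aeval f A) := by
  rw [A.as_sum, map_sum]
  refine Lo.sum _ _ fun d hd => ?_
  rw [aeval_monomial, Finsupp.prod_fintype _ _ (by simp), algebraMap_eq]
  refine lo_C_mul ((Lo.prod _ _ _ fun k _ => lo_pow (hf k) (d k)).mono ?_) _
  rw [← wt_eq_sum]
  exact h d (mem_support_iff.1 hd)

theorem lo_coeff_zero (h : Lo φ a A) (ha : 0 < a) : coeff 0 A = 0 := by
  by_contra h0
  have := h 0 h0
  rw [wt_zero] at this
  linarith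

end LoMore

/-- submultiplicative weights -/
structure SubW (w : (σ →₀ ℕ) → ℝ) : Prop where
  nonneg : ∀ d, 0 ≤ w d
  zero : w 0 ≤ 1
  mul : ∀ d d', w (d + d') ≤ w d * w d'

/-- weighted sum of the absolute values of the coefficients -/
noncomputable def nw (w : (σ →₀ ℕ) → ℝ) (P : MvPolynomial σ ℚ) : ℝ :=
  ∑ d ∈ P.support, |((coeff d P : ℚ) : ℝ)| * w d

section NW

variable {w : (σ →₀ ℕ) → ℝ}

theorem nw_eq_sum (P : MvPolynomial σ ℚ) {s : Finset (σ →₀ ℕ)} (hs : P.support ⊆ s) :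
    nw w P = ∑ d ∈ s, |((coeff d P : ℚ) : ℝ)| * w d :=
  sum_subset hs fun d _ hd => by simp [notMem_support_iff.1 hd]

theorem nw_zero : nw w (0 : MvPolynomial σ ℚ) = 0 := by simp [nw]

theorem nw_neg (P : MvPolynomial σ ℚ) : nw w (-P) = nw w P := by simp [nw]

theorem nw_monomial (d : σ →₀ ℕ) (c : ℚ) : nw w (monomial d c) = |(c : ℝ)| * w d := by
  classical
  rw [nw_eq_sum _ support_monomial_subset]
  simp

theorem nw_C_mul (c : ℚ) (P : MvPolynomial σ ℚ) : nw w (C c * P) = |(c : ℝ)| * nw w P := by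
  rw [nw_eq_sum (C c * P) (s := P.support) fun d hd => by
    rw [mem_support_iff, coeff_C_mul] at hd
    exact mem_support_iff.2 (right_ne_zero_of_mul hd), nw, mul_sum]
  refine sum_congr rfl fun d _ => ?_
  rw [coeff_C_mul, Rat.cast_mul, abs_mul, mul_assoc]

theorem nw_le {w' : (σ →₀ ℕ) → ℝ} {c : ℝ} {P : MvPolynomial σ ℚ}
    (h : ∀ d, coeff d P ≠ 0 → w d ≤ c * w' d) : nw w P ≤ c * nw w' P := by
  rw [nw, nw, mul_sum]
  refine sum_le_sum fun d hd => ?_
  rw [mul_left_comm]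
  exact mul_le_mul_of_nonneg_left (h d (mem_support_iff.1 hd)) (abs_nonneg _)

namespace SubW

theorem nw_nonneg (hw : SubW w) (P : MvPolynomial σ ℚ) : 0 ≤ nw w P :=
  sum_nonneg fun d _ => mul_nonneg (abs_nonneg _) (hw.nonneg d)

theorem add_le (hw : SubW w) (A B : MvPolynomial σ ℚ) : nw w (A + B) ≤ nw w A + nw w B := by
  classical
  rw [nw_eq_sum (A + B) support_add, nw_eq_sum A subset_union_left,
    nw_eq_sum B subset_union_right, ← sum_add_distrib]
  refine sum_le_sum fun d _ => ?_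
  rw [coeff_add, Rat.cast_add, ← add_mul]
  exact mul_le_mul_of_nonneg_right (abs_add_le _ _) (hw.nonneg d)

theorem sub_le (hw : SubW w) (A B : MvPolynomial σ ℚ) : nw w (A - B) ≤ nw w A + nw w B := by
  rw [sub_eq_add_neg, ← nw_neg B]
  exact hw.add_le _ _

theorem sum_le (hw : SubW w) {ι : Type} (s : Finset ι) (f : ι → MvPolynomial σ ℚ) :
    nw w (∑ i ∈ s, f i) ≤ ∑ i ∈ s, nw w (f i) :=
  le_sum_of_subadditive (nw w) nw_zero.le hw.add_le s f

theorem mul_le (hw : SubW w) (A B : MvPolynomial σ ℚ) : nw w (A * B) ≤ nw w A * nw w B := by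
  conv_lhs => rw [A.as_sum, B.as_sum, sum_mul_sum]
  refine (hw.sum_le _ _).trans ?_
  rw [nw, nw, sum_mul_sum]
  refine sum_le_sum fun a _ => (hw.sum_le _ _).trans (sum_le_sum fun b _ => ?_)
  rw [monomial_mul, nw_monomial, Rat.cast_mul, abs_mul, mul_mul_mul_comm]
  exact mul_le_mul_of_nonneg_left (hw.mul _ _) (by positivity)

theorem mul_le' (hw : SubW w) {A B : MvPolynomial σ ℚ} {a b : ℝ} (ha : nw w A ≤ a)
    (hb : nw w B ≤ b) : nw w (A * B) ≤ a * b :=
  (hw.mul_le A B).trans (mul_le_mul ha hb (hw.nw_nonneg _) ((hw.nw_nonneg _).trans ha))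

theorem C_le (hw : SubW w) (c : ℚ) : nw w (C c : MvPolynomial σ ℚ) ≤ |(c : ℝ)| := by
  rw [C_apply, nw_monomial]
  exact mul_le_of_le_one_right (abs_nonneg _) hw.zero

theorem one_le (hw : SubW w) : nw w (1 : MvPolynomial σ ℚ) ≤ 1 := by simpa using hw.C_le 1

theorem pow_le (hw : SubW w) {A : MvPolynomial σ ℚ} {a : ℝ} (ha : nw w A ≤ a) (n : ℕ) :
    nw w (A ^ n) ≤ a ^ n := by
  induction n with
  | zero => simpa using hw.one_le
  | succ n ih => rw [pow_succ, pow_succ]; exact hw.mul_le' ih ha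

theorem prod_le (hw : SubW w) {ι : Type} (s : Finset ι) {f : ι → MvPolynomial σ ℚ} {a : ι → ℝ}
    (h : ∀ i ∈ s, nw w (f i) ≤ a i) : nw w (∏ i ∈ s, f i) ≤ ∏ i ∈ s, a i := by
  classical
  induction s using Finset.induction_on with
  | empty => simpa using hw.one_le
  | insert i s hi ih =>
    rw [prod_insert hi, prod_insert hi]
    exact hw.mul_le' (h i (mem_insert_self _ _)) (ih fun j hj => h j (mem_insert_of_mem hj))

theorem coeff_le (hw : SubW w) (P : MvPolynomial σ ℚ) (d : σ →₀ ℕ) :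
    |((coeff d P : ℚ) : ℝ)| * w d ≤ nw w P := by
  by_cases h : coeff d P = 0
  · simpa [h] using hw.nw_nonneg P
  · exact single_le_sum (f := fun d => |((coeff d P : ℚ) : ℝ)| * w d)
      (fun d _ => mul_nonneg (abs_nonneg _) (hw.nonneg d)) (mem_support_iff.2 h)

theorem det_le (hw : SubW w) {N : ℕ} (M : Matrix (Fin N) (Fin N) (MvPolynomial σ ℚ)) {b : ℝ}
    (hb : 0 ≤ b) (h : ∀ i j, nw w (M i j) ≤ b) : nw w M.det ≤ (2 ^ N * b) ^ N := by
  rw [Matrix.det_apply']
  refine (hw.sum_le _ _).trans ?_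
  have : ∀ π : Equiv.Perm (Fin N),
      nw w (((Equiv.Perm.sign π : ℤ) : MvPolynomial σ ℚ) * ∏ i, M (π i) i) ≤ b ^ N := by
    intro π
    have h1 : nw w (∏ i, M (π i) i) ≤ b ^ N := by
      simpa using hw.prod_le univ (f := fun i => M (π i) i) (a := fun _ => b) fun i _ => h _ _
    rcases Int.units_eq_one_or (Equiv.Perm.sign π) with e | e
    · simpa [e] using h1
    · simpa [e, nw_neg] using h1
  refine (sum_le_sum fun π _ => this π).trans ?_
  rw [sum_const, card_univ, Fintype.card_perm, Fintype.card_fin, nsmul_eq_mul, mul_pow]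
  refine mul_le_mul_of_nonneg_right ?_ (by positivity)
  exact_mod_cast (Nat.factorial_le_pow N).trans (Nat.pow_le_pow_left Nat.lt_two_pow_self.le _)

end SubW

/-- closeness to one, on a logarithmic scale -/
def Nr (w : (σ →₀ ℕ) → ℝ) (t : ℝ) (f : MvPolynomial σ ℚ) : Prop := nw w (f - 1) ≤ Real.exp t - 1

theorem Nr.of_le {t : ℝ} {f : MvPolynomial σ ℚ} (h : nw w (f - 1) ≤ t) : Nr w t f :=
  h.trans (by linarith [Real.add_one_le_exp t])

theorem Nr.mono {t t' : ℝ} {f : MvPolynomial σ ℚ} (h : Nr w t f) (ht : t ≤ t') : Nr w t' f :=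
  le_trans h (by gcongr)

theorem Nr.le {t : ℝ} {f : MvPolynomial σ ℚ} (h : Nr w t f) (h0 : 0 ≤ t) (h1 : t ≤ 1) :
    nw w (f - 1) ≤ 2 * t := by
  have := Real.abs_exp_sub_one_le (x := t) (by rwa [abs_of_nonneg h0])
  rw [abs_of_nonneg h0] at this
  exact le_trans h ((le_abs_self _).trans this)

theorem Nr.one : Nr w 0 (1 : MvPolynomial σ ℚ) := by simp [Nr, nw_zero]

theorem Nr.mul (hw : SubW w) {t t' : ℝ} {f g : MvPolynomial σ ℚ} (h : Nr w t f) (h' : Nr w t' g) :
    Nr w (t + t') (f * g) := by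
  have e : f * g - 1 = (f - 1) * (g - 1) + (f - 1) + (g - 1) := by ring
  have h1 := hw.mul_le' h h'
  have h2 := hw.add_le ((f - 1) * (g - 1) + (f - 1)) (g - 1)
  have h3 := hw.add_le ((f - 1) * (g - 1)) (f - 1)
  unfold Nr at *
  rw [e, Real.exp_add]
  nlinarith

theorem Nr.pow (hw : SubW w) {t : ℝ} {f : MvPolynomial σ ℚ} (h : Nr w t f) (n : ℕ) :
    Nr w (n * t) (f ^ n) := by
  induction n with
  | zero => simpa using Nr.one
  | succ n ih =>
    rw [pow_succ]
    exact (ih.mul hw h).mono (le_of_eq (by push_cast; ring))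

theorem Nr.prod (hw : SubW w) {ι : Type} (s : Finset ι) {f : ι → MvPolynomial σ ℚ} {t : ι → ℝ}
    (h : ∀ i ∈ s, Nr w (t i) (f i)) : Nr w (∑ i ∈ s, t i) (∏ i ∈ s, f i) := by
  classical
  induction s using Finset.induction_on with
  | empty => simpa using Nr.one
  | insert i s hi ih =>
    rw [prod_insert hi, sum_insert hi]
    exact (h i (mem_insert_self _ _)).mul hw (ih fun j hj => h j (mem_insert_of_mem hj))

theorem le_of_near (hw : SubW w) {t : ℝ} {f : MvPolynomial σ ℚ} (h : nw w (f - 1) ≤ t) :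
    nw w f ≤ 1 + t := by
  have := hw.add_le 1 (f - 1)
  rw [add_sub_cancel] at this
  linarith [hw.one_le]

/-- two elements close to one with close powers are close -/
theorem pert (hw : SubW w) {q : ℕ} (hq : 1 ≤ q) {P Q : MvPolynomial σ ℚ}
    (hP : nw w (P - 1) ≤ 1 / (4 * q)) (hQ : nw w (Q - 1) ≤ 1 / (4 * q)) :
    nw w (P - Q) ≤ 2 * nw w (P ^ q - Q ^ q) := by
  have hq' : (1 : ℝ) ≤ q := by exact_mod_cast hq
  have h1 : ∀ i ∈ range q, nw w (P ^ i * Q ^ (q - 1 - i) - 1) ≤ 1 / 2 := by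
    intro i hi
    have hi' := mem_range.1 hi
    have h2 := (((Nr.of_le hP).pow hw i).mul hw ((Nr.of_le hQ).pow hw (q - 1 - i))).mono
      (t' := 1 / 4) (by
        have : (i : ℝ) + (q - 1 - i : ℕ) ≤ q := by exact_mod_cast (by omega : i + (q - 1 - i) ≤ q)
        rw [← add_mul, mul_one_div, div_le_iff₀ (by positivity)]
        linarith)
    exact (h2.le (by norm_num) (by norm_num)).trans (by norm_num)
  have e : C (q : ℚ) * (P - Q) = (P ^ q - Q ^ q) -
      (∑ i ∈ range q, (P ^ i * Q ^ (q - 1 - i) - 1)) * (P - Q) := by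
    rw [← (Commute.all P Q).geom_sum₂_mul q, sum_sub_distrib]
    simp
    ring
  have h3 := congrArg (nw w) e
  rw [nw_C_mul] at h3
  have h4 := hw.sub_le (P ^ q - Q ^ q) ((∑ i ∈ range q, (P ^ i * Q ^ (q - 1 - i) - 1)) * (P - Q))
  have h5 := hw.mul_le' ((hw.sum_le _ _).trans (sum_le_card_nsmul _ _ _ h1)) (le_refl (nw w (P - Q)))
  rw [card_range, nsmul_eq_mul] at h5
  rw [Rat.cast_natCast, Nat.abs_cast] at h3
  nlinarith [hw.nw_nonneg (P - Q), hw.nw_nonneg (P ^ q - Q ^ q)]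

end NW

/-- a truncated root with integer coefficients -/
theorem root {φ : σ → ℝ} (hφ : ∀ k, 0 ≤ φ k) {q : ℕ} (hq : 1 ≤ q) (N : ℕ)
    {W : MvPolynomial σ ℚ} (hW : W ∈ ZR σ) (hL : Lo φ 1 W) :
    ∃ G ∈ ZR σ, Lo φ N (G ^ q - (1 - C ((q : ℚ) ^ 2) * W)) ∧ Lo φ 1 (G - 1) ∧
      ∀ w, SubW w → ∀ η : ℝ, η ≤ 1 / 2 → nw w (C ((q : ℚ) ^ 2) * W) ≤ η →
        nw w (G - 1) ≤ 2 * η := by
  obtain ⟨r, h0, ⟨s, hs⟩, hb⟩ := exists_rt hq N
  have e : Polynomial.aeval W r - 1 =
      ∑ i ∈ range r.natDegree, C ((r.coeff (i + 1) : ℤ) : ℚ) * W ^ (i + 1) := by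
    rw [Polynomial.aeval_eq_sum_range, sum_range_succ', h0]
    simp
  refine ⟨Polynomial.aeval W r, ?_, ?_, ?_, ?_⟩
  · rw [← sub_add_cancel (Polynomial.aeval W r) 1, e]
    exact add_mem (sum_mem fun i _ => mul_mem (C_mem _) (pow_mem hW _)) (one_mem _)
  · have := congrArg (Polynomial.aeval W) hs
    simp only [map_sub, map_pow, map_add, map_mul, Polynomial.aeval_X, map_neg, map_natCast,
      map_one] at this
    have e2 : Polynomial.aeval W r ^ q - (1 - C ((q : ℚ) ^ 2) * W) =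
        W ^ N * Polynomial.aeval W s := by
      rw [← this, map_pow, map_natCast]
      ring
    rw [e2]
    simpa using lo_mul_right hφ (lo_pow hL N) _
  · rw [e]
    refine Lo.sum _ _ fun i _ => lo_C_mul ((lo_pow hL _).mono ?_) _
    push_cast
    linarith [(Nat.cast_nonneg i : (0 : ℝ) ≤ i)]
  · intro w hw η h1 h2
    have h3 : 0 ≤ η := (hw.nw_nonneg _).trans h2
    rw [nw_C_mul] at h2
    rw [e]
    refine (hw.sum_le _ _).trans ((sum_le_sum (g := fun i => η * (1 / 2) ^ i) fun i _ => ?_).trans ?_)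
    · rw [nw_C_mul, Rat.cast_intCast]
      calc _ ≤ ((q : ℝ) ^ 2) ^ (i + 1) * nw w W ^ (i + 1) :=
            mul_le_mul (hb _) (hw.pow_le le_rfl _) (hw.nw_nonneg _) (by positivity)
        _ ≤ η ^ (i + 1) := by
            rw [← mul_pow]
            refine pow_le_pow_left₀ (mul_nonneg (by positivity) (hw.nw_nonneg _)) ?_ _
            simpa using h2
        _ ≤ _ := by
            rw [pow_succ']
            gcongr
    · rw [← mul_sum, mul_comm]
      exact mul_le_mul_of_nonneg_right (sum_geometric_two_le _) h3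

section Rad

variable [Fintype σ]

/-- the weight attached to a polydisc -/
noncomputable def rad (t : σ → ℝ) (d : σ →₀ ℕ) : ℝ := ∏ k, t k ^ d k

theorem rad_add (t : σ → ℝ) (d d' : σ →₀ ℕ) : rad t (d + d') = rad t d * rad t d' := by
  simp [rad, pow_add, prod_mul_distrib]

theorem rad_single [DecidableEq σ] (t : σ → ℝ) (k : σ) : rad t (Finsupp.single k 1) = t k := by
  rw [rad, prod_eq_single k] <;> simp +contextual [eq_comm]

theorem subW_rad {t : σ → ℝ} (ht : ∀ k, 0 ≤ t k) : SubW (rad t) :=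
  ⟨fun _ => prod_nonneg fun k _ => pow_nonneg (ht k) _, by simp [rad],
    fun d d' => (rad_add t d d').le⟩

omit [Fintype σ] in
theorem subW_one : SubW fun _ : σ →₀ ℕ => (1 : ℝ) := ⟨fun _ => zero_le_one, le_rfl, by simp⟩

theorem nw_aeval {τ : Type} {w : (τ →₀ ℕ) → ℝ} (hw : SubW w) {t : σ → ℝ}
    {f : σ → MvPolynomial τ ℚ} (hf : ∀ k, nw w (f k) ≤ t k) (P : MvPolynomial σ ℚ) :
    nw w (aeval f P) ≤ nw (rad t) P := by
  conv_lhs => rw [P.as_sum, map_sum]
  refine (hw.sum_le _ _).trans (sum_le_sum fun d _ => ?_)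
  rw [aeval_monomial, Finsupp.prod_fintype _ _ (by simp), algebraMap_eq, nw_C_mul]
  exact mul_le_mul_of_nonneg_left (hw.prod_le _ fun k _ => hw.pow_le (hf k) _) (abs_nonneg _)

/-- the truncated weight -/
noncomputable def tw (φ : σ → ℝ) (J : ℝ) (t : σ → ℝ) (d : σ →₀ ℕ) : ℝ :=
  if wt φ d < J then rad t d else 0

theorem subW_tw {φ t : σ → ℝ} (hφ : ∀ k, 0 ≤ φ k) (J : ℝ) (ht : ∀ k, 0 ≤ t k) :
    SubW (tw φ J t) := by
  have h := subW_rad ht
  have h0 : ∀ d, 0 ≤ tw φ J t d := fun d => by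
    unfold tw
    split_ifs
    · exact h.nonneg d
    · exact le_rfl
  refine ⟨h0, ?_, fun d d' => ?_⟩
  · unfold tw
    split_ifs
    · exact h.zero
    · exact zero_le_one
  · by_cases h1 : wt φ (d + d') < J
    · have h2 := wt_nonneg hφ d
      have h3 := wt_nonneg hφ d'
      rw [tw, tw, tw, if_pos h1, if_pos, if_pos, rad_add] <;> rw [wt_add] at h1 <;> linarith
    · rw [tw, if_neg h1]
      exact mul_nonneg (h0 _) (h0 _)

theorem nw_tw_lo {φ t : σ → ℝ} {J : ℝ} {P : MvPolynomial σ ℚ} (h : Lo φ J P) :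
    nw (tw φ J t) P = 0 :=
  sum_eq_zero fun d hd => by rw [tw, if_neg (not_lt.2 (h d (mem_support_iff.1 hd))), mul_zero]

theorem nw_tw_le {φ t : σ → ℝ} (J : ℝ) (ht : ∀ k, 0 ≤ t k) (P : MvPolynomial σ ℚ) :
    nw (tw φ J t) P ≤ nw (rad t) P := by
  refine (nw_le (c := 1) fun d _ => ?_).trans (one_mul _).le
  rw [tw, one_mul]
  split_ifs
  · exact le_rfl
  · exact (subW_rad ht).nonneg d

end Rad

attribute [local instance] Matrix.seminormedAddCommGroup in
/-- Siegel's lemma with exponent three -/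
theorem siegel3 {α β : Type} [Fintype α] [Fintype β] (A : Matrix α β ℤ) {B : ℝ} (hB : 1 ≤ B)
    (hA : ∀ a b, |(A a b : ℝ)| ≤ B) (h0 : 0 < Fintype.card α)
    (h : 4 * Fintype.card α ≤ 3 * Fintype.card β) :
    ∃ t : β → ℤ, t ≠ 0 ∧ (∀ b, |(t b : ℝ)| ≤ (Fintype.card β * B) ^ 3) ∧
      ∀ a, ∑ b, A a b * t b = 0 := by
  obtain ⟨t, ht0, ht, hb⟩ := Int.Matrix.exists_ne_zero_int_vec_norm_le A (by omega) h0
  generalize Fintype.card β = n at *
  generalize Fintype.card α = m at *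
  have hA' : ‖A‖ ≤ B := by
    rw [Matrix.norm_le_iff (by linarith)]
    intro r w
    rw [Int.norm_eq_abs]
    exact hA _ _
  have hn : (m : ℝ) < n := by exact_mod_cast (by omega : m < n)
  have hn1 : (1 : ℝ) ≤ n := by exact_mod_cast (by omega : 1 ≤ n)
  have hexp : (m : ℝ) / (n - m) ≤ (3 : ℕ) := by
    rw [div_le_iff₀ (by linarith)]
    have : (4 : ℝ) * m ≤ 3 * n := by exact_mod_cast h
    push_cast
    linarith
  have hb2 : ‖t‖ ≤ (n * B) ^ 3 := by
    rw [← Real.rpow_natCast]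
    refine hb.trans ((Real.rpow_le_rpow (by positivity) (by gcongr; exact max_le hB hA')
      (div_nonneg (by positivity) (by linarith))).trans
      (Real.rpow_le_rpow_of_exponent_le (by nlinarith) hexp))
  refine ⟨t, ht0, fun b => ?_, fun a => congrFun ht a⟩
  rw [← Int.norm_eq_abs]
  exact (norm_le_pi_norm t _).trans hb2

end Pool.Agent.P.MP_71e30e_nt.Comp
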