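import Pool.Agent.P.MP_71e30e_nt.CMain

set_option autoImplicit false

/-! Finiteness when the base is a perfect power of fixed exponent. -/

namespace Pool.Agent.P.MP_71e30e_nt.Comp

open Finset

theorem rel_power {q z μ n y v : ℕ} (hq : 2 ≤ q) (hz : 1 ≤ z) (hn : 1 ≤ n)
    (h1 : ∑ i ∈ range n, z ^ i = v ^ q) (h2 : ∑ i ∈ range n, (z ^ μ) ^ i = y ^ q) :
    Rel q z ![1, μ, n, μ * n] := by
  obtain ⟨c, hc⟩ := Nat.exists_eq_add_of_le (Nat.mod_lt μ (by omega : 0 < q)).le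
  obtain ⟨r, hr⟩ : ∃ r, q = r + 1 := ⟨q - 1, by omega⟩
  refine ⟨![μ % q, r, c, 1], (z - 1) * (z ^ μ - 1) * v ^ c * y,
    by simp [Fin.sum_univ_succ]; omega, ⟨3, Nat.not_dvd_of_pos_of_lt one_pos hq⟩, ?_, ?_⟩
  · obtain ⟨n, rfl⟩ : ∃ k, n = k + 1 := ⟨n - 1, by omega⟩
    refine ⟨μ + (n + 1) + μ / q * n, ?_⟩
    have e := Nat.div_add_mod μ q
    simp only [Fin.sum_univ_succ]
    simp
    generalize μ % q = a at *
    generalize μ / q = b at *
    zify at *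
    linear_combination (-n) * e - μ * hr - (n + 1) * hc
  · simp only [Fin.prod_univ_succ]
    simp
    rw [pow_mul, pow_sub_one_eq (Nat.one_le_pow μ _ hz) n, pow_sub_one_eq hz n, h1, h2]
    generalize z ^ μ - 1 = X1
    generalize z - 1 = X0
    have k0 : X0 ^ q = X0 ^ (μ % q) * X0 ^ c := by rw [← pow_add, ← hc]
    have k1 : X1 ^ q = X1 ^ r * X1 := by rw [← pow_succ, ← hr]
    rw [mul_pow, mul_pow, mul_pow, mul_pow, k0, k1]
    ring

theorem power_scales (μ : ℕ) (hμ : 2 ≤ μ) : ∃ A : ℕ, ∀ q z n : ℕ, 1 ≤ q → 1 ≤ z → 2 ≤ n →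
    n ≠ μ → Rel q z ![1, μ, n, μ * n] → z < (A * q) ^ A := by
  obtain ⟨L1, A1, p1, h1⟩ := wrap μ (by omega)
  obtain ⟨L2, A2, p2, h2⟩ := wrap (μ * L1) (Nat.mul_pos (by omega) p1)
  refine ⟨A1 + A2 + 1, fun q z n hq hz hn hne h => ?_⟩
  have a1 : μ < μ * n := by nlinarith
  have a2 : n < μ * n := by nlinarith
  have hi : Function.Injective ![1, μ, n, μ * n] := by
    intro i j e
    fin_cases i <;> fin_cases j <;> simp at e ⊢ <;> omega
  by_cases c1 : L1 ≤ n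
  · exact bd_mono hq (h1 _ q z _ ![3, 3, 2, 2] ![1, μ, 1, μ] ![L1 * (L1 * n), L1 * n, n, 1] hq hz
      h hi (fun i => by fin_cases i <;> simp [mul_comm] <;> omega) (by simp) (by simpa using c1)
      (by simp) (by simp)) (by omega)
  have c2 := Nat.mul_le_mul_left μ (not_le.1 c1).le
  exact bd_mono hq (h2 _ q z _ 3 ![1, μ, n, μ * n] ![L2 * (L2 * L2), L2 * L2, L2, 1] hq hz
    h hi (fun i => by fin_cases i <;> simp <;> omega) (by simp) (by simp) (by simp) (by simp))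
    (by omega)

theorem power_finite (μ : ℕ) (hμ : μ.Prime) :
    {s : ℕ × ℕ × ℕ × ℕ | 2 ≤ s.1 ∧ 3 ≤ s.2.2.1 ∧ 2 ≤ s.2.2.2 ∧
      ((∃ z, s.1 = z ^ μ) ∧ (s.2.2.1.Prime → ¬ s.2.2.1 ∣ μ * (μ - 1))) ∧
      ∑ i ∈ range s.2.2.1, s.1 ^ i = s.2.1 ^ s.2.2.2}.Finite := by
  obtain ⟨A1, h1⟩ := comp_bound
  obtain ⟨A2, h2⟩ := power_scales μ hμ.two_le
  refine finite_of_bound (fun x n => (∃ z, x = z ^ μ) ∧ (n.Prime → ¬ n ∣ μ * (μ - 1)))
    (A1 + A2 * μ + 1)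
    fun q x n y hq hx hn ⟨⟨z, hz⟩, n2⟩ h => ?_
  by_cases hp : n.Prime
  · subst hz
    have hz : 2 ≤ z := by
      by_contra! k
      have : z ^ μ ≤ 1 := pow_le_one₀ (Nat.zero_le _) (by omega)
      omega
    obtain ⟨v, -, hv, -⟩ := split hμ hz (by omega) (hp.coprime_iff_not_dvd.2 (n2 hp)) h
    have n1 : n ≠ μ := fun e => n2 hp (e ▸ dvd_mul_right _ _)
    have h3 := Nat.pow_lt_pow_left (h2 q z n hq.one_le (by omega) (by omega) n1
      (rel_power hq.two_le (by omega) (by omega) hv h)) hμ.ne_zero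
    rw [← pow_mul] at h3
    refine bd_mono (A := A2 * μ) hq.one_le (h3.trans_le (Nat.pow_le_pow_left
      (Nat.mul_le_mul_right _ (Nat.le_mul_of_pos_right _ hμ.pos)) _)) (by omega)
  · exact bd_mono hq.one_le (h1 q x n y hq hx (by omega) hp h) (by omega)

end Pool.Agent.P.MP_71e30e_nt.Comp
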