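import Pool.Agent.P.MP_71e30e_nt.CN
import Pool.Agent.Lib.Ridout.Zero

set_option autoImplicit false

/-! Roth's lemma with heights at points with unit fraction coordinates. -/

namespace Pool.Agent.P.MP_71e30e_nt.Comp

open MvPolynomial Finset Pool.Agent.P.MP_6e34ef_nt.Roth
open Pool.Agent.Lib.Ridout (DL DL_cons tau gen_wronskian taylor_mv taylor_one decompose DL_tau
  DL_one tau_X tau_C tau_ne_zero finSucc_tau)

/-- iterated derivative along a list of variables -/
noncomputable abbrev DP {σ : Type} (L : List σ) : MvPolynomial σ ℚ →ₗ[ℚ] MvPolynomial σ ℚ :=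
  DL (fun h => pderiv h) L

/-- the plain norm -/
noncomputable abbrev n1 {σ : Type} (P : MvPolynomial σ ℚ) : ℝ := nw (fun _ => 1) P

theorem lo_DP {σ : Type} {φ : σ → ℝ} {a b : ℝ} {P : MvPolynomial σ ℚ} (h : Lo φ a P) (L : List σ)
    (hb : ∀ k ∈ L, φ k ≤ b) : Lo φ (a - L.length * b) (DP L P) := by
  induction L with
  | nil => simpa using h
  | cons k L ih =>
    rw [DL_cons]
    refine (lo_pderiv (ih fun j hj => hb j (List.mem_cons_of_mem _ hj)) k).mono ?_
    have := hb k List.mem_cons_self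
    simp only [List.length_cons]
    push_cast
    linarith

theorem lo_DP_neg {σ : Type} {φ : σ → ℝ} {a : ℝ} {P : MvPolynomial σ ℚ} (h : Lo φ a P)
    (L : List σ) (hb : ∀ k, φ k ≤ 0) : Lo φ a (DP L P) := by
  simpa using lo_DP (b := 0) h L fun k _ => hb k

theorem DP_monomial {σ : Type} [Fintype σ] (L : List σ) : ∃ e : σ →₀ ℕ, ∀ (d : σ →₀ ℕ) (a : ℚ),
    DP L (monomial d a) = monomial (d - e) (a * ∏ k, ((d k).descFactorial (e k) : ℚ)) := by
  classical
  induction L with
  | nil => exact ⟨0, fun d a => by simp⟩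
  | cons h L ih =>
    obtain ⟨e, he⟩ := ih
    refine ⟨e + Finsupp.single h 1, fun d a => ?_⟩
    rw [DL_cons, he, pderiv_monomial, tsub_tsub, mul_assoc]
    congr 2
    have : ∀ k, ((d k).descFactorial ((e + Finsupp.single h 1 : σ →₀ ℕ) k) : ℚ) =
        (d k).descFactorial (e k) * if k = h then ((d k - e k : ℕ) : ℚ) else 1 := by
      intro k
      split_ifs with hk
      · subst hk
        simp [Nat.descFactorial_succ, mul_comm]
      · simp [Ne.symm hk]
    simp only [this, prod_mul_distrib, prod_ite_eq', mem_univ, if_true, Finsupp.tsub_apply]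

theorem hasse_norm {σ : Type} [Fintype σ] (L : List σ) : ∃ c : ℚ, c ≠ 0 ∧
    ∀ (P : MvPolynomial σ ℚ) (N : ℕ), P ∈ ZR σ → Lo (fun _ => -1) (-N) P →
      ∃ P' ∈ ZR σ, Lo (fun _ => -1) (-N) P' ∧ DP L P = C c * P' ∧ n1 P' ≤ 2 ^ N * n1 P := by
  obtain ⟨e, he⟩ := DP_monomial L
  have hc : (∏ k, ((e k).factorial : ℚ)) ≠ 0 := by positivity
  refine ⟨_, hc, fun P N hP hN => ?_⟩
  set P' : MvPolynomial σ ℚ := ∑ d ∈ P.support,
    monomial (d - e) (coeff d P * ∏ k, ((d k).choose (e k) : ℚ)) with hP'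
  have h1 : DP L P = C (∏ k, ((e k).factorial : ℚ)) * P' := by
    conv_lhs => rw [P.as_sum, map_sum]
    rw [hP', mul_sum]
    refine sum_congr rfl fun d _ => ?_
    rw [he, C_mul_monomial]
    simp only [Nat.descFactorial_eq_factorial_mul_choose, Nat.cast_mul, prod_mul_distrib]
    congr 1
    ring
  refine ⟨P', ?_, ?_, h1, ?_⟩
  · refine sum_mem fun d _ => ?_
    obtain ⟨z, hz⟩ := mem_ZR.1 hP d
    have := monomial_mem (d - e) (z * ∏ k, ((d k).choose (e k) : ℤ))
    rwa [Int.cast_mul, hz, Int.cast_prod] at this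
  · refine Lo.of_C_mul hc ?_
    rw [← h1]
    exact lo_DP_neg hN L fun _ => by norm_num
  · refine (subW_one.sum_le _ _).trans ?_
    rw [n1, nw, mul_sum]
    refine sum_le_sum fun d hd => ?_
    rw [nw_monomial, mul_one, mul_one, Rat.cast_mul, abs_mul, mul_comm]
    refine mul_le_mul_of_nonneg_right ?_ (abs_nonneg _)
    have h2 := hN d (mem_support_iff.1 hd)
    simp only [wt_eq_sum, mul_neg, mul_one, sum_neg_distrib, neg_le_neg_iff] at h2
    have h3 : ∏ k, (d k).choose (e k) ≤ 2 ^ N :=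
      (prod_le_prod' fun k _ => Nat.choose_le_two_pow (d k) (e k)).trans (by
        rw [prod_pow_eq_pow_sum]
        exact Nat.pow_le_pow_right two_pos (by exact_mod_cast h2))
    rw [abs_of_nonneg (by positivity)]
    exact_mod_cast h3

theorem one_var_bound {U : Polynomial ℚ} (hU : U ≠ 0) {B : ℝ} (hz : ∀ i, ∃ z : ℤ, (z : ℚ) = U.coeff i)
    (hB : ∀ i, |((U.coeff i : ℚ) : ℝ)| ≤ B) {z μ : ℕ} (h0 : z ≠ 0)
    (h : ∀ i < μ, (Polynomial.taylor (1 / z : ℚ) U).coeff i = 0) : (z : ℝ) ^ μ ≤ B := by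
  obtain ⟨V, hV⟩ := (Polynomial.mem_lifts (f := Int.castRingHom ℚ) U).1
    ((Polynomial.lifts_iff_coeff_lifts U).2 fun i => by simpa using hz i)
  have h1 : (Polynomial.X - Polynomial.C (1 / z : ℚ)) ^ μ ∣ U := by
    rw [Polynomial.X_sub_C_pow_dvd_iff, Polynomial.X_pow_dvd_iff, ← Polynomial.taylor_apply]
    exact h
  have hz0 : (z : ℚ) ≠ 0 := by exact_mod_cast h0
  set F : Polynomial ℤ := (Polynomial.C (z : ℤ) * Polynomial.X - 1) ^ μ with hF
  have h2 : F.IsPrimitive := by
    rw [Polynomial.isPrimitive_iff_isUnit_of_C_dvd]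
    intro r hr
    have := (Polynomial.C_dvd_iff_dvd_coeff _ _).1 hr 0
    rw [Polynomial.coeff_zero_eq_eval_zero] at this
    exact isUnit_of_dvd_unit this (by simpa [hF] using (isUnit_one.neg).pow μ)
  have h3 : F ∣ V := by
    rw [Polynomial.IsPrimitive.Int.dvd_iff_map_cast_dvd_map_cast _ _ h2, hV]
    have e : F.map (Int.castRingHom ℚ) = Polynomial.C ((z : ℚ) ^ μ) *
        (Polynomial.X - Polynomial.C (1 / z : ℚ)) ^ μ := by
      rw [map_pow, ← mul_pow, mul_sub, ← map_mul, mul_one_div_cancel hz0]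
      simp [hF]
    rw [e]
    exact ((Polynomial.isUnit_C.2 (pow_ne_zero _ hz0).isUnit).mul_left_dvd).2 h1
  have hV0 : V ≠ 0 := by rintro rfl; exact hU (by simpa using hV.symm)
  have h4 := Polynomial.leadingCoeff_dvd_leadingCoeff h3
  have h5 : F.leadingCoeff = z ^ μ := by
    rw [hF, Polynomial.leadingCoeff_pow, sub_eq_add_neg, ← map_one Polynomial.C, ← map_neg,
      Polynomial.leadingCoeff_linear (by exact_mod_cast h0)]
  have h6 := Int.le_of_dvd (abs_pos.2 (Polynomial.leadingCoeff_ne_zero.2 hV0))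
    ((dvd_abs _ _).2 (h5 ▸ h4))
  have h7 := hB V.natDegree
  rw [← hV, Polynomial.coeff_map, eq_intCast, Rat.cast_intCast] at h7
  exact le_trans (by exact_mod_cast h6) h7

section Emb

variable {n : ℕ}

/-- the variables other than the first -/
noncomputable abbrev eS : MvPolynomial (Fin n) ℚ →ₐ[ℚ] MvPolynomial (Fin (n + 1)) ℚ :=
  rename Fin.succ

/-- the first variable -/
noncomputable abbrev eZ : Polynomial ℚ →ₐ[ℚ] MvPolynomial (Fin (n + 1)) ℚ :=
  Polynomial.aeval (X 0)

theorem fs_eS (a : MvPolynomial (Fin n) ℚ) : finSuccEquiv ℚ n (eS a) = Polynomial.C a := by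
  induction a using MvPolynomial.induction_on with
  | C a => simp [finSuccEquiv_apply]
  | add p q hp hq => simp only [map_add, hp, hq]
  | mul_X p i hp => rw [map_mul, map_mul, hp, rename_X, finSuccEquiv_X_succ, map_mul]

theorem fs_eZ (a : Polynomial ℚ) :
    finSuccEquiv ℚ n (eZ a) = a.map (algebraMap ℚ (MvPolynomial (Fin n) ℚ)) := by
  induction a using Polynomial.induction_on with
  | C a => simp [finSuccEquiv_apply]
  | add p q hp hq => simp only [map_add, hp, hq, Polynomial.map_add]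
  | monomial k a h =>
    rw [pow_succ, ← mul_assoc, map_mul, map_mul, h, Polynomial.aeval_X, finSuccEquiv_X_zero,
      Polynomial.map_mul _ (q := Polynomial.X), Polynomial.map_X]

theorem coeff_eSZ (a : MvPolynomial (Fin n) ℚ) (b : Polynomial ℚ) (i : ℕ) (d : Fin n →₀ ℕ) :
    coeff (d.cons i) (eS a * eZ b) = coeff d a * b.coeff i := by
  rw [← finSuccEquiv_coeff_coeff, map_mul, fs_eS, fs_eZ, Polynomial.coeff_C_mul,
    Polynomial.coeff_map, algebraMap_eq, mul_comm, coeff_C_mul, mul_comm]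

theorem DP_succ (L : List (Fin n)) (a : MvPolynomial (Fin n) ℚ) (b : Polynomial ℚ) :
    DP (L.map Fin.succ) (eS a * eZ b) = eS (DP L a) * eZ b := by
  induction L with
  | nil => rfl
  | cons h L ih =>
    rw [List.map_cons, DL_cons, ih, DL_cons, pderiv_mul, pderiv_rename (Fin.succ_injective n),
      Derivation.comp_aeval_eq, pderiv_X_of_ne (Fin.succ_ne_zero h).symm]
    simp

theorem DP_zero (j : ℕ) (a : MvPolynomial (Fin n) ℚ) (b : Polynomial ℚ) :
    DP (List.replicate j 0) (eS a * eZ b) = eS a * eZ (Polynomial.derivative^[j] b) := by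
  have h0 : pderiv 0 (eS a) = 0 := by
    induction a using MvPolynomial.induction_on with
    | C a => simp
    | add p q hp hq => simp only [map_add, hp, hq, add_zero]
    | mul_X p i hp =>
      rw [map_mul, pderiv_mul, hp, rename_X, pderiv_X_of_ne (Fin.succ_ne_zero i)]
      simp
  induction j with
  | zero => rfl
  | succ j ih =>
    rw [List.replicate_succ, DL_cons, ih, pderiv_mul, h0, Derivation.comp_aeval_eq,
      Function.iterate_succ_apply']
    simp

theorem tau_eSZ (ξ : Fin (n + 1) → ℚ) (a : MvPolynomial (Fin n) ℚ) (b : Polynomial ℚ) :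
    tau ξ (eS a * eZ b) = eS (tau (fun h => ξ h.succ) a) * eZ (Polynomial.taylor (ξ 0) b) := by
  apply (finSuccEquiv ℚ n).injective
  have e1 : Polynomial.map (tau fun h : Fin n => ξ h.succ).toRingHom
      (Polynomial.map (algebraMap ℚ _) b) = Polynomial.map (algebraMap ℚ _) b := by
    rw [Polynomial.map_map]
    congr 1
    exact (tau fun h : Fin n => ξ h.succ).comp_algebraMap
  rw [finSucc_tau, map_mul, map_mul, fs_eS, fs_eS, fs_eZ, fs_eZ, Polynomial.map_mul,
    Polynomial.map_C, e1, Polynomial.taylor_mul, Polynomial.taylor_C, Polynomial.map_taylor]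
  rfl

theorem n1_coeff_le (A : MvPolynomial (Fin (n + 1)) ℚ) (i : ℕ) :
    n1 ((finSuccEquiv ℚ n A).coeff i) ≤ n1 A := by
  classical
  rw [n1, n1, nw, nw]
  simp only [finSuccEquiv_coeff_coeff]
  rw [← sum_image (f := fun d => |((coeff d A : ℚ) : ℝ)| * 1)
    (g := fun d : Fin n →₀ ℕ => d.cons i) (fun x _ y _ h => Finsupp.cons_right_injective i h)]
  refine sum_le_sum_of_subset_of_nonneg (fun d hd => ?_) fun _ _ _ => by positivity
  obtain ⟨x, hx, rfl⟩ := mem_image.1 hd
  exact mem_support_coeff_finSuccEquiv.1 hx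

end Emb

theorem wt_sing {n : ℕ} (h : Fin n) (c : ℝ) (d : Fin n →₀ ℕ) : wt (Pi.single h c) d = d h * c := by
  rw [wt_eq_sum, sum_eq_single h] <;> simp +contextual

/-- the Wronskian determinant -/
theorem wronsk {n : ℕ} {P : MvPolynomial (Fin (n + 1)) ℚ} (hP : P ≠ 0) (hZ : P ∈ ZR _) (r N : ℕ)
    (hr : ∀ d, coeff d P ≠ 0 → d 0 ≤ r) (hN : Lo (fun _ => -1) (-N) P) :
    ∃ (κ : ℕ) (V : MvPolynomial (Fin n) ℚ) (U : Polynomial ℚ), 1 ≤ κ ∧ κ ≤ r + 1 ∧ V ≠ 0 ∧ U ≠ 0 ∧
      eS V * eZ U ∈ ZR _ ∧ n1 (eS V * eZ U) ≤ (2 ^ κ * (2 ^ N * (2 ^ N * n1 P))) ^ κ ∧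
      (∀ (φ : Fin (n + 1) → ℝ) (a : ℝ), (∀ k, φ k ≤ 0) → Lo φ a P → Lo φ (κ * a) (eS V * eZ U)) ∧
      ∀ (φ : Fin (n + 1) → ℝ) (a b : ℝ) (ξ : Fin (n + 1) → ℚ), (∀ k, 0 ≤ φ k) → 0 ≤ b →
        (∀ k : Fin n, φ k.succ ≤ b) → Lo φ a (tau ξ P) →
        Lo φ (∑ s ∈ range κ, max (a - r * b - s * φ 0) 0) (tau ξ (eS V * eZ U)) := by
  obtain ⟨κ, φ, ψ, hκ, hφ, hψ, -, hdec⟩ := decompose (finSuccEquiv ℚ n P) r (by
    intro s hs
    ext m
    by_contra hm
    rw [finSuccEquiv_coeff_coeff] at hm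
    have := hr _ hm
    rw [Finsupp.cons_zero] at this
    omega)
  have hd : P = ∑ l, eS (φ l) * eZ (ψ l) := by
    apply (finSuccEquiv ℚ n).injective
    simp only [hdec, map_sum, map_mul, fs_eS, fs_eZ]
  have hκ0 : 1 ≤ κ := by
    rcases Nat.eq_zero_or_pos κ with rfl | h
    · exact absurd (by simpa using hd) hP
    · exact h
  obtain ⟨L, hL, hV⟩ := gen_wronskian _ taylor_mv κ φ hφ
  obtain ⟨L1, hL1, hU⟩ := gen_wronskian _ taylor_one κ ψ hψ
  set V := (Matrix.of fun i j => DL (fun h => pderiv h) (L i) (φ j)).det with hVd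
  set U := (Matrix.of fun i j =>
    DL (fun _ : Unit => Polynomial.derivative') (L1 i) (ψ j)).det with hUd
  set M : Matrix (Fin κ) (Fin κ) (MvPolynomial (Fin (n + 1)) ℚ) := Matrix.of fun i j =>
    DP ((L i).map Fin.succ) (DP (List.replicate (L1 j).length 0) P) with hM
  have hM1 : M.det = eS V * eZ U := by
    have e : M = eS.mapMatrix (Matrix.of fun i j => DL (fun h => pderiv h) (L i) (φ j)) *
        (eZ.mapMatrix (Matrix.of fun i j =>
          DL (fun _ : Unit => Polynomial.derivative') (L1 i) (ψ j))).transpose := by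
      ext1 i j
      simp only [hM, Matrix.of_apply, Matrix.mul_apply]
      rw [hd, map_sum, map_sum]
      refine sum_congr rfl fun l _ => ?_
      rw [DP_zero, DP_succ]
      simp [DL_one]
    rw [e, Matrix.det_mul, Matrix.det_transpose, ← AlgHom.map_det, ← AlgHom.map_det]
  choose c1 hc1 h1 using fun j : Fin κ =>
    hasse_norm (List.replicate (L1 j).length (0 : Fin (n + 1)))
  choose c2 hc2 h2 using fun i : Fin κ => hasse_norm ((L i).map Fin.succ)
  choose P1 z1 d1 e1 b1 using fun j => h1 j P N hZ hN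
  choose P2 z2 d2 e2 b2 using fun i j => h2 i (P1 j) N (z1 j) (d1 j)
  set c : ℚ := (∏ i, c2 i) * ∏ j, c1 j with hc
  have hc0 : c ≠ 0 := mul_ne_zero (prod_ne_zero_iff.2 fun i _ => hc2 i)
    (prod_ne_zero_iff.2 fun i _ => hc1 i)
  have hM2 : M.det = C c * (Matrix.of P2).det := by
    have e : M = Matrix.of fun i j => C (c2 i) * (Matrix.of fun i j => C (c1 j) * P2 i j) i j := by
      ext1 i j
      simp only [hM, Matrix.of_apply]
      rw [e1, ← smul_eq_C_mul, map_smul, e2, smul_eq_C_mul]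
      ring
    rw [e, Matrix.det_mul_column, hc, map_mul, map_prod, map_prod, mul_assoc]
    congr 1
    exact Matrix.det_mul_row (fun j => C (c1 j)) (Matrix.of P2)
  have hW : eS (C c⁻¹ * V) * eZ U = C c⁻¹ * M.det := by
    rw [hM1, map_mul, rename_C, mul_assoc]
  have hW2 : eS (C c⁻¹ * V) * eZ U = (Matrix.of P2).det := by
    rw [hW, hM2, ← mul_assoc, ← map_mul, inv_mul_cancel₀ hc0, map_one, one_mul]
  refine ⟨κ, C c⁻¹ * V, U, hκ0, hκ, mul_ne_zero (by simpa using hc0) hV, hU, ?_, ?_, ?_, ?_⟩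
  · rw [hW2]
    exact det_mem _ z2
  · rw [hW2]
    have := subW_one.nw_nonneg P
    exact subW_one.det_le _ (by positivity) fun i j =>
      (b2 i j).trans (mul_le_mul_of_nonneg_left (b1 j) (by positivity))
  · intro φ a h0 ha
    rw [hW]
    have := Lo.det M (fun _ => 0) (fun _ => a) fun i j => by
      rw [zero_add]
      exact lo_DP_neg (lo_DP_neg ha _ h0) _ h0
    simpa using lo_C_mul this c⁻¹
  · intro φ a b ξ h0 hb hb' ha
    have hinj : Function.Injective (fun i : Fin κ => (⟨(L1 i).length, hL1 i⟩ : Fin κ)) := by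
      intro i i' h
      by_contra hne
      apply hU
      apply Matrix.det_zero_of_row_eq hne
      funext j
      have : (L1 i).length = (L1 i').length := congrArg Fin.val h
      simp [DL_one, this]
    rw [← Fin.sum_univ_eq_sum_range (fun s => max (a - r * b - s * φ 0) 0),
      ← (Finite.injective_iff_bijective.1 hinj).sum_comp
        (fun s : Fin κ => max (a - r * b - (s : ℕ) * φ 0) 0), hW, map_mul, tau_C, AlgHom.map_det]
    have := Lo.det (φ := φ) ((tau ξ).mapMatrix M) (fun _ => 0)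
      (fun j => max (a - r * b - (L1 j).length * φ 0) 0) fun i j => by
        rw [zero_add]
        refine Lo.max0 h0 ?_
        simp only [hM, AlgHom.mapMatrix_apply, Matrix.map_apply, Matrix.of_apply]
        rw [← DL_tau, ← DL_tau]
        refine (lo_DP (b := b) (lo_DP (b := φ 0) ha _ fun k hk => ?_) _ fun k hk => ?_).mono ?_
        · rw [List.eq_of_mem_replicate hk]
        · obtain ⟨k', -, rfl⟩ := List.mem_map.1 hk
          exact hb' k'
        · have : ((L i).length : ℝ) ≤ r := by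
            have := hL i
            exact_mod_cast (by omega : (L i).length ≤ r)
          simp only [List.length_map, List.length_replicate]
          nlinarith
    simpa using lo_C_mul this c⁻¹

/-- Roth's lemma -/
theorem roth (n : ℕ) : ∀ ε : ℝ, 0 < ε → ∃ Λ δ : ℝ, 1 ≤ Λ ∧ 0 < δ ∧
    ∀ (g : Fin n → ℝ) (D L : ℝ) (z : Fin n → ℕ) (P : MvPolynomial (Fin n) ℚ), (∀ h, 1 ≤ g h) →
      (∀ h h', h < h' → Λ * g h' ≤ g h) → 1 ≤ D → 1 ≤ δ * L → (∀ h, Real.exp (L * g h) ≤ z h) →
      P ≠ 0 → P ∈ ZR _ → (∀ h, Lo (Pi.single h (-g h)) (-D) P) →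
      n1 P ≤ Real.exp (δ * L * D) → ¬ Lo g (ε * D) (tau (fun h => 1 / z h) P) := by
  induction n with
  | zero =>
    refine fun ε hε => ⟨1, 1, le_rfl, one_pos, fun g D L z P _ _ hD _ _ hP _ _ _ hV => ?_⟩
    obtain ⟨m, hm⟩ := MvPolynomial.ne_zero_iff.1 (tau_ne_zero (fun h => 1 / z h) hP)
    have := hV m hm
    rw [Subsingleton.elim m 0, wt_zero] at this
    nlinarith
  | succ n ih =>
    intro ε0 hε0
    set θ := min ε0 1 / 2 with hθ
    have hθ1 : 0 < θ := by positivity
    have hθ2 : θ ≤ 1 := by have := min_le_right ε0 1; linarith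
    have hθ3 : 2 * θ ≤ ε0 := by have := min_le_left ε0 1; linarith
    set ε := θ ^ 2 / 16 with hε
    have hε1 : 0 < ε := by positivity
    obtain ⟨Λ, δ, hΛ, hδ, ih⟩ := ih ε hε1
    set δ1 := min δ (ε / 2) with hδ1
    have hδ2 : 0 < δ1 := by positivity
    refine ⟨max Λ (1 / θ), δ1 / (2 * n + 7), le_max_of_le_left hΛ, by positivity,
      fun g D L z P hg hgap hD hL hz hP hZ hdeg hl hV => ?_⟩
    have hn0 : (0 : ℝ) ≤ n := Nat.cast_nonneg n
    have hg0 : ∀ h, 0 ≤ g h := fun h => zero_le_one.trans (hg h)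
    have hgp : 0 < g 0 := one_pos.trans_le (hg 0)
    have hd : ∀ d, coeff d P ≠ 0 → ∀ h, d h * g h ≤ D := fun d hd h => by
      have := hdeg h d hd
      rw [wt_sing] at this
      linarith
    set r := ⌊D / g 0⌋₊ with hr
    have hr1 : r * g 0 ≤ D := (le_div_iff₀ hgp).1 (Nat.floor_le (by positivity))
    have hr0 : (0 : ℝ) ≤ r := Nat.cast_nonneg r
    set N := ⌊(n + 1) * D⌋₊ with hN
    have hN1 : (N : ℝ) ≤ (n + 1) * D := Nat.floor_le (by positivity)
    obtain ⟨κ, V, U, hκ1, hκ2, hV0, hU0, hWZ, hWl, hWd, hWi⟩ := wronsk hP hZ r N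
      (fun d h => Nat.le_floor ((le_div_iff₀ hgp).2 (hd d h 0))) (fun d h => by
        have : ∑ k, d k ≤ N := Nat.le_floor (by
          push_cast
          refine (sum_le_card_nsmul _ _ D fun k _ => ?_).trans (by simp)
          nlinarith [hd d h k, hg k, (Nat.cast_nonneg (d k) : (0 : ℝ) ≤ d k)])
        simp only [wt_eq_sum, mul_neg, mul_one, sum_neg_distrib, neg_le_neg_iff]
        exact_mod_cast this)
    have hκ1' : (1 : ℝ) ≤ κ := by exact_mod_cast hκ1
    have hκ2' : (κ : ℝ) ≤ r + 1 := by exact_mod_cast hκ2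
    have hL0 : 0 < L := by
      by_contra! h
      nlinarith [mul_nonneg (by positivity : 0 ≤ δ1 / (2 * n + 7)) (neg_nonneg.2 h)]
    have hLδ : 2 * n + 7 ≤ δ1 * L := by
      rw [div_mul_eq_mul_div, le_div_iff₀ (by positivity)] at hL
      linarith
    have hW : n1 (eS V * eZ U) ≤ Real.exp (δ1 * L * (κ * D)) := by
      have h2 : ∀ k : ℕ, (2 : ℝ) ^ k ≤ Real.exp k := fun k => by
        rw [← mul_one (k : ℝ), Real.exp_nat_mul]
        exact pow_le_pow_left₀ zero_le_two (by linarith [Real.add_one_le_exp (1 : ℝ)]) k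
      have h3 := subW_one.nw_nonneg P
      refine hWl.trans ((pow_le_pow_left₀ (by positivity) (b := Real.exp (δ1 * L * D)) ?_ κ).trans
        (le_of_eq ?_))
      · refine le_trans (b := Real.exp κ * (Real.exp N * (Real.exp N *
          Real.exp (δ1 / (2 * n + 7) * L * D)))) (by gcongr <;> exact h2 _) ?_
        rw [← Real.exp_add, ← Real.exp_add, ← Real.exp_add, Real.exp_le_exp]
        set y := δ1 / (2 * n + 7) * L with hy
        have e : δ1 * L = (2 * n + 7) * y := by rw [hy]; field_simp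
        have h4 : (r : ℝ) ≤ D := by nlinarith [hg 0]
        have h5 : D ≤ y * D := by nlinarith
        rw [e]
        nlinarith
      · rw [← Real.exp_nat_mul]
        congr 1
        ring
    have hκD : 1 ≤ κ * D := by nlinarith
    obtain ⟨i0, hi0⟩ : ∃ i, U.coeff i ≠ 0 := ⟨_, Polynomial.leadingCoeff_ne_zero.2 hU0⟩
    obtain ⟨I0, hI0⟩ := MvPolynomial.ne_zero_iff.1 hV0
    have eV : (finSuccEquiv ℚ n (eS V * eZ U)).coeff i0 = C (U.coeff i0) * V := by
      ext d
      rw [finSuccEquiv_coeff_coeff, coeff_eSZ, coeff_C_mul, mul_comm]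
    have hV' := ih (fun h => g h.succ) (κ * D) L (fun h => z h.succ) (C (U.coeff i0) * V)
      (fun h => hg _) (fun h h' hh => le_trans (mul_le_mul_of_nonneg_right (le_max_left _ _) (hg0 _))
        (hgap _ _ (Fin.succ_lt_succ_iff.2 hh))) hκD
      (by nlinarith [mul_le_mul_of_nonneg_right (min_le_left δ (ε / 2)) hL0.le]) (fun h => hz _)
      (mul_ne_zero (by simpa using hi0) hV0)
      (fun d => by rw [← eV, finSuccEquiv_coeff_coeff]; exact hWZ _)
      (fun h d hd => by
        rw [← eV, finSuccEquiv_coeff_coeff] at hd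
        have := hWd _ _ (fun k => by
          rw [Pi.single_apply]
          split_ifs
          · exact neg_nonpos.2 (hg0 _)
          · exact le_rfl) (hdeg h.succ) _ hd
        rw [wt_sing] at this ⊢
        simpa using this)
      (by
        rw [← eV]
        refine (n1_coeff_le _ _).trans (hW.trans ?_)
        gcongr
        exact min_le_left _ _)
    rw [map_mul, tau_C] at hV'
    obtain ⟨d, hd1, hd2⟩ : ∃ d, coeff d (tau (fun h : Fin n => 1 / (z h.succ : ℚ)) V) ≠ 0 ∧
        wt (fun h => g h.succ) d < ε * (κ * D) := by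
      by_contra! h
      exact hV' (lo_C_mul h _)
    obtain ⟨μ, hμ1, hμ2⟩ : ∃ μ, (Polynomial.taylor (1 / z 0 : ℚ) U).coeff μ ≠ 0 ∧
        μ * g 0 ≤ ε / 2 * (κ * D) := by
      classical
      have hex : ∃ μ, (Polynomial.taylor (1 / z 0 : ℚ) U).coeff μ ≠ 0 :=
        ⟨_, Polynomial.leadingCoeff_ne_zero.2 fun h => hU0 ((Polynomial.taylor_eq_zero _ _).1 h)⟩
      refine ⟨Nat.find hex, Nat.find_spec hex, ?_⟩
      have hz0 : z 0 ≠ 0 := fun h => by
        have := hz 0
        rw [h, Nat.cast_zero] at this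
        exact absurd (Real.exp_pos _) (not_lt.2 this)
      have h1 := one_var_bound (U := Polynomial.C (coeff I0 V) * U)
        (mul_ne_zero (by simpa using hI0) hU0) (B := Real.exp (δ1 * L * (κ * D)))
        (fun i => by
          rw [Polynomial.coeff_C_mul, ← coeff_eSZ]
          exact mem_ZR.1 hWZ _)
        (fun i => by
          rw [Polynomial.coeff_C_mul, ← coeff_eSZ]
          simpa using (subW_one.coeff_le _ _).trans hW) hz0 (μ := Nat.find hex)
        (fun i hi => by
          rw [Polynomial.taylor_mul, Polynomial.taylor_C, Polynomial.coeff_C_mul,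
            not_not.1 (Nat.find_min hex hi), mul_zero])
      have h2 := (pow_le_pow_left₀ (Real.exp_pos _).le (hz 0) _).trans h1
      rw [← Real.exp_nat_mul, Real.exp_le_exp] at h2
      have h3 : δ1 * (κ * D) ≤ ε / 2 * (κ * D) := by
        gcongr
        exact min_le_right _ _
      refine le_trans (le_of_mul_le_mul_left ?_ hL0) h3
      linarith
    have h1 := hWi g (ε0 * D) (θ * g 0) (fun h => 1 / z h) hg0 (by positivity) (fun k => by
      have h2 := le_trans (mul_le_mul_of_nonneg_right (le_max_right _ _) (hg0 _))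
        (hgap 0 k.succ (Fin.succ_pos k))
      rwa [one_div, inv_mul_le_iff₀ hθ1] at h2) hV (d.cons μ) (by
        rw [tau_eSZ, coeff_eSZ]
        exact mul_ne_zero hd1 hμ1)
    rw [wt_cons] at h1
    have h2 := Lib.Ridout.sum_max_ge κ (max r 1) θ hθ1 hθ2 (by omega) (by omega)
    have h3 : D * ∑ s ∈ range κ, max 0 (θ - s * (1 / ((max r 1 : ℕ) : ℝ))) ≤
        ∑ s ∈ range κ, max (ε0 * D - r * (θ * g 0) - s * g 0) 0 := by
      rw [mul_sum]
      refine sum_le_sum fun s hs => ?_
      rw [mul_max_of_nonneg _ _ (by linarith), mul_zero, max_comm]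
      refine max_le_max_right _ ?_
      have h4 : s * g 0 ≤ D * (s * (1 / ((max r 1 : ℕ) : ℝ))) := by
        rcases Nat.eq_zero_or_pos s with rfl | h0
        · simp
        · have h5 : 1 ≤ r := by have := mem_range.1 hs; omega
          have h6 : (0 : ℝ) < r := by exact_mod_cast h5
          rw [max_eq_left h5, mul_one_div, ← mul_div_assoc, le_div_iff₀ h6]
          nlinarith [(Nat.cast_nonneg s : (0 : ℝ) ≤ s)]
      nlinarith
    have h4 : Fin.tail g = fun h => g h.succ := rfl
    rw [h4] at h1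
    have h5 := mul_le_mul_of_nonneg_left h2 (by linarith : 0 ≤ D)
    have h6 : 0 < ε * (κ * D) := by positivity
    have h7 : D * (κ * (θ ^ 2 / 8)) = 2 * (ε * (κ * D)) := by rw [hε]; ring
    linarith

end Pool.Agent.P.MP_71e30e_nt.Comp
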