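import Mathlib
import Pool.Agent.P.MP_71e30e_nt.Ana
import Pool.Agent.P.MP_71e30e_nt.Alg

set_option autoImplicit false

/-! Construction of the approximants and of the expansion at the point 1 / Z. -/

namespace Pool.Agent.P.MP_71e30e_nt

open Polynomial Filter Topology Asymptotics Metric

/-- An integer polynomial viewed over the complex numbers. -/
noncomputable def cx : ℤ[X] →+* ℂ[X] := mapRingHom (Int.castRingHom ℂ)

theorem cx_coeff (P : ℤ[X]) (i : ℕ) : (cx P).coeff i = P.coeff i := by simp [cx]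

theorem cx_X : cx X = X := by simp [cx]

theorem cx_C (a : ℤ) : cx (C a) = C (a : ℂ) := by simp [cx]

theorem cx_natDegree (P : ℤ[X]) : (cx P).natDegree ≤ P.natDegree := natDegree_map_le

theorem cx_ne_zero {P : ℤ[X]} (h : P ≠ 0) : cx P ≠ 0 :=
  (Polynomial.map_ne_zero_iff (f := Int.castRingHom ℂ) Int.cast_injective).2 h

theorem cx_norm_coeff (P : ℤ[X]) (i : ℕ) : ‖(cx P).coeff i‖ = |(P.coeff i : ℝ)| := by
  rw [cx_coeff, Complex.norm_intCast]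

theorem cx_eval_zero (P : ℤ[X]) : (cx P).eval 0 = P.coeff 0 := by
  rw [← coeff_zero_eq_eval_zero, cx_coeff]

theorem cx_dvd {S : ℤ[X]} {N : ℕ} (h : X ^ N ∣ S) : X ^ N ∣ cx S := by
  have := map_dvd cx h
  rwa [map_pow, cx_X] at this

theorem nat_le_pow {Y : ℝ} (hY : 2 ≤ Y) (n : ℕ) : (n : ℝ) ≤ Y ^ n := by
  have : (n : ℝ) ≤ 2 ^ n := by exact_mod_cast (Nat.lt_two_pow_self (n := n)).le
  exact this.trans (pow_le_pow_left₀ (by norm_num) hY n)

theorem two_div_pow {Y : ℝ} (hY : 2 ≤ Y) (j : ℕ) : (2 / (1 / Y)) ^ j ≤ Y ^ (2 * j) := by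
  rw [pow_mul, div_div_eq_mul_div, div_one]
  exact pow_le_pow_left₀ (by linarith) (by nlinarith) j

/-- The truncated root at the origin with a bound on its coefficients. -/
theorem trunc_zero {q : ℕ} (hq : 1 ≤ q) (A B U V : ℤ[X]) (hU : U = 1 + C ((q : ℤ) ^ 2) * X * A)
    (hV : V = 1 + C ((q : ℤ) ^ 2) * X * B) {Y : ℝ} (hY : 2 ≤ Y) {f : ℂ → ℂ}
    (hf : DifferentiableOn ℂ f (ball 0 (1 / Y))) (hf0 : f 0 = 1)
    (hfe : ∀ w ∈ ball (0 : ℂ) (1 / Y), f w ^ q * (cx V).eval w = (cx U).eval w ∧ ‖f w‖ ≤ 2)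
    (N : ℕ) : ∃ T : ℤ[X], T.coeff 0 = 1 ∧ T.natDegree ≤ N ∧ X ^ (N + 1) ∣ T ^ q * V - U ∧
      ((fun w => f w - (cx T).eval w) =O[𝓝 0] fun w => w ^ (N + 1)) ∧
      ∀ j ≤ N, |(T.coeff j : ℝ)| ≤ Y ^ (2 * j + 1) := by
  have hr : 0 < 1 / Y := by positivity
  obtain ⟨T, h0, hd, hT⟩ := exists_trunc q A B N
  rw [← hU, ← hV] at hT
  have hT' : X ^ (N + 1) ∣ T ^ q * V - U := (Dvd.intro_left _ rfl).trans hT
  have hO : (fun w => f w - (cx T).eval w) =O[𝓝 0] fun w => w ^ (N + 1) := by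
    refine root_close (U := cx U) (V := cx V) (hf.continuousOn.continuousAt (ball_mem_nhds 0 hr))
      hq (Filter.mem_of_superset (ball_mem_nhds 0 hr) fun w hw => (hfe w hw).1) ?_ ?_ ?_ ?_
    · rw [cx_eval_zero, hV, mul_assoc]
      simp
    · rw [cx_eval_zero, h0, hf0]
      simp
    · rw [hf0]
      exact one_ne_zero
    · have := cx_dvd hT'
      rwa [map_sub, map_mul, map_pow] at this
  refine ⟨T, h0, hd, hT', hO, fun j hj => ?_⟩
  rw [← cx_norm_coeff]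
  refine (coeff_bound hr hf (fun w hw => (hfe w hw).2) hO (by omega)).trans ?_
  rw [pow_succ']
  exact mul_le_mul hY (two_div_pow hY j) (by positivity) (by positivity)

/-- The Pade approximant and its size. -/
theorem approx {p : ℕ} (A B U V : ℤ[X]) (hU : U = 1 + C (((p + 1 : ℕ) : ℤ) ^ 2) * X * A)
    (hV : V = 1 + C (((p + 1 : ℕ) : ℤ) ^ 2) * X * B) {Y : ℝ} (hY : 2 ≤ Y) {f : ℂ → ℂ}
    (hf : DifferentiableOn ℂ f (ball 0 (1 / Y))) (hf0 : f 0 = 1)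
    (hfe : ∀ w ∈ ball (0 : ℂ) (1 / Y),
      f w ^ (p + 1) * (cx V).eval w = (cx U).eval w ∧ ‖f w‖ ≤ 2)
    (L l : ℕ) (hL : 2 ≤ L) (hl : 1 ≤ l) :
    ∃ P Q : ℤ[X], P ≠ 0 ∧ Q ≠ 0 ∧ P.natDegree ≤ L * l ∧ Q.natDegree ≤ L * l ∧
      X ^ ((2 * L - 1) * l - 1) ∣ wr (p + 1) (cx P) (cx Q) (cx U) (cx V) ∧
      ∀ w ∈ ball (0 : ℂ) (1 / Y), ‖(cx Q).eval w * f w‖ ≤ Y ^ (7 * (L * l) * L) ∧
        ‖(cx Q).eval w * f w - (cx P).eval w‖ ≤
          Y ^ (11 * (L * l) * L) * (‖w‖ * Y) ^ ((2 * L - 1) * l) := by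
  have hr : 0 < 1 / Y := by positivity
  have hY1 : 1 ≤ Y := by linarith
  obtain ⟨N, hN⟩ : ∃ N, N = (2 * L - 1) * l := ⟨_, rfl⟩
  obtain ⟨n, hn⟩ : ∃ n, n = L * l := ⟨_, rfl⟩
  have hNn : N + l = 2 * n := by
    obtain ⟨M, rfl⟩ : ∃ M, L = M + 1 := ⟨L - 1, by omega⟩
    rw [hN, hn, show 2 * (M + 1) - 1 = 2 * M + 1 by omega]; ring
  have hln : 2 * l ≤ n := hn ▸ Nat.mul_le_mul_right _ hL
  have hnL : n ≤ n * L := Nat.le_mul_of_pos_right _ (by omega)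
  obtain ⟨T, t0, -, hT, hO, hc⟩ := trunc_zero (by omega) A B U V hU hV hY hf hf0 hfe N
  obtain ⟨P, Q, hQ0, hP, hQ, hQc, hd⟩ := exists_pade T L l hL hl (Y ^ (4 * n))
    (one_le_pow₀ hY1) (fun j hj => (hc j (by omega)).trans (pow_le_pow_right₀ hY1 (by omega)))
  have hcast : (L : ℝ) * l = n := by rw [hn]; push_cast; ring
  rw [hcast] at hQc
  rw [← hN, ← hn] at *
  have hw1 : ∀ w ∈ ball (0 : ℂ) (1 / Y), ‖w‖ ≤ 1 := fun w hw =>
    (mem_ball_zero_iff.1 hw).le.trans (by rw [div_le_one (by linarith)]; exact hY1)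
  have b1 : ∀ i, |(Q.coeff i : ℝ)| ≤ Y ^ (5 * n * L) := fun i => (hQc i).trans (by
    calc ((n : ℝ) * Y ^ (4 * n)) ^ (L - 1) ≤ (Y ^ n * Y ^ (4 * n)) ^ (L - 1) := by
          gcongr; exact nat_le_pow hY n
      _ = Y ^ (5 * n * (L - 1)) := by rw [← pow_add, ← pow_mul]; congr 1; ring
      _ ≤ _ := pow_le_pow_right₀ hY1 (Nat.mul_le_mul_left _ (by omega)))
  have b2 : ∀ w ∈ ball (0 : ℂ) (1 / Y), ‖(cx Q).eval w * f w‖ ≤ Y ^ (7 * n * L) := by
    intro w hw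
    have := eval_bound ((cx_natDegree Q).trans_lt hQ)
      (fun i _ => (cx_norm_coeff Q i).trans_le (b1 i)) (hw1 w hw)
    calc _ = ‖(cx Q).eval w‖ * ‖f w‖ := norm_mul _ _
      _ ≤ (Y ^ n * Y ^ (5 * n * L)) * Y ^ 1 := by
          refine mul_le_mul (this.trans ?_) ((hfe w hw).2.trans (by linarith)) (norm_nonneg _)
            (by positivity)
          gcongr; exact nat_le_pow hY n
      _ = Y ^ (n + 5 * n * L + 1) := by rw [← pow_add, ← pow_add]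
      _ ≤ _ := pow_le_pow_right₀ hY1 (by nlinarith)
  have hdf : DifferentiableOn ℂ (fun w => (cx Q).eval w * f w) (ball 0 (1 / Y)) :=
    (cx Q).differentiable.differentiableOn.mul hf
  have hO2 : (fun w => (cx Q).eval w * f w - (cx P).eval w) =O[𝓝 0] fun w => w ^ N := by
    have e1 := (((cx Q).continuous.tendsto 0).isBigO_one ℂ).mul
      (hO.trans (isLittleO_pow_pow (Nat.lt_succ_self N)).isBigO)
    have e2 := isBigO_of_dvd (cx_dvd hd)
    refine ((e1.congr_right fun w => one_mul _).sub e2).congr_left fun w => ?_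
    rw [map_sub, map_mul, eval_sub, eval_mul]
    ring
  have b3 : ∀ i < n, ‖(cx P).coeff i‖ ≤ Y ^ (9 * n * L) := fun i hi => by
    refine (coeff_bound hr hdf b2 hO2 (by omega)).trans ?_
    calc _ ≤ Y ^ (7 * n * L) * Y ^ (2 * i) := by gcongr; exact two_div_pow hY i
      _ = Y ^ (7 * n * L + 2 * i) := by rw [← pow_add]
      _ ≤ _ := pow_le_pow_right₀ hY1 (by nlinarith)
  have b4 : ∀ w ∈ ball (0 : ℂ) (1 / Y),
      ‖(cx Q).eval w * f w - (cx P).eval w‖ ≤ Y ^ (11 * n * L) := by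
    intro w hw
    have h1 := eval_bound ((cx_natDegree P).trans_lt hP) b3 (hw1 w hw)
    have h2 : (n : ℝ) * Y ^ (9 * n * L) ≤ Y ^ (10 * n * L) :=
      calc _ ≤ Y ^ n * Y ^ (9 * n * L) := by gcongr; exact nat_le_pow hY n
        _ = Y ^ (n + 9 * n * L) := by rw [← pow_add]
        _ ≤ _ := pow_le_pow_right₀ hY1 (by nlinarith)
    have h3 : Y ^ (7 * n * L) ≤ Y ^ (10 * n * L) := pow_le_pow_right₀ hY1 (by nlinarith)
    calc _ ≤ _ := norm_sub_le _ _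
      _ ≤ Y ^ 1 * Y ^ (10 * n * L) := by
          have := b2 w hw
          have h4 : 0 ≤ Y ^ (10 * n * L) := by positivity
          nlinarith
      _ = Y ^ (1 + 10 * n * L) := by rw [← pow_add]
      _ ≤ _ := pow_le_pow_right₀ hY1 (by nlinarith)
  refine ⟨P, Q, ?_, hQ0, hP.le, hQ.le, ?_, fun w hw => ⟨b2 w hw, ?_⟩⟩
  · rintro rfl
    rw [zero_sub, dvd_neg] at hd
    have hcop : IsCoprime (X ^ N : ℤ[X]) T := by
      refine IsCoprime.pow_left ⟨-T.divX, 1, ?_⟩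
      have := X_mul_divX_add T
      rw [t0, C_1] at this
      linear_combination -this
    have := natDegree_le_of_dvd (hcop.dvd_of_dvd_mul_right hd) hQ0
    rw [natDegree_X_pow] at this
    omega
  · obtain ⟨K, hK⟩ : ∃ K, N = K + 1 := ⟨N - 1, by omega⟩
    have h1 := cx_dvd hd
    have h2 := cx_dvd ((pow_dvd_pow X (Nat.le_succ N)).trans hT)
    rw [map_sub, map_mul] at h1
    rw [map_sub, map_mul, map_pow] at h2
    have := wr_dvd (π := X) (K := K) (p := p) (a := 1) (b := 1) (c1 := 1) (c2 := 1) (P := cx P)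
      (Q := cx Q) (U := cx U) (V := cx V) (G := cx T) (by simp) (by simp) (by simp) (by simp)
      (by simpa [hK] using h1) (by simpa [hK] using h2)
    simpa [hK] using this
  · have := schwarz (hdf.sub (cx P).differentiable.differentiableOn) b4 hO2 hw
    rwa [div_div_eq_mul_div, div_one] at this

/-- Homogenised substitution. -/
noncomputable def hom (P : ℤ[X]) (R : ℕ) (Z : ℤ) (L : ℤ[X]) : ℤ[X] :=
  ∑ i ∈ Finset.range (R + 1), C (P.coeff i * Z ^ (R - i)) * L ^ i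

/-- Homogenised value. -/
noncomputable def hv (P : ℤ[X]) (R : ℕ) (Z : ℤ) : ℤ :=
  ∑ i ∈ Finset.range (R + 1), P.coeff i * Z ^ (R - i)

theorem hom_eval {P : ℤ[X]} {R : ℕ} (hP : P.natDegree ≤ R) {Z : ℤ} (hZ : Z ≠ 0) (L : ℤ[X])
    (τ : ℂ) : (cx (hom P R Z L)).eval τ = (Z : ℂ) ^ R * (cx P).eval ((cx L).eval τ / Z) := by
  have hZ' : (Z : ℂ) ≠ 0 := by exact_mod_cast hZ
  rw [eval_eq_sum_range' (p := cx P) (Nat.lt_succ_of_le ((cx_natDegree P).trans hP)), hom,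
    map_sum, eval_finsetSum, Finset.mul_sum]
  refine Finset.sum_congr rfl fun i hi => ?_
  obtain ⟨j, rfl⟩ : ∃ j, R = i + j := ⟨R - i, by have := Finset.mem_range.1 hi; omega⟩
  rw [map_mul, map_pow, cx_C, cx_coeff, Nat.add_sub_cancel_left, eval_mul, eval_C, eval_pow,
    div_pow]
  push_cast
  field_simp
  ring

theorem hom_sub (P : ℤ[X]) (R : ℕ) (Z : ℤ) (L : ℤ[X]) : L - 1 ∣ hom P R Z L - C (hv P R Z) := by
  rw [hom, hv, map_sum, ← Finset.sum_sub_distrib]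
  refine Finset.dvd_sum fun i _ => ?_
  rw [← mul_sub_one]
  exact Dvd.dvd.mul_left (by simpa using sub_dvd_pow_sub_pow L 1 i) _

theorem hv_eq {P : ℤ[X]} {R : ℕ} (hP : P.natDegree ≤ R) {Z : ℤ} (hZ : Z ≠ 0) :
    (hv P R Z : ℂ) = (Z : ℂ) ^ R * (cx P).eval (1 / (Z : ℂ)) := by
  have h1 := hom_eval hP hZ 1 0
  have h2 := hom_sub P R Z 1
  rw [sub_self, zero_dvd_iff, sub_eq_zero] at h2
  rw [h2, cx_C, eval_C] at h1
  simpa using h1

theorem hom_lin {P : ℤ[X]} {R : ℕ} (hP : P.natDegree ≤ R) {Z : ℤ} (hZ : Z ≠ 0) (D : ℤ) (τ : ℂ) :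
    (cx (hom P R Z (1 + C (Z * D) * X))).eval τ = (Z : ℂ) ^ R * (cx P).eval (1 / Z + D * τ) := by
  have hZ' : (Z : ℂ) ≠ 0 := by exact_mod_cast hZ
  rw [hom_eval hP hZ, map_add, map_mul, map_one, cx_C, cx_X]
  congr 2
  simp only [eval_add, eval_one, eval_mul, eval_C, eval_X]
  push_cast
  field_simp

/-- Transport of a congruence from the local variable. -/
theorem comp_dvd {S : ℂ[X]} {K : ℕ} (h : X ^ K ∣ S) (c w : ℂ) :
    (X - C w) ^ K ∣ S.comp (C c * (X - C w)) := by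
  obtain ⟨E, rfl⟩ := h
  rw [mul_comp, pow_comp, X_comp, mul_pow]
  exact ((dvd_mul_left _ _).mul_right _)

theorem hom_comp {P : ℤ[X]} {R : ℕ} (hP : P.natDegree ≤ R) {Z D : ℤ} (hZ : Z ≠ 0) (hD : D ≠ 0) :
    (cx (hom P R Z (1 + C (Z * D) * X))).comp (C (1 / (D : ℂ)) * (X - C (1 / (Z : ℂ)))) =
      C ((Z : ℂ) ^ R) * cx P := by
  have hD' : (D : ℂ) ≠ 0 := by exact_mod_cast hD
  refine Polynomial.funext fun w => ?_
  have e : (1 / Z + D * eval w (C (1 / (D : ℂ)) * (X - C (1 / (Z : ℂ)))) : ℂ) = w := by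
    simp only [eval_mul, eval_C, eval_sub, eval_X]
    rw [← mul_assoc, mul_one_div_cancel hD']
    ring
  rw [eval_comp, hom_lin hP hZ, e, eval_mul, eval_C]

/-- The expansion of the root at the point 1 / Z. -/
theorem local_exp {q e : ℕ} (hq : 1 ≤ q) (U V : ℤ[X]) (hU : U.natDegree ≤ e)
    (hV : V.natDegree ≤ e) {Z : ℤ} (hZ : Z ≠ 0) {f : ℂ → ℂ} (hf : ContinuousAt f (1 / Z))
    (hfe : ∀ᶠ w in 𝓝 (1 / Z : ℂ), f w ^ q * (cx V).eval w = (cx U).eval w)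
    (hU0 : (cx U).eval (1 / (Z : ℂ)) ≠ 0) (hV0 : (cx V).eval (1 / (Z : ℂ)) ≠ 0) (K : ℕ) :
    ∃ (G : ℤ[X]) (D : ℤ) (c1 c2 : ℂ), D = q ^ 2 * hv U e Z * hv V e Z ∧ D ≠ 0 ∧ c1 ≠ 0 ∧
      c2 ≠ 0 ∧
      ((fun τ => f (1 / Z + D * τ) / f (1 / Z) - (cx G).eval τ) =O[𝓝 0] fun τ => τ ^ (K + 1)) ∧
      (X - C (1 / (Z : ℂ))) ^ (K + 1) ∣
        ((cx G).comp (C (1 / (D : ℂ)) * (X - C (1 / (Z : ℂ))))) ^ q * (C c2 * cx V) -
          C c1 * cx U := by
  have hZ' : (Z : ℂ) ≠ 0 := by exact_mod_cast hZ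
  have hu := hv_eq hU hZ
  have hw := hv_eq hV hZ
  obtain ⟨u, hu'⟩ : ∃ u, u = hv U e Z := ⟨_, rfl⟩
  obtain ⟨v, hv'⟩ : ∃ v, v = hv V e Z := ⟨_, rfl⟩
  rw [← hu'] at hu
  rw [← hv'] at hw
  have hu0 : (u : ℂ) ≠ 0 := hu ▸ mul_ne_zero (pow_ne_zero _ hZ') hU0
  have hv0 : (v : ℂ) ≠ 0 := hw ▸ mul_ne_zero (pow_ne_zero _ hZ') hV0
  obtain ⟨D, hD⟩ : ∃ D : ℤ, D = q ^ 2 * u * v := ⟨_, rfl⟩
  have hD0 : D ≠ 0 := by
    rw [hD]
    exact mul_ne_zero (mul_ne_zero (pow_ne_zero _ (by omega)) (by exact_mod_cast hu0))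
      (by exact_mod_cast hv0)
  obtain ⟨E1, h1⟩ := hom_sub U e Z (1 + C (Z * D) * X)
  obtain ⟨E2, h2⟩ := hom_sub V e Z (1 + C (Z * D) * X)
  rw [← hu'] at h1
  rw [← hv'] at h2
  obtain ⟨G, g0, -, hG⟩ := exists_trunc q (C (Z * v) * E1) (C (Z * u) * E2) K
  set U1 : ℤ[X] := 1 + C ((q : ℤ) ^ 2) * X * (C (Z * v) * E1) with hU1
  set V1 : ℤ[X] := 1 + C ((q : ℤ) ^ 2) * X * (C (Z * u) * E2) with hV1
  have e1 : hom U e Z (1 + C (Z * D) * X) = C u * U1 := by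
    rw [sub_eq_iff_eq_add.1 h1, hU1, hD]
    simp only [C_mul]
    ring
  have e2 : hom V e Z (1 + C (Z * D) * X) = C v * V1 := by
    rw [sub_eq_iff_eq_add.1 h2, hV1, hD]
    simp only [C_mul]
    ring
  have hG' := cx_dvd ((Dvd.intro_left _ rfl).trans hG)
  rw [map_sub, map_mul, map_pow] at hG'
  have hf0 : f (1 / Z) ≠ 0 := fun h => by
    have := hfe.self_of_nhds
    rw [h, zero_pow (by omega), zero_mul] at this
    exact hU0 this.symm
  have ht : Tendsto (fun τ : ℂ => (1 / Z + D * τ : ℂ)) (𝓝 0) (𝓝 (1 / Z)) := by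
    have : Continuous fun τ : ℂ => (1 / Z + D * τ : ℂ) := by fun_prop
    simpa using this.tendsto 0
  refine ⟨G, D, (Z : ℂ) ^ e / u, (Z : ℂ) ^ e / v, by rw [hD, hu', hv'], hD0,
    div_ne_zero (pow_ne_zero _ hZ') hu0, div_ne_zero (pow_ne_zero _ hZ') hv0, ?_, ?_⟩
  · refine root_close (U := cx U1) (V := cx V1) ?_ hq ?_ ?_ ?_ ?_ hG'
    · refine ContinuousAt.div_const ?_ _
      refine Tendsto.comp (g := f) (y := 𝓝 (1 / Z)) ?_ ht
      simpa using hf.tendsto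
    · filter_upwards [ht.eventually hfe] with τ hτ
      have a1 := hom_lin hU hZ D τ
      have a2 := hom_lin hV hZ D τ
      rw [e1, map_mul, cx_C, eval_mul, eval_C, hu] at a1
      rw [e2, map_mul, cx_C, eval_mul, eval_C, hw] at a2
      have a3 := hfe.self_of_nhds
      have a4 := pow_ne_zero e hZ'
      rw [div_pow, div_mul_eq_mul_div, div_eq_iff (pow_ne_zero _ hf0)]
      apply mul_left_cancel₀ (mul_ne_zero a4 hV0)
      linear_combination (f (1 / Z + D * τ) ^ q) * a2 + (Z : ℂ) ^ e * hτ - a1 -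
        ((Z : ℂ) ^ e * (cx U1).eval τ) * a3
    · rw [cx_eval_zero, hV1, mul_assoc]
      simp
    · rw [cx_eval_zero, g0, mul_zero, add_zero, div_self hf0, Int.cast_one]
    · rw [mul_zero, add_zero, div_self hf0]
      exact one_ne_zero
  · have := comp_dvd hG' (1 / (D : ℂ)) (1 / (Z : ℂ))
    have a1 := hom_comp hU hZ hD0
    have a2 := hom_comp hV hZ hD0
    rw [e1, map_mul, cx_C, mul_comp, C_comp] at a1
    rw [e2, map_mul, cx_C, mul_comp, C_comp] at a2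
    have key : ∀ (c : ℂ) (S T : ℂ[X]), c ≠ 0 → C c * S = C ((Z : ℂ) ^ e) * T →
        S = C ((Z : ℂ) ^ e / c) * T := fun c S T hc h => by
      apply mul_left_cancel₀ (C_ne_zero.2 hc)
      rw [h, ← mul_assoc, ← C_mul, mul_div_cancel₀ _ hc]
    rwa [sub_comp, mul_comp, pow_comp, key _ _ _ hu0 a1, key _ _ _ hv0 a2] at this

end Pool.Agent.P.MP_71e30e_nt
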