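import Mathlib
import Pool.Agent.P.MP_71e30e_nt.Core

set_option autoImplicit false

/-! The irrationality measure and the Runge step. -/

namespace Pool.Agent.P.MP_71e30e_nt

open Polynomial Filter Topology Asymptotics Metric

theorem cx_real (P : ℤ[X]) (x : ℝ) : (cx P).eval (x : ℂ) = ((aeval x P : ℝ) : ℂ) := by
  induction P using Polynomial.induction_on' with
  | add p q hp hq => simp [hp, hq]
  | monomial n a => simp [cx, aeval_monomial]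

/-- Some Taylor coefficient separates the approximant from a given fraction. -/
theorem exists_ne {p e n N K : ℕ} {P Q U V G : ℤ[X]} (hP0 : P ≠ 0) (hQ0 : Q ≠ 0)
    (hP : P.natDegree ≤ n) (hQ : Q.natDegree ≤ n) (hU : U.natDegree ≤ e) (hV : V.natDegree ≤ e)
    (hnr : NR (p + 1) (cx U) (cx V)) (hW : X ^ N ∣ wr (p + 1) (cx P) (cx Q) (cx U) (cx V))
    {Z D : ℤ} (hZ : Z ≠ 0) (hD : D ≠ 0) {c1 c2 : ℂ} (h1 : c1 ≠ 0) (h2 : c2 ≠ 0)
    (hG : (X - C (1 / (Z : ℂ))) ^ (K + 1) ∣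
      ((cx G).comp (C (1 / (D : ℂ)) * (X - C (1 / (Z : ℂ))))) ^ (p + 1) * (C c2 * cx V) -
        C c1 * cx U) (hK : 2 * n + 2 * e < N + K) (s t : ℤ) (ht : t ≠ 0) :
    ∃ k ≤ K, t * (hom P n Z (1 + C (Z * D) * X)).coeff k ≠
      s * (hom Q n Z (1 + C (Z * D) * X) * G).coeff k := by
  by_contra hcon
  push Not at hcon
  have hZ' : (Z : ℂ) ≠ 0 := by exact_mod_cast hZ
  have ht' : (t : ℂ) ≠ 0 := by exact_mod_cast ht
  have e1 : X ^ (K + 1) ∣ C t * hom P n Z (1 + C (Z * D) * X) -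
      C s * (hom Q n Z (1 + C (Z * D) * X) * G) := by
    rw [X_pow_dvd_iff]
    intro d hd
    rw [coeff_sub, coeff_C_mul, coeff_C_mul, hcon d (by omega), sub_self]
  have e2 := comp_dvd (cx_dvd e1) (1 / (D : ℂ)) (1 / (Z : ℂ))
  rw [map_sub, map_mul cx, map_mul cx, map_mul cx, cx_C, cx_C, sub_comp, mul_comp, mul_comp,
    mul_comp, C_comp, C_comp, hom_comp hP hZ hD, hom_comp hQ hZ hD, ← mul_assoc, ← mul_assoc,
    ← mul_assoc, ← C_mul, ← C_mul] at e2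
  have e3 := wr_dvd derivative_C derivative_C derivative_C derivative_C e2 hG
  rw [← C_mul, ← C_mul] at e3
  have e4 := (isUnit_C.2 (IsUnit.mk0 _ (mul_ne_zero (mul_ne_zero
    (mul_ne_zero ht' (pow_ne_zero n hZ')) h1) h2))).dvd_mul_left.1 e3
  have hcop : IsCoprime (X ^ N : ℂ[X]) ((X - C (1 / (Z : ℂ))) ^ K) := by
    refine IsCoprime.pow ⟨C (Z : ℂ), -C (Z : ℂ), ?_⟩
    have : (C (Z : ℂ) * C (1 / (Z : ℂ)) : ℂ[X]) = 1 := by
      rw [← C_mul, mul_one_div_cancel hZ', C_1]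
    linear_combination this
  have e5 := natDegree_le_of_dvd (hcop.mul_dvd hW e4)
    (wr_ne_zero hnr (cx_ne_zero hP0) (cx_ne_zero hQ0))
  have e6 := wr_natDegree (q := p + 1) ((cx_natDegree P).trans hP) ((cx_natDegree Q).trans hQ)
    ((cx_natDegree U).trans hU) ((cx_natDegree V).trans hV)
  rw [(monic_X_pow N).natDegree_mul ((monic_X_sub_C _).pow K), natDegree_X_pow, natDegree_pow,
    natDegree_X_sub_C] at e5
  omega

/-- The root function together with its value at a real point. -/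
theorem root_data {q : ℕ} (hq : 1 ≤ q) (U V : ℤ[X]) (hU : U.coeff 0 = 1) (hV : V.coeff 0 = 1)
    {r : ℝ} (hb : ∀ w ∈ ball (0 : ℂ) r, ‖(cx U).eval w - 1‖ ≤ 1 / 4 ∧ ‖(cx V).eval w - 1‖ ≤ 1 / 4)
    {x : ℝ} (hx : (x : ℂ) ∈ ball (0 : ℂ) r) :
    ∃ (f : ℂ → ℂ) (a : ℝ), DifferentiableOn ℂ f (ball 0 r) ∧ f 0 = 1 ∧
      (∀ w ∈ ball (0 : ℂ) r, f w ^ q * (cx V).eval w = (cx U).eval w ∧ ‖f w‖ ≤ 2) ∧
      f x = a ∧ 1 / 2 ≤ a ∧ a ≤ 2 ∧ a ^ q * aeval x V = aeval x U ∧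
      |aeval x U - 1| ≤ 1 / 4 ∧ |aeval x V - 1| ≤ 1 / 4 ∧
      ∀ y : ℝ, 0 ≤ y → |y - a| ≤ 8 * |y ^ q * aeval x V - aeval x U| := by
  obtain ⟨f, hf, hfe, hfr⟩ := exists_root (cx U) (cx V) hq hb
  obtain ⟨b1, b2⟩ := hb x hx
  rw [cx_real, ← Complex.ofReal_one, ← Complex.ofReal_sub, Complex.norm_real,
    Real.norm_eq_abs] at b1 b2
  have c1 := abs_le.1 b1
  have c2 := abs_le.1 b2
  have hv : 0 < aeval x V := by linarith [c2.1]
  obtain ⟨a, ha, hfa, -⟩ := hfr x (aeval x U / aeval x V) (div_pos (by linarith [c1.1]) hv)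
    (by rw [cx_real, cx_real]; push_cast; rfl)
  obtain ⟨a0, -, hf0, h0⟩ := hfr 0 1 one_pos (by rw [cx_eval_zero, cx_eval_zero, hU, hV]; simp)
  obtain ⟨d1, d2, d3⟩ := hfe x hx
  rw [hfa, Complex.norm_real, Real.norm_eq_abs, abs_of_pos ha] at d2 d3
  rw [hfa, cx_real, cx_real] at d1
  have d4 : a ^ q * aeval x V = aeval x U := by exact_mod_cast d1
  refine ⟨f, a, hf, by rw [hf0, h0 rfl]; simp, fun w hw => ⟨(hfe w hw).1, (hfe w hw).2.2⟩, hfa,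
    d2, d3, d4, b1, b2, fun y hy => ?_⟩
  obtain ⟨p, rfl⟩ : ∃ p, q = p + 1 := ⟨q - 1, by omega⟩
  have e1 := sub_mul_pow_le hy ha p
  rw [← d4, ← sub_mul, abs_mul, abs_of_pos hv]
  have e2 : 1 / 4 ≤ a ^ p := by
    have h1 : 0 < a ^ p := pow_pos ha p
    rw [pow_succ] at d4
    by_contra hlt
    have h2 : a * aeval x V ≤ 2 * (5 / 4) :=
      mul_le_mul d3 (by linarith [c2.2]) hv.le (by norm_num)
    nlinarith [c1.1]
  have e3 := abs_nonneg (y - a)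
  have e4 := abs_nonneg (y ^ (p + 1) - a ^ (p + 1))
  nlinarith [c2.1]

theorem pade {p e L l : ℕ} (A B U V : ℤ[X]) (hU : U = 1 + C (((p + 1 : ℕ) : ℤ) ^ 2) * X * A)
    (hV : V = 1 + C (((p + 1 : ℕ) : ℤ) ^ 2) * X * B) (hUe : U.natDegree ≤ e)
    (hVe : V.natDegree ≤ e) {Y : ℝ} (hY : 2 ≤ Y) (hqY : ((p + 1 : ℕ) : ℝ) ≤ Y)
    (hb : ∀ w ∈ ball (0 : ℂ) (1 / Y),
      ‖(cx U).eval w - 1‖ ≤ 1 / 4 ∧ ‖(cx V).eval w - 1‖ ≤ 1 / 4)
    (hnr : NR (p + 1) (cx U) (cx V)) (hL : 2 ≤ L) (hl : 1 ≤ l) {Z : ℕ}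
    (hZ : Y ^ (15 * L * L) ≤ Z) (s t : ℕ) (ht : 0 < t) :
    (1 : ℝ) ≤ t * (Z : ℝ) ^ (((2 * e + 2) * (2 * e + 3) + 2) * l) * ((Z : ℝ) ^ (L * l) *
      |((s : ℝ) / t) ^ (p + 1) * aeval (1 / (Z : ℝ)) V - aeval (1 / (Z : ℝ)) U| +
        1 / (Z : ℝ) ^ (L * l)) := by
  have hY1 : 1 ≤ Y := by linarith
  have hY4 : Y ^ 4 ≤ Z := (pow_le_pow_right₀ hY1 (by nlinarith)).trans hZ
  have hY2 : 4 * Y ^ 2 ≤ Z := by nlinarith [mul_le_mul hY hY (by norm_num) (by linarith)]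
  have hz : (16 : ℝ) ≤ Z := by nlinarith
  have hz0 : (0 : ℝ) < Z := by linarith
  have hz1 : (1 : ℝ) ≤ Z := by linarith
  have hZ0 : (Z : ℤ) ≠ 0 := by exact_mod_cast hz0.ne'
  have hw0 : ((1 / (Z : ℝ) : ℝ) : ℂ) = 1 / ((Z : ℤ) : ℂ) := by push_cast; rfl
  have h2Y : 2 / (Z : ℝ) ≤ 1 / Y := by
    rw [div_le_div_iff₀ hz0 (by linarith)]; nlinarith
  have hnw : ‖(1 / ((Z : ℤ) : ℂ))‖ = 1 / (Z : ℝ) := by simp
  have hwb : (1 / ((Z : ℤ) : ℂ)) ∈ ball (0 : ℂ) (1 / Y) := by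
    rw [mem_ball_zero_iff, hnw]
    exact lt_of_lt_of_le (div_lt_div_of_pos_right (by norm_num) hz0) h2Y
  obtain ⟨f, a, hf, hf0, hfe, hfa, a1, a2, -, u1, v1, hy⟩ := root_data (q := p + 1) (by omega) U V
    (by rw [hU, mul_assoc]; simp) (by rw [hV, mul_assoc]; simp) hb (hw0 ▸ hwb)
  rw [hw0] at hfa
  have hcU := cx_real U (1 / (Z : ℝ))
  have hcV := cx_real V (1 / (Z : ℝ))
  rw [hw0] at hcU hcV
  have u2 := abs_le.1 u1
  have v2 := abs_le.1 v1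
  obtain ⟨P, Q, hP0, hQ0, hP, hQ, hW, hbd⟩ := approx A B U V hU hV hY hf hf0 hfe L l hL hl
  have hnb := isOpen_ball.mem_nhds hwb
  obtain ⟨G, D, c1, c2, hD, hD0, h1, h2, hO, hG⟩ := local_exp (q := p + 1) (by omega) U V hUe hVe
    hZ0 (hf.continuousOn.continuousAt hnb) (Filter.mem_of_superset hnb fun w hw => (hfe w hw).1)
    (by rw [hcU]; exact_mod_cast (by linarith [u2.1] : aeval (1 / (Z : ℝ)) U ≠ 0))
    (by rw [hcV]; exact_mod_cast (by linarith [v2.1] : aeval (1 / (Z : ℝ)) V ≠ 0))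
    (l + 2 * e + 2)
  obtain ⟨N, hN⟩ : ∃ N, N = (2 * L - 1) * l := ⟨_, rfl⟩
  obtain ⟨n, hn⟩ : ∃ n, n = L * l := ⟨_, rfl⟩
  have hNn : N + l = 2 * n := by
    obtain ⟨M, rfl⟩ : ∃ M, L = M + 1 := ⟨L - 1, by omega⟩
    rw [hN, hn, show 2 * (M + 1) - 1 = 2 * M + 1 by omega]; ring
  have hln : 2 * l ≤ n := hn ▸ Nat.mul_le_mul_right _ hL
  have hZl : Y ^ (15 * n * L) ≤ (Z : ℝ) ^ l := by
    rw [hn, show 15 * (L * l) * L = 15 * L * L * l by ring, pow_mul]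
    exact pow_le_pow_left₀ (by positivity) hZ l
  rw [← hn] at hP hQ hbd ⊢
  rw [← hN] at hW hbd
  clear hN hn
  obtain ⟨k, hk, hne⟩ := exists_ne hP0 hQ0 hP hQ hUe hVe hnr hW hZ0 hD0 h1 h2 hG (by omega) s t
    (by exact_mod_cast ht.ne')
  have hhv : ∀ S : ℤ[X], S.natDegree ≤ e → |aeval (1 / (Z : ℝ)) S - 1| ≤ 1 / 4 →
      |(hv S e Z : ℝ)| ≤ (Z : ℝ) ^ e * (5 / 4) := fun S hS h => by
    have e1 := hv_eq hS hZ0
    rw [← hw0, cx_real] at e1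
    have e2 : (hv S e Z : ℝ) = (Z : ℝ) ^ e * aeval (1 / (Z : ℝ)) S := by exact_mod_cast e1
    rw [e2, abs_mul, abs_of_pos (pow_pos hz0 e)]
    have := abs_le.1 h
    gcongr
    rw [abs_le]
    constructor <;> linarith [this.1, this.2]
  have hd0 : (0 : ℝ) < |(D : ℝ)| := abs_pos.2 (by exact_mod_cast hD0)
  have hDb : 2 * (Z * |(D : ℝ)|) ≤ (Z : ℝ) ^ (2 * e + 2) := by
    have e1 : |(D : ℝ)| = ((p + 1 : ℕ) : ℝ) ^ 2 * |(hv U e Z : ℝ)| * |(hv V e Z : ℝ)| := by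
      rw [hD]; push_cast; rw [abs_mul, abs_mul, abs_of_nonneg (by positivity)]
    calc 2 * (Z * |(D : ℝ)|) ≤ 2 * (Z * (Y ^ 2 * ((Z : ℝ) ^ e * (5 / 4)) *
          ((Z : ℝ) ^ e * (5 / 4)))) := by
          rw [e1]
          gcongr
          · exact hhv U hUe u1
          · exact hhv V hVe v1
      _ = (25 / 8 * Y ^ 2) * (Z : ℝ) ^ (2 * e + 1) := by ring
      _ ≤ Z * (Z : ℝ) ^ (2 * e + 1) := by gcongr; nlinarith
      _ = _ := by ring
  have hr : (0 : ℝ) < 1 / (Z * |(D : ℝ)|) := by positivity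
  have hrk : (2 / (1 / (Z * |(D : ℝ)|))) ^ k ≤ (Z : ℝ) ^ ((2 * e + 2) * (2 * e + 3) * l) := by
    rw [div_div_eq_mul_div, div_one]
    calc _ ≤ ((Z : ℝ) ^ (2 * e + 2)) ^ k := pow_le_pow_left₀ (by positivity) hDb k
      _ ≤ _ := by
          rw [← pow_mul, mul_assoc]
          exact pow_le_pow_right₀ hz1 (Nat.mul_le_mul_left _ (by nlinarith))
  have hin : ∀ τ ∈ ball (0 : ℂ) (1 / (Z * |(D : ℝ)|)),
      ‖(1 / ((Z : ℤ) : ℂ) + D * τ : ℂ)‖ < 2 / (Z : ℝ) := fun τ hτ => by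
    have e1 := mem_ball_zero_iff.1 hτ
    have e2 : |(D : ℝ)| * ‖τ‖ < 1 / Z := by
      rw [lt_div_iff₀ (by positivity)] at e1
      rw [lt_div_iff₀ hz0]
      linarith
    refine (norm_add_le _ _).trans_lt ?_
    rw [hnw, norm_mul, Complex.norm_intCast, show (2 : ℝ) / Z = 1 / Z + 1 / Z by ring]
    linarith
  have hin' : ∀ τ ∈ ball (0 : ℂ) (1 / (Z * |(D : ℝ)|)),
      (1 / ((Z : ℤ) : ℂ) + D * τ : ℂ) ∈ ball (0 : ℂ) (1 / Y) := fun τ hτ =>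
    mem_ball_zero_iff.2 ((hin τ hτ).trans_le h2Y)
  set P1 := hom P n Z (1 + C ((Z : ℤ) * D) * X) with hP1
  set Q1 := hom Q n Z (1 + C ((Z : ℤ) * D) * X) with hQ1
  have ha0 : (a : ℂ) ≠ 0 := by exact_mod_cast (by linarith : a ≠ 0)
  have hdf : DifferentiableOn ℂ (fun τ => (cx Q1).eval τ * f (1 / ((Z : ℤ) : ℂ) + D * τ))
      (ball 0 (1 / (Z * |(D : ℝ)|))) :=
    (cx Q1).differentiable.differentiableOn.mul (hf.comp (by fun_prop) hin')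
  have hO2 : (fun τ => (cx Q1).eval τ * f (1 / ((Z : ℤ) : ℂ) + D * τ) -
      (C (a : ℂ) * cx (Q1 * G)).eval τ) =O[𝓝 0] fun τ => τ ^ (l + 2 * e + 2 + 1) := by
    have e1 := ((((cx Q1).continuous.tendsto 0).isBigO_one ℂ).mul hO).const_mul_left (a : ℂ)
    refine (e1.congr_right fun τ => one_mul _).congr_left fun τ => ?_
    rw [hfa, map_mul, eval_mul, eval_mul, eval_C]
    field_simp
  have hzn : ‖((Z : ℤ) : ℂ) ^ n‖ = (Z : ℝ) ^ n := by simp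
  have k1 := coeff_bound (M := (Z : ℝ) ^ n * (Z : ℝ) ^ l) hr hdf (fun τ hτ => by
    rw [hQ1, hom_lin hQ hZ0, mul_assoc, norm_mul, hzn]
    refine mul_le_mul_of_nonneg_left ((hbd _ (hin' τ hτ)).1.trans (le_trans ?_ hZl))
      (by positivity)
    exact pow_le_pow_right₀ hY1 (by nlinarith)) hO2 (Nat.lt_succ_of_le hk)
  have k2 := coeff_bound (M := (Z : ℝ) ^ (2 * l) / (Z : ℝ) ^ n)
    (S := C (a : ℂ) * cx (Q1 * G) - cx P1) hr (hdf.sub (cx P1).differentiable.differentiableOn)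
    (fun τ hτ => by
      rw [Pi.sub_apply, hQ1, hP1, hom_lin hQ hZ0, hom_lin hP hZ0, mul_assoc, ← mul_sub, norm_mul,
        hzn]
      have e1 := (hbd _ (hin' τ hτ)).2
      have e2 := (hin τ hτ).le
      calc _ ≤ (Z : ℝ) ^ n * (Y ^ (11 * n * L) * (2 / Z * Y) ^ N) := by
            refine mul_le_mul_of_nonneg_left (e1.trans ?_) (by positivity)
            gcongr
        _ = (Z : ℝ) ^ n * (Y ^ (11 * n * L) * (2 * Y) ^ N) / Z ^ N := by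
            rw [div_mul_eq_mul_div, div_pow]; ring
        _ ≤ (Z : ℝ) ^ n * (Y ^ (11 * n * L) * (Y * Y) ^ N) / Z ^ N := by gcongr
        _ ≤ (Z : ℝ) ^ n * (Z : ℝ) ^ l / Z ^ N := by
            rw [← sq, ← pow_mul, ← pow_add]
            gcongr
            exact (pow_le_pow_right₀ hY1 (by nlinarith)).trans hZl
        _ = _ := by
            rw [div_eq_div_iff (by positivity) (by positivity), ← pow_add, ← pow_add, ← pow_add]
            congr 1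
            omega)
    (hO2.congr_left fun τ => by rw [Pi.sub_apply, eval_sub]; ring) (Nat.lt_succ_of_le hk)
  rw [coeff_C_mul, cx_coeff, norm_mul, Complex.norm_real, Complex.norm_intCast, Real.norm_eq_abs,
    abs_of_pos (by linarith)] at k1
  rw [coeff_sub, coeff_C_mul, cx_coeff, cx_coeff] at k2
  generalize (Q1 * G).coeff k = β at *
  generalize P1.coeff k = α at *
  have k3 : |a * β - α| ≤ (Z : ℝ) ^ (2 * l) / (Z : ℝ) ^ n *
      (Z : ℝ) ^ ((2 * e + 2) * (2 * e + 3) * l) := by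
    refine le_trans ?_ (k2.trans (mul_le_mul_of_nonneg_left hrk (by positivity)))
    rw [← Real.norm_eq_abs, ← Complex.norm_real]
    push_cast
    rfl
  have k4 : |(β : ℝ)| ≤ 2 * ((Z : ℝ) ^ n * (Z : ℝ) ^ l *
      (Z : ℝ) ^ ((2 * e + 2) * (2 * e + 3) * l)) := by
    have := k1.trans (mul_le_mul_of_nonneg_left hrk (by positivity))
    nlinarith [abs_nonneg (β : ℝ)]
  have ht' : (0 : ℝ) < t := by exact_mod_cast ht
  have k5 := hy (s / t) (by positivity)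
  have k6 : (1 : ℝ) ≤ |(s : ℝ) * β - t * α| := by
    have : (1 : ℤ) ≤ |(s : ℤ) * β - t * α| := Int.one_le_abs (sub_ne_zero.2 hne.symm)
    exact_mod_cast this
  have k7 : (s : ℝ) * β - t * α = t * ((s / t - a) * β + (a * β - α)) := by
    field_simp
    ring
  have h16 : (16 : ℝ) ≤ (Z : ℝ) ^ l := hz.trans (le_self_pow₀ hz1 (by omega))
  generalize |((s : ℝ) / t) ^ (p + 1) * aeval (1 / (Z : ℝ)) V - aeval (1 / (Z : ℝ)) U| = E at *
  have hE : 0 ≤ E := by linarith [abs_nonneg ((s : ℝ) / t - a)]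
  rw [k7, abs_mul, abs_of_pos ht'] at k6
  refine k6.trans ?_
  rw [mul_assoc]
  refine mul_le_mul_of_nonneg_left ((abs_add_le _ _).trans ?_) ht'.le
  rw [abs_mul, add_mul, pow_add, mul_add]
  refine add_le_add ?_ (k3.trans (le_of_eq (by ring)))
  calc _ ≤ (8 * E) * (2 * ((Z : ℝ) ^ n * (Z : ℝ) ^ l *
        (Z : ℝ) ^ ((2 * e + 2) * (2 * e + 3) * l))) :=
        mul_le_mul k5 k4 (abs_nonneg _) (by positivity)
    _ = 16 * ((Z : ℝ) ^ ((2 * e + 2) * (2 * e + 3) * l) * (Z : ℝ) ^ l * ((Z : ℝ) ^ n * E)) := by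
        ring
    _ ≤ (Z : ℝ) ^ l * ((Z : ℝ) ^ ((2 * e + 2) * (2 * e + 3) * l) * (Z : ℝ) ^ l *
        ((Z : ℝ) ^ n * E)) := mul_le_mul_of_nonneg_right h16 (by positivity)
    _ = _ := by ring

end Pool.Agent.P.MP_71e30e_nt
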