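import Mathlib
import Pool.Agent.P.MP_71e30e_nt.Pade

set_option autoImplicit false

/-! The Runge step and the unscaled statements. -/

namespace Pool.Agent.P.MP_71e30e_nt

open Polynomial Filter Topology Asymptotics Metric

theorem runge {p e d : ℕ} (A B U V : ℤ[X]) (hU : U = 1 + C (((p + 1 : ℕ) : ℤ) ^ 2) * X * A)
    (hV : V = 1 + C (((p + 1 : ℕ) : ℤ) ^ 2) * X * B) (hUe : U.natDegree ≤ e)
    (hVe : V.natDegree ≤ e) {Y : ℝ} (hY : 2 ≤ Y)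
    (hb : ∀ w ∈ ball (0 : ℂ) (1 / Y),
      ‖(cx U).eval w - 1‖ ≤ 1 / 4 ∧ ‖(cx V).eval w - 1‖ ≤ 1 / 4)
    (hnr : NR (p + 1) (cx U) (cx V)) {Z : ℕ}
    (hZ : Y ^ ((5 * d + 2) * (p + 1) + 2 * e + 3) ≤ Z) (m : ℕ) :
    ((m : ℝ) / (Z : ℝ) ^ d) ^ (p + 1) * aeval (1 / (Z : ℝ)) V ≠ aeval (1 / (Z : ℝ)) U := by
  intro heq
  have hY1 : 1 < Y := by linarith
  have hr : 0 < 1 / Y := by positivity
  have hlt : ∀ k, k < (5 * d + 2) * (p + 1) + 2 * e + 3 → Y ^ k < Z := fun k hk =>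
    (pow_lt_pow_right₀ hY1 hk).trans_le hZ
  have hYZ : Y < Z := by simpa using hlt 1 (by omega)
  have hz0 : (0 : ℝ) < Z := by linarith
  have hZ0 : (Z : ℤ) ≠ 0 := by exact_mod_cast hz0.ne'
  have hw0 : ((1 / (Z : ℝ) : ℝ) : ℂ) = 1 / ((Z : ℤ) : ℂ) := by push_cast; rfl
  have hnw : ‖(1 / ((Z : ℤ) : ℂ))‖ = 1 / (Z : ℝ) := by simp
  have hwb : (1 / ((Z : ℤ) : ℂ)) ∈ ball (0 : ℂ) (1 / Y) := by
    rw [mem_ball_zero_iff, hnw]
    exact one_div_lt_one_div_of_lt (by linarith) hYZ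
  obtain ⟨f, a, hf, hf0, hfe, hfa, -, -, -, -, -, hy⟩ := root_data (q := p + 1) (by omega) U V
    (by rw [hU, mul_assoc]; simp) (by rw [hV, mul_assoc]; simp) hb (hw0 ▸ hwb)
  rw [hw0] at hfa
  have ha : (m : ℝ) / (Z : ℝ) ^ d = a := by
    have := hy ((m : ℝ) / (Z : ℝ) ^ d) (by positivity)
    rw [heq, sub_self, abs_zero, mul_zero] at this
    exact sub_eq_zero.1 (abs_nonpos_iff.1 this)
  obtain ⟨T, t0, td, -, hO, hc⟩ := trunc_zero (by omega) A B U V hU hV hY hf hf0 hfe d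
  have hw1 : ∀ w ∈ ball (0 : ℂ) (1 / Y), ‖w‖ ≤ 1 := fun w hw =>
    (mem_ball_zero_iff.1 hw).le.trans (by rw [div_le_one (by linarith)]; exact hY1.le)
  have b1 : ∀ w ∈ ball (0 : ℂ) (1 / Y), ‖(cx T).eval w‖ ≤ Y ^ (3 * d + 2) := fun w hw => by
    have := eval_bound (H := Y ^ (2 * d + 1)) (Nat.lt_succ_of_le ((cx_natDegree T).trans td))
      (fun i hi => (cx_norm_coeff T i).trans_le ((hc i (by omega)).trans
        (pow_le_pow_right₀ hY1.le (by omega)))) (hw1 w hw)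
    calc _ ≤ _ := this
      _ ≤ Y ^ (d + 1) * Y ^ (2 * d + 1) := by gcongr; exact nat_le_pow hY _
      _ = _ := by ring
  have b2 := schwarz (M := Y ^ (3 * d + 3)) (hf.sub (cx T).differentiable.differentiableOn)
    (fun w hw => by
      have h1 := (hfe w hw).2
      have h2 := b1 w hw
      have h3 : Y ≤ Y ^ (3 * d + 2) := le_self_pow₀ hY1.le (by omega)
      rw [pow_succ]
      refine (norm_sub_le _ _).trans ?_
      nlinarith) hO hwb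
  have e1 := hv_eq td hZ0
  have hzd : (((Z : ℤ) : ℂ)) ^ d ≠ 0 := pow_ne_zero _ (by exact_mod_cast hZ0)
  have e2 : ((m : ℤ) : ℂ) = ((Z : ℤ) : ℂ) ^ d * a := by
    rw [← ha]
    push_cast at hzd ⊢
    field_simp
  have e3 : (m : ℤ) = hv T d Z := by
    have h1 : |(((m : ℤ) - hv T d Z : ℤ) : ℝ)| < 1 := by
      rw [← Complex.norm_intCast, Int.cast_sub, e1, e2, ← mul_sub, norm_mul, ← hfa]
      rw [Pi.sub_apply, hnw] at b2
      calc _ ≤ (Z : ℝ) ^ d * (Y ^ (3 * d + 3) * (1 / Z / (1 / Y)) ^ (d + 1)) :=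
            mul_le_mul (by simp) b2 (norm_nonneg _) (by positivity)
        _ = Y ^ (4 * d + 4) / Z := by
            rw [div_div_eq_mul_div, div_one, mul_pow, one_div, inv_pow]
            field_simp
            ring
        _ < 1 := (div_lt_one hz0).2 (hlt _ (by nlinarith))
    have h2 : |(m : ℤ) - hv T d Z| < 1 := by exact_mod_cast h1
    exact sub_eq_zero.1 (Int.abs_lt_one_iff.1 h2)
  have e4 : (cx T).eval (1 / ((Z : ℤ) : ℂ)) = f (1 / ((Z : ℤ) : ℂ)) := by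
    apply mul_left_cancel₀ hzd
    rw [← e1, hfa, ← e2, e3]
  set S : ℤ[X] := T ^ (p + 1) * V - U with hS
  have hcS : cx S = cx T ^ (p + 1) * cx V - cx U := by rw [hS, map_sub, map_mul, map_pow]
  have hS0 : S ≠ 0 := fun h => by
    have := hnr.ne (T := cx T) (cx_ne_zero fun h => by simp [h] at t0)
    rw [← hcS, h, map_zero] at this
    exact this rfl
  have hSd : S.natDegree ≤ d * (p + 1) + e := by
    refine (natDegree_sub_le_of_le (natDegree_mul_le_of_le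
      (natDegree_pow_le_of_le (p + 1) td) hVe) hUe).trans (max_le ?_ ?_)
    · rw [mul_comm]
    · omega
  have e5 := hv_eq (P := S) le_rfl hZ0
  rw [hcS, eval_sub, eval_mul, eval_pow, e4, (hfe _ hwb).1, sub_self, mul_zero] at e5
  have e6 : hv S S.natDegree Z = 0 := by exact_mod_cast e5
  have e7 : (Z : ℤ) ∣ S.coeff S.natDegree := by
    rw [hv, Finset.sum_range_succ, Nat.sub_self, pow_zero, mul_one] at e6
    rw [eq_neg_of_add_eq_zero_right e6, dvd_neg]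
    exact Finset.dvd_sum fun i hi => Dvd.dvd.mul_left
      (dvd_pow_self _ (by have := Finset.mem_range.1 hi; omega)) _
  have e8 : (Z : ℝ) ≤ |(S.coeff S.natDegree : ℝ)| := by
    exact_mod_cast Int.le_of_dvd (abs_pos.2 (leadingCoeff_ne_zero.2 hS0)) ((dvd_abs _ _).2 e7)
  have e9 := coeff_bound (S := cx S) (K := S.natDegree + 1) (M := Y ^ ((3 * d + 2) * (p + 1) + 2))
    hr (cx S).differentiable.differentiableOn (fun w hw => by
      obtain ⟨h1, h2⟩ := hb w hw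
      have h3 := norm_sub_norm_le ((cx U).eval w) 1
      have h4 := norm_sub_norm_le ((cx V).eval w) 1
      rw [norm_one] at h3 h4
      have h5 : ‖(cx T).eval w‖ ^ (p + 1) ≤ Y ^ ((3 * d + 2) * (p + 1)) := by
        rw [pow_mul]
        exact pow_le_pow_left₀ (norm_nonneg _) (b1 w hw) _
      have h6 : 1 ≤ Y ^ ((3 * d + 2) * (p + 1)) := one_le_pow₀ hY1.le
      have h7 : ‖(cx T).eval w‖ ^ (p + 1) * ‖(cx V).eval w‖ ≤ Y ^ ((3 * d + 2) * (p + 1)) * 2 :=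
        mul_le_mul h5 (by linarith) (norm_nonneg _) (by positivity)
      have h8 : Y ^ ((3 * d + 2) * (p + 1)) * 4 ≤ Y ^ ((3 * d + 2) * (p + 1)) * Y ^ 2 := by
        gcongr; nlinarith
      rw [hcS, eval_sub, eval_mul, eval_pow, pow_add Y]
      refine (norm_sub_le _ _).trans ?_
      rw [norm_mul, norm_pow]
      linarith) (by simpa using isBigO_zero _ _) (Nat.lt_succ_self _)
  rw [cx_norm_coeff] at e9
  have e10 : (Z : ℝ) ≤ Y ^ ((3 * d + 2) * (p + 1) + 2 + 2 * S.natDegree) := by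
    rw [pow_add Y _ (2 * _)]
    exact e8.trans (e9.trans (mul_le_mul_of_nonneg_left (two_div_pow hY _) (by positivity)))
  exact absurd (hlt _ (by nlinarith)) (not_lt.2 e10)

theorem scale_data (c : ℕ) (U : ℤ[X]) (hU : U.coeff 0 = 1) : ∃ A U' : ℤ[X],
    U' = 1 + C ((c : ℤ) ^ 2) * X * A ∧ U'.natDegree ≤ U.natDegree ∧
      cx U' = (cx U).comp (C ((c : ℂ) ^ 2) * X) ∧
      ∀ x : ℝ, aeval x U' = aeval ((c : ℝ) ^ 2 * x) U := by
  refine ⟨U.divX.comp (C ((c : ℤ) ^ 2) * X), U.comp (C ((c : ℤ) ^ 2) * X), ?_, ?_, ?_, ?_⟩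
  · conv_lhs => rw [← X_mul_divX_add U, hU]
    simp [add_comm]
  · refine natDegree_comp_le.trans ?_
    have : (C ((c : ℤ) ^ 2) * X).natDegree ≤ 1 := (natDegree_C_mul_le _ _).trans natDegree_X_le
    nlinarith
  · simp [cx, map_comp]
  · intro x
    simp [aeval_comp]

theorem scale_ball {c : ℕ} {Y : ℝ} (hY : 2 ≤ Y) (hc : (c : ℝ) ^ 2 ≤ Y) {w : ℂ}
    (hw : w ∈ ball (0 : ℂ) (1 / Y ^ 2)) : (c : ℂ) ^ 2 * w ∈ ball (0 : ℂ) (1 / Y) := by
  rw [mem_ball_zero_iff] at hw ⊢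
  rw [norm_mul, norm_pow, Complex.norm_natCast]
  rw [lt_div_iff₀ (by positivity)] at hw ⊢
  have := mul_le_mul_of_nonneg_right hc (mul_nonneg (norm_nonneg w) (by linarith : 0 ≤ Y))
  nlinarith

theorem pade' {q e L l : ℕ} (hq : 1 ≤ q) (U V : ℤ[X]) (hU : U.coeff 0 = 1) (hV : V.coeff 0 = 1)
    (hUe : U.natDegree ≤ e) (hVe : V.natDegree ≤ e) {Y : ℝ} (hY : 2 ≤ Y) (hqY : (q : ℝ) ^ 2 ≤ Y)
    (hb : ∀ w ∈ ball (0 : ℂ) (1 / Y),
      ‖(cx U).eval w - 1‖ ≤ 1 / 4 ∧ ‖(cx V).eval w - 1‖ ≤ 1 / 4)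
    (hnr : NR q (cx U) (cx V)) (hL : 2 ≤ L) (hl : 1 ≤ l) {z a : ℕ}
    (ha : (2 * e + 2) * (2 * e + 3) + 3 = a) (hz : Y ^ (30 * L * L + a) ≤ z) (s t : ℕ)
    (ht : 0 < t) :
    (1 : ℝ) ≤ t * (z : ℝ) ^ (a * l) * ((z : ℝ) ^ (L * l) *
      |((s : ℝ) / t) ^ q * aeval (1 / (z : ℝ)) V - aeval (1 / (z : ℝ)) U| +
        1 / (z : ℝ) ^ (L * l)) := by
  obtain ⟨p, rfl⟩ : ∃ p, q = p + 1 := ⟨q - 1, by omega⟩
  obtain ⟨A, U', u1, u2, u3, u4⟩ := scale_data (p + 1) U hU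
  obtain ⟨B, V', v1, v2, v3, v4⟩ := scale_data (p + 1) V hV
  have hq1 : (1 : ℝ) ≤ ((p + 1 : ℕ) : ℝ) := by exact_mod_cast hq
  have hq2 : (1 : ℝ) ≤ ((p + 1 : ℕ) : ℝ) ^ 2 := one_le_pow₀ hq1
  have hY1 : 1 ≤ Y := by linarith
  have hz1 : (1 : ℝ) ≤ z := (one_le_pow₀ hY1).trans hz
  have hzZ : (z : ℝ) ≤ ((p + 1 : ℕ) : ℝ) ^ 2 * z := le_mul_of_one_le_left (by linarith) hq2
  have h := pade (Y := Y ^ 2) (Z := (p + 1) ^ 2 * z) A B U' V' u1 v1 (u2.trans hUe) (v2.trans hVe)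
    (by nlinarith) (by nlinarith)
    (fun w hw => by
      simpa only [u3, v3, eval_comp, eval_mul, eval_C, eval_X] using hb _ (scale_ball hY hqY hw))
    (by rw [u3, v3]; exact hnr.scale (pow_ne_zero _ (by exact_mod_cast (by omega : p + 1 ≠ 0))))
    hL hl
    (by
      rw [← pow_mul, Nat.cast_mul, Nat.cast_pow]
      exact ((pow_le_pow_right₀ hY1 (by nlinarith)).trans hz).trans hzZ) s t ht
  have e0 : ((p + 1 : ℕ) : ℝ) ^ 2 * (1 / (((p + 1 : ℕ) : ℝ) ^ 2 * z)) = 1 / z := by field_simp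
  rw [u4, v4, Nat.cast_mul, Nat.cast_pow, e0] at h
  refine h.trans ?_
  obtain ⟨b, hb'⟩ : ∃ b, b = (2 * e + 2) * (2 * e + 3) + 2 := ⟨_, rfl⟩
  obtain rfl : a = b + 1 := by omega
  rw [← hb']
  have hE := abs_nonneg
    (((s : ℝ) / t) ^ (p + 1) * aeval (1 / (z : ℝ)) V - aeval (1 / (z : ℝ)) U)
  generalize |((s : ℝ) / t) ^ (p + 1) * aeval (1 / (z : ℝ)) V - aeval (1 / (z : ℝ)) U| = E at *
  generalize ((p + 1 : ℕ) : ℝ) ^ 2 = c at *
  have hc : c ^ ((b + L) * l) ≤ (z : ℝ) ^ l := by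
    rw [pow_mul]
    refine pow_le_pow_left₀ (by positivity) (le_trans ?_ hz) l
    exact (pow_le_pow_left₀ (by linarith) hqY _).trans (pow_le_pow_right₀ hY1 (by nlinarith))
  have hc2 : c ^ (b * l) ≤ (z : ℝ) ^ l := (pow_le_pow_right₀ hq2 (by nlinarith)).trans hc
  have hc3 : 1 / (c * z) ^ (L * l) ≤ 1 / (z : ℝ) ^ (L * l) :=
    one_div_le_one_div_of_le (by positivity) (pow_le_pow_left₀ (by linarith) hzZ _)
  rw [mul_assoc, mul_assoc]
  refine mul_le_mul_of_nonneg_left ?_ (by positivity)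
  rw [mul_add, mul_add]
  refine add_le_add ?_ ?_
  · calc _ = c ^ ((b + L) * l) * ((z : ℝ) ^ (b * l) * ((z : ℝ) ^ (L * l) * E)) := by ring
      _ ≤ (z : ℝ) ^ l * ((z : ℝ) ^ (b * l) * ((z : ℝ) ^ (L * l) * E)) :=
          mul_le_mul_of_nonneg_right hc (by positivity)
      _ = _ := by ring
  · refine mul_le_mul ?_ hc3 (by positivity) (by positivity)
    rw [mul_pow, add_mul, one_mul, pow_add, mul_comm]
    exact mul_le_mul_of_nonneg_left hc2 (by positivity)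

theorem runge' {q e d : ℕ} (hq : 1 ≤ q) (U V : ℤ[X]) (hU : U.coeff 0 = 1) (hV : V.coeff 0 = 1)
    (hUe : U.natDegree ≤ e) (hVe : V.natDegree ≤ e) {Y : ℝ} (hY : 2 ≤ Y) (hqY : (q : ℝ) ^ 2 ≤ Y)
    (hb : ∀ w ∈ ball (0 : ℂ) (1 / Y),
      ‖(cx U).eval w - 1‖ ≤ 1 / 4 ∧ ‖(cx V).eval w - 1‖ ≤ 1 / 4)
    (hnr : NR q (cx U) (cx V)) {z : ℕ} (hz : Y ^ (2 * ((5 * d + 2) * q + 2 * e + 3)) ≤ z)
    (m : ℕ) :
    ((m : ℝ) / (z : ℝ) ^ d) ^ q * aeval (1 / (z : ℝ)) V ≠ aeval (1 / (z : ℝ)) U := by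
  obtain ⟨p, rfl⟩ : ∃ p, q = p + 1 := ⟨q - 1, by omega⟩
  obtain ⟨A, U', u1, u2, u3, u4⟩ := scale_data (p + 1) U hU
  obtain ⟨B, V', v1, v2, v3, v4⟩ := scale_data (p + 1) V hV
  have hq1 : (1 : ℝ) ≤ ((p + 1 : ℕ) : ℝ) := by exact_mod_cast hq
  have hq2 : (1 : ℝ) ≤ ((p + 1 : ℕ) : ℝ) ^ 2 := one_le_pow₀ hq1
  have hz1 : (1 : ℝ) ≤ z := (one_le_pow₀ (by linarith)).trans hz
  have hzZ : (z : ℝ) ≤ ((p + 1 : ℕ) : ℝ) ^ 2 * z := le_mul_of_one_le_left (by linarith) hq2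
  have h := runge (Y := Y ^ 2) (Z := (p + 1) ^ 2 * z) (d := d) A B U' V' u1 v1 (u2.trans hUe)
    (v2.trans hVe) (by nlinarith)
    (fun w hw => by
      simpa only [u3, v3, eval_comp, eval_mul, eval_C, eval_X] using hb _ (scale_ball hY hqY hw))
    (by rw [u3, v3]; exact hnr.scale (pow_ne_zero _ (by exact_mod_cast (by omega : p + 1 ≠ 0))))
    (by
      rw [← pow_mul, Nat.cast_mul, Nat.cast_pow]
      exact hz.trans hzZ) (((p + 1) ^ 2) ^ d * m)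
  have e0 : ((p + 1 : ℕ) : ℝ) ^ 2 * (1 / (((p + 1 : ℕ) : ℝ) ^ 2 * z)) = 1 / z := by field_simp
  rw [u4, v4, Nat.cast_mul, Nat.cast_mul, Nat.cast_pow, Nat.cast_pow, e0, mul_pow,
    mul_div_mul_left _ _ (by positivity)] at h
  exact h

/-- A ball on which two fixed polynomials are close to 1. -/
theorem exists_Y (q : ℕ) (U V : ℤ[X]) (hU : U.coeff 0 = 1) (hV : V.coeff 0 = 1) :
    ∃ Y : ℝ, 2 ≤ Y ∧ (q : ℝ) ^ 2 ≤ Y ∧ ∀ w ∈ ball (0 : ℂ) (1 / Y),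
      ‖(cx U).eval w - 1‖ ≤ 1 / 4 ∧ ‖(cx V).eval w - 1‖ ≤ 1 / 4 := by
  have key : ∀ S : ℤ[X], S.coeff 0 = 1 → ∀ᶠ w in 𝓝 (0 : ℂ), ‖(cx S).eval w - 1‖ ≤ 1 / 4 := by
    intro S hS
    have h1 : Continuous fun w => ‖(cx S).eval w - 1‖ := by fun_prop
    refine (h1.tendsto 0).eventually (ge_mem_nhds ?_)
    rw [cx_eval_zero, hS]
    simp
  obtain ⟨r, hr, h⟩ := Metric.eventually_nhds_iff_ball.1 ((key U hU).and (key V hV))
  refine ⟨max (max 2 ((q : ℝ) ^ 2)) (1 / r), (le_max_left _ _).trans (le_max_left _ _),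
    (le_max_right _ _).trans (le_max_left _ _), fun w hw => h w (ball_subset_ball ?_ hw)⟩
  rw [one_div_le (lt_max_of_lt_right (by positivity)) hr]
  exact le_max_right _ _

end Pool.Agent.P.MP_71e30e_nt
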