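import Mathlib
import Pool.Agent.P.MP_71e30e_nt.Runge

set_option autoImplicit false

/-! The Nagell-Ljunggren equation when the base is a perfect power. -/

namespace Pool.Agent.P.MP_71e30e_nt

open Polynomial Filter Topology Metric Finset

/-- The choice of the degree of the approximant. -/
theorem gap {q a M α β : ℕ} (hq : 1 ≤ q) (ha : 1 ≤ a) (hM : 1 ≤ M) {z t E : ℝ} (hz : 1 < z)
    (ht : 0 < t)
    (h : ∀ l : ℕ, 1 ≤ l → 1 ≤ t * z ^ (a * l) * (z ^ ((M + 1) * a * l) * E +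
      1 / z ^ ((M + 1) * a * l)))
    (h1 : (2 * t) ^ q ≤ z ^ α) (h2 : E * z ^ β ≤ 1) :
    M * q * β ≤ (2 * M + 2) * α + (M + 2) * (q * M * a) := by
  have hz0 : 0 < z := by linarith
  have hd : 0 < q * M * a := by positivity
  obtain ⟨l, hl⟩ : ∃ l, l = α / (q * M * a) + 1 := ⟨_, rfl⟩
  have l1 : α ≤ q * M * a * l := by rw [hl]; exact (Nat.lt_mul_div_succ α hd).le
  have l2 : q * M * a * l ≤ α + q * M * a := by
    rw [hl, mul_add, mul_one]
    exact Nat.add_le_add_right (Nat.mul_div_le α _) _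
  have e1 : 2 * t ≤ z ^ (M * a * l) := by
    refine le_of_pow_le_pow_left₀ (by omega : q ≠ 0) (by positivity) (h1.trans ?_)
    rw [← pow_mul]
    exact pow_le_pow_right₀ hz.le (by nlinarith)
  have e2 := h l (hl ▸ Nat.le_add_left 1 _)
  have e3 : t * z ^ (a * l) * (1 / z ^ ((M + 1) * a * l)) ≤ 1 / 2 := by
    rw [show (M + 1) * a * l = a * l + M * a * l by ring, pow_add, mul_one_div,
      div_le_div_iff₀ (by positivity) (by norm_num)]
    have := mul_le_mul_of_nonneg_left e1 (pow_pos hz0 (a * l)).le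
    linarith
  have e4 : z ^ β ≤ 2 * t * z ^ ((M + 2) * a * l) := by
    have e5 : 1 ≤ 2 * t * z ^ ((M + 2) * a * l) * E := by
      rw [show (M + 2) * a * l = a * l + (M + 1) * a * l by ring, pow_add]
      rw [mul_add] at e2
      linarith
    calc z ^ β ≤ 2 * t * z ^ ((M + 2) * a * l) * E * z ^ β :=
          le_mul_of_one_le_left (by positivity) e5
      _ = 2 * t * z ^ ((M + 2) * a * l) * (E * z ^ β) := by ring
      _ ≤ _ := mul_le_of_le_one_right (by positivity) h2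
  have e6 : z ^ (β * q) ≤ z ^ (α + (M + 2) * a * l * q) := by
    rw [pow_mul, pow_add, pow_mul z _ q]
    refine (pow_le_pow_left₀ (by positivity) e4 q).trans ?_
    rw [mul_pow]
    exact mul_le_mul_of_nonneg_right h1 (by positivity)
  have e7 := (pow_le_pow_iff_right₀ hz).1 e6
  calc M * q * β = M * (β * q) := by ring
    _ ≤ M * (α + (M + 2) * a * l * q) := Nat.mul_le_mul_left _ e7
    _ = M * α + (M + 2) * (q * M * a * l) := by ring
    _ ≤ M * α + (M + 2) * (α + q * M * a) := by gcongr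
    _ = _ := by ring

theorem geom_cast {R : Type*} [CommRing R] (z n : ℕ) :
    ((∑ i ∈ range n, z ^ i : ℕ) : R) * (z - 1) = (z : R) ^ n - 1 := by
  push_cast
  exact geom_sum_mul _ _

theorem geom_one {p : ℕ} {z : ℕ} (n : ℕ) (h : (z : ZMod p) = 1)
    (h0 : p ∣ ∑ i ∈ range n, z ^ i) : p ∣ n := by
  rw [← ZMod.natCast_eq_zero_iff] at h0 ⊢
  push_cast at h0
  simpa [h] using h0

theorem geom_pow {p : ℕ} {z : ℕ} (n : ℕ) (h0 : p ∣ ∑ i ∈ range n, z ^ i) :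
    (z : ZMod p) ^ n = 1 := by
  have := geom_cast (R := ZMod p) z n
  rw [(ZMod.natCast_eq_zero_iff _ _).2 h0, zero_mul] at this
  exact (sub_eq_zero.1 this.symm)

/-- The splitting of the repunit in base z ^ μ. -/
theorem split {μ q z n y : ℕ} (hμ : μ.Prime) (hz : 2 ≤ z) (hn : 1 ≤ n)
    (hc : Nat.Coprime n (μ * (μ - 1))) (h : ∑ i ∈ range n, (z ^ μ) ^ i = y ^ q) :
    ∃ y1 y2 : ℕ, ∑ i ∈ range n, z ^ i = y1 ^ q ∧ y ^ q = y1 ^ q * y2 ^ q := by
  have c1 : Nat.Coprime n μ := hc.coprime_mul_right_right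
  have c2 : Nat.Coprime n (μ - 1) := hc.coprime_mul_left_right
  have id1 : (∑ i ∈ range n, (z ^ μ) ^ i) * (∑ i ∈ range μ, z ^ i) =
      (∑ i ∈ range n, z ^ i) * ∑ i ∈ range μ, (z ^ n) ^ i := by
    have a1 := geom_cast (R := ℤ) (z ^ μ) n
    have a2 := geom_cast (R := ℤ) z μ
    have a3 := geom_cast (R := ℤ) z n
    have a4 := geom_cast (R := ℤ) (z ^ n) μ
    rw [Nat.cast_pow] at a1 a4
    rw [← pow_mul, mul_comm μ n, ← a2] at a1
    rw [← pow_mul, ← a3] at a4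
    have hz' : (z : ℤ) - 1 ≠ 0 := by omega
    zify
    apply mul_right_cancel₀ hz'
    push_cast at a1 a4
    linear_combination a1 - a4
  have cop1 : Nat.Coprime (∑ i ∈ range n, z ^ i) (∑ i ∈ range μ, z ^ i) := by
    refine Nat.coprime_of_dvd fun p hp h1 h2 => ?_
    have := (pow_gcd_eq_one (a := (z : ZMod p))).2 ⟨geom_pow n h1, geom_pow μ h2⟩
    rw [c1, pow_one] at this
    exact hp.one_lt.ne' (Nat.eq_one_of_dvd_coprimes c1 (geom_one n this h1) (geom_one μ this h2))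
  obtain ⟨B, hB⟩ : (∑ i ∈ range n, z ^ i) ∣ ∑ i ∈ range n, (z ^ μ) ^ i :=
    cop1.dvd_of_dvd_mul_right ⟨_, id1⟩
  have hA : 0 < ∑ i ∈ range n, z ^ i :=
    sum_pos (fun i _ => by positivity) ⟨0, mem_range.2 hn⟩
  rw [hB, mul_assoc] at id1
  have id2 := Nat.eq_of_mul_eq_mul_left hA id1
  have cop2 : Nat.Coprime (∑ i ∈ range n, z ^ i) B := by
    refine Nat.coprime_of_dvd fun p hp h1 h2 => ?_
    have a1 := geom_pow n h1
    have a2 := geom_one (z := z ^ n) μ (by push_cast; exact a1) (id2 ▸ h2.mul_right _)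
    obtain rfl : p = μ := (Nat.prime_dvd_prime_iff_eq hp hμ).1 a2
    have := Fact.mk hp
    have a3 : (z : ZMod p) ≠ 0 := fun h => by
      rw [h, zero_pow (by omega)] at a1
      exact zero_ne_one a1
    have a4 := (pow_gcd_eq_one (a := (z : ZMod p))).2 ⟨a1, ZMod.pow_card_sub_one_eq_one a3⟩
    rw [c2, pow_one] at a4
    exact hp.one_lt.ne' (Nat.eq_one_of_dvd_coprimes c1 (geom_one n a4 h1) dvd_rfl)
  rw [hB] at h
  obtain ⟨y1, h1⟩ := exists_eq_pow_of_mul_eq_pow (Nat.isUnit_iff.2 cop2) h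
  obtain ⟨y2, h2⟩ := exists_eq_pow_of_mul_eq_pow (Nat.isUnit_iff.2 cop2.symm) (mul_comm B _ ▸ h)
  exact ⟨y1, y2, h1, by rw [← h, ← h1, ← h2]⟩

theorem rev_geom {x w : ℝ} {d : ℕ} (hx : x ≠ 0) (h : w * (x - 1) = x ^ (d + 1) - 1) :
    w * (1 - 1 / x) = x ^ d * (1 - (1 / x) ^ (d + 1)) := by
  have e : x * (1 / x) = 1 := mul_one_div_cancel hx
  have e2 : x ^ d * (1 / x) ^ d = 1 := by rw [← mul_pow, e, one_pow]
  linear_combination (1 / x) * h - (w - x ^ d) * e + (1 / x) * e2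

theorem ev_pow (Y : ℝ) (c : ℕ) : ∀ᶠ z : ℕ in atTop, Y ^ c ≤ z :=
  tendsto_natCast_atTop_atTop.eventually_ge_atTop _

/-- Bounded length. -/
theorem power_small {μ q n : ℕ} (hμ : 2 ≤ μ) (hq : μ ≤ q) (hn : 2 ≤ n) :
    ∀ᶠ z : ℕ in atTop, ∀ y y1 : ℕ, ∑ i ∈ range n, z ^ i = y1 ^ q →
      ∑ i ∈ range n, (z ^ μ) ^ i ≠ y ^ q := by
  obtain ⟨k, rfl⟩ : ∃ k, q = μ + k := ⟨q - μ, by omega⟩
  obtain ⟨d, rfl⟩ : ∃ d, n = d + 1 := ⟨n - 1, by omega⟩
  set U : ℤ[X] := (1 - X ^ (d + 1)) ^ k * (1 - X ^ (μ * (d + 1))) with hU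
  set V : ℤ[X] := (1 - X) ^ k * (1 - X ^ μ) with hV
  have hU0 : U.coeff 0 = 1 := by
    rw [coeff_zero_eq_eval_zero]; simp [hU, show μ ≠ 0 by omega]
  have hV0 : V.coeff 0 = 1 := by
    rw [coeff_zero_eq_eval_zero]; simp [hV, show μ ≠ 0 by omega]
  obtain ⟨Y, hY, hqY, hb⟩ := exists_Y (μ + k) U V hU0 hV0
  have hρ := Complex.isPrimitiveRoot_exp (μ * (d + 1)) (by positivity)
  generalize Complex.exp _ = ρ at hρ
  have hne : ∀ j, 0 < j → j < μ * (d + 1) → 1 - ρ ^ j ≠ 0 := fun j h0 h1 =>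
    sub_ne_zero.2 (hρ.pow_ne_one_of_pos_of_lt h0.ne' h1).symm
  have hnr : NR (μ + k) (cx U) (cx V) := by
    refine NR.of_simple (by omega) ρ ?_ ?_ ?_
    · simp [hU, cx_X, hρ.pow_eq_one]
    · have := hne (d + 1) (by omega) (by nlinarith)
      simp [hU, cx_X, hρ.pow_eq_one, derivative_mul, this, show μ ≠ 0 by omega,
        hρ.ne_zero (by positivity), Nat.cast_add_one_ne_zero, derivative_X_pow]
    · have h1 := hne 1 (by omega) (by nlinarith)
      have h2 := hne μ (by omega) (by nlinarith)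
      rw [pow_one] at h1
      simp [hV, cx_X, h1, h2]
  filter_upwards [ev_pow Y (2 * ((5 * d + 2) * (μ + k) + 2 * max U.natDegree V.natDegree + 3)),
    eventually_ge_atTop 1] with z hz hz1 y y1 h1 h
  refine runge' (by omega) U V hU0 hV0 (le_max_left _ _) (le_max_right _ _) hY hqY hb hnr hz
    (y * y1 ^ k) ?_
  have a1 := geom_cast (R := ℝ) z (d + 1)
  have a2 := geom_cast (R := ℝ) (z ^ μ) (d + 1)
  rw [h1] at a1
  rw [h] at a2
  have hz0 : (z : ℝ) ≠ 0 := by exact_mod_cast (by omega : z ≠ 0)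
  push_cast at a1 a2
  have b1 := rev_geom hz0 a1
  have b2 := rev_geom (pow_ne_zero μ hz0) a2
  rw [← one_div_pow, ← pow_mul, ← pow_mul, mul_comm μ d, pow_mul] at b2
  simp only [hU, hV, map_mul, map_pow, map_sub, map_one, aeval_X]
  have hzd := pow_ne_zero d hz0
  generalize (z : ℝ) ^ d = x at *
  rw [div_pow, div_mul_eq_mul_div, div_eq_iff (pow_ne_zero _ hzd)]
  push_cast
  calc _ = ((y : ℝ) ^ (μ + k) * (1 - (1 / z) ^ μ)) * ((y1 : ℝ) ^ (μ + k) * (1 - 1 / z)) ^ k := by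
        rw [mul_pow ((y1 : ℝ) ^ (μ + k))]
        ring
    _ = _ := by rw [b1, b2, mul_pow]; ring

/-- Large length. -/
theorem power_large {g q : ℕ} (hg : 1 ≤ g) (hq : 2 * g < q) : ∃ n0 : ℕ,
    ∀ᶠ z : ℕ in atTop, ∀ n y y1 y2 : ℕ, n0 < n → ∑ i ∈ range n, z ^ i = y1 ^ q →
      y ^ q = y1 ^ q * y2 ^ q → ∑ i ∈ range n, (z ^ (g + 1)) ^ i ≠ y ^ q := by
  set U : ℤ[X] := (1 - X) ^ (g + 1) with hU
  set V : ℤ[X] := 1 - X ^ (g + 1) with hV
  have hU0 : U.coeff 0 = 1 := by rw [coeff_zero_eq_eval_zero]; simp [hU]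
  have hV0 : V.coeff 0 = 1 := by rw [coeff_zero_eq_eval_zero]; simp [hV]
  obtain ⟨Y, hY, hqY, hb⟩ := exists_Y q U V hU0 hV0
  have hρ := Complex.isPrimitiveRoot_exp (g + 1) (by positivity)
  generalize Complex.exp _ = ρ at hρ
  have hnr : NR q (cx U) (cx V) := by
    refine (NR.of_simple (by omega) ρ ?_ ?_ ?_).symm
    · simp [hV, cx_X, hρ.pow_eq_one]
    · simp [hV, cx_X, hρ.ne_zero (by positivity), Nat.cast_add_one_ne_zero]
    · have := sub_ne_zero.2 (hρ.ne_one (by omega)).symm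
      simp [hU, cx_X, this]
  obtain ⟨e, he⟩ : ∃ e, e = max U.natDegree V.natDegree := ⟨_, rfl⟩
  obtain ⟨a, ha⟩ : ∃ a, (2 * e + 2) * (2 * e + 3) + 3 = a := ⟨_, rfl⟩
  refine ⟨4 * g * q + (4 * g + 2) * (q * (4 * g) * a), ?_⟩
  filter_upwards [ev_pow Y (30 * ((4 * g + 1) * a) * ((4 * g + 1) * a) + a),
    ev_pow 2 (q + g), eventually_ge_atTop (2 * (g + 1))] with z hz hz2 hz3 n y y1 y2 hn h1 h2 h
  obtain ⟨d, rfl⟩ : ∃ d, n = d + 1 := ⟨n - 1, by omega⟩
  have a1 := geom_cast (R := ℝ) z (d + 1)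
  have a2 := geom_cast (R := ℝ) (z ^ (g + 1)) (d + 1)
  rw [h1] at a1
  rw [h, h2] at a2
  push_cast at a1 a2
  have hz4 : 2 * ((g : ℝ) + 1) ≤ z := by exact_mod_cast hz3
  have hg0 : (1 : ℝ) ≤ g := by exact_mod_cast hg
  have hz1 : (1 : ℝ) < z := by linarith
  have hz0 : (0 : ℝ) < z := by linarith
  have hzn : (z : ℝ) ≤ (z : ℝ) ^ (d + 1) := le_self_pow₀ hz1.le (by omega)
  have hy1 : 0 < y1 := by
    rcases Nat.eq_zero_or_pos y1 with rfl | h
    · rw [Nat.cast_zero, zero_pow (by omega), zero_mul] at a1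
      linarith
    · exact h
  have hy : (0 : ℝ) < y1 := by exact_mod_cast hy1
  have key := gap (q := q) (a := a) (M := 4 * g) (α := g * (d + 1)) (β := d) (by omega) (by omega)
    (by omega) hz1 (t := ((y1 ^ g : ℕ) : ℝ)) (by positivity)
    (fun l hl => pade' (by omega) U V hU0 hV0 (he ▸ le_max_left _ _) (he ▸ le_max_right _ _) hY
      hqY hb hnr (by nlinarith) hl ha hz y2 (y1 ^ g) (by positivity)) ?_ ?_
  · have k1 : (2 * g + 1) * (4 * g * (d + 1)) ≤ q * (4 * g * (d + 1)) :=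
      Nat.mul_le_mul_right _ hq
    have k2 : d + 1 ≤ g * (d + 1) := Nat.le_mul_of_pos_left _ hg
    nlinarith
  · have b1 : (y1 : ℝ) ^ q ≤ 2 * (z : ℝ) ^ d := by
      have b2 : 0 < (y1 : ℝ) ^ q := by positivity
      have b3 : (y1 : ℝ) ^ q * z ≤ 2 * (z : ℝ) ^ d * z := by
        rw [pow_succ] at a1
        nlinarith
      exact le_of_mul_le_mul_right b3 hz0
    calc _ = 2 ^ q * ((y1 : ℝ) ^ q) ^ g := by push_cast; ring
      _ ≤ 2 ^ q * (2 * (z : ℝ) ^ d) ^ g := by gcongr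
      _ = 2 ^ (q + g) * (z : ℝ) ^ (g * d) := by ring
      _ ≤ (z : ℝ) ^ g * (z : ℝ) ^ (g * d) :=
          mul_le_mul_of_nonneg_right (hz2.trans (le_self_pow₀ hz1.le (by omega))) (by positivity)
      _ = _ := by ring
  · simp only [hU, hV, map_pow, map_sub, map_one, aeval_X]
    obtain ⟨v, hv⟩ : ∃ v : ℝ, v = 1 / (z : ℝ) ^ (d + 1) := ⟨_, rfl⟩
    have hv0 : 0 < v := by rw [hv]; positivity
    have hv1 : v * (z : ℝ) ^ d * z = 1 := by rw [hv, pow_succ]; field_simp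
    have hzd : 1 ≤ (z : ℝ) ^ d := one_le_pow₀ hz1.le
    have hv2 : v * z ≤ 1 := by nlinarith [mul_pos hv0 hz0]
    have hv3 : 2 * ((g : ℝ) + 1) * v ≤ 1 := by nlinarith
    have hv4 : v ≤ 1 / 2 := by nlinarith
    have c1 : 1 - ((g : ℝ) + 1) * v ≤ (1 - v) ^ (g + 1) := by
      have := one_add_mul_le_pow (a := -v) (by linarith) (g + 1)
      push_cast at this
      rw [← sub_eq_add_neg] at this
      linarith
    have c2 : (1 - v) ^ (g + 1) ≤ 1 - v ^ (g + 1) := by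
      have d1 : (1 - v) ^ (g + 1) ≤ 1 - v := pow_le_of_le_one (by linarith) (by linarith) (by omega)
      have d2 : v ^ (g + 1) ≤ v := pow_le_of_le_one hv0.le (by linarith) (by omega)
      linarith
    have c3 : 0 < (1 - v) ^ (g + 1) := by linarith
    have hw : 0 < 1 - 1 / (z : ℝ) := by rw [sub_pos, div_lt_one hz0]; exact hz1
    have c4 : ((y2 : ℝ) / ((y1 ^ g : ℕ) : ℝ)) ^ q * (1 - (1 / (z : ℝ)) ^ (g + 1)) =
        (1 - 1 / (z : ℝ)) ^ (g + 1) * ((1 - v ^ (g + 1)) / (1 - v) ^ (g + 1)) := by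
      have b1 := rev_geom hz0.ne' a1
      have b2 := rev_geom (pow_ne_zero (g + 1) hz0.ne') a2
      rw [one_div_pow, ← hv] at b1
      rw [← one_div_pow, ← pow_mul, ← pow_mul, mul_comm (g + 1) d, mul_comm (g + 1) (d + 1),
        pow_mul, pow_mul, one_div_pow _ (d + 1), ← hv] at b2
      have b3 := congrArg (· ^ (g + 1)) b1
      simp only [mul_pow] at b3
      have b4 : 0 < ((z : ℝ) ^ d) ^ (g + 1) := by positivity
      push_cast
      rw [div_pow, ← pow_mul, mul_comm g q, pow_mul, ← mul_div_assoc, div_mul_eq_mul_div,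
        div_eq_div_iff (by positivity) c3.ne']
      apply mul_left_cancel₀ (mul_pos (pow_pos hy q) b4).ne'
      linear_combination (((z : ℝ) ^ d) ^ (g + 1) * (1 - v) ^ (g + 1)) * b2 -
        (((z : ℝ) ^ d) ^ (g + 1) * (1 - v ^ (g + 1))) * b3
    have c5 : (1 - v ^ (g + 1)) / (1 - v) ^ (g + 1) - 1 ≤ 2 * ((g : ℝ) + 1) * v := by
      rw [sub_le_iff_le_add, div_le_iff₀ c3]
      have : 0 < v ^ (g + 1) := by positivity
      have h5 : 0 ≤ ((g : ℝ) + 1) * v := by positivity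
      nlinarith
    have c6 : 0 ≤ (1 - v ^ (g + 1)) / (1 - v) ^ (g + 1) - 1 := by
      rw [sub_nonneg, le_div_iff₀ c3]; linarith
    have c7 : (1 - 1 / (z : ℝ)) ^ (g + 1) ≤ 1 :=
      pow_le_one₀ hw.le (by have : 0 < 1 / (z : ℝ) := by positivity
                            linarith)
    rw [c4, ← mul_sub_one, abs_of_nonneg (by positivity)]
    calc _ ≤ 1 * (z * v) * (z : ℝ) ^ d := by
          gcongr
          exact c5.trans (by gcongr)
      _ = 1 := by linarith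

theorem power_base (μ q : ℕ) (hμ : μ.Prime) (hq : 2 * (μ - 1) < q) : ∃ z0 : ℕ, ∀ z n y : ℕ,
    z0 ≤ z → 2 ≤ n → Nat.Coprime n (μ * (μ - 1)) → ∑ i ∈ range n, (z ^ μ) ^ i ≠ y ^ q := by
  have h2 := hμ.two_le
  obtain ⟨g, rfl⟩ : ∃ g, μ = g + 1 := ⟨μ - 1, by omega⟩
  obtain ⟨n0, h0⟩ := power_large (g := g) (q := q) (by omega) (by omega)
  have h1 : ∀ᶠ z : ℕ in atTop, ∀ n ∈ Icc 2 n0, ∀ y y1 : ℕ, ∑ i ∈ range n, z ^ i = y1 ^ q →
      ∑ i ∈ range n, (z ^ (g + 1)) ^ i ≠ y ^ q :=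
    (eventually_all_finset _).2 fun n hn => power_small h2 (by omega) (mem_Icc.1 hn).1
  obtain ⟨z0, hz0⟩ := eventually_atTop.1 (h0.and (h1.and (eventually_ge_atTop 2)))
  refine ⟨z0, fun z n y hz hn hc h => ?_⟩
  obtain ⟨a1, a2, a3⟩ := hz0 z hz
  obtain ⟨y1, y2, b1, b2⟩ := split hμ a3 (by omega) hc h
  rcases le_or_gt n n0 with k | k
  · exact a2 n (mem_Icc.2 ⟨hn, k⟩) y y1 b1 h
  · exact a1 n y y1 y2 k b1 b2 h

theorem geom_mul {x : ℕ} (hx : 2 ≤ x) (m k : ℕ) : ∑ i ∈ range (m * k), x ^ i =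
    (∑ i ∈ range m, x ^ i) * ∑ i ∈ range k, (x ^ m) ^ i := by
  have a1 := geom_cast (R := ℤ) x (m * k)
  have a2 := geom_cast (R := ℤ) x m
  have a3 := geom_cast (R := ℤ) (x ^ m) k
  rw [Nat.cast_pow, ← pow_mul, ← a2] at a3
  have hx' : (x : ℤ) - 1 ≠ 0 := by omega
  zify
  apply mul_right_cancel₀ hx'
  push_cast at a1 a3
  linear_combination a1 - a3

/-- Removal of the small prime factors of the length. -/
theorem reduce {x q μ P : ℕ} (hx : 2 ≤ x) (hμ : 2 ≤ μ) (hP : P.Prime) (hμP : μ < P) :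
    ∀ n y : ℕ, n ≠ 0 → P ∣ n → ∑ i ∈ range n, x ^ i = y ^ q → ∃ m y' : ℕ, 2 ≤ m ∧
      Nat.Coprime m (μ * (μ - 1)) ∧ ∑ i ∈ range m, x ^ i = y' ^ q := by
  intro n
  induction n using Nat.strong_induction_on with
  | _ n ih =>
  intro y hn hPn h
  have hn2 : 2 ≤ n := hP.two_le.trans (Nat.le_of_dvd (by omega) hPn)
  by_cases hc : Nat.Coprime n (μ * (μ - 1))
  · exact ⟨n, y, hn2, hc, h⟩
  obtain ⟨r, hr, r1, r2⟩ := Nat.Prime.not_coprime_iff_dvd.1 hc
  have hrμ : r ≤ μ := by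
    rcases (Nat.Prime.dvd_mul hr).1 r2 with k | k
    · exact Nat.le_of_dvd (by omega) k
    · exact (Nat.le_of_dvd (by omega) k).trans (Nat.sub_le _ _)
  have hp : n.minFac.Prime := Nat.minFac_prime (by omega)
  have hmin : ∀ s, s.Prime → s ∣ n → n.minFac ≤ s := fun s hs h =>
    Nat.minFac_le_of_dvd hs.two_le h
  have hpn := Nat.minFac_dvd n
  generalize n.minFac = p at hp hmin hpn
  obtain ⟨a, m, hm, rfl⟩ := Nat.exists_eq_pow_mul_and_not_dvd hn p hp.ne_one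
  have hpP : p < P := by have := hmin r hr r1; omega
  have hPm : P ∣ m := ((Nat.Prime.dvd_mul hP).1 hPn).resolve_left fun k => by
    have := (Nat.prime_dvd_prime_iff_eq hP hp).1 (hP.dvd_of_dvd_pow k)
    omega
  have hm0 : m ≠ 0 := right_ne_zero_of_mul hn
  have ha : a ≠ 0 := by
    rintro rfl
    exact hm (by simpa using hpn)
  have hlt : m < p ^ a * m :=
    lt_mul_left (Nat.pos_of_ne_zero hm0) (Nat.one_lt_pow ha hp.one_lt)
  have c2 : Nat.Coprime m (p - 1) := by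
    refine Nat.coprime_of_dvd fun s hs h1 h2 => ?_
    have := hmin s hs (h1.mul_left _)
    have := Nat.le_of_dvd (by have := hp.two_le; omega) h2
    have := hp.two_le
    omega
  rw [mul_comm, geom_mul hx] at h
  have cop : Nat.Coprime (∑ i ∈ range m, x ^ i) (∑ i ∈ range (p ^ a), (x ^ m) ^ i) := by
    refine Nat.coprime_of_dvd fun s hs h1 h2 => ?_
    have a1 := geom_pow m h1
    have a2 := geom_one (z := x ^ m) (p ^ a) (by push_cast; exact a1) h2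
    obtain rfl : s = p := (Nat.prime_dvd_prime_iff_eq hs hp).1 (hs.dvd_of_dvd_pow a2)
    have := Fact.mk hs
    have a3 : (x : ZMod s) ≠ 0 := fun h => by
      rw [h, zero_pow hm0] at a1
      exact zero_ne_one a1
    have a4 := (pow_gcd_eq_one (a := (x : ZMod s))).2 ⟨a1, ZMod.pow_card_sub_one_eq_one a3⟩
    rw [c2, pow_one] at a4
    exact hm (geom_one m a4 h1)
  obtain ⟨y1, h1⟩ := exists_eq_pow_of_mul_eq_pow (Nat.isUnit_iff.2 cop) h
  exact ih m hlt y1 hm0 hPm h1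

theorem power_base' (μ q : ℕ) (hμ : μ.Prime) (hq : 2 * (μ - 1) < q) : ∃ z0 : ℕ, ∀ z n y : ℕ,
    z0 ≤ z → 1 ≤ n → (∃ P : ℕ, P.Prime ∧ P ∣ n ∧ μ < P) →
      ∑ i ∈ range n, (z ^ μ) ^ i ≠ y ^ q := by
  obtain ⟨z0, h0⟩ := power_base μ q hμ hq
  refine ⟨max z0 2, fun z n y hz hn ⟨P, hP, h1, h2⟩ h => ?_⟩
  have hx : 2 ≤ z ^ μ := ((le_max_right _ _).trans hz).trans (Nat.le_self_pow hμ.ne_zero z)
  obtain ⟨m, y', a1, a2, a3⟩ := reduce hx hμ.two_le hP h2 n y (by omega) h1 h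
  exact h0 z m y' ((le_max_left _ _).trans hz) a1 a2 a3

end Pool.Agent.P.MP_71e30e_nt
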