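import Pool.Agent.P.MP_71e30e_nt.CS1
import Pool.Agent.P.MP_71e30e_nt.Power

set_option autoImplicit false

/-! The exponent is bounded by the square of the logarithm of the base. -/

namespace Pool.Agent.P.MP_71e30e_nt.Comp

open Polynomial Finset

theorem one_add_pow_le {y : ℝ} (h0 : 0 ≤ y) (h1 : y ≤ 1 / 65536) {l N : ℕ} (hl : l ≤ 65536 * N) :
    (1 + y) ^ l ≤ 2 ^ (2 * N) := by
  have h2 : (l : ℝ) ≤ 65536 * N := by exact_mod_cast hl
  calc (1 + y) ^ l ≤ Real.exp y ^ l :=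
        pow_le_pow_left₀ (by positivity) (by linarith [Real.add_one_le_exp y]) l
    _ ≤ Real.exp 1 ^ N := by
        rw [← Real.exp_nat_mul, ← Real.exp_nat_mul, Real.exp_le_exp]
        nlinarith [mul_le_mul_of_nonneg_left h1 (Nat.cast_nonneg (α := ℝ) l)]
    _ ≤ _ := by
        rw [pow_mul]
        exact pow_le_pow_left₀ (Real.exp_pos _).le (by linarith [Real.exp_one_lt_d9]) N

theorem dvd_iff_taylor (β : ℝ) (T : ℕ) (f : ℝ[X]) :
    (X - C β) ^ T ∣ f ↔ ∀ τ < T, (taylor β f).coeff τ = 0 := by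
  rw [X_sub_C_pow_dvd_iff, X_pow_dvd_iff, ← taylor_apply]

theorem s_core {q m D N : ℕ} (hq : 1 ≤ q) (hm : 1 ≤ m) (hD : 1 ≤ D) (hqm : q ≤ 65536 * m)
    (hN : N = m * (16 * D)) (e : Fin m → ℕ) (he : Function.Injective e) (he' : ∀ k, e k < q)
    {α δ ε den : ℝ} (lam : Fin m → ℝ) (hl0 : ∀ k, lam k ≠ 0) (hl : ∀ k, |lam k - 1| ≤ ε)
    (hδ0 : 0 < δ) (hδ : δ ≤ 1 / 2 ^ 18) (hα : |α - 1| ≤ δ) (hα1 : α ^ q ≠ 1) (hden : 0 < den)
    (hint : ∀ k, ∀ t < 16 * D, ∃ z : ℤ, den * (lam k * α ^ (e k + q * t)) = z) :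
    1 ≤ den * (2 ^ (78 * N) * ε + 2 ^ (78 * N + 1) * δ ^ (4 * (m * D))) := by
  have hmD : m ≤ m * D := Nat.le_mul_of_pos_right _ hD
  have hN' : N = 16 * (m * D) := by rw [hN]; ring
  set l : Fin m × Fin (16 * D) → ℕ := fun b => e b.1 + q * b.2 with hl'
  have hlN : ∀ b, l b ≤ 65536 * N := fun b => by
    have h1 := he' b.1
    have h2 := Nat.mul_le_mul_left q b.2.2
    have h3 := Nat.mul_le_mul_right (16 * D) hqm
    rw [Nat.mul_succ] at h2
    rw [mul_assoc, ← hN] at h3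
    simp only [hl']
    omega
  have hc : ∀ b s, ((l b).choose s : ℝ) ≤ 65536 ^ s * 2 ^ (2 * N) := fun b s =>
    (choose_le_mul 65536 (by norm_num) _ _).trans (mul_le_mul_of_nonneg_left
      (one_add_pow_le (by norm_num) le_rfl (hlN b)) (by positivity))
  have hc' : ∀ b, ∀ s ≤ N, ((l b).choose s : ℝ) ≤ 2 ^ (18 * N) := fun b s hs => by
    refine (hc b s).trans ?_
    rw [show 18 * N = 16 * N + 2 * N by ring, pow_add, pow_mul _ 16]
    exact mul_le_mul_of_nonneg_right ((pow_le_pow_right₀ (by norm_num) hs).trans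
      (pow_le_pow_left₀ (by norm_num) (by norm_num) N)) (by positivity)
  have hcard : Fintype.card (Fin m × Fin (16 * D)) = N := by simp [hN]
  obtain ⟨p, hp0, hp1, hp2⟩ := siegel3 (α := Fin (12 * (m * D))) (fun τ b => ((l b).choose τ : ℤ))
    (B := 2 ^ (18 * N)) (one_le_pow₀ one_le_two)
    (fun τ b => by simpa using hc' b τ (by have := τ.2; omega))
    (by rw [Fintype.card_fin]; omega) (by rw [hcard, Fintype.card_fin]; omega)
  have hN2 : (N : ℝ) ≤ 2 ^ N := by exact_mod_cast Nat.lt_two_pow_self.le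
  have hp : ∀ b, |(p b : ℝ)| ≤ 2 ^ (57 * N) := fun b => (hp1 b).trans (by
    rw [hcard, show 57 * N = (N + 18 * N) * 3 by ring, pow_mul _ _ 3, pow_add]
    gcongr)
  have hsum : ∀ (f : Fin m × Fin (16 * D) → ℝ) (B : ℝ), 0 ≤ B → (∀ b, |f b| ≤ B) →
      |∑ b, f b| ≤ 2 ^ N * B := fun f B hB h => by
    refine (abs_sum_le_sum_abs _ _).trans ((sum_le_card_nsmul _ _ B fun b _ => h b).trans ?_)
    rw [card_univ, hcard, nsmul_eq_mul]
    gcongr
  set P : Fin m → ℝ[X] := fun k => ∑ t : Fin (16 * D), C (p (k, t) : ℝ) * X ^ (t : ℕ) with hP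
  have key : ∀ c : Fin m → ℝ, ∑ k, C (c k) * (X ^ e k * expand ℝ q (P k)) =
      ∑ b, C (c b.1 * p b) * X ^ l b := by
    intro c
    rw [Fintype.sum_prod_type]
    refine sum_congr rfl fun k _ => ?_
    simp only [hP, hl', map_sum, map_mul, expand_C, map_pow, expand_X, mul_sum, pow_add, pow_mul]
    exact sum_congr rfl fun t _ => by ring
  have t1 : ∀ s, (taylor 1 (∑ b, C (1 * p b : ℝ) * X ^ l b)).coeff s =
      ∑ b, (p b : ℝ) * (l b).choose s := fun s => by simpa using taylor_sum univ (fun b => (1 * p b : ℝ)) l 1 s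
  have t2 : ∀ s < 12 * (m * D), (taylor 1 (∑ b, C (1 * p b : ℝ) * X ^ l b)).coeff s = 0 := by
    intro s hs
    have := congrArg (Int.cast : ℤ → ℝ) (hp2 ⟨s, hs⟩)
    push_cast at this
    rw [t1, ← this]
    exact sum_congr rfl fun b _ => mul_comm _ _
  have hα2 := abs_le.1 hα
  have hδ1 : δ ≤ 1 / 65536 := hδ.trans (by norm_num)
  have hα0 : 0 < α := by linarith
  obtain ⟨τ, hτ, hV⟩ : ∃ τ < 4 * (m * D) + 2 * m + 1,
      (taylor α (∑ b, C (lam b.1 * p b) * X ^ l b)).coeff τ ≠ 0 := by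
    by_contra! h
    have := zero_two (D := 16 * D) hq e he he' P ?_ (fun k => natDegree_sum_le_of_forall_le _ _
      fun t _ => (natDegree_C_mul_X_pow_le _ _).trans t.2.le) lam hl0 hα0.ne' hα1
      (key (fun _ => 1) ▸ (dvd_iff_taylor _ _ _).2 t2) (key lam ▸ (dvd_iff_taylor _ _ _).2 h)
    · omega
    · obtain ⟨b, hb⟩ := Function.ne_iff.1 hp0
      refine ⟨b.1, fun h0 => hb ?_⟩
      have h1 := congrArg (coeff · b.2) h0
      simp only [hP, finsetSum_coeff, coeff_C_mul_X_pow, coeff_zero] at h1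
      rw [sum_eq_single b.2 (fun t _ ht => if_neg fun e => ht (Fin.ext e.symm)) (by simp)] at h1
      simpa using h1
  have hτN : τ ≤ N := by omega
  have v1 := taylor_sum univ (fun b => lam b.1 * p b) l α τ
  have v2 := taylor_sum univ (fun b => (1 * p b : ℝ)) l α τ
  have v3 := tail_le (τ := τ) (B := 2 ^ N * (2 ^ (57 * N) * 2 ^ (2 * N))) (M := 65536)
    (by positivity) (by norm_num) hδ0.le t2 (fun s => by
      rw [t1, mul_assoc]
      refine hsum _ _ (by positivity) fun b => ?_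
      rw [abs_mul, Nat.abs_cast, mul_assoc, mul_comm _ ((65536 : ℝ) ^ s)]
      exact mul_le_mul (hp b) (hc b s) (by positivity) (by positivity)) hα
    (by norm_num at hδ ⊢; linarith)
  have v4 : |∑ b, (1 * p b : ℝ) * (l b).choose τ * α ^ l b| ≤
      2 ^ (78 * N + 1) * δ ^ (4 * (m * D)) := by
    rw [← v2, abs_mul, abs_of_nonneg (pow_nonneg hα0.le τ)]
    refine le_of_mul_le_mul_right ?_ (pow_pos hδ0 τ)
    have b1 : α ^ τ ≤ 2 ^ N :=
      (pow_le_pow_left₀ hα0.le (by linarith) τ).trans (pow_le_pow_right₀ one_le_two hτN)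
    have b2 : (2 * 65536 * δ) ^ (12 * (m * D)) ≤ 2 ^ (17 * N) * (δ ^ (4 * (m * D)) * δ ^ τ) := by
      rw [mul_pow, ← pow_add, pow_mul _ 17]
      exact mul_le_mul ((pow_le_pow_right₀ (by norm_num) (by omega)).trans
        (pow_le_pow_left₀ (by norm_num) (by norm_num) N))
        (pow_le_pow_of_le_one hδ0.le (by linarith) (by omega)) (by positivity) (by positivity)
    rw [mul_right_comm]
    refine (mul_le_mul (v3.trans (mul_le_mul_of_nonneg_left b2 (by positivity))) b1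
      (by positivity) (by positivity)).trans (le_of_eq ?_)
    ring
  have hε : 0 ≤ ε := (abs_nonneg _).trans (hl ⟨0, hm⟩)
  have v5 : |∑ b, (lam b.1 - 1) * p b * (l b).choose τ * α ^ l b| ≤ 2 ^ (78 * N) * ε := by
    refine (hsum _ (ε * 2 ^ (57 * N) * 2 ^ (18 * N) * 2 ^ (2 * N)) (by positivity)
      fun b => ?_).trans (le_of_eq (by ring))
    rw [abs_mul, abs_mul, abs_mul, Nat.abs_cast, abs_of_nonneg (pow_nonneg hα0.le _)]
    have b1 : α ^ l b ≤ 2 ^ (2 * N) := (pow_le_pow_left₀ hα0.le (by linarith) _).trans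
      (one_add_pow_le hδ0.le hδ1 (hlN b))
    gcongr
    exacts [hl _, hp _, hc' b τ hτN]
  choose z hz using fun b : Fin m × Fin (16 * D) => hint b.1 b.2 b.2.2
  have v6 : den * ∑ b, lam b.1 * p b * (l b).choose τ * α ^ l b =
      (∑ b, p b * (l b).choose τ * z b : ℤ) := by
    push_cast
    rw [mul_sum]
    exact sum_congr rfl fun b _ => by rw [← hz b]; ring
  have v7 : (1 : ℝ) ≤ |den * ∑ b, lam b.1 * p b * (l b).choose τ * α ^ l b| := by
    have h0 := mul_ne_zero hden.ne' (v1 ▸ mul_ne_zero hV (pow_ne_zero τ hα0.ne'))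
    rw [v6] at h0 ⊢
    exact_mod_cast Int.one_le_abs (by exact_mod_cast h0)
  rw [abs_mul, abs_of_pos hden] at v7
  refine v7.trans (mul_le_mul_of_nonneg_left (le_trans ?_ (add_le_add v5 v4)) hden.le)
  refine le_trans (le_of_eq ?_) (abs_add_le _ _)
  rw [← sum_add_distrib]
  exact congrArg _ (sum_congr rfl fun b _ => by ring)

theorem ne_one_of {q x n y j : ℕ} {i : ℤ} (hq : q.Prime) (hx : 2 ≤ x) (hy : 1 ≤ y) (hj : 1 ≤ j)
    (hjq : j < q) (he : (y : ℝ) ^ q * (x - 1) = x ^ n - 1) :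
    (x : ℝ) ^ ((j * n : ℤ) - i * q) ≠ (x - 1) ^ j := by
  intro h
  have hx' : (2 : ℝ) ≤ x := by exact_mod_cast hx
  obtain ⟨w, rfl⟩ : ∃ w, x = w + 1 := ⟨x - 1, by omega⟩
  rcases lt_trichotomy ((j * n : ℤ) - i * q) 0 with h0 | h0 | h0
  · have h1 := zpow_lt_one_of_neg₀ (a := ((w + 1 : ℕ) : ℝ)) (by linarith) h0
    have h2 := one_le_pow₀ (n := j) (a := ((w + 1 : ℕ) : ℝ) - 1) (by linarith)
    linarith
  · rw [h0, zpow_zero] at h
    have h1 : ((w + 1 : ℕ) : ℝ) - 1 = 1 :=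
      (pow_eq_one_iff_of_nonneg (by linarith) (by omega)).1 h.symm
    have h2 : q ∣ j * n := Int.natCast_dvd_natCast.1 ⟨i, by push_cast; linarith⟩
    obtain ⟨s, rfl⟩ := (hq.dvd_mul.1 h2).resolve_left (Nat.not_dvd_of_pos_of_lt hj hjq)
    rw [h1, mul_one, mul_comm, pow_mul] at he
    have h3 : y ^ q + 1 = ((w + 1) ^ s) ^ q := by
      have : (y : ℝ) ^ q + 1 = (((w + 1 : ℕ) : ℝ) ^ s) ^ q := by linarith
      exact_mod_cast this
    have h4 : y < (w + 1) ^ s := lt_of_pow_lt_pow_left₀ q (by positivity) (by omega)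
    have h5 := Nat.pow_le_pow_left h4 q
    obtain ⟨r, rfl⟩ : ∃ r, q = r + 2 := ⟨q - 2, by have := hq.two_le; omega⟩
    have h6 : y ^ r ≤ (y + 1) ^ r := Nat.pow_le_pow_left (by omega) r
    have h7 : 0 < y ^ r := by positivity
    rw [← h3, Nat.succ_eq_add_one, pow_add, pow_add] at h5
    nlinarith [Nat.mul_le_mul_right ((y + 1) ^ 2) h6]
  · obtain ⟨v, hv⟩ := Int.eq_ofNat_of_zero_le h0.le
    rw [hv, zpow_natCast] at h
    have h1 : (w + 1) ^ v = w ^ j := by
      have : ((w : ℝ) + 1) ^ v = w ^ j := by simpa using h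
      exact_mod_cast this
    have h2 : w + 1 ∣ w ^ j := h1 ▸ dvd_pow_self _ (by omega)
    have h3 := (Nat.Coprime.pow_right j (by simp : Nat.Coprime (w + 1) w)).eq_one_of_dvd h2
    omega

theorem near_one {α : ℝ} (h0 : 0 < α) {γ q E : ℕ} (hq : 1 ≤ q) (hE : 2 ^ γ * E ≤ q)
    (h1 : α ^ q ≤ 2 ^ E) (h2 : (α ^ q)⁻¹ ≤ 2 ^ E) : |α - 1| ≤ 1 / 2 ^ γ := by
  have h3 : (0 : ℝ) < 1 / 2 ^ γ := by positivity
  have h4 : (2 : ℝ) ^ E ≤ (1 + 1 / 2 ^ γ) ^ q := by
    refine le_trans ?_ (pow_le_pow_right₀ (by linarith) hE)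
    rw [pow_mul]
    refine pow_le_pow_left₀ zero_le_two (le_trans (le_of_eq ?_)
      (one_add_mul_le_pow (by linarith) _)) E
    push_cast
    rw [mul_one_div_cancel (by positivity)]
    norm_num
  have h5 := le_of_pow_le_pow_left₀ (by omega) (by positivity) (h1.trans h4)
  rw [← inv_pow] at h2
  have h6 := le_of_pow_le_pow_left₀ (by omega) (by positivity) (h2.trans h4)
  rw [inv_le_iff_one_le_mul₀ h0] at h6
  rw [abs_le]
  constructor
  · by_contra! h
    nlinarith
  · linarith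

/-- no solution when the exponent is large against the logarithm of the base -/
theorem large_exp : ∃ c0 : ℕ, ∀ q x b n y : ℕ, q.Prime → 2 ≤ x → x ≤ 2 ^ b → 2 ^ b ≤ x ^ 2 →
    (c0 * b) ^ 2 ≤ q → 2 ≤ n → ∑ i ∈ range n, x ^ i ≠ y ^ q := by
  obtain ⟨γ, hγ⟩ : ∃ γ : ℕ, 32768 ≤ γ := ⟨_, le_rfl⟩
  refine ⟨2 ^ (γ + 1), fun q x b n y hq hx hb1 hb2 hc hn h => ?_⟩
  have hc0 : γ + 1 < 2 ^ (γ + 1) := Nat.lt_two_pow_self
  have hb : 1 ≤ b := by
    rcases b with _ | b
    · omega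
    · omega
  have hq1 := hq.one_le
  set J := q.sqrt with hJ
  have hJ1 : J * J ≤ q := Nat.sqrt_le q
  have hJ2 : q < (J + 1) * (J + 1) := Nat.lt_succ_sqrt q
  have hJ3 : 2 ^ (γ + 1) * b ≤ J := Nat.le_sqrt'.2 hc
  have hJ4 : 32768 * b ≤ J := (Nat.mul_le_mul_right b (by omega)).trans hJ3
  have hJ5 : 32768 * J ≤ q := (Nat.mul_le_mul_right J (by omega)).trans hJ1
  have hx' : (2 : ℝ) ≤ x := by exact_mod_cast hx
  have hx0 : (0 : ℝ) < x := by linarith
  have hx1 : (0 : ℝ) < x - 1 := by linarith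
  have he : (y : ℝ) ^ q * (x - 1) = x ^ n - 1 := by
    have := geom_cast (R := ℝ) x n
    rwa [h, Nat.cast_pow] at this
  have hy : 2 ≤ y := by
    by_contra! hy
    have h1 : y ^ q ≤ 1 := pow_le_one₀ (Nat.zero_le _) (by omega)
    have h2 := single_le_sum (f := fun i => x ^ i) (fun _ _ => Nat.zero_le _)
      (mem_range.2 (by omega : 1 < n))
    rw [h, pow_one] at h2
    omega
  have hy' : (2 : ℝ) ≤ y := by exact_mod_cast hy
  have hxb : (x : ℝ) ≤ 2 ^ b := by exact_mod_cast hb1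
  have hqY : q ≤ b * n := by
    have h1 : (2 : ℝ) ^ q ≤ y ^ q := pow_le_pow_left₀ zero_le_two hy' q
    have h2 : (x : ℝ) ^ n ≤ (2 ^ b) ^ n := pow_le_pow_left₀ hx0.le hxb n
    rw [← pow_mul] at h2
    refine (pow_le_pow_iff_right₀ (one_lt_two (α := ℝ))).1 ?_
    nlinarith [pow_pos (two_pos (α := ℝ)) q]
  obtain ⟨i, j', hj0, hj1, hv⟩ := Real.exists_int_int_abs_mul_sub_le ((n : ℝ) / q) (by omega : 0 < J)
  lift j' to ℕ using hj0.le with j
  have hj : 1 ≤ j := by omega
  have hjJ : j ≤ J := by omega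
  have hq0 : (0 : ℝ) < q := by positivity
  have hv' : |(j * n : ℤ) - i * q| ≤ J := by
    have h1 : |((j * n - i * q : ℤ) : ℝ)| < J + 1 := by
      have e : ((j * n - i * q : ℤ) : ℝ) = (((j : ℤ) : ℝ) * (n / q) - i) * q := by
        push_cast
        field_simp
      rw [e, abs_mul, abs_of_pos hq0]
      refine (mul_le_mul_of_nonneg_right hv hq0.le).trans_lt ?_
      rw [one_div_mul_eq_div, div_lt_iff₀ (by positivity)]
      exact_mod_cast hJ2
    have h2 : |(j * n : ℤ) - i * q| < J + 1 := by exact_mod_cast h1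
    omega
  rw [abs_le] at hv'
  obtain ⟨η, hη0, hη⟩ : ∃ η : ℝ, 0 < η ∧ η ^ q = x ^ n / (x - 1) :=
    ⟨_, Real.rpow_pos_of_pos (by positivity) _, Real.rpow_inv_natCast_pow (by positivity) hq.ne_zero⟩
  set α : ℝ := η ^ j / x ^ i with hα
  have hα0 : 0 < α := by positivity
  have hαq : α ^ q = (x : ℝ) ^ ((j * n : ℤ) - i * q) / (x - 1) ^ j := by
    rw [hα, div_pow, ← pow_mul, mul_comm j, pow_mul, hη, div_pow, ← pow_mul, zpow_sub₀ hx0.ne',
      zpow_mul _ i, zpow_natCast, ← Nat.cast_mul, zpow_natCast, mul_comm j, div_right_comm]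
  have hxJ : (x : ℝ) ^ J ≤ 2 ^ (b * J) := by
    rw [pow_mul]
    exact pow_le_pow_left₀ hx0.le hxb J
  have h2J : (1 : ℝ) ≤ 2 ^ (b * J) := one_le_pow₀ one_le_two
  have hα1 : |α - 1| ≤ 1 / 2 ^ γ := by
    refine near_one hα0 hq1 (E := b * J + b * J) (le_trans (le_trans (le_of_eq (by ring))
      (Nat.mul_le_mul_right J hJ3)) hJ1) ?_ ?_
    · rw [hαq, pow_add]
      refine (div_le_self (by positivity) (one_le_pow₀ (by linarith))).trans
        ((zpow_le_zpow_right₀ (by linarith) hv'.2).trans ?_)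
      rw [zpow_natCast]
      nlinarith
    · rw [hαq, inv_div, div_eq_mul_inv, ← zpow_neg, pow_add]
      refine mul_le_mul (le_trans ?_ hxJ) ((zpow_le_zpow_right₀ (by linarith)
        (by omega : _ ≤ (J : ℤ))).trans (by rwa [zpow_natCast])) (by positivity) (by positivity)
      exact (pow_le_pow_left₀ hx1.le (by linarith) j).trans (pow_le_pow_right₀ (by linarith) hjJ)
  set m := q / 65536 + 1 with hm
  obtain ⟨D, hD⟩ : ∃ D, D = b * n / q + 1 := ⟨_, rfl⟩
  have hD1 : q * D ≤ 2 * (b * n) := by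
    have := Nat.mul_div_le (b * n) q
    rw [hD, mul_add]
    omega
  have hD2 : b * n < q * D := hD ▸ Nat.lt_mul_div_succ _ hq1
  choose e he1 he2 using fun k : Fin m => Nat.exists_mul_mod_eq_of_coprime k
    (Nat.Coprime.symm (hq.coprime_iff_not_dvd.2
      (Nat.not_dvd_of_pos_of_lt hj (by omega)))) hq.ne_zero
  have hk : ∀ k : Fin m, (k : ℕ) < q := fun k => by have := k.2; omega
  simp only [Nat.mod_eq_of_lt (hk _)] at he2
  have hr : (y / η) ^ q = 1 - 1 / (x : ℝ) ^ n := by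
    rw [div_pow, hη, div_div_eq_mul_div, he, sub_div, div_self (by positivity)]
  have hr0 : 0 < y / η := by positivity
  have hr1 : y / η ≤ 1 := (pow_le_one_iff_of_nonneg hr0.le hq.ne_zero).1 (by
    rw [hr]
    exact sub_le_self _ (by positivity))
  have h1 := s_core hq1 (by omega) (hD ▸ Nat.le_add_left 1 _ : 1 ≤ D) (by omega) rfl e
    (fun k k' hh => Fin.ext (by rw [← he2 k, hh, he2])) he1 (fun k => (y / η) ^ (k : ℕ))
    (fun k => by positivity) (ε := 1 / (x : ℝ) ^ n) (fun k => by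
      have a1 := pow_le_one₀ hr0.le hr1 (n := k)
      have a2 := pow_le_pow_of_le_one hr0.le hr1 (hk k).le
      rw [abs_of_nonpos (by linarith)]
      linarith) (by positivity)
    (one_div_le_one_div_of_le (by positivity) (pow_le_pow_right₀ one_le_two (by omega))) hα1
    (fun h0 => ne_one_of hq hx (by omega) hj (by omega) he (by
      rwa [hαq, div_eq_one_iff_eq (by positivity)] at h0))
    (den := x ^ (J * (16 * D) + (n * m / q + 1)) * (x - 1) ^ (J * (16 * D))) (by positivity)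
    (fun k t ht => by
      set l := e k + q * t with hl
      have a1 : j * l = k + q * (j * l / q) := by
        have := Nat.mod_add_div (j * l) q
        rw [hl, mul_add j, mul_left_comm j, Nat.add_mul_mod_self_left, he2] at this
        rw [hl, mul_add j, mul_left_comm j, this]
      generalize j * l / q = s at a1
      have a2 : l ≤ q * (16 * D) := by
        have c1 := Nat.mul_le_mul_left q ht
        have := he1 k
        rw [Nat.mul_succ] at c1
        omega
      have a3 : s ≤ J * (16 * D) := by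
        refine Nat.le_of_mul_le_mul_left ?_ hq1
        have := Nat.mul_le_mul hjJ a2
        rw [mul_left_comm J] at this
        omega
      obtain ⟨r, hr⟩ := Int.eq_ofNat_of_zero_le
        (a := (J * (16 * D) + (n * m / q + 1) + n * s : ℕ) - i * l) (by
          have b1 : n * m < q * (n * m / q + 1) := Nat.lt_mul_div_succ _ hq1
          have b2 : n * k ≤ n * m := Nat.mul_le_mul_left n k.2.le
          generalize n * m / q + 1 = w at *
          have b3 := mul_le_mul_of_nonneg_right hv'.1 (Int.natCast_nonneg l)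
          have b4 := Nat.mul_le_mul_left J a2
          refine le_of_mul_le_mul_left ?_ (show (0 : ℤ) < q by omega)
          zify at a1 b1 b2 b4
          push_cast
          nlinarith [congrArg ((n : ℤ) * ·) a1])
      obtain ⟨s', hs'⟩ := Nat.exists_eq_add_of_le a3
      refine ⟨y ^ (k : ℕ) * x ^ r * (x - 1) ^ s', ?_⟩
      have b1 : (x : ℝ) ^ r = x ^ (J * (16 * D) + (n * m / q + 1)) * x ^ (n * s) / (x ^ i) ^ l := by
        rw [← zpow_natCast _ r, ← hr, zpow_sub₀ hx0.ne', zpow_natCast, zpow_mul, zpow_natCast,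
          pow_add]
      push_cast
      rw [b1, hα, div_pow (η ^ j), ← pow_mul η, a1, pow_add η, pow_mul η, hη, div_pow, div_pow,
        ← pow_mul _ n]
      generalize (x : ℝ) ^ (J * (16 * D) + (n * m / q + 1)) = w
      rw [hs', pow_add]
      field_simp)
  set N := m * (16 * D) with hN
  set E := b * (J * (16 * D) + (n * m / q + 1) + J * (16 * D)) with hE
  have h2 : (x : ℝ) ^ (J * (16 * D) + (n * m / q + 1)) * (x - 1) ^ (J * (16 * D)) ≤ 2 ^ E := by
    rw [hE, pow_mul 2, pow_add _ _ (J * (16 * D))]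
    gcongr
    linarith
  have n1 : 65536 * N ≤ 64 * (b * n) := by
    have := Nat.mul_le_mul_right (16 * D) (by omega : 65536 * m ≤ 2 * q)
    rw [hN]
    nlinarith
  have n2 : 16 * (b * n) ≤ 65536 * N := by
    have := Nat.mul_le_mul_right (16 * D) (by omega : q ≤ 65536 * m)
    rw [hN]
    nlinarith
  have n3 : 32768 * (b * J * D) ≤ 2 * (b * n) := by
    have := Nat.mul_le_mul_right D ((Nat.mul_le_mul_right J hJ4).trans hJ1)
    nlinarith
  have n4 : 65536 * (b * (n * m / q)) ≤ 2 * (b * n) := by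
    refine Nat.le_of_mul_le_mul_left ?_ hq1
    have a1 := Nat.mul_le_mul_left (65536 * b) (Nat.mul_div_le (n * m) q)
    have a2 := Nat.mul_le_mul_left (b * n) (by omega : 65536 * m ≤ 2 * q)
    nlinarith
  have n5 : E = 32 * (b * J * D) + b * (n * m / q) + b := by rw [hE]; ring
  have n6 : N = 16 * (m * D) := by rw [hN]; ring
  have n7 := Nat.mul_le_mul_right (4 * (m * D)) hγ
  have h3 : (2 : ℝ) ^ E * (2 ^ (78 * N) * (1 / x ^ n)) < 1 / 2 := by
    have a1 : (2 : ℝ) ^ (E + 78 * N + 1) < x ^ n := by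
      refine lt_of_pow_lt_pow_left₀ 2 (by positivity) ?_
      rw [← pow_mul, ← pow_mul, mul_comm n, pow_mul (x : ℝ)]
      refine (pow_lt_pow_right₀ one_lt_two (by omega : _ < b * n)).trans_le ?_
      rw [pow_mul]
      exact pow_le_pow_left₀ (by positivity) (by exact_mod_cast hb2) n
    rw [← mul_assoc, mul_one_div, div_lt_div_iff₀ (by positivity) two_pos, ← pow_add, ← pow_succ]
    linarith
  have h4 : (2 : ℝ) ^ E * (2 ^ (78 * N + 1) * (1 / 2 ^ γ) ^ (4 * (m * D))) < 1 / 2 := by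
    rw [← mul_assoc, one_div_pow, mul_one_div, div_lt_div_iff₀ (by positivity) two_pos, ← pow_add,
      ← pow_succ, one_mul, ← pow_mul]
    exact pow_lt_pow_right₀ one_lt_two (by omega)
  have h5 := h1.trans (mul_le_mul_of_nonneg_right h2 (by positivity))
  linarith

end Pool.Agent.P.MP_71e30e_nt.Comp
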