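import Pool.Agent.P.MP_71e30e_nt.GNe

set_option autoImplicit false

/-! The auxiliary polynomial on the curve (fixed `n`). -/

namespace Pool.Agent.P.MP_71e30e_nt

open Polynomial Finset

theorem small_ker {ι ρ : Type} [Fintype ι] [Fintype ρ] (M : ρ → ι → ℤ)
    (h : Fintype.card ρ < Fintype.card ι) :
    ∃ c : ι → ℤ, c ≠ 0 ∧ ∀ r, ∑ w, c w * M r w = 0 := by
  classical
  have hk : LinearMap.ker (Matrix.mulVecLin (Matrix.of M)) ≠ ⊥ := by
    intro hb
    have := LinearMap.finrank_le_finrank_of_injective (LinearMap.ker_eq_bot.1 hb)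
    simp at this
    omega
  obtain ⟨c, hc, hc0⟩ := Submodule.exists_mem_ne_zero_of_ne_bot hk
  refine ⟨c, hc0, fun r => ?_⟩
  have := congrFun (LinearMap.mem_ker.1 hc) r
  simp only [Matrix.mulVecLin_apply, Matrix.mulVec, dotProduct, Matrix.of_apply,
    Pi.zero_apply] at this
  rw [← this]
  exact sum_congr rfl fun w _ => mul_comm _ _

theorem small {q l g1 g2 n : ℕ} (hq : 1 ≤ q) (hn : 2 ≤ n) (hE : g1 + (q - 1) * g2 < q * (l + 1)) :
    ∃ Z : ℝ, ∀ x y : ℤ, Z ≤ x → 1 ≤ y → (1 - x) * y ^ q = 1 - x ^ n →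
      ∃ a : ℤ, a ≠ 0 ∧ |(a : ℝ)| ≤ Z * x ^ (n * (l + 2)) ∧ Loc q (n * g1) (n * g2) x y a := by
  obtain ⟨r, hr0, hr, -⟩ := exists_rt hq (n * (g1 + g2))
  let F : Fin q × Fin (n * (l + 1)) → ℤ[X] := fun w =>
    r ^ (q - w.1) * (r.comp (C ((q : ℤ) ^ (2 * (n - 1))) * X ^ n)) ^ (w.1 : ℕ) *
      (C ((q : ℤ) ^ 2) * X) ^ (w.2 : ℕ)
  obtain ⟨c, hc0, hc⟩ := small_ker
    (fun (ρ : Fin (n * g1) ⊕ (Fin (q - 1) × Fin (n * g2))) (w : Fin q × Fin (n * (l + 1))) =>
      match ρ with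
      | .inl u => (F w).coeff u
      | .inr u => sg (u.1 + 1) w.1 * (F w).coeff u.2) (by
    simp only [Fintype.card_sum, Fintype.card_prod, Fintype.card_fin]
    calc n * g1 + (q - 1) * (n * g2) = n * (g1 + (q - 1) * g2) := by ring
      _ < n * (q * (l + 1)) := Nat.mul_lt_mul_of_pos_left hE (by omega)
      _ = q * (n * (l + 1)) := by ring)
  have d1 : X ^ (n * g1) ∣ ∑ w, C (c w) * F w := by
    rw [X_pow_dvd_iff]
    intro d hd
    have := hc (.inl ⟨d, hd⟩)
    simpa only [finsetSum_coeff, coeff_C_mul] using this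
  have d2 : ∀ j, j + 1 < q → X ^ (n * g2) ∣ ∑ w, C (c w * sg (j + 1) w.1) * F w := by
    intro j hj
    rw [X_pow_dvd_iff]
    intro d hd
    have := hc (.inr (⟨j, by omega⟩, ⟨d, hd⟩))
    simpa only [finsetSum_coeff, coeff_C_mul, mul_assoc] using this
  let cj : Fin q → ℤ[X] := fun j => ∑ a : Fin (n * (l + 1)), monomial a (c (j, a))
  have hcj : cj ≠ 0 := by
    intro h
    apply hc0
    funext ⟨j, a⟩
    have := congrArg (fun P => P.coeff a) (congrFun h j)
    simp only [cj, finsetSum_coeff, coeff_monomial, Pi.zero_apply, coeff_zero, Fin.val_inj] at this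
    simpa using this
  obtain ⟨Z0, hZ0⟩ := small_ne hq hn cj hcj
  refine ⟨max (max Z0 2) (∑ w, |(c w : ℝ)|), fun x y hx hy he => ?_⟩
  have hx0 : Z0 ≤ x := le_trans (le_trans (le_max_left _ _) (le_max_left _ _)) hx
  have hx2 : (2 : ℝ) ≤ x := le_trans (le_trans (le_max_right _ _) (le_max_left _ _)) hx
  have hx1 : (1 : ℝ) ≤ x := by linarith
  have hy1 : (1 : ℝ) ≤ y := by exact_mod_cast hy
  have heR : (1 - (x : ℝ)) * y ^ q = 1 - x ^ n := by exact_mod_cast he
  have hyq : (y : ℝ) ^ q ≤ x ^ n := by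
    have : 0 ≤ (y : ℝ) ^ q := by positivity
    nlinarith
  have ha : ∑ j, (cj j).eval x * y ^ (j : ℕ) =
      ∑ w : Fin q × Fin (n * (l + 1)), y ^ (w.1 : ℕ) * (c w * x ^ (w.2 : ℕ)) := by
    rw [Fintype.sum_prod_type]
    refine sum_congr rfl fun j _ => ?_
    simp only [cj, eval_finsetSum, eval_monomial, sum_mul]
    exact sum_congr rfl fun a _ => by ring
  refine ⟨∑ j, (cj j).eval x * y ^ (j : ℕ), hZ0 x y hx0 he, ?_, ?_⟩
  · rw [ha]
    push_cast
    refine (abs_sum_le_sum_abs _ _).trans ?_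
    refine le_trans ?_ (mul_le_mul_of_nonneg_right (le_max_right _ _) (by positivity))
    rw [sum_mul]
    refine sum_le_sum fun w _ => ?_
    rw [abs_mul, abs_mul, abs_of_nonneg (by positivity : (0 : ℝ) ≤ (y : ℝ) ^ (w.1 : ℕ)),
      abs_of_nonneg (by positivity : (0 : ℝ) ≤ (x : ℝ) ^ (w.2 : ℕ))]
    have b1 : (y : ℝ) ^ (w.1 : ℕ) ≤ x ^ n := (pow_le_pow_right₀ hy1 w.1.2.le).trans hyq
    have b2 : (x : ℝ) ^ (w.2 : ℕ) ≤ x ^ (n * (l + 1)) := pow_le_pow_right₀ hx1 w.2.2.le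
    calc (y : ℝ) ^ (w.1 : ℕ) * (|(c w : ℝ)| * x ^ (w.2 : ℕ))
        ≤ x ^ n * (|(c w : ℝ)| * x ^ (n * (l + 1))) := by gcongr
      _ = |(c w : ℝ)| * x ^ (n * (l + 2)) := by ring
  · intro R _ π hπ
    have hF : ∀ w, aeval π (F w) = aeval (π * 1) r ^ (q - w.1) *
        aeval ((q : R) ^ (2 * (n - 1)) * π ^ n) r ^ (w.1 : ℕ) * (x : R) ^ (w.2 : ℕ) := by
      intro w
      simp only [F, map_mul, map_pow, aeval_comp, aeval_X, map_natCast, mul_one, hπ]
    have key := bridge (R := R) (q := q) (N := n * (g1 + g2)) (G := n * g1) (G' := n * g2)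
      (n := n) (by omega) hr0 hr (π := π) (τ := 1) (V := 1) (x := (x : R)) (y := (y : R)) hπ
      (by exact_mod_cast congrArg (Int.cast : ℤ → R) he) (by simp) (by simp)
      (Nat.mul_le_mul_left n (by omega)) (Nat.mul_le_mul_left n (by omega))
      (univ : Finset (Fin q × Fin (n * (l + 1)))) (fun w => w.1) (fun w _ => w.1.2)
      (fun w => (c w : R) * (x : R) ^ (w.2 : ℕ)) (by
        have := map_dvd (aeval π) d1
        rw [map_pow, aeval_X, map_sum] at this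
        refine this.trans (dvd_of_eq (sum_congr rfl fun w _ => ?_))
        rw [map_mul, hF, aeval_C, eq_intCast]
        ring) (fun j hj => by
        have := map_dvd (aeval π) (d2 j hj)
        rw [map_pow, aeval_X, map_sum] at this
        refine this.trans (dvd_of_eq (sum_congr rfl fun w _ => ?_))
        rw [map_mul, hF, aeval_C, eq_intCast]
        push_cast
        ring)
    obtain ⟨z, k1, k2, k3⟩ := key
    have e : ∑ w : Fin q × Fin (n * (l + 1)), (y : R) ^ (w.1 : ℕ) * 1 ^ (q - w.1) *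
        ((c w : R) * (x : R) ^ (w.2 : ℕ)) = ((∑ j, (cj j).eval x * y ^ (j : ℕ) : ℤ) : R) := by
      rw [ha]
      push_cast
      exact sum_congr rfl fun w _ => by rw [one_pow, mul_one]
    rw [e] at k2 k3
    exact ⟨z, k1, k2, k3⟩

end Pool.Agent.P.MP_71e30e_nt
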