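import Pool.Agent.P.MP_71e30e_nt.GBig
import Pool.Agent.P.MP_71e30e_nt.GSmall

set_option autoImplicit false

/-! The main inequality. -/

namespace Pool.Agent.P.MP_71e30e_nt

open Polynomial Finset

theorem both {q l g1 g2 : ℕ} (hq : 1 ≤ q) (hg : 1 ≤ g1)
    (hE : tri g1 + (q - 1) * tri g2 < q * tri l) (hE' : g1 + (q - 1) * g2 < q * (l + 1)) :
    ∃ Z : ℝ, 1 ≤ Z ∧ ∀ (n : ℕ) (x y : ℤ), 2 ≤ n → Z ≤ x → 1 ≤ y →
      (1 - x) * y ^ q = 1 - x ^ n → ∃ a : ℤ, a ≠ 0 ∧ |(a : ℝ)| ≤ Z ^ n * x ^ (n * (l + 3)) ∧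
        Loc q (n * g1) (n * g2) x y a := by
  obtain ⟨n0, Z, hZ, h⟩ := large hq hg hE
  choose W hW using fun m : ℕ => small (n := m + 2) hq (by omega) hE'
  have h0 : 0 ≤ ∑ m ∈ range n0, |W m| := sum_nonneg fun _ _ => abs_nonneg _
  refine ⟨Z + ∑ m ∈ range n0, |W m| + 1, by linarith, fun n x y hn hx hy he => ?_⟩
  have hx0 : (2 : ℝ) ≤ x := by linarith
  by_cases hn0 : n0 ≤ n
  · have hx1 : 2 ≤ x := by exact_mod_cast hx0
    have hx2 : x ^ n ≤ x ^ (n + 1) := pow_le_pow_right₀ (by omega) n.le_succ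
    obtain ⟨a, a1, a2, a3⟩ := h n x y 1 (x ^ n) hn0 (by linarith) le_rfl hy
      ((pow_le_of_eq hx1 hy he).trans hx2) dvd_rfl (by positivity) hx2 (by simpa using he)
    exact ⟨a, a1, a2.trans (by gcongr; linarith), fun R _ π hπ => by
      simpa using a3 R π 1 (by simp) hπ⟩
  · obtain ⟨m, rfl⟩ : ∃ m, n = m + 2 := ⟨n - 2, by omega⟩
    have h1 : W m ≤ Z + ∑ m ∈ range n0, |W m| + 1 := by
      have := single_le_sum (f := fun m => |W m|) (fun _ _ => abs_nonneg _)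
        (mem_range.2 (by omega : m < n0))
      linarith [le_abs_self (W m)]
    obtain ⟨a, a1, a2, a3⟩ := hW m x y (h1.trans hx) hy he
    refine ⟨a, a1, a2.trans (mul_le_mul (h1.trans ?_) (pow_le_pow_right₀ (by linarith)
      (Nat.mul_le_mul_left _ (by omega))) (by positivity) (by positivity)), a3⟩
    exact le_self_pow₀ (by linarith) (by omega)

theorem ineq_of_dvd {q L g1 g2 n : ℕ} (hq : 1 ≤ q) (hn : 1 ≤ n) {Z : ℝ} (hZ : 1 ≤ Z) {x a A B : ℤ}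
    (hx : q ^ (3 * (g1 + g2) + 1) * Z ≤ x) (c1 : a ≠ 0) (c2 : |(a : ℝ)| ≤ Z ^ n * x ^ (n * L))
    (hd : A ^ (n * g1) * B ^ (n * g2) ∣ (q : ℤ) ^ (3 * (n * g1 + n * g2) + 1) * a) :
    |(A : ℝ)| ^ g1 * |(B : ℝ)| ^ g2 ≤ x ^ (L + 1) := by
  have hq1 : (1 : ℝ) ≤ q := by exact_mod_cast hq
  have h1 := Int.le_of_dvd (abs_pos.2 (mul_ne_zero (pow_ne_zero _ (by omega)) c1))
    ((abs_dvd_abs _ _).2 hd)
  have h2 : (|(A : ℝ)| ^ g1 * |(B : ℝ)| ^ g2) ^ n ≤ q ^ (3 * (n * g1 + n * g2) + 1) * |(a : ℝ)| := by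
    have := (Int.cast_le (R := ℝ)).2 h1
    push_cast at this
    rw [abs_mul, abs_mul, abs_pow, abs_pow, abs_pow, Nat.abs_cast] at this
    exact le_of_eq_of_le (by ring) this
  have hx0 : (0 : ℝ) ≤ x := le_trans (by positivity) hx
  refine le_of_pow_le_pow_left₀ (by omega : n ≠ 0) (by positivity) (h2.trans ?_)
  calc _ ≤ (q : ℝ) ^ ((3 * (g1 + g2) + 1) * n) * (Z ^ n * x ^ (n * L)) := by
        refine mul_le_mul (pow_le_pow_right₀ hq1 ?_) c2 (abs_nonneg _) (by positivity)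
        have : (3 * (g1 + g2) + 1) * n = 3 * (n * g1 + n * g2) + n := by ring
        omega
    _ = (q ^ (3 * (g1 + g2) + 1) * Z * x ^ L) ^ n := by ring
    _ ≤ _ := by
        refine pow_le_pow_left₀ (by positivity) ?_ n
        rw [pow_succ' (x : ℝ) L]
        exact mul_le_mul_of_nonneg_right hx (by positivity)

theorem gcd_ineq {q l g1 g2 : ℕ} (hq : 1 ≤ q) (hg : 1 ≤ g1)
    (hE : tri g1 + (q - 1) * tri g2 < q * tri l) (hE' : g1 + (q - 1) * g2 < q * (l + 1)) :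
    ∃ Z : ℝ, ∀ (n : ℕ) (x y A B : ℤ), 2 ≤ n → Z ≤ x → 1 ≤ y → (1 - x) * y ^ q = 1 - x ^ n →
      A ∣ x → A ∣ y - 1 → B ∣ x → B ∣ ∑ j ∈ range q, y ^ j →
      |(A : ℝ)| ^ g1 * |(B : ℝ)| ^ g2 ≤ x ^ (l + 4) := by
  obtain ⟨Z, hZ, h⟩ := both hq hg hE hE'
  have hq2 : (1 : ℝ) ≤ q ^ (3 * (g1 + g2) + 1) := one_le_pow₀ (by exact_mod_cast hq)
  refine ⟨q ^ (3 * (g1 + g2) + 1) * Z, fun n x y A B hn hx hy he a1 a2 b1 b2 => ?_⟩
  obtain ⟨a, c1, c2, c3⟩ := h n x y hn (le_trans (by nlinarith) hx) hy he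
  refine ineq_of_dvd hq (by omega) hZ hx c1 c2 (dvd_of_padic fun p _ => ?_)
  push_cast
  exact loc_dvd (x := (x : ℤ_[p])) (y := y) (by exact_mod_cast Int.cast_dvd_cast _ _ a1)
    (by exact_mod_cast Int.cast_dvd_cast (α := ℤ_[p]) _ _ a2)
    (by exact_mod_cast Int.cast_dvd_cast _ _ b1)
    (by exact_mod_cast Int.cast_dvd_cast (α := ℤ_[p]) _ _ b2) (c3 _)

theorem int_eq {q x y n : ℕ} (hq : 1 ≤ q) (hn : 1 ≤ n) (he : ∑ i ∈ range n, x ^ i = y ^ q) :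
    1 ≤ y ∧ (1 - x : ℤ) * y ^ q = 1 - x ^ n := by
  constructor
  · rcases y with _ | y
    · obtain ⟨m, rfl⟩ : ∃ m, n = m + 1 := ⟨n - 1, by omega⟩
      rw [zero_pow (by omega), sum_range_succ'] at he
      simp at he
    · omega
  · have := congrArg (Nat.cast : ℕ → ℤ) he
    push_cast at this
    rw [← this, mul_neg_geom_sum]

theorem log_ineq {q M g1 g2 : ℕ} {κ : ℤ} (hq : 1 ≤ q) (hg : 1 ≤ g1)
    (h1 : (g1 : ℤ) = M + (q - 1) * κ) (h2 : (g2 : ℤ) = M - κ) (hM : q * κ ^ 2 ≤ M) :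
    ∃ C : ℕ, ∀ x y n : ℕ, C ≤ x → 2 ≤ n → ∑ i ∈ range n, x ^ i = y ^ q →
      q * κ * (Real.log (Nat.gcd x (y - 1)) / Real.log x) ≤ κ + 5 := by
  obtain ⟨s, rfl⟩ : ∃ s, q = s + 1 := ⟨q - 1, by omega⟩
  obtain ⟨Z, h⟩ := gcd_ineq (l := M + 1) (g2 := g2) hq hg (by
    have t1 := two_tri g1
    have t2 := two_tri g2
    have t3 := two_tri (M + 1)
    rw [Nat.add_sub_cancel]
    zify at *
    have : 2 * ((tri g1 : ℤ) + s * tri g2) < 2 * ((s + 1) * tri (M + 1)) := by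
      rw [mul_add, mul_left_comm, mul_left_comm 2, t1, t2, t3, h1, h2]
      nlinarith [mul_le_mul_of_nonneg_left hM (by positivity : (0 : ℤ) ≤ s + 1), sq_nonneg κ]
    linarith) (by
    rw [Nat.add_sub_cancel]
    zify at *
    rw [h1, h2]
    nlinarith)
  refine ⟨⌈Z⌉₊ + 2, fun x y n hx hn he => ?_⟩
  obtain ⟨hy, he'⟩ := int_eq hq (by omega) he
  have hy1 : ((y - 1 : ℕ) : ℤ) = y - 1 := by omega
  set B := Nat.gcd x (∑ j ∈ range (s + 1), y ^ j)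
  set A := Nat.gcd x (y - 1)
  have k1 := h n x y A B hn (by
      have := Nat.le_ceil Z
      have : ((⌈Z⌉₊ + 2 : ℕ) : ℝ) ≤ x := by exact_mod_cast hx
      push_cast at *
      linarith) (by exact_mod_cast hy) he' (by exact_mod_cast Nat.gcd_dvd_left _ _)
    (by rw [← hy1]; exact_mod_cast Nat.gcd_dvd_right _ _) (by exact_mod_cast Nat.gcd_dvd_left _ _)
    (by exact_mod_cast Nat.gcd_dvd_right _ _)
  have k2 : x ∣ A * B := by
    rw [Nat.dvd_gcd_mul_gcd_iff_dvd_mul, ← Int.natCast_dvd_natCast]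
    push_cast [hy1]
    obtain ⟨m, rfl⟩ : ∃ m, n = m + 1 := ⟨n - 1, by omega⟩
    exact ⟨y ^ (s + 1) - x ^ m, by rw [mul_geom_sum]; linear_combination he'⟩
  have hA : (0 : ℝ) < A := by exact_mod_cast Nat.gcd_pos_of_pos_left _ (by omega)
  have hB : (0 : ℝ) < B := by exact_mod_cast Nat.gcd_pos_of_pos_left _ (by omega)
  have hx1 : (1 : ℝ) < x := by exact_mod_cast (by omega : 1 < x)
  have k3 : Real.log x ≤ Real.log A + Real.log B := by
    rw [← Real.log_mul hA.ne' hB.ne']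
    exact Real.log_le_log (by linarith) (by
      exact_mod_cast Nat.le_of_dvd (by exact_mod_cast mul_pos hA hB) k2)
  simp only [Int.cast_natCast, Nat.abs_cast] at k1
  have k4 := Real.log_le_log (by positivity) k1
  rw [Real.log_mul (by positivity) (by positivity), Real.log_pow, Real.log_pow, Real.log_pow] at k4
  have e1 : (g1 : ℝ) = M + s * κ := by exact_mod_cast (by simpa using h1)
  have e2 : (g2 : ℝ) = M - κ := by exact_mod_cast h2
  have k5 := mul_le_mul_of_nonneg_left k3 (Nat.cast_nonneg (α := ℝ) g2)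
  rw [← mul_div_assoc, div_le_iff₀ (Real.log_pos hx1)]
  rw [e1, e2] at k4
  rw [e2] at k5
  push_cast at *
  linarith

theorem gcd_exponent (q : ℕ) (hq : 2 ≤ q) (ε : ℝ) (hε : 0 < ε) : ∃ C : ℕ, ∀ x y n : ℕ, C ≤ x →
    2 ≤ n → ∑ i ∈ range n, x ^ i = y ^ q →
      |Real.log (Nat.gcd x (y - 1)) / Real.log x - 1 / q| ≤ ε := by
  obtain ⟨K, hK⟩ := exists_nat_gt (5 / ε)
  have hK0 : 0 < K := by exact_mod_cast (div_pos (by norm_num) hε).trans hK
  have hK1 : q * K ≤ q * K ^ 2 := Nat.mul_le_mul_left q (Nat.le_self_pow two_ne_zero K)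
  obtain ⟨s, rfl⟩ : ∃ s, q = s + 1 := ⟨q - 1, by omega⟩
  obtain ⟨d, hd⟩ := Nat.exists_eq_add_of_le hK1
  obtain ⟨C1, h1⟩ := log_ineq (q := s + 1) (M := (s + 1) * K ^ 2) (g1 := (s + 1) * K ^ 2 + s * K)
    (g2 := s * K + d) (κ := K) (by omega) (by nlinarith) (by push_cast; ring)
    (by rw [hd]; push_cast; ring) (by simp)
  obtain ⟨C2, h2⟩ := log_ineq (q := s + 1) (M := (s + 1) * K ^ 2) (g1 := K + d)
    (g2 := (s + 1) * K ^ 2 + K) (κ := -K) (by omega) (by omega) (by rw [hd]; push_cast; ring)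
    (by push_cast; ring) (by simp)
  refine ⟨C1 + C2, fun x y n hx hn he => ?_⟩
  have k1 := h1 x y n (by omega) hn he
  have k2 := h2 x y n (by omega) hn he
  generalize Real.log (Nat.gcd x (y - 1)) / Real.log x = θ at *
  push_cast at *
  have hs : (0 : ℝ) ≤ s := by positivity
  have hKp : (0 : ℝ) < K := by positivity
  rw [div_lt_iff₀ hε] at hK
  have e : θ - 1 / (s + 1) = ((s + 1) * K * θ - K) / ((s + 1) * K) := by field_simp
  rw [e, abs_div, abs_of_pos (by positivity : (0 : ℝ) < (s + 1) * K), div_le_iff₀ (by positivity),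
    abs_le]
  constructor <;> nlinarith [mul_nonneg hs (mul_pos hKp hε).le]

/-- two solutions with the same base -/
theorem pair {q : ℕ} (hq : 2 ≤ q) : ∃ (n0 : ℕ) (Z : ℝ), ∀ (n : ℕ) (x y v U : ℤ), n0 ≤ n → Z ≤ x →
    1 ≤ v → v ≤ y → y ^ q ≤ x ^ (n + 1) → x ^ n ∣ U → 0 < U → U ≤ x ^ (n + 1) →
    (1 - x) * y ^ q = (1 - U) * v ^ q → IsCoprime v x → ¬ x ∣ q * (y - v) := by
  have hq' : 1 ≤ q := by omega
  obtain ⟨n0, Z, hZ, h⟩ := large (l := 12) (g1 := 17) (g2 := 0) hq' (by omega) (by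
    have := two_tri 17
    have := two_tri 0
    have := two_tri 12
    have : tri 0 = 0 := by omega
    rw [this]
    nlinarith)
  have hq1 : (1 : ℝ) ≤ q := by exact_mod_cast hq'
  have hq2 : (1 : ℝ) ≤ q ^ (3 * (17 + 0) + 1) := one_le_pow₀ hq1
  refine ⟨n0 + 1, q ^ (3 * (17 + 0) + 1) * Z + 1,
    fun n x y v U hn hx hv hy b1 b2 b3 b4 he hc hd => ?_⟩
  obtain ⟨a, c1, c2, c3⟩ := h n x y v U (by omega) (le_trans (by nlinarith) hx) hv hy b1 b2 b3 b4 he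
  have hx0 : (1 : ℝ) < x := by nlinarith
  have hx1 : 0 < x := by exact_mod_cast zero_lt_one.trans hx0
  have k := ineq_of_dvd (A := Int.gcd x (y - v)) (B := 1) (g1 := 17) (g2 := 0) hq' (by omega) hZ
    (by linarith) c1 c2 (dvd_of_padic fun p _ => ?_)
  · have k1 : x ∣ q * Int.gcd x (y - v) := by
      have := Int.dvd_coe_gcd (dvd_mul_left x q) hd
      rwa [Int.gcd_mul_left, Int.natAbs_natCast, Nat.cast_mul] at this
    have k2 : (x : ℝ) ≤ q * Int.gcd x (y - v) := by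
      exact_mod_cast Int.le_of_dvd (mul_pos (by omega)
        (by exact_mod_cast Int.gcd_pos_of_ne_zero_left _ hx1.ne')) k1
    rw [pow_zero, mul_one, Int.cast_natCast, Nat.abs_cast] at k
    have k3 : (x : ℝ) ^ 16 * x ≤ x ^ 16 * q ^ 17 := by
      rw [← pow_succ, mul_comm]
      exact (pow_le_pow_left₀ (by linarith) k2 17).trans (by rw [mul_pow]; gcongr)
    have k4 := le_of_mul_le_mul_left k3 (by positivity)
    have k5 : (q : ℝ) ^ 17 ≤ q ^ (3 * (17 + 0) + 1) := pow_le_pow_right₀ hq1 (by norm_num)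
    nlinarith
  · have d1 : ((Int.gcd x (y - v) : ℤ) : ℤ_[p]) ∣ x := Int.cast_dvd_cast _ _ (Int.gcd_dvd_left ..)
    have d2 : ((Int.gcd x (y - v) : ℤ) : ℤ_[p]) ∣ y - v := by
      exact_mod_cast Int.cast_dvd_cast (α := ℤ_[p]) _ _ (Int.gcd_dvd_right x (y - v))
    push_cast at d1 d2 ⊢
    obtain ⟨s, t, hst⟩ := hc.intCast (R := ℤ_[p])
    rcases IsLocalRing.isUnit_or_isUnit_of_add_one hst with hu | hu
    · obtain ⟨w, hw⟩ := (isUnit_of_mul_isUnit_right hu).exists_right_inv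
      refine loc_dvd (y := y * w) d1 ?_ (one_dvd _) (one_dvd _) fun π => c3 _ π w hw
      rw [← hw, ← sub_mul]
      exact d2.mul_right _
    · exact (((isUnit_of_dvd_unit d1 (isUnit_of_mul_isUnit_right hu)).pow _).mul
        (isUnit_one.pow _)).dvd

theorem fixed_class {q x : ℕ} (hq : 2 ≤ q) (hx : 2 ≤ x) (c : ℕ) :
    {n : ℕ | ∃ y : ℕ, ∑ i ∈ range n, x ^ i = y ^ q ∧ y % (q * x) = c}.Finite := by
  obtain ⟨n0, Z, h⟩ := pair hq
  by_contra hI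
  obtain ⟨m, ⟨v, hv, hv'⟩, hm⟩ := Set.Infinite.exists_gt hI ⌈Z⌉₊
  obtain ⟨k, ⟨y, hy, hy'⟩, hk⟩ := Set.Infinite.exists_gt hI (m * (n0 + 1))
  have hm0 : 0 < m := by omega
  have hmk : m ≤ k := by nlinarith
  obtain ⟨v1, v2⟩ := int_eq (by omega) (by omega) hv
  obtain ⟨y1, y2⟩ := int_eq (by omega) (by omega) hy
  have hx2 : (2 : ℤ) ≤ x := by exact_mod_cast hx
  have hU : (x : ℤ) ^ k ≤ (x ^ m) ^ (k / m + 1) := by
    rw [← pow_mul]
    exact pow_le_pow_right₀ (by omega) (Nat.lt_mul_div_succ k hm0).le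
  obtain ⟨s, rfl⟩ : ∃ s, q = s + 1 := ⟨q - 1, by omega⟩
  have hc : IsCoprime (v : ℤ) (x ^ m) := ⟨(1 - x) * v ^ s, 1, by linear_combination v2⟩
  refine h (k / m) (x ^ m) y v (x ^ k) ((Nat.le_div_iff_mul_le hm0).2 (by nlinarith)) ?_
    (by exact_mod_cast v1) ?_ ((pow_le_of_eq hx2 (by exact_mod_cast y1) y2).trans hU) ?_
    (by positivity) hU (by rw [← v2, ← y2]; ring) hc ?_
  · push_cast
    exact ((Nat.le_ceil Z).trans (by exact_mod_cast hm.le)).trans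
      (nat_le_pow' (by exact_mod_cast hx) m)
  · have : v ^ (s + 1) ≤ y ^ (s + 1) := by
      rw [← hv, ← hy]
      exact sum_le_sum_of_subset (range_mono hmk)
    exact_mod_cast (Nat.pow_le_pow_iff_left (by omega)).1 this
  · rw [← pow_mul]
    exact pow_dvd_pow _ (Nat.mul_div_le k m)
  · obtain ⟨t, ht⟩ := Nat.modEq_iff_dvd.1 (hv'.trans hy'.symm)
    obtain ⟨w, hw⟩ := powAddExpansion (v : ℤ) (y - v) (s + 1)
    have d1 : (x : ℤ) ^ m ∣ (1 - x) * (y ^ (s + 1) - v ^ (s + 1)) := by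
      rw [mul_sub, v2, y2]
      exact (dvd_sub dvd_rfl (pow_dvd_pow _ hmk)).trans (dvd_of_eq (by ring))
    have d2 := (show IsCoprime ((x : ℤ) ^ m) (1 - x) from
      ⟨1, v ^ (s + 1), by linear_combination v2⟩).dvd_of_dvd_mul_left d1
    have d3 : IsCoprime ((x : ℤ) ^ m) (v ^ s + x * (w * t)) :=
      ((IsCoprime.pow_left_iff hm0).1 hc.symm).pow_right.add_mul_left_right _ |>.pow_left
    refine d3.dvd_of_dvd_mul_left (d2.trans (dvd_of_eq ?_))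
    rw [add_sub_cancel, Nat.add_sub_cancel] at hw
    push_cast at *
    linear_combination hw + w * (y - v) * ht

theorem finite_unbalanced (q : ℕ) (hq : 2 ≤ q) (ε : ℝ) (hε : 0 < ε) :
    {s : ℕ × ℕ × ℕ | 2 ≤ s.1 ∧ 2 ≤ s.2.2 ∧ ∑ i ∈ range s.2.2, s.1 ^ i = s.2.1 ^ q ∧
      ε < |Real.log (Nat.gcd s.1 (s.2.1 - 1)) / Real.log s.1 - 1 / q|}.Finite := by
  obtain ⟨C, hC⟩ := gcd_exponent q hq ε hε
  have h1 : ∀ x, 2 ≤ x → {n : ℕ | ∃ y : ℕ, ∑ i ∈ range n, x ^ i = y ^ q}.Finite := fun x hx =>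
    ((Set.finite_Iio (q * x)).biUnion fun c _ => fixed_class hq hx c).subset fun n ⟨y, hy⟩ =>
      Set.mem_biUnion (Nat.mod_lt y (by positivity)) ⟨y, hy, rfl⟩
  refine Set.Finite.of_finite_image (f := fun s => (s.1, s.2.2))
    (((Set.finite_Ico 2 C).biUnion fun x hx => (Set.finite_singleton x).prod (h1 x hx.1)).subset ?_) ?_
  · rintro _ ⟨⟨x, y, n⟩, ⟨a1, a2, a3, a4⟩, rfl⟩
    exact Set.mem_biUnion ⟨a1, not_le.1 fun h => not_le.2 a4 (hC x y n h a2 a3)⟩ ⟨rfl, y, a3⟩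
  · rintro ⟨x, y, n⟩ ⟨-, -, a3, -⟩ ⟨x', y', n'⟩ ⟨-, -, b3, -⟩ h
    obtain ⟨rfl, rfl⟩ := Prod.mk.inj h
    obtain rfl : y = y' := Nat.pow_left_injective (by omega) (a3.symm.trans b3)
    rfl

end Pool.Agent.P.MP_71e30e_nt
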