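import Pool.Agent.P.MP_71e30e_nt.CG3
import Pool.Agent.P.MP_71e30e_nt.CS2
import Pool.Agent.P.MP_71e30e_nt.GMain

set_option autoImplicit false

/-! From multiplicative relations to a bound for the base. -/

namespace Pool.Agent.P.MP_71e30e_nt.Comp

open Finset Filter

/-- a product of powers of the numbers `x ^ n i - 1` of degree divisible by `q` is a power -/
def Rel {ι : Type} [Fintype ι] (q x : ℕ) (n : ι → ℕ) : Prop :=
  ∃ (a : ι → ℕ) (u : ℕ), ∑ i, a i ≤ 8 * q ∧ (∃ i, ¬ q ∣ a i) ∧ q ∣ ∑ i, n i * a i ∧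
    ∏ i, (x ^ n i - 1) ^ a i = u ^ q

theorem bd_mono {A A' q x : ℕ} (hq : 1 ≤ q) (h : x < (A * q) ^ A) (hA : A ≤ A') :
    x < ((A' + 1) * q) ^ (A' + 1) :=
  h.trans_le ((Nat.pow_le_pow_left (Nat.mul_le_mul_right _ (by omega)) _).trans
    (Nat.pow_le_pow_right (Nat.mul_pos (by omega) hq) (by omega)))

theorem wrap (C : ℕ) (hC : 1 ≤ C) : ∃ Λ A : ℕ, 1 ≤ Λ ∧ ∀ (ι : Type) [Fintype ι] (q x : ℕ)
    (n : ι → ℕ) (k : ι → Fin 4) (c : ι → ℕ) (g : Fin 4 → ℕ), 1 ≤ q → 1 ≤ x → Rel q x n →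
    Function.Injective n → (∀ i, n i = g (k i) * c i ∧ 1 ≤ c i ∧ c i ≤ C) → 1 ≤ g 3 →
    Λ * g 3 ≤ g 2 → Λ * g 2 ≤ g 1 → Λ * g 1 ≤ g 0 → x < (A * q) ^ A := by
  obtain ⟨Λ, A, h⟩ := multi_runge (8 * C) (by omega)
  refine ⟨Λ + 1, A, by omega, fun ι _ q x n k c g hq hx ⟨a, u, h1, h2, ⟨κ, h3⟩, h4⟩ hn hc g3 g2 g1
    g0 => ?_⟩
  rw [add_one_mul] at g2 g1 g0
  have hg : ∀ h, 1 ≤ g h ∧ g h ≤ g 0 := fun h => by
    fin_cases h <;> simp <;> omega
  have l1 := Nat.mul_le_mul_left Λ (by omega : g 3 ≤ g 2)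
  have l2 := Nat.mul_le_mul_left Λ (by omega : g 2 ≤ g 1)
  refine h ι k c a g q x u κ hq (fun i => ⟨(hc i).2.1, by have := (hc i).2.2; omega⟩)
    (h1.trans (Nat.mul_le_mul_right _ (by omega))) (fun i j e1 e2 => hn (by
      rw [(hc i).1, (hc j).1, e1, e2])) h2 (fun h => (hg h).1) (fun h h' hh => ?_) ?_ ?_
  · fin_cases h <;> fin_cases h' <;> simp at hh ⊢ <;> omega
  · refine Nat.le_of_mul_le_mul_left ?_ hq
    rw [← h3]
    refine (sum_le_sum (g := fun i => g 0 * C * a i) fun i _ => Nat.mul_le_mul_right _ ?_).trans ?_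
    · rw [(hc i).1]
      exact Nat.mul_le_mul (hg _).2 (hc i).2.2
    · rw [← mul_sum]
      exact (Nat.mul_le_mul_left _ h1).trans (le_of_eq (by ring))
  · have hx0 : (x : ℚ) ≠ 0 := by positivity
    have h5 := congrArg (Nat.cast : ℕ → ℚ) h4
    simp only [Nat.cast_prod, Nat.cast_pow, Nat.cast_sub (Nat.one_le_pow _ _ hx), Nat.cast_one] at h5
    rw [div_pow, ← h5, ← pow_mul, mul_comm κ, ← h3, ← prod_pow_eq_pow_sum, ← prod_div_distrib]
    refine prod_congr rfl fun i _ => ?_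
    rw [← (hc i).1, pow_mul, ← div_pow, sub_div, div_self (pow_ne_zero _ hx0)]

theorem three_scales : ∃ A : ℕ, ∀ q x m l : ℕ, 1 ≤ q → 1 ≤ x → 2 ≤ m → 2 ≤ l →
    Rel q x ![1, m, m * l] → x < (A * q) ^ A := by
  obtain ⟨L1, A1, p1, h1⟩ := wrap 1 le_rfl
  obtain ⟨L2, A2, p2, h2⟩ := wrap L1 p1
  obtain ⟨L3, A3, p3, h3⟩ := wrap ((L1 + L2) * (L1 + L2)) (Nat.mul_pos (by omega) (by omega))
  refine ⟨A1 + A2 + A3 + 1, fun q x m l hq hx hm hl h => ?_⟩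
  have hml : m < m * l := by nlinarith
  have hml' : l ≤ m * l := Nat.le_mul_of_pos_left _ (by omega)
  have hi : Function.Injective ![1, m, m * l] := by
    intro i j e
    fin_cases i <;> fin_cases j <;> simp at e ⊢ <;> omega
  by_cases c1 : L1 ≤ m ∧ L1 ≤ l
  · refine bd_mono hq (h1 _ q x _ ![3, 2, 1] 1 ![L1 * (m * l), m * l, m, 1] hq hx h hi
      (fun i => by fin_cases i <;> simp) (by simp) (by simpa using c1.1) ?_ (by simp)) (by omega)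
    simpa [mul_comm] using Nat.mul_le_mul_left m c1.2
  by_cases c2 : m ≤ L1 ∧ L2 ≤ l
  · exact bd_mono hq (h2 _ q x _ ![3, 3, 2] ![1, m, 1]
      ![L2 * (L2 * (m * l)), L2 * (m * l), m * l, 1] hq hx h hi
      (fun i => by fin_cases i <;> simp <;> omega) (by simp) (by simp; omega) (by simp) (by simp))
      (by omega)
  by_cases c3 : l ≤ L1 ∧ L2 ≤ m
  · exact bd_mono hq (h2 _ q x _ ![3, 2, 2] ![1, 1, l] ![L2 * (L2 * m), L2 * m, m, 1] hq hx h hi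
      (fun i => by fin_cases i <;> simp <;> omega) (by simp) (by simp; omega) (by simp) (by simp))
      (by omega)
  have c4 := Nat.mul_le_mul (by omega : m ≤ L1 + L2) (by omega : l ≤ L1 + L2)
  exact bd_mono hq (h3 _ q x _ 3 ![1, m, m * l] ![L3 * (L3 * L3), L3 * L3, L3, 1] hq hx h hi
    (fun i => by fin_cases i <;> simp <;> omega) (by simp) (by simp) (by simp) (by simp)) (by omega)

theorem four_scales : ∃ A : ℕ, ∀ q x p : ℕ, 1 ≤ q → 1 ≤ x → 2 ≤ p →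
    Rel q x ![1, p, p * p, p * p * p] → x < (A * q) ^ A := by
  obtain ⟨L1, A1, p1, h1⟩ := wrap 1 le_rfl
  obtain ⟨L2, A2, p2, h2⟩ := wrap (L1 * L1 * L1) (Nat.mul_pos (Nat.mul_pos p1 p1) p1)
  refine ⟨A1 + A2 + 1, fun q x p hq hx hp h => ?_⟩
  have a1 : p < p * p := by nlinarith
  have a2 : p * p < p * p * p := by nlinarith
  have hi : Function.Injective ![1, p, p * p, p * p * p] := by
    intro i j e
    fin_cases i <;> fin_cases j <;> simp at e ⊢ <;> omega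
  by_cases c1 : L1 ≤ p
  · refine bd_mono hq (h1 _ q x _ ![3, 2, 1, 0] 1 ![p * p * p, p * p, p, 1] hq hx h hi
      (fun i => by fin_cases i <;> simp) (by simp) (by simpa using c1) ?_ ?_) (by omega)
    · simpa using Nat.mul_le_mul_right p c1
    · simpa [mul_comm] using Nat.mul_le_mul_left (p * p) c1
  have c2 := Nat.mul_le_mul (Nat.mul_le_mul (not_le.1 c1).le (not_le.1 c1).le) (not_le.1 c1).le
  exact bd_mono hq (h2 _ q x _ 3 ![1, p, p * p, p * p * p] ![L2 * (L2 * L2), L2 * L2, L2, 1] hq hx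
    h hi (fun i => by fin_cases i <;> simp <;> omega) (by simp) (by simp) (by simp) (by simp))
    (by omega)

theorem pow_sub_one_eq {x : ℕ} (hx : 1 ≤ x) (n : ℕ) :
    x ^ n - 1 = (x - 1) * ∑ i ∈ range n, x ^ i := by
  obtain ⟨w, rfl⟩ : ∃ w, x = w + 1 := ⟨x - 1, by omega⟩
  rw [← geom_sum_mul_add w n, Nat.add_sub_cancel, Nat.add_sub_cancel, mul_comm]

theorem exists_beta {q : ℕ} (hq : 2 ≤ q) (s t : Fin 3 → ℕ) : ∃ β : Fin 3 → ℕ, (∀ i, β i < q) ∧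
    (∃ i, β i ≠ 0) ∧ q ∣ ∑ i, β i * s i ∧ q ∣ ∑ i, β i * t i := by
  have : NeZero q := ⟨by omega⟩
  obtain ⟨b, b', hne, he⟩ := Fintype.exists_ne_map_eq_of_card_lt
    (fun b : Fin 3 → ZMod q => (∑ i, b i * s i, ∑ i, b i * t i)) (by
      simp only [Fintype.card_prod, ZMod.card, Fintype.card_fun, Fintype.card_fin]
      nlinarith [Nat.mul_pos (by omega : 0 < q) (by omega : 0 < q)])
  obtain ⟨h1, h2⟩ := Prod.mk.inj he
  refine ⟨fun i => (b i - b' i).val, fun i => ZMod.val_lt _, ?_, ?_, ?_⟩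
  · obtain ⟨i, hi⟩ := Function.ne_iff.1 hne
    exact ⟨i, fun h => hi (sub_eq_zero.1 ((ZMod.val_eq_zero _).1 h))⟩
  · rw [← ZMod.natCast_eq_zero_iff]
    simp [sub_mul, h1]
  · rw [← ZMod.natCast_eq_zero_iff]
    simp [sub_mul, h2]

theorem rel_three {q x m l b0 b1 v : ℕ} (hx : 1 ≤ x) (hm : 1 ≤ m) (hl : 1 ≤ l) (h0 : b0 < q)
    (h1 : b1 < q) (h2 : b0 ≠ 0 ∨ b1 ≠ 0) (h3 : q ∣ b0 * (m - 1) + b1 * (m * (l - 1)))
    (h4 : (∑ i ∈ range m, x ^ i) ^ b0 * (∑ i ∈ range l, (x ^ m) ^ i) ^ b1 = v ^ q) :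
    Rel q x ![1, m, m * l] := by
  obtain ⟨c0, e0⟩ := Nat.exists_eq_add_of_le h0.le
  obtain ⟨c1, e1⟩ := Nat.exists_eq_add_of_le h1.le
  refine ⟨![c0, b0 + c1, b1], (x - 1) * (x ^ m - 1) * v, by simp [Fin.sum_univ_succ]; omega,
    ?_, ?_, ?_⟩
  · by_cases h : b1 = 0
    · exact ⟨0, Nat.not_dvd_of_pos_of_lt (by simp; omega) (by simp; omega)⟩
    · exact ⟨2, Nat.not_dvd_of_pos_of_lt (by simp; omega) (by simpa using h1)⟩
  · obtain ⟨m, rfl⟩ : ∃ k, m = k + 1 := ⟨m - 1, by omega⟩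
    obtain ⟨l, rfl⟩ : ∃ k, l = k + 1 := ⟨l - 1, by omega⟩
    refine (dvd_add (dvd_add dvd_rfl (dvd_mul_left q (m + 1))) h3).trans (dvd_of_eq ?_)
    simp only [Fin.sum_univ_succ, Nat.add_sub_cancel]
    simp
    nth_rw 1 [e0, e1]
    ring
  · simp only [Fin.prod_univ_succ]
    simp
    rw [pow_mul, pow_sub_one_eq (Nat.one_le_pow _ _ hx) l, mul_pow, mul_pow, mul_pow, ← h4, pow_add]
    nth_rw 1 [pow_sub_one_eq hx m]
    nth_rw 1 [e0, e1]
    ring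

theorem rel_four {q x p : ℕ} (hq : 2 ≤ q) (hx : 1 ≤ x) (hp : 1 ≤ p) (t z : ℕ → ℕ)
    (h : ∀ j < 3, ∑ i ∈ range p, (x ^ p ^ j) ^ i = p ^ t j * z j ^ q) :
    Rel q x ![1, p, p * p, p * p * p] := by
  obtain ⟨β, h0, h1, h2, ⟨w, h3⟩⟩ := exists_beta hq ![p - 1, p * (p - 1), p * p * (p - 1)]
    ![t 0, t 1, t 2]
  obtain ⟨c0, e0⟩ := Nat.exists_eq_add_of_le (h0 0).le
  obtain ⟨c1, e1⟩ := Nat.exists_eq_add_of_le (h0 1).le
  obtain ⟨c2, e2⟩ := Nat.exists_eq_add_of_le (h0 2).le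
  refine ⟨![c0, β 0 + c1, β 1 + c2, β 2], (x - 1) * (x ^ p - 1) * (x ^ (p * p) - 1) *
    (p ^ w * z 0 ^ β 0 * z 1 ^ β 1 * z 2 ^ β 2), by simp [Fin.sum_univ_succ]; omega, ?_, ?_, ?_⟩
  · by_cases a2 : β 2 = 0
    · by_cases a1 : β 1 = 0
      · obtain ⟨i, hi⟩ := h1
        have a0 : β 0 ≠ 0 := by
          fin_cases i
          exacts [hi, absurd a1 hi, absurd a2 hi]
        exact ⟨0, Nat.not_dvd_of_pos_of_lt (by have := h0 0; simp; omega) (by simp; omega)⟩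
      · refine ⟨2, fun hd => Nat.not_dvd_of_pos_of_lt (Nat.pos_of_ne_zero a1) (h0 1) ?_⟩
        have : c2 = q := by omega
        simpa [this] using hd
    · exact ⟨3, Nat.not_dvd_of_pos_of_lt (by simp; omega) (by simpa using h0 2)⟩
  · obtain ⟨p, rfl⟩ : ∃ k, p = k + 1 := ⟨p - 1, by omega⟩
    refine (dvd_add (dvd_add (dvd_add dvd_rfl (dvd_mul_left q (p + 1)))
      (dvd_mul_left q ((p + 1) * (p + 1)))) h2).trans (dvd_of_eq ?_)
    simp only [Fin.sum_univ_succ, Nat.add_sub_cancel]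
    simp
    nth_rw 1 [e0, e1, e2]
    ring
  · have r0 := h 0 (by norm_num)
    have r1 := h 1 (by norm_num)
    have r2 := h 2 (by norm_num)
    rw [pow_zero, pow_one] at r0
    rw [pow_one] at r1
    rw [sq] at r2
    have s0 := pow_sub_one_eq hx p
    have s1 := pow_sub_one_eq (Nat.one_le_pow p _ hx) p
    have s2 := pow_sub_one_eq (Nat.one_le_pow (p * p) _ hx) p
    rw [r0] at s0
    rw [r1, ← pow_mul] at s1
    rw [r2, ← pow_mul] at s2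
    simp only [Fin.sum_univ_succ] at h3
    simp at h3
    have s3 : (p ^ w) ^ q = (p ^ t 0) ^ β 0 * (p ^ t 1) ^ β 1 * (p ^ t 2) ^ β 2 := by
      rw [← pow_mul, mul_comm w, ← h3]
      ring
    simp only [Fin.prod_univ_succ]
    simp
    rw [s2, pow_add, pow_add, mul_pow, mul_pow, mul_pow, mul_pow, mul_pow, mul_pow, mul_pow,
      mul_pow, s3]
    nth_rw 1 [s0, s1]
    generalize x ^ (p * p) - 1 = X2
    generalize x ^ p - 1 = X1
    generalize x - 1 = X0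
    have k0 : X0 ^ q = X0 ^ β 0 * X0 ^ c0 := by rw [← pow_add, ← e0]
    have k1 : X1 ^ q = X1 ^ β 1 * X1 ^ c1 := by rw [← pow_add, ← e1]
    have k2 : X2 ^ q = X2 ^ β 2 * X2 ^ c2 := by rw [← pow_add, ← e2]
    rw [k0, k1, k2]
    ring

end Pool.Agent.P.MP_71e30e_nt.Comp
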