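import Pool.Agent.P.MP_71e30e_nt.CN

set_option autoImplicit false

/-! A zero estimate at two points and a tail estimate for lacunary polynomials. -/

namespace Pool.Agent.P.MP_71e30e_nt.Comp

open Polynomial Finset

/-- the Euler operator -/
noncomputable def eul (f : ℝ[X]) : ℝ[X] := X * derivative f

/-- the Euler operator on a residue class -/
noncomputable def eulc (q l : ℕ) (R : ℝ[X]) : ℝ[X] := C (l : ℝ) * R + C (q : ℝ) * (X * derivative R)

theorem eul_class {q : ℕ} (hq : 1 ≤ q) (l i : ℕ) (R : ℝ[X]) :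
    eul^[i] (X ^ l * expand ℝ q R) = X ^ l * expand ℝ q ((eulc q l)^[i] R) := by
  induction i with
  | zero => rfl
  | succ i ih =>
    obtain ⟨p, rfl⟩ : ∃ p, q = p + 1 := ⟨q - 1, by omega⟩
    rw [Function.iterate_succ_apply', Function.iterate_succ_apply', ih, eul, eulc, derivative_mul,
      derivative_expand]
    simp only [map_add, map_mul, expand_X, map_natCast, Nat.add_sub_cancel]
    rcases l with _ | l
    · simp
      ring
    · rw [derivative_X_pow_succ]
      simp only [map_add, map_natCast, map_one]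
      push_cast
      ring

theorem eulc_deg (q l i : ℕ) {R : ℝ[X]} {D : ℕ} (h : R.natDegree ≤ D) :
    ((eulc q l)^[i] R).natDegree ≤ D := by
  induction i with
  | zero => exact h
  | succ i ih =>
    rw [Function.iterate_succ_apply', natDegree_le_iff_coeff_eq_zero]
    intro j hj
    obtain ⟨j, rfl⟩ : ∃ k, j = k + 1 := ⟨j - 1, by omega⟩
    simp [eulc, coeff_derivative, coeff_eq_zero_of_natDegree_lt (ih.trans_lt hj)]

theorem eulc_zero (q l i : ℕ) (R : ℝ[X]) : ((eulc q l)^[i] R).eval 0 = l ^ i * R.eval 0 := by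
  induction i with
  | zero => simp
  | succ i ih =>
    rw [Function.iterate_succ_apply', eulc]
    simp [ih]
    ring

theorem eul_dvd {β : ℝ} {T : ℕ} {f : ℝ[X]} (h : (X - C β) ^ T ∣ f) (i : ℕ) :
    (X - C β) ^ (T - i) ∣ eul^[i] f := by
  induction i with
  | zero => exact h
  | succ i ih =>
    rw [Function.iterate_succ_apply', ← Nat.sub_sub]
    exact (pow_sub_one_dvd_derivative_of_pow_dvd ih).mul_left _

theorem eul_sum {ι : Type} (s : Finset ι) (c : ι → ℝ) (f : ι → ℝ[X]) (i : ℕ) :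
    eul^[i] (∑ k ∈ s, C (c k) * f k) = ∑ k ∈ s, C (c k) * eul^[i] (f k) := by
  induction i with
  | zero => rfl
  | succ i ih =>
    simp only [Function.iterate_succ_apply', ih, eul, derivative_sum, derivative_C_mul, mul_sum]
    exact sum_congr rfl fun k _ => by ring

theorem dvd_of_expand {q : ℕ} (hq : 1 ≤ q) {β : ℝ} (hβ : β ≠ 0) {t E : ℕ} {W : ℝ[X]} (hW : W ≠ 0)
    (h : (X - C β) ^ t ∣ X ^ E * expand ℝ q W) : (X - C (β ^ q)) ^ t ∣ W := by
  obtain ⟨R, h1, h2⟩ := exists_eq_pow_rootMultiplicity_mul_and_not_dvd W hW (β ^ q)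
  rw [← le_rootMultiplicity_iff hW]
  generalize rootMultiplicity (β ^ q) W = μ at *
  by_contra! hlt
  have e := (Commute.all (X : ℝ[X]) (C β)).mul_geom_sum₂ q
  have h3 := (pow_dvd_pow _ hlt).trans h
  rw [h1, map_mul, map_pow, map_sub, expand_X, expand_C, map_pow, ← e, mul_pow, mul_assoc,
    mul_left_comm, Nat.succ_eq_add_one, pow_succ,
    mul_dvd_mul_iff_left (pow_ne_zero _ (X_sub_C_ne_zero β)), dvd_iff_isRoot, IsRoot.def] at h3
  rw [dvd_iff_isRoot, IsRoot.def] at h2
  simp only [eval_mul, eval_pow, eval_X, expand_eval, eval_finsetSum, eval_C, geom_sum₂_self] at h3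
  exact mul_ne_zero (pow_ne_zero _ hβ) (mul_ne_zero (pow_ne_zero _ (mul_ne_zero
    (by exact_mod_cast (by omega : q ≠ 0)) (pow_ne_zero _ hβ))) h2) h3

theorem zero_core {q m D : ℕ} (hq : 1 ≤ q) (hm : 0 < m) (l : Fin m → ℕ)
    (hl : Function.Injective l) (R : Fin m → ℝ[X]) (h0 : ∀ k, (R k).eval 0 ≠ 0)
    (hD : ∀ k, (R k).natDegree ≤ D) : ∃ W : ℝ[X], W ≠ 0 ∧ W.natDegree ≤ m * D ∧
      ∀ (c : Fin m → ℝ) (β : ℝ) (T : ℕ), (∀ k, c k ≠ 0) → β ≠ 0 →
        (X - C β) ^ T ∣ ∑ k, C (c k) * (X ^ l k * expand ℝ q (R k)) →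
        (X - C (β ^ q)) ^ (T - m) ∣ W := by
  set A : Matrix (Fin m) (Fin m) ℝ[X] := Matrix.of fun i k => (eulc q (l k))^[i] (R k) with hA
  have hW : A.det ≠ 0 := by
    intro h
    have h1 := congrArg (evalRingHom 0) h
    have e : (evalRingHom 0).mapMatrix A = Matrix.of fun i k => (R k).eval 0 *
        (Matrix.vandermonde fun k => (l k : ℝ)).transpose i k := by
      ext i k
      simp [hA, eulc_zero, mul_comm]
    rw [RingHom.map_det, e, Matrix.det_mul_row, Matrix.det_transpose, map_zero] at h1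
    exact mul_ne_zero (prod_ne_zero_iff.2 fun k _ => h0 k)
      (Matrix.det_vandermonde_ne_zero_iff.2 (Nat.cast_injective.comp hl)) h1
  refine ⟨A.det, hW, ?_, fun c β T hc hβ h => ?_⟩
  · rw [Matrix.det_apply']
    refine natDegree_sum_le_of_forall_le _ _ fun π _ => natDegree_mul_le.trans ?_
    rw [natDegree_intCast, zero_add]
    refine (natDegree_prod_le _ _).trans ((sum_le_card_nsmul _ _ D fun i _ => ?_).trans (by simp))
    exact eulc_deg _ _ _ (hD i)
  · set B : Matrix (Fin m) (Fin m) ℝ[X] :=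
      Matrix.of fun i k => eul^[i] (X ^ l k * expand ℝ q (R k)) with hB
    have e : B.det = X ^ (∑ k, l k) * expand ℝ q A.det := by
      rw [AlgHom.map_det, ← prod_pow_eq_pow_sum, ← Matrix.det_mul_row]
      congr 1
      ext1 i k
      simp [hA, hB, eul_class hq]
    refine dvd_of_expand hq hβ hW (E := ∑ k, l k) ?_
    have h1 := congrFun (Matrix.mulVec_mulVec (fun k => C (c k)) B.adjugate B) ⟨0, hm⟩
    rw [Matrix.adjugate_mul, Matrix.smul_mulVec, Matrix.one_mulVec, Pi.smul_apply,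
      smul_eq_mul] at h1
    rw [← e, ← (isUnit_C.2 (hc ⟨0, hm⟩).isUnit).dvd_mul_right, ← h1]
    rw [Matrix.mulVec, dotProduct]
    refine dvd_sum fun i _ => Dvd.dvd.mul_left ?_ _
    have h2 := (pow_dvd_pow _ (Nat.sub_le_sub_left i.2.le T)).trans (eul_dvd h i)
    rw [eul_sum] at h2
    simpa [hB, Matrix.mulVec, dotProduct, mul_comm] using h2

/-- zero estimate at two points -/
theorem zero_two {q m D : ℕ} (hq : 1 ≤ q) (e : Fin m → ℕ) (he : Function.Injective e)
    (he' : ∀ k, e k < q) (P : Fin m → ℝ[X]) (h0 : ∃ k, P k ≠ 0) (hD : ∀ k, (P k).natDegree ≤ D)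
    (c : Fin m → ℝ) (hc : ∀ k, c k ≠ 0) {α : ℝ} (hα : α ≠ 0) (hα1 : α ^ q ≠ 1) {T T' : ℕ}
    (h1 : (X - C 1) ^ T ∣ ∑ k, C 1 * (X ^ e k * expand ℝ q (P k)))
    (h2 : (X - C α) ^ T' ∣ ∑ k, C (c k) * (X ^ e k * expand ℝ q (P k))) :
    T + T' ≤ m * D + 2 * m := by
  classical
  set s := univ.filter fun k => P k ≠ 0 with hs
  have hP : ∀ k : Fin s.card, P (s.orderEmbOfFin rfl k) ≠ 0 := fun k =>
    (mem_filter.1 (s.orderEmbOfFin_mem rfl k)).2
  choose R hR1 hR2 using fun k => exists_eq_pow_rootMultiplicity_mul_and_not_dvd _ (hP k) 0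
  set t := fun k => rootMultiplicity 0 (P (s.orderEmbOfFin rfl k)) with ht
  simp only [map_zero, sub_zero, X_dvd_iff, coeff_zero_eq_eval_zero] at hR1 hR2
  obtain ⟨W, hW, hWd, hW1⟩ := zero_core (D := D) hq (card_pos.2 (by simpa [hs, Finset.Nonempty] using h0))
    (fun k => e (s.orderEmbOfFin rfl k) + q * t k) (fun k k' h => by
      have := congrArg (· % q) h
      simp only [Nat.add_mul_mod_self_left, Nat.mod_eq_of_lt (he' _)] at this
      exact (s.orderEmbOfFin rfl).injective (he this)) R hR2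
    (fun k => (natDegree_le_of_dvd (Dvd.intro_left _ (hR1 k).symm) (hP k)).trans (hD _))
  have key : ∀ c : Fin m → ℝ, ∑ k, C (c k) * (X ^ e k * expand ℝ q (P k)) =
      ∑ k : Fin s.card, C (c (s.orderEmbOfFin rfl k)) *
        (X ^ (e (s.orderEmbOfFin rfl k) + q * t k) * expand ℝ q (R k)) := by
    intro c
    rw [← sum_subset (subset_univ s) (fun k _ hk => by
      have : P k = 0 := by simpa [hs] using hk
      simp [this]), ← sum_coe_sort, ← (s.orderIsoOfFin rfl).toEquiv.sum_comp]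
    refine sum_congr rfl fun k _ => ?_
    change C (c (s.orderEmbOfFin rfl k)) * (X ^ e (s.orderEmbOfFin rfl k) *
      expand ℝ q (P (s.orderEmbOfFin rfl k))) = _
    rw [hR1 k, map_mul, map_pow, expand_X, pow_add, pow_mul, mul_assoc]
  rw [key fun _ => 1] at h1
  rw [key] at h2
  have a1 := hW1 _ 1 T (fun _ => one_ne_zero) one_ne_zero h1
  have a2 := hW1 _ α T' (fun _ => hc _) hα h2
  have a3 := natDegree_le_of_dvd ((isCoprime_X_sub_C_of_isUnit_sub (by
    rw [one_pow]
    exact (sub_ne_zero.2 hα1.symm).isUnit)).pow.mul_dvd a1 a2) hW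
  rw [natDegree_mul (pow_ne_zero _ (X_sub_C_ne_zero _)) (pow_ne_zero _ (X_sub_C_ne_zero _)),
    natDegree_pow, natDegree_pow, natDegree_X_sub_C, natDegree_X_sub_C] at a3
  have a4 : s.card ≤ m := by simpa using card_le_univ s
  have a5 := Nat.mul_le_mul_right D a4
  omega

theorem choose_le_mul (M : ℝ) (hM : 0 < M) (l s : ℕ) :
    (l.choose s : ℝ) ≤ M ^ s * (1 + 1 / M) ^ l := by
  by_cases h : s ≤ l
  · have h1 := single_le_sum (f := fun i => (1 / M) ^ i * 1 ^ (l - i) * (l.choose i : ℝ))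
      (fun i _ => by positivity) (mem_range.2 (Nat.lt_succ_of_le h))
    rw [← add_pow, add_comm] at h1
    refine le_trans (le_of_eq ?_) (mul_le_mul_of_nonneg_left h1 (by positivity))
    rw [one_pow, mul_one, ← mul_assoc, ← mul_pow, mul_one_div_cancel hM.ne', one_pow, one_mul]
  · rw [Nat.choose_eq_zero_of_lt (not_le.1 h), Nat.cast_zero]
    positivity

theorem taylor_sum {ι : Type} (s : Finset ι) (c : ι → ℝ) (l : ι → ℕ) (β : ℝ) (τ : ℕ) :
    (taylor β (∑ b ∈ s, C (c b) * X ^ l b)).coeff τ * β ^ τ =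
      ∑ b ∈ s, c b * (l b).choose τ * β ^ l b := by
  rw [map_sum, finsetSum_coeff, sum_mul]
  refine sum_congr rfl fun b _ => ?_
  rw [taylor_mul, taylor_C, taylor_X_pow, coeff_C_mul, coeff_X_add_C_pow]
  by_cases h : τ ≤ l b
  · rw [← Nat.sub_add_cancel h, pow_add, Nat.sub_add_cancel h]
    ring
  · simp [Nat.choose_eq_zero_of_lt (not_le.1 h)]

theorem tail_le {f : ℝ[X]} {T τ : ℕ} {B M δ α : ℝ} (hB : 0 ≤ B) (hM : 0 ≤ M) (hδ : 0 ≤ δ)
    (h1 : ∀ s < T, (taylor 1 f).coeff s = 0) (h2 : ∀ s, |(taylor 1 f).coeff s| ≤ B * M ^ s)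
    (hα : |α - 1| ≤ δ) (h4 : 2 * M * δ ≤ 1 / 2) :
    |(taylor α f).coeff τ| * δ ^ τ ≤ 2 * B * (2 * M * δ) ^ T := by
  have e : taylor α f = taylor (α - 1) (taylor 1 f) := by rw [taylor_taylor, sub_add_cancel]
  rw [e]
  generalize taylor 1 f = F at *
  rw [taylor_coeff, hasseDeriv_apply, sum_def, eval_finsetSum]
  refine (mul_le_mul_of_nonneg_right (abs_sum_le_sum_abs _ _) (by positivity)).trans ?_
  rw [sum_mul]
  have h5 : 0 ≤ 2 * M * δ := by positivity
  calc _ ≤ ∑ s ∈ F.support, B * (2 * M * δ) ^ s := by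
        refine sum_le_sum fun s _ => ?_
        by_cases h : τ ≤ s
        · have h6 : (s.choose τ : ℝ) ≤ 2 ^ s := by exact_mod_cast Nat.choose_le_two_pow s τ
          rw [eval_monomial, abs_mul, abs_mul, Nat.abs_cast, abs_pow]
          calc _ ≤ 2 ^ s * (B * M ^ s) * δ ^ (s - τ) * δ ^ τ := by
                gcongr
                exact h2 s
            _ = _ := by
                rw [mul_assoc, ← pow_add, Nat.sub_add_cancel h]
                ring
        · simp only [Nat.choose_eq_zero_of_lt (not_le.1 h), Nat.cast_zero, zero_mul, map_zero,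
            eval_zero, abs_zero]
          positivity
    _ ≤ ∑ s ∈ Ico T (F.natDegree + 1), B * (2 * M * δ) ^ s := by
        refine sum_le_sum_of_subset_of_nonneg (fun s hs => mem_Ico.2 ⟨?_, ?_⟩)
          fun _ _ _ => by positivity
        · by_contra! h
          exact mem_support_iff.1 hs (h1 s h)
        · exact Nat.lt_succ_of_le (le_natDegree_of_mem_supp s hs)
    _ ≤ B * ((2 * M * δ) ^ T / (1 - 2 * M * δ)) := by
        rw [← mul_sum]
        exact mul_le_mul_of_nonneg_left (geom_sum_Ico_le_of_lt_one h5 (by linarith)) hB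
    _ ≤ _ := by
        rw [mul_comm 2 B, mul_assoc B]
        refine mul_le_mul_of_nonneg_left ?_ hB
        rw [div_le_iff₀ (by linarith)]
        nlinarith [pow_nonneg h5 T]

end Pool.Agent.P.MP_71e30e_nt.Comp
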