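import Pool.Agent.P.MP_71e30e_nt.GLarge

set_option autoImplicit false

/-! The case of large `n`. -/

namespace Pool.Agent.P.MP_71e30e_nt

open Polynomial Finset

/-- at most exponential growth -/
def EB (f : ℕ → ℝ) : Prop := ∃ W : ℝ, 1 ≤ W ∧ ∀ n, 1 ≤ n → |f n| ≤ W ^ n

theorem EB.const (c : ℝ) : EB fun _ => c :=
  ⟨max 1 |c|, le_max_left _ _, fun _ hn => (le_max_right _ _).trans
    (le_self_pow₀ (le_max_left _ _) (by omega))⟩

theorem EB.id : EB fun n => n :=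
  ⟨2, one_le_two, fun n _ => by simpa using nat_le_pow' le_rfl n⟩

theorem EB.exp (c : ℝ) : EB fun n => c ^ n :=
  ⟨max 1 |c|, le_max_left _ _, fun n _ => by
    rw [abs_pow]
    exact pow_le_pow_left₀ (abs_nonneg _) (le_max_right _ _) n⟩

theorem EB.mul {f g : ℕ → ℝ} (hf : EB f) (hg : EB g) : EB fun n => f n * g n := by
  obtain ⟨W, h1, h2⟩ := hf
  obtain ⟨W', h3, h4⟩ := hg
  refine ⟨W * W', one_le_mul_of_one_le_of_one_le h1 h3, fun n hn => ?_⟩
  rw [abs_mul, mul_pow]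
  exact mul_le_mul (h2 n hn) (h4 n hn) (abs_nonneg _) (by positivity)

theorem EB.pow {f : ℕ → ℝ} (hf : EB f) (k : ℕ) : EB fun n => f n ^ k := by
  induction k with
  | zero => simpa using EB.const 1
  | succ k ih => simpa only [pow_succ] using ih.mul hf

theorem EB.add {f g : ℕ → ℝ} (hf : EB f) (hg : EB g) : EB fun n => f n + g n := by
  obtain ⟨W, h1, h2⟩ := hf
  obtain ⟨W', h3, h4⟩ := hg
  refine ⟨W + W', by linarith, fun n hn => (abs_add_le _ _).trans ?_⟩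
  exact (add_le_add (h2 n hn) (h4 n hn)).trans
    (pow_add_pow_le (by linarith) (by linarith) (by omega))

theorem pow_le_of_eq {q n : ℕ} {x y : ℤ} (hx : 2 ≤ x) (hy : 1 ≤ y)
    (he : (1 - x) * y ^ q = 1 - x ^ n) : y ^ q ≤ x ^ n := by
  have : 0 < y ^ q := by positivity
  nlinarith

theorem coeff_PP {q l n e : ℕ} {c : Fin q × Fin l → ℕ → ℤ} {H : ℝ} (hH : 0 ≤ H) (c3 : ∀ w a, |(c w a : ℝ)| ≤ H)
    {x y v U : ℤ} (hx : 2 ≤ x) (hv : 1 ≤ v) (hy : v ≤ y) (he : y ^ q ≤ x ^ (n + 1))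
    (hU : |U| ≤ x ^ (n + 1)) (hen : e ≤ n) (hl : l < n) : |((PP n c x y v U).coeff e : ℝ)| ≤
      q * l * (n * l) * (H * ((2 ^ (q * l + 1)) ^ n * 2 ^ q)) * x ^ (n * (l + 3)) := by
  have hx1 : (2 : ℝ) ≤ x := by exact_mod_cast hx
  have hv1 : (1 : ℝ) ≤ v := by exact_mod_cast hv
  have hy1 : (v : ℝ) ≤ y := by exact_mod_cast hy
  have hU1 : |(U : ℝ)| ≤ x ^ (n + 1) := by exact_mod_cast hU
  have hc : (#(mon q l n) : ℝ) ≤ q * l * (n * l) := by
    have : #(mon q l n) ≤ q * l * (n * l) := by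
      rw [mon, card_sigma]
      refine (sum_le_card_nsmul _ _ (n * l) fun w _ => ?_).trans (by simp)
      rw [card_range]
      exact Nat.mul_le_mul_left n (Nat.sub_le _ _)
    exact_mod_cast this
  have key : ∀ w ∈ mon q l n, |((C (c w.1 w.2 * (y ^ (w.1.1 : ℕ) * v ^ (q - w.1.1) *
      (U ^ (w.1.2 : ℕ) * (1 - x) ^ w.2))) * (C 1 + C x * X) ^ (q * w.2 + (q - w.1.1))).coeff e : ℝ)| ≤
      H * ((2 ^ (q * l + 1)) ^ n * 2 ^ q) * x ^ (n * (l + 3)) := by
    rintro ⟨⟨j, i⟩, a⟩ hw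
    have ha : a + n * i ≤ n * l := by
      simp only [mon, mem_sigma, mem_univ, mem_range, true_and, Nat.mul_sub] at hw
      omega
    have b := bd_lin 1 x (ρ := x) (by simp) (by rw [abs_of_nonneg (by linarith)])
    have b1 := bd_two (by linarith) b b (q * a + (q - j)) 0 e
    rw [pow_zero, mul_one, add_zero] at b1
    have b2 : (y : ℝ) ^ (j : ℕ) * v ^ (q - j) ≤ x ^ (n + 1) := by
      calc _ ≤ (y : ℝ) ^ (j : ℕ) * y ^ (q - j) := by
            have : (0 : ℝ) ≤ y := by linarith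
            gcongr
        _ = y ^ q := by rw [← pow_add, Nat.add_sub_cancel' j.2.le]
        _ ≤ _ := by exact_mod_cast he
    have b3 : |(1 - x : ℝ)| ≤ x := by
      rw [abs_sub_comm, abs_of_nonneg (by linarith)]
      linarith
    rw [coeff_C_mul, Int.cast_mul, abs_mul]
    push_cast
    have hy0 : (0 : ℝ) ≤ y := by linarith
    rw [abs_mul, abs_mul, abs_mul ((U : ℝ) ^ _), abs_pow, abs_pow, abs_of_nonneg (by positivity :
      (0 : ℝ) ≤ y ^ (j : ℕ) * v ^ (q - j))]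
    calc _ ≤ H * (x ^ (n + 1) * ((x ^ (n + 1)) ^ (i : ℕ) * x ^ a)) *
          (2 ^ (q * a + (q - j)) * (2 * x) ^ e) := by
          gcongr
          exact c3 _ _
      _ = H * 2 ^ (q * a + (q - j) + e) * x ^ (n + 1 + n * i + i + a + e) := by ring
      _ ≤ H * 2 ^ ((q * l + 1) * n + q) * x ^ (n * (l + 3)) := by
          have := i.2
          have := Nat.mul_le_mul_left q (le_trans (Nat.le_add_right a _) ha)
          have e1 : (q * l + 1) * n = q * (n * l) + n := by ring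
          exact mul_le_mul (mul_le_mul_of_nonneg_left (pow_le_pow_right₀ one_le_two (by omega)) hH)
            (pow_le_pow_right₀ (by linarith) (by rw [mul_add]; omega)) (by positivity) (by positivity)
      _ = _ := by rw [pow_add, pow_mul]
  rw [PP, finsetSum_coeff, Int.cast_sum]
  refine (abs_sum_le_sum_abs _ _).trans ((sum_le_card_nsmul _ _ _ key).trans ?_)
  rw [nsmul_eq_mul, mul_assoc (q * l * (n * l) : ℝ)]
  exact mul_le_mul_of_nonneg_right hc (by positivity)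

theorem aeval_FH {S : Type*} [CommRing S] {q : ℕ} (r : ℤ[X]) {π V x s b U : S}
    (hx : x = (q : S) ^ 2 * π) (hV : s = 1 - x * V) (hb : (q : S) ^ 2 * b = U) (j a i : ℕ) :
    aeval (π * V) (FF q r j a) * aeval b (HH q r j i) =
      aeval (π * V) r ^ (q - j) * aeval b r ^ j * (U ^ i * s ^ a) := by
  have a1 : 1 + -(q : S) ^ 2 * (π * V) = s := by
    rw [hV, hx]
    ring
  simp only [FF, HH, map_mul, map_pow, map_add, map_one, map_zero, map_neg, map_natCast, aeval_X,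
    zero_add, a1, hb]
  ring

theorem loc_PP {q l n e g1 g2 : ℕ} (hn : 1 ≤ n) {r : ℤ[X]} (hr0 : r.coeff 0 = 1)
    (hr : X ^ (n * g1 + n * g2) ∣ r ^ q - (C 1 + C (-(q : ℤ) ^ 2) * X))
    {c : Fin q × Fin l → ℕ → ℤ}
    (c4 : ∀ i k, i + n * k < n * g1 → ∑ w ∈ mon q l n, c w.1 w.2 *
      ((FF q r w.1.1 w.2).coeff i * (HH q r w.1.1 w.1.2).coeff k) = 0)
    (c5 : ∀ j, j + 1 < q → ∀ i k, i + n * k < n * g2 → ∑ w ∈ mon q l n, c w.1 w.2 * sg (j + 1) w.1.1 *
      ((FF q r w.1.1 w.2).coeff i * (HH q r w.1.1 w.1.2).coeff k) = 0) {x y v U : ℤ}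
    (hU : x ^ n ∣ U) (he : (1 - x) * y ^ q = (1 - U) * v ^ q) (h : X ^ e ∣ PP n c x y v U) :
    LocW q (n * g1) (n * g2) x y v ((PP n c x y v U).coeff e) := by
  intro R _ π v' hv hx
  have hx' : (x : R[X]) = (q : R[X]) ^ 2 * C π := by
    rw [← map_intCast (C : R →+* R[X]), hx, map_mul, map_pow, map_natCast]
  have hv' : (v : R[X]) * C v' = 1 := by rw [← map_intCast (C : R →+* R[X]), ← C_mul, hv, C_1]
  set τ : R[X] := 1 + (x : R[X]) * X with hτ
  have hτ1 : (x : R[X]) ∣ τ - 1 := ⟨X, by rw [hτ]; ring⟩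
  obtain ⟨V, hV⟩ : ∃ V, τ ^ q * (1 - x) = 1 - x * V := by
    obtain ⟨k, hk⟩ := hτ1.trans (sub_one_dvd_pow_sub_one τ q)
    exact ⟨τ ^ q - k, by linear_combination hk⟩
  obtain ⟨b, hb, hb'⟩ : ∃ b : R[X], C π ^ n ∣ b ∧ (q : R[X]) ^ 2 * b = U := by
    obtain ⟨u, rfl⟩ := hU
    obtain ⟨m, rfl⟩ : ∃ m, n = m + 1 := ⟨n - 1, by omega⟩
    exact ⟨C π ^ (m + 1) * (q ^ (2 * m) * u), dvd_mul_right _ _, by push_cast; rw [hx']; ring⟩
  obtain ⟨z, z1, z2, z3⟩ := bridge' (R := R[X]) (π := C π) (y := y * C v') hr0 hr hx'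
    ((dvd_pow_self _ (by omega)).trans hb) (by
      have := congrArg (Int.cast : ℤ → R[X]) he
      push_cast at this
      rw [hb', mul_pow, ← mul_assoc, this, mul_assoc, ← mul_pow, hv', one_pow, mul_one])
    ((Dvd.intro_left _ hx'.symm).trans hτ1) hV
    (Nat.le_add_right _ _) (Nat.le_add_left _ _) (mon q l n) (fun w => w.1.1) (fun w _ => w.1.1.2)
    (fun w => v ^ q * (c w.1 w.2 * (U ^ (w.1.2 : ℕ) * (τ ^ q * (1 - x)) ^ w.2)))
    (((dvd_two _ _ _ _ c4 (dvd_mul_right _ V) hb).mul_left ((v : R[X]) ^ q)).trans (dvd_of_eq (by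
      rw [mul_sum]
      exact sum_congr rfl fun w _ => by rw [aeval_FH r hx' hV hb']; ring)))
    fun j hj => ((dvd_two _ _ _ _ (c5 j hj) (dvd_mul_right _ V) hb).mul_left ((v : R[X]) ^ q)).trans
      (dvd_of_eq (by
        rw [mul_sum]
        exact sum_congr rfl fun w _ => by rw [aeval_FH r hx' hV hb']; push_cast; ring))
  have e2 : ∑ w ∈ mon q l n, (y * C v' : R[X]) ^ (w.1.1 : ℕ) * τ ^ (q - w.1.1) *
      (v ^ q * (c w.1 w.2 * (U ^ (w.1.2 : ℕ) * (τ ^ q * (1 - x)) ^ w.2))) =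
      (PP n c x y v U).map (Int.castRingHom R) := by
    rw [PP, Polynomial.map_sum]
    refine sum_congr rfl fun w _ => ?_
    have e3 : (v : R[X]) ^ q * C v' ^ (w.1.1 : ℕ) = v ^ (q - w.1.1) := by
      rw [← pow_sub_mul_pow (v : R[X]) w.1.1.2.le, mul_assoc, ← mul_pow, hv', one_pow, mul_one]
    simp only [Polynomial.map_mul, Polynomial.map_pow, Polynomial.map_add, eq_intCast,
      Polynomial.map_intCast, map_X, Int.cast_one, Polynomial.map_one, ← hτ, mul_pow]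
    push_cast
    rw [← e3]
    ring
  rw [e2] at z2 z3
  have h' : X ^ e ∣ (PP n c x y v U).map (Int.castRingHom R) := by
    simpa using map_dvd (mapRingHom (Int.castRingHom R)) h
  have k2 := extract h' z2
  have k3 := extract h' z3
  rw [coeff_map, eq_intCast, coeff_zero_eq_eval_zero] at k2 k3
  refine ⟨z.eval 0, by simpa using eval_dvd (x := 0) z1, ?_, ?_⟩
  · simpa only [eval_finsetSum, eval_pow] using k2
  · simpa using k3

theorem large {q l g1 g2 : ℕ} (hq : 1 ≤ q) (hg : 1 ≤ g1)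
    (hE : tri g1 + (q - 1) * tri g2 < q * tri l) :
    ∃ (n0 : ℕ) (Z : ℝ), 1 ≤ Z ∧ ∀ (n : ℕ) (x y v U : ℤ), n0 ≤ n → Z ≤ x → 1 ≤ v → v ≤ y →
      y ^ q ≤ x ^ (n + 1) → x ^ n ∣ U → 0 < U → U ≤ x ^ (n + 1) →
      (1 - x) * y ^ q = (1 - U) * v ^ q → ∃ a : ℤ, a ≠ 0 ∧ |(a : ℝ)| ≤ Z ^ n * x ^ (n * (l + 3)) ∧
        LocW q (n * g1) (n * g2) x y v a := by
  obtain ⟨Z, hZ, h⟩ := aux_large hq hg hE
  obtain ⟨W1, a1, b1⟩ : EB fun n => (l + 1) * (l * Z ^ n) :=
    (EB.const _).mul ((EB.const _).mul (EB.exp Z))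
  obtain ⟨W2, a2, b2⟩ : EB fun n =>
      ((24 * (q * (n * l) + q) ^ 2 * ((n * l + 1) * Z ^ n)) ^ 2 ^ (q * l)) ^ q :=
    (((((EB.const _).mul ((((EB.const _).mul (EB.id.mul (EB.const _))).add (EB.const _)).pow 2)).mul
      (((EB.id.mul (EB.const _)).add (EB.const _)).mul (EB.exp Z))).pow _).pow _)
  obtain ⟨W3, a3, b3⟩ : EB fun n => q * l * (n * l) * (Z ^ n * ((2 ^ (q * l + 1)) ^ n * 2 ^ q)) :=
    ((EB.const _).mul (EB.id.mul (EB.const _))).mul ((EB.exp Z).mul ((EB.exp _).mul (EB.const _)))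
  refine ⟨2 * (q * l) + 1, W1 + W2 ^ 2 + W3 + 1, by nlinarith,
    fun n x y v U hn hx hv hy hyq hU hU0 hU1 he => ?_⟩
  have hn1 : 1 ≤ n := by omega
  have hx2 : 2 ≤ x := by
    have : (2 : ℝ) ≤ x := by nlinarith
    exact_mod_cast this
  obtain ⟨r, r1, r2, r3⟩ := exists_rt hq (n * g1 + n * g2)
  obtain ⟨c, c1, c2, c3, c4, c5⟩ := h n hn1 r r3
  have hnd : ¬ X ^ n ∣ PP n c x y v U := by
    intro hd
    have hU2 : (x : ℝ) ^ n ≤ |(U : ℝ)| :=
      le_trans (by exact_mod_cast Int.le_of_dvd hU0 hU) (le_abs_self _)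
    have := not_dvd_PP (e := n - q * l) (y := y) (v := v) hq c1 c2 (one_le_pow₀ hZ) c3 hx2 (by omega)
      (by omega) ((((le_abs_self _).trans (b1 n hn1)).trans_lt
        (pow_lt_pow_left₀ (by nlinarith) (by linarith) (by omega))).trans_le hU2)
      (by rwa [Nat.sub_add_cancel (by omega : q * l ≤ n)])
    push_cast at this
    have h2 := this.trans ((le_abs_self _).trans (b2 n hn1))
    have h3 : W2 ^ n ≤ (W2 ^ 2) ^ (n - q * l) := by
      rw [← pow_mul]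
      exact pow_le_pow_right₀ a2 (by omega)
    have h4 : (W2 ^ 2) ^ (n - q * l) < (x - 1) ^ (n - q * l) :=
      pow_lt_pow_left₀ (by linarith) (by positivity) (by omega)
    linarith
  rw [X_pow_dvd_iff] at hnd
  push Not at hnd
  obtain ⟨he1, he2⟩ := Nat.find_spec hnd
  refine ⟨_, he2, (coeff_PP (by positivity) c3 hx2 hv hy hyq (by rwa [abs_of_pos hU0]) he1.le
    (by have := Nat.le_mul_of_pos_left l hq; omega)).trans ?_, loc_PP hn1 r1 r2 c4 c5 hU he (X_pow_dvd_iff.2 fun d hd => ?_)⟩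
  · refine mul_le_mul_of_nonneg_right ((le_abs_self _).trans ((b3 n hn1).trans
      (pow_le_pow_left₀ (by linarith) (by nlinarith) n))) (by positivity)
  · by_contra h0
    exact Nat.find_min hnd hd ⟨hd.trans he1, h0⟩

end Pool.Agent.P.MP_71e30e_nt
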