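import Pool.Agent.P.MP_71e30e_nt.GAux

set_option autoImplicit false

/-! The congruence argument. -/

namespace Pool.Agent.P.MP_71e30e_nt

open Polynomial Finset

theorem core0 {R : Type*} [CommRing R] {q : ℕ} {A W τ s y v : R} (hA : IsUnit A)
    (h1 : A ^ q = τ ^ q * s) (h2 : W ^ q = s * y ^ q) (hv : τ * W * v = 1) (T : ℕ → R) :
    (∑ j ∈ range q, A ^ (q - j) * W ^ j * T j = 0 →
      (∑ j ∈ range q, (y * A * v) ^ j) * ∑ j ∈ range q, y ^ j * τ ^ (q - j) * T j = 0) ∧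
    ((∀ j < q, A ^ (q - j) * W ^ j * T j = A ^ q * T 0) →
      (y * A * v - 1) * ∑ j ∈ range q, y ^ j * τ ^ (q - j) * T j = 0) := by
  set z := y * A * v with hz
  have hq : z ^ q = 1 := by
    calc z ^ q = (τ * W * v) ^ q := by
          rw [hz, mul_pow, mul_pow, mul_pow, mul_pow, h1, h2]; ring
      _ = 1 := by rw [hv, one_pow]
  have hg : (∑ j ∈ range q, z ^ j) * (z - 1) = 0 := by rw [geom_sum_mul, hq, sub_self]
  have hP : A ^ q * ∑ j ∈ range q, y ^ j * τ ^ (q - j) * T j =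
      τ ^ q * ∑ j ∈ range q, z ^ j * (A ^ (q - j) * W ^ j * T j) := by
    rw [mul_sum, mul_sum]
    refine sum_congr rfl fun j hj => ?_
    obtain ⟨k, rfl⟩ := Nat.exists_eq_add_of_le (mem_range.1 hj).le
    rw [Nat.add_sub_cancel_left]
    calc A ^ (j + k) * (y ^ j * τ ^ k * T j) = A ^ (j + k) * (y ^ j * τ ^ k * T j) * (τ * W * v) ^ j := by
          rw [hv, one_pow, mul_one]
      _ = _ := by rw [hz]; ring
  constructor
  · intro h
    refine (hA.pow q).mul_left_cancel ?_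
    rw [mul_zero, mul_left_comm, hP, mul_left_comm, mul_sum]
    have : ∀ j ∈ range q, (∑ j ∈ range q, z ^ j) * (z ^ j * (A ^ (q - j) * W ^ j * T j)) =
        (∑ j ∈ range q, z ^ j) * (A ^ (q - j) * W ^ j * T j) := by
      intro j _
      obtain ⟨k, hk⟩ := sub_one_dvd_pow_sub_one z j
      linear_combination (A ^ (q - j) * W ^ j * T j) * (∑ j ∈ range q, z ^ j) * hk +
        (A ^ (q - j) * W ^ j * T j) * k * hg
    rw [sum_congr rfl this, ← mul_sum, h, mul_zero, mul_zero]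
  · intro h
    refine (hA.pow q).mul_left_cancel ?_
    rw [mul_zero, mul_left_comm, hP, sum_congr rfl fun j hj => by rw [h j (mem_range.1 hj)],
      ← sum_mul]
    linear_combination τ ^ q * (A ^ q * T 0) * hg

theorem exists_inv {R : Type*} [CommRing R] {π a : R} (h : π ∣ a - 1) (N : ℕ) :
    ∃ v, π ∣ v - 1 ∧ π ^ N ∣ a * v - 1 := by
  have h' : π ∣ 1 - a := dvd_sub_comm.1 h
  refine ⟨∑ i ∈ range (N + 1), (1 - a) ^ i, ?_, ?_⟩
  · rw [sum_range_succ', pow_zero, add_sub_cancel_right]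
    exact dvd_sum fun i _ => h'.trans (dvd_pow_self _ i.succ_ne_zero)
  · have e := geom_sum_mul (1 - a) (N + 1)
    have e2 : a * ∑ i ∈ range (N + 1), (1 - a) ^ i - 1 = -((1 - a) ^ N * (1 - a)) := by
      linear_combination -e
    rw [e2, dvd_neg]
    exact (pow_dvd_pow_of_dvd h' N).mul_right _

theorem dvd_mul_sub_one {R : Type*} [CommRing R] {π a b : R} (ha : π ∣ a - 1) (hb : π ∣ b - 1) :
    π ∣ a * b - 1 := by
  have : a * b - 1 = (a - 1) * b + (b - 1) := by ring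
  rw [this]
  exact dvd_add (ha.mul_right _) hb

theorem core {R : Type*} [CommRing R] {q N G G' : ℕ} {π A W τ s y : R} (hA : π ∣ A - 1)
    (hW : π ∣ W - 1) (hτ : π ∣ τ - 1) (h1 : π ^ N ∣ A ^ q - τ ^ q * s)
    (h2 : π ^ N ∣ W ^ q - s * y ^ q) (hG : G ≤ N) (hG' : G' ≤ N) (T : ℕ → R)
    (h3 : π ^ G ∣ ∑ j ∈ range q, A ^ (q - j) * W ^ j * T j)
    (h4 : ∀ j < q, π ^ G' ∣ A ^ (q - j) * W ^ j * T j - A ^ q * T 0) :
    ∃ z, π ∣ z - y ∧
      π ^ G ∣ (∑ j ∈ range q, z ^ j) * ∑ j ∈ range q, y ^ j * τ ^ (q - j) * T j ∧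
      π ^ G' ∣ (z - 1) * ∑ j ∈ range q, y ^ j * τ ^ (q - j) * T j := by
  obtain ⟨v, hv1, hv2⟩ := exists_inv (dvd_mul_sub_one hτ hW) N
  obtain ⟨u, -, hu⟩ := exists_inv hA N
  have key : ∀ g ≤ N, _ := fun g hg => by
    have hz : ∀ a b : R, π ^ N ∣ a - b → Ideal.Quotient.mk (Ideal.span {π ^ g}) a =
        Ideal.Quotient.mk (Ideal.span {π ^ g}) b := fun a b h =>
      Ideal.Quotient.eq.2 (Ideal.mem_span_singleton.2 ((pow_dvd_pow π hg).trans h))
    set f := Ideal.Quotient.mk (Ideal.span {π ^ g})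
    exact core0 (q := q) (A := f A) (W := f W) (τ := f τ) (s := f s) (y := f y) (v := f v)
      (IsUnit.of_mul_eq_one (f u) (by simpa using hz _ _ hu)) (by simpa using hz _ _ h1)
      (by simpa using hz _ _ h2) (by simpa using hz _ _ hv2) fun j => f (T j)
  refine ⟨y * A * v, ?_, ?_, ?_⟩
  · have : y * A * v - y = y * (A * v - 1) := by ring
    rw [this]
    exact (dvd_mul_sub_one hA hv1).mul_left _
  · rw [← Ideal.Quotient.eq_zero_iff_dvd] at h3 ⊢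
    simp only [map_sum, map_mul, map_pow] at h3 ⊢
    exact (key G hG).1 h3
  · rw [← Ideal.Quotient.eq_zero_iff_dvd]
    simp only [map_sum, map_mul, map_pow, map_sub, map_one]
    refine (key G' hG').2 fun j hj => ?_
    have := h4 j hj
    rw [← Ideal.Quotient.eq_zero_iff_dvd, map_sub, sub_eq_zero] at this
    simpa only [map_mul, map_pow] using this

/-- the sign pattern of the conditions at the roots of unity different from one -/
def sg (t j : ℕ) : ℤ := (if j = t then 1 else 0) - if j = 0 then 1 else 0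

theorem sg_le (t j : ℕ) : |(sg t j : ℝ)| ≤ 1 := by
  unfold sg
  split_ifs <;> simp

theorem bridge' {R ι : Type*} [CommRing R] {q N G G' : ℕ} {r : ℤ[X]}
    (hr0 : r.coeff 0 = 1) (hr : X ^ N ∣ r ^ q - (C 1 + C (-(q : ℤ) ^ 2) * X)) {π τ V x y b : R}
    (hx : x = (q : R) ^ 2 * π) (k3 : π ∣ b) (he : (1 - x) * y ^ q = 1 - (q : R) ^ 2 * b)
    (hτ : π ∣ τ - 1)
    (hV : τ ^ q * (1 - x) = 1 - x * V) (hG : G ≤ N) (hG' : G' ≤ N) (S : Finset ι) (J : ι → ℕ)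
    (hJ : ∀ w ∈ S, J w < q) (t : ι → R)
    (h3 : π ^ G ∣ ∑ w ∈ S, aeval (π * V) r ^ (q - J w) * aeval b r ^ J w * t w)
    (h4 : ∀ j, j + 1 < q → π ^ G' ∣ ∑ w ∈ S, (sg (j + 1) (J w) : R) * (aeval (π * V) r ^ (q - J w) *
      aeval b r ^ J w * t w)) :
    ∃ z, π ∣ z - y ∧ π ^ G ∣ (∑ j ∈ range q, z ^ j) * ∑ w ∈ S, y ^ J w * τ ^ (q - J w) * t w ∧
      π ^ G' ∣ (z - 1) * ∑ w ∈ S, y ^ J w * τ ^ (q - J w) * t w := by
  have k1 : ∀ a : R, π ∣ a → π ∣ aeval a r - 1 := fun a ha => by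
    obtain ⟨g, hg⟩ : X ∣ r - 1 := by rw [X_dvd_iff]; simp [hr0]
    have := congrArg (aeval a) hg
    simp only [map_sub, map_one, map_mul, aeval_X] at this
    rw [this]
    exact ha.mul_right _
  have k2 : ∀ a : R, π ∣ a → π ^ N ∣ aeval a r ^ q - (1 - (q : R) ^ 2 * a) := fun a ha => by
    have := map_dvd (aeval a) hr
    simp only [map_sub, map_add, map_one, map_mul, map_pow, aeval_X, map_neg, map_natCast] at this
    exact (pow_dvd_pow_of_dvd ha N).trans (this.trans (dvd_of_eq (by ring)))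
  have k4 : ∀ α : ℕ → R, ∑ j ∈ range q, α j * ∑ w ∈ S with J w = j, t w =
      ∑ w ∈ S, α (J w) * t w := fun α => by
    rw [← sum_fiberwise_of_maps_to (g := J) fun w hw => mem_range.2 (hJ w hw)]
    refine sum_congr rfl fun j _ => ?_
    rw [mul_sum]
    exact sum_congr rfl fun w hw => by rw [(mem_filter.1 hw).2]
  have := core (q := q) (s := 1 - x) (y := y) (k1 _ (dvd_mul_right π V)) (k1 _ k3) hτ
    ((k2 _ (dvd_mul_right π V)).trans (dvd_of_eq (by rw [hV, hx]; ring)))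
    ((k2 _ k3).trans (dvd_of_eq (by rw [he]))) hG hG' (fun j => ∑ w ∈ S with J w = j, t w)
    (by rwa [k4]) ?_
  · rwa [k4] at this
  · rintro (_ | j) hj
    · simp
    · refine (h4 j hj).trans (dvd_of_eq ?_)
      simp only [sum_filter, mul_sum, ← sum_sub_distrib, sg]
      refine sum_congr rfl fun w _ => ?_
      by_cases a1 : J w = j + 1
      · simp [a1]
      · by_cases a2 : J w = 0 <;> simp [a1, a2]

theorem bridge {R ι : Type*} [CommRing R] {q N G G' n : ℕ} (hn : 1 ≤ n) {r : ℤ[X]}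
    (hr0 : r.coeff 0 = 1) (hr : X ^ N ∣ r ^ q - (C 1 + C (-(q : ℤ) ^ 2) * X)) {π τ V x y : R}
    (hx : x = (q : R) ^ 2 * π) (he : (1 - x) * y ^ q = 1 - x ^ n) (hτ : π ∣ τ - 1)
    (hV : τ ^ q * (1 - x) = 1 - x * V) (hG : G ≤ N) (hG' : G' ≤ N) (S : Finset ι) (J : ι → ℕ)
    (hJ : ∀ w ∈ S, J w < q) (t : ι → R)
    (h3 : π ^ G ∣ ∑ w ∈ S, aeval (π * V) r ^ (q - J w) *
      aeval ((q : R) ^ (2 * (n - 1)) * π ^ n) r ^ J w * t w)
    (h4 : ∀ j, j + 1 < q → π ^ G' ∣ ∑ w ∈ S, (sg (j + 1) (J w) : R) * (aeval (π * V) r ^ (q - J w) *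
      aeval ((q : R) ^ (2 * (n - 1)) * π ^ n) r ^ J w * t w)) :
    ∃ z, π ∣ z - y ∧ π ^ G ∣ (∑ j ∈ range q, z ^ j) * ∑ w ∈ S, y ^ J w * τ ^ (q - J w) * t w ∧
      π ^ G' ∣ (z - 1) * ∑ w ∈ S, y ^ J w * τ ^ (q - J w) * t w :=
  bridge' hr0 hr hx ((dvd_pow_self π (by omega)).mul_left _) (by
    obtain ⟨m, rfl⟩ : ∃ m, n = m + 1 := ⟨n - 1, by omega⟩
    rw [he, hx, Nat.add_sub_cancel]
    ring) hτ hV hG hG' S J hJ t h3 h4

theorem extract {R : Type*} [CommRing R] {π : R} {F P : R[X]} {e G : ℕ} (h1 : X ^ e ∣ P)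
    (h2 : C π ^ G ∣ F * P) : π ^ G ∣ F.coeff 0 * P.coeff e := by
  obtain ⟨P1, rfl⟩ := h1
  rw [← C_pow, C_dvd_iff_dvd_coeff] at h2
  have := h2 e
  rw [mul_left_comm, coeff_X_pow_mul', if_pos le_rfl, Nat.sub_self, mul_coeff_zero] at this
  rwa [coeff_X_pow_mul', if_pos le_rfl, Nat.sub_self]

theorem dvd_of_near {R : Type*} [CommRing R] [IsLocalRing R] {a b q t : R} (ht : ¬ IsUnit t)
    (ha : a ∣ q) (hb : q * t ∣ a - b) : b ∣ q := by
  obtain ⟨c, rfl⟩ := ha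
  obtain ⟨k, hk⟩ := hb
  have hu : IsUnit (1 - t * (c * k)) := (IsLocalRing.isUnit_or_isUnit_one_sub_self _).resolve_left
    fun h => ht (isUnit_of_mul_isUnit_left h)
  have e : b = a * (1 - t * (c * k)) := by linear_combination -hk
  rw [e, hu.mul_right_dvd]
  exact dvd_mul_right _ _

theorem geom_sub_dvd {R : Type*} [CommRing R] (q : ℕ) (a b : R) :
    a - b ∣ ∑ j ∈ range q, a ^ j - ∑ j ∈ range q, b ^ j := by
  rw [← sum_sub_distrib]
  exact dvd_sum fun j _ => sub_dvd_pow_sub_pow a b j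

theorem loc_dvd {R : Type*} [CommRing R] [IsDomain R] [ValuationRing R] {q α β : ℕ}
    {x y a g1 g2 : R} (h1 : g1 ∣ x) (h1' : g1 ∣ y - 1) (h2 : g2 ∣ x)
    (h2' : g2 ∣ ∑ j ∈ range q, y ^ j)
    (h : ∀ π : R, x = (q : R) ^ 2 * π → ∃ z, π ∣ z - y ∧ π ^ α ∣ (∑ j ∈ range q, z ^ j) * a ∧
      π ^ β ∣ (z - 1) * a) : g1 ^ α * g2 ^ β ∣ (q : R) ^ (3 * (α + β) + 1) * a := by
  by_cases hx : x ∣ (q : R) ^ 3
  · refine Dvd.dvd.mul_right ?_ _
    rw [pow_succ, pow_mul, pow_add]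
    exact (mul_dvd_mul (pow_dvd_pow_of_dvd (h1.trans hx) _)
      (pow_dvd_pow_of_dvd (h2.trans hx) _)).mul_right _
  obtain ⟨t, rfl⟩ := (ValuationRing.dvd_total _ _).resolve_left hx
  have ht : ¬ IsUnit t := fun hu => hx (hu.mul_right_dvd.2 dvd_rfl)
  obtain ⟨z, hz, k1, k2⟩ := h (q * t) (by ring)
  have fin : ∀ {g g' w : R} {m m' : ℕ}, g ∣ q → g' ∣ (q : R) ^ 3 * t → w ∣ q →
      (q * t) ^ m' ∣ w * a → g ^ m * g' ^ m' ∣ (q : R) ^ (3 * (m + m') + 1) * a := by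
    intro g g' w m m' a1 a2 a3 a4
    have a5 : g' ^ m' ∣ ((q : R) ^ 2) ^ m' * (q * a) := by
      refine (pow_dvd_pow_of_dvd a2 m').trans ?_
      rw [show (q : R) ^ 3 * t = (q : R) ^ 2 * (q * t) by ring, mul_pow]
      exact mul_dvd_mul_left _ (a4.trans (mul_dvd_mul_right a3 a))
    exact (mul_dvd_mul (pow_dvd_pow_of_dvd a1 m) a5).trans ⟨(q : R) ^ (2 * m + m'), by ring⟩
  by_cases hz1 : z - 1 ∣ q
  · exact fin (h1'.trans (dvd_of_near ht hz1 (by simpa using hz))) h2 hz1 k2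
  · obtain ⟨t', ht'⟩ := (ValuationRing.dvd_total _ _).resolve_left hz1
    have hu : ¬ IsUnit t' := fun hu => hz1 (ht' ▸ hu.mul_right_dvd.2 dvd_rfl)
    have h3 : ∑ j ∈ range q, z ^ j ∣ q := by
      refine dvd_of_near hu dvd_rfl ?_
      have := geom_sub_dvd q z 1
      rw [ht', one_geom_sum] at this
      exact dvd_sub_comm.1 this
    rw [mul_comm, add_comm α]
    exact fin (h2'.trans (dvd_of_near ht h3 (hz.trans (geom_sub_dvd q z y)))) h1 h3 k1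

theorem dvd_of_padic {m n : ℤ} (h : ∀ (p : ℕ) [Fact p.Prime], (m : ℤ_[p]) ∣ (n : ℤ_[p])) :
    m ∣ n := by
  rw [← Int.natAbs_dvd_natAbs, Nat.dvd_iff_prime_pow_dvd_dvd]
  intro p k hp hk
  have : Fact p.Prime := ⟨hp⟩
  rw [← Int.natCast_dvd_natCast, Int.dvd_natAbs] at hk ⊢
  push_cast at hk ⊢
  rw [← PadicInt.pow_p_dvd_int_iff] at hk ⊢
  exact hk.trans (h p)

/-- the local condition satisfied by the value `a` of the auxiliary polynomial -/
def Loc (q α β : ℕ) (x y a : ℤ) : Prop :=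
  ∀ (R : Type) [CommRing R] (π : R), (x : R) = (q : R) ^ 2 * π →
    ∃ z : R, π ∣ z - y ∧ π ^ α ∣ (∑ j ∈ range q, z ^ j) * a ∧ π ^ β ∣ (z - 1) * a

/-- the same for the fraction `y / w` -/
def LocW (q α β : ℕ) (x y w a : ℤ) : Prop :=
  ∀ (R : Type) [CommRing R] (π w' : R), w * w' = 1 → (x : R) = (q : R) ^ 2 * π →
    ∃ z : R, π ∣ z - y * w' ∧ π ^ α ∣ (∑ j ∈ range q, z ^ j) * a ∧ π ^ β ∣ (z - 1) * a

end Pool.Agent.P.MP_71e30e_nt
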