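import Pool.Agent.P.MP_71e30e_nt.GCore

set_option autoImplicit false

/-! The auxiliary polynomial on the surface (large `n`). -/

namespace Pool.Agent.P.MP_71e30e_nt

open Polynomial Finset

def tri (g : ℕ) : ℕ := ∑ k ∈ range g, (g - k)

theorem two_tri (g : ℕ) : 2 * tri g = g * (g + 1) := by
  induction g with
  | zero => rfl
  | succ g ih =>
    have : tri (g + 1) = tri g + (g + 1) := by
      rw [tri, sum_range_succ']
      simp [tri]
    rw [this, mul_add, ih]
    ring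

theorem sum_tri (n g : ℕ) : ∑ k : Fin g, n * (g - k) = n * tri g := by
  rw [tri, mul_sum, sum_range]

theorem tri_lt {n g i k : ℕ} (h : i + n * k < n * g) : k < g ∧ i < n * (g - k) := by
  refine ⟨Nat.lt_of_mul_lt_mul_left (a := n) (by omega), ?_⟩
  rw [Nat.mul_sub]
  omega

/-- the set of monomials -/
def mon (q l n : ℕ) : Finset (Σ _ : Fin q × Fin l, ℕ) := univ.sigma fun w => range (n * (l - w.2))

noncomputable def FF (q : ℕ) (r : ℤ[X]) (j a : ℕ) : ℤ[X] :=
  r ^ (q - j) * (C 1 + C (-(q : ℤ) ^ 2) * X) ^ a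

noncomputable def HH (q : ℕ) (r : ℤ[X]) (j i : ℕ) : ℤ[X] :=
  r ^ j * (C 0 + C ((q : ℤ) ^ 2) * X) ^ i

theorem nat_le_pow' {Y : ℝ} (hY : 2 ≤ Y) (n : ℕ) : (n : ℝ) ≤ Y ^ n :=
  le_trans (by exact_mod_cast Nat.lt_two_pow_self.le) (pow_le_pow_left₀ (by norm_num) hY n)

theorem aux_large {q l g1 g2 : ℕ} (hq : 1 ≤ q) (hg : 1 ≤ g1)
    (hE : tri g1 + (q - 1) * tri g2 < q * tri l) : ∃ Z : ℝ, 1 ≤ Z ∧ ∀ n : ℕ, 1 ≤ n → ∀ r : ℤ[X],
      (∀ k, |(r.coeff k : ℝ)| ≤ ((q : ℝ) ^ 2) ^ k) → ∃ c : Fin q × Fin l → ℕ → ℤ,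
        (∃ w a, c w a ≠ 0) ∧ (∀ w a, n * (l - w.2) ≤ a → c w a = 0) ∧
        (∀ w a, |(c w a : ℝ)| ≤ Z ^ n) ∧
        (∀ i k, i + n * k < n * g1 → ∑ w ∈ mon q l n, c w.1 w.2 *
          ((FF q r w.1.1 w.2).coeff i * (HH q r w.1.1 w.1.2).coeff k) = 0) ∧
        ∀ j, j + 1 < q → ∀ i k, i + n * k < n * g2 → ∑ w ∈ mon q l n, c w.1 w.2 * sg (j + 1) w.1.1 *
          ((FF q r w.1.1 w.2).coeff i * (HH q r w.1.1 w.1.2).coeff k) = 0 := by
  have hq1 : (1 : ℝ) ≤ q := by exact_mod_cast hq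
  set Y : ℝ := 2 * (q : ℝ) ^ 2 with hY
  have hY2 : 2 ≤ Y := by nlinarith
  have hY1 : 1 ≤ Y := by linarith
  set E := tri g1 + (q - 1) * tri g2 with hEd
  refine ⟨(Y ^ (1 + q * tri l) * Y ^ (2 * (q + l + (g1 + g2)))) ^ E,
    one_le_pow₀ (one_le_mul_of_one_le_of_one_le (one_le_pow₀ hY1) (one_le_pow₀ hY1)),
    fun n hn r hr => ?_⟩
  have hM : ∀ (j a i i' k : ℕ), j < q → i < l → a < n * l → i' < n * (g1 + g2) → k < g1 + g2 →
      |(((FF q r j a).coeff i' * (HH q r j i).coeff k : ℤ) : ℝ)| ≤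
        Y ^ (2 * (q + l + (g1 + g2)) * n) := by
    intro j a i i' k h1 h2 h3 h4 h5
    have b1 := bd_two (by positivity) hr (bd_lin 1 (-(q : ℤ) ^ 2) (ρ := (q : ℝ) ^ 2) (by simp)
      (by simp)) (q - j) a i'
    have b2 := bd_two (by positivity) hr (bd_lin 0 ((q : ℤ) ^ 2) (ρ := (q : ℝ) ^ 2) (by simp)
      (by simp)) j i k
    rw [Int.cast_mul, abs_mul]
    calc _ ≤ 2 ^ (q - j + a) * Y ^ i' * (2 ^ (j + i) * Y ^ k) :=
          mul_le_mul b1 b2 (abs_nonneg _) (by positivity)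
      _ ≤ Y ^ (q - j + a) * Y ^ i' * (Y ^ (j + i) * Y ^ k) := by gcongr
      _ = Y ^ (q - j + a + i' + (j + i + k)) := by ring
      _ ≤ _ := pow_le_pow_right₀ hY1 (by
          have e : 2 * (q + l + (g1 + g2)) * n =
            q * n + q * n + n * l + l * n + n * (g1 + g2) + (g1 + g2) * n := by ring
          have := Nat.le_mul_of_pos_right q hn
          have := Nat.le_mul_of_pos_right l hn
          have := Nat.le_mul_of_pos_right (g1 + g2) hn
          omega)
  have hD : ∑ w : Fin q × Fin l, n * (l - w.2) = n * (q * tri l) := by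
    rw [Fintype.sum_prod_type]
    simp only [sum_tri, sum_const, card_univ, Fintype.card_fin, smul_eq_mul]
    ring
  have hc : Fintype.card ((Σ k : Fin g1, Fin (n * (g1 - k))) ⊕
      (Fin (q - 1) × Σ k : Fin g2, Fin (n * (g2 - k)))) = n * E := by
    simp only [Fintype.card_sum, Fintype.card_prod, Fintype.card_sigma, Fintype.card_fin, sum_tri]
    rw [hEd]
    ring
  have hE0 : 0 < E := by
    have := two_tri g1
    have : 0 < g1 * (g1 + 1) := by positivity
    omega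
  obtain ⟨c, c1, c2, c3, c4⟩ := siegel_fam (fun w : Fin q × Fin l => n * (l - w.2))
    (fun (ρ : (Σ k : Fin g1, Fin (n * (g1 - k))) ⊕
      (Fin (q - 1) × Σ k : Fin g2, Fin (n * (g2 - k)))) w a => match ρ with
        | .inl u => (FF q r w.1 a).coeff u.2 * (HH q r w.1 w.2).coeff u.1
        | .inr u => sg (u.1 + 1) w.1 * ((FF q r w.1 a).coeff u.2.2 * (HH q r w.1 w.2).coeff u.2.1))
    (B := Y ^ (2 * (q + l + (g1 + g2)) * n)) (one_le_pow₀ hY1) (by
      rintro (u | u) w a ha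
      · exact hM _ _ _ _ _ w.1.2 w.2.2 (ha.trans_le (Nat.mul_le_mul_left n (by omega)))
          (u.2.2.trans_le (Nat.mul_le_mul_left n (by omega))) (by have := u.1.2; omega)
      · dsimp only
        rw [Int.cast_mul, abs_mul]
        refine (mul_le_of_le_one_left (abs_nonneg _) (sg_le _ _)).trans ?_
        exact hM _ _ _ _ _ w.1.2 w.2.2 (ha.trans_le (Nat.mul_le_mul_left n (by omega)))
          (u.2.2.2.trans_le (Nat.mul_le_mul_left n (by omega))) (by have := u.2.1.2; omega))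
    E (by rw [hc]; positivity) (by
      rw [hc, hD]
      calc (E + 1) * (n * E) = E * (n * (E + 1)) := by ring
        _ ≤ _ := by gcongr; omega)
  refine ⟨c, c1, c2, fun w a => (c3 w a).trans ?_, fun i k h => ?_, fun j hj i k h => ?_⟩
  · rw [hD, pow_right_comm, mul_pow (Y ^ (1 + q * tri l)), ← pow_mul, ← pow_mul]
    refine pow_le_pow_left₀ (by positivity) (mul_le_mul_of_nonneg_right ?_ (by positivity)) E
    calc ((n * (q * tri l) : ℕ) : ℝ) ≤ Y ^ n * Y ^ (q * tri l) := by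
          rw [Nat.cast_mul]
          exact mul_le_mul (nat_le_pow' hY2 _) (nat_le_pow' hY2 _) (by positivity) (by positivity)
      _ ≤ _ := by
          rw [← pow_add]
          exact pow_le_pow_right₀ hY1 (by nlinarith [Nat.le_mul_of_pos_right (q * tri l) hn])
  · exact c4 (.inl ⟨⟨k, (tri_lt h).1⟩, i, (tri_lt h).2⟩)
  · have := c4 (.inr (⟨j, by omega⟩, ⟨⟨k, (tri_lt h).1⟩, i, (tri_lt h).2⟩))
    simpa only [mul_assoc, mon] using this

/-- the deformed value of the auxiliary polynomial -/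
noncomputable def PP {q l : ℕ} (n : ℕ) (c : Fin q × Fin l → ℕ → ℤ) (x y v U : ℤ) : ℤ[X] :=
  ∑ w ∈ mon q l n, C (c w.1 w.2 * (y ^ (w.1.1 : ℕ) * v ^ (q - w.1.1) *
    (U ^ (w.1.2 : ℕ) * (1 - x) ^ w.2))) * (C 1 + C x * X) ^ (q * w.2 + (q - w.1.1))

theorem coeff_mono_sum {ι : Type*} (S : Finset ι) (φ : ι → ℕ) (c : ι → ℤ) {H : ℝ}
    (h : ∀ w, |(c w : ℝ)| ≤ H) (m : ℕ) :
    |((∑ w ∈ S, monomial (φ w) (c w)).coeff m : ℝ)| ≤ #S * H := by
  rw [finsetSum_coeff, Int.cast_sum, ← nsmul_eq_mul]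
  refine (abs_sum_le_sum_abs _ _).trans (sum_le_card_nsmul _ _ _ fun w _ => ?_)
  rw [coeff_monomial]
  split_ifs
  · exact h w
  · simpa using (abs_nonneg _).trans (h w)

theorem not_dvd_PP {q l n e : ℕ} (hq : 1 ≤ q) {c : Fin q × Fin l → ℕ → ℤ} (c1 : ∃ w a, c w a ≠ 0)
    (c2 : ∀ w a, n * (l - w.2) ≤ a → c w a = 0) {H : ℝ} (hH : 1 ≤ H) (c3 : ∀ w a, |(c w a : ℝ)| ≤ H)
    {x y v U : ℤ} (hx : 2 ≤ x) (hy : y ≠ 0) (hv : v ≠ 0) (h1 : (l + 1) * (l * H) < |(U : ℝ)|)
    (h : X ^ (e + q * l) ∣ PP n c x y v U) : ((x : ℝ) - 1) ^ e ≤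
      ((24 * (q * (n * l) + q : ℕ) ^ 2 * ((n * l + 1 : ℕ) * H)) ^ 2 ^ (q * l)) ^ q := by
  obtain ⟨σ, hσ⟩ := IsAlgClosed.exists_pow_nat_eq (1 - x : ℂ) hq
  have hx0 : (x : ℂ) ≠ 0 := by exact_mod_cast (by omega : x ≠ 0)
  have hσ0 : σ ≠ 0 := by
    rintro rfl
    rw [zero_pow (by omega), eq_comm, sub_eq_zero] at hσ
    have : (1 : ℤ) = x := by exact_mod_cast hσ
    omega
  let f : Fin q × Fin l → ℤ[X] := fun w =>
    ∑ a ∈ range (n * (l - w.2)), monomial (q * a + (q - w.1)) (c w a)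
  let lam : Fin q × Fin l → ℂ := fun w =>
    y ^ (w.1 : ℕ) * v ^ (q - w.1) * U ^ (w.2 : ℕ) * σ⁻¹ ^ (q - w.1)
  have hF : aeval (C (x * σ)⁻¹ * (X - C σ)) (PP n c x y v U) =
      ∑ w, C (lam w) * (f w).map (Int.castRingHom ℂ) := by
    have e1 : aeval (C (x * σ)⁻¹ * (X - C σ)) (C 1 + C x * X : ℤ[X]) = C σ⁻¹ * X := by
      simp only [map_add, map_mul, aeval_X, map_one, eq_intCast, map_intCast]
      rw [← map_intCast (C : ℂ →+* ℂ[X]), ← mul_assoc, ← C_mul, mul_sub, ← C_mul, mul_inv,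
        ← mul_assoc, mul_inv_cancel₀ hx0, one_mul, inv_mul_cancel₀ hσ0, C_1]
      ring
    rw [PP, map_sum, mon, sum_sigma]
    refine sum_congr rfl fun w _ => ?_
    rw [Polynomial.map_sum, mul_sum]
    refine sum_congr rfl fun a _ => ?_
    rw [map_mul, map_pow, e1, aeval_C, map_monomial, ← C_mul_X_pow_eq_monomial, mul_pow, ← C_pow,
      eq_intCast, ← map_intCast (C : ℂ →+* ℂ[X]), ← mul_assoc, ← C_mul, ← mul_assoc (C (lam w)), ← C_mul]
    congr 2
    simp only [lam, eq_intCast]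
    push_cast
    rw [← hσ, ← pow_mul, pow_add, inv_pow]
    field_simp
  have hne : ∑ w, C (lam w) * (f w).map (Int.castRingHom ℂ) ≠ 0 := by
    obtain ⟨⟨j0, i0⟩, a0, h0⟩ := c1
    intro hz
    have k1 : ∀ w : Fin q × Fin l, (f w).coeff (q * a0 + (q - j0)) =
        if w.1 = j0 then c w a0 else 0 := by
      intro w
      have hinj : ∀ a, q * a + (q - w.1) = q * a0 + (q - j0) → w.1 = j0 ∧ a = a0 := by
        intro a ha
        have a1 := w.1.2
        have a2 := j0.2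
        have : a = a0 := by
          rcases lt_trichotomy a a0 with h | h | h
          · have := Nat.mul_le_mul_left q (Nat.succ_le_of_lt h)
            rw [Nat.mul_succ] at this
            omega
          · exact h
          · have := Nat.mul_le_mul_left q (Nat.succ_le_of_lt h)
            rw [Nat.mul_succ] at this
            omega
        subst this
        exact ⟨Fin.ext (by omega), rfl⟩
      rw [finsetSum_coeff, sum_eq_single a0 (fun a _ ha => by
        rw [coeff_monomial, if_neg fun h => ha (hinj a h).2]) (fun ha => by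
        rw [c2 w a0 (by simpa using ha), monomial_zero_right, coeff_zero]), coeff_monomial]
      split_ifs with b1 b2 b2
      · rfl
      · exact absurd (hinj _ b1).1 b2
      · exact absurd (by rw [b2]) b1
      · rfl
    have k2 := congrArg (fun F => F.coeff (q * a0 + (q - j0))) hz
    simp only [finsetSum_coeff, coeff_C_mul, coeff_map, k1, coeff_zero, Fintype.sum_prod_type] at k2
    rw [sum_eq_single j0 (fun j _ hj => by simp [hj]) (by simp)] at k2
    let g : ℤ[X] := ∑ i : Fin l, monomial i (c (j0, i) a0)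
    have g0 : g ≠ 0 := by
      intro hg
      have := congrArg (fun F => F.coeff i0) hg
      simp only [g, finsetSum_coeff, coeff_monomial, coeff_zero, Fin.val_inj] at this
      exact h0 (by simpa using this)
    have g1 : (X - C (U : ℂ)) ^ 1 ∣ g.map (Int.castRingHom ℂ) := by
      rw [pow_one, dvd_iff_isRoot, IsRoot.def]
      have hy0 : (y : ℂ) ≠ 0 := by exact_mod_cast hy
      have hv0 : (v : ℂ) ≠ 0 := by exact_mod_cast hv
      refine mul_left_cancel₀ (mul_ne_zero (mul_ne_zero (pow_ne_zero (j0 : ℕ) hy0)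
        (pow_ne_zero (q - j0) hv0)) (pow_ne_zero (q - j0) (inv_ne_zero hσ0))) ?_
      rw [mul_zero]
      refine Eq.trans ?_ k2
      rw [Polynomial.map_sum, eval_finsetSum, mul_sum]
      refine sum_congr rfl fun i _ => ?_
      simp only [map_monomial, eval_monomial, lam, if_true]
      ring
    have g2 := mahler_bound g0 (d := l) (natDegree_sum_le_of_forall_le _ _ fun i _ =>
      (natDegree_monomial_le _).trans i.2.le) (coeff_mono_sum _ _ _ fun i => c3 _ _) g1
    rw [pow_one, Complex.norm_intCast, card_univ, Fintype.card_fin] at g2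
    linarith
  have hd : (X - C σ) ^ (e + q * l) ∣ ∑ w, C (lam w) * (f w).map (Int.castRingHom ℂ) := by
    rw [← hF]
    have := map_dvd (aeval (C (x * σ)⁻¹ * (X - C σ))) h
    rw [map_pow, aeval_X, mul_pow] at this
    exact (Dvd.intro_left _ rfl).trans this
  have hz := zero_est σ lam e (q * l) univ f (q * (n * l) + q) ((n * l + 1 : ℕ) * H) _ (by simp)
    (by omega) (one_le_mul_of_one_le_of_one_le (by exact_mod_cast Nat.le_add_left 1 _) hH)
    (fun w _ => natDegree_sum_le_of_forall_le _ _ fun a ha => (natDegree_monomial_le _).trans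
      (add_le_add (Nat.mul_le_mul_left q ((mem_range.1 ha).le.trans
        (Nat.mul_le_mul_left n (Nat.sub_le _ _)))) (Nat.sub_le _ _)))
    (fun w _ m => (coeff_mono_sum _ _ _ (c3 w) m).trans (by
      rw [card_range]
      gcongr
      exact (Nat.mul_le_mul_left n (Nat.sub_le _ _)).trans (Nat.le_succ _))) le_rfl hne hd
  have hn : ‖σ‖ ^ q = x - 1 := by
    rw [← norm_pow, hσ, norm_sub_rev]
    have : (x : ℂ) - 1 = ((x - 1 : ℤ) : ℂ) := by push_cast; ring
    rw [this, Complex.norm_intCast, abs_of_nonneg (by exact_mod_cast (by omega : 0 ≤ x - 1))]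
    push_cast
    ring
  rw [← hn, ← pow_mul, mul_comm, pow_mul]
  exact pow_le_pow_left₀ (by positivity) hz q

end Pool.Agent.P.MP_71e30e_nt
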