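import Pool.Agent.P.MP_71e30e_nt.GCore

set_option autoImplicit false

/-! Finitely many zeros on the curve. -/

namespace Pool.Agent.P.MP_71e30e_nt

open Polynomial Finset

theorem geom_simple_root {n : ℕ} (hn : 2 ≤ n) :
    ∃ w : ℂ, X - C w ∣ ∑ i ∈ range n, (X : ℂ[X]) ^ i ∧
      ¬ (X - C w) ^ 2 ∣ ∑ i ∈ range n, (X : ℂ[X]) ^ i := by
  set f : ℂ[X] := ∑ i ∈ range n, X ^ i with hf
  have e : f * (X - 1) = X ^ n - 1 := geom_sum_mul X n
  have hs : (f * (X - 1)).Separable := by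
    rw [e, X_pow_sub_one_separable_iff]
    exact Nat.cast_ne_zero.2 (by omega)
  have hd : f.degree ≠ 0 := by
    intro h
    have h1 := eq_C_of_degree_eq_zero h
    have a0 : f.eval 0 = f.eval 1 := by rw [h1]; simp
    obtain ⟨m, rfl⟩ : ∃ m, n = m + 2 := ⟨n - 2, by omega⟩
    rw [hf, eval_geom_sum, eval_geom_sum, zero_geom_sum, one_geom_sum, if_neg (by omega)] at a0
    have a1 : ((m + 2 : ℕ) : ℂ) = ((1 : ℕ) : ℂ) := by rw [← a0]; simp
    have := Nat.cast_injective a1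
    omega
  obtain ⟨w, hw⟩ := IsAlgClosed.exists_root f hd
  refine ⟨w, dvd_iff_isRoot.2 hw, fun h => ?_⟩
  rw [sq] at h
  exact not_isUnit_X_sub_C w (hs.of_mul_left.squarefree _ h)

theorem curve_prime {q : ℕ} (hq : 1 ≤ q) {f : ℂ[X]} {w : ℂ} (h1 : X - C w ∣ f)
    (h2 : ¬ (X - C w) ^ 2 ∣ f) : Prime (X ^ q - C f : ℂ[X][X]) := by
  have hm : (X ^ q - C f : ℂ[X][X]).Monic := monic_X_pow_sub_C f (by omega)
  have hd : (X ^ q - C f : ℂ[X][X]).degree = q := degree_X_pow_sub_C (by omega) f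
  have hP : (Ideal.span {(X - C w : ℂ[X])}).IsPrime :=
    (Ideal.span_singleton_prime (X_sub_C_ne_zero w)).2 (prime_X_sub_C w)
  refine (irreducible_of_eisenstein_criterion hP ?_ ?_ ?_ ?_ hm.isPrimitive).prime
  · rw [hm.leadingCoeff]
    exact hP.one_notMem
  · intro k hk
    rw [hd, Nat.cast_lt] at hk
    rw [coeff_sub, coeff_X_pow, if_neg hk.ne, zero_sub, neg_mem_iff, coeff_C]
    split_ifs
    · exact Ideal.mem_span_singleton.2 h1
    · exact zero_mem _
  · rw [hd]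
    exact_mod_cast hq
  · rw [coeff_sub, coeff_X_pow, if_neg (by omega), zero_sub, neg_mem_iff, coeff_C_zero,
      Ideal.span_singleton_pow, Ideal.mem_span_singleton]
    exact h2

/-- a nonzero polynomial of degree `< q` in `y` has finitely many zeros on the curve -/
theorem small_ne {q n : ℕ} (hq : 1 ≤ q) (hn : 2 ≤ n) (c : Fin q → ℤ[X]) (hc : c ≠ 0) :
    ∃ Z : ℝ, ∀ x y : ℤ, Z ≤ x → (1 - x) * y ^ q = 1 - x ^ n →
      ∑ j, (c j).eval x * y ^ (j : ℕ) ≠ 0 := by
  obtain ⟨w, h1, h2⟩ := geom_simple_root hn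
  set f : ℂ[X] := ∑ i ∈ range n, X ^ i with hf
  set P : ℂ[X][X] := X ^ q - C f with hP
  have hm : P.Monic := monic_X_pow_sub_C f (by omega)
  have := AdjoinRoot.isDomain_of_prime (curve_prime hq h1 h2)
  have := hm.finite_adjoinRoot
  set Q : ℂ[X][X] := ∑ j : Fin q, C ((c j).map (Int.castRingHom ℂ)) * X ^ (j : ℕ) with hQ
  have hQd : Q.degree < P.degree := by
    rw [degree_X_pow_sub_C (by omega) f]
    exact degree_sum_fin_lt _
  have hQ0 : Q ≠ 0 := by
    intro h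
    refine hc (funext fun j => ?_)
    have := congrArg (coeff · j) h
    simp only [hQ, finset_sum_coeff, coeff_C_mul_X_pow, Fin.val_inj, sum_ite_eq, mem_univ,
      if_true, coeff_zero] at this
    exact (Polynomial.map_eq_zero_iff (Int.castRingHom ℂ).injective_int).1 this
  have hk := AdjoinRoot.mk_ne_zero_of_degree_lt hm hQ0 hQd
  obtain ⟨R, hR, hR0⟩ := Submodule.exists_mem_ne_zero_of_ne_bot
    (Ideal.comap_ne_bot_of_integral_mem (R := ℂ[X]) hk (Ideal.mem_span_singleton_self _)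
      (Algebra.IsIntegral.isIntegral _))
  obtain ⟨b, hb⟩ := Ideal.mem_span_singleton.1 (Ideal.mem_comap.1 hR)
  obtain ⟨B, hB⟩ := ((R.roots.toFinset.image Complex.re)).bddAbove
  refine ⟨max B 1 + 1, fun x y hx he h0 => ?_⟩
  have hx1 : (1 : ℝ) < x := by linarith [le_max_right B 1]
  have hx2 : (1 : ℂ) - x ≠ 0 := by
    intro h
    have : (1 : ℝ) - x = 0 := by exact_mod_cast h
    linarith
  have hy : P.eval₂ (evalRingHom (x : ℂ)) (y : ℂ) = 0 := by
    have e : ((1 : ℂ) - x) * y ^ q = 1 - x ^ n := by exact_mod_cast he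
    refine mul_left_cancel₀ hx2 ?_
    rw [hP, eval₂_sub, eval₂_X_pow, eval₂_C, coe_evalRingHom, hf, eval_geom_sum, mul_sub, e,
      mul_neg_geom_sum, sub_self, mul_zero]
  have hQz : Q.eval₂ (evalRingHom (x : ℂ)) (y : ℂ) = 0 := by
    have e : ((∑ j, (c j).eval x * y ^ (j : ℕ) : ℤ) : ℂ) = 0 := by rw [h0, Int.cast_zero]
    rw [← e, hQ, eval₂_finset_sum, Int.cast_sum]
    refine sum_congr rfl fun j _ => ?_
    rw [eval₂_mul, eval₂_C, eval₂_X_pow, coe_evalRingHom, eval_intCast_map]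
    simp
  have hz := congrArg (AdjoinRoot.lift _ _ hy) hb
  rw [map_mul, AdjoinRoot.lift_mk, hQz, zero_mul, AdjoinRoot.algebraMap_eq, AdjoinRoot.lift_of,
    coe_evalRingHom] at hz
  have := hB (mem_coe.2 (mem_image_of_mem _ (Multiset.mem_toFinset.2 ((mem_roots hR0).2 hz))))
  rw [Complex.intCast_re] at this
  linarith [le_max_left B 1]

end Pool.Agent.P.MP_71e30e_nt
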