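import Pool.Agent.P.MP_71e30e_nt.Alg

set_option autoImplicit false

/-! A zero estimate for linear combinations of integer polynomials of small height. -/

namespace Pool.Agent.P.MP_71e30e_nt

open Polynomial Finset

theorem mahler_bound {f : ℤ[X]} (hf : f ≠ 0) {d : ℕ} (hd : f.natDegree ≤ d) {H : ℝ}
    (hH : ∀ i, |(f.coeff i : ℝ)| ≤ H) {σ : ℂ} {m : ℕ}
    (h : (X - C σ) ^ m ∣ f.map (Int.castRingHom ℂ)) : ‖σ‖ ^ m ≤ (d + 1) * H := by
  obtain ⟨g, hg⟩ := h
  have hinj : Function.Injective (Int.castRingHom ℂ) := Int.cast_injective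
  have h1 : ∀ k : ℕ, ((X - C σ) ^ k : ℂ[X]).mahlerMeasure = max 1 ‖σ‖ ^ k := by
    intro k
    induction k with
    | zero => simp
    | succ k ih => rw [pow_succ, mahlerMeasure_mul, ih, mahlerMeasure_X_sub_C, pow_succ]
  have h2 : 1 ≤ g.mahlerMeasure := by
    refine one_le_mahlerMeasure_of_one_le_norm_leadingCoeff ?_
    have h3 := congrArg leadingCoeff hg
    rw [leadingCoeff_monic_mul ((monic_X_sub_C σ).pow m), leadingCoeff_map_of_injective hinj] at h3
    rw [← h3, eq_intCast, Complex.norm_intCast]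
    exact_mod_cast Int.one_le_abs (leadingCoeff_ne_zero.2 hf)
  have h0 : 0 ≤ H := (abs_nonneg _).trans (hH 0)
  calc ‖σ‖ ^ m ≤ max 1 ‖σ‖ ^ m * g.mahlerMeasure :=
        (pow_le_pow_left₀ (norm_nonneg _) (le_max_right _ _) m).trans
          (le_mul_of_one_le_right (by positivity) h2)
    _ = (f.map (Int.castRingHom ℂ)).mahlerMeasure := by rw [hg, mahlerMeasure_mul, h1]
    _ ≤ ∑ i ∈ range (d + 1), ‖(f.map (Int.castRingHom ℂ)).coeff i‖ := by
        refine (mahlerMeasure_le_sum_norm_coeff _).trans (le_of_eq ?_)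
        exact sum_over_range' _ (fun _ => norm_zero) _
          (Nat.lt_succ_of_le (natDegree_map_le.trans hd))
    _ ≤ ∑ _i ∈ range (d + 1), H := sum_le_sum fun i _ => by
        rw [coeff_map, eq_intCast, Complex.norm_intCast]
        exact hH i
    _ = (d + 1) * H := by simp

theorem order_eq {F f : ℂ[X]} (hF : F ≠ 0) (hf : f ≠ 0) (h : f * derivative F = derivative f * F)
    {σ : ℂ} {e : ℕ} (he : (X - C σ) ^ e ∣ F) : (X - C σ) ^ e ∣ f := by
  obtain ⟨a, ha, ha'⟩ := exists_eq_pow_rootMultiplicity_mul_and_not_dvd F hF σ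
  obtain ⟨b, hb, hb'⟩ := exists_eq_pow_rootMultiplicity_mul_and_not_dvd f hf σ
  rw [← le_rootMultiplicity_iff hF] at he
  rw [← le_rootMultiplicity_iff hf]
  generalize rootMultiplicity σ F = i at *
  generalize rootMultiplicity σ f = j at *
  have h1 := mul_derivative σ i a
  have h2 := mul_derivative σ j b
  rw [← ha] at h1
  rw [← hb] at h2
  have h3 : (X - C σ) ^ (i + j) * (b * ((i : ℂ[X]) * a + (X - C σ) * derivative a) -
      ((j : ℂ[X]) * b + (X - C σ) * derivative b) * a) = 0 := by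
    rw [pow_add]
    linear_combination (X - C σ) * h - f * h1 + F * h2 -
      (X - C σ) ^ i * ((i : ℂ[X]) * a + (X - C σ) * derivative a) * hb +
      (X - C σ) ^ j * ((j : ℂ[X]) * b + (X - C σ) * derivative b) * ha
  have h4 := congrArg (eval σ)
    ((mul_eq_zero.1 h3).resolve_left (pow_ne_zero _ (X_sub_C_ne_zero σ)))
  rw [dvd_iff_isRoot, IsRoot.def] at ha' hb'
  simp only [eval_sub, eval_mul, eval_add, eval_natCast, eval_X, eval_C, sub_self, zero_mul,
    add_zero, eval_zero] at h4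
  have h5 : ((i : ℂ) - j) * (eval σ a * eval σ b) = 0 := by linear_combination h4
  have h6 : i = j := by
    exact_mod_cast sub_eq_zero.1 ((mul_eq_zero.1 h5).resolve_right (mul_ne_zero ha' hb'))
  omega

theorem coeff_mul_deriv {f g : ℤ[X]} {d : ℕ} (hd : 1 ≤ d) (hf : f.natDegree ≤ d)
    (hg : g.natDegree ≤ d) {H : ℝ} (h1 : ∀ i, |(f.coeff i : ℝ)| ≤ H)
    (h2 : ∀ i, |(g.coeff i : ℝ)| ≤ H) (n : ℕ) :
    |((f * derivative g).coeff n : ℝ)| ≤ 3 * d ^ 2 * H ^ 2 := by
  have h0 : 0 ≤ H := (abs_nonneg _).trans (h1 0)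
  by_cases hn : 2 * d < n
  · rw [coeff_eq_zero_of_natDegree_lt (natDegree_mul_le.trans_lt (by
      have := natDegree_derivative_le g
      omega))]
    simp only [Int.cast_zero, abs_zero]
    positivity
  have h3 : ∀ i, |((derivative g).coeff i : ℝ)| ≤ d * H := by
    intro i
    rw [coeff_derivative]
    by_cases hi : d < i + 1
    · rw [coeff_eq_zero_of_natDegree_lt (hg.trans_lt hi)]
      simp only [zero_mul, Int.cast_zero, abs_zero]
      positivity
    · push_cast
      rw [abs_mul, mul_comm, abs_of_nonneg (by positivity : (0 : ℝ) ≤ i + 1)]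
      have : (i : ℝ) + 1 ≤ d := by exact_mod_cast not_lt.1 hi
      exact mul_le_mul this (h2 _) (abs_nonneg _) (by positivity)
  rw [coeff_mul]
  push_cast
  refine (abs_sum_le_sum_abs _ _).trans ((sum_le_card_nsmul _ _ (H * (d * H)) fun p _ => ?_).trans ?_)
  · rw [abs_mul]
    exact mul_le_mul (h1 _) (h3 _) (abs_nonneg _) h0
  · rw [Finset.Nat.card_antidiagonal, nsmul_eq_mul]
    have : ((n + 1 : ℕ) : ℝ) ≤ 3 * d := by exact_mod_cast (by omega : n + 1 ≤ 3 * d)
    calc ((n + 1 : ℕ) : ℝ) * (H * (d * H)) ≤ 3 * d * (H * (d * H)) := by gcongr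
      _ = _ := by ring

theorem zero_est {ι : Type*} (σ : ℂ) (lam : ι → ℂ) (e k : ℕ) :
    ∀ (S : Finset ι) (f : ι → ℤ[X]) (d : ℕ) (H K : ℝ), #S ≤ k → 1 ≤ d → 1 ≤ H →
      (∀ i ∈ S, (f i).natDegree ≤ d) → (∀ i ∈ S, ∀ n, |((f i).coeff n : ℝ)| ≤ H) →
      24 * d ^ 2 * H ≤ K → ∑ i ∈ S, C (lam i) * (f i).map (Int.castRingHom ℂ) ≠ 0 →
      (X - C σ) ^ (e + k) ∣ ∑ i ∈ S, C (lam i) * (f i).map (Int.castRingHom ℂ) →
      ‖σ‖ ^ e ≤ K ^ 2 ^ k := by
  classical
  induction k with
  | zero =>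
    intro S f d H K hS _ _ _ _ _ hF _
    rw [Nat.le_zero, card_eq_zero] at hS
    simp [hS] at hF
  | succ k ih =>
    intro S f d H K hS hd hH h1 h2 hK hF hdv
    obtain ⟨i0, hi0, h0⟩ := exists_ne_zero_of_sum_ne_zero hF
    have hf0 : (f i0).map (Int.castRingHom ℂ) ≠ 0 := right_ne_zero_of_mul h0
    have hf0' : f i0 ≠ 0 := fun h => hf0 (by rw [h, Polynomial.map_zero])
    have hdR : (1 : ℝ) ≤ d := by exact_mod_cast hd
    have hK1 : (d + 1) * H ≤ K := by nlinarith [mul_nonneg (sub_nonneg.2 hdR) (sub_nonneg.2 hH)]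
    have hK2 : 1 ≤ K := by nlinarith
    set F := ∑ i ∈ S, C (lam i) * (f i).map (Int.castRingHom ℂ) with hFd
    let g : ι → ℤ[X] := fun i => f i0 * derivative (f i) - f i * derivative (f i0)
    have hg : ∑ i ∈ S.erase i0, C (lam i) * (g i).map (Int.castRingHom ℂ) =
        (f i0).map (Int.castRingHom ℂ) * derivative F -
          derivative ((f i0).map (Int.castRingHom ℂ)) * F := by
      rw [sum_erase _ (by simp [g]), hFd, derivative_sum, mul_sum, mul_sum, ← sum_sub_distrib]
      refine sum_congr rfl fun i _ => ?_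
      simp only [g, Polynomial.map_sub, Polynomial.map_mul, derivative_mul, derivative_C, zero_mul,
        zero_add, derivative_map]
      ring
    by_cases hz : ∑ i ∈ S.erase i0, C (lam i) * (g i).map (Int.castRingHom ℂ) = 0
    · rw [hg, sub_eq_zero] at hz
      have h3 := mahler_bound hf0' (h1 i0 hi0) (h2 i0 hi0)
        ((pow_dvd_pow _ (Nat.le_add_right e (k + 1))).trans (order_eq hF hf0 hz hdv))
      exact (h3.trans hK1).trans (le_self_pow₀ hK2 (by positivity))
    · have h3 := ih (S.erase i0) g (2 * d) (6 * d ^ 2 * H ^ 2) (K ^ 2)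
        (by rw [card_erase_of_mem hi0]; omega) (by omega)
        (by nlinarith [one_le_pow₀ (n := 2) hdR, one_le_pow₀ (n := 2) hH]) (fun i hi => ?_)
        (fun i hi n => ?_) ?_ hz ?_
      · rwa [← pow_mul, ← pow_succ'] at h3
      · have a1 := h1 i (mem_of_mem_erase hi)
        have a2 := h1 i0 hi0
        have a3 := natDegree_derivative_le (f i)
        have a4 := natDegree_derivative_le (f i0)
        exact (natDegree_sub_le _ _).trans (max_le (natDegree_mul_le.trans (by omega))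
          (natDegree_mul_le.trans (by omega)))
      · have hi' := mem_of_mem_erase hi
        have a1 := coeff_mul_deriv hd (h1 i0 hi0) (h1 i hi') (h2 i0 hi0) (h2 i hi') n
        have a2 := coeff_mul_deriv hd (h1 i hi') (h1 i0 hi0) (h2 i hi') (h2 i0 hi0) n
        rw [coeff_sub, Int.cast_sub]
        exact (abs_sub _ _).trans (by linarith)
      · calc (24 : ℝ) * ((2 * d : ℕ) : ℝ) ^ 2 * (6 * d ^ 2 * H ^ 2) = (24 * d ^ 2 * H) ^ 2 := by
              push_cast; ring
          _ ≤ K ^ 2 := by gcongr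
      · rw [hg]
        exact dvd_sub ((pow_sub_one_dvd_derivative_of_pow_dvd hdv).mul_left _)
          (((pow_dvd_pow _ (by omega)).trans hdv).mul_left _)

end Pool.Agent.P.MP_71e30e_nt
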