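import Mathlib

set_option autoImplicit false

/-! Product formula with ideal denominators and the root in the cyclotomic field. -/

namespace Pool.Agent.P.MP_71e30e_nt.Cyc

open Finset NumberField Polynomial

variable {K : Type} [Field K] [NumberField K]

/-- the inclusion of the integers -/
abbrev am (K : Type) [Field K] : 𝓞 K →+* K := algebraMap (𝓞 K) K

theorem am_inj : Function.Injective (am K) := IsFractionRing.injective (𝓞 K) K

theorem am_int (a : 𝓞 K) : IsIntegral ℤ (am K a) := a.isIntegral_coe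

theorem am_surj {z : K} (h : IsIntegral ℤ z) : ∃ a, am K a = z := ⟨⟨z, h⟩, rfl⟩

/-- absolute value of the norm, as a product over the complex embeddings -/
noncomputable def pn (z : K) : ℝ := ∏ φ : K →ₐ[ℚ] ℂ, ‖φ z‖

theorem pn_mul (z w : K) : pn (z * w) = pn z * pn w := by simp [pn, prod_mul_distrib]

theorem pn_nonneg (z : K) : 0 ≤ pn z := prod_nonneg fun _ _ => norm_nonneg _

theorem pn_int (z : 𝓞 K) : pn (am K z) = (Ideal.absNorm (Ideal.span {z}) : ℝ) := by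
  change pn (z : K) = _
  have h := congrArg norm (Algebra.norm_eq_prod_embeddings ℚ ℂ (z : K))
  rw [norm_prod, ← Algebra.coe_norm_int] at h
  rw [pn, ← h, Ideal.absNorm_span_singleton]
  simp

theorem pn_nat (M : ℕ) : pn (M : K) = M ^ Module.finrank ℚ K := by
  simp [pn, AlgHom.card]

/-- the ideal clears the denominator -/
def Cl (I : Ideal (𝓞 K)) (z : K) : Prop := ∀ a ∈ I, IsIntegral ℤ (am K a * z)

theorem Cl.of_int (I : Ideal (𝓞 K)) {z : K} (hz : IsIntegral ℤ z) : Cl I z :=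
  fun a _ => (am_int a).mul hz

theorem Cl.mul {I J : Ideal (𝓞 K)} {z w : K} (h : Cl I z) (h' : Cl J w) : Cl (I * J) (z * w) := by
  intro a ha
  refine Submodule.mul_induction_on ha (fun b hb c hc => ?_) fun b c hb hc => ?_
  · have := (h b hb).mul (h' c hc)
    rwa [mul_mul_mul_comm, ← map_mul] at this
  · have := hb.add hc
    rwa [← add_mul, ← map_add] at this

theorem Cl.pow {I : Ideal (𝓞 K)} {z : K} (h : Cl I z) {e D : ℕ} (he : e ≤ D) :
    Cl (I ^ D) (z ^ e) := by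
  have h1 : ∀ n, Cl (I ^ n) (z ^ n) := fun n => by
    induction n with
    | zero => exact Cl.of_int _ (by simpa using isIntegral_one)
    | succ n ih => rw [pow_succ, pow_succ]; exact ih.mul h
  exact fun a ha => h1 e a (Ideal.pow_le_pow_right he ha)

theorem Cl.prod {ι : Type} (s : Finset ι) {I : ι → Ideal (𝓞 K)} {z : ι → K}
    (h : ∀ i ∈ s, Cl (I i) (z i)) : Cl (∏ i ∈ s, I i) (∏ i ∈ s, z i) := by
  classical
  induction s using Finset.induction_on with
  | empty => exact Cl.of_int _ (by simpa using isIntegral_one)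
  | insert i s hi ih =>
    rw [prod_insert hi, prod_insert hi]
    exact (h i (mem_insert_self _ _)).mul (ih fun j hj => h j (mem_insert_of_mem hj))

theorem Cl.sum {ι : Type} (s : Finset ι) {I : Ideal (𝓞 K)} {z : ι → K}
    (h : ∀ i ∈ s, Cl I (z i)) : Cl I (∑ i ∈ s, z i) := fun a ha => by
  rw [mul_sum]
  exact IsIntegral.sum _ fun i hi => h i hi a ha

theorem Cl.int_mul {I : Ideal (𝓞 K)} {z w : K} (h : Cl I z) (hw : IsIntegral ℤ w) :
    Cl I (w * z) := fun a ha => by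
  rw [mul_left_comm]
  exact hw.mul (h a ha)

theorem Cl.pf {I : Ideal (𝓞 K)} {z : K} (h : Cl I z) (hI : I ≠ ⊥) (hz : z ≠ 0) :
    1 ≤ (Ideal.absNorm I : ℝ) * pn z := by
  obtain ⟨c, hc, hc0⟩ := Submodule.exists_mem_ne_zero_of_ne_bot hI
  obtain ⟨e, he⟩ := am_surj (h c hc)
  have hcK : am K c ≠ 0 := by simpa using hc0
  have he0 : e ≠ 0 := fun k => mul_ne_zero hcK hz (by rw [← he, k]; simp)
  have h1 : I * Ideal.span {e} ≤ Ideal.span {c} := by
    rw [Ideal.mul_le]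
    intro a ha b hb
    obtain ⟨b, rfl⟩ := Ideal.mem_span_singleton'.1 hb
    obtain ⟨d, hd⟩ := am_surj (h a ha)
    refine Ideal.mem_span_singleton'.2 ⟨b * d, am_inj ?_⟩
    simp only [map_mul, he, hd]
    ring
  have h2 := Nat.le_of_dvd (Nat.pos_of_ne_zero (by
    rw [Ne, Ideal.absNorm_eq_zero_iff]
    exact mul_ne_zero hI (by simpa using he0))) (Ideal.absNorm_dvd_absNorm_of_le h1)
  have h3 : pn (am K c) ≤ Ideal.absNorm I * pn (am K e) := by
    rw [pn_int, pn_int]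
    rw [map_mul] at h2
    exact_mod_cast h2
  have h4 : 0 < pn (am K c) := prod_pos fun φ _ => by simpa using hc0
  rw [he, pn_mul] at h3
  nlinarith

/-- the root of the cyclotomic factor with its denominator -/
def Rt (p q x y : ℕ) (ξ : 𝓞 K) (u : K) (I : Ideal (𝓞 K)) : Prop :=
  u ^ q * ((x : K) - am K ξ ^ (p - 1)) = x - am K ξ ∧ Ideal.absNorm I = y ∧
    (x : 𝓞 K) - ξ ^ (p - 1) ∈ I ∧ Cl I u

theorem not_dvd_sub {p q x y : ℕ} (hp : p.Prime) (hp2 : p ≠ 2) (hq : 2 ≤ q)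
    (h : ∑ i ∈ range p, x ^ i = y ^ q) : IsCoprime (p : ℤ) ((x : ℤ) - 1) := by
  rw [(Nat.prime_iff_prime_int.1 hp).coprime_iff_not_dvd]
  intro hd
  have h1 : (p : ℤ) ^ 2 ∣ ∑ i ∈ range p, (x : ℤ) ^ i - p := by
    obtain ⟨c, hc⟩ := hd
    have := odd_sq_dvd_geom_sum₂_sub (p := p) (1 : ℤ) c (hp.odd_of_ne_two hp2)
    simpa [show (1 : ℤ) + p * c = x by linarith] using this
  have h2 : (∑ i ∈ range p, (x : ℤ) ^ i) = (y : ℤ) ^ q := by exact_mod_cast h
  rw [h2] at h1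
  have h3 : (p : ℤ) ∣ y := (Nat.prime_iff_prime_int.1 hp).dvd_of_dvd_pow (n := q) (by
    simpa using dvd_add ((dvd_pow_self _ two_ne_zero).trans h1) (dvd_refl (p : ℤ)))
  have h4 : (p : ℤ) ^ 2 ∣ p := by
    simpa using dvd_sub ((pow_dvd_pow_of_dvd h3 2).trans (pow_dvd_pow _ hq)) h1
  have := Int.le_of_dvd (by exact_mod_cast hp.pos) h4
  have h5 : (2 : ℤ) ≤ p := by exact_mod_cast hp.two_le
  nlinarith

section Ring

variable {O : Type} [CommRing O] [IsDomain O] {p x : ℕ} {ζ : O}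

theorem cop_roots (hp : p.Prime) (hζ : IsPrimitiveRoot ζ p) (hx : IsCoprime (p : ℤ) ((x : ℤ) - 1))
    {a b : O} (ha : a ^ p = 1) (hb : b ^ p = 1) (hab : a ≠ b) :
    IsCoprime ((x : O) - a) ((x : O) - b) := by
  have m : ∀ {c : O}, c ^ p = 1 → c ∈ nthRootsFinset p (1 : O) := fun h =>
    (mem_nthRootsFinset hp.pos 1).2 h
  obtain ⟨s, hs⟩ := (hζ.nthRootsFinset_pairwise_associated_sub_one_sub_of_prime hp (m ha) (m hb)
    hab).symm.dvd
  obtain ⟨t, ht⟩ := hζ.sub_one_dvd_natCast hp.one_lt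
  obtain ⟨r, hr⟩ := hζ.sub_one_dvd_sub hp (m ha) (m (one_pow p))
  obtain ⟨c, d, hcd⟩ := hx.map (Int.castRingHom O)
  simp only [eq_intCast, Int.cast_natCast, Int.cast_sub, Int.cast_one] at hcd
  refine ⟨d - s * (c * t + d * r), s * (c * t + d * r), ?_⟩
  linear_combination hcd - c * ht - d * hr - (c * t + d * r) * hs

theorem prod_roots (hp : p.Prime) (hζ : IsPrimitiveRoot ζ p) (x : O) :
    ∏ μ ∈ primitiveRoots p O, (x - μ) = ∑ i ∈ range p, x ^ i := by
  have := Fact.mk hp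
  have h := congrArg (eval x) ((cyclotomic_eq_prod_X_sub_primitiveRoots hζ).symm.trans
    (cyclotomic_prime O p))
  simpa [eval_prod, eval_finset_sum] using h

end Ring

variable {p : ℕ} [IsCyclotomicExtension {p} ℚ K]

theorem rank_eq (hp : p.Prime) : Module.finrank ℚ K = p - 1 := by
  have : NeZero p := ⟨hp.ne_zero⟩
  rw [IsCyclotomicExtension.finrank K (cyclotomic.irreducible_rat hp.pos), Nat.totient_prime hp]

theorem pn_sub (hp : p.Prime) {ξ : K} (hξ : IsPrimitiveRoot ξ p) (x : ℕ) :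
    pn ((x : K) - ξ) = (∑ i ∈ range p, x ^ i : ℕ) := by
  have : NeZero p := ⟨hp.ne_zero⟩
  have e := hξ.embeddingsEquivPrimitiveRoots ℂ (cyclotomic.irreducible_rat hp.pos)
  have h := prod_roots hp (Complex.isPrimitiveRoot_exp p hp.ne_zero) (x : ℂ)
  rw [← prod_coe_sort, ← Equiv.prod_comp
    (hξ.embeddingsEquivPrimitiveRoots ℂ (cyclotomic.irreducible_rat hp.pos))] at h
  have h2 := congrArg norm h
  rw [norm_prod] at h2
  simp only [IsPrimitiveRoot.embeddingsEquivPrimitiveRoots_apply_coe] at h2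
  rw [← Complex.norm_natCast, Nat.cast_sum]
  simp only [pn, map_sub, map_natCast, Nat.cast_pow]
  exact h2

theorem prim_inv {O : Type} [CommMonoid O] (hp : p.Prime) {ξ : O} (hξ : IsPrimitiveRoot ξ p) :
    IsPrimitiveRoot (ξ ^ (p - 1)) p :=
  hξ.pow_of_coprime _ (by
    obtain ⟨r, rfl⟩ : ∃ r, p = r + 1 := ⟨p - 1, by have := hp.pos; omega⟩
    simp)

theorem exists_ideal (hp : p.Prime) (hp2 : p ≠ 2) {q x y : ℕ} (hq : 2 ≤ q)
    (h : ∑ i ∈ range p, x ^ i = y ^ q) {ξ : 𝓞 K} (hξ : IsPrimitiveRoot ξ p) :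
    ∃ J : Ideal (𝓞 K), Ideal.span {(x : 𝓞 K) - ξ} = J ^ q := by
  have hc := not_dvd_sub hp hp2 hq h
  have m : ∀ {a : 𝓞 K}, a ∈ primitiveRoots p (𝓞 K) → a ^ p = 1 := fun k =>
    ((mem_primitiveRoots hp.pos).1 k).pow_eq_one
  refine Finset.exists_eq_pow_of_mul_eq_pow_of_coprime (s := primitiveRoots p (𝓞 K))
    (f := fun a => Ideal.span {(x : 𝓞 K) - a}) (c := Ideal.span {(y : 𝓞 K)})
    (fun a ha b hb hab => (Ideal.isCoprime_span_singleton_iff _ _).2
      (cop_roots hp hξ hc (m ha) (m hb) hab)) ?_ ξ ((mem_primitiveRoots hp.pos).2 hξ)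
  rw [Ideal.prod_span_singleton, prod_roots hp hξ, Ideal.span_singleton_pow]
  congr 2
  exact_mod_cast congrArg (Nat.cast : ℕ → 𝓞 K) h

theorem principal_of_pow {q : ℕ} (hq : q.Prime) (hh : ¬ q ∣ classNumber K) {J : Ideal (𝓞 K)}
    (hJ : J ≠ 0) {a : 𝓞 K} (h : Ideal.span {a} = J ^ q) : ∃ b, J = Ideal.span {b} := by
  have h0 : J ∈ nonZeroDivisors (Ideal (𝓞 K)) := mem_nonZeroDivisors_of_ne_zero hJ
  have h1 : ClassGroup.mk0 ⟨J, h0⟩ ^ q = 1 := by
    rw [← map_pow]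
    exact (ClassGroup.mk0_eq_one_iff (pow_mem h0 q)).2 ⟨a, h.symm⟩
  have h2 : ClassGroup.mk0 ⟨J, h0⟩ ^ classNumber K = 1 := pow_card_eq_one
  have h3 := pow_gcd_eq_one.2 ⟨h1, h2⟩
  rw [(hq.coprime_iff_not_dvd.2 hh : Nat.gcd _ _ = 1), pow_one] at h3
  exact ((ClassGroup.mk0_eq_one_iff h0).1 h3).principal

theorem exists_rt_field (hp : p.Prime) (hp2 : p ≠ 2) {q x y : ℕ} (hq : q.Prime) (hq2 : q ≠ 2)
    (hqp : q ≠ p) (hh : ¬ q ∣ classNumber K) (hx : 2 ≤ x) (h : ∑ i ∈ range p, x ^ i = y ^ q)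
    {ξ : 𝓞 K} (hξ : IsPrimitiveRoot ξ p) : ∃ u I, Rt p q x y ξ u I := by
  have hp3 : 2 < p := lt_of_le_of_ne hp.two_le (Ne.symm hp2)
  have : NeZero p := ⟨hp.ne_zero⟩
  have : IsCMField K := IsCyclotomicExtension.Rat.isCMField K (S := {p}) ⟨p, rfl, hp3⟩
  have hξK : IsPrimitiveRoot (am K ξ) p := hξ.map_of_injective am_inj
  have hpos : 0 < ∑ i ∈ range p, x ^ i := sum_pos (fun i _ => by positivity) ⟨0, mem_range.2 hp.pos⟩
  have hne : ∀ {z : K}, IsPrimitiveRoot z p → (x : K) - z ≠ 0 := fun {z} hz k => by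
    have := pn_sub hp hz x
    rw [k, ← Nat.cast_zero, pn_nat, rank_eq hp, Nat.cast_zero, zero_pow (by omega)] at this
    exact hpos.ne (by exact_mod_cast this)
  obtain ⟨J, hJ⟩ := exists_ideal hp hp2 hq.two_le h hξ
  have hJ0 : J ≠ 0 := by
    rintro rfl
    rw [zero_pow hq.ne_zero, Ideal.zero_eq_bot, Ideal.span_singleton_eq_bot] at hJ
    exact hne hξK (by simpa using congrArg (am K) hJ)
  obtain ⟨b, rfl⟩ := principal_of_pow hq hh hJ0 hJ
  rw [Ideal.span_singleton_pow, Ideal.span_singleton_eq_span_singleton] at hJ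
  obtain ⟨ε, hε⟩ := hJ.symm
  let σ := IsCMField.ringOfIntegersComplexConj K
  have hσ : σ ξ = ξ ^ (p - 1) := by
    obtain ⟨φ⟩ : Nonempty (K →+* ℂ) := inferInstance
    apply am_inj
    apply φ.injective
    have h1 : φ (am K ξ) ^ p = 1 := by rw [← map_pow, hξK.pow_eq_one, map_one]
    have h2 := IsCMField.complexEmbedding_complexConj K φ (am K ξ)
    have h3 : φ (am K ξ) * φ (am K ξ) ^ (p - 1) = 1 := by
      rw [← pow_succ', Nat.sub_add_cancel hp.one_le, h1]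
    rw [map_pow, map_pow, eq_inv_of_mul_eq_one_right h3,
      Complex.inv_eq_conj (Complex.norm_eq_one_of_pow_eq_one h1 hp.ne_zero)]
    exact h2
  have hε' : σ b ^ q * σ ε = x - ξ ^ (p - 1) := by
    rw [← hσ, ← map_pow, ← map_mul, hε, map_sub, map_natCast]
  let τ := IsCMField.unitsMulComplexConjInv K ε
  have hτ : am K (τ : (𝓞 K)ˣ) * am K (σ ε) = am K ε := by
    rw [← map_mul]
    congr 1
    change ((ε * (IsCMField.unitsComplexConj K ε)⁻¹ : (𝓞 K)ˣ) : 𝓞 K) *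
      (IsCMField.unitsComplexConj K ε : (𝓞 K)ˣ) = _
    rw [← Units.val_mul, inv_mul_cancel_right]
  have hfin : IsOfFinOrder (am K (τ : (𝓞 K)ˣ)) :=
    MonoidHom.isOfFinOrder ((am K).toMonoidHom.comp (Units.coeHom _)) τ.2
  obtain ⟨r, hr⟩ := hξK.exists_neg_pow_of_isOfFinOrder (hp.odd_of_ne_two hp2) hfin
  have h2p : am K (τ : (𝓞 K)ˣ) ^ (2 * p) = 1 := by
    rw [hr, ← pow_mul, show r * (2 * p) = 2 * (p * r) by ring, pow_mul, neg_sq, ← pow_mul,
      show 2 * (p * r) = p * (2 * r) by ring, pow_mul, hξK.pow_eq_one, one_pow]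
  obtain ⟨j, -, hj⟩ := Nat.exists_mul_mod_eq_one_of_coprime (k := 2 * p) (n := q)
    (Nat.Coprime.mul_right ((Nat.coprime_primes hq Nat.prime_two).2 hq2)
      ((Nat.coprime_primes hq hp).2 hqp)) (by omega)
  have hj' : (am K (τ : (𝓞 K)ˣ) ^ j) ^ q = am K (τ : (𝓞 K)ˣ) := by
    rw [← pow_mul, mul_comm j, ← Nat.div_add_mod (q * j) (2 * p), pow_add, pow_mul, h2p, hj]
    simp
  have e1 : am K b ^ q * am K ε = x - am K ξ := by simpa using congrArg (am K) hε
  have e2 : am K (σ b) ^ q * am K (σ ε) = x - am K ξ ^ (p - 1) := by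
    simpa using congrArg (am K) hε'
  have hb0 : am K (σ b) ≠ 0 := fun k => hne (prim_inv hp hξK) (by
    rw [← e2, k, zero_pow hq.ne_zero, zero_mul])
  refine ⟨am K (τ : (𝓞 K)ˣ) ^ j * am K b / am K (σ b), Ideal.span {σ b}, ?_, ?_, ?_, ?_⟩
  · rw [div_pow, mul_pow, hj', ← e1, ← e2, ← hτ]
    field_simp
  · have h1 := pn_sub hp (prim_inv hp hξK) x
    have h2 : Ideal.span {σ ε} = ⊤ := Ideal.span_singleton_eq_top.2 (ε.isUnit.map σ)
    rw [← e2, pn_mul, ← map_pow, pn_int, pn_int, h2, ← Ideal.span_singleton_pow, map_pow, h] at h1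
    simp only [Ideal.absNorm_top, Nat.cast_one, mul_one] at h1
    exact Nat.pow_left_injective hq.ne_zero (by exact_mod_cast h1)
  · rw [← hε']
    exact Ideal.mem_span_singleton.2 ((dvd_pow_self _ hq.ne_zero).mul_right _)
  · intro a ha
    obtain ⟨c, rfl⟩ := Ideal.mem_span_singleton'.1 ha
    have : am K (c * σ b) * (am K (τ : (𝓞 K)ˣ) ^ j * am K b / am K (σ b)) =
        am K (c * (τ : (𝓞 K)ˣ) ^ j * b) := by
      simp only [map_mul, map_pow]
      field_simp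
    rw [this]
    exact am_int _

end Pool.Agent.P.MP_71e30e_nt.Cyc
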