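import Pool.Agent.P.MP_71e30e_nt.H0

set_option autoImplicit false

/-! The congruence for the base modulo the square of the exponent. -/

namespace Pool.Agent.P.MP_71e30e_nt.Cyc

open Finset NumberField Polynomial

section Field

variable {F : Type} [Field F]

theorem eq_zero_of_run {P : F[X]} {r n m : ℕ} (hP : P.degree < m) (hm : m ≤ n)
    (hi : ∀ i < n, ∀ j < n, ((r + i : ℕ) : F) = (r + j : ℕ) → i = j)
    (h : ∀ i < n, P.eval ((r + i : ℕ) : F) = 0) : P = 0 := by
  refine eq_zero_of_degree_lt_of_eval_index_eq_zero (range n) (v := fun i => ((r + i : ℕ) : F))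
    (fun i h1 j h2 e => hi i (mem_range.1 h1) j (mem_range.1 h2) e) ?_
    fun i h1 => h i (mem_range.1 h1)
  rw [card_range]
  exact hP.trans_le (by exact_mod_cast hm)

theorem exp_poly {Y : F} (h1 : Y ≠ 1) (h0 : Y ≠ 0) {r t : ℕ} (s : ℕ) {P Q : F[X]}
    (hP : P.degree < s) (hQ : Q.degree < t)
    (hi : ∀ i < s + t, ∀ j < s + t, ((r + i : ℕ) : F) = (r + j : ℕ) → i = j)
    (h : ∀ i < s + t, P.eval ((r + i : ℕ) : F) + Q.eval ((r + i : ℕ) : F) * Y ^ (r + i) = 0) :
    P = 0 ∧ Q = 0 := by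
  induction s generalizing P Q with
  | zero =>
    obtain rfl : P = 0 := by simpa using hP
    exact ⟨rfl, eq_zero_of_run hQ (by omega) hi fun i k => by simpa [h0] using h i k⟩
  | succ s ih =>
    have h2 := (ih (P := taylor 1 P - P) (Q := C Y * taylor 1 Q - Q) (by
      by_cases e : P = 0
      · simp [e]
      · refine (degree_sub_lt (degree_taylor _ _) (by simpa using e) (by simp)).trans_le ?_
        rw [degree_taylor, degree_eq_natDegree e]
        rw [degree_eq_natDegree e] at hP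
        exact_mod_cast Nat.lt_succ_iff.1 (by exact_mod_cast hP))
      ((degree_sub_le _ _).trans_lt (max_lt (by rwa [degree_C_mul h0, degree_taylor]) hQ))
      (fun i a j b => hi i (by omega) j (by omega)) fun i k => by
        have e1 := h i (by omega)
        have e2 := h (i + 1) (by omega)
        simp only [eval_sub, eval_mul, eval_C, taylor_eval, ← add_assoc, Nat.cast_succ,
          pow_succ] at e2 ⊢
        linear_combination e2 - e1).2
    have h3 := congrArg leadingCoeff (sub_eq_zero.1 h2)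
    rw [leadingCoeff_mul, leadingCoeff_C, leadingCoeff_taylor] at h3
    obtain rfl : Q = 0 := leadingCoeff_eq_zero.1 (by_contra fun e => h1 (mul_left_eq_self₀.1 h3
      |>.resolve_right e))
    exact ⟨eq_zero_of_run hP (Nat.le_add_right _ t) hi fun i k => by simpa using h i k, rfl⟩

theorem part_frac {ι : Type} [Fintype ι] {Y : F} (h1 : Y ≠ 1) (h0 : Y ≠ 0) {r t : ℕ}
    (ht : Fintype.card ι = t) (θ c d : ι → F) (hθ : Function.Injective θ)
    (hi : ∀ i < t + t, ∀ j < t + t, ((r + i : ℕ) : F) = (r + j : ℕ) → i = j)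
    (h : ∀ i < t + t, ∃ γ : ι → F, ∑ m, γ m = 0 ∧
      ∀ m, (((r + i : ℕ) : F) + θ m) * γ m = c m + d m * Y ^ (r + i)) (m : ι) : c m = 0 := by
  classical
  have dg : ∀ c : ι → F, (∑ m, C (c m) * ∏ n ∈ univ.erase m, (X + C (θ n))).degree < t :=
    fun c => by
      refine (degree_sum_le _ _).trans_lt ((Finset.sup_lt_iff (WithBot.bot_lt_coe _)).2
        fun m _ => degree_le_natDegree.trans_lt ?_)
      have := (natDegree_C_mul_le (c m) _).trans ((natDegree_prod_le (univ.erase m)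
        fun n => X + C (θ n)).trans (by simp [ht] : _ ≤ t - 1))
      have : 0 < t := ht ▸ Fintype.card_pos_iff.2 ⟨m⟩
      exact_mod_cast (by omega)
  have h2 := congrArg (eval (-θ m)) (exp_poly h1 h0 t (dg c) (dg d) hi fun i k => by
    obtain ⟨γ, g0, g1⟩ := h i k
    rw [eval_finset_sum, eval_finset_sum, sum_mul, ← sum_add_distrib,
      ← mul_zero (∏ n, (((r + i : ℕ) : F) + θ n)), ← g0, mul_sum]
    refine sum_congr rfl fun m _ => ?_
    rw [← mul_prod_erase _ _ (mem_univ m), mul_right_comm, g1]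
    simp only [eval_mul, eval_C, eval_prod, eval_add, eval_X]
    ring).1
  rw [eval_finset_sum, sum_eq_single m (fun n _ hn => by
    rw [eval_mul, eval_prod, prod_eq_zero (mem_erase.2 ⟨hn.symm, mem_univ m⟩) (by simp), mul_zero])
    (by simp), eval_mul, eval_C, eval_prod, eval_zero, mul_eq_zero, prod_eq_zero_iff] at h2
  refine h2.resolve_right fun ⟨n, hn, e⟩ => ne_of_mem_erase hn (hθ ?_)
  simpa [neg_add_eq_zero, eq_comm] using e

end Field

theorem class_sum {M : Type} [AddCommMonoid M] {p q r A : ℕ} (hr : r < p) (f : ℕ → M)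
    (h : ∀ i, r + i * p ≤ q ↔ i < A) :
    ∑ j ∈ range (q + 1), (if (j : ZMod p) = r then f j else 0) = ∑ i : Fin A, f (r + i * p) := by
  rw [← sum_filter, Fin.sum_univ_eq_sum_range (fun i => f (r + i * p))]
  symm
  refine sum_bij (fun i _ => r + i * p) (fun i hi => ?_) (fun i _ j _ e => ?_) (fun j hj => ?_)
    fun _ _ => rfl
  · simpa [Nat.lt_succ_iff, h] using hi
  · exact Nat.eq_of_mul_eq_mul_right (by omega) (Nat.add_left_cancel e)
  · obtain ⟨h1, h2⟩ := mem_filter.1 hj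
    rw [ZMod.natCast_eq_natCast_iff', Nat.mod_eq_of_lt hr] at h2
    have e : r + j / p * p = j := by rw [← h2, Nat.mod_add_div']
    exact ⟨j / p, mem_range.2 ((h _).1 (by rw [e]; exact mem_range_succ_iff.1 h1)), e⟩

theorem comb_run {p q r A B : ℕ} [Fact q.Prime] (hp : (p : ZMod q) ≠ 0) {x : ZMod q} (h0 : x ≠ 0)
    (h1 : x ^ 2 ≠ 1) {β : ℕ → ZMod q} (hβ : ∀ j, 0 < j → j < q → j * β j = x ^ (q + 1 - j) - x ^ j)
    (cs : ∀ r : ZMod p, ∑ j ∈ range (q + 1), (if (j : ZMod p) = r then β j else 0) =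
      ∑ j ∈ range (q + 1), if (j : ZMod p) = -r then β j else 0)
    (t0 : 0 < A + B) (t1 : 2 * (A + B) ≤ q) (r0 : 0 < r) (r1 : r + 2 * (A + B) ≤ p)
    (h : ∀ s, r ≤ s → s < r + 2 * (A + B) → ∀ i, (s + i * p ≤ q ↔ i < A) ∧ s + i * p ≠ q ∧
      (p - s + i * p ≤ q ↔ i < B) ∧ p - s + i * p ≠ q) : False := by
  have z : ∀ a b : ℕ, a < q → b < q → (a : ZMod q) = b → a = b := fun a b ha hb e => by
    rwa [ZMod.natCast_eq_natCast_iff', Nat.mod_eq_of_lt ha, Nat.mod_eq_of_lt hb] at e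
  have e0 : ∀ j ≤ q, x ^ (q + 1 - j) = x ^ 2 / x ^ j := fun j hj => by
    rw [eq_div_iff (pow_ne_zero _ h0), ← pow_add, Nat.sub_add_cancel (by omega), pow_succ,
      ZMod.pow_card, sq]
  obtain ⟨m⟩ : Nonempty (Fin A ⊕ Fin B) := Fintype.card_pos_iff.1 (by simpa using t0)
  have := part_frac h1 (pow_ne_zero 2 h0) (r := r) (t := A + B) (by simp)
    (Sum.elim (fun i : Fin A => (i : ZMod q) * p) fun i : Fin B => -((i + 1) * p))
    (Sum.elim (fun i => x ^ 2 / x ^ (i * p : ℕ)) fun i => -x ^ (p + i * p : ℕ))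
    (Sum.elim (fun i => -x ^ (i * p : ℕ)) fun i => x ^ 2 / x ^ (p + i * p : ℕ)) ?_
    (fun i a j b e => z i j (by omega) (by omega) (by simpa using e)) (fun i hi => ?_) m
  · rcases m with m | m <;> simp [h0] at this
  · rintro (i | i) (j | j) e <;> simp only [Sum.elim_inl, Sum.elim_inr, neg_inj] at e
    · exact congrArg _ (Fin.ext (z i j (by omega) (by omega) (mul_right_cancel₀ hp e)))
    · have := z (i + (j + 1)) 0 (by omega) (by omega) (mul_right_cancel₀ hp (by
        push_cast; linear_combination e))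
      omega
    · have := z (j + (i + 1)) 0 (by omega) (by omega) (mul_right_cancel₀ hp (by
        push_cast; linear_combination -e))
      omega
    · exact congrArg _ (Fin.ext (z i j (by omega) (by omega)
        (add_right_cancel (mul_right_cancel₀ hp e))))
  · have k := h (r + i) (by omega) (by omega)
    have s0 : 0 < r + i := by omega
    have s1 : r + i < p := by omega
    generalize r + i = s at *
    have c := cs s
    rw [show -(s : ZMod p) = (p - s : ℕ) by rw [Nat.cast_sub s1.le]; simp,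
      class_sum s1 β fun i => (k i).1, class_sum (by omega) β fun i => (k i).2.2.1] at c
    refine ⟨Sum.elim (fun i => x ^ s * β (s + i * p)) fun i => -(x ^ s * β (p - s + i * p)),
      by simp [← mul_sum, c], ?_⟩
    have xs := pow_ne_zero s h0
    rintro (i | i) <;> simp only [Sum.elim_inl, Sum.elim_inr]
    · have a1 := (k i).1.2 i.2
      have a2 := hβ (s + i * p) (by omega) (lt_of_le_of_ne a1 (k i).2.1)
      rw [e0 _ a1, pow_add] at a2
      push_cast at a2
      rw [mul_left_comm, a2, pow_right_comm]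
      field_simp
      ring
    · have a1 := (k i).2.2.1.2 i.2
      have a2 := hβ (p - s + i * p) (by omega) (lt_of_le_of_ne a1 (k i).2.2.2)
      have a3 : x ^ (p - s + i * p) = x ^ (p + i * p) / x ^ s := by
        rw [eq_div_iff xs, ← pow_add]
        congr 1
        omega
      rw [e0 _ a1, a3, Nat.cast_add, Nat.cast_sub s1.le, Nat.cast_mul] at a2
      rw [show ∀ b : ZMod q, (s + -((i + 1) * p)) * -(x ^ s * b) = x ^ s * ((p - s + i * p) * b)
        from fun b => by ring, a2, pow_right_comm]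
      field_simp
      ring

theorem comb {p q : ℕ} (hp : p.Prime) (hq : q.Prime) (hp2 : p ≠ 2) (hq2 : q ≠ 2) (hpq : p ≠ q)
    (hb : 12 * (q / p) + 9 ≤ p) {x : ZMod q} {β : ℕ → ZMod q}
    (hβ : ∀ j, 0 < j → j < q → j * β j = x ^ (q + 1 - j) - x ^ j)
    (cs : ∀ r : ZMod p, ∑ j ∈ range (q + 1), (if (j : ZMod p) = r then β j else 0) =
      ∑ j ∈ range (q + 1), if (j : ZMod p) = -r then β j else 0) :
    (x = 0 ∨ x = 1 ∨ x = -1) ∧ β q = 0 := by
  have := Fact.mk hq
  have := Fact.mk hp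
  have q3 : 3 ≤ q := by have := hq.two_le; omega
  have nd : ¬ p ∣ q := fun e => hpq ((Nat.prime_dvd_prime_iff_eq hp hq).1 e)
  have h1 : x = 0 ∨ x = 1 ∨ x = -1 := by
    by_contra! hx
    have run := fun r A B => comb_run (r := r) (A := A) (B := B) (p := p) (fun e => hpq
      ((Nat.prime_dvd_prime_iff_eq hq hp).1 ((ZMod.natCast_eq_zero_iff _ _).1 e)).symm) hx.1
      (fun e => (sq_eq_one_iff.1 e).elim hx.2.1 hx.2.2) hβ cs
    have b0 : q % p ≠ 0 := fun e => nd (Nat.dvd_of_mod_eq_zero e)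
    have b1 := Nat.mod_lt q hp.pos
    have b2 := Nat.div_add_mod' q p
    generalize q % p = b at *
    generalize q / p = a at *
    have key : ∀ s i, s < p → s ≠ b → (s + i * p ≤ q ↔ i < if s < b then a + 1 else a) ∧
        s + i * p ≠ q := fun s i h1 h2 => by
      rcases lt_trichotomy i a with e | rfl | e
      · have := Nat.mul_le_mul_right p (Nat.succ_le_of_lt e)
        rw [Nat.succ_mul] at this
        split_ifs <;> omega
      · split_ifs <;> omega
      · have := Nat.mul_le_mul_right p (Nat.succ_le_of_lt e)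
        rw [Nat.succ_mul] at this
        split_ifs <;> omega
    have b3 : 9 * a ≤ a * p := by nlinarith
    by_cases c1 : b ≤ 4 * a + 2
    · refine run (b + 1) a a ?_ (by omega) (by omega) (by omega) fun s h1 h2 i => ?_
      · rcases a with _ | a <;> omega
      · have k1 := key s i (by omega) (by omega)
        have k2 := key (p - s) i (by omega) (by omega)
        rw [if_neg (by omega)] at k1 k2
        exact ⟨k1.1, k1.2, k2⟩
    by_cases c2 : p ≤ b + 4 * a + 2
    · refine run (p - b + 1) (a + 1) (a + 1) (by omega) (by omega) (by omega) (by omega)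
        fun s h1 h2 i => ?_
      have k1 := key s i (by omega) (by omega)
      have k2 := key (p - s) i (by omega) (by omega)
      rw [if_pos (by omega)] at k1 k2
      exact ⟨k1.1, k1.2, k2⟩
    · refine run 1 (a + 1) a (by omega) (by omega) (by omega) (by omega) fun s h1 h2 i => ?_
      have k1 := key s i (by omega) (by omega)
      have k2 := key (p - s) i (by omega) (by omega)
      rw [if_pos (by omega)] at k1
      rw [if_neg (by omega)] at k2
      exact ⟨k1.1, k1.2, k2⟩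
  refine ⟨h1, ?_⟩
  have h2 : ∀ j, 0 < j → j < q → β j = 0 := fun j a b => by
    refine (mul_eq_zero.1 ((hβ j a b).trans ?_)).resolve_left fun e =>
      Nat.not_dvd_of_pos_of_lt a b ((ZMod.natCast_eq_zero_iff _ _).1 e)
    obtain ⟨k, hk⟩ := hq.odd_of_ne_two hq2
    rcases h1 with rfl | rfl | rfl
    · rw [zero_pow (by omega), zero_pow (by omega), sub_self]
    · simp
    · rw [sub_eq_zero]
      apply mul_right_cancel₀ (pow_ne_zero j (neg_ne_zero.2 one_ne_zero))
      rw [← pow_add, ← pow_add, Even.neg_one_pow ⟨j, rfl⟩, Even.neg_one_pow ⟨k + 1, by omega⟩]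
  have q0 : (q : ZMod p) ≠ 0 := fun e => nd ((ZMod.natCast_eq_zero_iff _ _).1 e)
  have q1 : (q : ZMod p) ≠ -q := fun e => by
    have : ((2 * q : ℕ) : ZMod p) = 0 := by push_cast; linear_combination e
    rcases (Nat.Prime.dvd_mul hp).1 ((ZMod.natCast_eq_zero_iff _ _).1 this) with k | k
    exacts [hp2 ((Nat.prime_dvd_prime_iff_eq hp Nat.prime_two).1 k), nd k]
  have h3 : ∀ r : ZMod p, r ≠ 0 → ∑ j ∈ range q, (if (j : ZMod p) = r then β j else 0) = 0 :=
    fun r hr => sum_eq_zero fun j hj => by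
      rcases j with _ | j
      · simp [hr.symm]
      · simp [h2 (j + 1) (by omega) (mem_range.1 hj)]
  have h4 := cs q
  rwa [sum_range_succ, sum_range_succ, h3 _ q0, h3 _ (neg_ne_zero.2 q0), if_pos rfl, if_neg q1,
    zero_add, zero_add] at h4

theorem exists_quot {q : ℕ} (hq : q.Prime) (hq2 : q ≠ 2) (x : ℤ) : ∃ h : ℤ[X],
    (C x - X) ^ q = C x - X ^ q + (q : ℤ[X]) * h ∧ h.natDegree ≤ q ∧ h.coeff q = 0 ∧
      x ^ q = x + q * h.coeff 0 ∧
      ∀ i, 0 < i → i < q → (i : ZMod q) * h.coeff i = -(x : ZMod q) ^ (q - i) := by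
  have := Fact.mk hq
  have q0 : (q : ℤ) ≠ 0 := by exact_mod_cast hq.ne_zero
  obtain ⟨h, e⟩ : C (q : ℤ) ∣ (C x - X) ^ q - (C x - X ^ q) := by
    refine (C_dvd_iff_dvd_coeff _ _).2 fun i => (ZMod.intCast_zmod_eq_zero_iff_dvd _ q).1 ?_
    rw [← eq_intCast (Int.castRingHom (ZMod q)), ← coeff_map]
    simp only [Polynomial.map_sub, Polynomial.map_pow, map_C, map_X]
    rw [sub_pow_char, ← C_pow, ZMod.pow_card, sub_self, coeff_zero]
  have d1 : (C x - X).natDegree ≤ 1 := by compute_degree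
  have c := fun i => congrArg (coeff · i) e
  simp only [coeff_sub, coeff_C_mul] at c
  refine ⟨h, by rw [map_natCast] at e; linear_combination e, ?_, ?_, ?_, fun i i0 i1 => ?_⟩
  · rw [← natDegree_C_mul q0, ← e]
    exact (natDegree_sub_le _ _).trans (max_le ((natDegree_pow_le_of_le _ d1).trans (by simp))
      (by compute_degree))
  · have := coeff_pow_of_natDegree_le (m := q) d1
    rw [mul_one] at this
    have e1 := c q
    rw [this, coeff_C_ne_zero hq.ne_zero, coeff_sub, coeff_C_ne_zero one_ne_zero] at e1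
    simpa [(hq.odd_of_ne_two hq2).neg_one_pow, hq.ne_zero] using e1
  · have := c 0
    simp only [coeff_zero_eq_eval_zero, eval_pow, eval_sub, eval_C, eval_X, sub_zero,
      zero_pow hq.ne_zero] at this ⊢
    linear_combination this
  · have e1 : derivative h = X ^ (q - 1) - (C x - X) ^ (q - 1) := by
      apply mul_left_cancel₀ (C_ne_zero.2 q0)
      rw [← derivative_C_mul, ← e]
      simp [derivative_pow]
      ring
    have e2 : (C (x : ZMod q) - X) ^ (q - 1) =
        ∑ j ∈ range q, X ^ j * C (x : ZMod q) ^ (q - 1 - j) := by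
      apply mul_right_cancel₀ (b := C (x : ZMod q) - X) (by
        rw [← neg_sub]; exact neg_ne_zero.2 (X_sub_C_ne_zero _))
      rw [← pow_succ, Nat.sub_add_cancel hq.one_le, sub_pow_char, ← neg_sub X (C _), mul_neg,
        (Commute.all _ _).geom_sum₂_mul, neg_sub]
    obtain ⟨j, rfl⟩ : ∃ j, i = j + 1 := ⟨i - 1, by omega⟩
    have e3 := congrArg (fun f => coeff (f.map (Int.castRingHom (ZMod q))) j) e1
    simp only [Polynomial.map_sub, Polynomial.map_pow, map_C, map_X] at e3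
    rw [eq_intCast (Int.castRingHom (ZMod q)) x, e2, coeff_map] at e3
    simp only [coeff_sub, ← C_pow, finset_sum_coeff, coeff_mul_C, coeff_X_pow, coeff_derivative,
      eq_intCast] at e3
    rw [if_neg (by omega), sum_eq_single j (fun k _ hk => by simp [hk.symm])
      (fun k => absurd (mem_range.2 (by omega)) k), if_pos rfl, Nat.sub_sub, add_comm 1] at e3
    push_cast at e3 ⊢
    linear_combination e3

variable {K : Type} [Field K] [NumberField K] {p q : ℕ} [IsCyclotomicExtension {p} ℚ K] {ξ : 𝓞 K}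

theorem exists_aeval (hp : p.Prime) (hξ : IsPrimitiveRoot ξ p) (w : 𝓞 K) :
    ∃ g : ℤ[X], aeval ξ g = w := by
  have : NeZero p := ⟨hp.ne_zero⟩
  have h : Algebra.adjoin ℤ {ξ} = ⊤ :=
    IsCyclotomicExtension.Rat.adjoin_singleton_eq_top (hξ.map_of_injective (am_inj (K := K)))
  exact Algebra.adjoin_mem_exists_aeval ℤ ξ (h ▸ Algebra.mem_top)

theorem red (hp : p.Prime) (hξ : IsPrimitiveRoot ξ p) {f : ℤ[X]} {N : ℤ} (hf : f.natDegree ≤ p - 1)
    (h : (N : 𝓞 K) ∣ aeval ξ f) : ∃ c : ℤ, ∀ i < p, N ∣ f.coeff i - c := by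
  have := Fact.mk hp
  obtain ⟨w, hw⟩ := h
  obtain ⟨g, rfl⟩ := exists_aeval hp hξ w
  have hm := cyclotomic.monic p ℤ
  have h1 : cyclotomic p ℤ ∣ f - C N * g := by
    rw [cyclotomic_eq_minpoly (hξ.map_of_injective (am_inj (K := K))) hp.pos]
    refine minpoly.isIntegrallyClosed_dvd (am_int ξ) ?_
    rw [aeval_algebraMap_apply, map_sub, map_mul, hw]
    simp
  obtain ⟨r, hr⟩ : cyclotomic p ℤ ∣ f - C N * (g %ₘ cyclotomic p ℤ) := by
    have := dvd_add h1 ((dvd_mul_right _ (g /ₘ cyclotomic p ℤ)).mul_left (C N))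
    rwa [show f - C N * g + C N * (cyclotomic p ℤ * (g /ₘ cyclotomic p ℤ)) =
      f - C N * (g - cyclotomic p ℤ * (g /ₘ cyclotomic p ℤ)) by ring,
      ← modByMonic_eq_sub_mul_div] at this
  have d : (cyclotomic p ℤ).natDegree = p - 1 := by rw [natDegree_cyclotomic, Nat.totient_prime hp]
  have h2 : r = C (r.coeff 0) := by
    by_cases r0 : r = 0
    · simp [r0]
    have e := (natDegree_sub_le _ _).trans (max_le hf ((natDegree_C_mul_le N _).trans
      ((natDegree_modByMonic_le g hm).trans d.le)))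
    rw [hr, hm.natDegree_mul' r0, d] at e
    exact eq_C_of_natDegree_eq_zero (by omega)
  refine ⟨r.coeff 0, fun i hi => ⟨(g %ₘ cyclotomic p ℤ).coeff i, ?_⟩⟩
  have e := congrArg (coeff · i) hr
  have e1 : (cyclotomic p ℤ).coeff i = 1 := by simp [cyclotomic_prime, coeff_X_pow, hi]
  rw [h2] at e
  simp only [coeff_sub, coeff_C_mul, coeff_mul_C, e1] at e
  linear_combination e

theorem reduced (hp : p.Prime) (hq : q.Prime) (hpq : p ≠ q) (hξ : IsPrimitiveRoot ξ p) {a b : 𝓞 K}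
    (h : (q : 𝓞 K) ∣ a ^ q - b ^ q) : (q : 𝓞 K) ∣ a - b := by
  have := Fact.mk hq
  have h1 : ∀ g : ℤ[X], (q : 𝓞 K) ∣ aeval ξ g ^ q ^ (p - 1) - aeval ξ g := fun g => by
    induction g using Polynomial.induction_on' with
    | add f g hf hg =>
      obtain ⟨r, hr⟩ := exists_add_pow_prime_pow_eq hq (aeval ξ f) (aeval ξ g) (p - 1)
      rw [map_add, hr]
      convert dvd_add (dvd_add hf hg) (dvd_mul_right _ (aeval ξ f * aeval ξ g * r)) using 1
      ring
    | monomial n c =>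
      have e1 : (q : ℤ) ∣ c ^ q ^ (p - 1) - c := by
        rw [← ZMod.intCast_zmod_eq_zero_iff_dvd]
        simp [ZMod.pow_card_pow]
      have e2 : ξ ^ q ^ (p - 1) = ξ := by
        have := Nat.ModEq.pow_totient ((Nat.coprime_primes hq hp).2 hpq.symm)
        rw [Nat.totient_prime hp, Nat.ModEq, Nat.mod_eq_of_lt hp.one_lt] at this
        rw [pow_eq_pow_mod _ hξ.pow_eq_one, this, pow_one]
      rw [aeval_monomial, mul_pow, pow_right_comm, e2, ← sub_mul, ← map_pow, ← map_sub]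
      exact Dvd.dvd.mul_right (by simpa using map_dvd (algebraMap ℤ (𝓞 K)) e1) _
  obtain ⟨g, hg⟩ := exists_aeval hp hξ (a - b)
  obtain ⟨r, hr⟩ := exists_add_pow_prime_eq hq (a - b) b
  have h2 : (q : 𝓞 K) ∣ (a - b) ^ q := by
    rw [sub_add_cancel] at hr
    convert dvd_sub h (dvd_mul_right _ ((a - b) * b * r)) using 1
    linear_combination -hr
  have h3 := h1 g
  rw [hg] at h3
  simpa using dvd_sub (h2.trans (pow_dvd_pow _ (Nat.le_self_pow (n := p - 1)
    (by have := hp.two_le; omega) q))) h3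

theorem sq_dvd_half (hp : p.Prime) (hq : q.Prime) (hpq : p ≠ q) (hξ : IsPrimitiveRoot ξ p)
    {x a b : 𝓞 K} {u : K} (hu : u ^ q * am K (x - b ^ q) = am K (x - a ^ q))
    (ha : (q : 𝓞 K) ∣ (x - a) ^ q - (x - a ^ q)) (hb : (q : 𝓞 K) ∣ (x - b) ^ q - (x - b ^ q)) :
    (q : 𝓞 K) ^ 2 ∣ (x - b ^ q) ^ (q - 1) *
      ((x - a ^ q) * (x - b) ^ q - (x - b ^ q) * (x - a) ^ q) := by
  generalize x - a ^ q = A at *
  generalize x - b ^ q = B at *
  have e : B ^ q = B ^ (q - 1) * B := by rw [← pow_succ, Nat.sub_add_cancel hq.one_le]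
  have h1 : (u * am K B) ^ q = am K (A * B ^ (q - 1)) := by
    rw [mul_pow, ← map_pow, e, map_mul, map_mul, ← hu]
    ring
  obtain ⟨w, hw⟩ := am_surj (IsIntegral.of_pow hq.pos (h1 ▸ am_int _))
  rw [← hw, ← map_pow] at h1
  have h2 : (w * (x - b)) ^ q - (B * (x - a)) ^ q =
      B ^ (q - 1) * (A * (x - b) ^ q - B * (x - a) ^ q) := by
    rw [mul_pow, mul_pow, am_inj h1, e]
    ring
  have h3 := dvd_sub_pow_of_dvd_sub (reduced hp hq hpq hξ (a := w * (x - b)) (b := B * (x - a)) (by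
    rw [h2]
    refine Dvd.dvd.mul_left ?_ _
    convert dvd_sub (hb.mul_left A) (ha.mul_left B) using 1
    ring)) 1
  rwa [pow_one, h2] at h3

theorem congr_sq (hp : p.Prime) (hq : q.Prime) (hp2 : p ≠ 2) (hq2 : q ≠ 2) (hpq : p ≠ q)
    (hb : 12 * (q / p) + 9 ≤ p) (hξ : IsPrimitiveRoot ξ p) {x : ℕ} {u : K}
    (hc : IsCoprime (p : ℤ) ((x : ℤ) - 1)) (u0 : u ≠ 0)
    (hu : u ^ q * (x - am K (ξ ^ q) ^ (p - 1)) = x - am K (ξ ^ q)) :
    ∃ ε : ℤ, (ε = 0 ∨ ε = 1 ∨ ε = -1) ∧ (q : ℤ) ^ 2 ∣ x - ε := by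
  have := Fact.mk hq
  have := Fact.mk hp
  obtain ⟨h, h1, h2, h3, h4, h5⟩ := exists_quot hq hq2 x
  have e1 : ∀ a : 𝓞 K, (x - a) ^ q = x - a ^ q + q * aeval a h := fun a => by
    simpa using congrArg (aeval a) h1
  have e2 : ∀ a : 𝓞 K, (q : 𝓞 K) ∣ (x - a) ^ q - (x - a ^ q) := fun a =>
    ⟨_, by rw [e1, add_sub_cancel_left]⟩
  obtain ⟨b, hb'⟩ : ∃ b, b = ξ ^ (p - 1) := ⟨_, rfl⟩
  have ab : ξ * b = 1 := by rw [hb', ← pow_succ', Nat.sub_add_cancel hp.one_le, hξ.pow_eq_one]
  have hu' : u ^ q * am K (x - b ^ q) = am K (x - ξ ^ q) := by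
    rwa [map_sub, map_sub, map_natCast, hb', pow_right_comm, map_pow]
  have d1 := sq_dvd_half hp hq hpq hξ hu' (e2 _) (e2 _)
  have d2 := sq_dvd_half hp hq hpq hξ (u := u⁻¹) (x := x) (a := b) (b := ξ) (by
    rw [← hu', ← mul_assoc, ← mul_pow, inv_mul_cancel₀ u0, one_pow, one_mul]) (e2 _) (e2 _)
  obtain ⟨s, t, hst⟩ := (cop_roots hp hξ hc (a := ξ ^ q) (b := b ^ q)
    (by rw [pow_right_comm, hξ.pow_eq_one, one_pow])
    (by rw [hb', ← pow_mul ξ, pow_right_comm, hξ.pow_eq_one, one_pow]) fun e => by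
      have : ξ ^ (2 * q) = 1 := by rw [two_mul, pow_add]; nth_rw 2 [e]; rw [← mul_pow, ab, one_pow]
      rcases (Nat.Prime.dvd_mul hp).1 (hξ.dvd_of_pow_eq_one _ this) with k | k
      exacts [hp2 ((Nat.prime_dvd_prime_iff_eq hp Nat.prime_two).1 k),
        hpq ((Nat.prime_dvd_prime_iff_eq hp hq).1 k)]).pow (m := q - 1) (n := q - 1)
  have d3 : (q : 𝓞 K) ∣ (x - ξ ^ q) * aeval b h - (x - b ^ q) * aeval ξ h := by
    rw [← mul_dvd_mul_iff_left (Nat.cast_ne_zero.2 hq.ne_zero : (q : 𝓞 K) ≠ 0), ← sq]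
    convert dvd_sub (d1.mul_left t) (d2.mul_left s) using 1
    rw [e1, e1]
    linear_combination (-(q * ((x - ξ ^ q) * aeval b h - (x - b ^ q) * aeval ξ h))) * hst
  let β : ℕ → ℤ := fun j => -(x * h.coeff j) - h.coeff (q - j)
  let Γ : ZMod p → ℤ := fun r => ∑ j ∈ range (q + 1), (if (j : ZMod p) = r then β j else 0) -
    ∑ j ∈ range (q + 1), if (j : ZMod p) = -r then β j else 0
  have e3 : ∀ a b : 𝓞 K, a * b = 1 → ∑ j ∈ range (q + 1), β j * a ^ j =
      -(x * aeval a h) - a ^ q * aeval b h := fun a b e => by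
    rw [aeval_eq_sum_range' (Nat.lt_succ_of_le h2), aeval_eq_sum_range' (Nat.lt_succ_of_le h2),
      ← sum_range_reflect (fun i => h.coeff i • b ^ i), mul_sum, mul_sum, ← sum_neg_distrib,
      ← sum_sub_distrib]
    refine sum_congr rfl fun j hj => ?_
    rw [← pow_sub_mul_pow a (mem_range_succ_iff.1 hj), Nat.succ_sub_one, mul_smul_comm,
      mul_smul_comm, mul_right_comm, ← mul_pow, e]
    simp [β]
    ring
  have e4 : ∀ j : ℕ, ξ ^ (j : ZMod p).val = ξ ^ j := fun j => by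
    rw [ZMod.val_natCast, ← pow_eq_pow_mod _ hξ.pow_eq_one]
  have e5 : ∀ j : ℕ, ξ ^ (-(j : ZMod p)).val = b ^ j := fun j => by
    rw [hb', ← pow_mul, ← e4 ((p - 1) * j), Nat.cast_mul, Nat.cast_pred hp.pos]
    simp
  obtain ⟨c, hc⟩ := red hp hξ (N := q) (f := ∑ r : ZMod p, monomial r.val (Γ r))
    (natDegree_sum_le_of_forall_le _ _ fun r _ => (natDegree_monomial_le _).trans
      (Nat.le_sub_one_of_lt r.val_lt)) (by
      rw [Int.cast_natCast]
      convert d3 using 1
      simp only [map_sum, aeval_monomial, Γ, map_sub, sub_mul, sum_sub_distrib, sum_mul,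
        apply_ite (algebraMap ℤ (𝓞 K)), map_zero, ite_mul, zero_mul, ← neg_eq_iff_eq_neg]
      rw [sum_comm, sum_comm (s := univ)]
      simp only [sum_ite_eq, mem_univ, if_true, e4, e5, eq_intCast]
      rw [e3 ξ b ab, e3 b ξ (mul_comm ξ b ▸ ab)]
      ring)
  have e6 : ∀ r : ZMod p, (q : ℤ) ∣ Γ r - c := fun r => by
    simpa [coeff_monomial, (ZMod.val_injective p).eq_iff] using hc r.val r.val_lt
  obtain ⟨k1, k2⟩ := comb hp hq hp2 hq2 hpq hb (x := x) (β := fun j => β j) (fun j j0 j1 => by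
    have a1 := h5 j j0 j1
    have a2 := h5 (q - j) (by omega) (by omega)
    rw [Nat.cast_sub j1.le, Nat.sub_sub_self j1.le, ZMod.natCast_self] at a2
    rw [Nat.succ_sub j1.le, pow_succ]
    simp only [β]
    push_cast at a1 a2 ⊢
    linear_combination a2 - x * a1) fun r => by
      have := (ZMod.intCast_zmod_eq_zero_iff_dvd _ q).2 (dvd_sub (e6 r) (e6 0))
      simpa [Γ, sub_eq_zero] using this
  have k3 : (q : ℤ) ∣ h.coeff 0 := by
    simpa [β, h3, ZMod.intCast_zmod_eq_zero_iff_dvd] using k2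
  obtain ⟨ε, e7, e8⟩ : ∃ ε : ℤ, (ε = 0 ∨ ε = 1 ∨ ε = -1) ∧ (x : ZMod q) = ε := by
    rcases k1 with k | k | k
    exacts [⟨0, by simp, by simpa⟩, ⟨1, by simp, by simpa⟩, ⟨-1, by simp, by simpa⟩]
  have k4 := dvd_sub_pow_of_dvd_sub (p := q) (a := (x : ℤ)) (b := ε)
    ((ZMod.intCast_zmod_eq_zero_iff_dvd _ q).1 (by simp [e8])) 1
  have k5 : ε ^ q = ε := by
    rcases e7 with rfl | rfl | rfl <;> simp [hq.ne_zero, (hq.odd_of_ne_two hq2).neg_one_pow]
  refine ⟨ε, e7, ?_⟩
  rw [pow_one, k5, h4] at k4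
  have k6 := dvd_sub k4 (show (q : ℤ) ^ (1 + 1) ∣ _ from sq (q : ℤ) ▸ mul_dvd_mul_left (q : ℤ) k3)
  rwa [add_sub_right_comm, add_sub_cancel_right] at k6

end Pool.Agent.P.MP_71e30e_nt.Cyc
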