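import Pool.Agent.P.MP_71e30e_nt.Alg

set_option autoImplicit false

/-! Binomial series with integer coefficients, norms and values of power series. -/

namespace Pool.Agent.P.MP_71e30e_nt.Cyc

open Finset PowerSeries

theorem root_unique {q N : ℕ} (hq : q ≠ 0) {F G : ℚ⟦X⟧} (hF : constantCoeff F = 1)
    (hG : constantCoeff G = 1) (h : X ^ N ∣ F ^ q - G ^ q) : X ^ N ∣ F - G := by
  rw [← (Commute.all F G).geom_sum₂_mul q] at h
  refine (IsUnit.dvd_mul_left ?_).1 h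
  rw [isUnit_iff_constantCoeff]
  simp [hF, hG, hq]

theorem bin_pow (r : ℚ) (n : ℕ) : PowerSeries.binomialSeries ℚ r ^ n = PowerSeries.binomialSeries ℚ (n * r) := by
  induction n with
  | zero => simp
  | succ n ih => rw [pow_succ, ih, ← PowerSeries.binomialSeries_add]; congr 1; push_cast; ring

/-- the properties of the coefficients that are used -/
def Rec (q : ℕ) (e : ℤ) (P : ℤ⟦X⟧) : Prop :=
  coeff 0 P = 1 ∧ ∀ k, coeff (k + 1) P * (k + 1) = ((q : ℤ) ^ 2 * k - e * q) * coeff k P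

theorem exists_lift {q : ℕ} (hq : q ≠ 0) (e : ℤ) (A B : Polynomial ℤ)
    (h : rescale (-(q : ℚ) ^ 2) (PowerSeries.binomialSeries ℚ ((e : ℚ) / q)) ^ q *
      map (Int.castRingHom ℚ) (1 + C ((q : ℤ) ^ 2) * X * (B : ℤ⟦X⟧)) =
      map (Int.castRingHom ℚ) (1 + C ((q : ℤ) ^ 2) * X * (A : ℤ⟦X⟧))) :
    ∃ P : ℤ⟦X⟧, P ^ q * (1 + C ((q : ℤ) ^ 2) * X * (B : ℤ⟦X⟧)) = 1 + C ((q : ℤ) ^ 2) * X * (A : ℤ⟦X⟧) ∧ Rec q e P := by
  set F := rescale (-(q : ℚ) ^ 2) (PowerSeries.binomialSeries ℚ ((e : ℚ) / q)) with hF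
  have h0 : constantCoeff F = 1 := by
    rw [← coeff_zero_eq_constantCoeff_apply, hF, coeff_rescale]
    simp
  have h1 : ∀ k, ∃ z : ℤ, (z : ℚ) = coeff k F := fun k => by
    obtain ⟨G, g0, -, g1⟩ := exists_trunc q A B k
    have g2 := map_dvd ((map (Int.castRingHom ℚ)).comp Polynomial.coeToPowerSeries.ringHom)
      ((Dvd.intro_left _ rfl).trans g1)
    simp only [RingHom.comp_apply, map_sub, map_mul, map_pow, map_add, map_one,
      Polynomial.coeToPowerSeries.ringHom_apply, Polynomial.coe_X, Polynomial.coe_C, map_X] at g2 h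
    rw [← h, ← sub_mul, IsUnit.dvd_mul_right (by rw [isUnit_iff_constantCoeff]; simp)] at g2
    have g3 := X_pow_dvd_iff.1 (root_unique hq (by
      rw [← coeff_zero_eq_constantCoeff_apply, coeff_map, Polynomial.coeff_coe, g0, map_one])
      h0 g2) k (Nat.lt_succ_self k)
    rw [map_sub, sub_eq_zero, coeff_map] at g3
    exact ⟨_, g3⟩
  choose z hz using h1
  have h2 : map (Int.castRingHom ℚ) (mk z) = F := by
    ext k
    simp [hz]
  refine ⟨mk z, map_injective (Int.castRingHom ℚ) Int.cast_injective ?_, ?_, fun k => ?_⟩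
  · rw [map_mul, map_pow, h2, h]
  · rw [coeff_mk]
    have := hz 0
    rw [coeff_zero_eq_constantCoeff_apply, h0] at this
    exact_mod_cast this
  · rw [coeff_mk, coeff_mk]
    have h3 := Ring.choose_smul_choose ((e : ℚ) / q) (Nat.le_succ k)
    have hq' : (q : ℚ) ≠ 0 := by exact_mod_cast hq
    apply Int.cast_injective (α := ℚ)
    simp only [Nat.succ_eq_add_one, Nat.choose_succ_self_right, add_tsub_cancel_left,
      Ring.choose_one_right, nsmul_eq_mul] at h3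
    push_cast at h3 ⊢
    rw [hz, hz, hF, coeff_rescale, coeff_rescale, PowerSeries.binomialSeries_coeff, PowerSeries.binomialSeries_coeff,
      smul_eq_mul, smul_eq_mul, mul_one, mul_one, mul_assoc, mul_comm _ ((k : ℚ) + 1), h3]
    field_simp
    ring

theorem exists_bin {q : ℕ} (hq : q ≠ 0) : ∃ P M : ℤ⟦X⟧, P ^ q = 1 - C ((q : ℤ) ^ 2) * X ∧
    M ^ q * (1 - C ((q : ℤ) ^ 2) * X) = 1 ∧ Rec q 1 P ∧ Rec q (-1) M := by
  have hq' : (q : ℚ) ≠ 0 := by exact_mod_cast hq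
  have e1 : rescale (-(q : ℚ) ^ 2) (PowerSeries.binomialSeries ℚ (1 : ℚ)) = 1 - C ((q : ℚ) ^ 2) * X := by
    have := PowerSeries.binomialSeries_nat (R := ℚ) (A := ℚ) 1
    rw [Nat.cast_one] at this
    rw [this, pow_one, map_add, map_one, rescale_X, map_neg]
    ring
  obtain ⟨P, hP, hP'⟩ := exists_lift hq 1 (-1) 0 (by
    rw [← map_pow, bin_pow, Int.cast_one, mul_one_div_cancel hq', e1]
    simp [sub_eq_add_neg])
  obtain ⟨M, hM, hM'⟩ := exists_lift hq (-1) 0 (-1) (by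
    have e2 : map (Int.castRingHom ℚ) (1 + C ((q : ℤ) ^ 2) * X * ((-1 : Polynomial ℤ) : ℤ⟦X⟧)) =
        1 - C ((q : ℚ) ^ 2) * X := by simp [sub_eq_add_neg]
    rw [← map_pow, bin_pow, e2, ← e1, ← map_mul, ← PowerSeries.binomialSeries_add,
      show (q : ℚ) * (((-1 : ℤ) : ℚ) / q) + 1 = 0 by push_cast; field_simp; ring]
    simp)
  exact ⟨P, M, by simpa [sub_eq_add_neg] using hP, by simpa [sub_eq_add_neg] using hM, hP', hM'⟩

theorem Rec.one {q : ℕ} {e : ℤ} {P : ℤ⟦X⟧} (h : Rec q e P) : coeff 1 P = -(e * q) := by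
  simpa [h.1] using h.2 0

theorem Rec.bound {q : ℕ} {e : ℤ} {P : ℤ⟦X⟧} (h : Rec q e P) (he : |e| ≤ 1) (hq : 1 ≤ q) (k : ℕ) :
    |coeff (k + 1) P| ≤ q * ((q : ℤ) ^ 2) ^ k := by
  have hq' : (1 : ℤ) ≤ q := by exact_mod_cast hq
  induction k with
  | zero =>
    rw [zero_add, h.one, abs_neg, abs_mul, Nat.abs_cast]
    nlinarith
  | succ k ih =>
    have h1 := congrArg abs (h.2 (k + 1))
    have h2 : |(q : ℤ) ^ 2 * (k + 1 : ℕ) - e * q| ≤ q ^ 2 * ((k + 1 : ℕ) + 1) := by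
      refine (abs_sub _ _).trans ?_
      rw [abs_of_nonneg (by positivity), abs_mul, Nat.abs_cast]
      nlinarith
    rw [abs_mul, abs_mul, abs_of_nonneg (a := ((k + 1 : ℕ) : ℤ) + 1) (by positivity)] at h1
    have h3 := mul_le_mul h2 ih (abs_nonneg _) (by positivity)
    rw [← h1] at h3
    refine le_of_mul_le_mul_right (h3.trans (le_of_eq ?_)) (by positivity)
    ring

theorem Rec.dvd {q : ℕ} {e : ℤ} {P : ℤ⟦X⟧} (h : Rec q e P) (k : ℕ) :
    (q : ℤ) ^ k ∣ coeff k P * k.factorial := by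
  induction k with
  | zero => simp
  | succ k ih =>
    obtain ⟨c, hc⟩ := ih
    refine ⟨(q * k - e) * c, ?_⟩
    rw [Nat.factorial_succ]
    push_cast
    linear_combination (k.factorial : ℤ) * h.2 k + ((q : ℤ) ^ 2 * k - e * q) * hc

section Norm

variable {R : Type} [CommRing R] {ν : RingSeminorm R} {ρ A B : ℝ} {F G : R⟦X⟧}

/-- bound for the weighted sum of the coefficients -/
def Nb (ν : RingSeminorm R) (ρ A : ℝ) (F : R⟦X⟧) : Prop :=
  ∀ J, ∑ j ∈ range J, ν (coeff j F) * ρ ^ j ≤ A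

theorem Nb.nonneg (h : Nb ν ρ A F) : 0 ≤ A := by simpa using h 0

theorem Nb.mono (h : Nb ν ρ A F) (hA : A ≤ B) : Nb ν ρ B F := fun J => (h J).trans hA

theorem Nb.coeff_le (h : Nb ν ρ A F) (hρ : 0 ≤ ρ) (j : ℕ) : ν (coeff j F) * ρ ^ j ≤ A :=
  (single_le_sum (f := fun j => ν (coeff j F) * ρ ^ j) (fun _ _ => by positivity)
    (self_mem_range_succ j)).trans (h (j + 1))

theorem Nb.mul (hρ : 0 ≤ ρ) (h : Nb ν ρ A F) (h' : Nb ν ρ B G) : Nb ν ρ (A * B) (F * G) := by
  intro J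
  calc _ ≤ ∑ j ∈ range J, ∑ x ∈ antidiagonal j,
        ν (coeff x.1 F) * ρ ^ x.1 * (ν (coeff x.2 G) * ρ ^ x.2) := by
        refine sum_le_sum fun j _ => ?_
        rw [coeff_mul]
        refine (mul_le_mul_of_nonneg_right (le_sum_of_subadditive ν (map_zero ν).le
          (map_add_le_add ν) _ _) (by positivity)).trans ?_
        rw [sum_mul]
        refine sum_le_sum fun x hx => ?_
        rw [← mem_antidiagonal.1 hx, pow_add, mul_mul_mul_comm]
        exact mul_le_mul_of_nonneg_right (map_mul_le_mul ν _ _) (by positivity)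
    _ ≤ (∑ j ∈ range J, ν (coeff j F) * ρ ^ j) * ∑ j ∈ range J, ν (coeff j G) * ρ ^ j := by
        rw [sum_mul_sum, ← sum_product', ← sum_biUnion]
        · refine sum_le_sum_of_subset_of_nonneg (fun x hx => ?_) fun _ _ _ => by positivity
          obtain ⟨j, h1, h2⟩ := mem_biUnion.1 hx
          have h3 : x.1 + x.2 = j := mem_antidiagonal.1 h2
          simp only [mem_range, mem_product] at h1 ⊢
          omega
        · intro i _ j _ hij
          exact disjoint_left.2 fun x h1 h2 =>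
            hij ((mem_antidiagonal.1 h1).symm.trans (mem_antidiagonal.1 h2))
    _ ≤ _ := mul_le_mul (h J) (h' J) (sum_nonneg fun _ _ => by positivity) h.nonneg

theorem Nb.C (a : R) : Nb ν ρ (ν a) (C a) := by
  intro J
  rcases J with _ | J
  · simp
  · rw [sum_range_succ', sum_eq_zero fun j _ => by simp]
    simp

theorem Nb.one (hν : ν 1 ≤ 1) : Nb ν ρ 1 (1 : R⟦X⟧) := by simpa using (Nb.C (1 : R)).mono hν

theorem Nb.pow (hν : ν 1 ≤ 1) (hρ : 0 ≤ ρ) (h : Nb ν ρ A F) (n : ℕ) : Nb ν ρ (A ^ n) (F ^ n) := by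
  induction n with
  | zero => simpa using Nb.one hν
  | succ n ih => rw [pow_succ, pow_succ]; exact ih.mul hρ h

theorem Nb.prod (hν : ν 1 ≤ 1) (hρ : 0 ≤ ρ) {ι : Type} (s : Finset ι) {F : ι → R⟦X⟧} {A : ι → ℝ}
    (h : ∀ i ∈ s, Nb ν ρ (A i) (F i)) : Nb ν ρ (∏ i ∈ s, A i) (∏ i ∈ s, F i) := by
  classical
  induction s using Finset.induction_on with
  | empty => simpa using Nb.one hν
  | insert i s hi ih =>
    rw [prod_insert hi, prod_insert hi]
    exact (h i (mem_insert_self _ _)).mul hρ (ih fun j hj => h j (mem_insert_of_mem hj))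

theorem Nb.sum (hρ : 0 ≤ ρ) {ι : Type} (s : Finset ι) {F : ι → R⟦X⟧} {A : ι → ℝ}
    (h : ∀ i ∈ s, Nb ν ρ (A i) (F i)) : Nb ν ρ (∑ i ∈ s, A i) (∑ i ∈ s, F i) := by
  intro J
  refine le_trans (sum_le_sum fun j _ => ?_) ((sum_comm.le).trans (sum_le_sum fun i hi => h i hi J))
  rw [map_sum, ← sum_mul]
  exact mul_le_mul_of_nonneg_right (le_sum_of_subadditive ν (map_zero ν).le
    (map_add_le_add ν) _ _) (by positivity)

theorem Nb.map {S : Type} [CommRing S] {μ : RingSeminorm S} (hρ : 0 ≤ ρ) {ψ : R →+* S}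
    (hψ : ∀ a, μ (ψ a) ≤ ν a) (h : Nb ν ρ A F) : Nb μ ρ A (map ψ F) := fun J =>
  le_trans (sum_le_sum fun j _ => by
    rw [coeff_map]
    exact mul_le_mul_of_nonneg_right (hψ _) (by positivity)) (h J)

end Norm

section Value

variable {ρ A B : ℝ} {F G : ℂ⟦X⟧} {t : ℂ}

/-- the absolute value as a seminorm -/
noncomputable abbrev nc : RingSeminorm ℂ := normRingSeminorm ℂ

theorem nc_one : nc 1 ≤ 1 := show ‖(1 : ℂ)‖ ≤ 1 from norm_one.le

/-- the value of a series -/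
noncomputable def ev (t : ℂ) (F : ℂ⟦X⟧) : ℂ := ∑' j, coeff j F * t ^ j

theorem Nb.summ (h : Nb nc ρ A F) (ht : ‖t‖ ≤ ρ) : Summable fun j => ‖coeff j F * t ^ j‖ := by
  refine summable_of_sum_range_le (fun _ => norm_nonneg _) fun J =>
    le_trans (sum_le_sum fun j _ => ?_) (h J)
  rw [norm_mul, norm_pow]
  exact mul_le_mul_of_nonneg_left (pow_le_pow_left₀ (norm_nonneg _) ht _) (norm_nonneg _)

theorem ev_mul (h : Nb nc ρ A F) (h' : Nb nc ρ B G) (ht : ‖t‖ ≤ ρ) :
    ev t (F * G) = ev t F * ev t G := by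
  rw [ev, ev, ev, tsum_mul_tsum_eq_tsum_sum_antidiagonal_of_summable_norm (h.summ ht) (h'.summ ht)]
  refine tsum_congr fun j => ?_
  rw [coeff_mul, sum_mul]
  refine sum_congr rfl fun x hx => ?_
  rw [← mem_antidiagonal.1 hx]
  ring

theorem ev_poly (P : Polynomial ℂ) : ev t P = P.eval t := by
  rw [ev, tsum_eq_sum (s := range (P.natDegree + 1)), Polynomial.eval_eq_sum_range]
  · simp
  · intro j hj
    rw [Polynomial.coeff_coe, Polynomial.coeff_eq_zero_of_natDegree_lt (by simpa using hj), zero_mul]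

theorem ev_one : ev t 1 = 1 := by simpa using ev_poly (t := t) 1

theorem ev_C (a : ℂ) : ev t (C a) = a := by simpa using ev_poly (t := t) (Polynomial.C a)

theorem ev_pow (h : Nb nc ρ A F) (ht : ‖t‖ ≤ ρ) (n : ℕ) : ev t (F ^ n) = ev t F ^ n := by
  induction n with
  | zero => simpa using ev_one
  | succ n ih =>
    rw [pow_succ, pow_succ, ev_mul (h.pow nc_one ((norm_nonneg _).trans ht) n) h ht, ih]

theorem ev_prod (ht : ‖t‖ ≤ ρ) {ι : Type} (s : Finset ι) {F : ι → ℂ⟦X⟧} {A : ι → ℝ}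
    (h : ∀ i ∈ s, Nb nc ρ (A i) (F i)) : ev t (∏ i ∈ s, F i) = ∏ i ∈ s, ev t (F i) := by
  classical
  induction s using Finset.induction_on with
  | empty => simpa using ev_one
  | insert i s hi ih =>
    have h1 := fun j hj => h j (mem_insert_of_mem hj)
    rw [prod_insert hi, prod_insert hi, ev_mul (h i (mem_insert_self _ _))
      (Nb.prod nc_one ((norm_nonneg _).trans ht) s h1) ht, ih h1]

theorem ev_sum (ht : ‖t‖ ≤ ρ) {ι : Type} (s : Finset ι) {F : ι → ℂ⟦X⟧} {A : ι → ℝ}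
    (h : ∀ i ∈ s, Nb nc ρ (A i) (F i)) : ev t (∑ i ∈ s, F i) = ∑ i ∈ s, ev t (F i) := by
  simp only [ev, map_sum, sum_mul]
  exact Summable.tsum_finsetSum fun i hi => ((h i hi).summ ht).of_norm

theorem ev_tail (h : Nb nc ρ A F) (hρ : 0 < ρ) (ht : ‖t‖ ≤ ρ) (J : ℕ) :
    ‖ev t F - ∑ j ∈ range J, coeff j F * t ^ j‖ ≤ A * (‖t‖ / ρ) ^ J := by
  have h1 := h.summ ht
  rw [ev, ← h1.of_norm.sum_add_tsum_nat_add J, add_sub_cancel_left]
  have h2 := (summable_nat_add_iff J).2 h1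
  refine (norm_tsum_le_tsum_norm h2).trans (h2.tsum_le_of_sum_range_le fun n => ?_)
  have h3 := h (J + n)
  rw [sum_range_add] at h3
  have h4 : 0 ≤ ∑ j ∈ range J, nc (coeff j F) * ρ ^ j := sum_nonneg fun _ _ => by positivity
  refine le_trans ?_ (mul_le_mul_of_nonneg_right (le_trans (le_add_of_nonneg_left h4) h3)
    (by positivity))
  rw [sum_mul]
  refine sum_le_sum fun j _ => ?_
  rw [norm_mul, norm_pow, add_comm j, mul_assoc, pow_add, pow_add, div_pow, mul_comm (ρ ^ J),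
    mul_assoc, mul_div_cancel₀ _ (by positivity), mul_comm (ρ ^ j)]
  exact mul_le_mul_of_nonneg_left (mul_le_mul_of_nonneg_left
    (pow_le_pow_left₀ (norm_nonneg _) ht _) (by positivity)) (norm_nonneg _)

theorem nb_poly (P : Polynomial ℂ) (hρ : 0 ≤ ρ) :
    Nb nc ρ (∑ j ∈ range (P.natDegree + 1), ‖P.coeff j‖ * ρ ^ j) P := by
  intro J
  refine le_trans (sum_le_sum_of_subset_of_nonneg (range_mono (le_max_left J (P.natDegree + 1)))
    fun _ _ _ => by positivity) (le_of_eq ?_)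
  symm
  simp only [Polynomial.coeff_coe]
  refine sum_subset (range_mono (le_max_right _ _)) fun j _ hj => ?_
  rw [Polynomial.coeff_eq_zero_of_natDegree_lt (by simpa using hj)]
  simp

end Value

end Pool.Agent.P.MP_71e30e_nt.Cyc
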