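import Pool.Agent.P.MP_71e30e_nt.H0
import Pool.Agent.P.MP_71e30e_nt.HB

set_option autoImplicit false

/-! Roots of unity of prime order are not all close to algebraic numbers of small degree. -/

namespace Pool.Agent.P.MP_71e30e_nt.Cyc

open Finset NumberField Polynomial IntermediateField

theorem nc_apply (z : ℂ) : nc z = ‖z‖ := rfl

theorem sum_coeff_le (f : ℂ[X]) (J : ℕ) :
    ∑ i ∈ range J, ‖f.coeff i‖ ≤ ∑ i ∈ range (f.natDegree + 1), ‖f.coeff i‖ := by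
  simpa [nc_apply] using nb_poly f zero_le_one J

/-- the sum of the absolute values of the coefficients -/
noncomputable def n1 : RingSeminorm ℂ[X] where
  toFun f := ∑ i ∈ range (f.natDegree + 1), ‖f.coeff i‖
  map_zero' := by simp
  add_le' f g := by
    refine le_trans (sum_le_sum fun i _ => ?_) (sum_add_distrib.le.trans
      (add_le_add (sum_coeff_le f _) (sum_coeff_le g _)))
    rw [coeff_add]
    exact norm_add_le _ _
  neg' f := by simp
  mul_le' f g := by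
    have := (nb_poly f zero_le_one).mul zero_le_one (nb_poly g zero_le_one) ((f * g).natDegree + 1)
    rw [← Polynomial.coe_mul] at this
    simpa only [nc_apply, one_pow, mul_one, coeff_coe] using this

theorem n1_def (f : ℂ[X]) : n1 f = ∑ i ∈ range (f.natDegree + 1), ‖f.coeff i‖ := rfl

theorem n1_coeff (f : ℂ[X]) (i : ℕ) : ‖f.coeff i‖ ≤ n1 f :=
  (single_le_sum (f := fun i => ‖f.coeff i‖) (fun _ _ => norm_nonneg _)
    (self_mem_range_succ i)).trans (sum_coeff_le f _)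

theorem n1_eval (f : ℂ[X]) {s : ℂ} (hs : ‖s‖ ≤ 1) : ‖f.eval s‖ ≤ n1 f := by
  rw [eval_eq_sum_range]
  refine (norm_sum_le _ _).trans (sum_le_sum fun i _ => ?_)
  rw [norm_mul, norm_pow]
  exact mul_le_of_le_one_right (norm_nonneg _) (pow_le_one₀ (norm_nonneg _) hs)

theorem n1_mon (a : ℂ) (n : ℕ) : n1 (monomial n a) ≤ ‖a‖ := by
  rw [n1_def]
  simp only [coeff_monomial, apply_ite norm, norm_zero, sum_ite_eq]
  split_ifs
  exacts [le_rfl, norm_nonneg _]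

theorem n1_root {f : ℂ[X]} (hf : f ≠ 0) {α : ℂ} (h : f.IsRoot α) :
    ‖f.leadingCoeff * α‖ ≤ n1 f := by
  by_cases h1 : ‖α‖ ≤ 1
  · rw [norm_mul]
    exact (mul_le_of_le_one_right (norm_nonneg _) h1).trans (n1_coeff f _)
  push Not at h1
  obtain ⟨n, hn⟩ := Nat.exists_eq_succ_of_ne_zero
    (natDegree_pos_iff_degree_pos.2 (degree_pos_of_root hf h)).ne'
  rw [IsRoot, eval_eq_sum_range, sum_range_succ, coeff_natDegree, hn] at h
  have h2 : ‖f.leadingCoeff * α‖ * ‖α‖ ^ n ≤ n1 f * ‖α‖ ^ n := by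
    rw [← norm_pow, ← norm_mul, mul_assoc, ← pow_succ', eq_neg_of_add_eq_zero_right h, norm_neg]
    refine (norm_sum_le _ _).trans (le_trans ?_ (mul_le_mul_of_nonneg_right
      (sum_coeff_le f (n + 1)) (norm_nonneg _)))
    rw [sum_mul]
    refine sum_le_sum fun i hi => ?_
    rw [norm_mul, norm_pow, norm_pow]
    exact mul_le_mul_of_nonneg_left (pow_le_pow_right₀ h1.le (mem_range_succ_iff.1 hi))
      (norm_nonneg _)
  exact le_of_mul_le_mul_right h2 (by positivity)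

/-- the value of an integer polynomial -/
noncomputable def ew {L : Type} [CommRing L] (w : L) : ℤ[X] →+* L :=
  eval₂RingHom (Int.castRingHom L) w

theorem ew_X {L : Type} [CommRing L] (w : L) : ew w X = w := by simp [ew]

theorem map_ew {L M : Type} [CommRing L] [CommRing M] (ψ : L →+* M) (w : L) (f : ℤ[X][X]) :
    (f.map (ew w)).map ψ = f.map (ew (ψ w)) := by
  rw [Polynomial.map_map]
  congr 1
  exact Polynomial.ringHom_ext' (RingHom.ext_int _ _) (by simp [ew_X])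

theorem lio {L : Type} [Field L] [NumberField L] (φ : L →+* ℂ) {z : L} (hz : IsIntegral ℤ z)
    (h0 : z ≠ 0) {B : ℝ} {N : ℕ} (hB : 1 ≤ B) (hN : Module.finrank ℚ L ≤ N)
    (h : ∀ ψ : L →+* ℂ, ‖ψ z‖ ≤ B) : 1 ≤ ‖φ z‖ * B ^ N := by
  classical
  have h1 := (Cl.of_int ⊤ hz).pf top_ne_bot h0
  rw [Ideal.absNorm_top, Nat.cast_one, one_mul, pn, ← mul_prod_erase _ _ (mem_univ φ.toRatAlgHom)] at h1
  refine h1.trans (mul_le_mul_of_nonneg_left ((prod_le_prod (fun _ _ => norm_nonneg _)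
    fun ψ _ => h ψ.toRingHom).trans ?_) (norm_nonneg _))
  rw [prod_const]
  refine pow_le_pow_right₀ hB ((card_le_univ _).trans ?_)
  rwa [AlgHom.card]

theorem root_data {L : Type} [Field L] [NumberField L] {q : ℕ} (hq : q ≠ 0) {w : L}
    (hw : w ^ q = 1) {f : ℤ[X][X]} {A : ℝ} (hA : ∀ v : ℂ, ‖v‖ = 1 → n1 (f.map (ew v)) ≤ A)
    (hf : f.map (ew w) ≠ 0) : IsIntegral ℤ (f.map (ew w)).leadingCoeff ∧
      (∀ ψ : L →+* ℂ, ‖ψ (f.map (ew w)).leadingCoeff‖ ≤ A) ∧ ∀ α, (f.map (ew w)).IsRoot α →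
        IsIntegral ℤ ((f.map (ew w)).leadingCoeff * α) ∧
        ∀ ψ : L →+* ℂ, ‖ψ ((f.map (ew w)).leadingCoeff * α)‖ ≤ A := by
  have h1 : ∀ ψ : L →+* ℂ, n1 ((f.map (ew w)).map ψ) ≤ A := fun ψ => by
    rw [map_ew]
    exact hA _ (Complex.norm_eq_one_of_pow_eq_one (by
      rw [← map_pow, hw, map_one]) hq)
  have h2 : ∀ ψ : L →+* ℂ, ((f.map (ew w)).map ψ).leadingCoeff =
      ψ (f.map (ew w)).leadingCoeff := fun ψ => leadingCoeff_map_of_injective ψ.injective _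
  obtain ⟨v, rfl⟩ := am_surj (IsIntegral.of_pow (Nat.pos_of_ne_zero hq) (hw ▸ isIntegral_one))
  have h3 : (f.map (ew (am L v))).leadingCoeff = am L (f.map (ew v)).leadingCoeff := by
    rw [← map_ew, leadingCoeff_map_of_injective am_inj]
  refine ⟨h3 ▸ am_int _, fun ψ => h2 ψ ▸ (n1_coeff _ _).trans (h1 ψ), fun α hα => ⟨?_, fun ψ => ?_⟩⟩
  · have := isIntegral_leadingCoeff_smul (f.map (ew v)) α (by
      rw [aeval_def, eval₂_eq_eval_map, map_ew]; exact hα)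
    rw [Algebra.smul_def, ← h3] at this
    exact isIntegral_trans _ this
  · rw [map_mul, ← h2]
    exact (n1_root (Polynomial.map_ne_zero hf) (hα.map (f := ψ))).trans (h1 ψ)

/-- a root of a polynomial of small degree and small height -/
def Ap (ω : ℂ) (A : ℝ) (δ : ℕ) (α : ℂ) : Prop :=
  ∃ f : ℤ[X][X], f.map (ew ω) ≠ 0 ∧ (f.map (ew ω)).natDegree ≤ δ ∧
    (∀ v : ℂ, ‖v‖ = 1 → n1 (f.map (ew v)) ≤ A) ∧ (f.map (ew ω)).IsRoot α

variable {ω : ℂ} {A : ℝ} {δ q : ℕ}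

theorem Ap.ext {α : ℂ} (h : Ap ω A δ α) {N : ℕ} (L : Subfield ℂ)
    (hL : FiniteDimensional ℚ L ∧ Module.finrank ℚ L ≤ N ∧ ω ∈ L) : ∃ M : Subfield ℂ,
      (FiniteDimensional ℚ M ∧ Module.finrank ℚ M ≤ N * δ ∧ ω ∈ M) ∧ L ≤ M ∧ α ∈ M := by
  obtain ⟨f, h0, h1, -, h2⟩ := h
  obtain ⟨_, hN, hω⟩ := hL
  have e : (f.map (ew (⟨ω, hω⟩ : L))).map (algebraMap L ℂ) = f.map (ew ω) := map_ew _ _ _
  rw [← e] at h0 h1 h2
  generalize f.map (ew (⟨ω, hω⟩ : L)) = g at h0 h1 h2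
  have g0 : g ≠ 0 := fun k => h0 (by rw [k, Polynomial.map_zero])
  have g1 : aeval α g = 0 := by rwa [aeval_def, eval₂_eq_eval_map]
  have g2 : IsIntegral L α := IsAlgebraic.isIntegral ⟨g, g0, g1⟩
  have := adjoin.finiteDimensional g2
  have g3 : L ≤ (L⟮α⟯).toSubfield := fun z hz => (L⟮α⟯).algebraMap_mem ⟨z, hz⟩
  let _ : Algebra L (L⟮α⟯).toSubfield := (L⟮α⟯).algebra
  have : FiniteDimensional L (L⟮α⟯).toSubfield := this
  have g4 : Module.finrank L (L⟮α⟯).toSubfield = _ := adjoin.finrank g2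
  refine ⟨(L⟮α⟯).toSubfield, ⟨Module.Finite.trans L _, ?_, g3 hω⟩, g3,
    mem_adjoin_simple_self L α⟩
  rw [← Module.finrank_mul_finrank ℚ L, g4]
  rw [natDegree_map] at h1
  exact Nat.mul_le_mul hN ((natDegree_le_of_dvd (minpoly.dvd L α g1) g0).trans h1)

theorem base_field (hq : q.Prime) (hω : IsPrimitiveRoot ω q) :
    ∃ L : Subfield ℂ, FiniteDimensional ℚ L ∧ Module.finrank ℚ L ≤ q - 1 ∧ ω ∈ L := by
  have h : IsIntegral ℚ ω := (hω.isIntegral hq.pos).tower_top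
  have h1 := adjoin.finrank h
  rw [← cyclotomic_eq_minpoly_rat hω hq.pos, natDegree_cyclotomic, Nat.totient_prime hq] at h1
  exact ⟨(ℚ⟮ω⟯).toSubfield, adjoin.finiteDimensional h, h1.le, mem_adjoin_simple_self ℚ ω⟩

theorem Ap.data {α : ℂ} (h : Ap ω A δ α) (hq : q ≠ 0) (hω : ω ^ q = 1) (L : Subfield ℂ)
    [NumberField L] (h1 : ω ∈ L) (h2 : α ∈ L) : ∃ l : L, l ≠ 0 ∧ IsIntegral ℤ l ∧
      IsIntegral ℤ (l * ⟨α, h2⟩) ∧ ∀ ψ : L →+* ℂ, ‖ψ l‖ ≤ A ∧ ‖ψ (l * ⟨α, h2⟩)‖ ≤ A := by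
  obtain ⟨f, h0, -, hA, h3⟩ := h
  have e : (f.map (ew (⟨ω, h1⟩ : L))).map (algebraMap L ℂ) = f.map (ew ω) := map_ew _ _ _
  rw [← e] at h0 h3
  have g0 : f.map (ew (⟨ω, h1⟩ : L)) ≠ 0 := fun k => h0 (by rw [k, Polynomial.map_zero])
  obtain ⟨a, b, c⟩ := root_data hq (w := (⟨ω, h1⟩ : L)) (Subtype.ext hω) hA g0
  obtain ⟨c1, c2⟩ := c ⟨α, h2⟩ (IsRoot.of_map (f := algebraMap L ℂ) h3 (RingHom.injective _))
  exact ⟨_, leadingCoeff_ne_zero.2 g0, a, c1, fun ψ => ⟨b ψ, c2 ψ⟩⟩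

theorem four_term (hq : q.Prime) (hω : IsPrimitiveRoot ω q) (hA : 1 ≤ A) {a b c d : ℂ}
    (ha : Ap ω A δ a) (hb : Ap ω A δ b) (hc : Ap ω A δ c) (hd : Ap ω A δ d)
    (h : ‖a * b - c * d‖ * A ^ 4 * (2 * A ^ 4) ^ (q * δ ^ 4) < 1) : a * b = c * d := by
  obtain ⟨L1, p1, -, m1⟩ := ha.ext _ (base_field hq hω).choose_spec
  obtain ⟨L2, p2, i2, m2⟩ := hb.ext _ p1
  obtain ⟨L3, p3, i3, m3⟩ := hc.ext _ p2
  obtain ⟨L, ⟨_, p4, p5⟩, i4, m4⟩ := hd.ext _ p3
  have : NumberField L := ⟨⟩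
  obtain ⟨l1, a1, b1, c1, d1⟩ := ha.data hq.ne_zero hω.pow_eq_one L p5 (i4 (i3 (i2 m1)))
  obtain ⟨l2, a2, b2, c2, d2⟩ := hb.data hq.ne_zero hω.pow_eq_one L p5 (i4 (i3 m2))
  obtain ⟨l3, a3, b3, c3, d3⟩ := hc.data hq.ne_zero hω.pow_eq_one L p5 (i4 m3)
  obtain ⟨l4, a4, b4, c4, d4⟩ := hd.data hq.ne_zero hω.pow_eq_one L p5 m4
  by_contra hne
  have hA0 : 0 ≤ A := by linarith
  have b : ∀ {x y z w : ℂ}, ‖x‖ ≤ A → ‖y‖ ≤ A → ‖z‖ ≤ A → ‖w‖ ≤ A → ‖x * y * (z * w)‖ ≤ A ^ 4 :=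
    fun h1 h2 h3 h4 => by
      rw [norm_mul, norm_mul, norm_mul, show A ^ 4 = A * A * (A * A) by ring]
      gcongr
  have e : ∀ x y z w : L, l3 * l4 * (l1 * x * (l2 * y)) - l1 * l2 * (l3 * z * (l4 * w)) =
      l1 * l2 * (l3 * l4) * (x * y - z * w) := fun _ _ _ _ => by ring
  have h1 := lio L.subtype (((b3.mul b4).mul (c1.mul c2)).sub ((b1.mul b2).mul (c3.mul c4)))
    (B := 2 * A ^ 4) (N := q * δ ^ 4) (by
      rw [e]
      exact mul_ne_zero (by simp [a1, a2, a3, a4]) fun k => hne (by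
        simpa [sub_eq_zero] using congrArg L.subtype k))
    (by nlinarith [one_le_pow₀ (n := 4) hA]) (p4.trans (by
      rw [show q * δ ^ 4 = q * δ * δ * δ * δ by ring]
      gcongr
      omega)) fun ψ => by
      rw [map_sub, map_mul, map_mul, map_mul _ (l1 * _), map_mul _ (l1 * l2), map_mul _ l1 l2,
        map_mul _ (l3 * _), two_mul]
      exact (norm_sub_le _ _).trans (add_le_add (b (d3 ψ).1 (d4 ψ).1 (d1 ψ).2 (d2 ψ).2)
        (b (d1 ψ).1 (d2 ψ).1 (d3 ψ).2 (d4 ψ).2))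
  rw [e, map_mul, norm_mul, map_mul, map_mul, map_mul] at h1
  have h2 := b (d1 L.subtype).1 (d2 L.subtype).1 (d3 L.subtype).1 (d4 L.subtype).1
  refine absurd (h1.trans (mul_le_mul_of_nonneg_right ?_ (by positivity))) h.not_ge
  rw [mul_comm]
  exact mul_le_mul_of_nonneg_left h2 (norm_nonneg _)

theorem near_root (hq : q.Prime) (hω : IsPrimitiveRoot ω q) (hA : 1 ≤ A) {f : ℤ[X][X]}
    (h0 : f.map (ew ω) ≠ 0) (h1 : (f.map (ew ω)).natDegree ≤ δ)
    (h2 : ∀ v : ℂ, ‖v‖ = 1 → n1 (f.map (ew v)) ≤ A) {s : ℂ} {ρ : ℝ} (hρ : 0 ≤ ρ) (hρ1 : ρ ≤ 1)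
    (h : ‖(f.map (ew ω)).eval s‖ * A ^ q < ρ ^ δ) : ∃ α, Ap ω A δ α ∧ ‖s - α‖ ≤ ρ := by
  by_contra! hc
  obtain ⟨L, _, p1, p2⟩ := base_field hq hω
  have : NumberField L := ⟨⟩
  have e : (f.map (ew (⟨ω, p2⟩ : L))).map (algebraMap _ ℂ) = f.map (ew ω) := map_ew _ _ _
  have g0 : f.map (ew (⟨ω, p2⟩ : L)) ≠ 0 := fun k => h0 (by rw [← e, k, Polynomial.map_zero])
  obtain ⟨a, b, -⟩ := root_data hq.ne_zero (w := (⟨ω, p2⟩ : L))
    (Subtype.ext hω.pow_eq_one) h2 g0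
  have h3 : 1 ≤ ‖(f.map (ew ω)).leadingCoeff‖ * A ^ q := by
    rw [← e, leadingCoeff_map]
    exact lio L.subtype a (leadingCoeff_ne_zero.2 g0) hA (p1.trans (Nat.sub_le _ _)) b
  have h4 : ∀ m : Multiset ℂ, (∀ α ∈ m, ρ ≤ ‖s - α‖) →
      ρ ^ m.card ≤ ‖(m.map (s - ·)).prod‖ := fun m => by
    induction m using Multiset.induction_on with
    | empty => simp
    | cons a m ih =>
      intro hm
      rw [Multiset.card_cons, Multiset.map_cons, Multiset.prod_cons, norm_mul, pow_succ']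
      exact mul_le_mul (hm a (Multiset.mem_cons_self _ _))
        (ih fun α hα => hm α (Multiset.mem_cons_of_mem hα)) (by positivity) (norm_nonneg _)
  have h5 := (pow_le_pow_of_le_one hρ hρ1 ((card_roots' _).trans h1)).trans
    (h4 _ fun α hα => (hc α ⟨f, h0, h1, h2, (mem_roots h0).1 hα⟩).le)
  rw [(IsAlgClosed.splits _).eval_eq_prod_roots, norm_mul, mul_right_comm] at h
  nlinarith [norm_nonneg (((f.map (ew ω)).roots.map (s - ·)).prod)]

theorem eg {p : ℕ} (hp : p.Prime) (hq : q.Prime) (hpq : p ≠ q) {s : ℂ} (hω : IsPrimitiveRoot ω q)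
    (hs : IsPrimitiveRoot s p) (D : Finset (ZMod p)) (hD : 2 * p < 3 * D.card) {ρ : ℝ}
    (hA : 1 ≤ A) (h : ∀ d ∈ D, ∃ α, Ap ω A δ α ∧ ‖s ^ d.val - α‖ ≤ ρ) (h1 : 2 * p * ρ < 1)
    (h2 : 6 * ρ * A ^ 4 * (2 * A ^ 4) ^ (q * δ ^ 4) < 1) : p - 1 ≤ δ ^ 2 := by
  classical
  have := Fact.mk hp
  choose! α hα hα' using h
  have hp2 : (2 : ℝ) ≤ p := by exact_mod_cast hp.two_le
  have s1 : ‖s‖ = 1 := Complex.norm_eq_one_of_pow_eq_one hs.pow_eq_one hp.ne_zero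
  have e1 : ∀ d : ZMod p, ‖s ^ d.val‖ = 1 := fun d => by rw [norm_pow, s1, one_pow]
  have e2 : ∀ a b : ZMod p, s ^ (a + b).val = s ^ a.val * s ^ b.val := fun a b => by
    rw [ZMod.val_add, ← pow_eq_pow_mod _ hs.pow_eq_one, pow_add]
  have tri : ∀ a b : ZMod p, ∃ d ∈ D, d + a ∈ D ∧ d + b ∈ D := fun a b => by
    have c1 := card_compl D
    have c2 := card_le_univ D
    have c3 := card_union_le Dᶜ (Dᶜ.image (· - a) ∪ Dᶜ.image (· - b))
    have c4 := card_union_le (Dᶜ.image (· - a)) (Dᶜ.image (· - b))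
    have c5 := card_image_le (s := Dᶜ) (f := (· - a))
    have c6 := card_image_le (s := Dᶜ) (f := (· - b))
    obtain ⟨d, -, hd⟩ := exists_mem_notMem_of_card_lt_card
      (s := Dᶜ ∪ (Dᶜ.image (· - a) ∪ Dᶜ.image (· - b))) (t := univ) (by
        rw [card_univ]; rw [ZMod.card] at *; omega)
    simp only [mem_union, mem_image, mem_compl, not_or, not_exists, not_and, not_not] at hd
    exact ⟨d, hd.1, by_contra fun k => hd.2.1 _ k (by ring), by_contra fun k => hd.2.2 _ k (by ring)⟩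
  obtain ⟨d, hd, hd1, -⟩ := tri 1 1
  have hρ : 0 ≤ ρ := (norm_nonneg _).trans (hα' d hd)
  have hρ1 : ρ < 1 := by nlinarith
  have a0 : ∀ d ∈ D, α d ≠ 0 := fun d hd k => by
    have := hα' d hd
    rw [k, sub_zero, e1] at this
    linarith
  have a1 : ∀ a ∈ D, ∀ b ∈ D, ‖s ^ (a + b).val - α a * α b‖ ≤ 3 * ρ := fun a ha b hb => by
    rw [e2, show s ^ a.val * s ^ b.val - α a * α b = s ^ a.val * (s ^ b.val - α b) +
      (s ^ a.val - α a) * (s ^ b.val - (s ^ b.val - α b)) by ring]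
    have k1 := norm_sub_le (s ^ b.val) (s ^ b.val - α b)
    have k2 := hα' a ha
    have k3 := hα' b hb
    refine (norm_add_le _ _).trans ?_
    rw [norm_mul, norm_mul, e1]
    rw [e1] at k1
    nlinarith [norm_nonneg (s ^ a.val - α a), norm_nonneg (s ^ b.val - (s ^ b.val - α b))]
  have a2 : ∀ a ∈ D, ∀ b ∈ D, ∀ c ∈ D, ∀ d ∈ D, a + b = c + d → α a * α b = α c * α d :=
    fun a ha b hb c hc d hd e => four_term hq hω hA (hα a ha) (hα b hb) (hα c hc) (hα d hd)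
      (lt_of_le_of_lt (by
        have k := norm_sub_le (s ^ (c + d).val - α c * α d) (s ^ (a + b).val - α a * α b)
        rw [← e, sub_sub_sub_cancel_left] at k
        have k1 := a1 a ha b hb
        have k2 := a1 c hc d hd
        rw [← e] at k2
        gcongr
        linarith) h2)
  choose g hg hg' using fun a => tri a a
  let φ : ZMod p → ℂ := fun a => α (g a + a) / α (g a)
  have a3 : ∀ a, ∀ d ∈ D, d + a ∈ D → α (d + a) = φ a * α d := fun a d h1 h2 => by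
    rw [div_mul_eq_mul_div, eq_div_iff (a0 _ (hg a))]
    exact a2 _ h2 _ (hg a) _ (hg' a).1 _ h1 (by ring)
  have a4 : ∀ n : ℕ, φ n = φ 1 ^ n := fun n => by
    induction n with
    | zero => simp [φ, a0 _ (hg 0)]
    | succ n ih =>
      obtain ⟨d, k1, k2, k3⟩ := tri n (n + 1)
      apply mul_right_cancel₀ (a0 d k1)
      rw [Nat.cast_succ, ← a3 _ d k1 k3, ← add_assoc, a3 1 _ k2 (by rwa [add_assoc]), a3 _ d k1 k2,
        ih]
      ring
  have a5 : φ 1 ≠ 1 := fun k => by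
    have k1 := a3 1 d hd hd1
    rw [k, one_mul] at k1
    have k2 := norm_sub_le (s ^ (d + 1).val - α (d + 1)) (s ^ d.val - α d)
    rw [k1, sub_sub_sub_cancel_right, e2, ZMod.val_one, pow_one, ← mul_sub_one, norm_mul, e1] at k2
    have k3 := hα' _ hd1
    rw [k1, e2, ZMod.val_one, pow_one] at k3
    have k4 := hα' _ hd
    have k5 : ‖∑ j ∈ range p, (s ^ j - 1)‖ ≤ p * (p * ‖s - 1‖) := by
      refine (norm_sum_le _ _).trans ((sum_le_card_nsmul _ _ (p * ‖s - 1‖) fun j hj => ?_).trans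
        (by simp))
      rw [← geom_sum_mul, norm_mul]
      refine mul_le_mul_of_nonneg_right ((norm_sum_le _ _).trans ?_) (norm_nonneg _)
      simpa [s1] using (mem_range.1 hj).le
    rw [sum_sub_distrib, hs.geom_sum_eq_zero hp.one_lt] at k5
    simp only [sum_const, card_range, nsmul_eq_mul, mul_one, zero_sub, norm_neg,
      Complex.norm_natCast] at k5
    have k6 : 1 ≤ p * ‖s - 1‖ := by nlinarith
    nlinarith
  have a6 : IsPrimitiveRoot (φ 1) p := by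
    have := IsPrimitiveRoot.orderOf (φ 1)
    rwa [orderOf_eq_prime (by rw [← a4, ZMod.natCast_self, ← Nat.cast_zero, a4, pow_zero]) a5] at this
  obtain ⟨L1, p1, -, m1⟩ := (hα _ (hg 1)).ext _ (base_field hq hω).choose_spec
  obtain ⟨L, ⟨_, p2, p3⟩, i2, m2⟩ := (hα _ (hg' 1).1).ext _ p1
  have c : p.Coprime q := (Nat.coprime_primes hp hq).2 hpq
  have a7 := IsPrimitiveRoot.lcm_totient_le_finrank (K := ℚ) (L := L)
    (x := ⟨φ 1, L.div_mem m2 (i2 m1)⟩) (y := ⟨ω, p3⟩) (a6.of_map_of_injective (f := L.subtype)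
      L.subtype.injective) (hω.of_map_of_injective (f := L.subtype) L.subtype.injective)
    (cyclotomic.irreducible_rat (Nat.lcm_pos hp.pos hq.pos))
  rw [c.lcm_eq_mul, Nat.totient_mul c, Nat.totient_prime hp, Nat.totient_prime hq] at a7
  refine Nat.le_of_mul_le_mul_right (a7.trans (p2.trans (le_of_eq (by ring)))) ?_
  have := hq.two_le
  omega

end Pool.Agent.P.MP_71e30e_nt.Cyc
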