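import Pool.Agent.P.MP_71e30e_nt.H4
import Pool.Agent.P.MP_71e30e_nt.H5

set_option autoImplicit false

/-! Expansions of the cyclotomic roots at the complex places. -/

namespace Pool.Agent.P.MP_71e30e_nt.Cyc

open Finset PowerSeries NumberField

/-- the two binomial series -/
def Bin (q : ℕ) (P M : ℤ⟦X⟧) : Prop := P ^ q = 1 - C ((q : ℤ) ^ 2) * X ∧
  M ^ q * (1 - C ((q : ℤ) ^ 2) * X) = 1 ∧ Rec q 1 P ∧ Rec q (-1) M

section Ser

variable {R S : Type} [CommRing R] [CommRing S] {P M : ℤ⟦X⟧} {N k q : ℕ}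

/-- an integer series at a multiple of the variable -/
noncomputable def rs (a : R) : ℤ⟦X⟧ →+* R⟦X⟧ := (rescale a).comp (map (Int.castRingHom R))

theorem coeff_rs (a : R) (P : ℤ⟦X⟧) (j : ℕ) : coeff j (rs a P) = a ^ j * (coeff j P : ℤ) := by
  simp [rs]

theorem map_rs (ψ : R →+* S) (a : R) (P : ℤ⟦X⟧) : map ψ (rs a P) = rs (ψ a) P := by
  ext j
  simp [coeff_rs]

theorem rs_lin (a : R) (q : ℕ) : rs a (1 - C ((q : ℤ) ^ 2) * X) = 1 - C (q ^ 2 * a) * X := by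
  ext j
  rw [coeff_rs]
  simp only [map_sub, coeff_one, coeff_C_mul, coeff_X]
  rcases j with _ | _ | j <;> simp [mul_comm]

/-- the root attached to one multiplier -/
noncomputable def Uc (P M : ℤ⟦X⟧) (N : ℕ) (s : R) (c : ℕ) : R⟦X⟧ :=
  rs (s ^ (N + (c + 1))) P * rs (s ^ (N - (c + 1))) M

/-- a monomial in the roots -/
noncomputable def Ph (P M : ℤ⟦X⟧) (N : ℕ) (s : R) (a : Fin k → ℕ) : R⟦X⟧ :=
  ∏ c : Fin k, Uc P M N s c ^ a c

/-- a combination of monomials on one branch -/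
noncomputable def Fs (P M : ℤ⟦X⟧) (N : ℕ) (s w : R) {A : Type} [Fintype A] (n : A → Fin k → ℕ)
    (τ : Fin k → Fin q) (l : A → ℤ) : R⟦X⟧ :=
  ∑ a, C (l a * w ^ ex τ (n a)) * Ph P M N s (n a)

theorem map_Ph (ψ : R →+* S) (s : R) (a : Fin k → ℕ) :
    map ψ (Ph P M N s a) = Ph P M N (ψ s) a := by
  simp [Ph, Uc, map_rs]

theorem map_Fs (ψ : R →+* S) (s w : R) {A : Type} [Fintype A] (n : A → Fin k → ℕ)
    (τ : Fin k → Fin q) (l : A → ℤ) :
    map ψ (Fs P M N s w n τ l) = Fs P M N (ψ s) (ψ w) n τ l := by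
  simp [Fs, map_Ph]

theorem Bin.Uc_pow (h : Bin q P M) (s : R) (c : ℕ) : Uc P M N s c ^ q *
    (1 - C (q ^ 2 * s ^ (N - (c + 1))) * X) = 1 - C (q ^ 2 * s ^ (N + (c + 1))) * X := by
  rw [Uc, mul_pow, mul_assoc, ← map_pow, ← map_pow, ← rs_lin, ← map_mul, h.1, h.2.1, map_one,
    mul_one, rs_lin]

theorem Bin.Uc_zero (h : Bin q P M) (s : R) (c : ℕ) : constantCoeff (Uc P M N s c) = 1 := by
  rw [Uc, map_mul, ← coeff_zero_eq_constantCoeff_apply, ← coeff_zero_eq_constantCoeff_apply,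
    coeff_rs, coeff_rs, h.2.2.1.1, h.2.2.2.1]
  simp

theorem Bin.Ph_zero (h : Bin q P M) (s : R) (a : Fin k → ℕ) :
    constantCoeff (Ph P M N s a) = 1 := by
  simp [Ph, h.Uc_zero]

theorem Bin.Ph_one (h : Bin q P M) (s : R) (a : Fin k → ℕ) : coeff 1 (Ph P M N s a) =
    ∑ c : Fin k, a c * (q * (s ^ (N - (c + 1)) - s ^ (N + (c + 1)))) := by
  have h1 : ∀ c, coeff 1 (Uc P M N s c) = q * (s ^ (N - (c + 1)) - s ^ (N + (c + 1))) := fun c => by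
    rw [Uc, coeff_one_mul, ← coeff_zero_eq_constantCoeff_apply,
      ← coeff_zero_eq_constantCoeff_apply, coeff_rs, coeff_rs, coeff_rs, coeff_rs, h.2.2.1.1,
      h.2.2.2.1, h.2.2.1.one, h.2.2.2.one]
    push_cast
    ring
  rw [Ph]
  induction (univ : Finset (Fin k)) using Finset.induction_on with
  | empty => simp
  | insert c s hc ih =>
    rw [prod_insert hc, sum_insert hc, coeff_one_mul, ih, coeff_one_pow, h1]
    simp [h.Uc_zero]

/-- linear growth of the degrees of the coefficients -/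
def Dg (D : ℕ) (F : (Polynomial R)⟦X⟧) : Prop := ∀ j, (coeff j F).natDegree ≤ D * j

theorem Dg.mul {D : ℕ} {F G : (Polynomial R)⟦X⟧} (h : Dg D F) (h' : Dg D G) : Dg D (F * G) := by
  intro j
  rw [coeff_mul]
  refine Polynomial.natDegree_sum_le_of_forall_le _ _ fun x hx => ?_
  rw [← HasAntidiagonal.mem_antidiagonal.1 hx, mul_add]
  exact Polynomial.natDegree_mul_le.trans (add_le_add (h _) (h' _))

theorem Dg.C (D : ℕ) (a : R) : Dg D (C (Polynomial.C a)) := fun j => by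
  rw [coeff_C]
  split_ifs <;> simp

theorem dg_Ph (hk : k ≤ N) (a : Fin k → ℕ) :
    Dg (2 * N) (Ph P M N (Polynomial.X : Polynomial R) a) := by
  have h0 : Dg (2 * N) (1 : (Polynomial R)⟦X⟧) := by simpa using Dg.C (2 * N) (1 : R)
  have h1 : ∀ m ≤ 2 * N, ∀ P, Dg (2 * N) (rs ((Polynomial.X : Polynomial R) ^ m) P) :=
    fun m hm P j => by
      rw [coeff_rs, ← pow_mul, mul_comm, ← Polynomial.C_eq_intCast]
      exact (Polynomial.natDegree_C_mul_X_pow_le _ _).trans (Nat.mul_le_mul_right _ hm)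
  refine prod_induction _ _ (fun _ _ => Dg.mul) h0 fun c _ => ?_
  induction a c with
  | zero => simpa using h0
  | succ m ih =>
    rw [pow_succ]
    exact ih.mul ((h1 _ (by omega) _).mul (h1 _ (by omega) _))

theorem dg_Fs (hk : k ≤ N) (w : R) {A : Type} [Fintype A] (n : A → Fin k → ℕ)
    (τ : Fin k → Fin q) (l : A → ℤ) : Dg (2 * N) (Fs P M N Polynomial.X (Polynomial.C w) n τ l) := by
  intro j
  rw [Fs, map_sum]
  refine Polynomial.natDegree_sum_le_of_forall_le _ _ fun a _ => Dg.mul ?_ (dg_Ph hk _) j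
  simpa using Dg.C (2 * N) (l a * w ^ ex τ (n a))

/-- the radius -/
noncomputable def rho (q : ℕ) : ℝ := 1 / (2 * q ^ 2)

theorem rho_nonneg (q : ℕ) : 0 ≤ rho q := by unfold rho; positivity

theorem Rec.nb {e : ℤ} (h : Rec q e P) (he : |e| ≤ 1) (hq : 1 ≤ q) (m : ℕ) :
    Nb n1 (rho q) (1 + 1 / q) (rs (Polynomial.X ^ m) P) := by
  have hq' : (1 : ℝ) ≤ q := by exact_mod_cast hq
  have h1 : ∀ j, n1 (coeff j (rs (Polynomial.X ^ m) P)) ≤ |((coeff j P : ℤ) : ℝ)| := fun j => by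
    rw [coeff_rs, ← pow_mul, mul_comm, ← Polynomial.C_eq_intCast,
      Polynomial.C_mul_X_pow_eq_monomial]
    simpa using n1_mon ((coeff j P : ℤ) : ℂ) (m * j)
  have h2 : ∀ J, ∑ j ∈ range (J + 1), |((coeff j P : ℤ) : ℝ)| * rho q ^ j ≤
      1 + 1 / q * (1 - (1 / 2) ^ J) := fun J => by
    induction J with
    | zero => simp [h.1]
    | succ J ih =>
      have h3 : |((coeff (J + 1) P : ℤ) : ℝ)| ≤ q * ((q : ℝ) ^ 2) ^ J := by
        exact_mod_cast h.bound he hq J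
      have h4 : q * ((q : ℝ) ^ 2) ^ J * rho q ^ (J + 1) = 1 / q * (1 / 2) ^ (J + 1) := by
        rw [rho, div_pow, div_pow, mul_pow]
        field_simp
        ring
      have h5 := mul_le_mul_of_nonneg_right h3 (pow_nonneg (rho_nonneg q) (J + 1))
      rw [sum_range_succ]
      rw [h4] at h5
      refine (add_le_add ih h5).trans (le_of_eq ?_)
      ring
  intro J
  refine (sum_le_sum fun j _ => mul_le_mul_of_nonneg_right (h1 j)
    (pow_nonneg (rho_nonneg q) _)).trans ?_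
  rcases J with _ | J
  · simp
    positivity
  · refine (h2 J).trans ?_
    have : 0 ≤ 1 / (q : ℝ) * (1 / 2) ^ J := by positivity
    linarith

theorem n1_C (a : ℂ) : n1 (Polynomial.C a) ≤ ‖a‖ := n1_mon a 0

theorem Bin.nb_Uc (h : Bin q P M) (hq : 1 ≤ q) (c : ℕ) :
    Nb n1 (rho q) ((1 + 1 / q) ^ 2) (Uc P M N Polynomial.X c) := by
  rw [sq]
  exact (h.2.2.1.nb (by simp) hq _).mul (rho_nonneg q) (h.2.2.2.nb (by simp) hq _)

theorem Bin.nb_Ph (h : Bin q P M) (hq : 1 ≤ q) {a : Fin k → ℕ} {e : ℕ} (ha : ∀ c, a c ≤ e) :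
    Nb n1 (rho q) ((1 + 1 / q) ^ (2 * (k * e))) (Ph P M N Polynomial.X a) := by
  have h1 : n1 1 ≤ 1 := by simpa using n1_C 1
  refine (Nb.prod h1 (rho_nonneg q) _ fun (c : Fin k) _ =>
    (h.nb_Uc (N := N) hq c).pow h1 (rho_nonneg q) (a c)).mono ?_
  rw [prod_pow_eq_pow_sum, pow_mul]
  exact pow_le_pow_right₀ (one_le_pow₀ (le_add_of_nonneg_right (by positivity)))
    ((sum_le_card_nsmul _ _ e fun c _ => ha c).trans (by simp))

theorem Bin.nb_Fs (h : Bin q P M) (hq : 1 ≤ q) {v : ℂ} (hv : ‖v‖ = 1) {A : Type} [Fintype A]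
    {n : A → Fin k → ℕ} {e : ℕ} (hn : ∀ a c, n a c ≤ e) (τ : Fin k → Fin q) {l : A → ℤ} {Λ : ℝ}
    (hl : ∀ a, |(l a : ℝ)| ≤ Λ) : Nb n1 (rho q) (Fintype.card A * Λ * (1 + 1 / q) ^ (2 * (k * e)))
      (Fs P M N Polynomial.X (Polynomial.C v) n τ l) := by
  refine (Nb.sum (rho_nonneg q) _ fun a _ => ((Nb.C _).mono (B := Λ) ?_).mul (rho_nonneg q)
    (h.nb_Ph hq (hn a))).mono (by simp [mul_assoc])
  have := n1_C (l a * v ^ ex τ (n a))
  simp only [map_mul, map_intCast, map_pow, norm_mul, norm_pow, hv, one_pow, mul_one,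
    Complex.norm_intCast] at this
  exact this.trans (hl a)

theorem Nb.eval {ρ A : ℝ} {F : (Polynomial ℂ)⟦X⟧} (h : Nb n1 ρ A F) (hρ : 0 ≤ ρ) {s : ℂ}
    (hs : ‖s‖ = 1) : Nb nc ρ A (PowerSeries.map (Polynomial.evalRingHom s) F) :=
  h.map hρ fun f => n1_eval f hs.le

theorem ev_ord {ρ A : ℝ} {F : ℂ⟦X⟧} {t : ℂ} (h : Nb nc ρ A F) (hρ : 0 < ρ) (ht : ‖t‖ ≤ ρ) {L : ℕ}
    (hL : X ^ L ∣ F) : ‖ev t F‖ ≤ A * (‖t‖ / ρ) ^ L := by
  have := ev_tail h hρ ht L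
  rwa [sum_eq_zero fun j hj => by rw [X_pow_dvd_iff.1 hL j (mem_range.1 hj), zero_mul],
    sub_zero] at this

theorem ev_lead {ρ A : ℝ} {F : ℂ⟦X⟧} {t : ℂ} (h : Nb nc ρ A F) (hρ : 0 < ρ) (ht : ‖t‖ ≤ ρ)
    (ht0 : t ≠ 0) {L : ℕ} (hL : X ^ L ∣ F) (h0 : ev t F = 0) :
    ‖coeff L F‖ * ρ ^ L ≤ A * (‖t‖ / ρ) := by
  have h1 := ev_tail h hρ ht (L + 1)
  rw [sum_range_succ, sum_eq_zero fun j hj => by
    rw [X_pow_dvd_iff.1 hL j (mem_range.1 hj), zero_mul], h0, zero_add, zero_sub, norm_neg,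
    norm_mul, norm_pow, pow_succ', ← mul_assoc, div_pow, ← mul_div_assoc,
    le_div_iff₀ (by positivity), mul_right_comm] at h1
  exact le_of_mul_le_mul_right h1 (by positivity)

end Ser

variable {K : Type} [Field K] [NumberField K] {p q x y N : ℕ} {P M : ℤ⟦X⟧} {ζ : 𝓞 K} {ω : ℂ}

/-- the point at which the series are evaluated -/
noncomputable def tp {F : Type} [Field F] (q N x : ℕ) (s : F) : F := (q ^ 2 * s ^ N * x)⁻¹

theorem norm_tp {s : ℂ} (hs : ‖s‖ = 1) (hq : 1 ≤ q) : ‖tp q N x s‖ / rho q = 2 / x := by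
  have : (q : ℝ) ≠ 0 := by positivity
  simp only [tp, rho, norm_inv, norm_mul, norm_pow, hs, Complex.norm_natCast, one_pow]
  field_simp

theorem rho_pos (hq : 1 ≤ q) : 0 < rho q := by unfold rho; positivity

theorem norm_tp_le {s : ℂ} (hs : ‖s‖ = 1) (hq : 1 ≤ q) (hx : 2 ≤ x) : ‖tp q N x s‖ ≤ rho q := by
  rw [← div_le_one (rho_pos hq), norm_tp hs hq, div_le_one (by positivity)]
  exact_mod_cast hx

theorem norm_place (hp : p ≠ 0) (hζ : ζ ^ p = 1) (φ : K →ₐ[ℚ] ℂ) : ‖φ (am K ζ)‖ = 1 :=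
  Complex.norm_eq_one_of_pow_eq_one (by rw [← map_pow, ← map_pow, hζ, map_one, map_one]) hp

/-- the roots, their denominators and the branches on which they lie -/
def Pat (p q x y N : ℕ) (P M : ℤ⟦X⟧) (ζ : 𝓞 K) (ω : ℂ) (u : ℕ → K) (I : ℕ → Ideal (𝓞 K))
    (τ : (K →ₐ[ℚ] ℂ) → ℕ → Fin q) : Prop :=
  ∀ c < N, Rt p q x y (ζ ^ (c + 1)) (u c) (I c) ∧ ∀ φ : K →ₐ[ℚ] ℂ, φ (u c) = ω ^ (τ φ c : ℕ) *
    ev (tp q N x (φ (am K ζ))) (Uc P M N (φ (am K ζ)) c)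

theorem Bin.nc_Uc (h : Bin q P M) (hq : 1 ≤ q) {s : ℂ} (hs : ‖s‖ = 1) (c : ℕ) :
    Nb nc (rho q) ((1 + 1 / q) ^ 2) (Uc P M N s c) := by
  simpa [Uc, map_rs] using (h.nb_Uc (N := N) hq c).eval (rho_nonneg q) hs

theorem exists_pat (hp : p ≠ 0) (hζ : ζ ^ p = 1) (hq : 1 ≤ q) (hω : IsPrimitiveRoot ω q)
    (hx : 2 ≤ x) (h : Bin q P M) (hu : ∀ c < N, ∃ u I, Rt p q x y (ζ ^ (c + 1)) u I) :
    ∃ u I τ, Pat p q x y N P M ζ ω u I τ := by
  have : NeZero q := ⟨by omega⟩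
  choose! u I hu using hu
  have : ∀ (φ : K →ₐ[ℚ] ℂ) (c : ℕ), ∃ i : Fin q, c < N → φ (u c) = ω ^ (i : ℕ) *
      ev (tp q N x (φ (am K ζ))) (Uc P M N (φ (am K ζ)) c) := fun φ c => by
    by_cases hc : c < N
    swap
    · exact ⟨0, fun k => absurd k hc⟩
    have s1 := norm_place hp hζ φ
    have h1 := congrArg φ (hu c hc).1
    have s2 : φ (am K ζ) ^ p = 1 := by rw [← map_pow, ← map_pow, hζ, map_one, map_one]
    simp only [map_mul, map_pow, map_sub, map_natCast] at h1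
    generalize φ (am K ζ) = s at *
    have ht := norm_tp_le (N := N) s1 hq hx
    have h2 := congrArg (ev (tp q N x s)) (h.Uc_pow (N := N) s c)
    have e : ∀ a : ℂ, (1 - C a * X : ℂ⟦X⟧) = (1 - Polynomial.C a * Polynomial.X : Polynomial ℂ) :=
      fun a => by simp
    rw [e, e, ev_mul ((h.nc_Uc hq s1 c).pow nc_one (rho_nonneg q) q) (nb_poly _ (rho_nonneg q)) ht,
      ev_pow (h.nc_Uc hq s1 c) ht, ev_poly, ev_poly] at h2
    generalize ev (tp q N x s) (Uc P M N s c) = z at *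
    have s0 : s ≠ 0 := norm_pos_iff.1 (by rw [s1]; exact one_pos)
    have x0 : (x : ℂ) ≠ 0 := by exact_mod_cast (by omega : x ≠ 0)
    have q0 : (q : ℂ) ≠ 0 := by exact_mod_cast (by omega : q ≠ 0)
    have s3 : (s ^ (c + 1)) ^ (p - 1) = (s ^ (c + 1))⁻¹ := eq_inv_of_mul_eq_one_left (by
      rw [← pow_succ, Nat.sub_add_cancel (by omega), ← pow_mul, mul_comm, pow_mul, s2, one_pow])
    have h3 : z ^ q * (x - (s ^ (c + 1)) ^ (p - 1)) = x - s ^ (c + 1) := by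
      simp only [Polynomial.eval_sub, Polynomial.eval_one, Polynomial.eval_mul, Polynomial.eval_C,
        Polynomial.eval_X, tp] at h2
      rw [pow_sub₀ s s0 hc, pow_add s N] at h2
      rw [s3]
      field_simp at h2 ⊢
      linear_combination h2
    have h4 : ∀ m : ℕ, (x : ℂ) - s ^ m ≠ 0 := fun m k => by
      have := congrArg norm (sub_eq_zero.1 k)
      rw [norm_pow, s1, one_pow, Complex.norm_natCast, Nat.cast_eq_one] at this
      omega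
    have z0 : z ≠ 0 := fun k => h4 _ (by rw [← h3, k, zero_pow (by omega), zero_mul])
    obtain ⟨i, hi, h5⟩ := hω.eq_pow_of_pow_eq_one (ξ := φ (u c) / z) (by
      rw [div_pow, mul_right_cancel₀ (pow_mul s _ _ ▸ h4 _) (h1.trans h3.symm),
        div_self (pow_ne_zero _ z0)])
    exact ⟨⟨i, hi⟩, fun _ => by rw [h5, div_mul_cancel₀ _ z0]⟩
  choose τ hτ using this
  exact ⟨u, I, τ, fun c hc => ⟨hu c hc, fun φ => hτ φ c hc⟩⟩

variable {u : ℕ → K} {I : ℕ → Ideal (𝓞 K)} {τ : (K →ₐ[ℚ] ℂ) → ℕ → Fin q} {k : ℕ}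

theorem Bin.nc_Ph (h : Bin q P M) (hq : 1 ≤ q) {s : ℂ} (hs : ‖s‖ = 1) {a : Fin k → ℕ} {e : ℕ}
    (ha : ∀ c, a c ≤ e) : Nb nc (rho q) ((1 + 1 / q) ^ (2 * (k * e))) (Ph P M N s a) := by
  simpa [map_Ph] using (h.nb_Ph (N := N) hq ha).eval (rho_nonneg q) hs

theorem Pat.val (H : Pat p q x y N P M ζ ω u I τ) (hp : p ≠ 0) (hζ : ζ ^ p = 1) (hq : 1 ≤ q)
    (hx : 2 ≤ x) (h : Bin q P M) (hk : k ≤ N) (a : Fin k → ℕ) (φ : K →ₐ[ℚ] ℂ) :
    φ (∏ c : Fin k, u c ^ a c) = ω ^ ex (fun c => τ φ c) a *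
      ev (tp q N x (φ (am K ζ))) (Ph P M N (φ (am K ζ)) a) := by
  have s1 := norm_place hp hζ φ
  have ht := norm_tp_le (N := N) s1 hq hx
  rw [Ph, ev_prod ht _ fun (c : Fin k) _ => (h.nc_Uc hq s1 c).pow nc_one (rho_nonneg q) (a c), ex,
    ← prod_pow_eq_pow_sum, ← prod_mul_distrib, map_prod]
  refine prod_congr rfl fun c _ => ?_
  rw [map_pow, (H c (c.2.trans_le hk)).2, mul_pow, ev_pow (h.nc_Uc hq s1 c) ht, pow_mul]

theorem Pat.cl (H : Pat p q x y N P M ζ ω u I τ) (hk : k ≤ N) {a : Fin k → ℕ} {e : ℕ}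
    (ha : ∀ c, a c ≤ e) : Cl (∏ c : Fin k, I c ^ e) (∏ c : Fin k, u c ^ a c) :=
  Cl.prod _ fun c _ => (H c (c.2.trans_le hk)).1.2.2.2.pow (ha c)

theorem Pat.pf (H : Pat p q x y N P M ζ ω u I τ) (hk : k ≤ N) (hy : y ≠ 0) {e : ℕ} {z : K}
    (hz : Cl (∏ c : Fin k, I c ^ e) z) (h0 : z ≠ 0) : 1 ≤ (y : ℝ) ^ (k * e) * pn z := by
  have h1 : Ideal.absNorm (∏ c : Fin k, I c ^ e) = y ^ (k * e) := by
    rw [map_prod, prod_congr rfl fun c _ => by
      rw [map_pow, (H c (c.2.trans_le hk)).1.2.1]]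
    simp [← pow_mul, mul_comm]
  have := hz.pf (fun k => pow_ne_zero _ hy (by rw [← h1, k]; simp)) h0
  rwa [h1, Nat.cast_pow] at this

theorem Pat.val_Fs (H : Pat p q x y N P M ζ ω u I τ) (hp : p ≠ 0) (hζ : ζ ^ p = 1) (hq : 1 ≤ q)
    (hx : 2 ≤ x) (h : Bin q P M) (hk : k ≤ N) {A : Type} [Fintype A] {n : A → Fin k → ℕ} {e : ℕ}
    (hn : ∀ a c, n a c ≤ e) (l : A → ℤ) (φ : K →ₐ[ℚ] ℂ) :
    φ (∑ a, l a * ∏ c : Fin k, u c ^ n a c) =
      ev (tp q N x (φ (am K ζ))) (Fs P M N (φ (am K ζ)) ω n (fun c => τ φ c) l) := by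
  have s1 := norm_place hp hζ φ
  have ht := norm_tp_le (N := N) s1 hq hx
  rw [Fs, ev_sum ht _ fun a _ => (Nb.C _).mul (rho_nonneg q) (h.nc_Ph hq s1 (hn a)), map_sum]
  refine sum_congr rfl fun a _ => ?_
  rw [ev_mul (Nb.C _) (h.nc_Ph hq s1 (hn a)) ht, ev_C, map_mul, H.val hp hζ hq hx h hk,
    map_intCast, mul_assoc]

end Pool.Agent.P.MP_71e30e_nt.Cyc
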