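import Pool.Agent.P.MP_71e30e_nt.H1
import Pool.Agent.P.MP_71e30e_nt.H3

set_option autoImplicit false

/-! Polynomial approximations to the root modulo powers of the exponent. -/

namespace Pool.Agent.P.MP_71e30e_nt.Cyc

open Finset Polynomial

variable {q t : ℕ} {κ : ℤ}

/-- the guaranteed valuation of a coefficient -/
def fv (t j : ℕ) : ℕ := (j + 1) / 2 + t * j

theorem exists_trunc_root (hq : q.Prime) (hq2 : q ≠ 2) (hκ : (q : ℤ) ^ (t + 2) ∣ κ) (r : ℕ) :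
    ∃ s e : ℤ[X], s.natDegree ≤ r ∧ e.natDegree ≤ r * q + 1 ∧ C (q : ℤ) ∣ s - 1 ∧
      s ^ q = 1 + C κ * X + C (q : ℤ) ^ fv t (r + 1) * e := by
  have := Fact.mk hq
  obtain ⟨P, -, hP, -, hR, -⟩ := exists_bin hq.ne_zero
  obtain ⟨m, rfl⟩ := hκ
  let D : PowerSeries ℤ → Prop := fun F => ∀ j, (q : ℤ) ^ fv t j ∣ PowerSeries.coeff j F
  have mul : ∀ F G, D F → D G → D (F * G) := fun F G h h' j => by
    rw [PowerSeries.coeff_mul]
    refine dvd_sum fun x hx => ((pow_dvd_pow _ ?_).trans (pow_add (q : ℤ) _ _).dvd).trans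
      (mul_dvd_mul (h x.1) (h' x.2))
    rw [← HasAntidiagonal.mem_antidiagonal.1 hx, fv, fv, fv, mul_add]
    omega
  have pw : ∀ F, D F → ∀ n, D (F ^ n) := fun F h n => by
    induction n with
    | zero =>
      intro j
      rcases j with _ | j <;> simp [fv]
    | succ n ih => rw [pow_succ]; exact mul _ _ ih h
  obtain ⟨G, hG⟩ : ∃ G, G = rs (-(q ^ t * m)) P := ⟨_, rfl⟩
  have g1 : G ^ q = ((1 + C (q ^ (t + 2) * m) * X : ℤ[X]) : PowerSeries ℤ) := by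
    rw [hG, ← map_pow, hP, rs_lin, Polynomial.coe_add, Polynomial.coe_mul, coe_C, Polynomial.coe_one,
      coe_X, mul_neg, map_neg, neg_mul, sub_neg_eq_add, pow_add, mul_left_comm, mul_assoc]
  have g2 : D G := fun j => by
    obtain ⟨w, n, hn, e⟩ := Nat.exists_eq_pow_mul_and_not_dvd j.factorial_ne_zero q hq.ne_one
    have h1 := (padicValNat_dvd_iff_le j.factorial_ne_zero).1 (Dvd.intro _ e.symm)
    have h2 := sub_one_mul_padicValNat_factorial (p := q) j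
    have h3 := Nat.mul_le_mul (by have := hq.two_le; omega : 2 ≤ q - 1) h1
    have h4 := hR.dvd j
    rw [e, ← pow_sub_mul_pow _ (by omega : w ≤ j), Nat.cast_mul, Nat.cast_pow, mul_left_comm,
      mul_comm, mul_dvd_mul_iff_left (by simp [hq.ne_zero])] at h4
    have h5 := (Nat.prime_iff_prime_int.1 hq).pow_dvd_of_dvd_mul_right _
      (by exact_mod_cast hn) h4
    rw [hG, coeff_rs, fv, pow_add, mul_comm, pow_mul]
    exact mul_dvd_mul (pow_dvd_pow_of_dvd (dvd_neg.2 (dvd_mul_right _ _)) _)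
      ((pow_dvd_pow _ (by omega)).trans h5)
  have g3 : D (G.trunc (r + 1)) := fun j => by
    rw [coeff_coe, PowerSeries.coeff_trunc]
    split_ifs
    exacts [g2 j, dvd_zero _]
  have g4 : PowerSeries.X ^ (r + 1) ∣ (G.trunc (r + 1) : PowerSeries ℤ) ^ q - G ^ q :=
    (PowerSeries.X_pow_dvd_iff.2 fun j hj => by
      simp [PowerSeries.coeff_trunc, hj]).trans (sub_dvd_pow_sub_pow _ _ q)
  have d := Nat.lt_succ_iff.1 (PowerSeries.natDegree_trunc_lt G r)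
  obtain ⟨e, he⟩ : C ((q : ℤ) ^ fv t (r + 1)) ∣
      G.trunc (r + 1) ^ q - (1 + C (q ^ (t + 2) * m) * X) := by
    refine (C_dvd_iff_dvd_coeff _ _).2 fun j => ?_
    rw [← coeff_coe, Polynomial.coe_sub, Polynomial.coe_pow, ← g1]
    by_cases hj : j < r + 1
    · rw [PowerSeries.X_pow_dvd_iff.1 g4 j hj]
      exact dvd_zero _
    · rw [map_sub]
      refine (pow_dvd_pow _ ?_).trans (dvd_sub (pw _ g3 q j) (pw _ g2 q j))
      have := Nat.mul_le_mul_left t (not_lt.1 hj)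
      unfold fv
      omega
  refine ⟨_, e, d, ?_, (C_dvd_iff_dvd_coeff _ _).2 fun j => ?_, by rw [← C_pow, ← he]; ring⟩
  · rw [← natDegree_C_mul (pow_ne_zero _ (Nat.cast_ne_zero.2 hq.ne_zero)), ← he]
    refine (natDegree_sub_le _ _).trans (max_le ((natDegree_pow_le_of_le _ d).trans ?_)
      (le_trans (by compute_degree) (Nat.le_add_left 1 _)))
    rw [mul_comm]
    omega
  · rcases j with _ | j
    · simp [PowerSeries.coeff_trunc, hG, coeff_rs, hR.1]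
    · rw [coeff_sub, coeff_one, if_neg (by omega), sub_zero, ← coeff_coe]
      exact (dvd_pow_self _ (by unfold fv; omega)).trans (g3 _)

/-- the approximation of order `r` to the root of `X + κ n` -/
def Gam (q : ℕ) (κ : ℤ) (r b : ℕ) (n Γ : ℤ[X]) : Prop := Γ.natDegree ≤ 2 * r ∧
  C (q : ℤ) ∣ Γ - X ^ r ∧ C (q : ℤ) ^ b ∣ Γ ^ q * X - X ^ (r * q) * (X + C κ * n)

theorem exists_gam (hq : q.Prime) (hq2 : q ≠ 2) (hκ : (q : ℤ) ^ (t + 2) ∣ κ) {r b : ℕ}
    (hb : b ≤ fv t (r + 1)) {n : ℤ[X]} (hn : n.natDegree ≤ 2) : ∃ Γ, Gam q κ r b n Γ := by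
  obtain ⟨s, e, h1, h2, h3, h4⟩ := exists_trunc_root hq hq2 hκ r
  let H : ℕ → ℤ[X] → ℤ[X] := fun D s => ∑ j ∈ range (D + 1), C (s.coeff j) * n ^ j * X ^ (D - j)
  let ι := algebraMap ℤ[X] (FractionRing ℤ[X])
  have ι1 : Function.Injective ι := IsFractionRing.injective _ _
  have ι0 : ι X ≠ 0 := (map_ne_zero_iff _ ι1).2 X_ne_zero
  have hH : ∀ D s, s.natDegree ≤ D → ι (H D s) = ι X ^ D * aeval (ι n / ι X) s := fun D s h => by
    rw [aeval_eq_sum_range' (Nat.lt_succ_of_le h), map_sum, mul_sum]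
    refine sum_congr rfl fun j hj => ?_
    rw [← pow_sub_mul_pow _ (mem_range_succ_iff.1 hj), div_pow]
    simp
    field_simp
  refine ⟨H r s, natDegree_sum_le_of_forall_le _ _ fun j hj => ?_, ?_,
    (pow_dvd_pow _ hb).trans ⟨H (r * q + 1) e, ι1 ?_⟩⟩
  · have := mem_range_succ_iff.1 hj
    rw [mul_assoc]
    refine (natDegree_C_mul_le _ _).trans (natDegree_mul_le.trans ((add_le_add
      (natDegree_pow_le_of_le _ hn) (natDegree_X_pow_le _)).trans (by omega)))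
  · have c := (C_dvd_iff_dvd_coeff _ _).1 h3
    have : X ^ r = ∑ j ∈ range (r + 1), C (coeff 1 j) * n ^ j * X ^ (r - j) := by
      simp [coeff_one]
    rw [this, ← sum_sub_distrib]
    refine dvd_sum fun j _ => ?_
    rw [← sub_mul, ← sub_mul, ← C_sub, ← coeff_sub]
    exact ((map_dvd C (c j)).mul_right _).mul_right _
  · rw [map_sub, map_mul, map_pow, hH _ _ h1, map_mul _ _ (H _ _), hH _ _ h2, mul_pow, ← map_pow _ s,
      h4]
    simp
    field_simp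
    ring

theorem not_dvd_X_pow (hq : q.Prime) (m : ℕ) : ¬ C (q : ℤ) ∣ X ^ m := fun h => by
  have := (C_dvd_iff_dvd_coeff _ _).1 h m
  rw [coeff_X_pow_self] at this
  exact (Nat.prime_iff_prime_int.1 hq).not_dvd_one this

theorem exists_scale (hq : q.Prime) {v I : ℕ} {m : ℤ} (hm : ¬ (q : ℤ) ∣ m) {A : ℤ[X]}
    (hA : ¬ C (q : ℤ) ∣ A) (hI : A.natDegree ≤ I) : ∃ α A', α ≤ v * I ∧ ¬ C (q : ℤ) ∣ A' ∧
      A.comp (C (q ^ v * m) * X) = C (q : ℤ) ^ α * A' := by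
  have pq := Nat.prime_iff_prime_int.1 hq
  rw [C_dvd_iff_dvd_coeff, not_forall] at hA
  obtain ⟨i, hi⟩ := hA
  have h1 : ∀ α, (q : ℤ) ^ α ∣ (A.comp (C (q ^ v * m) * X)).coeff i → α ≤ v * I := fun α h => by
    rw [comp_C_mul_X_coeff, mul_pow, ← pow_mul] at h
    exact ((pow_dvd_pow_iff pq.ne_zero pq.not_unit).1 (pq.pow_dvd_of_dvd_mul_right _
      (fun k => hm (pq.dvd_of_dvd_pow k)) (pq.pow_dvd_of_dvd_mul_left _ hi h))).trans
      (Nat.mul_le_mul_left _ ((le_natDegree_of_ne_zero fun k => hi (k ▸ dvd_zero _)).trans hI))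
  obtain ⟨α, A', h2, h3⟩ := WfDvdMonoid.max_power_factor (a₀ := A.comp (C (q ^ v * m) * X))
    (fun k => by simpa using h1 (v * I + 1) (by rw [k]; simp)) (prime_C_iff.2 pq).irreducible
  exact ⟨α, A', h1 α (by rw [h3, ← C_pow, coeff_C_mul]; exact dvd_mul_right _ _), h2, h3⟩

theorem wronsk (hq : q.Prime) {v I b : ℕ} (hv : v ≠ 0) {m : ℤ} (hm : ¬ (q : ℤ) ∣ m)
    {A B n₁ n₂ : ℤ[X]} (hn : ¬ (q : ℤ) ∣ n₁.eval 0 - n₂.eval 0) (hA : ¬ C (q : ℤ) ∣ A)
    (hB : ¬ C (q : ℤ) ∣ B) (dA : A.natDegree ≤ I) (dB : B.natDegree ≤ I)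
    (h : C (q : ℤ) ^ b ∣ A ^ q * (X + C (q ^ v * m) * n₂) + B ^ q * (X + C (q ^ v * m) * n₁)) :
    b ≤ v * (2 * I + 1) := by
  have pq := Nat.prime_iff_prime_int.1 hq
  have pC := prime_C_iff.2 pq
  obtain ⟨α, A', a1, a2, a3⟩ := exists_scale hq (v := v) hm hA dA
  obtain ⟨β, B', b1, b2, b3⟩ := exists_scale hq (v := v) hm hB dB
  obtain ⟨κ, hκ⟩ : ∃ κ : ℤ, κ = q ^ v * m := ⟨_, rfl⟩
  rw [← hκ] at a3 b3 h
  have k1 : (q : ℤ) ∣ κ := by rw [hκ]; exact (dvd_pow_self _ hv).mul_right _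
  obtain ⟨N₁, e1⟩ : ∃ N, N = X + C κ * n₁ := ⟨_, rfl⟩
  obtain ⟨N₂, e2⟩ : ∃ N, N = X + C κ * n₂ := ⟨_, rfl⟩
  rw [← e1, ← e2] at h
  have h1 : C (q : ℤ) ^ b ∣ derivative (A ^ q * N₂ + B ^ q * N₁) := by
    obtain ⟨e, he⟩ := h
    rw [he, ← C_pow, derivative_C_mul]
    exact dvd_mul_right _ _
  have h2 : C (q : ℤ) ^ b ∣ C (q : ℤ) * N₁ * N₂ * (derivative A * B - A * derivative B) +
      A * B * (N₁ * derivative N₂ - N₂ * derivative N₁) := by
    refine pC.pow_dvd_of_dvd_mul_left (a := A ^ q * N₂) _ (fun k => (pC.dvd_or_dvd k).elim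
      (fun k => hA (pC.dvd_of_dvd_pow k)) fun k => not_dvd_X_pow hq 1 ?_) ?_
    · simpa [e2] using dvd_sub k ((map_dvd C k1).mul_right n₂)
    · convert dvd_sub (h1.mul_left (A * B * N₁ * N₂)) (h.mul_left
        (C (q : ℤ) * A * derivative B * N₁ * N₂ + A * B * N₂ * derivative N₁)) using 1
      obtain ⟨r, rfl⟩ := Nat.exists_eq_succ_of_ne_zero hq.ne_zero
      simp only [derivative_add, derivative_mul, derivative_pow, Nat.succ_sub_one]
      rw [pow_succ, pow_succ]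
      ring
  have d : ∀ f : ℤ[X], C κ * (derivative f).comp (C κ * X) = derivative (f.comp (C κ * X)) :=
    fun f => by rw [derivative_comp, derivative_C_mul_X]
  have c : ∀ n : ℤ[X], (X + C κ * n).comp (C κ * X) = C κ * (X + n.comp (C κ * X)) := fun n => by
    rw [add_comp, mul_comp, C_comp, X_comp, mul_add]
  have d1 := d A
  have d2 := d B
  have d3 := d N₁
  have d4 := d N₂
  have c1 := c n₁
  have c2 := c n₂
  rw [← e1] at c1
  rw [← e2] at c2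
  obtain ⟨M₁, m1⟩ : ∃ M, M = X + n₁.comp (C κ * X) := ⟨_, rfl⟩
  obtain ⟨M₂, m2⟩ : ∃ M, M = X + n₂.comp (C κ * X) := ⟨_, rfl⟩
  rw [← m1] at c1
  rw [← m2] at c2
  rw [a3, ← C_pow, derivative_C_mul, C_pow] at d1
  rw [b3, ← C_pow, derivative_C_mul, C_pow] at d2
  rw [c1, derivative_C_mul] at d3
  rw [c2, derivative_C_mul] at d4
  have h4 : C κ * C (q : ℤ) ^ b ∣ C κ * (C (q : ℤ) ^ (v + α + β) * (C m *
      (C (q : ℤ) * M₁ * M₂ * (derivative A' * B' - A' * derivative B') +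
        A' * B' * (M₁ * derivative M₂ - M₂ * derivative M₁)))) := by
    have := mul_dvd_mul_left (C κ) (map_dvd (compRingHom (C κ * X)) h2)
    simp only [map_pow, map_add, map_mul, map_sub, coe_compRingHom_apply, C_comp, a3, b3, c1,
      c2] at this
    convert this using 1
    have k : C κ = C (q : ℤ) ^ v * C m := by rw [hκ, C_mul, C_pow]
    rw [pow_add, pow_add, ← mul_assoc (_ * _ * _), mul_right_comm _ _ (C m),
      mul_right_comm _ _ (C m), ← k]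
    linear_combination (-(C (q : ℤ) * C κ ^ 2 * M₁ * M₂ * C (q : ℤ) ^ β * B')) * d1 +
      (C (q : ℤ) * C κ ^ 2 * M₁ * M₂ * C (q : ℤ) ^ α * A') * d2 +
      (C (q : ℤ) ^ α * A' * C (q : ℤ) ^ β * B' * C κ * M₂) * d3 -
      (C (q : ℤ) ^ α * A' * C (q : ℤ) ^ β * B' * C κ * M₁) * d4
  rw [mul_dvd_mul_iff_left (C_ne_zero.2 (hκ ▸ mul_ne_zero (pow_ne_zero _ pq.ne_zero)
    fun k => hm (k ▸ dvd_zero _)))] at h4
  refine ((pow_dvd_pow_iff pC.ne_zero pC.not_unit).1 (pC.pow_dvd_of_dvd_mul_right _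
    (fun k => ?_) h4)).trans (by nlinarith)
  rcases pC.dvd_or_dvd k with k | k
  · exact hm (by simpa using (C_dvd_iff_dvd_coeff _ _).1 k 0)
  rw [mul_assoc, mul_assoc, dvd_add_right (dvd_mul_right _ _)] at k
  rcases pC.dvd_or_dvd k with k | k
  · exact (pC.dvd_or_dvd k).elim a2 b2
  have := map_dvd (evalRingHom 0) k
  rw [m1, m2] at this
  simp only [coe_evalRingHom, eval_C, eval_sub, eval_mul, eval_add, eval_X, derivative_add,
    derivative_X, ← d, eval_comp, eval_one, mul_zero, zero_add] at this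
  exact hn ((dvd_sub this (k1.mul_right (eval 0 n₁ * eval 0 (derivative n₂) -
    eval 0 n₂ * eval 0 (derivative n₁)))).trans (dvd_of_eq (by ring)))

theorem pade_zero (hq : q.Prime) (hq2 : q ≠ 2) {v I r b : ℕ} (hv : v ≠ 0) {m : ℤ}
    (hm : ¬ (q : ℤ) ∣ m) {A B n₁ n₂ Γ₁ Γ₂ : ℤ[X]} (hn : ¬ (q : ℤ) ∣ n₁.eval 0 - n₂.eval 0)
    (g1 : Gam q (q ^ v * m) r b n₁ Γ₁) (g2 : Gam q (q ^ v * m) r b n₂ Γ₂)
    (hAB : ¬ (C (q : ℤ) ∣ A ∧ C (q : ℤ) ∣ B)) (dA : A.natDegree ≤ I) (dB : B.natDegree ≤ I)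
    (h : C (q : ℤ) ^ b ∣ A * Γ₂ + B * Γ₁) : b ≤ v * (2 * I + 1) := by
  have pC := prime_C_iff.2 (Nat.prime_iff_prime_int.1 hq)
  rcases b with _ | b
  · exact Nat.zero_le _
  have h1 : C (q : ℤ) ∣ A + B := by
    refine (pC.dvd_or_dvd (a := X ^ r) ?_).resolve_left (not_dvd_X_pow hq r)
    convert dvd_sub ((dvd_pow_self _ b.succ_ne_zero).trans h)
      (dvd_add (g2.2.1.mul_left A) (g1.2.1.mul_left B)) using 1
    ring
  refine wronsk hq hv hm hn (fun k => hAB ⟨k, (dvd_add_right k).1 h1⟩)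
    (fun k => hAB ⟨(dvd_add_left k).1 h1, k⟩) dA dB (pC.pow_dvd_of_dvd_mul_left (a := Γ₂ ^ q * X) _
      (fun k => (pC.dvd_or_dvd k).elim (fun k => not_dvd_X_pow hq r ?_)
        fun k => not_dvd_X_pow hq 1 (by simpa using k)) ?_)
  · simpa using dvd_sub (pC.dvd_of_dvd_pow k) g2.2.1
  · have h2 := h.trans (Odd.add_dvd_pow_add_pow _ _ (hq.odd_of_ne_two hq2))
    have a1 := g1.2.2
    have a2 := g2.2.2
    generalize X + C (q ^ v * m) * n₁ = N₁ at *
    generalize X + C (q ^ v * m) * n₂ = N₂ at *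
    convert dvd_add (h2.mul_left (N₂ * X))
      (dvd_sub (a2.mul_left (B ^ q * N₁)) (a1.mul_left (B ^ q * N₂))) using 1
    ring

end Pool.Agent.P.MP_71e30e_nt.Cyc
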