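import Mathlib

set_option autoImplicit false

/-! Independence of monomials in roots of linear fractions, and the sum of the orders. -/

namespace Pool.Agent.P.MP_71e30e_nt.Cyc

open Finset hiding coe_add coe_mul coe_sub coe_one coe_neg coe_pow
open Polynomial

variable {F : Type} [Field F] [CharZero F]

theorem coe_nat (n : ℕ) : ((n : F[X]) : PowerSeries F) = n :=
  map_natCast coeToPowerSeries.ringHom n

theorem coe_prod' {R ι : Type} [CommRing R] (s : Finset ι) (f : ι → R[X]) :
    ((∏ i ∈ s, f i : R[X]) : PowerSeries R) = ∏ i ∈ s, (f i : PowerSeries R) :=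
  map_prod coeToPowerSeries.ringHom f s

theorem coe_sum' {R ι : Type} [CommRing R] (s : Finset ι) (f : ι → R[X]) :
    ((∑ i ∈ s, f i : R[X]) : PowerSeries R) = ∑ i ∈ s, (f i : PowerSeries R) :=
  map_sum coeToPowerSeries.ringHom f s

theorem mul_deriv_pow (θ : F) (m : ℕ) (h : F[X]) : (X - C θ) * derivative ((X - C θ) ^ m * h) =
    (X - C θ) ^ m * ((m : F[X]) * h + (X - C θ) * derivative h) := by
  rcases m with _ | m
  · simp
  · rw [derivative_mul, derivative_X_sub_C_pow]
    simp only [Nat.add_sub_cancel, map_natCast]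
    ring

theorem ind {A : Type} (Φ : A → PowerSeries F) (hΦ : ∀ a, Φ a ≠ 0) (R : F[X]) (l : A → F[X])
    (hd : ∀ a, (R : PowerSeries F) * PowerSeries.derivative F (Φ a) = (l a : PowerSeries F) * Φ a)
    (hs : ∀ a b, a ≠ b → ∃ θ R1, R = (X - C θ) * R1 ∧
      ∀ m n : ℕ, R1.eval θ * m + (l a).eval θ ≠ R1.eval θ * n + (l b).eval θ)
    (s : Finset A) (g : A → F[X]) (h : ∑ a ∈ s, (g a : PowerSeries F) * Φ a = 0) :
    ∀ a ∈ s, g a = 0 := by
  classical
  induction s using Finset.induction_on generalizing g with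
  | empty => simp
  | insert b s hb ih =>
    have h1 : ∀ a ∈ s, g a = 0 := by
      by_cases hb0 : g b = 0
      · exact ih g (by simpa [sum_insert hb, hb0] using h)
      have h2 : ∑ a ∈ insert b s, ((R * derivative (g a) + l a * g a : F[X]) : PowerSeries F) *
          Φ a = 0 := by
        have := congrArg (fun G => (R : PowerSeries F) * PowerSeries.derivative F G) h
        simp only [map_sum, map_zero, mul_zero, mul_sum] at this
        rw [← this]
        refine sum_congr rfl fun a _ => ?_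
        rw [Derivation.leibniz, PowerSeries.derivative_coe]
        simp only [coe_add, coe_mul, smul_eq_mul]
        linear_combination (-(g a : PowerSeries F)) * hd a
      have h3 := ih (fun a => g b * (R * derivative (g a) + l a * g a) -
          (R * derivative (g b) + l b * g b) * g a) (by
        rw [sum_insert hb] at h h2
        simp only [coe_sub, coe_mul (g b), coe_mul _ (g _), sub_mul, mul_assoc, sum_sub_distrib,
          ← mul_sum]
        rw [eq_neg_of_add_eq_zero_right h, eq_neg_of_add_eq_zero_right h2]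
        ring)
      intro a ha
      by_contra ha0
      obtain ⟨θ, R1, rfl, h4⟩ := hs a b (by rintro rfl; exact hb ha)
      obtain ⟨u, hu, hu0⟩ := exists_eq_pow_rootMultiplicity_mul_and_not_dvd _ ha0 θ
      obtain ⟨v, hv, hv0⟩ := exists_eq_pow_rootMultiplicity_mul_and_not_dvd _ hb0 θ
      generalize rootMultiplicity θ (g a) = m at hu
      generalize rootMultiplicity θ (g b) = n at hv
      have h5 := h3 a ha
      have e1 := mul_deriv_pow θ m u
      have e2 := mul_deriv_pow θ n v
      rw [← hu] at e1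
      rw [← hv] at e2
      have h6 : (X - C θ) ^ m * (X - C θ) ^ n * (v * (R1 * ((m : F[X]) * u + (X - C θ) * derivative u) +
          l a * u) - (R1 * ((n : F[X]) * v + (X - C θ) * derivative v) + l b * v) * u) = 0 := by
        rw [← h5]
        rw [mul_right_comm _ R1, mul_right_comm _ R1, e1, e2, hu, hv]
        ring
      have h7 := congrArg (eval θ) ((mul_eq_zero.1 h6).resolve_left (mul_ne_zero
        (pow_ne_zero _ (X_sub_C_ne_zero θ)) (pow_ne_zero _ (X_sub_C_ne_zero θ))))
      rw [dvd_iff_isRoot] at hu0 hv0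
      simp only [eval_sub, eval_mul, eval_add, eval_X, eval_C, sub_self, zero_mul, add_zero,
        eval_natCast, eval_zero] at h7
      refine h4 m n (mul_left_cancel₀ (mul_ne_zero hu0 hv0) ?_)
      linear_combination h7
    intro a ha
    rcases mem_insert.1 ha with rfl | ha
    · rw [sum_insert hb, sum_eq_zero fun a ha => by simp [h1 a ha], add_zero] at h
      exact_mod_cast (mul_eq_zero.1 h).resolve_right (hΦ _)
    · exact h1 a ha

/-- a family of roots with distinct branch points -/
def Br {k : ℕ} (q : ℕ) (α β : Fin k → F) (U : Fin k → PowerSeries F) : Prop :=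
  (∀ c, U c ^ q * ((1 - C (β c) * X : F[X]) : PowerSeries F) = (1 - C (α c) * X : F[X])) ∧
    (∀ c, α c ≠ 0) ∧ Function.Injective α ∧ ∀ c d, α c ≠ β d

theorem ind_pow {k q : ℕ} (hq : q ≠ 0) {α β : Fin k → F} {U : Fin k → PowerSeries F}
    (hU : Br q α β U) {A : Type} [Fintype A] (n : A → Fin k → ℕ) (hn : Function.Injective n)
    (hn' : ∀ a c, n a c < q) (g : A → F[X])
    (h : ∑ a, (g a : PowerSeries F) * ∏ c, U c ^ n a c = 0) (a : A) : g a = 0 := by
  obtain ⟨h0, h1, h2, h3⟩ := hU
  have hU0 : ∀ c, U c ≠ 0 := fun c hc => by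
    have := congrArg PowerSeries.constantCoeff (h0 c)
    simp [hc, hq] at this
  let N : Fin k → F[X] := fun c => (1 - C (α c) * X) * (1 - C (β c) * X)
  let w : Fin k → F[X] := fun c => C (β c - α c) * ∏ d ∈ univ.erase c, N d
  have hd : ∀ c, ((q * ∏ d, N d : F[X]) : PowerSeries F) * PowerSeries.derivative F (U c) =
      (w c : PowerSeries F) * U c := fun c => by
    have e := congrArg (PowerSeries.derivative F) (h0 c)
    have e0 := h0 c
    obtain ⟨r, rfl⟩ := Nat.exists_eq_succ_of_ne_zero hq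
    rw [Derivation.leibniz, Derivation.leibniz_pow, PowerSeries.derivative_coe,
      PowerSeries.derivative_coe] at e
    rw [← mul_prod_erase univ N (mem_univ c)]
    simp only [w, N, derivative_one, derivative_mul, derivative_C, derivative_X,
      zero_mul, mul_one, zero_add, zero_sub, coe_mul, coe_sub, coe_one, coe_neg, coe_C, coe_X,
      map_sub, smul_eq_mul, nsmul_eq_mul, Nat.succ_sub_one, coe_nat] at e e0 ⊢
    rw [pow_succ] at e e0
    generalize ((∏ d ∈ univ.erase c, ((1 - C (α d) * X) * (1 - C (β d) * X)) : F[X]) :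
      PowerSeries F) = Z
    linear_combination (Z * U c * (1 - PowerSeries.C (β c) * PowerSeries.X)) * e +
      Z * (U c * PowerSeries.C (β c) - (r.succ : PowerSeries F) *
        (1 - PowerSeries.C (β c) * PowerSeries.X) * PowerSeries.derivative F (U c)) * e0
  refine ind (fun a => ∏ c, U c ^ n a c) (fun a => prod_ne_zero_iff.2 fun c _ =>
    pow_ne_zero _ (hU0 c)) (q * ∏ d, N d) (fun a => ∑ c, n a c * w c) (fun a => ?_)
    (fun a b hab => ?_) univ g h a (mem_univ a)
  · generalize (q * ∏ d, N d : F[X]) = R at hd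
    induction (univ : Finset (Fin k)) using Finset.induction_on with
    | empty => simp
    | insert c s hc ih =>
      rw [prod_insert hc, sum_insert hc, Derivation.leibniz, Derivation.leibniz_pow]
      rcases n a c with _ | m
      · simpa using ih
      · simp only [coe_add, coe_mul, smul_eq_mul, nsmul_eq_mul, Nat.add_sub_cancel,
          coe_nat] at ih ⊢
        linear_combination U c ^ (m + 1) * ih +
          (∏ d ∈ s, U d ^ n a d) * ((m + 1 : ℕ) : PowerSeries F) * U c ^ m * hd c
  · obtain ⟨c, hc⟩ := Function.ne_iff.1 (hn.ne hab)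
    have e1 : α c * (α c)⁻¹ = 1 := mul_inv_cancel₀ (h1 c)
    have e2 : ∀ z, α c ≠ z → 1 - z * (α c)⁻¹ ≠ 0 := fun z hz e => hz (by
      linear_combination α c * e + z * e1)
    have e3 : ∀ a, eval (α c)⁻¹ (∑ d, n a d * w d) = n a c * eval (α c)⁻¹ (w c) := fun a => by
      rw [eval_finset_sum, sum_eq_single c]
      · simp
      · intro d _ hd
        have : eval (α c)⁻¹ (∏ d ∈ univ.erase d, N d) = 0 := by
          rw [eval_prod]
          exact prod_eq_zero (mem_erase.2 ⟨hd.symm, mem_univ c⟩) (by simp [N, e1])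
        simp [w, this]
      · simp
    have e4 : eval (α c)⁻¹ (w c) ≠ 0 := by
      simp only [w, eval_mul, eval_C, eval_prod]
      refine mul_ne_zero (sub_ne_zero.2 (h3 c c).symm) (prod_ne_zero_iff.2 fun d hd => ?_)
      simpa [N] using ⟨e2 _ (h2.ne (ne_of_mem_erase hd).symm), e2 _ (h3 c d)⟩
    refine ⟨(α c)⁻¹, (q : F[X]) * (-C (α c) * (1 - C (β c) * X) * ∏ d ∈ univ.erase c, N d), ?_,
      fun m m' e => hc ?_⟩
    · rw [← mul_prod_erase univ N (mem_univ c)]
      have : C (α c) * C (α c)⁻¹ = 1 := by rw [← C_mul, e1, C_1]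
      simp only [N]
      linear_combination (-(q : F[X]) * (1 - C (β c) * X) *
        ∏ d ∈ univ.erase c, (1 - C (α d) * X) * (1 - C (β d) * X)) * this
    · have e5 : eval (α c)⁻¹ ((q : F[X]) * (-C (α c) * (1 - C (β c) * X) * ∏ d ∈ univ.erase c, N d)) =
          q * eval (α c)⁻¹ (w c) := by
        simp only [w, eval_mul, eval_natCast, eval_neg, eval_C, eval_sub, eval_one, eval_X]
        linear_combination (q * β c * eval (α c)⁻¹ (∏ d ∈ univ.erase c, N d)) * e1
      rw [e3, e3, e5] at e
      have e6 : ((q * m + n a c : ℕ) : F) = (q * m' + n b c : ℕ) := by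
        apply mul_left_cancel₀ e4
        push_cast
        linear_combination e
      have e7 := congrArg (· % q) (Nat.cast_injective e6)
      simpa [Nat.mod_eq_of_lt (hn' _ _)] using e7

/-- the exponent of the root of unity -/
def ex {k q : ℕ} (τ : Fin k → Fin q) (a : Fin k → ℕ) : ℕ := ∑ c, τ c * a c

theorem pow_ex_add {k q : ℕ} [NeZero q] {ω : F} (hω : ω ^ q = 1) (τ e : Fin k → Fin q)
    (a : Fin k → ℕ) : ω ^ ex (τ + e) a = ω ^ ex τ a * ω ^ ex e a := by
  simp only [ex, ← prod_pow_eq_pow_sum, ← prod_mul_distrib]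
  refine prod_congr rfl fun c _ => ?_
  rw [pow_mul, pow_mul, pow_mul, ← mul_pow, ← pow_add, Pi.add_apply, Fin.val_add,
    ← pow_eq_pow_mod _ hω]

theorem norm_ord {k q : ℕ} (hq : q ≠ 0) {ω : F} (hω : IsPrimitiveRoot ω q) {α β : Fin k → F}
    {U : Fin k → PowerSeries F} (hU : Br q α β U) {A : Type} [Fintype A] (n : A → Fin k → ℕ)
    (hn : Function.Injective n) (hn' : ∀ a c, n a c < q) {μ : A → F} (hμ : μ ≠ 0)
    (B : Finset (Fin k → Fin q)) (L : ℕ) (hB : ∀ τ ∈ B, PowerSeries.X ^ L ∣
      ∑ a, PowerSeries.C (μ a * ω ^ ex τ (n a)) * ∏ c, U c ^ n a c) :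
    L * B.card ≤ k * q ^ k := by
  classical
  have : NeZero q := ⟨hq⟩
  set G : (Fin k → Fin q) → PowerSeries F := fun τ =>
    ∑ a, PowerSeries.C (μ a * ω ^ ex τ (n a)) * ∏ c, U c ^ n a c with hG
  have h0 : ∀ τ, G τ ≠ 0 := fun τ h => hμ (funext fun a => by
    have := ind_pow hq hU n hn hn' (fun a => C (μ a * ω ^ ex τ (n a))) (by simpa [hG] using h) a
    exact (mul_eq_zero.1 (C_eq_zero.1 this)).resolve_right (pow_ne_zero _ (hω.ne_zero hq)))
  let R : F[X] := ∏ c, (1 - C (β c) * X) ^ q ^ k
  have hl : ∀ z : F, (1 - C z * X).natDegree ≤ 1 := fun z => by compute_degree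
  have h1 : ∀ m : Fin k → ℕ, (∀ c, m c ≤ q * q ^ k) → ∃ P : F[X], P.natDegree ≤ k * q ^ k ∧
      (P : PowerSeries F) = PowerSeries.C (∑ e : Fin k → Fin q, ω ^ ex e m) *
        (∏ c, U c ^ m c) * R := fun m hm => by
    by_cases hd : ∀ c, q ∣ m c
    · choose j hj using hd
      have hj' : ∀ c, j c ≤ q ^ k := fun c =>
        Nat.le_of_mul_le_mul_left (hj c ▸ hm c) (Nat.pos_of_ne_zero hq)
      refine ⟨C (∑ e : Fin k → Fin q, ω ^ ex e m) *
        ∏ c, (1 - C (α c) * X) ^ j c * (1 - C (β c) * X) ^ (q ^ k - j c), ?_, ?_⟩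
      · refine (natDegree_C_mul_le _ _).trans ((natDegree_prod_le _ _).trans
          ((sum_le_card_nsmul _ _ (q ^ k) fun c _ => ?_).trans (by simp)))
        refine natDegree_mul_le.trans ((add_le_add (natDegree_pow_le_of_le _ (hl _))
          (natDegree_pow_le_of_le _ (hl _))).trans ?_)
        have := hj' c
        omega
      · rw [coe_mul, coe_C, mul_assoc]
        congr 1
        rw [coe_prod', coe_prod', ← prod_mul_distrib]
        refine prod_congr rfl fun c _ => ?_
        rw [coe_mul, coe_pow, coe_pow, coe_pow, ← hU.1 c, hj c, pow_mul, mul_pow, mul_assoc, ← pow_add, Nat.add_sub_cancel' (hj' c)]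
    · push Not at hd
      obtain ⟨c, hc⟩ := hd
      refine ⟨0, by simp, ?_⟩
      have : ∑ e : Fin k → Fin q, ω ^ ex e m = 0 := by
        simp only [ex, ← prod_pow_eq_pow_sum]
        rw [← Fintype.piFinset_univ, ← prod_univ_sum (fun _ => univ)
          (fun c (i : Fin q) => ω ^ (i * m c))]
        refine prod_eq_zero (mem_univ c) ?_
        have h3 : ω ^ m c - 1 ≠ 0 := sub_ne_zero.2 fun e => hc (hω.dvd_of_pow_eq_one _ e)
        apply mul_right_cancel₀ h3
        simp only [mul_comm _ (m c), pow_mul]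
        rw [Fin.sum_univ_eq_sum_range (fun i => (ω ^ m c) ^ i) q, geom_sum_mul, ← pow_mul,
          mul_comm, pow_mul, hω.pow_eq_one]
        simp
      simp [this]
  have h2 : ∃ P : F[X], P.natDegree ≤ k * q ^ k ∧
      (P : PowerSeries F) = (q ^ k : ℕ) * (∏ τ, G τ) * R := by
    have e1 : ∀ e : Fin k → Fin q, ∏ τ, G τ = ∑ f : (Fin k → Fin q) → A,
        PowerSeries.C (∏ τ, μ (f τ) * ω ^ ex τ (n (f τ))) *
          (PowerSeries.C (ω ^ ex e fun c => ∑ τ, n (f τ) c) * ∏ c, U c ^ ∑ τ, n (f τ) c) := by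
      intro e
      rw [← Equiv.prod_comp (Equiv.addRight e), hG, prod_univ_sum, Fintype.piFinset_univ]
      refine sum_congr rfl fun f _ => ?_
      have : (ex e fun c => ∑ τ, n (f τ) c) = ∑ τ, ex e (n (f τ)) := by
        simp only [ex, mul_sum]
        exact sum_comm
      simp only [Equiv.coe_addRight, pow_ex_add hω.pow_eq_one, this, ← prod_pow_eq_pow_sum,
        map_prod, map_mul, prod_mul_distrib]
      rw [prod_comm]
      ring
    choose P hP hP' using fun f : (Fin k → Fin q) → A => h1 (fun c => ∑ τ, n (f τ) c) fun c =>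
      (sum_le_card_nsmul _ _ q fun τ _ => (hn' _ _).le).trans (by simp [mul_comm])
    refine ⟨∑ f, C (∏ τ, μ (f τ) * ω ^ ex τ (n (f τ))) * P f, natDegree_sum_le_of_forall_le _ _
      fun f _ => (natDegree_C_mul_le _ _).trans (hP f), ?_⟩
    have e2 : ((q ^ k : ℕ) : PowerSeries F) * ∏ τ, G τ = ∑ e : Fin k → Fin q, ∏ τ, G τ := by simp
    rw [e2, sum_congr rfl fun e _ => e1 e, sum_comm, sum_mul]
    rw [coe_sum']
    refine sum_congr rfl fun f _ => ?_
    rw [coe_mul, hP', coe_C,
      ← mul_sum, ← sum_mul, map_sum, mul_assoc, mul_assoc, mul_assoc]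
  obtain ⟨P, hP, hP'⟩ := h2
  have hR : (R : PowerSeries F) ≠ 0 := fun e => by
    have := congrArg PowerSeries.constantCoeff e
    rw [← PowerSeries.coeff_zero_eq_constantCoeff_apply, coeff_coe, coeff_zero_eq_eval_zero] at this
    simp [R, eval_prod] at this
  have hP0 : P ≠ 0 := by
    rintro rfl
    have : CharZero (PowerSeries F) := algebraRat.charZero _
    exact mul_ne_zero (mul_ne_zero (Nat.cast_ne_zero.2 (pow_ne_zero _ hq))
      (prod_ne_zero_iff.2 fun τ _ => h0 τ)) hR hP'.symm
  have h3 : PowerSeries.X ^ (L * B.card) ∣ (P : PowerSeries F) := by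
    rw [hP', pow_mul, ← prod_const]
    exact (((prod_dvd_prod_of_dvd _ _ hB).trans
      (prod_dvd_prod_of_subset _ _ _ (subset_univ B))).mul_left _).mul_right _
  by_contra! h4
  exact hP0 (leadingCoeff_eq_zero.1 (by
    simpa using PowerSeries.X_pow_dvd_iff.1 h3 P.natDegree (by omega)))

end Pool.Agent.P.MP_71e30e_nt.Cyc
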