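import Pool.Agent.P.MP_71e30e_nt.H3
import Pool.Agent.P.MP_71e30e_nt.CN

set_option autoImplicit false

/-! The upper bound: auxiliary function, product formula and zero estimate. -/

namespace Pool.Agent.P.MP_71e30e_nt.Cyc

open Finset PowerSeries NumberField

variable {K : Type} [Field K] [NumberField K] {p q x y N k : ℕ} {P M : ℤ⟦X⟧} {ζ : 𝓞 K} {ω : ℂ}
  {u : ℕ → K} {I : ℕ → Ideal (𝓞 K)} {τ : (K →ₐ[ℚ] ℂ) → ℕ → Fin q}

theorem pn_le {z : K} (D : Finset (K →ₐ[ℚ] ℂ)) {a A : ℝ} (hA : 1 ≤ A) (h : ∀ φ ∈ D, ‖φ z‖ ≤ a)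
    (h' : ∀ φ : K →ₐ[ℚ] ℂ, ‖φ z‖ ≤ A) : pn z ≤ a ^ D.card * A ^ Module.finrank ℚ K := by
  classical
  rw [pn, ← prod_mul_prod_compl D]
  refine mul_le_mul ((prod_le_prod (fun _ _ => norm_nonneg _) h).trans (by simp))
    ((prod_le_prod (fun _ _ => norm_nonneg _) fun φ _ => h' φ).trans ?_)
    (prod_nonneg fun _ _ => norm_nonneg _) ?_
  · rw [prod_const]
    refine pow_le_pow_right₀ hA ((card_le_univ _).trans ?_)
    rw [AlgHom.card]
  · rcases D.eq_empty_or_nonempty with rfl | ⟨φ, hφ⟩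
    · simp
    · exact pow_nonneg ((norm_nonneg _).trans (h φ hφ)) _

theorem runge_num {Y A : ℝ} {m n r L : ℕ} (hq : 1 ≤ q) (hx : 2 ≤ x) (hY : 0 ≤ Y) (hA : 1 ≤ A)
    (hy : Y ^ q ≤ (2 * x) ^ r) (hr : r ≤ 4 * n) (hn : n ≠ 0) (hL : 8 * m + q ≤ 2 * L * q)
    (h : 1 ≤ Y ^ m * ((A * (2 / x) ^ L) ^ n * A ^ r)) : 2 * x ≤ 16 ^ L * A ^ 10 := by
  have x2 : (2 : ℝ) ≤ x := by exact_mod_cast hx
  obtain ⟨L, rfl⟩ : ∃ l, L = l + 1 := ⟨L - 1, by rcases L with _ | L <;> omega⟩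
  have h1 : (Y ^ q) ^ (2 * m) ≤ (2 * x) ^ ((2 * L + 1) * (q * n)) := by
    refine (pow_le_pow_left₀ (by positivity) hy _).trans ?_
    rw [← pow_mul]
    refine pow_le_pow_right₀ (by linarith) ?_
    have : 8 * m ≤ (2 * L + 1) * q := by nlinarith
    nlinarith
  have h2 := pow_le_pow_right₀ hA hr
  have h3 : 1 ≤ (16 ^ (L + 1) * A ^ 10 / (2 * x)) ^ (q * n) :=
    calc (1 : ℝ) ≤ (Y ^ m * ((A * (2 / x) ^ (L + 1)) ^ n * A ^ (4 * n))) ^ (2 * q) :=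
          one_le_pow₀ (h.trans (by gcongr))
      _ = (Y ^ q) ^ (2 * m) * ((A ^ 5 * (2 / x) ^ (L + 1)) ^ 2) ^ (q * n) := by
          generalize (2 / x : ℝ) = w
          ring
      _ ≤ (2 * x) ^ ((2 * L + 1) * (q * n)) * ((A ^ 5 * (2 / x) ^ (L + 1)) ^ 2) ^ (q * n) := by
          gcongr
      _ = _ := by
          have : (2 * x : ℝ) ^ (2 * L + 1) * (A ^ 5 * (2 / x) ^ (L + 1)) ^ 2 =
              16 ^ (L + 1) * A ^ 10 / (2 * x) := by
            have e : (16 : ℝ) = (2 * x * (2 / x)) ^ 2 := by field_simp; norm_num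
            rw [e, eq_div_iff (by positivity)]
            generalize (2 / x : ℝ) = w
            generalize (2 * x : ℝ) = v
            ring
          rw [pow_mul, ← mul_pow, this]
  rwa [one_le_pow_iff_of_nonneg (by positivity) (Nat.mul_ne_zero (by omega) hn),
    one_le_div (by positivity)] at h3

theorem siegel_Fs (h : Bin q P M) (hq : 1 ≤ q) (hω : ω ^ q = 1) (hk : k ≤ N) {A : Type} [Fintype A]
    {n : A → Fin k → ℕ} {e : ℕ} (hn : ∀ a c, n a c ≤ e) (T : Finset (Fin k → Fin q))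
    (hT : T.Nonempty) (L : ℕ) (hc : 4 * (T.card * (q * ((L + 1) * (2 * N * L + 1)))) ≤
      3 * Fintype.card A) : ∃ l : A → ℤ, l ≠ 0 ∧
      (∀ a, |(l a : ℝ)| ≤ (Fintype.card A * (2 ^ (2 * (k * e)) * (2 * q ^ 2) ^ L)) ^ 3) ∧
      ∀ σ ∈ T, X ^ (L + 1) ∣ Fs P M N Polynomial.X (Polynomial.C ω) n σ l := by
  have hq' : (1 : ℝ) ≤ q := by exact_mod_cast hq
  have e1 : ∀ a j i, (coeff j (Ph P M N (Polynomial.X : Polynomial ℂ) (n a))).coeff i =
      ((coeff j (Ph P M N (Polynomial.X : Polynomial ℤ) (n a))).coeff i : ℤ) := fun a j i => by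
    have := map_Ph (P := P) (M := M) (N := N) (Polynomial.mapRingHom (Int.castRingHom ℂ))
      Polynomial.X (n a)
    rw [Polynomial.coe_mapRingHom, Polynomial.map_X] at this
    rw [← this, coeff_map, Polynomial.coe_mapRingHom, Polynomial.coeff_map, eq_intCast]
  have q1 : (1 : ℝ) ≤ 2 * q ^ 2 := by nlinarith
  obtain ⟨l, l0, l1, l2⟩ := Comp.siegel3
    (α := T × Fin q × Fin (L + 1) × Fin (2 * N * L + 1)) (β := A) (fun r a =>
      if ex r.1.1 (n a) % q = r.2.1 then (coeff r.2.2.1 (Ph P M N Polynomial.X (n a))).coeff r.2.2.2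
      else 0) (B := 2 ^ (2 * (k * e)) * (2 * q ^ 2) ^ L)
    (one_le_mul_of_one_le_of_one_le (one_le_pow₀ one_le_two) (one_le_pow₀ q1)) (fun r a => by
      split_ifs
      swap
      · simp only [Int.cast_zero, abs_zero]
        positivity
      rw [← Complex.norm_intCast, ← e1]
      have h1 := (h.nb_Ph (N := N) hq (hn a)).coeff_le (rho_nonneg q) r.2.2.1
      rw [rho, one_div, inv_pow, ← div_eq_mul_inv, div_le_iff₀ (by positivity)] at h1
      refine (n1_coeff _ _).trans (h1.trans (mul_le_mul (pow_le_pow_left₀ (by positivity) ?_ _)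
        (pow_le_pow_right₀ q1 (Nat.lt_succ_iff.1 r.2.2.1.2)) (by positivity) (by positivity)))
      have := div_le_one_of_le₀ hq' (by positivity)
      linarith) (by simp; exact ⟨hT, hq⟩) (by simpa using hc)
  refine ⟨l, l0, l1, fun σ hσ => X_pow_dvd_iff.2 fun j hj => ?_⟩
  ext i
  by_cases hi : i < 2 * N * L + 1
  swap
  · exact Polynomial.coeff_eq_zero_of_natDegree_lt ((dg_Fs hk _ _ _ _ j).trans_lt
      ((Nat.mul_le_mul_left _ (Nat.lt_succ_iff.1 hj)).trans_lt (by omega)))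
  have h2 := fun r : Fin q => congrArg (fun z : ℤ => ω ^ (r : ℕ) * z)
    (l2 (⟨σ, hσ⟩, r, ⟨j, hj⟩, ⟨i, hi⟩))
  simp only [Int.cast_sum, Int.cast_zero, mul_zero, mul_sum] at h2
  rw [Polynomial.coeff_zero, ← sum_eq_zero fun r (_ : r ∈ univ) => h2 r, sum_comm, Fs, map_sum,
    Polynomial.finset_sum_coeff]
  refine sum_congr rfl fun a _ => ?_
  rw [sum_eq_single ⟨ex σ (n a) % q, Nat.mod_lt _ hq⟩ (fun r _ hr => by
    rw [if_neg fun k => hr (Fin.ext k.symm)]; simp) (by simp), if_pos rfl, coeff_C_mul,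
    ← Polynomial.C_eq_intCast, ← map_pow, ← map_mul, Polynomial.coeff_C_mul, e1,
    ← pow_eq_pow_mod _ hω]
  push_cast
  ring

theorem br_Uc {F : Type} [Field F] [CharZero F] (h : Bin q P M) (hq : q ≠ 0) (hk : k ≤ N) {s : F}
    (h0 : s ≠ 0) (hs : ∀ i ≤ 2 * N, ∀ j ≤ 2 * N, s ^ i = s ^ j → i = j) :
    Br q (fun c : Fin k => q ^ 2 * s ^ (N + (c + 1))) (fun c => q ^ 2 * s ^ (N - (c + 1)))
      fun c => Uc P M N s c := by
  have q0 : (q : F) ^ 2 ≠ 0 := pow_ne_zero _ (Nat.cast_ne_zero.2 hq)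
  have e : ∀ a : F, ((1 - Polynomial.C a * Polynomial.X : Polynomial F) : F⟦X⟧) = 1 - C a * X :=
    fun a => by simp
  refine ⟨fun c => by rw [e, e]; exact h.Uc_pow s c,
    fun c => mul_ne_zero q0 (pow_ne_zero _ h0), fun c d e => ?_, fun c d e => ?_⟩
  · have := hs (N + (c + 1)) (by omega) (N + (d + 1)) (by omega) (mul_left_cancel₀ q0 e)
    omega
  · have := hs (N + (c + 1)) (by omega) (N - (d + 1)) (by omega) (mul_left_cancel₀ q0 e)
    omega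

theorem approx (hq : q.Prime) (hω : IsPrimitiveRoot ω q) (hx : 2 ≤ x) (hk : k ≤ N) {A : Type}
    [Fintype A] {n : A → Fin k → ℕ} {l : A → ℤ} {σ : Fin k → Fin q} {A0 : ℝ} {L T g : ℕ} {s : ℂ}
    (s1 : ‖s‖ = 1) (a1 : A0 * (2 * q ^ 2) ^ L ≤ 2 ^ T) (a2 : ∀ v : ℂ, ‖v‖ = 1 →
      Nb n1 (rho q) A0 (Fs P M N Polynomial.X (Polynomial.C v) n σ l))
    (hL : ¬ X ^ (L + 1) ∣ Fs P M N Polynomial.X (Polynomial.C ω) n σ l)
    (h0 : ev (tp q N x s) (Fs P M N s ω n σ l) = 0) (t1 : 2 * N * L ≤ T)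
    (h2 : (2 : ℝ) ^ (T + T * q + g * T + 2) < 2 * x) :
    ∃ α, Ap ω (2 ^ T) T α ∧ ‖s - α‖ ≤ 1 / 2 ^ g := by
  classical
  have q1 := hq.one_le
  have hq' : (1 : ℝ) ≤ q := by exact_mod_cast q1
  have ω1 : ‖ω‖ = 1 := Complex.norm_eq_one_of_pow_eq_one hω.pow_eq_one hq.ne_zero
  have ex : ∃ j, coeff j (Fs P M N Polynomial.X (Polynomial.C ω) n σ l) ≠ 0 := by
    by_contra! k
    exact hL (X_pow_dvd_iff.2 fun j _ => k j)
  have j0 := Nat.find_spec ex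
  have j1 : X ^ Nat.find ex ∣ Fs P M N Polynomial.X (Polynomial.C ω) n σ l :=
    X_pow_dvd_iff.2 fun j hj => not_not.1 (Nat.find_min ex hj)
  generalize Nat.find ex = j at j0 j1
  have j2 : j ≤ L := by
    by_contra! k
    exact hL ((pow_dvd_pow _ k).trans j1)
  obtain ⟨f, e⟩ : ∃ f : Polynomial (Polynomial ℤ), ∀ v : ℂ, f.map (ew v) =
      coeff j (Fs P M N Polynomial.X (Polynomial.C v) n σ l) :=
    ⟨coeff j (Fs P M N Polynomial.X (Polynomial.C Polynomial.X) n σ l), fun v => by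
      rw [← Polynomial.coe_mapRingHom, ← coeff_map, map_Fs]
      simp [ew_X]⟩
  have r : ∀ {a b : ℝ}, 0 ≤ b → a * rho q ^ j ≤ A0 * b → a ≤ 2 ^ T * b := fun {a b} hb k => by
    rw [rho, one_div, inv_pow, ← div_eq_mul_inv, div_le_iff₀ (by positivity), mul_right_comm] at k
    refine k.trans (mul_le_mul_of_nonneg_right (le_trans (mul_le_mul_of_nonneg_left
      (pow_le_pow_right₀ (by nlinarith) j2) (a2 ω ω1).nonneg) a1) hb)
  refine near_root hq hω (one_le_pow₀ one_le_two) (f := f) (by rwa [e]) (by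
    rw [e]; exact (dg_Fs hk _ _ _ _ j).trans ((Nat.mul_le_mul_left _ j2).trans t1))
    (fun v hv => ?_) (by positivity)
    (div_le_one_of_le₀ (one_le_pow₀ one_le_two) (by positivity)) ?_
  · simpa [e] using r zero_le_one (by simpa using (a2 v hv).coeff_le (rho_nonneg q) j)
  · have s0 : s ≠ 0 := norm_pos_iff.1 (by rw [s1]; exact one_pos)
    have m : map (Polynomial.evalRingHom s) (Fs P M N Polynomial.X (Polynomial.C ω) n σ l) =
        Fs P M N s ω n σ l := by simp [map_Fs]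
    have h1 := ev_lead (m ▸ (a2 ω ω1).eval (rho_nonneg q) s1) (rho_pos q1) (norm_tp_le s1 q1 hx)
      (inv_ne_zero (mul_ne_zero (mul_ne_zero
      (pow_ne_zero _ (Nat.cast_ne_zero.2 hq.ne_zero)) (pow_ne_zero _ s0))
      (Nat.cast_ne_zero.2 (by omega)))) (L := j) (by
        simpa only [map_pow, map_X, m] using map_dvd (map (Polynomial.evalRingHom s)) j1) h0
    rw [norm_tp s1 q1, ← m, coeff_map, Polynomial.coe_evalRingHom, ← e] at h1
    refine (mul_le_mul_of_nonneg_right (r (by positivity) h1) (by positivity)).trans_lt ?_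
    rw [div_pow, one_pow, ← pow_mul, ← pow_mul, lt_div_iff₀ (by positivity)]
    rw [pow_add, pow_add, pow_add] at h2
    have x0 : (0 : ℝ) < x := by positivity
    field_simp
    linarith

variable [IsCyclotomicExtension {p} ℚ K]

theorem runge_raw (hp : p.Prime) (q1 : 1 ≤ q) (hζ : IsPrimitiveRoot ζ p) (hx : 2 ≤ x) (hy : y ≠ 0)
    (h : Bin q P M) (H : Pat p q x y N P M ζ ω u I τ) (hk : k ≤ N) {A : Type} [Fintype A]
    {n : A → Fin k → ℕ} {e : ℕ} (hn : ∀ a c, n a c ≤ e) {l : A → ℤ} {A0 : ℝ} (a1 : 1 ≤ A0)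
    (a2 : ∀ σ : Fin k → Fin q, Nb n1 (rho q) A0 (Fs P M N Polynomial.X (Polynomial.C ω) n σ l))
    {L : ℕ} (D : Finset (K →ₐ[ℚ] ℂ))
    (hD' : ∀ φ ∈ D, X ^ L ∣ Fs P M N Polynomial.X (Polynomial.C ω) n (fun c => τ φ c) l)
    (hz : ∑ a, l a * ∏ c : Fin k, u c ^ n a c ≠ 0) :
    1 ≤ (y : ℝ) ^ (k * e) * ((A0 * (2 / x) ^ L) ^ D.card * A0 ^ (p - 1)) := by
  have s1 := norm_place hp.ne_zero hζ.pow_eq_one
  have m : ∀ φ : K →ₐ[ℚ] ℂ, map (Polynomial.evalRingHom (φ (am K ζ)))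
      (Fs P M N Polynomial.X (Polynomial.C ω) n (fun c => τ φ c) l) =
      Fs P M N (φ (am K ζ)) ω n (fun c => τ φ c) l := fun φ => by simp [map_Fs]
  have nb : ∀ φ : K →ₐ[ℚ] ℂ, Nb nc (rho q) A0 (Fs P M N (φ (am K ζ)) ω n (fun c => τ φ c) l) :=
    fun φ => m φ ▸ (a2 _).eval (rho_nonneg q) (s1 φ)
  have ht := fun φ => norm_tp_le (N := N) (s1 φ) q1 hx
  have va := H.val_Fs hp.ne_zero hζ.pow_eq_one q1 hx h hk hn l
  have h1 := H.pf hk hy (Cl.sum _ fun a _ => (H.cl hk (hn a)).int_mul (isIntegral_intCast _)) hz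
  have h2 := pn_le (z := ∑ a, l a * ∏ c : Fin k, u c ^ n a c) D (a := A0 * (2 / x) ^ L) a1
    (fun φ hφ => by
      rw [va, ← norm_tp (N := N) (s1 φ) q1]
      exact ev_ord (nb φ) (rho_pos q1) (ht φ) (by
        simpa only [map_pow, map_X, m] using
          map_dvd (map (Polynomial.evalRingHom (φ (am K ζ)))) (hD' φ hφ))) fun φ => by
      rw [va]
      simpa using ev_ord (nb φ) (rho_pos q1) (ht φ) (L := 0) (by simp)
  rw [rank_eq hp] at h2
  exact h1.trans (mul_le_mul_of_nonneg_left h2 (by positivity))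

theorem eg_places (hp : p.Prime) (hq : q.Prime) (hpq : p ≠ q) (hζ : IsPrimitiveRoot ζ p)
    (hω : IsPrimitiveRoot ω q) {T g : ℕ} (B : Finset (K →ₐ[ℚ] ℂ)) (hB : 4 * B.card < p - 1)
    (ap : ∀ φ ∉ B, ∃ α, Ap ω (2 ^ T) T α ∧ ‖φ (am K ζ) - α‖ ≤ 1 / 2 ^ g) (t3 : p ≤ 2 ^ T)
    (hg : g = 5 * T + 4 + (4 * T + 1) * (q * T ^ 4)) (t7 : 7 ≤ p) : p - 1 ≤ T ^ 2 := by
  classical
  have : NeZero p := ⟨hp.ne_zero⟩
  obtain ⟨s, hs⟩ : ∃ s : ℂ, IsPrimitiveRoot s p := ⟨_, Complex.isPrimitiveRoot_exp p hp.ne_zero⟩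
  have hζK : IsPrimitiveRoot (am K ζ) p := hζ.map_of_injective am_inj
  choose d hd hd' using fun φ : K →ₐ[ℚ] ℂ => hs.eq_pow_of_pow_eq_one (ξ := φ (am K ζ))
    (by rw [← map_pow, hζK.pow_eq_one, map_one])
  have inj : Function.Injective fun φ => (d φ : ZMod p) := fun φ ψ e => by
    apply (hζK.embeddingsEquivPrimitiveRoots ℂ
      (Polynomial.cyclotomic.irreducible_rat hp.pos)).injective
    ext
    simp only [IsPrimitiveRoot.embeddingsEquivPrimitiveRoots_apply_coe]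
    have := congrArg ZMod.val e
    simp only [ZMod.val_cast_of_lt (hd _)] at this
    rw [← hd', ← hd', this]
  refine eg hp hq hpq hω hs (Bᶜ.image fun φ => (d φ : ZMod p)) ?_ (ρ := 1 / 2 ^ g)
    (one_le_pow₀ (n := T) one_le_two) (fun r hr => ?_) ?_ ?_
  · rw [card_image_of_injective _ inj, card_compl, AlgHom.card, rank_eq hp]
    omega
  · obtain ⟨φ, hφ, rfl⟩ := mem_image.1 hr
    rw [ZMod.val_cast_of_lt (hd _), hd']
    exact ap φ (mem_compl.1 hφ)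
  · have h1 : (p : ℝ) ≤ 2 ^ T := by exact_mod_cast t3
    have h2 : (2 : ℝ) ^ (T + 1) < 2 ^ g := pow_lt_pow_right₀ one_lt_two (by omega)
    rw [mul_one_div, div_lt_one (by positivity)]
    rw [pow_succ] at h2
    linarith
  · have h2 : (2 : ℝ) ^ (3 + T * 4 + (T * 4 + 1) * (q * T ^ 4)) ≤ 2 ^ g :=
      pow_le_pow_right₀ one_le_two (by rw [hg, mul_comm T 4]; omega)
    rw [← pow_mul, ← pow_succ', ← pow_mul, mul_one_div, div_mul_eq_mul_div, div_mul_eq_mul_div,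
      div_lt_one (by positivity)]
    refine lt_of_lt_of_le ?_ h2
    rw [pow_add 2 (3 + T * 4), pow_add 2 3]
    gcongr
    norm_num

theorem ub_core (hp : p.Prime) (hq : q.Prime) (hpq : p ≠ q) (hζ : IsPrimitiveRoot ζ p)
    (hω : IsPrimitiveRoot ω q) (hx : 2 ≤ x) (hy : y ≠ 0) (hy' : y ^ q ≤ (2 * x) ^ (p - 1))
    (h : Bin q P M) (H : Pat p q x y N P M ζ ω u I τ) (hk : k ≤ N) {A : Type} [Fintype A]
    {n : A → Fin k → ℕ} {e : ℕ} (hn : ∀ a c, n a c ≤ e) {l : A → ℤ} {Λ : ℝ}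
    (hl : ∀ a, |(l a : ℝ)| ≤ Λ) {L L' T : ℕ} (D B : Finset (K →ₐ[ℚ] ℂ)) (hD : p - 1 ≤ 4 * D.card)
    (hD' : ∀ φ ∈ D, X ^ L ∣ Fs P M N Polynomial.X (Polynomial.C ω) n (fun c => τ φ c) l)
    (hB : 4 * B.card < p - 1)
    (hB' : ∀ φ ∉ B, ¬ X ^ (L' + 1) ∣ Fs P M N Polynomial.X (Polynomial.C ω) n (fun c => τ φ c) l)
    (hL : 8 * (k * e) + q ≤ 2 * L * q) (t1 : 2 * N * L' ≤ T) (t2 : L ≤ T) (t3 : p ≤ 2 ^ T)
    (t4 : Fintype.card A * Λ * 2 ^ (2 * (k * e)) * (2 * q ^ 2) ^ L' ≤ 2 ^ T) (t5 : T ^ 2 < p - 1)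
    (t6 : 2 ^ (40 * q * T ^ 6) ≤ 2 * x) (t7 : 7 ≤ p) : False := by
  have q1 := hq.one_le
  have hq' : (1 : ℝ) ≤ q := by exact_mod_cast q1
  have q2 : (1 : ℝ) ≤ (2 * q ^ 2) ^ L' := one_le_pow₀ (by nlinarith)
  have T1 : 1 ≤ T := by
    rcases T with _ | T
    · simp at t3
      omega
    · omega
  have ω1 : ‖ω‖ = 1 := Complex.norm_eq_one_of_pow_eq_one hω.pow_eq_one hq.ne_zero
  obtain ⟨A0, a1, a2⟩ : ∃ A0 : ℝ, A0 * (2 * q ^ 2) ^ L' ≤ 2 ^ T ∧ ∀ v : ℂ, ‖v‖ = 1 →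
      ∀ σ : Fin k → Fin q, Nb n1 (rho q) A0 (Fs P M N Polynomial.X (Polynomial.C v) n σ l) := by
    have b := fun v (hv : ‖v‖ = 1) (σ : Fin k → Fin q) => h.nb_Fs (N := N) q1 hv hn σ hl
    have b1 := (b ω ω1 fun _ => ⟨0, q1⟩).nonneg
    refine ⟨_, le_trans (mul_le_mul_of_nonneg_right (mul_le_mul_of_nonneg_left
      (pow_le_pow_left₀ (by positivity) ?_ _) (nonneg_of_mul_nonneg_left b1 (by positivity)))
      (by positivity)) t4, b⟩
    have := div_le_one_of_le₀ hq' (by positivity)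
    linarith
  have a3 : A0 ≤ 2 ^ T := le_trans (le_mul_of_one_le_right (a2 ω ω1 fun _ => ⟨0, q1⟩).nonneg q2) a1
  have t6' : ∀ m < 40 * q * T ^ 6, (2 : ℝ) ^ m < 2 * x := fun m hm =>
    (pow_lt_pow_right₀ one_lt_two hm).trans_le (by exact_mod_cast t6)
  have b0 : T ≤ T ^ 6 := Nat.le_self_pow (by norm_num) T
  have b1 : T ^ 2 ≤ T ^ 6 := Nat.pow_le_pow_right T1 (by norm_num)
  have b2 : T ^ 5 ≤ T ^ 6 := Nat.pow_le_pow_right T1 (by norm_num)
  have b3 := Nat.mul_le_mul_left q b2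
  have b4 := Nat.mul_le_mul_left q b0
  have b5 := Nat.le_mul_of_pos_left (T ^ 6) q1
  have z0 : ∑ a, l a * ∏ c : Fin k, u c ^ n a c = 0 := by
    by_contra hz
    refine (runge_num q1 hx (by positivity) (one_le_pow₀ (n := T) one_le_two)
      (by exact_mod_cast hy') hD (by omega) hL (runge_raw hp q1 hζ hx hy h H hk hn
      (one_le_pow₀ one_le_two) (fun σ => (a2 ω ω1 σ).mono a3) D hD' hz)).not_gt ?_
    rw [show (16 : ℝ) = 2 ^ 4 by norm_num, ← pow_mul, ← pow_mul, ← pow_add]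
    exact t6' _ (by rw [mul_assoc]; omega)
  refine t5.not_ge (eg_places hp hq hpq hζ hω B hB (fun φ hφ => approx hq hω hx hk
    (norm_place hp.ne_zero hζ.pow_eq_one φ) a1 (fun v hv => a2 v hv _) (hB' φ hφ) ?_ t1
    (t6' _ ?_)) t3 rfl t7)
  · rw [← H.val_Fs hp.ne_zero hζ.pow_eq_one q1 hx h hk hn l, z0, map_zero]
  · have : (5 * T + 4 + (4 * T + 1) * (q * T ^ 4)) * T =
        5 * T ^ 2 + 4 * T + 4 * (q * T ^ 6) + q * T ^ 5 := by ring
    rw [this, mul_comm T q, mul_assoc 40]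
    omega

end Pool.Agent.P.MP_71e30e_nt.Cyc
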