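import Pool.Agent.P.MP_71e30e_nt.H6

set_option autoImplicit false

/-! The upper bound for small and for medium exponents. -/

namespace Pool.Agent.P.MP_71e30e_nt.Cyc

open Finset PowerSeries NumberField

variable {K : Type} [Field K] [NumberField K] {p q x y N k : ℕ} {P M : ℤ⟦X⟧} {ζ : 𝓞 K} {ω : ℂ}
  {u : ℕ → K} {I : ℕ → Ideal (𝓞 K)} {τ : (K →ₐ[ℚ] ℂ) → ℕ → Fin q}

theorem X_dvd_Fs (h : Bin q P M) {A : Type} [Fintype A] (n : A → Fin k → ℕ) (σ : Fin k → Fin q)
    (l : A → ℤ) : X ^ 1 ∣ Fs P M N Polynomial.X (Polynomial.C ω) n σ l ↔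
      ∑ a, l a * ω ^ ex σ (n a) = 0 := by
  rw [pow_one, X_dvd_iff, ← Polynomial.C_eq_zero (a := ∑ _, _)]
  simp [Fs, h.Ph_zero]

theorem X_sq_dvd_Fs (h : Bin q P M) (hq : q ≠ 0) {A : Type} [Fintype A] (n : A → Fin k → ℕ)
    (σ : Fin k → Fin q) (l : A → ℤ) (c : Fin k)
    (hd : X ^ 2 ∣ Fs P M N Polynomial.X (Polynomial.C ω) n σ l) :
    ∑ a, ((l a * n a c : ℤ) : ℂ) * ω ^ ex σ (n a) = 0 := by
  have h1 := congrArg (Polynomial.coeff · (N + (c + 1))) (X_pow_dvd_iff.1 hd 1 one_lt_two)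
  simp only [Fs, map_sum, coeff_C_mul, h.Ph_one, Polynomial.finset_sum_coeff,
    Polynomial.coeff_zero] at h1
  apply mul_left_cancel₀ (neg_ne_zero.2 (Nat.cast_ne_zero.2 hq : (q : ℂ) ≠ 0))
  rw [mul_zero, ← h1, mul_sum]
  refine sum_congr rfl fun a _ => ?_
  rw [← Polynomial.C_eq_intCast, ← map_pow, ← map_mul, Polynomial.coeff_C_mul,
    Polynomial.finset_sum_coeff, sum_eq_single c]
  · simp only [Polynomial.coeff_natCast_mul, Polynomial.coeff_sub, Polynomial.coeff_X_pow]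
    rw [if_neg (by omega)]
    push_cast
    ring
  · intro d _ hd
    simp only [Polynomial.coeff_natCast_mul, Polynomial.coeff_sub, Polynomial.coeff_X_pow]
    rw [if_neg (by omega), if_neg fun e => hd (Fin.ext (by omega))]
    simp
  · simp

variable [IsCyclotomicExtension {p} ℚ K]

theorem ub_multi (hp : p.Prime) (hq : q.Prime) (hpq : p ≠ q) (hζ : IsPrimitiveRoot ζ p)
    (hω : IsPrimitiveRoot ω q) (hx : 2 ≤ x) (hy : y ≠ 0) (hy' : y ^ q ≤ (2 * x) ^ (p - 1))
    (h : Bin q P M) (H : Pat p q x y k P M ζ ω u I τ) (k1 : 2 * p * q ≤ 2 ^ k) (k2 : 8 * k ≤ q)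
    (t5 : (16 * k) ^ 2 < p - 1) (t6 : 2 ^ (40 * q * (16 * k) ^ 6) ≤ 2 * x) (t7 : 7 ≤ p) :
    False := by
  classical
  have q1 := hq.one_le
  let n : (Fin k → Fin 2) → Fin k → ℕ := fun a c => a c
  have hn : ∀ a c, n a c ≤ 1 := fun a c => Nat.lt_succ_iff.1 (a c).2
  have cA : Fintype.card (Fin k → Fin 2) = 2 ^ k := by simp
  have cP : Fintype.card (K →ₐ[ℚ] ℂ) = p - 1 := by rw [AlgHom.card, rank_eq hp]
  let Z : ((Fin k → Fin 2) → ℤ) → Finset (K →ₐ[ℚ] ℂ) := fun l =>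
    {φ | ∑ a, l a * ω ^ ex (fun c => τ φ c) (n a) = 0}
  have key : ∀ m, ∀ l : (Fin k → Fin 2) → ℤ, (univ.filter fun a => l a ≠ 0).card = m → l ≠ 0 →
      (∀ a, |(l a : ℝ)| ≤ 2 ^ (9 * k)) → 4 * (Z l).card < p - 1 := fun m => by
    induction m using Nat.strong_induction_on with
    | _ m ih =>
      intro l hm l0 l1
      by_contra! hD
      obtain ⟨a, ha⟩ := Function.ne_iff.1 l0
      obtain ⟨b, hb, hab⟩ : ∃ b, l b ≠ 0 ∧ b ≠ a := by
        by_contra! hc
        obtain ⟨φ, hφ⟩ : (Z l).Nonempty := card_pos.1 (by omega)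
        have := (mem_filter.1 hφ).2
        rw [sum_eq_single a (fun b _ hb => by rw [not_not.1 (mt (hc b) hb)]; simp) (by simp)] at this
        exact mul_ne_zero (Int.cast_ne_zero.2 ha) (pow_ne_zero _ (hω.ne_zero hq.ne_zero)) this
      obtain ⟨c, a, b, ha, hb, c0, c1⟩ : ∃ c a b, l a ≠ 0 ∧ l b ≠ 0 ∧ n a c = 0 ∧ n b c = 1 := by
        obtain ⟨c, hc⟩ := Function.ne_iff.1 hab
        have e1 := hn a c
        have e2 := hn b c
        have e3 : n b c ≠ n a c := fun e => hc (Fin.ext e)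
        by_cases e : n a c = 0
        · exact ⟨c, a, b, ha, hb, e, by omega⟩
        · exact ⟨c, b, a, hb, ha, by omega, by omega⟩
      have hB := ih _ (hm ▸ card_lt_card (s := univ.filter fun a => l a * n a c ≠ 0)
        ⟨fun d hd => by simpa using left_ne_zero_of_mul (mem_filter.1 hd).2,
          fun k => by simpa [c0] using k (mem_filter.2 ⟨mem_univ a, ha⟩)⟩)
        (fun a => l a * n a c) rfl (fun e => hb (by simpa [c1] using congrFun e b)) fun a => by
          rw [Int.cast_mul, abs_mul, Int.cast_natCast, Nat.abs_cast]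
          exact (mul_le_of_le_one_right (abs_nonneg _) (by exact_mod_cast hn a c)).trans (l1 a)
      have k0 : 1 ≤ k := c.pos
      refine ub_core hp hq hpq hζ hω hx hy hy' h H le_rfl hn l1 (L := 1) (L' := 1) (Z l) _ hD
        (fun φ hφ => (X_dvd_Fs h _ _ _).2 (mem_filter.1 hφ).2) hB (fun φ hφ d => hφ
          (mem_filter.2 ⟨mem_univ _, X_sq_dvd_Fs h hq.ne_zero _ _ _ c d⟩)) (by omega) (by omega)
        (by omega) ?_ ?_ t5 t6 t7
      · exact le_trans (by nlinarith) (k1.trans (Nat.pow_le_pow_right two_pos (by omega)))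
      · have e : 2 * q ^ 2 ≤ 2 ^ (2 * k) := by
          rw [pow_mul']
          exact le_trans (by nlinarith) (Nat.pow_le_pow_left (le_trans (by nlinarith) k1 :
            2 * q ≤ _) 2)
        have e' : 2 * (q : ℝ) ^ 2 ≤ 2 ^ (2 * k) := by exact_mod_cast e
        rw [cA, pow_one]
        push_cast
        refine (mul_le_mul_of_nonneg_left e' (by positivity)).trans ?_
        rw [← pow_add, ← pow_add, ← pow_add]
        exact pow_le_pow_right₀ one_le_two (by omega)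
  have : Nonempty (K →ₐ[ℚ] ℂ) := Fintype.card_pos_iff.1 (by omega)
  obtain ⟨l, l0, l1, l2⟩ := siegel_Fs h q1 hω.pow_eq_one (le_refl k) hn
    (univ.image fun φ c => τ φ c) (univ_nonempty.image _) 0 (by
      have := card_image_le (s := univ) (f := fun φ (c : Fin k) => τ φ c)
      rw [card_univ, cP] at this
      have := Nat.mul_le_mul_right q (this.trans (Nat.sub_le _ _))
      rw [cA]
      nlinarith)
  have := key _ l rfl l0 fun a => (l1 a).trans (le_of_eq (by rw [cA]; push_cast; ring))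
  rw [show Z l = univ from eq_univ_of_forall fun φ => mem_filter.2 ⟨mem_univ _,
    (X_dvd_Fs h _ _ _).1 (l2 _ (mem_image_of_mem _ (mem_univ φ)))⟩, card_univ, cP] at this
  omega

theorem ub_small (hp : p.Prime) (hq : q.Prime) (hpq : p ≠ q) (hζ : IsPrimitiveRoot ζ p)
    (hω : IsPrimitiveRoot ω q) (hx : 2 ≤ x) (hy : y ≠ 0) (hy' : y ^ q ≤ (2 * x) ^ (p - 1))
    (h : Bin q P M) (H : Pat p q x y N P M ζ ω u I τ) (k0 : 400 ≤ N) (k1 : N ^ 5 * p ≤ 2 ^ N)
    (k2 : q ≤ N) (t5 : (N ^ 8) ^ 2 < p - 1) (t6 : 2 ^ (40 * q * (N ^ 8) ^ 6) ≤ 2 * x)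
    (t7 : 7 ≤ p) : False := by
  classical
  have q1 := hq.one_le
  have cP : Fintype.card (K →ₐ[ℚ] ℂ) = p - 1 := by rw [AlgHom.card, rank_eq hp]
  obtain ⟨W, hW⟩ : ∃ W, W = 2 * (q * ((4 * N + 1) * (2 * N * (4 * N) + 1))) := ⟨_, rfl⟩
  have N1 : 1 ≤ N := by omega
  have w1 : W ≤ 100 * N ^ 4 := by
    have e1 : 4 * N + 1 ≤ 5 * N := by omega
    have e2 : 2 * N * (4 * N) + 1 ≤ 10 * N ^ 2 := by nlinarith
    rw [hW]
    exact (Nat.mul_le_mul_left _ (Nat.mul_le_mul k2 (Nat.mul_le_mul e1 e2))).trans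
      (le_of_eq (by ring))
  have w2 : 2 ≤ W := by
    rw [hW]
    exact Nat.le_mul_of_pos_right _ (by positivity)
  have pw : ∀ i c, c ≤ 400 → c * N ^ i ≤ N ^ (i + 1) := fun i c hc => by
    rw [pow_succ']
    exact Nat.mul_le_mul_right _ (hc.trans k0)
  let pt : (k : ℕ) → (K →ₐ[ℚ] ℂ) → Fin k → Fin q := fun k φ c => τ φ c
  let G : ℕ → Prop := fun k => ∃ D : Finset (K →ₐ[ℚ] ℂ), p - 1 ≤ 4 * D.card ∧
    W * (D.image (pt k)).card ≤ q ^ k
  have gN : G N := ⟨univ, by rw [card_univ, cP]; omega, by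
    have := card_image_le (s := univ) (f := pt N)
    rw [card_univ, cP] at this
    exact (Nat.mul_le_mul (w1.trans (pw 4 100 (by norm_num))) (this.trans (Nat.sub_le _ _))).trans
      (k1.trans (Nat.pow_le_pow_left hq.two_le _))⟩
  have ex : ∃ k, G k := ⟨N, gN⟩
  obtain ⟨D, hD, hD'⟩ := Nat.find_spec ex
  have hk : Nat.find ex ≤ N := Nat.find_min' ex gN
  have hmin := fun m => Nat.find_min ex (m := m)
  generalize Nat.find ex = k at hD' hk hmin
  have D0 : (D.image (pt k)).Nonempty := (card_pos.1 (by omega)).image _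
  obtain ⟨k, rfl⟩ : ∃ j, k = j + 1 := by
    rcases k with _ | k
    · have := Nat.mul_le_mul w2 D0.card_pos
      rw [pow_zero] at hD'
      omega
    · exact ⟨k, rfl⟩
  let n : (Fin (k + 1) → Fin q) → Fin (k + 1) → ℕ := fun a c => a c
  have hn : ∀ a c, n a c ≤ q - 1 := fun a c => Nat.le_sub_one_of_lt (a c).2
  have cA : Fintype.card (Fin (k + 1) → Fin q) = q ^ (k + 1) := by simp
  obtain ⟨l, l0, l1, l2⟩ := siegel_Fs h q1 hω.pow_eq_one hk hn _ D0 (4 * N) (by
    rw [cA]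
    rw [hW] at hD'
    nlinarith)
  let B : Finset (K →ₐ[ℚ] ℂ) := {φ | X ^ (N * q * W + 1) ∣
    Fs P M N Polynomial.X (Polynomial.C ω) n (pt (k + 1) φ) l}
  have L1 : N * q * W ≤ 100 * N ^ 6 :=
    (Nat.mul_le_mul (Nat.mul_le_mul_left _ k2) w1).trans (le_of_eq (by ring))
  have n2 : ∀ i j, i ≤ j → N ^ i ≤ N ^ j := fun i j e => Nat.pow_le_pow_right N1 e
  refine ub_core hp hq hpq hζ hω hx hy hy' h H hk hn l1 (L := 4 * N + 1) (L' := N * q * W) D B hD
    (fun φ hφ => l2 _ (mem_image_of_mem _ hφ)) ?_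
    (fun φ hφ d => hφ (mem_filter.2 ⟨mem_univ _, d⟩)) ?_ ?_ ?_ ?_ ?_ t5 t6 t7
  · by_contra! hB
    have b1 : q ^ k < W * (B.image (pt k)).card := not_le.1 fun e => hmin k k.lt_succ_self ⟨B, hB, e⟩
    have b2 : (B.image (pt k)).card ≤ (B.image (pt (k + 1))).card := by
      refine le_trans (le_of_eq ?_) (card_image_le (f := fun σ c => σ (Fin.castSucc c)))
      rw [image_image]
      rfl
    have b3 := norm_ord hq.ne_zero hω (br_Uc (s := (2 : ℂ)) h hq.ne_zero hk two_ne_zero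
      fun i _ j _ e => Nat.pow_right_injective le_rfl (by exact_mod_cast e)) n
      (fun a b e => funext fun c => Fin.ext (congrFun e c)) (fun a c => (a c).2)
      (μ := fun a => l a) (fun e => l0 (funext fun a => by simpa using congrFun e a))
      (B.image (pt (k + 1))) (N * q * W + 1) fun σ hσ => by
        obtain ⟨φ, hφ, rfl⟩ := mem_image.1 hσ
        have := map_dvd (map (Polynomial.evalRingHom 2)) (mem_filter.1 hφ).2
        rw [map_pow, map_X, map_Fs] at this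
        simpa [Fs, Ph] using this
    have b4 := Nat.mul_le_mul_left (N * q) (b1.le.trans (Nat.mul_le_mul_left _ b2))
    have b5 := Nat.mul_le_mul_right (q ^ (k + 1)) hk
    have b6 : 0 < (B.image (pt (k + 1))).card := by
      refine lt_of_lt_of_le (Nat.pos_of_mul_pos_left (lt_of_le_of_lt (Nat.zero_le _) b1)) b2
    rw [pow_succ] at b3 b5
    nlinarith
  · have := Nat.mul_le_mul hk (Nat.sub_le q 1)
    nlinarith
  · have := Nat.mul_le_mul_left (2 * N) L1
    have : 200 * N ^ 7 ≤ N ^ 8 := pw 7 200 (by norm_num)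
    nlinarith
  · have : 5 * N ^ 1 ≤ N ^ 2 := pw 1 5 (by norm_num)
    have := n2 2 8 (by norm_num)
    rw [pow_one] at *
    omega
  · exact (Nat.le_mul_of_pos_left _ (by positivity)).trans (k1.trans (Nat.pow_le_pow_right two_pos
      (Nat.le_self_pow (by norm_num) N)))
  · have e0 : q ≤ 2 ^ N := k2.trans Nat.lt_two_pow_self.le
    have e1 : ((q ^ (k + 1) : ℕ) : ℝ) ≤ 2 ^ N ^ 2 := by
      rw [sq, pow_mul]
      exact_mod_cast (Nat.pow_le_pow_left e0 _).trans (Nat.pow_le_pow_right (by positivity) hk)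
    have e2 : 2 * (q : ℝ) ^ 2 ≤ 2 ^ (3 * N) := by
      have : 2 * q ^ 2 ≤ 2 ^ (3 * N) := by
        rw [show 3 * N = N + N * 2 by ring, pow_add, pow_mul]
        exact Nat.mul_le_mul (Nat.le_self_pow (by omega) 2) (Nat.pow_le_pow_left e0 2)
      exact_mod_cast this
    have e3 : (k + 1) * (q - 1) ≤ N ^ 2 := by
      rw [sq]
      exact Nat.mul_le_mul hk (by omega)
    rw [cA]
    generalize (k + 1) * (q - 1) = m at e3
    generalize N * q * W = L at L1
    refine le_trans (b := 2 ^ N ^ 2 * (2 ^ N ^ 2 * (2 ^ (2 * m) * (2 ^ (3 * N)) ^ (4 * N))) ^ 3 *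
      2 ^ (2 * m) * (2 ^ (3 * N)) ^ L) (by gcongr) ?_
    simp only [← pow_mul, ← pow_add]
    refine pow_le_pow_right₀ one_le_two ?_
    have := Nat.mul_le_mul_left (3 * N) L1
    have : 400 * N ^ 7 ≤ N ^ 8 := pw 7 400 le_rfl
    have := n2 2 7 (by norm_num)
    nlinarith

end Pool.Agent.P.MP_71e30e_nt.Cyc
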