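import Pool.Agent.P.MP_71e30e_nt.H7

set_option autoImplicit false

/-! Large exponents, and fixed length and exponent. -/

namespace Pool.Agent.P.MP_71e30e_nt.Cyc

open Finset PowerSeries NumberField

variable {K : Type} [Field K] [NumberField K] {p q x y N k : ℕ} {P M : ℤ⟦X⟧} {ζ : 𝓞 K} {ω : ℂ}
  {u : ℕ → K} {I : ℕ → Ideal (𝓞 K)} {τ : (K →ₐ[ℚ] ℂ) → ℕ → Fin q}
  [IsCyclotomicExtension {p} ℚ K]

theorem mono_ne (hp : p.Prime) (hζ : IsPrimitiveRoot ζ p) (hx : 2 ≤ x)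
    (hc : IsCoprime (p : ℤ) ((x : ℤ) - 1)) (H : Pat p q x y k P M ζ ω u I τ) (hk : 2 * k < p)
    {a b : Fin k → ℕ} {c : Fin k} (hab : b c < a c) :
    ∏ c : Fin k, u c ^ a c ≠ ∏ c : Fin k, u c ^ b c := by
  intro h
  have h1 : ∏ d : Fin k, ((x - ζ ^ (d + 1 : ℕ)) ^ a d * (x - (ζ ^ (d + 1 : ℕ)) ^ (p - 1)) ^ b d) =
      ∏ d : Fin k, ((x - ζ ^ (d + 1 : ℕ)) ^ b d * (x - (ζ ^ (d + 1 : ℕ)) ^ (p - 1)) ^ a d) := by
    apply am_inj
    have e : ∀ a b : Fin k → ℕ, am K (∏ d : Fin k, ((x - ζ ^ (d + 1 : ℕ)) ^ a d *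
        (x - (ζ ^ (d + 1 : ℕ)) ^ (p - 1)) ^ b d)) = (∏ c : Fin k, u c ^ a c) ^ q *
        ∏ d : Fin k, (x - am K (ζ ^ (d + 1 : ℕ)) ^ (p - 1)) ^ (a d + b d) := fun a b => by
      rw [map_prod, ← prod_pow, ← prod_mul_distrib]
      refine prod_congr rfl fun d _ => ?_
      rw [map_mul, map_pow, map_pow, map_sub, map_sub, map_natCast, ← (H d d.2).1.1,
        map_pow _ _ (p - 1), mul_pow]
      ring
    simp only [e, h, add_comm (a _)]
  have r : ∀ m, (ζ ^ m) ^ p = 1 := fun m => by rw [← pow_mul, mul_comm, pow_mul, hζ.pow_eq_one, one_pow]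
  have h2 : ∀ d : Fin k, IsCoprime (x - ζ ^ (c + 1 : ℕ)) (x - (ζ ^ (d + 1 : ℕ)) ^ (p - 1)) :=
    fun d => cop_roots hp hζ hc (r _) (by rw [← pow_mul ζ]; exact r _) fun e => by
      have : ζ ^ (c + 1 + (d + 1) : ℕ) = 1 := by
        rw [pow_add, e, ← pow_succ, Nat.sub_add_cancel hp.one_le, r]
      have := Nat.le_of_dvd (by omega) (hζ.dvd_of_pow_eq_one _ this)
      omega
  have hπ : IsPrimitiveRoot (am K (ζ ^ (c + 1 : ℕ))) p := (hζ.pow_of_coprime _
    (Nat.coprime_of_lt_prime (by omega) (by omega) hp).symm).map_of_injective am_inj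
  have h3 := pn_sub hp hπ x
  rw [← map_natCast (am K), ← map_sub, pn_int, Nat.cast_inj] at h3
  have h4 := single_le_sum (f := fun i => x ^ i) (fun _ _ => Nat.zero_le _) (mem_range.2 hp.one_lt)
  rw [← h3, pow_one] at h4
  have h5 : (x - ζ ^ (c + 1 : ℕ) : 𝓞 K) ≠ 0 := fun e => by simp [e] at h4; omega
  rw [← mul_prod_erase _ _ (mem_univ c), ← mul_prod_erase _ _ (mem_univ c), mul_assoc,
    mul_assoc] at h1
  have h6 := (pow_dvd_pow _ hab).trans (Dvd.intro _ h1)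
  rw [pow_succ, mul_dvd_mul_iff_left (pow_ne_zero _ h5)] at h6
  have h7 := IsCoprime.isUnit_of_dvd ((h2 c).pow_right.mul_right (IsCoprime.prod_right fun d hd =>
    (cop_roots hp hζ hc (r _) (r _) fun e => ne_of_mem_erase hd (Fin.ext (by
      have := hζ.pow_inj (by omega) (by omega) e
      omega))).pow_right.mul_right (h2 d).pow_right)) h6
  rw [Ideal.span_singleton_eq_top.2 h7, Ideal.absNorm_top] at h4
  omega

theorem large_q (hp : p.Prime) (q1 : 1 ≤ q) (hζ : IsPrimitiveRoot ζ p)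
    (hω : ω ^ q = 1) (hx : 2 ≤ x) (hy : y ≠ 0) (hy' : y ^ q ≤ (2 * x) ^ (p - 1))
    (hc : IsCoprime (p : ℤ) ((x : ℤ) - 1)) (h : Bin q P M) (H : Pat p q x y k P M ζ ω u I τ)
    (hk : 2 * k < p) {e n g : ℕ} (n0 : n ≠ 0) (n1 : n ≤ p - 1) (n2 : p - 1 ≤ n * g)
    (n3 : q ^ n < (e + 1) ^ k) (n4 : 2 * (k * e) * (p - 1) ≤ q * n) : x ≤ 288 * 36 ^ g := by
  classical
  obtain ⟨D, -, hD⟩ := exists_subset_card_eq (s := (univ : Finset (K →ₐ[ℚ] ℂ))) (n := n) (by
    rwa [card_univ, AlgHom.card, rank_eq hp])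
  obtain ⟨a, b, hab, e1⟩ := Fintype.exists_ne_map_eq_of_card_lt
    (fun (a : Fin k → Fin (e + 1)) (φ : D) =>
      (⟨ex (fun c => τ φ c) (fun c => a c) % q, Nat.mod_lt _ q1⟩ : Fin q)) (by simpa [hD] using n3)
  let m : Fin 2 → Fin k → ℕ := ![fun c => a c, fun c => b c]
  have hm : ∀ i c, m i c ≤ e := fun i c => by
    fin_cases i
    exacts [Nat.lt_succ_iff.1 (a c).2, Nat.lt_succ_iff.1 (b c).2]
  have q0 : (0 : ℝ) < q := by positivity
  have h1 := runge_raw hp q1 hζ hx hy h H le_rfl hm (l := ![1, -1]) (A0 := 6) (by norm_num)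
    (fun σ => (h.nb_Fs q1 (Complex.norm_eq_one_of_pow_eq_one hω (by omega)) hm σ (Λ := 1)
      fun i => by fin_cases i <;> simp).mono (by
        have e2 : 2 * (k * e) ≤ q := Nat.le_of_mul_le_mul_right
          (n4.trans (Nat.mul_le_mul_left _ n1)) (by omega)
        have e3 := ((pow_le_pow_right₀ (le_add_of_nonneg_right (inv_nonneg.2 q0.le)) e2).trans
          Real.one_add_inv_pow_le_exp).trans Real.exp_one_lt_three.le
        rw [one_div, Fintype.card_fin]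
        push_cast
        linarith)) (L := 1) D (fun φ hφ => (X_dvd_Fs h _ _ _).2 (by
      have := Fin.mk.inj (congrFun e1 ⟨φ, hφ⟩)
      simp only [Fin.sum_univ_two, m, Matrix.cons_val_zero, Matrix.cons_val_one]
      rw [pow_eq_pow_mod _ hω, this, ← pow_eq_pow_mod _ hω]
      simp)) (by
      obtain ⟨c, hc'⟩ := Function.ne_iff.1 hab
      simp only [Fin.sum_univ_two, m, Matrix.cons_val_zero, Matrix.cons_val_one, Int.cast_one,
        Int.cast_neg, one_mul, neg_mul, ← sub_eq_add_neg, sub_ne_zero]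
      rcases lt_or_gt_of_ne hc' with k | k
      exacts [(mono_ne hp hζ hx hc H hk k).symm, mono_ne hp hζ hx hc H hk k])
  have x2 : (2 : ℝ) ≤ x := by exact_mod_cast hx
  have h2 : ((y : ℝ) ^ q) ^ (2 * (k * e)) ≤ (2 * x) ^ (q * n) := by
    have e : (y : ℝ) ^ q ≤ (2 * x) ^ (p - 1) := by exact_mod_cast hy'
    refine (pow_le_pow_left₀ (by positivity) e _).trans ?_
    rw [← pow_mul, mul_comm (p - 1)]
    exact pow_le_pow_right₀ (by linarith) n4
  have h3 : 1 ≤ (288 * 36 ^ g / x : ℝ) ^ (q * n) :=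
    calc (1 : ℝ) ≤ (y ^ (k * e) * ((6 * (2 / x) ^ 1) ^ n * 6 ^ (n * g))) ^ (2 * q) :=
          one_le_pow₀ (h1.trans (by rw [hD]; gcongr; norm_num))
      _ = (y ^ q) ^ (2 * (k * e)) * ((6 * (2 / x) ^ 1 * 6 ^ g) ^ 2) ^ (q * n) := by
          generalize (6 * (2 / x) ^ 1 : ℝ) = w
          generalize (6 : ℝ) = v
          ring
      _ ≤ (2 * x) ^ (q * n) * ((6 * (2 / x) ^ 1 * 6 ^ g) ^ 2) ^ (q * n) := by gcongr
      _ = _ := by
          rw [← mul_pow, show (36 : ℝ) = 6 ^ 2 by norm_num, pow_right_comm]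
          congr 1
          field_simp
          ring
  rw [one_le_pow_iff_of_nonneg (by positivity) (Nat.mul_ne_zero (by omega) n0),
    one_le_div (by positivity)] at h3
  exact_mod_cast h3

omit [IsCyclotomicExtension {p} ℚ K] in
theorem exists_int_sol {κ ι : Type} [Fintype κ] [Fintype ι] (A : ι → κ → K)
    (h : Fintype.card κ < Fintype.card ι) : ∃ l : ι → K, l ≠ 0 ∧ (∀ i, IsIntegral ℤ (l i)) ∧
      ∀ r, ∑ i, l i * A i r = 0 := by
  classical
  obtain ⟨g, g1, i, g2⟩ := Fintype.not_linearIndependent_iff.1 fun k : LinearIndependent K A =>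
    h.not_ge (by simpa using k.fintype_card_le_finrank)
  obtain ⟨z, z0, z1⟩ := exists_integral_multiples ℤ ℚ (univ.image g)
  refine ⟨fun i => z • g i, fun e => smul_ne_zero z0 g2 (congrFun e i),
    fun i => z1 _ (mem_image_of_mem _ (mem_univ i)), fun r => ?_⟩
  have := congrFun g1 r
  simp only [Finset.sum_apply, Pi.smul_apply, smul_eq_mul, Pi.zero_apply] at this
  simp only [smul_mul_assoc, ← smul_sum, this, smul_zero]

theorem fixed_pq (hp : p.Prime) (q3 : 3 ≤ q) (hζ : IsPrimitiveRoot ζ p) (hω : IsPrimitiveRoot ω q)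
    (h : Bin q P M) (hN : p = 2 * N + 1) (N2 : 2 ≤ N) (σ : (K →ₐ[ℚ] ℂ) → Fin N → Fin q) :
    ∃ B : ℝ, ∀ x y u I τ, Pat p q x y N P M ζ ω u I τ → (∀ φ, (fun c : Fin N => τ φ c) = σ φ) →
      2 ≤ x → y ≠ 0 → y ^ q ≤ (2 * x) ^ (p - 1) → x ≤ B := by
  classical
  have q1 : 1 ≤ q := by omega
  have cP : Fintype.card (K →ₐ[ℚ] ℂ) = p - 1 := by rw [AlgHom.card, rank_eq hp]
  obtain ⟨E, hE⟩ : ∃ E, E = 2 * N * (q - 1) * (N + 1) + 1 := ⟨_, rfl⟩
  have c1 : 2 * N * (q - 1) < q ^ N := by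
    obtain ⟨r, rfl⟩ : ∃ r, q = r + 1 := ⟨q - 1, by omega⟩
    clear * - N2 q3
    induction N, N2 using Nat.le_induction with
    | base => zify; simp; nlinarith [sq_nonneg ((r : ℤ) - 1), (by exact_mod_cast q3 : (3 : ℤ) ≤ r + 1)]
    | succ n hn ih =>
      rw [pow_succ]
      simp only [Nat.add_sub_cancel] at ih ⊢
      nlinarith [Nat.mul_le_mul ih.le q3]
  let n : (Fin N → Fin q) → Fin N → ℕ := fun a c => a c
  have hn : ∀ a c, n a c ≤ q := fun a c => (a c).2.le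
  obtain ⟨l, l0, l1, l2⟩ := exists_int_sol (K := K) (ι := (Fin N → Fin q) × Fin E)
    (κ := (K →ₐ[ℚ] ℂ) × Fin (q - 1) × Fin (E + N + 1)) (fun a r =>
      ((if ex (σ r.1) (n a.1) % q = r.2.1 + 1 then 1 else 0) -
        if ex (σ r.1) (n a.1) % q = 0 then 1 else 0) *
      coeff r.2.2 (X ^ (a.2 : ℕ) * Ph P M N (am K ζ) (n a.1))) (by
      simp only [Fintype.card_prod, cP, Fintype.card_fin, Fintype.card_fun, hN, Nat.add_sub_cancel]
      nlinarith [Nat.mul_le_mul_right E (Nat.succ_le_of_lt c1)])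
  let g : (K →ₐ[ℚ] ℂ) → (Fin N → Fin q) → Polynomial ℂ := fun φ a =>
    ∑ i : Fin E, Polynomial.C (φ (l (a, i)) * ω ^ ex (σ φ) (n a)) * Polynomial.X ^ (i : ℕ)
  let F : (K →ₐ[ℚ] ℂ) → ℂ⟦X⟧ := fun φ => ∑ a, (g φ a : ℂ⟦X⟧) * Ph P M N (φ (am K ζ)) (n a)
  have s1 := norm_place hp.ne_zero hζ.pow_eq_one
  have nb := fun φ a => (nb_poly (g φ a) (rho_nonneg q)).mul (rho_nonneg q)
    (h.nc_Ph (N := N) q1 (s1 φ) (hn a))
  obtain ⟨A, a1, a2⟩ : ∃ A, 1 ≤ A ∧ ∀ φ, Nb nc (rho q) A (F φ) := by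
    choose A hA using fun φ => (⟨_, Nb.sum (rho_nonneg q) _ fun a _ => nb φ a⟩ :
      ∃ A, Nb nc (rho q) A (F φ))
    have b := fun φ => single_le_sum (fun φ _ => (hA φ).nonneg) (mem_univ φ)
    exact ⟨1 + ∑ φ, A φ, le_add_of_nonneg_right (sum_nonneg fun φ _ => (hA φ).nonneg),
      fun φ => (hA φ).mono (by linarith [b φ])⟩
  have f1 : ∀ φ, X ^ (E + N + 1) ∣ F φ := fun φ => X_pow_dvd_iff.2 fun j hj => by
    let S : ℕ → ℂ := fun r => ∑ a : (Fin N → Fin q) × Fin E, φ (l a) *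
      ((if ex (σ φ) (n a.1) % q = r then 1 else 0) *
        coeff j (X ^ (a.2 : ℕ) * Ph P M N (φ (am K ζ)) (n a.1)))
    have e1 : ∀ r ∈ range q, S r = S 0 := fun r hr => by
      rcases r with _ | r
      · rfl
      have := congrArg φ (l2 (φ, ⟨r, by have := mem_range.1 hr; omega⟩, ⟨j, hj⟩))
      rw [map_sum, map_zero] at this
      rw [← sub_eq_zero, ← sum_sub_distrib]
      refine (sum_congr rfl fun a _ => ?_).trans this
      have e := coeff_map (φ : K →+* ℂ) j (X ^ (a.2 : ℕ) * Ph P M N (am K ζ) (n a.1))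
      rw [map_mul, map_pow, map_X, map_Ph] at e
      simp only [RingHom.coe_coe] at e
      simp only [map_mul, map_sub, apply_ite φ, map_one, map_zero, ← e]
      ring
    have e2 : coeff j (F φ) = ∑ r ∈ range q, ω ^ r * S r := by
      simp only [F, g, S, coe_sum', sum_mul, mul_sum, map_sum]
      rw [sum_comm (s := range q), Fintype.sum_prod_type]
      refine sum_congr rfl fun a _ => sum_congr rfl fun i _ => ?_
      rw [sum_eq_single (ex (σ φ) (n a) % q) (fun r _ hr => by simp [hr.symm])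
        (fun k => absurd (mem_range.2 (Nat.mod_lt _ q1)) k), ← pow_eq_pow_mod _ hω.pow_eq_one,
        Polynomial.coe_mul, Polynomial.coe_C, Polynomial.coe_pow, Polynomial.coe_X, mul_assoc,
        coeff_C_mul, if_pos rfl]
      ring
    rw [e2, sum_congr rfl fun r hr => by rw [e1 r hr], ← sum_mul, hω.geom_sum_eq_zero (by omega),
      zero_mul]
  obtain ⟨ψ⟩ : Nonempty (K →ₐ[ℚ] ℂ) := Fintype.card_pos_iff.1 (by omega)
  have s0 : ∀ φ : K →ₐ[ℚ] ℂ, φ (am K ζ) ≠ 0 := fun φ => norm_pos_iff.1 (by rw [s1]; exact one_pos)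
  have f2 : ∃ j, coeff j (F ψ) ≠ 0 := by
    by_contra! k
    refine l0 (funext fun a => ?_)
    have hs : IsPrimitiveRoot (ψ (am K ζ)) p :=
      (hζ.map_of_injective am_inj).map_of_injective ψ.injective
    have e := congrArg (Polynomial.coeff · a.2) (ind_pow (by omega) (br_Uc h (by omega) le_rfl (s0 ψ)
      fun i hi j hj e => hs.pow_inj (by omega) (by omega) e) n
      (fun a b e => funext fun c => Fin.ext (congrFun e c)) (fun a c => (a c).2) (g ψ)
      (PowerSeries.ext k) a.1)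
    simp only [g, Polynomial.finset_sum_coeff, Polynomial.coeff_C_mul_X_pow, Fin.val_inj,
      sum_ite_eq, mem_univ, if_true, Polynomial.coeff_zero] at e
    simpa [hω.ne_zero (by omega)] using e
  have j0 := Nat.find_spec f2
  have j1 : X ^ Nat.find f2 ∣ F ψ := X_pow_dvd_iff.2 fun j hj => not_not.1 (Nat.find_min f2 hj)
  generalize Nat.find f2 = j at j0 j1
  refine ⟨2 * A / (‖coeff j (F ψ)‖ * rho q ^ j) + 2 ^ N * (q ^ 2) ^ E * A * 2 ^ (E + N + 1),
    fun x y u I τ H hτ hx hy hy' => ?_⟩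
  have x0 : (0 : ℝ) < x := by positivity
  have ρ0 := rho_pos q1
  have ht := fun φ => norm_tp_le (N := N) (s1 φ) q1 hx
  obtain ⟨z, hz⟩ : ∃ z, z = ∑ a : (Fin N → Fin q) × Fin E,
    l a * tp q N x (am K ζ) ^ (a.2 : ℕ) * ∏ c : Fin N, u c ^ n a.1 c := ⟨_, rfl⟩
  have va : ∀ φ : K →ₐ[ℚ] ℂ, φ z = ev (tp q N x (φ (am K ζ))) (F φ) := fun φ => by
    rw [ev_sum (ht φ) _ fun a _ => nb φ a, hz, map_sum, Fintype.sum_prod_type]
    refine sum_congr rfl fun a _ => ?_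
    rw [ev_mul (nb_poly _ ρ0.le) (h.nc_Ph q1 (s1 φ) (hn a)) (ht φ), ev_poly,
      Polynomial.eval_finset_sum, sum_mul]
    refine sum_congr rfl fun i _ => ?_
    rw [map_mul, H.val hp.ne_zero hζ.pow_eq_one q1 hx h le_rfl, hτ]
    simp [tp]
    ring
  by_cases z0 : z = 0
  · have h1 := ev_lead (a2 ψ) ρ0 (ht ψ) (inv_ne_zero (mul_ne_zero (mul_ne_zero
      (pow_ne_zero _ (Nat.cast_ne_zero.2 (by omega))) (pow_ne_zero _ (s0 ψ)))
      (Nat.cast_ne_zero.2 (by omega)))) j1 (by rw [← va, z0, map_zero])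
    rw [norm_tp (s1 ψ) q1, ← mul_div_assoc, le_div_iff₀ x0] at h1
    refine le_add_of_le_of_nonneg ?_ (by positivity)
    rw [le_div_iff₀ (by positivity)]
    linarith
  have t1 : ((q ^ 2 * x : ℕ) : K) * tp q N x (am K ζ) = am K ((ζ ^ N) ^ (p - 1)) := by
    have e : am K ζ ^ N * (am K ζ ^ N) ^ (p - 1) = 1 := by
      rw [← pow_succ', Nat.sub_add_cancel hp.one_le, pow_right_comm, ← map_pow, hζ.pow_eq_one]
      simp
    have q0 : (q : K) ≠ 0 := Nat.cast_ne_zero.2 (by omega)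
    have x1 : (x : K) ≠ 0 := Nat.cast_ne_zero.2 (by omega)
    rw [map_pow, map_pow, eq_inv_of_mul_eq_one_right e, tp]
    push_cast
    field_simp
  have h1 := H.pf (e := q - 1) (z := ((q ^ 2 * x) ^ E : ℕ) * z) le_rfl hy (by
    rw [hz, mul_sum]
    refine Cl.sum _ fun a _ => ?_
    rw [← mul_assoc]
    refine (H.cl le_rfl fun c => Nat.le_sub_one_of_lt (a.1 c).2).int_mul ?_
    rw [mul_left_comm, Nat.cast_pow, ← pow_sub_mul_pow _ a.2.2.le, mul_assoc, ← mul_pow, t1]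
    exact (l1 a).mul (((isIntegral_natCast _).pow _).mul ((am_int _).pow _)))
    (mul_ne_zero (Nat.cast_ne_zero.2 (by positivity)) z0)
  have h2 : pn z ≤ (A * (2 / x) ^ (E + N + 1)) ^ (p - 1) := by
    rw [← cP, ← card_univ, ← prod_const]
    refine prod_le_prod (fun _ _ => norm_nonneg _) fun φ _ => ?_
    rw [va, ← norm_tp (N := N) (s1 φ) q1]
    exact ev_ord (a2 φ) ρ0 (ht φ) (f1 φ)
  have h3 : (y : ℝ) ^ (N * (q - 1)) ≤ ((2 * x) ^ N) ^ (p - 1) := by
    rw [pow_right_comm]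
    exact_mod_cast (Nat.pow_le_pow_right (by omega) (by
      rw [mul_comm]; exact Nat.mul_le_mul_right _ (Nat.sub_le _ _))).trans
      ((pow_mul y q N).le.trans (Nat.pow_le_pow_left hy' N))
  rw [pn_mul, pn_nat, rank_eq hp] at h1
  have h4 := h1.trans (mul_le_mul h3 (mul_le_mul_of_nonneg_left h2 (by positivity))
    (mul_nonneg (by positivity) (pn_nonneg _)) (by positivity))
  rw [← mul_pow, ← mul_pow, one_le_pow_iff_of_nonneg (by positivity) (by omega)] at h4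
  refine le_add_of_nonneg_of_le (by positivity) ?_
  rw [← one_le_div x0]
  refine h4.trans (le_of_eq ?_)
  push_cast
  rw [div_pow]
  field_simp
  ring

end Pool.Agent.P.MP_71e30e_nt.Cyc
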