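import Pool.Agent.P.MP_71e30e_nt.H2

set_option autoImplicit false

/-! The lower bound for the solution. -/

namespace Pool.Agent.P.MP_71e30e_nt.Cyc

open Finset Polynomial NumberField

theorem lift_root {O : Type} [CommRing O] [IsDomain O] [CharZero O] {q b : ℕ} (hq : Odd q)
    {A B : O} (h : (q : O) ∣ A - B) (hB : IsCoprime (q : O) B)
    (h' : (q : O) ^ (b + 1) ∣ A ^ q - B ^ q) : (q : O) ^ b ∣ A - B := by
  obtain ⟨c, hc⟩ := h
  obtain ⟨d, hd⟩ := odd_sq_dvd_geom_sum₂_sub B c hq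
  rw [← (Commute.all A B).geom_sum₂_mul q, show A = B + q * c by linear_combination hc,
    eq_add_of_sub_eq hd, show (q : O) ^ 2 * d + q * B ^ (q - 1) = q * (B ^ (q - 1) + q * d) by ring,
    pow_succ', mul_assoc, mul_dvd_mul_iff_left (Nat.cast_ne_zero.2 hq.pos.ne')] at h'
  rw [hc, ← add_sub_cancel_left B (q * c)]
  exact ((hB.pow_right.add_mul_left_right d).pow_left).dvd_of_dvd_mul_left h'

theorem small_pair {q I D b M : ℕ} (hq : q ≠ 0) {σ Γ₁ Γ₂ : ℤ[X]} (hσ : σ.natDegree ≤ 1)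
    (hσ' : σ.comp σ = X) (d1 : Γ₁.natDegree ≤ D) (d2 : Γ₂.natDegree ≤ D)
    (h : (q ^ b) ^ (I + D + 1) < (M + 1) ^ (I + I)) : ∃ c d : Fin I → ℤ,
      (∀ i, |c i| ≤ M ∧ |d i| ≤ M) ∧ ∃ A B : ℤ[X], A = ∑ i, C (c i) * σ ^ (i : ℕ) ∧
        B = ∑ i, C (d i) * σ ^ (i : ℕ) ∧ (A ≠ 0 ∨ B ≠ 0) ∧ A.natDegree ≤ I ∧ B.natDegree ≤ I ∧
        C (q : ℤ) ^ b ∣ A * Γ₂ + B * Γ₁ := by
  have : NeZero (q ^ b) := ⟨pow_ne_zero _ hq⟩
  let S : (Fin I → ℤ) → ℤ[X] := fun c => ∑ i, C (c i) * σ ^ (i : ℕ)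
  have s1 : ∀ c, (S c).natDegree ≤ I := fun c => natDegree_sum_le_of_forall_le _ _ fun i _ =>
    (natDegree_C_mul_le _ _).trans ((natDegree_pow_le_of_le _ hσ).trans (by simp))
  have s2 : ∀ c, S c = 0 → c = 0 := fun c e => funext fun i => by
    have := congrArg (fun f => (f.comp σ).coeff i) e
    simpa [S, Polynomial.sum_comp, hσ', coeff_X_pow, Fin.val_inj] using this
  have s3 : ∀ c c', S (c - c') = S c - S c' := fun c c' => by simp [S, sub_mul]
  obtain ⟨a, a', hne, he⟩ := Fintype.exists_ne_map_eq_of_card_lt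
    (fun (a : (Fin I → Fin (M + 1)) × (Fin I → Fin (M + 1))) (j : Fin (I + D + 1)) =>
      (((S (fun i => a.1 i) * Γ₂ + S (fun i => a.2 i) * Γ₁).coeff j : ℤ) : ZMod (q ^ b)))
    (by simpa [← pow_add] using h)
  have b1 : ∀ u v : Fin (M + 1), |(u : ℤ) - v| ≤ M := fun u v => by
    rw [abs_le]
    omega
  refine ⟨(fun i => (a.1 i : ℤ)) - fun i => (a'.1 i : ℤ), (fun i => (a.2 i : ℤ)) - fun i => (a'.2 i : ℤ),
    fun i => ⟨b1 _ _, b1 _ _⟩, S _, S _, rfl, rfl, ?_, s1 _, s1 _, ?_⟩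
  · by_contra! k
    refine hne (Prod.ext (funext fun i => Fin.ext ?_) (funext fun i => Fin.ext ?_))
    · simpa [sub_eq_zero] using congrFun (s2 _ k.1) i
    · simpa [sub_eq_zero] using congrFun (s2 _ k.2) i
  · rw [← C_pow, C_dvd_iff_dvd_coeff]
    intro j
    by_cases hj : j < I + D + 1
    · have := (ZMod.intCast_eq_intCast_iff_dvd_sub _ _ _).1 (congrFun he ⟨j, hj⟩).symm
      rw [← coeff_sub, Nat.cast_pow] at this
      rw [s3, s3]
      exact this.trans (dvd_of_eq (congrArg (coeff · j) (by ring)))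
    · rw [coeff_eq_zero_of_natDegree_lt (((natDegree_add_le _ _).trans (max_le
        (natDegree_mul_le.trans (add_le_add (s1 _) d2))
        (natDegree_mul_le.trans (add_le_add (s1 _) d1)))).trans_lt (by omega))]
      exact dvd_zero _

theorem exists_content {q : ℕ} (hq : q.Prime) {A B : ℤ[X]} (h : A ≠ 0 ∨ B ≠ 0) : ∃ j A' B',
    A = C (q : ℤ) ^ j * A' ∧ B = C (q : ℤ) ^ j * B' ∧ ¬ (C (q : ℤ) ∣ A' ∧ C (q : ℤ) ∣ B') := by
  have pC := prime_C_iff.2 (Nat.prime_iff_prime_int.1 hq)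
  obtain ⟨g, hg⟩ : ∃ g, g = gcd A B := ⟨_, rfl⟩
  obtain ⟨j, g', h1, h2⟩ := WfDvdMonoid.max_power_factor (a₀ := g)
    (by rw [hg, Ne, _root_.gcd_eq_zero_iff]; tauto) pC.irreducible
  obtain ⟨A', hA⟩ := (Dvd.intro _ h2.symm).trans (hg ▸ gcd_dvd_left A B)
  obtain ⟨B', hB⟩ := (Dvd.intro _ h2.symm).trans (hg ▸ gcd_dvd_right A B)
  refine ⟨j, A', B', hA, hB, fun k => h1 ?_⟩
  rw [← mul_dvd_mul_iff_left (pow_ne_zero j pC.ne_zero), ← h2, hg]
  exact dvd_gcd (hA ▸ mul_dvd_mul_left _ k.1) (hB ▸ mul_dvd_mul_left _ k.2)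

variable {K : Type} [Field K] [NumberField K] {p q : ℕ} [IsCyclotomicExtension {p} ℚ K] {ξ : 𝓞 K}

theorem lower_core (hp : p.Prime) (hq : q.Prime) (hq2 : q ≠ 2) (hpq : p ≠ q)
    (hξ : IsPrimitiveRoot ξ p) {σ n₁ n₂ : ℤ[X]} (hσ : σ.natDegree ≤ 1) (hσ' : σ.comp σ = X)
    (d1 : n₁.natDegree ≤ 2) (d2 : n₂.natDegree ≤ 2) (hn : ¬ (q : ℤ) ∣ n₁.eval 0 - n₂.eval 0)
    (hg : IsCoprime (q : 𝓞 K) (aeval ξ σ)) {κ : ℤ} (k0 : κ ≠ 0) (k2 : (q : ℤ) ^ 2 ∣ κ) {ϑ : K}
    {I : Ideal (𝓞 K)} {y : ℕ} (hI : Ideal.absNorm I = y) (hc : Cl I ϑ) (hy : IsCoprime (q : ℤ) y)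
    (h : ϑ ^ q * am K (aeval (aeval ξ σ) (X + C κ * n₂)) = am K (aeval (aeval ξ σ) (X + C κ * n₁)))
    (h1 : ∀ φ : K →ₐ[ℚ] ℂ, ‖φ ϑ‖ ≤ 1) {j m : ℕ} (hj : m = j + 1) (hm : 544 * m + 17 < p) :
    (q ^ j) ^ (p - 1) ≤ y * (64 * m) ^ (p - 1) := by
  have pq := Nat.prime_iff_prime_int.1 hq
  have q0 : (q : 𝓞 K) ≠ 0 := Nat.cast_ne_zero.2 hq.ne_zero
  obtain ⟨v, w, hw, rfl⟩ := WfDvdMonoid.max_power_factor k0 pq.irreducible
  obtain ⟨t, rfl⟩ : ∃ t, v = t + 2 := ⟨v - 2, by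
    have := (pow_dvd_pow_iff pq.ne_zero pq.not_unit).1 (pq.pow_dvd_of_dvd_mul_right _ hw k2)
    omega⟩
  obtain ⟨g, hg'⟩ : ∃ g, g = aeval ξ σ := ⟨_, rfl⟩
  rw [← hg'] at h hg
  have gσ : aeval g σ = ξ := by rw [hg', ← aeval_comp, hσ', aeval_X]
  have y0 : y ≠ 0 := by
    rintro rfl
    exact pq.not_unit (isCoprime_zero_right.1 hy)
  have hy' : IsCoprime (q : 𝓞 K) y := by simpa using hy.map (Int.castRingHom (𝓞 K))
  obtain ⟨θ, hθ⟩ := am_surj (hc _ (Ideal.absNorm_mem I))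
  rw [hI, map_natCast] at hθ
  have ev : ∀ {b : ℕ} {f : ℤ[X]}, C (q : ℤ) ^ b ∣ f → (q : 𝓞 K) ^ b ∣ aeval g f := fun k => by
    simpa using map_dvd (aeval g) k
  have rd : ∀ {b : ℕ} {f : ℤ[X]}, f.natDegree < p - 1 → (q : 𝓞 K) ^ b ∣ aeval g f →
      C (q : ℤ) ^ b ∣ f := fun {b f} d k => by
    have d' : (f.comp σ).natDegree < p - 1 := natDegree_comp_le.trans_lt
      ((Nat.mul_le_mul_left _ hσ).trans_lt (by simpa using d))
    obtain ⟨c, e⟩ := red hp hξ (N := q ^ b) d'.le (by simpa [aeval_comp, ← hg'] using k)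
    have e1 := e (p - 1) (by omega)
    rw [coeff_eq_zero_of_natDegree_lt d', zero_sub, dvd_neg] at e1
    have e2 : C ((q : ℤ) ^ b) ∣ f.comp σ := (C_dvd_iff_dvd_coeff _ _).2 fun i => by
      by_cases hi : i < p
      · simpa using dvd_add (e i hi) e1
      · rw [coeff_eq_zero_of_natDegree_lt (by omega)]
        exact dvd_zero _
    simpa [comp_assoc, hσ'] using map_dvd (compRingHom σ) e2
  have h2 : θ ^ q * aeval g (X + C (q ^ (t + 2) * w) * n₂) =
      y ^ q * aeval g (X + C (q ^ (t + 2) * w) * n₁) := by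
    apply am_inj
    rw [map_mul, map_mul _ (_ ^ q), map_pow, hθ, ← h, mul_pow, mul_assoc, map_pow _ _ q, map_natCast]
  have h3 : (q : 𝓞 K) ∣ θ - y := reduced hp hq hpq hξ (hg.dvd_of_dvd_mul_left
    ⟨q ^ (t + 1) * w * (y ^ q * aeval g n₁ - θ ^ q * aeval g n₂), by
      simp only [map_add, map_mul, aeval_X, map_pow, eq_intCast, map_intCast,
        map_natCast] at h2
      linear_combination h2⟩)
  have lf : ∀ {r b Γ₁ Γ₂}, Gam q (q ^ (t + 2) * w) r (b + 1) n₁ Γ₁ →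
      Gam q (q ^ (t + 2) * w) r (b + 1) n₂ Γ₂ → IsCoprime (q : 𝓞 K) (aeval g Γ₂) ∧
        (q : 𝓞 K) ^ b ∣ θ * aeval g Γ₂ - y * aeval g Γ₁ := fun {r b Γ₁ Γ₂} g1 g2 => by
    obtain ⟨c1, a1⟩ := ev (b := 1) (by simpa using g1.2.1)
    obtain ⟨c2, a2⟩ := ev (b := 1) (by simpa using g2.2.1)
    have a3 := ev g1.2.2
    have a4 := ev g2.2.2
    simp only [map_sub, map_pow, aeval_X, pow_one] at a1 a2
    rw [map_sub, map_mul, map_mul, map_pow, map_pow, aeval_X] at a3 a4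
    have cp : ∀ {G c : 𝓞 K}, G - g ^ r = q * c → IsCoprime (q : 𝓞 K) G := fun {G c} e => by
      rw [eq_add_of_sub_eq' e]
      exact hg.pow_right.add_mul_left_right _
    refine ⟨cp a2, lift_root (hq.odd_of_ne_two hq2) ?_ (hy'.mul_right (cp a1))
      (hg.pow_left.dvd_of_dvd_mul_left ((dvd_sub (a4.mul_left (θ ^ q)) (a3.mul_left (y ^ q))).trans
        (dvd_of_eq (by linear_combination (-g ^ (r * q)) * h2))))⟩
    exact (dvd_add (h3.mul_right (aeval g Γ₂)) (dvd_mul_right _ (y * (c2 - c1)))).trans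
      (dvd_of_eq (by linear_combination y * a1 - y * a2))
  have nz : ∀ A B : ℤ[X], (A ≠ 0 ∨ B ≠ 0) → A.natDegree ≤ 32 * m → B.natDegree ≤ 32 * m →
      y * aeval g A + aeval g B * θ ≠ 0 := fun A B hAB dA dB e => by
    obtain ⟨j, A, B, rfl, rfl, c⟩ := exists_content hq hAB
    rw [← C_pow, natDegree_C_mul (pow_ne_zero _ pq.ne_zero)] at dA dB
    have e' : y * aeval g A + aeval g B * θ = 0 := by
      apply mul_left_cancel₀ (pow_ne_zero j q0)
      simp only [map_mul, map_pow, map_natCast] at e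
      linear_combination e
    have b : (t + 2) * (2 * (32 * m) + 1) + 1 + 1 ≤ fv t (256 * m + 8 + 1) := by
      unfold fv
      have : (t + 2) * (2 * (32 * m) + 1) = 64 * (t * m) + t + 128 * m + 2 := by ring
      have : t * (256 * m + 8 + 1) = 256 * (t * m) + 9 * t := by ring
      omega
    obtain ⟨Γ₁, g1⟩ := exists_gam hq hq2 (dvd_mul_right _ w) b d1
    obtain ⟨Γ₂, g2⟩ := exists_gam hq hq2 (dvd_mul_right _ w) b d2
    have a1 := g1.1
    have a2 := g2.1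
    have := pade_zero hq hq2 (by omega) hw hn ⟨g1.1, g1.2.1, (pow_dvd_pow _ (by omega)).trans g1.2.2⟩
      ⟨g2.1, g2.2.1, (pow_dvd_pow _ (by omega)).trans g2.2.2⟩ c dA dB (rd
        (((natDegree_add_le _ _).trans (max_le (natDegree_mul_le.trans (add_le_add dA a2))
          (natDegree_mul_le.trans (add_le_add dB a1)))).trans_lt (by omega))
        (hy'.pow_left.dvd_of_dvd_mul_left ((((lf g1 g2).2.mul_left (-aeval g B))).trans
          (dvd_of_eq (by
            simp only [map_add, map_mul]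
            linear_combination (-aeval g Γ₂) * e')))))
    omega
  have b : 4 * m + 1 ≤ fv t (8 * m + 1) := by
    unfold fv
    omega
  obtain ⟨Γ₁, g1⟩ := exists_gam hq hq2 (dvd_mul_right _ w) b d1
  obtain ⟨Γ₂, g2⟩ := exists_gam hq hq2 (dvd_mul_right _ w) b d2
  obtain ⟨c, d, cd, A, B, hA, hB, hAB, dA, dB, e⟩ := small_pair (I := 32 * m) (b := 4 * m)
    (M := q ^ (3 * m + 1)) hq.ne_zero hσ hσ' g1.1 g2.1 (by
      refine lt_of_le_of_lt ?_ (Nat.pow_lt_pow_left (Nat.lt_succ_self _) (by omega))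
      rw [← pow_mul, ← pow_mul]
      exact Nat.pow_le_pow_right hq.pos (by nlinarith))
  obtain ⟨l1, l2⟩ := lf g1 g2
  obtain ⟨Z, hZ⟩ : (q : 𝓞 K) ^ (4 * m) ∣ y * aeval g A + aeval g B * θ :=
    l1.pow_left.dvd_of_dvd_mul_left ((dvd_add ((ev e).mul_left y) (l2.mul_left (aeval g B))).trans
      (dvd_of_eq (by simp only [map_add, map_mul]; ring)))
  obtain ⟨z, hz⟩ : ∃ z, z = am K (aeval g A) + am K (aeval g B) * ϑ := ⟨_, rfl⟩
  have z1 : y * z = q ^ (4 * m) * am K Z := by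
    have := congrArg (am K) hZ
    simp only [map_add, map_mul, map_pow, map_natCast, hθ] at this
    rw [hz]
    linear_combination this
  have qK : (q : K) ^ (4 * m) ≠ 0 := pow_ne_zero _ (Nat.cast_ne_zero.2 hq.ne_zero)
  have z2 : Cl I (z / q ^ (4 * m)) := fun a ha => by
    obtain ⟨s, s', e⟩ := hy.pow_left (m := 4 * m)
    have e' : (s : K) * q ^ (4 * m) + s' * y = 1 := by exact_mod_cast congrArg (Int.cast : ℤ → K) e
    have : am K a * (z / q ^ (4 * m)) = s * (am K (a * aeval g A) + am K (aeval g B) * (am K a * ϑ))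
        + s' * am K (a * Z) := by
      rw [map_mul, map_mul, mul_div_assoc', div_eq_iff qK]
      linear_combination (-am K a * z) * e' + s' * am K a * z1 + s * q ^ (4 * m) * am K a * hz
    rw [this]
    exact ((isIntegral_intCast _).mul ((am_int _).add ((am_int _).mul (hc a ha)))).add
      ((isIntegral_intCast _).mul (am_int _))
  have z3 := z2.pf (fun k => y0 (by rw [← hI, k]; simp)) (div_ne_zero (fun k => nz A B hAB dA dB (by
    rw [k, mul_zero, eq_comm, mul_eq_zero, or_iff_right qK, map_eq_zero_iff _ am_inj] at z1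
    rw [hZ, z1, mul_zero])) qK)
  have z4 : pn z = (q ^ (4 * m) : ℕ) ^ (p - 1) * pn (z / q ^ (4 * m)) := by
    rw [← rank_eq (K := K) hp, ← pn_nat, ← pn_mul, Nat.cast_pow, mul_div_cancel₀ _ qK]
  have z5 : pn z ≤ ((64 * m * q ^ (3 * m + 1) : ℕ) : ℝ) ^ (p - 1) := by
    rw [← rank_eq (K := K) hp, ← AlgHom.card ℚ K ℂ, ← card_univ, ← prod_const]
    refine prod_le_prod (fun _ _ => norm_nonneg _) fun φ _ => ?_
    have bd : ∀ c : Fin (32 * m) → ℤ, (∀ i, |c i| ≤ (q ^ (3 * m + 1) : ℕ)) →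
        ‖φ (am K (aeval g (∑ i, C (c i) * σ ^ (i : ℕ))))‖ ≤ 32 * m * q ^ (3 * m + 1) :=
      fun c hc => by
        rw [map_sum, map_sum, map_sum]
        refine (norm_sum_le _ _).trans ((sum_le_card_nsmul _ _ ((q : ℝ) ^ (3 * m + 1)) fun i _ =>
          ?_).trans (by simp))
        simp only [map_mul, map_pow, gσ, eq_intCast, map_intCast, norm_mul, norm_pow,
          norm_place hp.ne_zero hξ.pow_eq_one φ, one_pow, mul_one, Complex.norm_intCast]
        exact_mod_cast hc i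
    have a1 := bd c fun i => (cd i).1
    have a2 := bd d fun i => (cd i).2
    rw [← hA] at a1
    rw [← hB] at a2
    rw [hz, map_add, map_mul]
    refine (norm_add_le _ _).trans ?_
    rw [norm_mul]
    have := mul_le_of_le_one_right (norm_nonneg (φ (am K (aeval g B)))) (h1 φ)
    push_cast
    linarith
  have z6 : (((q ^ (4 * m)) ^ (p - 1) : ℕ) : ℝ) ≤ (y * (64 * m * q ^ (3 * m + 1)) ^ (p - 1) : ℕ) := by
    rw [hI] at z3
    rw [Nat.cast_pow, Nat.cast_mul, Nat.cast_pow (_ * _)]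
    refine (le_mul_of_one_le_right (by positivity) z3).trans ?_
    rw [mul_left_comm, ← z4]
    exact mul_le_mul_of_nonneg_left z5 (by positivity)
  rw [Nat.cast_le, show 4 * m = j + (3 * m + 1) by omega, pow_add, mul_pow, mul_pow, ← mul_assoc] at z6
  exact Nat.le_of_mul_le_mul_right z6 (pow_pos (pow_pos hq.pos _) _)

theorem lower (hp : p.Prime) (hq : q.Prime) (hp2 : p ≠ 2) (hq2 : q ≠ 2) (hpq : p ≠ q)
    (hb : 12 * (q / p) + 9 ≤ p) (hξ : IsPrimitiveRoot ξ p) {x y : ℕ} (hx : 2 ≤ x)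
    (h : ∑ i ∈ range p, x ^ i = y ^ q) {u : K} {I : Ideal (𝓞 K)} (H : Rt p q x y (ξ ^ q) u I)
    {j m : ℕ} (hj : m = j + 1) (hm : 544 * m + 17 < p) :
    (q ^ j) ^ (p - 1) ≤ y * (64 * m) ^ (p - 1) := by
  obtain ⟨H1, H2, -, H3⟩ := H
  have pq := Nat.prime_iff_prime_int.1 hq
  have hζ := hξ.pow_of_coprime q ((Nat.coprime_primes hq hp).2 hpq.symm)
  have n1 : ∀ φ : K →ₐ[ℚ] ℂ, ‖φ u‖ = 1 := fun φ => by
    have s1 := norm_place hp.ne_zero hζ.pow_eq_one φ
    have e := congrArg (fun z => ‖φ z‖) H1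
    have e1 : φ (am K (ξ ^ q)) * φ (am K (ξ ^ q)) ^ (p - 1) = 1 := by
      rw [← pow_succ', Nat.sub_add_cancel hp.one_le, ← map_pow, ← map_pow, hζ.pow_eq_one]
      simp
    simp only [map_mul, map_sub, map_natCast, map_pow φ, norm_mul, norm_pow] at e
    rw [eq_inv_of_mul_eq_one_right e1, Complex.inv_eq_conj s1, ← Complex.conj_natCast x, ← map_sub,
      Complex.norm_conj, Complex.conj_natCast, mul_left_eq_self₀, norm_eq_zero, sub_eq_zero] at e
    refine (pow_eq_one_iff_of_nonneg (norm_nonneg _) hq.ne_zero).1 (e.resolve_right fun k => ?_)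
    rw [← k, Complex.norm_natCast, Nat.cast_eq_one] at s1
    omega
  obtain ⟨φ₀⟩ : Nonempty (K →ₐ[ℚ] ℂ) := Fintype.card_pos_iff.1 (by
    rw [AlgHom.card, rank_eq hp]; omega)
  obtain ⟨ε, e1, e2⟩ := congr_sq hp hq hp2 hq2 hpq hb hξ (not_dvd_sub hp hp2 hq.two_le h)
    (fun k => by simpa [k] using n1 φ₀) H1
  have hy : IsCoprime (q : ℤ) y := by
    rw [pq.coprime_iff_not_dvd]
    intro k
    have a1 : ((∑ i ∈ range p, x ^ i : ℕ) : ZMod q) = 0 := by
      rw [h, ZMod.natCast_eq_zero_iff]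
      exact (Int.natCast_dvd_natCast.1 k).pow hq.ne_zero
    have a2 : (x : ZMod q) = ε := by
      simpa [sub_eq_zero] using (ZMod.intCast_zmod_eq_zero_iff_dvd _ q).2
        ((dvd_pow_self _ two_ne_zero).trans e2)
    have := Fact.mk hq
    simp only [Nat.cast_sum, Nat.cast_pow, a2] at a1
    rcases e1 with rfl | rfl | rfl
    · simp [zero_geom_sum, hp.ne_zero] at a1
    · exact hpq ((Nat.prime_dvd_prime_iff_eq hq hp).1 (by
        simpa [ZMod.natCast_eq_zero_iff] using a1)).symm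
    · simp [neg_one_geom_sum, Nat.not_even_iff_odd.2 (hp.odd_of_ne_two hp2)] at a1
  obtain ⟨η, hη⟩ : ∃ η, η = ξ ^ (p - 1) := ⟨_, rfl⟩
  have a1 : ξ * η = 1 := by rw [hη, ← pow_succ', Nat.sub_add_cancel hp.one_le, hξ.pow_eq_one]
  have a2 : ∀ φ : K →ₐ[ℚ] ℂ, ‖φ (am K η)‖ = 1 :=
    norm_place hp.ne_zero (by rw [hη, pow_right_comm, hξ.pow_eq_one, one_pow])
  have a3 : am K (ξ ^ q) * am K η ^ q = 1 := by rw [← map_pow, ← map_mul, ← mul_pow, a1]; simp
  rw [← map_pow, pow_right_comm, ← hη, map_pow _ η] at H1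
  have k0 : (x : ℤ) - ε ≠ 0 := by omega
  by_cases e0 : ε = 0
  · subst e0
    refine lower_core hp hq hq2 hpq hζ (σ := X) (n₁ := -1) (n₂ := -X ^ 2) (by simp) (by simp)
      (by simp) (by simp) (by simpa using pq.not_dvd_one) ?_ k0 e2 H2
      (H3.int_mul (am_int (η ^ 2))) hy ?_ (fun φ => by simp [n1, a2]) hj hm
    · exact ⟨0, η ^ q, by simp [← mul_pow, mul_comm η, a1]⟩
    · simp only [map_add, map_mul, map_pow _ η, map_neg, aeval_X, map_one, sub_zero,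
        Int.cast_natCast, map_pow _ _ 2, map_natCast]
      rw [mul_pow, pow_right_comm]
      generalize am K (ξ ^ q) = z at *
      generalize am K η ^ q = z' at *
      linear_combination (-1) * H1 + (-u ^ q * (x * (z * z' + 1) - z')) * a3
  have e3 : ε * ε = 1 := by rcases e1 with rfl | rfl | rfl <;> simp at e0 ⊢
  have e4 : (-ε) ^ q = -ε := by
    rcases e1 with rfl | rfl | rfl <;> simp [hq.ne_zero, (hq.odd_of_ne_two hq2).neg_one_pow]
  refine lower_core hp hq hq2 hpq hζ (σ := C ε - X) (n₁ := 1) (n₂ := C ε * X - 1)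
    (by compute_degree) (by simp) (by simp) (by compute_degree!) (fun k => hq2 ?_) ?_ k0 e2 H2
    (H3.int_mul (am_int (((-ε : ℤ) : 𝓞 K) * η))) hy ?_ (fun φ => ?_) hj hm
  · exact (Nat.prime_dvd_prime_iff_eq hq Nat.prime_two).1 (Int.natCast_dvd_natCast.1 (by
      simpa [one_add_one_eq_two] using k))
  · have c : ∀ n : ℕ, n.Prime → q ≠ n → IsCoprime (q : 𝓞 K) n := fun n hn k => by
      simpa using (Nat.isCoprime_iff_coprime.2 ((Nat.coprime_primes hq hn).2 k)).map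
        (Int.castRingHom (𝓞 K))
    rcases e1 with rfl | rfl | rfl
    · exact absurd rfl e0
    · refine (c p hp hpq.symm).of_isCoprime_of_dvd_right ?_
      simpa using (neg_sub (ξ ^ q) 1).symm.dvd.trans
        (neg_dvd.2 (hζ.sub_one_dvd_natCast hp.one_lt))
    · refine (c 2 Nat.prime_two hq2).of_isCoprime_of_dvd_right ?_
      have := (hp.odd_of_ne_two hp2).add_dvd_pow_add_pow 1 (ξ ^ q)
      rw [hζ.pow_eq_one, one_pow, one_add_one_eq_two] at this
      simpa [sub_eq_add_neg, add_comm] using neg_dvd.2 this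
  · have e5 : (ε : K) * ε = 1 := by exact_mod_cast congrArg (Int.cast : ℤ → K) e3
    rw [mul_pow, ← map_pow, mul_pow, ← Int.cast_pow, e4]
    simp only [map_add, map_mul, map_pow _ η, map_neg, map_sub, aeval_X, map_one, eq_intCast,
      map_intCast, Int.cast_natCast, map_natCast, Int.cast_sub, Int.cast_neg]
    generalize am K (ξ ^ q) = z at *
    generalize am K η ^ q = z' at *
    linear_combination H1 + u ^ q * (x * a3 + z' * (ε * ε - 1 - ε * z - ε * x + z * x) * e5)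
  · rcases e1 with rfl | rfl | rfl <;> simp [n1, a2]

end Pool.Agent.P.MP_71e30e_nt.Cyc
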