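import Pool.Agent.P.MP_71e30e_nt.H8
import Pool.Agent.P.MP_71e30e_nt.HL
import Pool.Agent.P.MP_71e30e_nt.CMain

set_option autoImplicit false

/-! Finiteness for prime length when the cyclotomic factors have roots. -/

namespace Pool.Agent.P.MP_71e30e_nt.Cyc

open Finset NumberField Filter

theorem geom_le {x : ℕ} (hx : 1 ≤ x) (n : ℕ) : ∑ i ∈ range (n + 1), x ^ i ≤ (2 * x) ^ n := by
  induction n with
  | zero => simp
  | succ n ih =>
    have := Nat.mul_le_mul_left x ih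
    have := Nat.mul_pos hx (pow_pos (by omega : 0 < 2 * x) n)
    rw [geom_sum_succ, pow_succ']
    nlinarith

theorem poly_le_exp (c n : ℕ) : ∃ a : ℕ, ∀ b ≥ a, c * b ^ n ≤ 2 ^ b := by
  have := (tendsto_pow_const_div_const_pow_of_one_lt n (one_lt_two (α := ℝ))).const_mul (c : ℝ)
  rw [mul_zero] at this
  obtain ⟨a, ha⟩ := eventually_atTop.1 (this.eventually_le_const one_pos)
  refine ⟨a, fun b hb => ?_⟩
  have h1 := ha b hb
  rw [← mul_div_assoc, div_le_one (by positivity)] at h1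
  exact_mod_cast h1

theorem cyc {p : ℕ} (hp : p.Prime) : IsCyclotomicExtension {p} ℚ (CyclotomicField p ℚ) :=
  have : NeZero p := ⟨hp.ne_zero⟩
  CyclotomicField.isCyclotomicExtension p ℚ

variable {K : Type} [Field K] [NumberField K] {p q x y : ℕ} [IsCyclotomicExtension {p} ℚ K]

/-- a solution for which all cyclotomic factors have roots -/
def Sol (K : Type) [Field K] [NumberField K] (p q x y : ℕ) : Prop := 2 ≤ x ∧ ∑ i ∈ range p, x ^ i = y ^ q ∧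
  ∀ ξ : 𝓞 K, IsPrimitiveRoot ξ p → ∃ u I, Rt p q x y ξ u I

theorem exists_data (K : Type) [Field K] [NumberField K] [IsCyclotomicExtension {p} ℚ K]
    (hp : p.Prime) (hq : q.Prime) : ∃ (ζ : 𝓞 K) (ω : ℂ) (P M : PowerSeries ℤ),
      IsPrimitiveRoot ζ p ∧ IsPrimitiveRoot ω q ∧ Bin q P M ∧ ∀ x y, Sol K p q x y → y ≠ 0 ∧
        y ^ q ≤ (2 * x) ^ (p - 1) ∧ ∀ N < p, ∃ u I τ, Pat p q x y N P M ζ ω u I τ := by
  have : NeZero p := ⟨hp.ne_zero⟩
  have hζ := (IsCyclotomicExtension.zeta_spec p ℚ K).toInteger_isPrimitiveRoot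
  have hω := Complex.isPrimitiveRoot_exp q hq.ne_zero
  obtain ⟨P, M, h⟩ := exists_bin hq.ne_zero
  refine ⟨_, _, P, M, hζ, hω, h, fun x y ⟨hx, h1, h2⟩ => ⟨?_, ?_, fun N hN =>
    exists_pat hp.ne_zero hζ.pow_eq_one hq.one_le hω hx h fun c hc => h2 _ (hζ.pow_of_coprime (c + 1)
      (Nat.coprime_of_lt_prime (by omega) (by omega) hp).symm)⟩⟩
  · rintro rfl
    rw [zero_pow hq.ne_zero] at h1
    exact (sum_pos (fun i _ => by positivity) ⟨0, mem_range.2 hp.pos⟩).ne' h1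
  · rw [← h1]
    simpa [Nat.sub_add_cancel hp.one_le] using geom_le (by omega : 1 ≤ x) (p - 1)

theorem big_q (hp : p.Prime) (hq : q.Prime) {m b : ℕ} (hm : p = 2 * m + 1) (m2 : 2 ≤ m)
    (hb : q < 2 ^ b) (h : Sol K p q x y) (hc : b ≤ m ∧ 2 * p * b ≤ q ∨ m < b ∧ 64 * p ^ 2 ≤ q) :
    x ≤ 288 * 36 ^ (4 * b) := by
  obtain ⟨ζ, ω, P, M, hζ, hω, hB, H⟩ := exists_data K hp hq
  obtain ⟨y0, y1, H⟩ := H x y h
  have c := not_dvd_sub hp (by omega) hq.two_le h.2.1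
  rcases hc with ⟨c1, c2⟩ | ⟨c1, c2⟩
  · have b0 : 0 < b := Nat.pos_of_ne_zero (by rintro rfl; have := hq.pos; simp at hb; omega)
    have n0 : 0 < m / b := Nat.div_pos c1 b0
    have n1 := Nat.mul_div_le m b
    have n2 := Nat.lt_mul_div_succ m b0
    generalize m / b = n at *
    obtain ⟨u, I, τ, H⟩ := H (b * n) (by omega)
    refine large_q hp hq.one_le hζ hω.pow_eq_one h.1 y0 y1 c hB H (by omega) (e := 1) n0.ne'
      (by nlinarith [Nat.sub_add_cancel hp.one_le]) (by nlinarith [Nat.sub_add_cancel hp.one_le])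
      (by rw [pow_mul]; exact Nat.pow_lt_pow_left hb n0.ne') ?_
    exact le_trans (by nlinarith [Nat.sub_le p 1, Nat.mul_pos b0 n0]) (Nat.mul_le_mul_right n c2)
  · obtain ⟨u, I, τ, H⟩ := H 2 (by omega)
    have s1 := Nat.sqrt_le q
    have s2 : 8 * p ≤ q.sqrt := Nat.le_sqrt'.2 (by linarith [mul_pow 8 p 2])
    exact large_q hp hq.one_le hζ hω.pow_eq_one h.1 y0 y1 c hB H (by omega) (e := q.sqrt)
      one_ne_zero (by omega) (by omega) (by simpa using Nat.lt_succ_sqrt' q)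
      (by nlinarith [Nat.sub_le p 1])

theorem big_p (hp : p.Prime) (hq : q.Prime) (hq2 : q ≠ 2) (hpq : p ≠ q) {l : ℕ} (l1 : p < 2 ^ l)
    (l2 : 50000 * (400 * l) ^ 48 ≤ p) (q1 : q < 64 * p ^ 2) (q2 : q < 2 * p * (2 * l + 7))
    (h : Sol K p q x y) : False := by
  obtain ⟨ζ, ω, P, M, hζ, hω, hB, H⟩ := exists_data K hp hq
  obtain ⟨y0, y1, H⟩ := H x y h
  have l0 : 1 ≤ l := Nat.pos_of_ne_zero (by rintro rfl; have := hp.pos; simp at l1; omega)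
  obtain ⟨V, hV⟩ : ∃ V, V = 400 * l := ⟨_, rfl⟩
  rw [← hV] at l2
  have v : ∀ i ≤ 48, V ^ i ≤ V ^ 48 := fun i hi => Nat.pow_le_pow_right (by omega) hi
  have v1 := v 1 (by norm_num)
  rw [pow_one] at v1
  obtain ⟨j, hj⟩ : ∃ j, p / 600 = j + 1 := ⟨p / 600 - 1, by omega⟩
  obtain ⟨u, I, R⟩ := h.2.2 _ (hζ.pow_of_coprime q ((Nat.coprime_primes hq hp).2 hpq.symm))
  have h1 := lower hp hq (by omega) hq2 hpq (by
    have := (Nat.div_lt_iff_lt_mul hp.pos).2 (q2.trans_eq (by ring : _ = 2 * (2 * l + 7) * p))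
    omega) hζ h.1 h.2.1 R hj (by omega)
  have h2 : 2 ^ (40 * q * V ^ 48) ≤ 2 * x := by
    have e1 := (Nat.pow_le_pow_left h1 q).trans ((mul_pow _ _ _).le.trans
      (Nat.mul_le_mul_right _ y1))
    rw [pow_right_comm, pow_right_comm _ (p - 1) q, ← mul_pow,
      Nat.pow_le_pow_iff_left (by omega)] at e1
    have e2 : 2 ^ (40 * V ^ 48) * (64 * (p / 600)) ≤ q ^ j := by
      refine le_trans (Nat.mul_le_mul_left _ (le_trans (by omega) l1.le)) ?_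
      rw [← pow_add]
      exact (Nat.pow_le_pow_right two_pos (by omega)).trans (Nat.pow_le_pow_left hq.two_le _)
    have e3 := (Nat.pow_le_pow_left e2 q).trans e1
    rw [mul_pow, ← pow_mul, mul_right_comm] at e3
    exact Nat.le_of_mul_le_mul_right e3 (pow_pos (by omega) _)
  by_cases c : q ≤ V
  · obtain ⟨u, I, τ, H⟩ := H V (by omega)
    have := v 5 (by norm_num)
    have := v 16 (by norm_num)
    refine ub_small hp hq hpq hζ hω h.1 y0 y1 hB H (by omega) ?_ c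
      (by rw [← pow_mul]; change V ^ 16 < _; omega) (by rwa [← pow_mul]) (by omega)
    refine (Nat.mul_le_mul (by omega : _ ≤ 2 ^ l) l1.le).trans ?_
    rw [← pow_add]
    exact Nat.pow_le_pow_right two_pos (by omega)
  · obtain ⟨u, I, τ, H⟩ := H (3 * l + 7) (by omega)
    have k : 16 * (3 * l + 7) ≤ V := by omega
    have := (Nat.pow_le_pow_left k 2).trans (v 2 (by norm_num))
    refine ub_multi hp hq hpq hζ hω h.1 y0 y1 hB H ?_ (by omega) (by omega) (le_trans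
      (Nat.pow_le_pow_right two_pos (Nat.mul_le_mul_left _ ((Nat.pow_le_pow_left k 6).trans
        (v 6 (by norm_num))))) h2) (by omega)
    rw [pow_add, pow_mul']
    nlinarith [Nat.pow_le_pow_left l1.le 3, Nat.mul_le_mul_left p q1.le]

theorem fixed_bound (K : Type) [Field K] [NumberField K] [IsCyclotomicExtension {p} ℚ K]
    (hp : p.Prime) (hq : q.Prime) (p5 : 5 ≤ p) (hq2 : q ≠ 2) :
    ∃ B : ℕ, ∀ x y, Sol K p q x y → x ≤ B := by
  obtain ⟨ζ, ω, P, M, hζ, hω, hB, H⟩ := exists_data K hp hq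
  obtain ⟨N, hN⟩ := hp.odd_of_ne_two (by omega)
  choose B h using fixed_pq hp (by have := hq.two_le; omega) hζ hω hB hN (by omega)
  obtain ⟨B', h'⟩ := (Set.finite_range B).bddAbove
  refine ⟨⌈B'⌉₊, fun x y s => ?_⟩
  obtain ⟨y0, y1, H⟩ := H x y s
  obtain ⟨u, I, τ, H⟩ := H N (by omega)
  exact_mod_cast ((h _ x y u I τ H (fun _ => rfl) s.1 y0 y1).trans (h' ⟨_, rfl⟩)).trans
    (Nat.le_ceil _)

theorem two_scales : ∃ A : ℕ, ∀ q x n : ℕ, 1 ≤ q → 1 ≤ x → 2 ≤ n → Comp.Rel q x ![1, n] →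
    x < (A * q) ^ A := by
  obtain ⟨L1, A1, p1, h1⟩ := Comp.wrap 1 le_rfl
  obtain ⟨L2, A2, p2, h2⟩ := Comp.wrap L1 p1
  refine ⟨A1 + A2 + 1, fun q x n hq hx hn h => ?_⟩
  have hi : Function.Injective ![1, n] := by
    intro i j e
    fin_cases i <;> fin_cases j <;> simp at e ⊢ <;> omega
  by_cases c : L1 ≤ n
  · exact Comp.bd_mono hq (h1 _ q x _ ![3, 2] 1 ![L1 * (L1 * n), L1 * n, n, 1] hq hx h hi
      (fun i => by fin_cases i <;> simp) (by simp) (by simpa using c) (by simp) (by simp))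
      (by omega)
  · exact Comp.bd_mono hq (h2 _ q x _ 3 ![1, n] ![L2 * (L2 * L2), L2 * L2, L2, 1] hq hx h hi
      (fun i => by fin_cases i <;> simp <;> omega) (by simp) (by simp) (by simp) (by simp))
      (by omega)

theorem prime_bound : ∃ A : ℕ, ∀ q x p y : ℕ, q.Prime → p.Prime → 5 ≤ p → p ≠ q → 2 ≤ x →
    ∑ i ∈ range p, x ^ i = y ^ q → (q ≠ 2 → Sol (CyclotomicField p ℚ) p q x y) →
    x < (A * q) ^ A := by
  obtain ⟨A1, h1⟩ := two_scales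
  obtain ⟨a, ha⟩ := poly_le_exp (100000 * 400 ^ 48) 48
  have h2 : ∀ s : ℕ × ℕ, ∃ B : ℕ, ∀ x y, s.1.Prime → s.2.Prime → 5 ≤ s.1 → s.2 ≠ 2 →
      Sol (CyclotomicField s.1 ℚ) s.1 s.2 x y → x ≤ B := fun ⟨p, q⟩ => by
    by_cases c : p.Prime ∧ q.Prime ∧ 5 ≤ p ∧ q ≠ 2
    · have := cyc c.1
      obtain ⟨B, h⟩ := fixed_bound (CyclotomicField p ℚ) c.1 c.2.1 c.2.2.1 c.2.2.2
      exact ⟨B, fun x y _ _ _ _ => h x y⟩
    · exact ⟨0, fun _ _ a b d e => absurd ⟨a, b, d, e⟩ c⟩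
  choose B hB using h2
  obtain ⟨A2, h2⟩ := ((Set.finite_Iic (2 ^ a, 64 * (2 ^ a) ^ 2)).image B).bddAbove
  obtain ⟨A3, h3⟩ : ∃ A, 288 ≤ A := ⟨_, le_rfl⟩
  refine ⟨A1 + (A2 + 1) + A3 + 1, fun q x p y hq hp p5 hpq hx h hs => ?_⟩
  have q1 := hq.one_le
  obtain ⟨m, hm⟩ := hp.odd_of_ne_two (by omega)
  by_cases hq2 : q = 2
  · subst hq2
    refine Comp.bd_mono q1 (h1 2 x p q1 (by omega) (by omega) ⟨![1, 1], (x - 1) * y, by simp,
      ⟨0, by simp⟩, ⟨m + 1, by simp; omega⟩, ?_⟩) (by omega)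
    simp only [Fin.prod_univ_two, Matrix.cons_val_zero, Matrix.cons_val_one, pow_one]
    rw [Comp.pow_sub_one_eq (by omega) p, h]
    ring
  have := cyc hp
  have s := hs hq2
  have b1 : q < 2 ^ (Nat.log 2 q + 1) := Nat.lt_pow_succ_log_self one_lt_two q
  have b2 := Nat.pow_log_le_self 2 hq.ne_zero
  generalize Nat.log 2 q = b at b1 b2
  by_cases c : b + 1 ≤ m ∧ 2 * p * (b + 1) ≤ q ∨ m < b + 1 ∧ 64 * p ^ 2 ≤ q
  · refine Comp.bd_mono q1 (A := A3) ((big_q hp hq hm (by omega) b1 s c).trans_lt ?_) (by omega)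
    have e1 : 36 ^ (4 * (b + 1)) ≤ (A3 * q) ^ 24 := by
      refine (Nat.pow_le_pow_left (by norm_num : 36 ≤ 2 ^ 6) _).trans ?_
      rw [← pow_mul, show 6 * (4 * (b + 1)) = (b + 1) * 24 by ring, pow_mul]
      exact Nat.pow_le_pow_left (by rw [pow_succ]; nlinarith) _
    have e2 : A3 < A3 * q := by nlinarith [hq.two_le]
    refine lt_of_lt_of_le (b := (A3 * q) ^ 25) ?_ (Nat.pow_le_pow_right (by omega) (by omega))
    rw [pow_succ' _ 24]
    exact Nat.mul_lt_mul_of_lt_of_le (by omega) e1 (pow_pos (by omega) _)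
  push Not at c
  have q2 : q < 64 * p ^ 2 := by
    by_contra! k
    have := c.1 (not_lt.1 fun e => (c.2 e).not_ge k)
    have := not_lt.1 fun e => (c.2 e).not_ge k
    nlinarith
  have l1 : p < 2 ^ (Nat.log 2 p + 1) := Nat.lt_pow_succ_log_self one_lt_two p
  have l2 : 2 ^ (Nat.log 2 p + 1) ≤ 2 * p := by
    rw [pow_succ']
    exact Nat.mul_le_mul_left _ (Nat.pow_log_le_self 2 hp.ne_zero)
  have l0 : 1 ≤ Nat.log 2 p + 1 := Nat.le_add_left _ _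
  generalize Nat.log 2 p + 1 = l at l0 l1 l2
  by_cases hl : a ≤ l
  · have l3 := (ha l hl).trans l2
    rw [mul_assoc, ← mul_pow] at l3
    have l4 : 400 * l ≤ (400 * l) ^ 48 := Nat.le_self_pow (by norm_num) _
    have b3 : b < 2 * l + 6 := (Nat.pow_lt_pow_iff_right one_lt_two).1 (b2.trans_lt (q2.trans_le (by
      rw [pow_add, pow_mul']
      nlinarith [Nat.pow_le_pow_left l1.le 2])))
    exact (big_p hp hq hq2 hpq l1 (by omega) q2 ((c.1 (by omega)).trans_le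
      (Nat.mul_le_mul_left _ (by omega))) s).elim
  · have p1 : p ≤ 2 ^ a := l1.le.trans (Nat.pow_le_pow_right two_pos (by omega))
    have := (hB (p, q) x y hp hq p5 hq2 s).trans (h2 ⟨(p, q), ⟨p1, q2.le.trans
      (Nat.mul_le_mul_left _ (Nat.pow_le_pow_left p1 2))⟩, rfl⟩)
    refine Comp.bd_mono q1 (A := A2 + 1) (lt_of_lt_of_le (by nlinarith)
      (Nat.le_self_pow (by omega) _)) (by omega)

theorem finite_of_sol (Q : ℕ → ℕ → Prop) (hQ : ∀ q x p y : ℕ, q.Prime → p.Prime → 5 ≤ p → Q p q →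
    p ≠ q ∧ (2 ≤ x → ∑ i ∈ range p, x ^ i = y ^ q → q ≠ 2 → Sol (CyclotomicField p ℚ) p q x y)) :
    {s : ℕ × ℕ × ℕ × ℕ | 2 ≤ s.1 ∧ 4 ≤ s.2.2.1 ∧ 2 ≤ s.2.2.2 ∧
      (s.2.2.1.Prime → ∃ r : ℕ, r.Prime ∧ r ∣ s.2.2.2 ∧ Q s.2.2.1 r) ∧
      ∑ i ∈ range s.2.2.1, s.1 ^ i = s.2.1 ^ s.2.2.2}.Finite := by
  obtain ⟨A, hA⟩ := prime_bound
  obtain ⟨X, hX⟩ := Comp.bounded_of A
  refine (Comp.composite_finite.union (Comp.finite_of_bound (fun x _ => x ≤ X) (X + 1)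
    fun q x n y hq _ _ h _ => lt_of_lt_of_le (by nlinarith [hq.pos])
      (Nat.le_self_pow (by omega) _))).subset ?_
  rintro ⟨x, y, n, q⟩ ⟨hx, hn, hq, hP, h⟩
  dsimp only at hx hn hq hP h
  by_cases hp : n.Prime
  swap
  · exact Or.inl ⟨hx, by dsimp only; omega, hq, hp, h⟩
  obtain ⟨r, hr, ⟨s, rfl⟩, hr'⟩ := hP hp
  have h2 : ∑ i ∈ range n, x ^ i = (y ^ s) ^ r := by rw [h, ← pow_mul, mul_comm]
  have n5 : 5 ≤ n := lt_of_le_of_ne hn (by rintro rfl; exact absurd hp (by norm_num))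
  obtain ⟨k1, k2⟩ := hQ r x n (y ^ s) hr hp n5 hr'
  exact Or.inr ⟨hx, by dsimp only; omega, hq,
    (hX r x n _ hr hx (by omega) h2 (hA r x n _ hr hp n5 k1 hx h2 (k2 hx h2))).1, h⟩

theorem class_finite : {s : ℕ × ℕ × ℕ × ℕ | 2 ≤ s.1 ∧ 4 ≤ s.2.2.1 ∧ 2 ≤ s.2.2.2 ∧
    (s.2.2.1.Prime → ∃ r : ℕ, r.Prime ∧ r ∣ s.2.2.2 ∧
      ¬ r ∣ s.2.2.1 * classNumber (CyclotomicField s.2.2.1 ℚ)) ∧
    ∑ i ∈ range s.2.2.1, s.1 ^ i = s.2.1 ^ s.2.2.2}.Finite :=
  finite_of_sol (fun n r => ¬ r ∣ n * classNumber (CyclotomicField n ℚ))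
    fun q x p y hq hp p5 h => by
    have := cyc hp
    have e : p ≠ q := fun e => h (e ▸ dvd_mul_right _ _)
    exact ⟨e, fun hx h1 hq2 => ⟨hx, h1, fun ξ hξ => exists_rt_field hp (by omega) hq hq2 e.symm
      (fun k => h (k.mul_left _)) hx h1 hξ⟩⟩

end Pool.Agent.P.MP_71e30e_nt.Cyc
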