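import Mathlib
import Pool.Agent.P.MP_71e30e_nt.Power

set_option autoImplicit false

/-! The Nagell-Ljunggren equation when the base is close to a q-th power. -/

namespace Pool.Agent.P.MP_71e30e_nt

open Polynomial Filter Topology Metric Finset

theorem exists_c (N : ℕ) : ∃ c : ℕ, 8 ≤ c ∧ ∀ u : ℂ, ‖u‖ ≤ 1 / c → ∀ j ≤ N,
    ‖(1 + u) ^ j - 1‖ ≤ 1 / 8 := by
  have h : ∀ᶠ u in 𝓝 (0 : ℂ), ∀ j ∈ range (N + 1), ‖(1 + u) ^ j - 1‖ ≤ 1 / 8 :=
    (eventually_all_finset _).2 fun j _ => by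
      have h1 : Continuous fun u : ℂ => ‖(1 + u) ^ j - 1‖ := by fun_prop
      refine (h1.tendsto 0).eventually (ge_mem_nhds ?_)
      simp
  obtain ⟨r, hr, h⟩ := Metric.eventually_nhds_iff.1 h
  obtain ⟨c, hc⟩ := exists_nat_gt (max 8 (1 / r))
  have h8 : (8 : ℝ) < c := (le_max_left _ _).trans_lt hc
  refine ⟨c, by exact_mod_cast h8.le, fun u hu j hj => h ?_ j (mem_range.2 (by omega))⟩
  rw [dist_zero_right]
  refine hu.trans_lt ?_
  rw [one_div_lt (by linarith) hr]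
  exact (le_max_right _ _).trans_lt hc

theorem lin_natDegree (a : ℤ) : (1 + C a * X : ℤ[X]).natDegree ≤ 1 :=
  natDegree_add_le_of_degree_le (by simp) ((natDegree_C_mul_le _ _).trans natDegree_X_le)

theorem small_mul {a Y : ℝ} {c : ℕ} (hc : 8 ≤ c) {b w : ℂ} (hb : ‖b‖ ≤ a) (hY : c * a ≤ Y)
    (hw : w ∈ ball (0 : ℂ) (1 / Y)) : ‖b * w‖ ≤ 1 / c := by
  have hc' : (8 : ℝ) ≤ c := by exact_mod_cast hc
  have h1 := mem_ball_zero_iff.1 hw
  have hY0 : 0 < Y := one_div_pos.1 ((norm_nonneg w).trans_lt h1)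
  rw [lt_div_iff₀ hY0] at h1
  rw [norm_mul, le_div_iff₀ (by linarith)]
  calc ‖b‖ * ‖w‖ * c = (c * ‖b‖) * ‖w‖ := by ring
    _ ≤ Y * ‖w‖ := by gcongr; exact le_trans (by gcongr) hY
    _ ≤ 1 := by linarith

/-- Bounded length. -/
theorem near_small {q n c x y z s : ℕ} {a : ℤ} {Y : ℝ} (hq : 2 ≤ q) (hn : 3 ≤ n) (hs : 1 ≤ s)
    (hc8 : 8 ≤ c) (hc : ∀ u : ℂ, ‖u‖ ≤ 1 / c → ‖(1 + u) ^ n - 1‖ ≤ 1 / 8)
    (hY : c * (|(a : ℝ)| + (s : ℝ) ^ q) ≤ Y) (hqY : (q : ℝ) ^ 2 ≤ Y)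
    (hz : Y ^ (2 * ((5 * n + 2) * q + 2 * n + 3)) ≤ (z ^ q : ℕ))
    (hx : (s : ℤ) ^ q * x = (z : ℤ) ^ q + a) : ∑ i ∈ range n, x ^ i ≠ y ^ q := by
  intro h
  obtain ⟨d, rfl⟩ : ∃ d, n = d + 1 := ⟨n - 1, by omega⟩
  obtain ⟨p, rfl⟩ : ∃ p, q = p + 1 := ⟨q - 1, by omega⟩
  obtain ⟨σ, hσ⟩ : ∃ σ : ℤ, σ = (s : ℤ) ^ (p + 1) := ⟨_, rfl⟩
  have hσ1 : 1 ≤ σ := hσ ▸ one_le_pow₀ (by exact_mod_cast hs)
  have hσr : (σ : ℝ) = (s : ℝ) ^ (p + 1) := by rw [hσ]; push_cast; rfl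
  have hσ2 : (1 : ℝ) ≤ σ := by exact_mod_cast hσ1
  have hc' : (8 : ℝ) ≤ c := by exact_mod_cast hc8
  rw [← hσr] at hY
  have ha0 := abs_nonneg (a : ℝ)
  have hY2 : 2 ≤ Y := by nlinarith
  set U : ℤ[X] := (1 + C a * X) ^ (d + 1) - (C σ * X) ^ (d + 1) with hU
  set V : ℤ[X] := 1 + C (a - σ) * X with hV
  have hζ := Complex.isPrimitiveRoot_exp (d + 1) (by omega)
  generalize Complex.exp _ = ζ at hζ
  have hσc : (σ : ℂ) ≠ 0 := by exact_mod_cast (by omega : σ ≠ 0)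
  have hne : ζ * σ - a ≠ 0 := fun h0 => by
    have e1 : ζ = ((a / σ : ℝ) : ℂ) := by
      push_cast
      rw [eq_div_iff hσc]
      exact sub_eq_zero.1 h0
    have e2 := hζ.norm'_eq_one (by omega)
    rw [e1, Complex.norm_real, Real.norm_eq_abs] at e2
    refine hζ.pow_ne_one_of_pos_of_lt (l := 2) (by omega) (by omega) ?_
    rw [e1, ← Complex.ofReal_pow, ← sq_abs, e2]
    simp
  obtain ⟨ρ, hρ⟩ : ∃ ρ : ℂ, ρ * (ζ * σ - a) = 1 := ⟨_, inv_mul_cancel₀ hne⟩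
  have hρ0 : ρ ≠ 0 := left_ne_zero_of_mul_eq_one hρ
  have e3 : 1 + a * ρ = ζ * (σ * ρ) := by linear_combination -hρ
  have hnr : NR (p + 1) (cx U) (cx V) := by
    refine NR.of_simple hq ρ ?_ ?_ ?_
    · simp only [hU, map_sub, map_pow, map_add, map_mul, map_one, cx_C, cx_X, eval_sub, eval_pow,
        eval_add, eval_mul, eval_one, eval_C, eval_X]
      rw [e3, mul_pow, hζ.pow_eq_one, one_mul, sub_self]
    · simp only [hU, map_sub, map_pow, map_add, map_mul, map_one, cx_C, cx_X,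
        derivative_pow_succ, derivative_mul, derivative_C, derivative_X, derivative_one, eval_sub,
        eval_pow, eval_add, eval_mul, eval_one, eval_C, eval_X, eval_zero]
      rw [e3, mul_pow]
      intro h0
      have e4 := hζ.pow_eq_one
      have e5 : ((d : ℂ) + 1) * (σ * ρ) ^ d * (ζ * σ - a) = 0 := by
        linear_combination (-ζ) * h0 + (((d : ℂ) + 1) * (σ * ρ) ^ d * a) * e4
      exact mul_ne_zero (mul_ne_zero (Nat.cast_add_one_ne_zero d)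
        (pow_ne_zero _ (mul_ne_zero hσc hρ0))) hne e5
    · simp only [hV, map_add, map_mul, map_one, cx_C, cx_X, eval_add, eval_mul, eval_one, eval_C,
        eval_X]
      intro h0
      have e5 : (ζ - 1) * (σ * ρ) = 0 := by
        push_cast at h0
        linear_combination h0 - e3
      exact mul_ne_zero (sub_ne_zero.2 (hζ.ne_one (by omega))) (mul_ne_zero hσc hρ0) e5
  have hY1 : 1 ≤ Y := by linarith
  refine runge' (e := d + 1) (d := d) (by omega) U V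
    (by rw [coeff_zero_eq_eval_zero]; simp [hU]) (by rw [coeff_zero_eq_eval_zero]; simp [hV])
    ((natDegree_sub_le_of_le (natDegree_pow_le_of_le _ (lin_natDegree a))
      (natDegree_pow_le_of_le _ ((natDegree_C_mul_le _ _).trans natDegree_X_le))).trans (by simp))
    ((lin_natDegree _).trans (by omega)) hY2 hqY (fun w hw => ?_) hnr
    ((pow_le_pow_right₀ hY1 (by nlinarith)).trans hz) (y * s ^ d * z ^ (p * d)) ?_
  · have b1 := small_mul hc8 (b := a) (by rw [Complex.norm_intCast]; linarith) hY hw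
    have b2 := small_mul hc8 (b := σ)
      (by rw [Complex.norm_intCast, abs_of_pos (by linarith)]; linarith) hY hw
    have b3 : 1 / (c : ℝ) ≤ 1 / 8 := one_div_le_one_div_of_le (by norm_num) hc'
    simp only [hU, hV, map_sub, map_pow, map_add, map_mul, map_one, cx_C, cx_X, eval_sub,
      eval_pow, eval_add, eval_mul, eval_one, eval_C, eval_X]
    constructor
    · rw [sub_right_comm]
      refine (norm_sub_le _ _).trans ?_
      have b4 : ‖(σ * w : ℂ) ^ (d + 1)‖ ≤ ‖(σ * w : ℂ)‖ := by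
        rw [norm_pow]
        exact pow_le_of_le_one (norm_nonneg _) (by linarith) (by omega)
      linarith [hc _ b1]
    · rw [add_sub_cancel_left, sub_mul]
      linarith [norm_sub_le (a * w : ℂ) (σ * w)]
  · have a1 := geom_cast (R := ℝ) x (d + 1)
    rw [h] at a1
    have hb : (0 : ℝ) < ((z ^ (p + 1) : ℕ) : ℝ) := lt_of_lt_of_le (by positivity) hz
    have hx' : (σ : ℝ) * x = (z : ℝ) ^ (p + 1) + a := by rw [hσ]; exact_mod_cast hx
    simp only [hU, hV, map_sub, map_pow, map_add, map_mul, map_one, aeval_X, eq_intCast,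
      map_intCast]
    push_cast at a1 hb ⊢
    have e6 : ((y : ℝ) * s ^ d * z ^ (p * d) / ((z : ℝ) ^ (p + 1)) ^ d) ^ (p + 1) =
        (y : ℝ) ^ (p + 1) * σ ^ d / ((z : ℝ) ^ (p + 1)) ^ d := by
      rw [hσr, div_pow, div_eq_div_iff (by positivity) (by positivity)]
      ring
    rw [e6]
    generalize (z : ℝ) ^ (p + 1) = b at *
    have e7 : 1 + (a : ℝ) * (1 / b) = σ * x / b := by rw [hx']; field_simp
    have e8 : 1 + ((a : ℝ) - σ) * (1 / b) = σ * (x - 1) / b := by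
      rw [mul_sub (σ : ℝ), hx']; field_simp; ring
    rw [e7, e8, div_pow, mul_one_div, div_pow]
    field_simp
    linear_combination (σ : ℝ) ^ (d + 1) * b ^ (d + 1) * a1

/-- Large length. -/
theorem near_large {q n c A x y z s : ℕ} {a : ℤ} {Y : ℝ} (hq : 3 ≤ q) (hs : 1 ≤ s)
    (hA : (2 * q + 2) * (2 * q + 3) + 3 = A) (hn : 34 + 6 * (q * 4 * A) < n)
    (hc8 : 8 ≤ c) (hc : ∀ u : ℂ, ‖u‖ ≤ 1 / c → ∀ j ≤ q, ‖(1 + u) ^ j - 1‖ ≤ 1 / 8)
    (hY : c * (|(a : ℝ)| + (s : ℝ) ^ q) ≤ Y) (hqY : (q : ℝ) ^ 2 ≤ Y)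
    (hz : Y ^ (30 * (5 * A) * (5 * A) + A) ≤ z)
    (hx : (s : ℤ) ^ q * x = (z : ℤ) ^ q + a) : ∑ i ∈ range n, x ^ i ≠ y ^ q := by
  intro h
  obtain ⟨d, rfl⟩ : ∃ d, n = d + 1 := ⟨n - 1, by omega⟩
  obtain ⟨k, j, hj, hd⟩ : ∃ k j, j < q ∧ d = q * k + j :=
    ⟨d / q, d % q, Nat.mod_lt _ (by omega), (Nat.div_add_mod d q).symm⟩
  obtain ⟨σ, hσ⟩ : ∃ σ : ℤ, σ = (s : ℤ) ^ q := ⟨_, rfl⟩
  have hσ1 : 1 ≤ σ := hσ ▸ one_le_pow₀ (by exact_mod_cast hs)
  have hσr : (σ : ℝ) = (s : ℝ) ^ q := by rw [hσ]; push_cast; rfl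
  have hσ2 : (1 : ℝ) ≤ σ := by exact_mod_cast hσ1
  have hc' : (8 : ℝ) ≤ c := by exact_mod_cast hc8
  rw [← hσr] at hY
  have ha0 := abs_nonneg (a : ℝ)
  have hY8 : 8 * (|(a : ℝ)| + σ) ≤ Y := le_trans (by gcongr) hY
  have hY2 : 2 ≤ Y := by linarith
  have hY1 : 1 ≤ Y := by linarith
  have hqA : q ≤ A := by nlinarith
  have hA22 : 22 ≤ A := by nlinarith
  have hz1 : Y ≤ z := (le_self_pow₀ hY1 (by omega)).trans hz
  have hz0 : (0 : ℝ) < z := by linarith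
  have hzb : (z : ℝ) ≤ (z : ℝ) ^ q := le_self_pow₀ (by linarith) (by omega)
  have a1 := geom_cast (R := ℝ) x (d + 1)
  rw [h] at a1
  have hx' : (σ : ℝ) * x = (z : ℝ) ^ q + a := by rw [hσ]; exact_mod_cast hx
  have ha1 := abs_le.1 (show |(a : ℝ)| ≤ (z : ℝ) ^ q / 2 by linarith)
  have hx1 : (z : ℝ) ^ q ≤ Y * x := by
    have : (0 : ℝ) ≤ x := by positivity
    nlinarith [ha1.1]
  have hx0 : (0 : ℝ) < x := by
    by_contra h0
    nlinarith
  have hx2 : (x : ℝ) ≤ Y * (z : ℝ) ^ q := by nlinarith [ha1.2]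
  set U : ℤ[X] := (1 + C a * X) ^ (j + 1) with hU
  set V : ℤ[X] := 1 + C (a - σ) * X with hV
  have hσc : (σ : ℂ) ≠ 0 := by exact_mod_cast (by omega : σ ≠ 0)
  have hnr : NR q (cx U) (cx V) := by
    by_cases h1 : a = σ
    · subst h1
      refine ⟨-1 / a, j + 1, 0, C ((a : ℂ) ^ (j + 1)), 1, ?_, by simp [hV], by simpa using hσc,
        by simp, fun h2 => ?_⟩
      · have : (1 + C (a : ℂ) * X : ℂ[X]) = (X - C (-1 / (a : ℂ))) * C (a : ℂ) := by
          rw [sub_mul, ← C_mul, div_mul_cancel₀ _ hσc]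
          simp [add_comm, mul_comm]
        rw [hU, map_pow, map_add, map_mul, map_one, cx_C, cx_X, this, mul_pow, C_pow]
      · have h3 : j + 1 = q := by
          have := Int.le_of_dvd (by omega) h2
          omega
        have h4 : ((y * z : ℕ) : ℝ) ^ q + a = ((s * x ^ (k + 1) : ℕ) : ℝ) ^ q := by
          push_cast at a1 ⊢
          rw [mul_pow, mul_pow, ← hσr, ← pow_mul, show (k + 1) * q = d + 1 by
            rw [hd, ← h3]; ring]
          linear_combination a * a1 - (y : ℝ) ^ q * hx'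
        have h5 : y * z + 1 ≤ s * x ^ (k + 1) := by
          have : ((y * z : ℕ) : ℝ) < (s * x ^ (k + 1) : ℕ) :=
            lt_of_pow_lt_pow_left₀ q (by positivity) (by linarith)
          exact_mod_cast this
        have h6 : ((y * z : ℕ) : ℝ) ^ q + (y * z : ℕ) ≤ ((y * z : ℕ) + 1 : ℝ) ^ q := by
          obtain ⟨p, rfl⟩ : ∃ p, q = p + 2 := ⟨q - 2, by omega⟩
          have b0 : (0 : ℝ) ≤ (y * z : ℕ) := by positivity
          generalize ((y * z : ℕ) : ℝ) = m at *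
          have b1 : m ^ (p + 1) ≤ (m + 1) ^ (p + 1) := pow_le_pow_left₀ b0 (by linarith) _
          have b2 : m + 1 ≤ (m + 1) ^ (p + 1) := le_self_pow₀ (by linarith) (by omega)
          rw [pow_succ _ (p + 1), pow_succ _ (p + 1)]
          nlinarith
        have h7 : ((y * z : ℕ) + 1 : ℝ) ^ q ≤ ((s * x ^ (k + 1) : ℕ) : ℝ) ^ q :=
          pow_le_pow_left₀ (by positivity) (by exact_mod_cast h5) q
        have h8 : y ≠ 0 := by
          rintro rfl
          rw [zero_pow (by omega), sum_range_succ'] at h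
          simp at h
        have h9 : (z : ℝ) ≤ (y * z : ℕ) := by
          exact_mod_cast Nat.le_mul_of_pos_left z (Nat.pos_of_ne_zero h8)
        linarith
    · have h2 : ((a : ℂ) - σ) ≠ 0 := sub_ne_zero.2 (by exact_mod_cast h1)
      obtain ⟨ρ, hρ⟩ : ∃ ρ : ℂ, 1 + ((a : ℂ) - σ) * ρ = 0 :=
        ⟨-((a : ℂ) - σ)⁻¹, by rw [mul_neg, mul_inv_cancel₀ h2, add_neg_cancel]⟩
      refine (NR.of_simple (by omega) ρ ?_ ?_ ?_).symm
      · simpa [hV, cx_C, cx_X] using hρ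
      · simpa [hV, cx_C, cx_X] using h2
      · have h3 : 1 + (a : ℂ) * ρ ≠ 0 := fun h0 => by
          have h4 : (σ : ℂ) * ρ = 0 := by linear_combination h0 - hρ
          rw [(mul_eq_zero.1 h4).resolve_left hσc] at h0
          simp at h0
        simpa [hU, cx_C, cx_X] using h3
  have hb : ∀ w ∈ ball (0 : ℂ) (1 / Y),
      ‖(cx U).eval w - 1‖ ≤ 1 / 4 ∧ ‖(cx V).eval w - 1‖ ≤ 1 / 4 := fun w hw => by
    have b1 := small_mul hc8 (b := a) (by rw [Complex.norm_intCast]; linarith) hY hw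
    have b2 := small_mul hc8 (b := σ)
      (by rw [Complex.norm_intCast, abs_of_pos (by linarith)]; linarith) hY hw
    have b3 : 1 / (c : ℝ) ≤ 1 / 8 := one_div_le_one_div_of_le (by norm_num) hc'
    simp only [hU, hV, map_sub, map_pow, map_add, map_mul, map_one, cx_C, cx_X, eval_sub,
      eval_pow, eval_add, eval_mul, eval_one, eval_C, eval_X]
    constructor
    · linarith [hc _ b1 (j + 1) hj]
    · rw [add_sub_cancel_left, sub_mul]
      linarith [norm_sub_le (a * w : ℂ) (σ * w)]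
  obtain ⟨r, hr⟩ : ∃ r, r = (d + 1) / 22 + 1 := ⟨_, rfl⟩
  have hYr : Y ^ (d + 1) ≤ ((z : ℝ) ^ q) ^ r := by
    calc Y ^ (d + 1) ≤ (Y ^ 22) ^ r := by
          rw [← pow_mul]; exact pow_le_pow_right₀ hY1 (by omega)
      _ ≤ _ := pow_le_pow_left₀ (by positivity)
          (((pow_le_pow_right₀ hY1 (by omega)).trans hz).trans hzb) r
  have h2q : (2 : ℝ) ^ q ≤ (z : ℝ) ^ q := pow_le_pow_left₀ (by norm_num) (by linarith) q
  have hzN : ((z ^ q : ℕ) : ℝ) = (z : ℝ) ^ q := by push_cast; rfl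
  have hzz : 0 < x ^ k * z ^ j := by
    have : (0 : ℝ) < (x ^ k * z ^ j : ℕ) := by push_cast; positivity
    exact_mod_cast this
  have key := gap (q := q) (a := A) (M := 4) (α := d + 1 + r) (β := d - r) (by omega) (by omega)
    (by omega) (z := ((z ^ q : ℕ) : ℝ)) (by rw [hzN]; linarith) (t := ((x ^ k * z ^ j : ℕ) : ℝ))
    (by exact_mod_cast hzz)
    (fun l hl => pade' (e := q) (L := 5 * A) (by omega) U V
      (by rw [coeff_zero_eq_eval_zero]; simp [hU]) (by rw [coeff_zero_eq_eval_zero]; simp [hV])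
      ((natDegree_pow_le_of_le _ (lin_natDegree a)).trans (by omega))
      ((lin_natDegree _).trans (by omega)) hY2 hqY hb hnr (by omega) hl hA
      (hz.trans (hzN ▸ hzb)) (y * s ^ j) (x ^ k * z ^ j) hzz) ?_ ?_
  · have : 4 * 3 * (d - r) ≤ 4 * q * (d - r) := by gcongr
    omega
  · rw [hzN]
    push_cast
    have hb1 : (z : ℝ) ^ q ≤ Y * (z : ℝ) ^ q := le_mul_of_one_le_left (by positivity) hY1
    calc _ = 2 ^ q * ((x : ℝ) ^ (q * k) * ((z : ℝ) ^ q) ^ j) := by ring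
      _ ≤ (z : ℝ) ^ q * ((Y * (z : ℝ) ^ q) ^ (q * k) * (Y * (z : ℝ) ^ q) ^ j) := by gcongr
      _ = Y ^ d * ((z : ℝ) ^ q) ^ (d + 1) := by rw [← pow_add, ← hd]; ring
      _ ≤ ((z : ℝ) ^ q) ^ r * ((z : ℝ) ^ q) ^ (d + 1) :=
          mul_le_mul_of_nonneg_right ((pow_le_pow_right₀ hY1 (by omega)).trans hYr)
            (by positivity)
      _ = _ := by ring
  · simp only [hU, hV, map_sub, map_pow, map_add, map_mul, map_one, aeval_X, eq_intCast,
      map_intCast]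
    push_cast at a1 ⊢
    have e6 : ((y : ℝ) * s ^ j / (x ^ k * z ^ j)) ^ q =
        (y : ℝ) ^ q * σ ^ j / (x ^ (q * k) * ((z : ℝ) ^ q) ^ j) := by
      rw [hσr, div_pow]
      congr 1 <;> ring
    rw [e6]
    have hu := (hb (1 / ((z : ℝ) ^ q) : ℝ) (by
      rw [mem_ball_zero_iff, Complex.norm_real, Real.norm_eq_abs, abs_of_pos (by positivity)]
      refine one_div_lt_one_div_of_lt (by linarith) (lt_of_lt_of_le ?_ (hz.trans hzb))
      exact lt_self_pow₀ (by linarith) (by omega))).1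
    rw [cx_real, ← Complex.ofReal_one, ← Complex.ofReal_sub, Complex.norm_real,
      Real.norm_eq_abs] at hu
    simp only [hU, map_pow, map_add, map_mul, map_one, aeval_X, eq_intCast,
      map_intCast] at hu
    have hb0 : (0 : ℝ) < (z : ℝ) ^ q := by positivity
    have hb2 : (2 : ℝ) ≤ (z : ℝ) ^ q := by linarith
    generalize (z : ℝ) ^ q = b at *
    have e7 : 1 + (a : ℝ) * (1 / b) = σ * x / b := by rw [hx']; field_simp
    have e8 : 1 + ((a : ℝ) - σ) * (1 / b) = σ * (x - 1) / b := by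
      rw [mul_sub (σ : ℝ), hx']; field_simp; ring
    rw [e7] at hu
    have e9 : (y : ℝ) ^ q * σ ^ j / (x ^ (q * k) * b ^ j) * (σ * (x - 1) / b) -
        (σ * x / b) ^ (j + 1) = -((σ * x / b) ^ (j + 1) / x ^ (d + 1)) := by
      rw [hd] at a1 ⊢
      rw [div_pow]
      field_simp
      linear_combination ((σ : ℝ) ^ (j + 1) * (x : ℝ) ^ (j + 1) * x ^ (q * k) * b ^ (j + 1)) * a1
    rw [e7, e8, e9, abs_neg, abs_of_pos (by positivity), div_mul_eq_mul_div,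
      div_le_one (by positivity)]
    have e10 : b ^ (d + 1) ≤ b ^ r * x ^ (d + 1) :=
      (pow_le_pow_left₀ hb0.le hx1 _).trans (by rw [mul_pow]; gcongr)
    apply le_of_mul_le_mul_left _ (pow_pos hb0 r)
    refine le_trans ?_ e10
    calc _ ≤ b ^ r * (b * b ^ (d - r)) := by
          gcongr
          linarith [(abs_le.1 hu).2]
      _ = _ := by rw [← pow_succ', ← pow_add]; congr 1; omega

theorem near_power (q : ℕ) (hq : 3 ≤ q) : ∃ k : ℕ, ∀ (x y n z s : ℕ) (a : ℤ), 1 ≤ s → 3 ≤ n →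
    (s : ℤ) ^ q * x = (z : ℤ) ^ q + a → (a.natAbs + s + 1) ^ k ≤ z →
      ∑ i ∈ range n, x ^ i ≠ y ^ q := by
  obtain ⟨A, hA⟩ : ∃ A, (2 * q + 2) * (2 * q + 3) + 3 = A := ⟨_, rfl⟩
  obtain ⟨n0, hn0⟩ : ∃ n0, n0 = 34 + 6 * (q * 4 * A) := ⟨_, rfl⟩
  obtain ⟨c, hc8, hc⟩ := exists_c (n0 + q)
  refine ⟨(c + 2 * q) * (30 * (5 * A) * (5 * A) + A + 2 * ((5 * n0 + 2) * q + 2 * n0 + 3)),
    fun x y n z s a hs hn hx hz => ?_⟩
  have hz' : ((|(a : ℝ)| + s + 1) ^ (c + 2 * q)) ^ (30 * (5 * A) * (5 * A) + A +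
      2 * ((5 * n0 + 2) * q + 2 * n0 + 3)) ≤ z := by
    rw [← pow_mul, ← Int.cast_abs, Int.abs_eq_natAbs]
    exact_mod_cast hz
  have hs' : (1 : ℝ) ≤ s := by exact_mod_cast hs
  have ha0 := abs_nonneg (a : ℝ)
  have hB : (2 : ℝ) ≤ |(a : ℝ)| + s + 1 := by linarith
  have b1 : |(a : ℝ)| + (s : ℝ) ^ q ≤ (|(a : ℝ)| + s + 1) ^ (2 * q) := by
    have c1 : (s : ℝ) ^ q ≤ (|(a : ℝ)| + s + 1) ^ q := by gcongr; linarith
    have c2 : |(a : ℝ)| + s + 1 ≤ (|(a : ℝ)| + s + 1) ^ q := le_self_pow₀ (by linarith) (by omega)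
    rw [two_mul, pow_add]
    nlinarith
  have b2 : c * (|(a : ℝ)| + (s : ℝ) ^ q) ≤ (|(a : ℝ)| + s + 1) ^ (c + 2 * q) := by
    rw [pow_add]
    exact mul_le_mul (nat_le_pow hB c) b1 (by positivity) (by positivity)
  have b3 : (q : ℝ) ^ 2 ≤ (|(a : ℝ)| + s + 1) ^ (c + 2 * q) := by
    refine le_trans ?_ (pow_le_pow_right₀ (by linarith) (show q * 2 ≤ c + 2 * q by omega))
    rw [pow_mul]
    exact pow_le_pow_left₀ (by positivity) (nat_le_pow hB q) 2
  have b4 : 1 ≤ (|(a : ℝ)| + s + 1) ^ (c + 2 * q) := one_le_pow₀ (by linarith)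
  generalize (|(a : ℝ)| + s + 1) ^ (c + 2 * q) = Y at *
  rcases le_or_gt n n0 with k | k
  · refine near_small (by omega) hn hs hc8 (fun u hu => hc u hu n (by omega)) b2 b3 ?_ hx
    have hz1 : (1 : ℝ) ≤ z := (one_le_pow₀ b4).trans hz'
    push_cast
    refine le_trans ((pow_le_pow_right₀ b4 ?_).trans hz') (le_self_pow₀ hz1 (by omega))
    have : (5 * n + 2) * q ≤ (5 * n0 + 2) * q := Nat.mul_le_mul_right _ (by omega)
    omega
  · exact near_large hq hs hA (hn0 ▸ k) hc8 (fun u hu j hj => hc u hu j (by omega)) b2 b3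
      ((pow_le_pow_right₀ b4 (by omega)).trans hz') hx

end Pool.Agent.P.MP_71e30e_nt
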