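import Pool.Agent.P.MP_71e30e_nt.H0

set_option autoImplicit false

/-! Roots of products of cyclotomic factors lying in one fibre of the class map. -/

namespace Pool.Agent.P.MP_71e30e_nt.Rk

open Finset NumberField Cyc nonZeroDivisors

theorem minus_card {R S : Type} [CommRing R] [CommRing S] [IsDedekindDomain R]
    [IsDedekindDomain S] [Algebra R S] [Module.Finite R S] [Module.IsTorsionFree R S]
    [Finite (ClassGroup R)] [Finite (ClassGroup S)] (h2 : Module.finrank R S = 2) {q : ℕ}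
    (hq : q.Prime) (hq2 : q ≠ 2) : ∃ H : Subgroup (ClassGroup S), Nat.card H *
      Nat.card {c : ClassGroup R // c ^ q = 1} ≤ Nat.card {c : ClassGroup S // c ^ q = 1} ∧
      ∀ I J : (Ideal S)⁰, Ideal.relNorm R I.1 = Ideal.relNorm R J.1 →
        (ClassGroup.mk0 I / ClassGroup.mk0 J) ^ q = 1 → ClassGroup.mk0 I / ClassGroup.mk0 J ∈ H := by
  let H : Subgroup (ClassGroup S) :=
    { carrier := {c | c ^ q = 1 ∧ ∃ I J : (Ideal S)⁰, Ideal.relNorm R I.1 = Ideal.relNorm R J.1 ∧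
        c = ClassGroup.mk0 I / ClassGroup.mk0 J}
      mul_mem' := by
        rintro _ _ ⟨a, I, J, e, rfl⟩ ⟨b, I', J', e', rfl⟩
        exact ⟨by rw [mul_pow, a, b, one_mul], I * I', J * J', by simp [e, e'],
          by simp [div_mul_div_comm]⟩
      one_mem' := ⟨one_pow _, 1, 1, rfl, by simp⟩
      inv_mem' := by
        rintro _ ⟨a, I, J, e, rfl⟩
        exact ⟨by rw [inv_pow, a, inv_one], J, I, e.symm, by simp⟩ }
  refine ⟨H, ?_, fun I J e a => ⟨a, I, J, e, rfl⟩⟩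
  let P := (powMonoidHom q : ClassGroup R →* ClassGroup R).ker
  let f := H.subtype.coprod ((ClassGroup.extendedHom R S).comp P.subtype)
  have h1 : Function.Injective f := (injective_iff_map_eq_one _).2 ?_
  · rw [← Nat.card_prod]
    refine Nat.card_le_card_of_injective (fun z => ⟨f (z.1, ⟨z.2.1, z.2.2⟩), ?_⟩) fun z z' e => ?_
    · rw [← map_pow, Prod.pow_mk, show z.1 ^ q = 1 from Subtype.ext z.1.2.1,
        show (⟨z.2.1, z.2.2⟩ : P) ^ q = 1 from Subtype.ext z.2.2]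
      exact map_one f
    · have := Prod.ext_iff.1 (h1 (congrArg Subtype.val e))
      exact Prod.ext this.1 (Subtype.ext (congrArg Subtype.val this.2))
  rintro ⟨⟨_, a, I, J, e, rfl⟩, d, hd⟩ h
  obtain ⟨A, rfl⟩ := ClassGroup.mk0_surjective d
  simp only [f, MonoidHom.coprod_apply, Subgroup.coe_subtype, MonoidHom.comp_apply] at h
  have h3 : ClassGroup.mk0 A ^ 2 = 1 := by
    rw [ClassGroup.extendedHom_mk0, div_mul_eq_mul_div, div_eq_one, ← map_mul,
      ClassGroup.mk0_eq_mk0_iff] at h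
    obtain ⟨b, c, hb, hc, h⟩ := h
    have h4 := congrArg (Ideal.relNorm R) h
    simp only [Submonoid.coe_mul, map_mul, Ideal.relNorm_singleton, Ideal.relNorm_algebraMap, h2,
      e] at h4
    rw [mul_comm (Ideal.relNorm R _), ← mul_assoc, mul_left_inj' (by
      rw [Ne, Ideal.zero_eq_bot, Ideal.relNorm_eq_bot_iff]
      exact nonZeroDivisors.coe_ne_zero J)] at h4
    rw [← map_pow, ← map_one ClassGroup.mk0, ClassGroup.mk0_eq_mk0_iff]
    exact ⟨Algebra.intNorm R S b, Algebra.intNorm R S c, by simpa using hb, by simpa using hc,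
      by simpa using h4⟩
  have h5 := pow_gcd_eq_one.2 ⟨h3, hd⟩
  rw [((Nat.coprime_primes Nat.prime_two hq).2 hq2.symm : Nat.gcd _ _ = 1), pow_one] at h5
  rw [h5, map_one, mul_one] at h
  exact Prod.ext (Subtype.ext h) (Subtype.ext h5)

variable {K : Type} [Field K] [NumberField K] {p q x y : ℕ} [IsCyclotomicExtension {p} ℚ K]

/-- a product of powers of cyclotomic factors -/
noncomputable def PP {O : Type} [CommRing O] (x : ℕ) {N : ℕ} (ξ : Fin N → O) (a : Fin N → ℕ) : O :=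
  ∏ c, ((x : O) - ξ c) ^ a c

/-- the root attached to two exponent vectors -/
def Rel (p q x : ℕ) {N : ℕ} (ξ : Fin N → 𝓞 K) (a b : Fin N → ℕ) (w : K) : Prop :=
  w ^ q * am K (PP x (fun c => ξ c ^ (p - 1)) a * PP x ξ b) =
    am K (PP x ξ a * PP x (fun c => ξ c ^ (p - 1)) b)

/-- a solution with few classes of exponent vectors -/
def Sol (K : Type) [Field K] [NumberField K] (p q x y v : ℕ) : Prop :=
  2 ≤ x ∧ ∑ i ∈ range p, x ^ i = y ^ q ∧ ∀ (N : ℕ) (ξ : Fin N → 𝓞 K),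
    (∀ c, IsPrimitiveRoot (ξ c) p) → ∃ f : (Fin N → ℕ) → Fin (q ^ v), ∀ a b, f a = f b →
      ∃ w, Rel p q x ξ a b w

theorem sub_ne (hp : p.Prime) (hx : 2 ≤ x) {ξ : 𝓞 K} (hξ : IsPrimitiveRoot ξ p) :
    (x : 𝓞 K) - ξ ≠ 0 := fun k => by
  have h1 := pn_sub hp (hξ.map_of_injective am_inj) x
  have h2 : 0 < ∑ i ∈ range p, x ^ i :=
    sum_pos (fun i _ => by positivity) ⟨0, mem_range.2 hp.pos⟩
  rw [← map_natCast (am K), ← map_sub, k, pn_int] at h1
  simp only [Ideal.span_singleton_zero, Ideal.absNorm_bot, Nat.cast_inj] at h1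
  omega

theorem exists_ideal' (hp : p.Prime) (hp2 : p ≠ 2) (hq : 2 ≤ q) (hx : 2 ≤ x)
    (h : ∑ i ∈ range p, x ^ i = y ^ q) {ξ : 𝓞 K} (hξ : IsPrimitiveRoot ξ p) :
    ∃ J : (Ideal (𝓞 K))⁰, Ideal.span {(x : 𝓞 K) - ξ} = J.1 ^ q ∧ Ideal.absNorm J.1 = y := by
  obtain ⟨J, hJ⟩ := exists_ideal hp hp2 hq h hξ
  refine ⟨⟨J, mem_nonZeroDivisors_of_ne_zero ?_⟩, hJ, ?_⟩
  · rintro rfl
    rw [zero_pow (by omega), Ideal.zero_eq_bot, Ideal.span_singleton_eq_bot] at hJ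
    exact sub_ne hp hx hξ hJ
  · have h1 := pn_sub hp (hξ.map_of_injective am_inj) x
    rw [← map_natCast (am K), ← map_sub, pn_int, hJ, map_pow, h] at h1
    exact Nat.pow_left_injective (n := q) (by omega) (by exact_mod_cast h1)

theorem span_PP {N : ℕ} {ξ : Fin N → 𝓞 K} {J : Fin N → (Ideal (𝓞 K))⁰}
    (h : ∀ c, Ideal.span {(x : 𝓞 K) - ξ c} = (J c).1 ^ q) (a : Fin N → ℕ) :
    Ideal.span {PP x ξ a} = (∏ c, J c ^ a c).1 ^ q := by
  simp only [PP, ← Ideal.prod_span_singleton, ← Ideal.span_singleton_pow, h, Submonoid.coe_finsetProd,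
    SubmonoidClass.coe_pow, ← prod_pow, pow_right_comm _ q]

theorem den (hp : p.Prime) (hp2 : p ≠ 2) (hq : 2 ≤ q) (hx : 2 ≤ x)
    (h : ∑ i ∈ range p, x ^ i = y ^ q) {N : ℕ} {ξ : Fin N → 𝓞 K}
    (hξ : ∀ c, IsPrimitiveRoot (ξ c) p) (e : ℕ) : ∃ I : Ideal (𝓞 K),
      Ideal.absNorm I = y ^ (2 * N * e) ∧ ∀ a b w, (∀ c, a c ≤ e) → (∀ c, b c ≤ e) →
        Rel p q x ξ a b w → Cl I w := by
  choose J hJ hJ' using fun c => exists_ideal' hp hp2 hq hx h (hξ c)
  choose L hL hL' using fun c => exists_ideal' hp hp2 hq hx h (prim_inv hp (hξ c))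
  refine ⟨(∏ c, L c ^ e).1 * (∏ c, J c ^ e).1, by
    simp [hJ', hL', ← pow_mul, ← pow_add]; ring_nf, fun a b w ha hb r z hz => ?_⟩
  have h1 := Ideal.pow_mem_pow hz q
  rw [mul_pow, ← span_PP hL, ← span_PP hJ, Ideal.span_singleton_mul_span_singleton,
    Ideal.mem_span_singleton] at h1
  have d : ∀ (ξ : Fin N → 𝓞 K) a, (∀ c, a c ≤ e) → PP x ξ a ∣ PP x ξ fun _ => e := fun ξ a k =>
    prod_dvd_prod_of_dvd _ _ fun c _ => pow_dvd_pow _ (k c)
  obtain ⟨t, ht⟩ := (mul_dvd_mul (d _ a ha) (d _ b hb)).trans h1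
  refine IsIntegral.of_pow (n := q) (by omega) ?_
  rw [mul_pow, ← map_pow, ht, map_mul, mul_comm, ← mul_assoc, r, ← map_mul]
  exact am_int _

section CM

variable [IsCMField K]

theorem conj_root (hp : p.Prime) {ξ : 𝓞 K} (hξ : ξ ^ p = 1) :
    IsCMField.ringOfIntegersComplexConj K ξ = ξ ^ (p - 1) := by
  obtain ⟨φ⟩ : Nonempty (K →+* ℂ) := inferInstance
  apply am_inj
  apply φ.injective
  have h1 : φ (am K ξ) ^ p = 1 := by rw [← map_pow, ← map_pow, hξ, map_one, map_one]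
  have h2 := IsCMField.complexEmbedding_complexConj K φ (am K ξ)
  have h3 : φ (am K ξ) * φ (am K ξ) ^ (p - 1) = 1 := by
    rw [← pow_succ', Nat.sub_add_cancel hp.one_le, h1]
  rw [map_pow, map_pow, eq_inv_of_mul_eq_one_right h3,
    Complex.inv_eq_conj (Complex.norm_eq_one_of_pow_eq_one h1 hp.ne_zero)]
  exact h2

theorem unit_root (hp : p.Prime) (hp2 : p ≠ 2) (hq : q.Prime) (hq2 : q ≠ 2) (hqp : q ≠ p)
    (ε : (𝓞 K)ˣ) : ∃ t : K, t ^ q * am K (IsCMField.ringOfIntegersComplexConj K ε) = am K ε := by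
  have : NeZero p := ⟨hp.ne_zero⟩
  have hξK := IsCyclotomicExtension.zeta_spec p ℚ K
  let τ := IsCMField.unitsMulComplexConjInv K ε
  have hτ : am K (τ : (𝓞 K)ˣ) * am K (IsCMField.ringOfIntegersComplexConj K ε) = am K ε := by
    rw [← map_mul]
    congr 1
    change ((ε * (IsCMField.unitsComplexConj K ε)⁻¹ : (𝓞 K)ˣ) : 𝓞 K) *
      (IsCMField.unitsComplexConj K ε : (𝓞 K)ˣ) = _
    rw [← Units.val_mul, inv_mul_cancel_right]
  have hfin : IsOfFinOrder (am K (τ : (𝓞 K)ˣ)) :=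
    MonoidHom.isOfFinOrder ((am K).toMonoidHom.comp (Units.coeHom _)) τ.2
  obtain ⟨r, hr⟩ := hξK.exists_neg_pow_of_isOfFinOrder (hp.odd_of_ne_two hp2) hfin
  have h2p : am K (τ : (𝓞 K)ˣ) ^ (2 * p) = 1 := by
    rw [hr, ← pow_mul, show r * (2 * p) = 2 * (p * r) by ring, pow_mul, neg_sq, ← pow_mul,
      show 2 * (p * r) = p * (2 * r) by ring, pow_mul, hξK.pow_eq_one, one_pow]
  obtain ⟨j, -, hj⟩ := Nat.exists_mul_mod_eq_one_of_coprime (k := 2 * p) (n := q)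
    (Nat.Coprime.mul_right ((Nat.coprime_primes hq Nat.prime_two).2 hq2)
      ((Nat.coprime_primes hq hp).2 hqp)) (by have := hp.two_le; omega)
  refine ⟨am K (τ : (𝓞 K)ˣ) ^ j, ?_⟩
  rw [← pow_mul, mul_comm j, ← Nat.div_add_mod (q * j) (2 * p), pow_add, pow_mul, h2p, hj, one_pow,
    one_mul, pow_one, hτ]

theorem root_of_class (hp : p.Prime) (hp2 : p ≠ 2) (hq : q.Prime) (hq2 : q ≠ 2) (hqp : q ≠ p)
    {T : 𝓞 K} {U V : (Ideal (𝓞 K))⁰} (hU : Ideal.span {T} = U.1 ^ q)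
    (hV : Ideal.span {IsCMField.ringOfIntegersComplexConj K T} = V.1 ^ q)
    (h : ClassGroup.mk0 U = ClassGroup.mk0 V) :
    ∃ w : K, w ^ q * am K (IsCMField.ringOfIntegersComplexConj K T) = am K T := by
  obtain ⟨b, c, hb, hc, h⟩ := ClassGroup.mk0_eq_mk0_iff.1 h
  have h1 := congrArg (· ^ q) h
  simp only [mul_pow, ← hU, ← hV, Ideal.span_singleton_pow, Ideal.span_singleton_mul_span_singleton,
    Ideal.span_singleton_eq_span_singleton] at h1
  obtain ⟨ε, hε⟩ := h1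
  obtain ⟨t, ht⟩ := unit_root hp hp2 hq hq2 hqp ε
  set σ := IsCMField.ringOfIntegersComplexConj K
  have hε' := congrArg σ hε
  have e : σ (σ T) = T := am_inj (IsCMField.complexConj_apply_apply K _)
  have T0 : T ≠ 0 := fun k => pow_ne_zero q (nonZeroDivisors.coe_ne_zero U) (by
    rw [← hU, k, Ideal.span_singleton_zero, Ideal.zero_eq_bot])
  simp only [map_mul, map_pow, e] at hε'
  have z : ∀ {a : 𝓞 K}, a ≠ 0 → am K a ≠ 0 ∧ am K (σ a) ≠ 0 := fun k => by simpa using k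
  have e1 := congrArg (am K) hε
  have e2 := congrArg (am K) hε'
  simp only [map_mul, map_pow] at e1 e2
  obtain ⟨s, rfl⟩ := hq.odd_of_ne_two hq2
  obtain ⟨b0, b1⟩ := z hb
  obtain ⟨T1, T2⟩ := z T0
  obtain ⟨u0, u1⟩ := z ε.ne_zero
  generalize am K (σ T) = T', am K T = T, am K (σ b) = b', am K b = b, am K (σ c) = c', am K c = c,
    am K (σ ε) = u', am K ε = u at *
  have e3 : (c * c' / (b * b')) ^ (2 * s + 1) = u * u' := by
    rw [div_pow, div_eq_iff (pow_ne_zero _ (mul_ne_zero b0 b1)), mul_pow, mul_pow]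
    apply mul_left_cancel₀ (mul_ne_zero T1 T2)
    linear_combination (-c' ^ (2 * s + 1) * T) * e1 - b ^ (2 * s + 1) * T * u * e2
  refine ⟨c / b * (t * (c * c' / (b * b'))) ^ s / u, ?_⟩
  rw [div_pow, mul_pow, pow_right_comm, mul_pow t, e3, mul_left_comm _ u, ht, div_pow, ← sq,
    ← pow_mul]
  field_simp
  linear_combination (-u ^ (2 * s)) * e1

end CM

theorem sol_of_rank (hp : p.Prime) (hp2 : p ≠ 2) (hq : q.Prime) (hq2 : q ≠ 2) (hqp : q ≠ p) {k : ℕ}
    (hk : Nat.card {c : ClassGroup (𝓞 K) // c ^ q = 1} ≤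
      q ^ k * Nat.card {c : ClassGroup (𝓞 (maximalRealSubfield K)) // c ^ q = 1})
    (hx : 2 ≤ x) (h : ∑ i ∈ range p, x ^ i = y ^ q) : Sol K p q x y k := by
  have hp3 : 2 < p := lt_of_le_of_ne hp.two_le (Ne.symm hp2)
  have : IsCMField K := IsCyclotomicExtension.Rat.isCMField K (S := {p}) ⟨p, rfl, hp3⟩
  refine ⟨hx, h, fun N ξ hξ => ?_⟩
  obtain ⟨H, h1, h2⟩ := minus_card (R := 𝓞 (maximalRealSubfield K)) (S := 𝓞 K) (by
    rw [← IsFractionRing.finrank_eq _ (maximalRealSubfield K) _ K]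
    exact Algebra.IsQuadraticExtension.finrank_eq_two _ _) hq hq2
  obtain ⟨g⟩ : Nonempty (H ↪ Fin (q ^ k)) := by
    have := Fintype.ofFinite H
    refine Function.Embedding.nonempty_of_card_le ?_
    rw [Fintype.card_fin, ← Nat.card_eq_fintype_card]
    have : Nonempty {c : ClassGroup (𝓞 (maximalRealSubfield K)) // c ^ q = 1} := ⟨⟨1, one_pow q⟩⟩
    exact Nat.le_of_mul_le_mul_right (h1.trans hk) Nat.card_pos
  choose J hJ _ using fun c => exists_ideal' hp hp2 hq.two_le hx h (hξ c)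
  set σ := IsCMField.ringOfIntegersComplexConj K
  have s1 : ∀ c, σ (x - ξ c) = x - ξ c ^ (p - 1) := fun c => by
    rw [map_sub, map_natCast, conj_root hp (hξ c).pow_eq_one]
  let L : Fin N → (Ideal (𝓞 K))⁰ := fun c => ⟨(J c).1.map σ, mem_nonZeroDivisors_of_ne_zero
    ((Ideal.map_eq_bot_iff_of_injective σ.injective).not.2 (nonZeroDivisors.coe_ne_zero (J c)))⟩
  have hL : ∀ c, Ideal.span {(x : 𝓞 K) - ξ c ^ (p - 1)} = (L c).1 ^ q := fun c => by
    rw [← Ideal.map_pow, ← hJ, Ideal.map_span, Set.image_singleton, s1]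
  have o : ∀ {a : 𝓞 K} {J : (Ideal (𝓞 K))⁰}, Ideal.span {a} = J.1 ^ q →
      ClassGroup.mk0 J ^ q = 1 := fun {a J} e => by
    rw [← map_pow]
    exact (ClassGroup.mk0_eq_one_iff (pow_mem J.2 q)).2 ⟨a, e.symm⟩
  refine ⟨fun a => g (∏ c, ⟨_, h2 (J c) (L c) (Ideal.relNorm_map_algEquiv σ _).symm (by
    rw [div_pow, o (hJ c), o (hL c), div_one])⟩ ^ a c), fun a b e => ?_⟩
  have e1 := congrArg Subtype.val (g.injective e)
  simp only [SubmonoidClass.coe_finsetProd, SubmonoidClass.coe_pow, div_pow, prod_div_distrib,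
    div_eq_div_iff_mul_eq_mul] at e1
  have s2 : σ (PP x ξ a * PP x (fun c => ξ c ^ (p - 1)) b) =
      PP x (fun c => ξ c ^ (p - 1)) a * PP x ξ b := by
    have e : ∀ z, σ (σ z) = z := fun z => am_inj (IsCMField.complexConj_apply_apply K _)
    simp only [PP, map_mul, map_prod, map_pow, ← s1, e]
  unfold Rel
  rw [← s2]
  refine root_of_class hp hp2 hq hq2 hqp (U := (∏ c, J c ^ a c) * ∏ c, L c ^ b c)
    (V := (∏ c, L c ^ a c) * ∏ c, J c ^ b c) ?_ ?_ (by simpa [mul_comm] using e1)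
  · rw [← Ideal.span_singleton_mul_span_singleton, span_PP hJ, span_PP hL, ← mul_pow]
    rfl
  · rw [s2, ← Ideal.span_singleton_mul_span_singleton, span_PP hJ, span_PP hL, ← mul_pow]
    rfl

end Pool.Agent.P.MP_71e30e_nt.Rk
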