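import Pool.Agent.P.MP_71e30e_nt.R0
import Pool.Agent.P.MP_71e30e_nt.H6

set_option autoImplicit false

/-! Systems of roots with arbitrary branch patterns, and the core of the upper bound. -/

namespace Pool.Agent.P.MP_71e30e_nt.Rk

open Finset PowerSeries NumberField Cyc

section Ser

variable {R S : Type} [CommRing R] [CommRing S] {P M : ℤ⟦X⟧} {N k q : ℕ} {A : Type} [Fintype A]

/-- a combination of monomials on one branch -/
noncomputable def Gs (P M : ℤ⟦X⟧) (N : ℕ) (s w : R) (n : A → Fin k → ℕ) (σ : A → Fin q)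
    (l : A → ℤ) : R⟦X⟧ :=
  ∑ a, C (l a * w ^ (σ a : ℕ)) * Ph P M N s (n a)

theorem map_Gs (ψ : R →+* S) (s w : R) (n : A → Fin k → ℕ) (σ : A → Fin q) (l : A → ℤ) :
    map ψ (Gs P M N s w n σ l) = Gs P M N (ψ s) (ψ w) n σ l := by
  simp [Gs, map_Ph]

theorem dg_Gs (hk : k ≤ N) (w : R) (n : A → Fin k → ℕ) (σ : A → Fin q) (l : A → ℤ) :
    Dg (2 * N) (Gs P M N Polynomial.X (Polynomial.C w) n σ l) := by
  intro j
  rw [Gs, map_sum]
  refine Polynomial.natDegree_sum_le_of_forall_le _ _ fun a _ => Dg.mul ?_ (dg_Ph hk _) j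
  simpa using Dg.C (2 * N) (l a * w ^ (σ a : ℕ))

theorem nb_Gs (h : Bin q P M) (hq : 1 ≤ q) {v : ℂ} (hv : ‖v‖ = 1)
    {n : A → Fin k → ℕ} {e : ℕ} (hn : ∀ a c, n a c ≤ e) (σ : A → Fin q) {l : A → ℤ} {Λ : ℝ}
    (hl : ∀ a, |(l a : ℝ)| ≤ Λ) : Nb n1 (rho q) (Fintype.card A * Λ * (1 + 1 / q) ^ (2 * (k * e)))
      (Gs P M N Polynomial.X (Polynomial.C v) n σ l) := by
  refine (Nb.sum (rho_nonneg q) _ fun a _ => ((Nb.C _).mono (B := Λ) ?_).mul (rho_nonneg q)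
    (h.nb_Ph hq (hn a))).mono (by simp [mul_assoc])
  have := n1_C (l a * v ^ (σ a : ℕ))
  simp only [map_mul, map_intCast, map_pow, norm_mul, norm_pow, hv, one_pow, mul_one,
    Complex.norm_intCast] at this
  exact this.trans (hl a)

end Ser

variable {K : Type} [Field K] [NumberField K] {p q x y N k D : ℕ} {P M : ℤ⟦X⟧} {ζ : 𝓞 K} {ω : ℂ}
  {A : Type} [Fintype A] {n : A → Fin k → ℕ} {w : A → K} {π : (K →ₐ[ℚ] ℂ) → A → Fin q}

theorem sub_pow_ne {s : ℂ} (s1 : ‖s‖ = 1) (hx : 2 ≤ x) (m : ℕ) : (x : ℂ) - s ^ m ≠ 0 := fun k => by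
  have := congrArg norm (sub_eq_zero.1 k)
  rw [norm_pow, s1, one_pow, Complex.norm_natCast, Nat.cast_eq_one] at this
  omega

theorem norm_PP (hp : p ≠ 0) (hx : 2 ≤ x) {ξ : Fin k → ℂ} (hξ : ∀ c, ξ c ^ p = 1) (a : Fin k → ℕ) :
    ‖PP x (fun c => ξ c ^ (p - 1)) a‖ = ‖PP x ξ a‖ ∧ PP x ξ a ≠ 0 := by
  have s1 := fun c => Complex.norm_eq_one_of_pow_eq_one (hξ c) hp
  refine ⟨?_, prod_ne_zero_iff.2 fun c _ => pow_ne_zero _ (by simpa using sub_pow_ne (s1 c) hx 1)⟩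
  simp only [PP, norm_prod, norm_pow]
  refine prod_congr rfl fun c _ => ?_
  have e1 : ξ c * ξ c ^ (p - 1) = 1 := by rw [← pow_succ', Nat.sub_add_cancel (by omega), hξ]
  rw [eq_inv_of_mul_eq_one_right e1, Complex.inv_eq_conj (s1 c), ← Complex.conj_natCast x, ← map_sub,
    Complex.norm_conj, Complex.conj_natCast]

theorem ev_Ph (hp : p ≠ 0) {s : ℂ} (s2 : s ^ p = 1) (hq : 1 ≤ q) (hx : 2 ≤ x) (h : Bin q P M)
    (hk : k ≤ N) (a : Fin k → ℕ) : ev (tp q N x s) (Ph P M N s a) ^ q *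
      PP x (fun c : Fin k => (s ^ (c + 1 : ℕ)) ^ (p - 1)) a =
        PP x (fun c : Fin k => s ^ (c + 1 : ℕ)) a := by
  have s1 := Complex.norm_eq_one_of_pow_eq_one s2 hp
  have ht := norm_tp_le (N := N) s1 hq hx
  rw [Ph, ev_prod ht _ fun (c : Fin k) _ => (h.nc_Uc hq s1 c).pow nc_one (rho_nonneg q) (a c),
    ← prod_pow, PP, ← prod_mul_distrib]
  refine prod_congr rfl fun c _ => ?_
  rw [ev_pow (h.nc_Uc hq s1 c) ht, pow_right_comm, ← mul_pow]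
  congr 1
  have hc : (c : ℕ) < N := c.2.trans_le hk
  have h2 := congrArg (ev (tp q N x s)) (h.Uc_pow (N := N) s c)
  have e : ∀ a : ℂ, (1 - C a * X : ℂ⟦X⟧) = (1 - Polynomial.C a * Polynomial.X : Polynomial ℂ) :=
    fun a => by simp
  rw [e, e, ev_mul ((h.nc_Uc hq s1 c).pow nc_one (rho_nonneg q) q) (nb_poly _ (rho_nonneg q)) ht,
    ev_pow (h.nc_Uc hq s1 c) ht, ev_poly, ev_poly] at h2
  generalize ev (tp q N x s) (Uc P M N s c) = z at *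
  have s0 : s ≠ 0 := norm_pos_iff.1 (by rw [s1]; exact one_pos)
  have x0 : (x : ℂ) ≠ 0 := by exact_mod_cast (by omega : x ≠ 0)
  have q0 : (q : ℂ) ≠ 0 := by exact_mod_cast (by omega : q ≠ 0)
  have s3 : (s ^ (c + 1 : ℕ)) ^ (p - 1) = (s ^ (c + 1 : ℕ))⁻¹ := eq_inv_of_mul_eq_one_left (by
    rw [← pow_succ, Nat.sub_add_cancel (by omega), ← pow_mul, mul_comm, pow_mul, s2, one_pow])
  simp only [Polynomial.eval_sub, Polynomial.eval_one, Polynomial.eval_mul, Polynomial.eval_C,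
    Polynomial.eval_X, tp] at h2
  rw [pow_sub₀ s s0 hc, pow_add s N] at h2
  rw [s3]
  field_simp at h2 ⊢
  linear_combination h2

/-- the first powers of a root of unity -/
noncomputable abbrev pw (ζ : 𝓞 K) (k : ℕ) : Fin k → 𝓞 K := fun c => ζ ^ (c + 1 : ℕ)

theorem rel_val (hp : p ≠ 0) (hζ : ζ ^ p = 1) (hq : 1 ≤ q) (hω : IsPrimitiveRoot ω q) (hx : 2 ≤ x)
    (h : Bin q P M) (hk : k ≤ N) (b : Fin k → ℕ) (φ : K →ₐ[ℚ] ℂ) :
    ‖ev (tp q N x (φ (am K ζ))) (Ph P M N (φ (am K ζ)) b)‖ = 1 ∧ ∀ a u, Rel p q x (pw ζ k) a b u →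
      ∃ i : Fin q, ev (tp q N x (φ (am K ζ))) (Ph P M N (φ (am K ζ)) b) * φ u = ω ^ (i : ℕ) *
        ev (tp q N x (φ (am K ζ))) (Ph P M N (φ (am K ζ)) a) := by
  have : NeZero q := ⟨by omega⟩
  have s2 : φ (am K ζ) ^ p = 1 := by rw [← map_pow, ← map_pow, hζ, map_one, map_one]
  have e := fun a => ev_Ph (N := N) hp s2 hq hx h hk a
  have n := fun a => norm_PP hp hx (ξ := fun c : Fin k => φ (am K ζ) ^ (c + 1 : ℕ))
    (fun c => by rw [pow_right_comm, s2, one_pow]) a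
  have n0 := fun a => norm_pos_iff.1 ((norm_pos_iff.2 (n a).2).trans_eq (n a).1.symm)
  have n1 : ∀ a, ‖ev (tp q N x (φ (am K ζ))) (Ph P M N (φ (am K ζ)) a)‖ = 1 := fun a => by
    have := congrArg norm (e a)
    rw [norm_mul, norm_pow, (n a).1, mul_left_eq_self₀, norm_eq_zero] at this
    exact (pow_eq_one_iff_of_nonneg (norm_nonneg _) (by omega)).1 (this.resolve_right (n a).2)
  refine ⟨n1 b, fun a u r => ?_⟩
  have r1 := congrArg φ r
  simp only [PP, map_mul, map_pow, map_prod, map_sub, map_natCast] at r1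
  have z0 := norm_pos_iff.1 (one_pos.trans_eq (n1 a).symm)
  obtain ⟨i, hi, h5⟩ := hω.eq_pow_of_pow_eq_one (ξ := ev (tp q N x (φ (am K ζ)))
      (Ph P M N (φ (am K ζ)) b) * φ u / ev (tp q N x (φ (am K ζ))) (Ph P M N (φ (am K ζ)) a)) (by
    rw [div_pow, div_eq_one_iff_eq (pow_ne_zero _ z0), mul_pow]
    apply mul_right_cancel₀ (mul_ne_zero (n0 a) (n0 b))
    have e1 := e a
    have e2 := e b
    simp only [PP] at e1 e2 ⊢
    rw [← mul_assoc (_ ^ q), e1, ← r1, ← e2]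
    ring)
  exact ⟨⟨i, hi⟩, by rw [h5, div_mul_cancel₀ _ z0]⟩

/-- a family of elements of the field with a common denominator and their branches -/
def Sy (q x y N D : ℕ) (P M : ℤ⟦X⟧) (ζ : 𝓞 K) (ω : ℂ) (n : A → Fin k → ℕ) (w : A → K)
    (π : (K →ₐ[ℚ] ℂ) → A → Fin q) : Prop :=
  (∃ I, Ideal.absNorm I = y ^ D ∧ ∀ a, Cl I (w a)) ∧ ∀ φ : K →ₐ[ℚ] ℂ, ∃ z : ℂ, ‖z‖ = 1 ∧ ∀ a,
    z * φ (w a) = ω ^ (π φ a : ℕ) * ev (tp q N x (φ (am K ζ))) (Ph P M N (φ (am K ζ)) (n a))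

theorem Sy.pf (H : Sy q x y N D P M ζ ω n w π) (hy : y ≠ 0) {l : A → K}
    (hl : ∀ a, IsIntegral ℤ (l a)) (h0 : ∑ a, l a * w a ≠ 0) :
    1 ≤ (y : ℝ) ^ D * pn (∑ a, l a * w a) := by
  obtain ⟨I, h1, h2⟩ := H.1
  have := (Cl.sum _ fun a _ => (h2 a).int_mul (hl a)).pf
    (fun k => pow_ne_zero _ hy (by rw [← h1, k]; simp)) h0
  rwa [h1, Nat.cast_pow] at this

theorem Sy.val (H : Sy q x y N D P M ζ ω n w π) (hp : p ≠ 0) (hζ : ζ ^ p = 1) (hq : 1 ≤ q)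
    (hx : 2 ≤ x) (h : Bin q P M) {e : ℕ} (hn : ∀ a c, n a c ≤ e) (l : A → ℤ) (φ : K →ₐ[ℚ] ℂ) :
    ‖φ (∑ a, l a * w a)‖ =
      ‖ev (tp q N x (φ (am K ζ))) (Gs P M N (φ (am K ζ)) ω n (π φ) l)‖ := by
  have s1 := norm_place hp hζ φ
  have ht := norm_tp_le (N := N) s1 hq hx
  obtain ⟨z, z1, z2⟩ := H.2 φ
  rw [Gs, ev_sum ht _ fun a _ => (Nb.C _).mul (rho_nonneg q) (h.nc_Ph hq s1 (hn a)), map_sum,
    ← one_mul ‖_‖, ← z1, ← norm_mul, mul_sum]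
  congr 1
  refine sum_congr rfl fun a _ => ?_
  rw [ev_mul (Nb.C _) (h.nc_Ph hq s1 (hn a)) ht, ev_C, map_mul, mul_left_comm, z2,
    map_intCast, mul_assoc]

theorem siegel_Gs (h : Bin q P M) (hq : 1 ≤ q) (hω : ω ^ q = 1) (hk : k ≤ N) {e : ℕ}
    (hn : ∀ a c, n a c ≤ e) (T : Finset (A → Fin q))
    (hT : T.Nonempty) (L : ℕ) (hc : 4 * (T.card * (q * ((L + 1) * (2 * N * L + 1)))) ≤
      3 * Fintype.card A) : ∃ l : A → ℤ, l ≠ 0 ∧
      (∀ a, |(l a : ℝ)| ≤ (Fintype.card A * (2 ^ (2 * (k * e)) * (2 * q ^ 2) ^ L)) ^ 3) ∧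
      ∀ σ ∈ T, X ^ (L + 1) ∣ Gs P M N Polynomial.X (Polynomial.C ω) n σ l := by
  have hq' : (1 : ℝ) ≤ q := by exact_mod_cast hq
  have e1 : ∀ a j i, (coeff j (Ph P M N (Polynomial.X : Polynomial ℂ) (n a))).coeff i =
      ((coeff j (Ph P M N (Polynomial.X : Polynomial ℤ) (n a))).coeff i : ℤ) := fun a j i => by
    have := map_Ph (P := P) (M := M) (N := N) (Polynomial.mapRingHom (Int.castRingHom ℂ))
      Polynomial.X (n a)
    rw [Polynomial.coe_mapRingHom, Polynomial.map_X] at this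
    rw [← this, coeff_map, Polynomial.coe_mapRingHom, Polynomial.coeff_map, eq_intCast]
  have q1 : (1 : ℝ) ≤ 2 * q ^ 2 := by nlinarith
  obtain ⟨l, l0, l1, l2⟩ := Comp.siegel3
    (α := T × Fin q × Fin (L + 1) × Fin (2 * N * L + 1)) (β := A) (fun r a =>
      if r.1.1 a = r.2.1 then (coeff r.2.2.1 (Ph P M N Polynomial.X (n a))).coeff r.2.2.2
      else 0) (B := 2 ^ (2 * (k * e)) * (2 * q ^ 2) ^ L)
    (one_le_mul_of_one_le_of_one_le (one_le_pow₀ one_le_two) (one_le_pow₀ q1)) (fun r a => by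
      split_ifs
      swap
      · simp only [Int.cast_zero, abs_zero]
        positivity
      rw [← Complex.norm_intCast, ← e1]
      have h1 := (h.nb_Ph (N := N) hq (hn a)).coeff_le (rho_nonneg q) r.2.2.1
      rw [rho, one_div, inv_pow, ← div_eq_mul_inv, div_le_iff₀ (by positivity)] at h1
      refine (n1_coeff _ _).trans (h1.trans (mul_le_mul (pow_le_pow_left₀ (by positivity) ?_ _)
        (pow_le_pow_right₀ q1 (Nat.lt_succ_iff.1 r.2.2.1.2)) (by positivity) (by positivity)))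
      have := div_le_one_of_le₀ hq' (by positivity)
      linarith) (by simp; exact ⟨hT, hq⟩) (by simpa using hc)
  refine ⟨l, l0, l1, fun σ hσ => X_pow_dvd_iff.2 fun j hj => ?_⟩
  ext i
  by_cases hi : i < 2 * N * L + 1
  swap
  · exact Polynomial.coeff_eq_zero_of_natDegree_lt ((dg_Gs hk _ _ _ _ j).trans_lt
      ((Nat.mul_le_mul_left _ (Nat.lt_succ_iff.1 hj)).trans_lt (by omega)))
  have h2 := fun r : Fin q => congrArg (fun z : ℤ => ω ^ (r : ℕ) * z)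
    (l2 (⟨σ, hσ⟩, r, ⟨j, hj⟩, ⟨i, hi⟩))
  simp only [Int.cast_sum, Int.cast_zero, mul_zero, mul_sum] at h2
  rw [Polynomial.coeff_zero, ← sum_eq_zero fun r (_ : r ∈ univ) => h2 r, sum_comm, Gs, map_sum,
    Polynomial.finset_sum_coeff]
  refine sum_congr rfl fun a _ => ?_
  rw [sum_eq_single (σ a) (fun r _ hr => by rw [if_neg hr.symm]; simp) (by simp), if_pos rfl,
    coeff_C_mul, ← Polynomial.C_eq_intCast, ← map_pow, ← map_mul, Polynomial.coeff_C_mul, e1]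
  push_cast
  ring

theorem approx (hq : q.Prime) (hω : IsPrimitiveRoot ω q) (hx : 2 ≤ x) (hk : k ≤ N)
    {l : A → ℤ} {σ : A → Fin q} {A0 : ℝ} {L T g : ℕ} {s : ℂ}
    (s1 : ‖s‖ = 1) (a1 : A0 * (2 * q ^ 2) ^ L ≤ 2 ^ T) (a2 : ∀ v : ℂ, ‖v‖ = 1 →
      Nb n1 (rho q) A0 (Gs P M N Polynomial.X (Polynomial.C v) n σ l))
    (hL : ¬ X ^ (L + 1) ∣ Gs P M N Polynomial.X (Polynomial.C ω) n σ l)
    (h0 : ev (tp q N x s) (Gs P M N s ω n σ l) = 0) (t1 : 2 * N * L ≤ T)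
    (h2 : (2 : ℝ) ^ (T + T * q + g * T + 2) < 2 * x) :
    ∃ α, Ap ω (2 ^ T) T α ∧ ‖s - α‖ ≤ 1 / 2 ^ g := by
  classical
  have q1 := hq.one_le
  have hq' : (1 : ℝ) ≤ q := by exact_mod_cast q1
  have ω1 : ‖ω‖ = 1 := Complex.norm_eq_one_of_pow_eq_one hω.pow_eq_one hq.ne_zero
  have ex : ∃ j, coeff j (Gs P M N Polynomial.X (Polynomial.C ω) n σ l) ≠ 0 := by
    by_contra! k
    exact hL (X_pow_dvd_iff.2 fun j _ => k j)
  have j0 := Nat.find_spec ex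
  have j1 : X ^ Nat.find ex ∣ Gs P M N Polynomial.X (Polynomial.C ω) n σ l :=
    X_pow_dvd_iff.2 fun j hj => not_not.1 (Nat.find_min ex hj)
  generalize Nat.find ex = j at j0 j1
  have j2 : j ≤ L := by
    by_contra! k
    exact hL ((pow_dvd_pow _ k).trans j1)
  obtain ⟨f, e⟩ : ∃ f : Polynomial (Polynomial ℤ), ∀ v : ℂ, f.map (ew v) =
      coeff j (Gs P M N Polynomial.X (Polynomial.C v) n σ l) :=
    ⟨coeff j (Gs P M N Polynomial.X (Polynomial.C Polynomial.X) n σ l), fun v => by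
      rw [← Polynomial.coe_mapRingHom, ← coeff_map, map_Gs]
      simp [ew_X]⟩
  have r : ∀ {a b : ℝ}, 0 ≤ b → a * rho q ^ j ≤ A0 * b → a ≤ 2 ^ T * b := fun {a b} hb k => by
    rw [rho, one_div, inv_pow, ← div_eq_mul_inv, div_le_iff₀ (by positivity), mul_right_comm] at k
    refine k.trans (mul_le_mul_of_nonneg_right (le_trans (mul_le_mul_of_nonneg_left
      (pow_le_pow_right₀ (by nlinarith) j2) (a2 ω ω1).nonneg) a1) hb)
  refine near_root hq hω (one_le_pow₀ one_le_two) (f := f) (by rwa [e]) (by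
    rw [e]; exact (dg_Gs hk _ _ _ _ j).trans ((Nat.mul_le_mul_left _ j2).trans t1))
    (fun v hv => ?_) (by positivity)
    (div_le_one_of_le₀ (one_le_pow₀ one_le_two) (by positivity)) ?_
  · simpa [e] using r zero_le_one (by simpa using (a2 v hv).coeff_le (rho_nonneg q) j)
  · have s0 : s ≠ 0 := norm_pos_iff.1 (by rw [s1]; exact one_pos)
    have m : map (Polynomial.evalRingHom s) (Gs P M N Polynomial.X (Polynomial.C ω) n σ l) =
        Gs P M N s ω n σ l := by simp [map_Gs]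
    have h1 := ev_lead (m ▸ (a2 ω ω1).eval (rho_nonneg q) s1) (rho_pos q1) (norm_tp_le s1 q1 hx)
      (inv_ne_zero (mul_ne_zero (mul_ne_zero
      (pow_ne_zero _ (Nat.cast_ne_zero.2 hq.ne_zero)) (pow_ne_zero _ s0))
      (Nat.cast_ne_zero.2 (by omega)))) (L := j) (by
        simpa only [map_pow, map_X, m] using map_dvd (map (Polynomial.evalRingHom s)) j1) h0
    rw [norm_tp s1 q1, ← m, coeff_map, Polynomial.coe_evalRingHom, ← e] at h1
    refine (mul_le_mul_of_nonneg_right (r (by positivity) h1) (by positivity)).trans_lt ?_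
    rw [div_pow, one_pow, ← pow_mul, ← pow_mul, lt_div_iff₀ (by positivity)]
    rw [pow_add, pow_add, pow_add] at h2
    have x0 : (0 : ℝ) < x := by positivity
    field_simp
    linarith

variable [IsCyclotomicExtension {p} ℚ K]

theorem exists_sy (hp : p.Prime) (hp2 : p ≠ 2) (hq : 2 ≤ q) (hζ : IsPrimitiveRoot ζ p)
    (hω : IsPrimitiveRoot ω q) (hx : 2 ≤ x) (h1 : ∑ i ∈ range p, x ^ i = y ^ q) (h : Bin q P M)
    (hk : k ≤ N) (hk' : k < p) {e : ℕ} (hn : ∀ a c, n a c ≤ e) {b : Fin k → ℕ} (hb : ∀ c, b c ≤ e)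
    (r : ∀ a, Rel p q x (pw ζ k) (n a) b (w a)) :
    ∃ π, Sy q x y N (2 * k * e) P M ζ ω n w π := by
  obtain ⟨I, i1, i2⟩ := den hp hp2 hq hx h1 (ξ := pw ζ k) (fun c => hζ.pow_of_coprime _
    (Nat.coprime_of_lt_prime (by omega) (by omega) hp).symm) e
  have v := rel_val hp.ne_zero hζ.pow_eq_one (by omega) hω hx h hk b
  choose π hπ using fun φ a => (v φ).2 _ _ (r a)
  exact ⟨π, ⟨I, i1, fun a => i2 _ _ _ (hn a) hb (r a)⟩, fun φ => ⟨_, (v φ).1, hπ φ⟩⟩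

theorem runge_raw (hp : p.Prime) (q1 : 1 ≤ q) (hζ : IsPrimitiveRoot ζ p) (hx : 2 ≤ x) (hy : y ≠ 0)
    (h : Bin q P M) (H : Sy q x y N D P M ζ ω n w π) {e : ℕ} (hn : ∀ a c, n a c ≤ e) {l : A → ℤ}
    {A0 : ℝ} (a1 : 1 ≤ A0)
    (a2 : ∀ σ : A → Fin q, Nb n1 (rho q) A0 (Gs P M N Polynomial.X (Polynomial.C ω) n σ l))
    {L : ℕ} (E : Finset (K →ₐ[ℚ] ℂ))
    (hE : ∀ φ ∈ E, X ^ L ∣ Gs P M N Polynomial.X (Polynomial.C ω) n (π φ) l)
    (hz : ∑ a, l a * w a ≠ 0) :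
    1 ≤ (y : ℝ) ^ D * ((A0 * (2 / x) ^ L) ^ E.card * A0 ^ (p - 1)) := by
  have s1 := norm_place hp.ne_zero hζ.pow_eq_one
  have m : ∀ φ : K →ₐ[ℚ] ℂ, map (Polynomial.evalRingHom (φ (am K ζ)))
      (Gs P M N Polynomial.X (Polynomial.C ω) n (π φ) l) =
      Gs P M N (φ (am K ζ)) ω n (π φ) l := fun φ => by simp [map_Gs]
  have nb : ∀ φ : K →ₐ[ℚ] ℂ, Nb nc (rho q) A0 (Gs P M N (φ (am K ζ)) ω n (π φ) l) :=
    fun φ => m φ ▸ (a2 _).eval (rho_nonneg q) (s1 φ)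
  have ht := fun φ => norm_tp_le (N := N) (s1 φ) q1 hx
  have va := H.val hp.ne_zero hζ.pow_eq_one q1 hx h hn l
  have h1 := H.pf hy (fun a => isIntegral_intCast (l a)) hz
  have h2 := pn_le (z := ∑ a, l a * w a) E (a := A0 * (2 / x) ^ L) a1
    (fun φ hφ => by
      rw [va, ← norm_tp (N := N) (s1 φ) q1]
      exact ev_ord (nb φ) (rho_pos q1) (ht φ) (by
        simpa only [map_pow, map_X, m] using
          map_dvd (map (Polynomial.evalRingHom (φ (am K ζ)))) (hE φ hφ))) fun φ => by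
      rw [va]
      simpa using ev_ord (nb φ) (rho_pos q1) (ht φ) (L := 0) (by simp)
  rw [rank_eq hp] at h2
  exact h1.trans (mul_le_mul_of_nonneg_left h2 (by positivity))

theorem ub_core (hp : p.Prime) (hq : q.Prime) (hpq : p ≠ q) (hζ : IsPrimitiveRoot ζ p)
    (hω : IsPrimitiveRoot ω q) (hx : 2 ≤ x) (hy : y ≠ 0) (hy' : y ^ q ≤ (2 * x) ^ (p - 1))
    (h : Bin q P M) (H : Sy q x y N D P M ζ ω n w π) (hk : k ≤ N) {e : ℕ} (hn : ∀ a c, n a c ≤ e)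
    {l : A → ℤ} {Λ : ℝ} (hl : ∀ a, |(l a : ℝ)| ≤ Λ) {L L' T : ℕ} (E B : Finset (K →ₐ[ℚ] ℂ))
    (hE : p - 1 ≤ 4 * E.card)
    (hE' : ∀ φ ∈ E, X ^ L ∣ Gs P M N Polynomial.X (Polynomial.C ω) n (π φ) l)
    (hB : 4 * B.card < p - 1)
    (hB' : ∀ φ ∉ B, ¬ X ^ (L' + 1) ∣ Gs P M N Polynomial.X (Polynomial.C ω) n (π φ) l)
    (hL : 8 * D + q ≤ 2 * L * q) (t1 : 2 * N * L' ≤ T) (t2 : L ≤ T) (t3 : p ≤ 2 ^ T)
    (t4 : Fintype.card A * Λ * 2 ^ (2 * (k * e)) * (2 * q ^ 2) ^ L' ≤ 2 ^ T) (t5 : T ^ 2 < p - 1)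
    (t6 : 2 ^ (40 * q * T ^ 6) ≤ 2 * x) (t7 : 7 ≤ p) : False := by
  have q1 := hq.one_le
  have hq' : (1 : ℝ) ≤ q := by exact_mod_cast q1
  have q2 : (1 : ℝ) ≤ (2 * q ^ 2) ^ L' := one_le_pow₀ (by nlinarith)
  have T1 : 1 ≤ T := by
    rcases T with _ | T
    · simp at t3
      omega
    · omega
  have ω1 : ‖ω‖ = 1 := Complex.norm_eq_one_of_pow_eq_one hω.pow_eq_one hq.ne_zero
  obtain ⟨A0, a1, a2⟩ : ∃ A0 : ℝ, A0 * (2 * q ^ 2) ^ L' ≤ 2 ^ T ∧ ∀ v : ℂ, ‖v‖ = 1 →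
      ∀ σ : A → Fin q, Nb n1 (rho q) A0 (Gs P M N Polynomial.X (Polynomial.C v) n σ l) := by
    have b := fun v (hv : ‖v‖ = 1) (σ : A → Fin q) => nb_Gs (N := N) h q1 hv hn σ hl
    have b1 := (b ω ω1 fun _ => ⟨0, q1⟩).nonneg
    refine ⟨_, le_trans (mul_le_mul_of_nonneg_right (mul_le_mul_of_nonneg_left
      (pow_le_pow_left₀ (by positivity) ?_ _) (nonneg_of_mul_nonneg_left b1 (by positivity)))
      (by positivity)) t4, b⟩
    have := div_le_one_of_le₀ hq' (by positivity)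
    linarith
  have a3 : A0 ≤ 2 ^ T := le_trans (le_mul_of_one_le_right (a2 ω ω1 fun _ => ⟨0, q1⟩).nonneg q2) a1
  have t6' : ∀ m < 40 * q * T ^ 6, (2 : ℝ) ^ m < 2 * x := fun m hm =>
    (pow_lt_pow_right₀ one_lt_two hm).trans_le (by exact_mod_cast t6)
  have b0 : T ≤ T ^ 6 := Nat.le_self_pow (by norm_num) T
  have b1 : T ^ 2 ≤ T ^ 6 := Nat.pow_le_pow_right T1 (by norm_num)
  have b2 : T ^ 5 ≤ T ^ 6 := Nat.pow_le_pow_right T1 (by norm_num)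
  have b3 := Nat.mul_le_mul_left q b2
  have b4 := Nat.mul_le_mul_left q b0
  have b5 := Nat.le_mul_of_pos_left (T ^ 6) q1
  have z0 : ∑ a, l a * w a = 0 := by
    by_contra hz
    refine (runge_num q1 hx (by positivity) (one_le_pow₀ (n := T) one_le_two)
      (by exact_mod_cast hy') hE (by omega) hL (runge_raw hp q1 hζ hx hy h H hn
      (one_le_pow₀ one_le_two) (fun σ => (a2 ω ω1 σ).mono a3) E hE' hz)).not_gt ?_
    rw [show (16 : ℝ) = 2 ^ 4 by norm_num, ← pow_mul, ← pow_mul, ← pow_add]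
    exact t6' _ (by rw [mul_assoc]; omega)
  refine t5.not_ge (eg_places hp hq hpq hζ hω B hB (fun φ hφ => approx hq hω hx hk
    (norm_place hp.ne_zero hζ.pow_eq_one φ) a1 (fun v hv => a2 v hv _) (hB' φ hφ) ?_ t1
    (t6' _ ?_)) t3 rfl t7)
  · rw [← norm_eq_zero, ← H.val hp.ne_zero hζ.pow_eq_one q1 hx h hn l, z0, map_zero, norm_zero]
  · have : (5 * T + 4 + (4 * T + 1) * (q * T ^ 4)) * T =
        5 * T ^ 2 + 4 * T + 4 * (q * T ^ 6) + q * T ^ 5 := by ring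
    rw [this, mul_comm T q, mul_assoc 40]
    omega

end Pool.Agent.P.MP_71e30e_nt.Rk
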