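import Pool.Agent.P.MP_71e30e_nt.R1

set_option autoImplicit false

/-! The sum of the orders for products of roots, and the upper bound for small exponents. -/

namespace Pool.Agent.P.MP_71e30e_nt.Rk

open Cyc

section Ord

open Finset hiding coe_add coe_mul coe_sub coe_one coe_neg coe_pow
open Polynomial

variable {F : Type} [Field F] [CharZero F]

theorem lin_ne (z : F) : (1 - C z * X : F[X]) ≠ 0 := fun e => by
  simpa using congrArg (eval 0) e

theorem ind_mod {k q : ℕ} (hq : q ≠ 0) {α β : Fin k → F} {U : Fin k → PowerSeries F}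
    (hU : Br q α β U) {A : Type} [Fintype A] (n : A → Fin k → ℕ)
    (hn : Function.Injective fun a c => n a c % q) (g : A → F)
    (h : ∑ a, PowerSeries.C (g a) * ∏ c, U c ^ n a c = 0) (a : A) : g a = 0 := by
  obtain ⟨J, hJ⟩ : ∃ J, ∀ a c, n a c / q ≤ J := by
    obtain ⟨J, hJ⟩ := (Set.finite_range fun s : A × Fin k => n s.1 s.2 / q).bddAbove
    exact ⟨J, fun a c => hJ ⟨(a, c), rfl⟩⟩
  have h1 := ind_pow hq hU _ hn (fun a c => Nat.mod_lt _ (Nat.pos_of_ne_zero hq))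
    (fun a => C (g a) * ∏ c, (1 - C (α c) * X) ^ (n a c / q) * (1 - C (β c) * X) ^ (J - n a c / q))
    (by
      rw [← zero_mul (∏ c, ((1 - C (β c) * X : F[X]) : PowerSeries F) ^ J), ← h, sum_mul]
      refine sum_congr rfl fun a _ => ?_
      rw [coe_mul, coe_C, mul_assoc, mul_assoc, coe_prod', ← prod_mul_distrib, ← prod_mul_distrib]
      congr 1
      refine prod_congr rfl fun c _ => ?_
      rw [coe_mul, coe_pow, coe_pow, ← hU.1 c, mul_pow, mul_assoc (_ ^ _), ← pow_add,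
        Nat.add_sub_cancel' (hJ a c), mul_right_comm, ← pow_mul, ← pow_add, Nat.div_add_mod]) a
  exact C_eq_zero.1 ((mul_eq_zero.1 h1).resolve_right (prod_ne_zero_iff.2 fun c _ =>
    mul_ne_zero (pow_ne_zero _ (lin_ne _)) (pow_ne_zero _ (lin_ne _))))

theorem norm_ord {k q δ : ℕ} (hq : q ≠ 0) {ω : F} (hω : IsPrimitiveRoot ω q)
    {U : Fin k → PowerSeries F} {S T : Fin k → F[X]} (hS : ∀ c, (S c).natDegree ≤ δ)
    (hT : ∀ c, (T c).natDegree ≤ δ) (hT0 : ∀ c, T c ≠ 0)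
    (hU : ∀ c, U c ^ q * (T c : PowerSeries F) = S c) {A : Type} [Fintype A] (n : A → Fin k → ℕ)
    (hn' : ∀ a c, n a c < q) {μ : A → F}
    (h0 : ∀ τ : Fin k → Fin q,
      ∑ a, PowerSeries.C (μ a * ω ^ ex τ (n a)) * ∏ c, U c ^ n a c ≠ 0)
    (B : Finset (Fin k → Fin q)) (L : ℕ) (hB : ∀ τ ∈ B, PowerSeries.X ^ L ∣
      ∑ a, PowerSeries.C (μ a * ω ^ ex τ (n a)) * ∏ c, U c ^ n a c) :
    L * B.card ≤ k * (δ * q ^ k) := by
  classical
  have : NeZero q := ⟨hq⟩
  set G : (Fin k → Fin q) → PowerSeries F := fun τ =>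
    ∑ a, PowerSeries.C (μ a * ω ^ ex τ (n a)) * ∏ c, U c ^ n a c with hG
  let R : F[X] := ∏ c, T c ^ q ^ k
  have h1 : ∀ m : Fin k → ℕ, (∀ c, m c ≤ q * q ^ k) → ∃ P : F[X], P.natDegree ≤ k * (δ * q ^ k) ∧
      (P : PowerSeries F) = PowerSeries.C (∑ e : Fin k → Fin q, ω ^ ex e m) *
        (∏ c, U c ^ m c) * R := fun m hm => by
    by_cases hd : ∀ c, q ∣ m c
    · choose j hj using hd
      have hj' : ∀ c, j c ≤ q ^ k := fun c =>
        Nat.le_of_mul_le_mul_left (hj c ▸ hm c) (Nat.pos_of_ne_zero hq)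
      refine ⟨C (∑ e : Fin k → Fin q, ω ^ ex e m) * ∏ c, S c ^ j c * T c ^ (q ^ k - j c), ?_, ?_⟩
      · refine (natDegree_C_mul_le _ _).trans ((natDegree_prod_le _ _).trans
          ((sum_le_card_nsmul _ _ (δ * q ^ k) fun c _ => ?_).trans (by simp)))
        refine natDegree_mul_le.trans ((add_le_add (natDegree_pow_le_of_le _ (hS _))
          (natDegree_pow_le_of_le _ (hT _))).trans ?_)
        rw [← add_mul, Nat.add_sub_cancel' (hj' c), mul_comm]
      · rw [coe_mul, coe_C, mul_assoc]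
        congr 1
        rw [coe_prod', coe_prod', ← prod_mul_distrib]
        refine prod_congr rfl fun c _ => ?_
        rw [coe_mul, coe_pow, coe_pow, coe_pow, ← hU c, hj c, pow_mul, mul_pow, mul_assoc,
          ← pow_add, Nat.add_sub_cancel' (hj' c)]
    · push Not at hd
      obtain ⟨c, hc⟩ := hd
      refine ⟨0, by simp, ?_⟩
      have : ∑ e : Fin k → Fin q, ω ^ ex e m = 0 := by
        simp only [ex, ← prod_pow_eq_pow_sum]
        rw [← Fintype.piFinset_univ, ← prod_univ_sum (fun _ => univ)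
          (fun c (i : Fin q) => ω ^ (i * m c))]
        refine prod_eq_zero (mem_univ c) ?_
        have h3 : ω ^ m c - 1 ≠ 0 := sub_ne_zero.2 fun e => hc (hω.dvd_of_pow_eq_one _ e)
        apply mul_right_cancel₀ h3
        simp only [mul_comm _ (m c), pow_mul]
        rw [Fin.sum_univ_eq_sum_range (fun i => (ω ^ m c) ^ i) q, geom_sum_mul, ← pow_mul,
          mul_comm, pow_mul, hω.pow_eq_one]
        simp
      simp [this]
  have h2 : ∃ P : F[X], P.natDegree ≤ k * (δ * q ^ k) ∧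
      (P : PowerSeries F) = (q ^ k : ℕ) * (∏ τ, G τ) * R := by
    have e1 : ∀ e : Fin k → Fin q, ∏ τ, G τ = ∑ f : (Fin k → Fin q) → A,
        PowerSeries.C (∏ τ, μ (f τ) * ω ^ ex τ (n (f τ))) *
          (PowerSeries.C (ω ^ ex e fun c => ∑ τ, n (f τ) c) * ∏ c, U c ^ ∑ τ, n (f τ) c) := by
      intro e
      rw [← Equiv.prod_comp (Equiv.addRight e), hG, prod_univ_sum, Fintype.piFinset_univ]
      refine sum_congr rfl fun f _ => ?_
      have : (ex e fun c => ∑ τ, n (f τ) c) = ∑ τ, ex e (n (f τ)) := by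
        simp only [ex, mul_sum]
        exact sum_comm
      simp only [Equiv.coe_addRight, pow_ex_add hω.pow_eq_one, this, ← prod_pow_eq_pow_sum,
        map_prod, map_mul, prod_mul_distrib]
      rw [prod_comm]
      ring
    choose P hP hP' using fun f : (Fin k → Fin q) → A => h1 (fun c => ∑ τ, n (f τ) c) fun c =>
      (sum_le_card_nsmul _ _ q fun τ _ => (hn' _ _).le).trans (by simp [mul_comm])
    refine ⟨∑ f, C (∏ τ, μ (f τ) * ω ^ ex τ (n (f τ))) * P f, natDegree_sum_le_of_forall_le _ _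
      fun f _ => (natDegree_C_mul_le _ _).trans (hP f), ?_⟩
    have e2 : ((q ^ k : ℕ) : PowerSeries F) * ∏ τ, G τ = ∑ e : Fin k → Fin q, ∏ τ, G τ := by simp
    rw [e2, sum_congr rfl fun e _ => e1 e, sum_comm, sum_mul]
    rw [coe_sum']
    refine sum_congr rfl fun f _ => ?_
    rw [coe_mul, hP', coe_C,
      ← mul_sum, ← sum_mul, map_sum, mul_assoc, mul_assoc, mul_assoc]
  obtain ⟨P, hP, hP'⟩ := h2
  have hR : (R : PowerSeries F) ≠ 0 := by
    rw [Ne, Polynomial.coe_eq_zero_iff]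
    exact prod_ne_zero_iff.2 fun c _ => pow_ne_zero _ (hT0 c)
  have hP0 : P ≠ 0 := by
    rintro rfl
    have : CharZero (PowerSeries F) := algebraRat.charZero _
    exact mul_ne_zero (mul_ne_zero (Nat.cast_ne_zero.2 (pow_ne_zero _ hq))
      (prod_ne_zero_iff.2 fun τ _ => h0 τ)) hR hP'.symm
  have h3 : PowerSeries.X ^ (L * B.card) ∣ (P : PowerSeries F) := by
    rw [hP', pow_mul, ← prod_const]
    exact (((prod_dvd_prod_of_dvd _ _ hB).trans
      (prod_dvd_prod_of_subset _ _ _ (subset_univ B))).mul_left _).mul_right _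
  by_contra! h4
  exact hP0 (leadingCoeff_eq_zero.1 (by
    simpa using PowerSeries.X_pow_dvd_iff.1 h3 P.natDegree (by omega)))

theorem block_ord {N k q : ℕ} (hq : q.Prime) {ω : F} (hω : IsPrimitiveRoot ω q) {α β : Fin N → F}
    {U : Fin N → PowerSeries F} (hU : Br q α β U) {θ : Fin k → Fin N → ℕ} (h1 : ∀ i c, θ i c < q)
    (h2 : ∀ i, ∃ c, θ i c ≠ 0 ∧ ∀ j ≠ i, θ j c = 0) {μ : (Fin k → Fin q) → F} (hμ : μ ≠ 0)
    (B : Finset (Fin k → Fin q)) (L : ℕ) (hB : ∀ τ ∈ B, PowerSeries.X ^ L ∣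
      ∑ a, PowerSeries.C (μ a * ω ^ ex τ fun i => a i) * ∏ c, U c ^ ∑ i, a i * θ i c) :
    L * B.card ≤ k * (N * q * q ^ k) := by
  have e : ∀ a : Fin k → Fin q, ∏ c, U c ^ ∑ i, a i * θ i c =
      ∏ i, (∏ c, U c ^ θ i c) ^ (a i : ℕ) := fun a => by
    simp only [← prod_pow_eq_pow_sum, ← prod_pow, ← pow_mul, mul_comm (θ _ _)]
    exact prod_comm
  have d : ∀ (z : Fin N → F) i, (∏ c, (1 - C (z c) * X) ^ θ i c).natDegree ≤ N * q := fun z i =>
    (natDegree_prod_le _ _).trans ((sum_le_card_nsmul _ _ q fun c _ => (natDegree_pow_le_of_le _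
      (by compute_degree : _ ≤ 1)).trans (by simpa using (h1 i c).le)).trans (by simp))
  refine norm_ord hq.ne_zero hω (d α) (d β) (fun i => prod_ne_zero_iff.2 fun c _ =>
    pow_ne_zero _ (lin_ne _)) (U := fun i => ∏ c, U c ^ θ i c) (fun i => ?_) (fun a i => a i)
    (fun a i => (a i).2) (μ := μ) (fun τ h => hμ (funext fun a => ?_)) B L (by simpa [e] using hB)
  · rw [coe_prod', coe_prod', ← prod_pow, ← prod_mul_distrib]
    exact prod_congr rfl fun c _ => by rw [coe_pow, coe_pow, ← hU.1 c, mul_pow, pow_right_comm]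
  · refine (mul_eq_zero.1 (ind_mod hq.ne_zero hU (fun (a : Fin k → Fin q) c => ∑ i, a i * θ i c)
      (fun a b e => funext fun i => ?_) _ (by simpa only [e] using h) a)).resolve_right
      (pow_ne_zero _ (hω.ne_zero hq.ne_zero))
    obtain ⟨c, c1, c2⟩ := h2 i
    have e1 := congrFun e c
    simp only [sum_eq_single i (fun j _ hj => by rw [c2 j hj, mul_zero] :
      ∀ j ∈ univ, j ≠ i → (a j : ℕ) * θ j c = 0) (by simp), sum_eq_single i
      (fun j _ hj => by rw [c2 j hj, mul_zero] : ∀ j ∈ univ, j ≠ i → (b j : ℕ) * θ j c = 0)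
      (by simp)] at e1
    exact Fin.ext (Nat.ModEq.eq_of_lt_of_lt (Nat.ModEq.cancel_right_of_coprime
      (Nat.coprime_of_lt_prime c1 (h1 i c) hq) e1) (a i).2 (b i).2)

end Ord

open Finset PowerSeries NumberField

theorem PP_sum {O ι : Type} [CommRing O] (x : ℕ) {N : ℕ} (ξ : Fin N → O) (s : Finset ι)
    (a : ι → ℕ) (θ : ι → Fin N → ℕ) :
    PP x ξ (fun c => ∑ i ∈ s, a i * θ i c) = ∏ i ∈ s, PP x ξ (θ i) ^ a i := by
  simp only [PP, ← prod_pow_eq_pow_sum, ← prod_pow, ← pow_mul, mul_comm (θ _ _)]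
  exact prod_comm

variable {K : Type} [Field K] [NumberField K] {p q x y v N k : ℕ} {P M : ℤ⟦X⟧} {ζ : 𝓞 K} {ω : ℂ}

theorem rel_prod {ξ : Fin N → 𝓞 K} {θ : Fin k → Fin N → ℕ} {u : Fin k → K}
    (h : ∀ i, Rel p q x ξ (θ i) 0 (u i)) (a : Fin k → ℕ) :
    Rel p q x ξ (fun c => ∑ i, a i * θ i c) 0 (∏ i, u i ^ a i) := by
  have z : ∀ ξ : Fin N → 𝓞 K, PP x ξ 0 = 1 := fun ξ => by simp [PP]
  simp only [Rel, z, mul_one] at h
  simp only [Rel, z, mul_one, PP_sum, map_prod, map_pow, ← h, mul_pow, prod_mul_distrib, prod_pow,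
    pow_right_comm _ q]

variable [IsCyclotomicExtension {p} ℚ K]

theorem PP_ne (hp : p.Prime) (hx : 2 ≤ x) {ξ : Fin N → 𝓞 K} (hξ : ∀ c, IsPrimitiveRoot (ξ c) p)
    (a : Fin N → ℕ) : am K (PP x ξ a) ≠ 0 :=
  (map_ne_zero_iff _ am_inj).2 (prod_ne_zero_iff.2 fun c _ => pow_ne_zero _ (sub_ne hp hx (hξ c)))

theorem rel_shift (hp : p.Prime) (hx : 2 ≤ x) {ξ : Fin N → 𝓞 K}
    (hξ : ∀ c, IsPrimitiveRoot (ξ c) p) {a b θ j : Fin N → ℕ} {w : K} (h : Rel p q x ξ a b w)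
    (e : ∀ c, θ c + b c = a c + j c * q) : ∃ u, Rel p q x ξ θ 0 u := by
  have e1 : ∀ ξ : Fin N → 𝓞 K, am K (PP x ξ θ) * am K (PP x ξ b) =
      am K (PP x ξ a) * am K (PP x ξ j) ^ q := fun ξ => by
    simp only [← map_pow, ← map_mul, PP, ← prod_pow, ← prod_mul_distrib, ← pow_mul, ← pow_add, e]
  have n1 := PP_ne hp hx hξ
  have n2 := PP_ne hp hx fun c => prim_inv hp (hξ c)
  refine ⟨w * am K (PP x ξ j) / am K (PP x (fun c => ξ c ^ (p - 1)) j), ?_⟩
  have z : ∀ ξ : Fin N → 𝓞 K, PP x ξ 0 = 1 := fun ξ => by simp [PP]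
  simp only [Rel, z, mul_one, map_mul] at h ⊢
  rw [div_pow, div_mul_eq_mul_div, div_eq_iff (pow_ne_zero _ (n2 j)), mul_pow]
  apply mul_right_cancel₀ (mul_ne_zero (n1 b) (n2 b))
  have e2 := e1 ξ
  have e3 := e1 fun c => ξ c ^ (p - 1)
  generalize am K (PP x ξ j) ^ q = s, am K (PP x (fun c => ξ c ^ (p - 1)) j) ^ q = t at *
  linear_combination (w ^ q * s * am K (PP x ξ b)) * e3 + s * t * h -
    (t * am K (PP x (fun c => ξ c ^ (p - 1)) b)) * e2

theorem exists_block (hp : p.Prime) (hq : q.Prime) (h : Sol K p q x y v) {ξ : Fin N → 𝓞 K}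
    (hξ : ∀ c, IsPrimitiveRoot (ξ c) p) {i : ℕ} (hi : (i + 1) * (v + 1) ≤ N) :
    ∃ θ u, Rel p q x ξ θ 0 u ∧ (∀ c, θ c < q) ∧ (∃ c, θ c ≠ 0) ∧
      ∀ c, θ c ≠ 0 → c / (v + 1) = i := by
  obtain ⟨f, hf⟩ := h.2.2 N ξ hξ
  let g : (Fin (v + 1) → Fin q) → Fin N → ℕ := fun a c =>
    if c / (v + 1) = i then a ⟨c % (v + 1), Nat.mod_lt _ v.succ_pos⟩ else 0
  have g1 : ∀ a c, g a c < q := fun a c => by
    simp only [g]
    split_ifs
    exacts [Fin.is_lt _, hq.pos]
  obtain ⟨a, b, hab, e⟩ := Fintype.exists_ne_map_eq_of_card_lt (fun a => f (g a)) (by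
    simpa using Nat.pow_lt_pow_right hq.one_lt v.lt_succ_self)
  obtain ⟨w, hw⟩ := hf _ _ e
  obtain ⟨u, hu⟩ := rel_shift hp h.1 hξ hw
    (θ := fun c => if g b c ≤ g a c then g a c - g b c else g a c + q - g b c)
    (j := fun c => if g b c ≤ g a c then 0 else 1) fun c => by
      have := g1 b c
      split_ifs <;> omega
  refine ⟨_, u, hu, fun c => ?_, ?_, fun c hc => ?_⟩
  · have := g1 a c
    split_ifs <;> omega
  · obtain ⟨j, hj⟩ := Function.ne_iff.1 hab
    have e1 : ∀ a, g a ⟨j + (v + 1) * i, by nlinarith [j.2]⟩ = a j := fun a => by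
      simp only [g, Nat.add_mul_div_left _ _ v.succ_pos, Nat.div_eq_of_lt j.2, zero_add, if_true,
        Nat.add_mul_mod_self_left, Nat.mod_eq_of_lt j.2]
    refine ⟨⟨j + (v + 1) * i, by nlinarith [j.2]⟩, ?_⟩
    have := Fin.val_ne_of_ne hj
    have := (b j).2
    simp only [e1]
    split_ifs <;> omega
  · by_contra k
    simp [g, k] at hc

theorem ub_small (hp : p.Prime) (hq : q.Prime) (hpq : p ≠ q) (hζ : IsPrimitiveRoot ζ p)
    (hω : IsPrimitiveRoot ω q) (hy : y ≠ 0) (hy' : y ^ q ≤ (2 * x) ^ (p - 1))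
    (h : Bin q P M) (s : Sol K p q x y v) {m : ℕ} (k0 : 400 ≤ N) (k1 : N ^ 9 * p ≤ 2 ^ m)
    (k2 : q ≤ N) (k3 : m * (v + 1) ≤ N) (t5 : (N ^ 15) ^ 2 < p - 1)
    (t6 : 2 ^ (40 * q * (N ^ 15) ^ 6) ≤ 2 * x) : False := by
  classical
  have q1 := hq.one_le
  have hx := s.1
  have N1 : 1 ≤ N := by omega
  have n2 : ∀ i j, i ≤ j → N ^ i ≤ N ^ j := fun i j e => Nat.pow_le_pow_right N1 e
  have Np : N < p - 1 := lt_of_le_of_lt (by
    rw [← pow_mul]; exact Nat.le_self_pow (by norm_num) N) t5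
  have mN : m ≤ N := le_trans (Nat.le_mul_of_pos_right _ v.succ_pos) k3
  have hξ : ∀ c, IsPrimitiveRoot (pw ζ N c) p := fun c => hζ.pow_of_coprime _
    (Nat.coprime_of_lt_prime (by omega) (by omega) hp).symm
  choose! θ u r1 r2 r3 r4 using fun i (hi : i < m) => exists_block hp hq s hξ (i := i)
    ((Nat.mul_le_mul_right _ hi).trans k3)
  have v0 := rel_val hp.ne_zero hζ.pow_eq_one q1 hω hx h (le_refl N) 0
  have : Nonempty (Fin q) := ⟨⟨0, q1⟩⟩
  choose! τ hτ using fun φ i (hi : i < m) => (v0 φ).2 _ _ (r1 i hi)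
  have cP : Fintype.card (K →ₐ[ℚ] ℂ) = p - 1 := by rw [AlgHom.card, rank_eq hp]
  obtain ⟨L, hL⟩ : ∃ L, L = 8 * N ^ 2 * q := ⟨_, rfl⟩
  obtain ⟨W, hW⟩ : ∃ W, W = 2 * (q * ((L + 1) * (2 * N * L + 1))) := ⟨_, rfl⟩
  have pw' : ∀ i c, c ≤ 400 → c * N ^ i ≤ N ^ (i + 1) := fun i c hc => by
    rw [pow_succ']
    exact Nat.mul_le_mul_right _ (hc.trans k0)
  have l1 : L ≤ 8 * N ^ 3 := by
    rw [hL, pow_succ N 2, ← mul_assoc]
    exact Nat.mul_le_mul_left _ k2
  have w1 : W ≤ N ^ 9 := by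
    have e1 : L + 1 ≤ 9 * N ^ 3 := by have := Nat.one_le_pow 3 N N1; omega
    have e2 : 2 * N * L + 1 ≤ 17 * N ^ 4 := by
      have := Nat.one_le_pow 4 N N1
      have := Nat.mul_le_mul_left (2 * N) l1
      nlinarith
    rw [hW]
    exact (Nat.mul_le_mul_left _ (Nat.mul_le_mul k2 (Nat.mul_le_mul e1 e2))).trans
      (le_trans (le_of_eq (by ring)) (pw' 8 306 (by norm_num)))
  have w2 : 2 ≤ W := by
    rw [hW]
    exact Nat.le_mul_of_pos_right _ (by positivity)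
  let pt : (k : ℕ) → (K →ₐ[ℚ] ℂ) → Fin k → Fin q := fun k φ c => τ φ c
  let G : ℕ → Prop := fun k => ∃ D : Finset (K →ₐ[ℚ] ℂ), p - 1 ≤ 4 * D.card ∧
    W * (D.image (pt k)).card ≤ q ^ k
  have gN : G m := ⟨univ, by rw [card_univ, cP]; omega, by
    have := card_image_le (s := univ) (f := pt m)
    rw [card_univ, cP] at this
    exact (Nat.mul_le_mul w1 (this.trans (Nat.sub_le _ _))).trans
      (k1.trans (Nat.pow_le_pow_left hq.two_le _))⟩
  have ex' : ∃ k, G k := ⟨m, gN⟩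
  obtain ⟨D, hD, hD'⟩ := Nat.find_spec ex'
  have hk : Nat.find ex' ≤ m := Nat.find_min' ex' gN
  have hmin := fun m => Nat.find_min ex' (m := m)
  generalize Nat.find ex' = k at hD' hk hmin
  have D0 : (D.image (pt k)).Nonempty := (card_pos.1 (by omega)).image _
  obtain ⟨k, rfl⟩ : ∃ j, k = j + 1 := by
    rcases k with _ | k
    · have := Nat.mul_le_mul w2 D0.card_pos
      rw [pow_zero] at hD'
      omega
    · exact ⟨k, rfl⟩
  have im : ∀ i : Fin (k + 1), (i : ℕ) < m := fun i => i.2.trans_le hk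
  let n : (Fin (k + 1) → Fin q) → Fin N → ℕ := fun a c => ∑ i, a i * θ i c
  have hn : ∀ a c, n a c ≤ N * q * q := fun a c => (sum_le_card_nsmul _ _ (q * q) fun i _ =>
    Nat.mul_le_mul (a i).2.le (r2 i (im i) c).le).trans (by
      simpa [mul_assoc] using Nat.mul_le_mul_right _ (hk.trans mN))
  let lin : (Fin (k + 1) → Fin q) → (Fin (k + 1) → Fin q) → Fin q := fun σ a =>
    ⟨(ex σ fun i => a i) % q, Nat.mod_lt _ q1⟩
  have H : Sy q x y N (2 * N * (N * q * q)) P M ζ ω n (fun a => ∏ i : Fin (k + 1), u i ^ (a i : ℕ))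
      fun φ => lin (pt _ φ) := by
    obtain ⟨I, i1, i2⟩ := den hp (by omega) hq.two_le hx s.2.1 hξ (N * q * q)
    refine ⟨⟨I, i1, fun a => i2 _ _ _ (hn a) (fun _ => Nat.zero_le _)
      (rel_prod (fun i => r1 _ (im i)) _)⟩, fun φ => ⟨1, norm_one, fun a => ?_⟩⟩
    have s1 := norm_place hp.ne_zero hζ.pow_eq_one φ
    have ht := norm_tp_le (N := N) s1 q1 hx
    have e : Ph P M N (φ (am K ζ)) (n a) = ∏ i : Fin (k + 1),
        Ph P M N (φ (am K ζ)) (θ i) ^ (a i : ℕ) := by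
      simp only [Ph, n, ← prod_pow_eq_pow_sum, ← prod_pow, ← pow_mul, mul_comm (θ _ _)]
      exact prod_comm
    have b := fun i : Fin (k + 1) => h.nc_Ph (N := N) q1 s1 fun c => (r2 i (im i) c).le
    rw [one_mul, ← pow_eq_pow_mod _ hω.pow_eq_one, e, ev_prod ht _ fun i _ =>
      (b i).pow nc_one (rho_nonneg q) _, ex, ← prod_pow_eq_pow_sum, ← prod_mul_distrib, map_prod]
    refine prod_congr rfl fun i _ => ?_
    have := hτ φ i (im i)
    simp only [Ph, Pi.zero_apply, pow_zero, prod_const_one, ev_one, one_mul] at this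
    rw [map_pow, this, mul_pow, ev_pow (b i) ht, pow_mul, Ph]
  have cA : Fintype.card (Fin (k + 1) → Fin q) = q ^ (k + 1) := by simp
  obtain ⟨l, l0, l2, l3⟩ := siegel_Gs h q1 hω.pow_eq_one le_rfl hn _ (D0.image lin) L (by
    have := Nat.mul_le_mul_left W (card_image_le (s := D.image (pt (k + 1))) (f := lin))
    rw [cA]
    rw [hW] at hD' this
    nlinarith)
  let B : Finset (K →ₐ[ℚ] ℂ) := {φ | X ^ (N * (N * q) * q * W + 1) ∣
    Gs P M N Polynomial.X (Polynomial.C ω) n (lin (pt _ φ)) l}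
  have L1 : N * (N * q) * q * W ≤ N ^ 13 :=
    (Nat.mul_le_mul (Nat.mul_le_mul (Nat.mul_le_mul_left _ (Nat.mul_le_mul_left _ k2)) k2)
      w1).trans (le_of_eq (by ring))
  refine ub_core hp hq hpq hζ hω hx hy hy' h H le_rfl hn l2 (L := L + 1)
    (L' := N * (N * q) * q * W) D B hD
    (fun φ hφ => l3 _ (mem_image_of_mem _ (mem_image_of_mem _ hφ))) ?_
    (fun φ hφ d => hφ (mem_filter.2 ⟨mem_univ _, d⟩)) ?_ ?_ ?_ ?_ ?_ t5 t6 (by omega)
  · by_contra! hB
    have b1 : q ^ k < W * (B.image (pt k)).card := not_le.1 fun e => hmin k k.lt_succ_self ⟨B, hB, e⟩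
    have b2 : (B.image (pt k)).card ≤ (B.image (pt (k + 1))).card := by
      refine le_trans (le_of_eq ?_) (card_image_le (f := fun σ c => σ (Fin.castSucc c)))
      rw [image_image]
      rfl
    have b3 := block_ord hq hω (br_Uc (s := (2 : ℂ)) h hq.ne_zero (le_refl N) two_ne_zero
      fun i _ j _ e => Nat.pow_right_injective le_rfl (by exact_mod_cast e))
      (θ := fun i : Fin (k + 1) => θ i) (fun i => r2 i (im i)) (fun i => by
        obtain ⟨c, hc⟩ := r3 i (im i)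
        exact ⟨c, hc, fun j hj => by_contra fun e => hj (Fin.ext
          ((r4 j (im j) c e).symm.trans (r4 i (im i) c hc)))⟩)
      (μ := fun a => l a) (fun e => l0 (funext fun a => by simpa using congrFun e a))
      (B.image (pt (k + 1))) (N * (N * q) * q * W + 1) fun σ hσ => by
        obtain ⟨φ, hφ, rfl⟩ := mem_image.1 hσ
        have := map_dvd (map (Polynomial.evalRingHom 2)) (mem_filter.1 hφ).2
        rw [map_pow, map_X, map_Gs] at this
        simpa [Gs, Ph, lin, ← pow_eq_pow_mod _ hω.pow_eq_one] using this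
    have b4 := Nat.mul_le_mul_left (N * (N * q) * q) (b1.le.trans (Nat.mul_le_mul_left _ b2))
    have b5 := Nat.mul_le_mul_right (N * q * q ^ (k + 1)) (hk.trans mN)
    have b6 : 0 < (B.image (pt (k + 1))).card := by
      refine lt_of_lt_of_le (Nat.pos_of_mul_pos_left (lt_of_le_of_lt (Nat.zero_le _) b1)) b2
    rw [pow_succ] at b3 b5
    nlinarith
  · rw [hL]
    nlinarith
  · have := Nat.mul_le_mul_left (2 * N) L1
    have : 2 * N ^ 14 ≤ N ^ 15 := pw' 14 2 (by norm_num)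
    nlinarith
  · have : 9 * N ^ 3 ≤ N ^ 4 := pw' 3 9 (by norm_num)
    have := n2 4 15 (by norm_num)
    have := Nat.one_le_pow 3 N N1
    omega
  · exact (Nat.le_mul_of_pos_left _ (by positivity)).trans (k1.trans (Nat.pow_le_pow_right two_pos
      (mN.trans (Nat.le_self_pow (by norm_num) N))))
  · have e0 : q ≤ 2 ^ N := k2.trans Nat.lt_two_pow_self.le
    have e1 : ((q ^ (k + 1) : ℕ) : ℝ) ≤ 2 ^ N ^ 2 := by
      rw [sq, pow_mul]
      exact_mod_cast (Nat.pow_le_pow_left e0 _).trans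
        (Nat.pow_le_pow_right (by positivity) (hk.trans mN))
    have e2 : 2 * (q : ℝ) ^ 2 ≤ 2 ^ (3 * N) := by
      have : 2 * q ^ 2 ≤ 2 ^ (3 * N) := by
        rw [show 3 * N = N + N * 2 by ring, pow_add, pow_mul]
        exact Nat.mul_le_mul (Nat.le_self_pow (by omega) 2) (Nat.pow_le_pow_left e0 2)
      exact_mod_cast this
    have e3 : N * (N * q * q) ≤ N ^ 4 :=
      (Nat.mul_le_mul_left _ (Nat.mul_le_mul (Nat.mul_le_mul_left _ k2) k2)).trans
        (le_of_eq (by ring))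
    rw [cA]
    generalize N * (N * q * q) = m at e3
    generalize N * (N * q) * q * W = L' at L1
    refine le_trans (b := 2 ^ N ^ 2 * (2 ^ N ^ 2 * (2 ^ (2 * m) * (2 ^ (3 * N)) ^ L)) ^ 3 *
      2 ^ (2 * m) * (2 ^ (3 * N)) ^ L') (by gcongr) ?_
    simp only [← pow_mul, ← pow_add]
    refine pow_le_pow_right₀ one_le_two ?_
    have := Nat.mul_le_mul_left (3 * N) L1
    have := Nat.mul_le_mul_left (3 * N) l1
    have : 400 * N ^ 14 ≤ N ^ 15 := pw' 14 400 le_rfl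
    have := n2 2 14 (by norm_num)
    have := n2 4 14 (by norm_num)
    nlinarith

end Pool.Agent.P.MP_71e30e_nt.Rk
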