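import Pool.Agent.P.MP_71e30e_nt.R2
import Pool.Agent.P.MP_71e30e_nt.H8

set_option autoImplicit false

/-! Medium and large exponents, and fixed length and exponent. -/

namespace Pool.Agent.P.MP_71e30e_nt.Rk

open Finset PowerSeries NumberField Cyc

variable {K : Type} [Field K] [NumberField K] {p q x y v N k D : ℕ} {P M : ℤ⟦X⟧} {ζ : 𝓞 K} {ω : ℂ}
  {A : Type} [Fintype A] {n : A → Fin k → ℕ} {w : A → K} {π : (K →ₐ[ℚ] ℂ) → A → Fin q}

theorem X_dvd_Gs (h : Bin q P M) (n : A → Fin k → ℕ) (σ : A → Fin q) (l : A → ℤ) :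
    X ^ 1 ∣ Gs P M N Polynomial.X (Polynomial.C ω) n σ l ↔ ∑ a, l a * ω ^ (σ a : ℕ) = 0 := by
  rw [pow_one, X_dvd_iff, ← Polynomial.C_eq_zero (a := ∑ _, _)]
  simp [Gs, h.Ph_zero]

theorem X_sq_dvd_Gs (h : Bin q P M) (hq : q ≠ 0) (n : A → Fin k → ℕ) (σ : A → Fin q) (l : A → ℤ)
    (c : Fin k) (hd : X ^ 2 ∣ Gs P M N Polynomial.X (Polynomial.C ω) n σ l) :
    ∑ a, ((l a * n a c : ℤ) : ℂ) * ω ^ (σ a : ℕ) = 0 := by
  have h1 := congrArg (Polynomial.coeff · (N + (c + 1))) (X_pow_dvd_iff.1 hd 1 one_lt_two)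
  simp only [Gs, map_sum, coeff_C_mul, h.Ph_one, Polynomial.finset_sum_coeff,
    Polynomial.coeff_zero] at h1
  apply mul_left_cancel₀ (neg_ne_zero.2 (Nat.cast_ne_zero.2 hq : (q : ℂ) ≠ 0))
  rw [mul_zero, ← h1, mul_sum]
  refine sum_congr rfl fun a _ => ?_
  rw [← Polynomial.C_eq_intCast, ← map_pow, ← map_mul, Polynomial.coeff_C_mul,
    Polynomial.finset_sum_coeff, sum_eq_single c]
  · simp only [Polynomial.coeff_natCast_mul, Polynomial.coeff_sub, Polynomial.coeff_X_pow]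
    rw [if_neg (by omega)]
    push_cast
    ring
  · intro d _ hd
    simp only [Polynomial.coeff_natCast_mul, Polynomial.coeff_sub, Polynomial.coeff_X_pow]
    rw [if_neg (by omega), if_neg fun e => hd (Fin.ext (by omega))]
    simp
  · simp

theorem Sy.comp (H : Sy q x y N D P M ζ ω n w π) {B : Type} [Fintype B] (g : B → A) :
    Sy q x y N D P M ζ ω (fun b => n (g b)) (fun b => w (g b)) fun φ b => π φ (g b) :=
  ⟨H.1.imp fun _ h => ⟨h.1, fun _ => h.2 _⟩, fun φ => (H.2 φ).imp fun _ h => ⟨h.1, fun _ => h.2 _⟩⟩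

variable [IsCyclotomicExtension {p} ℚ K]

theorem exists_class (s : Sol K p q x y v) (hq : q ≠ 0) {ξ : Fin k → 𝓞 K}
    (hξ : ∀ c, IsPrimitiveRoot (ξ c) p) {E m : ℕ} (m0 : m ≠ 0) (hm : q ^ v * m ≤ E ^ k) :
    ∃ S : Finset (Fin k → Fin E), m ≤ S.card ∧ ∀ a ∈ S, ∀ b ∈ S,
      ∃ u, Rel p q x ξ (fun c => a c) (fun c => b c) u := by
  obtain ⟨f, hf⟩ := s.2.2 k ξ hξ
  have : Nonempty (Fin (q ^ v)) := ⟨⟨0, by positivity⟩⟩
  obtain ⟨t, ht⟩ := Fintype.exists_le_card_fiber_of_mul_le_card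
    (fun a : Fin k → Fin E => f fun c => a c) (n := m) (by simpa using hm)
  exact ⟨_, ht, fun a ha b hb => hf _ _ ((mem_filter.1 ha).2.trans (mem_filter.1 hb).2.symm)⟩

theorem rel_inj (hp : p.Prime) (hζ : IsPrimitiveRoot ζ p) (hx : 2 ≤ x)
    (hc : IsCoprime (p : ℤ) ((x : ℤ) - 1)) (hk : 2 * k < p) {a b d : Fin k → ℕ} {u : K}
    (ha : Rel p q x (pw ζ k) a d u) (hb : Rel p q x (pw ζ k) b d u) (c : Fin k) : a c ≤ b c := by
  by_contra! hab
  have hξ : ∀ c, IsPrimitiveRoot (pw ζ k c) p := fun c => hζ.pow_of_coprime _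
    (Nat.coprime_of_lt_prime (by omega) (by omega) hp).symm
  have h1 : ∏ d : Fin k, ((x - ζ ^ (d + 1 : ℕ)) ^ a d * (x - (ζ ^ (d + 1 : ℕ)) ^ (p - 1)) ^ b d) =
      ∏ d : Fin k, ((x - ζ ^ (d + 1 : ℕ)) ^ b d * (x - (ζ ^ (d + 1 : ℕ)) ^ (p - 1)) ^ a d) := by
    apply am_inj
    apply mul_right_cancel₀ (PP_ne hp hx (fun c => prim_inv hp (hξ c)) d)
    simp only [Rel, map_mul] at ha hb
    rw [prod_mul_distrib, prod_mul_distrib, map_mul, map_mul]
    change am K (PP x (pw ζ k) a) * am K (PP x (fun c => pw ζ k c ^ (p - 1)) b) * _ =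
      am K (PP x (pw ζ k) b) * am K (PP x (fun c => pw ζ k c ^ (p - 1)) a) * _
    linear_combination am K (PP x (fun c => pw ζ k c ^ (p - 1)) a) * hb -
      am K (PP x (fun c => pw ζ k c ^ (p - 1)) b) * ha
  have r : ∀ m, (ζ ^ m) ^ p = 1 := fun m => by rw [← pow_mul, mul_comm, pow_mul, hζ.pow_eq_one, one_pow]
  have h2 : ∀ d : Fin k, IsCoprime (x - ζ ^ (c + 1 : ℕ)) (x - (ζ ^ (d + 1 : ℕ)) ^ (p - 1)) :=
    fun d => cop_roots hp hζ hc (r _) (by rw [← pow_mul ζ]; exact r _) fun e => by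
      have : ζ ^ (c + 1 + (d + 1) : ℕ) = 1 := by
        rw [pow_add, e, ← pow_succ, Nat.sub_add_cancel hp.one_le, r]
      have := Nat.le_of_dvd (by omega) (hζ.dvd_of_pow_eq_one _ this)
      omega
  have h3 := pn_sub hp ((hξ c).map_of_injective am_inj) x
  rw [← map_natCast (am K), ← map_sub, pn_int, Nat.cast_inj] at h3
  have h4 := single_le_sum (f := fun i => x ^ i) (fun _ _ => Nat.zero_le _) (mem_range.2 hp.one_lt)
  rw [← h3, pow_one] at h4
  rw [← mul_prod_erase _ _ (mem_univ c), ← mul_prod_erase _ _ (mem_univ c), mul_assoc,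
    mul_assoc] at h1
  have h6 := (pow_dvd_pow _ hab).trans (Dvd.intro _ h1)
  rw [pow_succ, mul_dvd_mul_iff_left (pow_ne_zero _ (sub_ne hp hx (hξ c)))] at h6
  have h7 := IsCoprime.isUnit_of_dvd ((h2 c).pow_right.mul_right (IsCoprime.prod_right fun d hd =>
    (cop_roots hp hζ hc (r _) (r _) fun e => ne_of_mem_erase hd (Fin.ext (by
      have := hζ.pow_inj (by omega) (by omega) e
      omega))).pow_right.mul_right (h2 d).pow_right)) h6
  rw [Ideal.span_singleton_eq_top.2 h7, Ideal.absNorm_top] at h4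
  omega

theorem exists_fibre (hp : p.Prime) (hp2 : p ≠ 2) (hq : 2 ≤ q) (hζ : IsPrimitiveRoot ζ p)
    (hω : IsPrimitiveRoot ω q) (h : Bin q P M) (s : Sol K p q x y v) (hk : 2 * k < p) {E e m : ℕ}
    (hE : E ≤ e + 1) (m0 : m ≠ 0) (hm : q ^ v * m ≤ E ^ k) :
    ∃ (S : Finset (Fin k → Fin E)) (w : S → K) (π : (K →ₐ[ℚ] ℂ) → S → Fin q), m ≤ S.card ∧
      Sy q x y k (2 * k * e) P M ζ ω (fun (a : S) c => a.1 c) w π ∧ Function.Injective w := by
  obtain ⟨S, h1, h2⟩ := exists_class s (by omega) (ξ := pw ζ k) (fun c => hζ.pow_of_coprime _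
    (Nat.coprime_of_lt_prime (by omega) (by omega) hp).symm) m0 hm
  obtain ⟨b, hb⟩ := card_pos.1 ((Nat.pos_of_ne_zero m0).trans_le h1)
  choose w hw using fun a : S => h2 a a.2 b hb
  have e1 : ∀ i : Fin E, (i : ℕ) ≤ e := fun i => by omega
  obtain ⟨π, hπ⟩ := exists_sy hp hp2 hq hζ hω s.1 s.2.1 h le_rfl (by omega) (fun a c => e1 _)
    (fun c => e1 _) hw
  have c := not_dvd_sub hp hp2 hq s.2.1
  exact ⟨S, w, π, h1, hπ, fun a d e => Subtype.ext (funext fun j => Fin.ext (le_antisymm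
    (rel_inj hp hζ s.1 c hk (hw a) (e ▸ hw d) j) (rel_inj hp hζ s.1 c hk (hw d) (e ▸ hw a) j)))⟩

theorem ub_multi (hp : p.Prime) (hq : q.Prime) (hpq : p ≠ q) (hζ : IsPrimitiveRoot ζ p)
    (hω : IsPrimitiveRoot ω q) (hx : 2 ≤ x) (hy : y ≠ 0) (hy' : y ^ q ≤ (2 * x) ^ (p - 1))
    (h : Bin q P M) (H : Sy q x y k D P M ζ ω n w π) (hi : Function.Injective n)
    (hn : ∀ a c, n a c ≤ 1) (k1 : 2 * p * q ≤ Fintype.card A) (cA : Fintype.card A ≤ 2 ^ k)
    (k2 : 8 * D ≤ q) (t5 : (16 * k) ^ 2 < p - 1) (t6 : 2 ^ (40 * q * (16 * k) ^ 6) ≤ 2 * x)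
    (t7 : 7 ≤ p) : False := by
  classical
  have q1 := hq.one_le
  have cP : Fintype.card (K →ₐ[ℚ] ℂ) = p - 1 := by rw [AlgHom.card, rank_eq hp]
  have cA' : (Fintype.card A : ℝ) ≤ 2 ^ k := by exact_mod_cast cA
  have k3 := k1.trans cA
  let Z : (A → ℤ) → Finset (K →ₐ[ℚ] ℂ) := fun l => {φ | ∑ a, l a * ω ^ (π φ a : ℕ) = 0}
  have key : ∀ m, ∀ l : A → ℤ, (univ.filter fun a => l a ≠ 0).card = m → l ≠ 0 →
      (∀ a, |(l a : ℝ)| ≤ 2 ^ (9 * k)) → 4 * (Z l).card < p - 1 := fun m => by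
    induction m using Nat.strong_induction_on with
    | _ m ih =>
      intro l hm l0 l1
      by_contra! hD
      obtain ⟨a, ha⟩ := Function.ne_iff.1 l0
      obtain ⟨b, hb, hab⟩ : ∃ b, l b ≠ 0 ∧ b ≠ a := by
        by_contra! hc
        obtain ⟨φ, hφ⟩ : (Z l).Nonempty := card_pos.1 (by omega)
        have := (mem_filter.1 hφ).2
        rw [sum_eq_single a (fun b _ hb => by rw [not_not.1 (mt (hc b) hb)]; simp) (by simp)] at this
        exact mul_ne_zero (Int.cast_ne_zero.2 ha) (pow_ne_zero _ (hω.ne_zero hq.ne_zero)) this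
      obtain ⟨c, a, b, ha, hb, c0, c1⟩ : ∃ c a b, l a ≠ 0 ∧ l b ≠ 0 ∧ n a c = 0 ∧ n b c = 1 := by
        obtain ⟨c, e3⟩ := Function.ne_iff.1 (hi.ne hab)
        have e1 := hn a c
        have e2 := hn b c
        by_cases e : n a c = 0
        · exact ⟨c, a, b, ha, hb, e, by omega⟩
        · exact ⟨c, b, a, hb, ha, by omega, by omega⟩
      have hB := ih _ (hm ▸ card_lt_card (s := univ.filter fun a => l a * n a c ≠ 0)
        ⟨fun d hd => by simpa using left_ne_zero_of_mul (mem_filter.1 hd).2,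
          fun k => by simpa [c0] using k (mem_filter.2 ⟨mem_univ a, ha⟩)⟩)
        (fun a => l a * n a c) rfl (fun e => hb (by simpa [c1] using congrFun e b)) fun a => by
          rw [Int.cast_mul, abs_mul, Int.cast_natCast, Nat.abs_cast]
          exact (mul_le_of_le_one_right (abs_nonneg _) (by exact_mod_cast hn a c)).trans (l1 a)
      have k0 : 1 ≤ k := c.pos
      refine ub_core hp hq hpq hζ hω hx hy hy' h H le_rfl hn l1 (L := 1) (L' := 1) (Z l) _ hD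
        (fun φ hφ => (X_dvd_Gs h _ _ _).2 (mem_filter.1 hφ).2) hB (fun φ hφ d => hφ
          (mem_filter.2 ⟨mem_univ _, X_sq_dvd_Gs h hq.ne_zero _ _ _ c d⟩)) (by omega) (by omega)
        (by omega) ?_ ?_ t5 t6 t7
      · exact le_trans (by nlinarith) (k3.trans (Nat.pow_le_pow_right two_pos (by omega)))
      · have e : 2 * q ^ 2 ≤ 2 ^ (2 * k) := by
          rw [pow_mul']
          exact le_trans (by nlinarith) (Nat.pow_le_pow_left (le_trans (by nlinarith) k3 :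
            2 * q ≤ _) 2)
        have e' : 2 * (q : ℝ) ^ 2 ≤ 2 ^ (2 * k) := by exact_mod_cast e
        rw [pow_one]
        refine le_trans (b := 2 ^ k * 2 ^ (9 * k) * 2 ^ (2 * (k * 1)) * 2 ^ (2 * k)) (by gcongr) ?_
        rw [← pow_add, ← pow_add, ← pow_add]
        exact pow_le_pow_right₀ one_le_two (by omega)
  have : Nonempty (K →ₐ[ℚ] ℂ) := Fintype.card_pos_iff.1 (by omega)
  obtain ⟨l, l0, l1, l2⟩ := siegel_Gs h q1 hω.pow_eq_one (le_refl k) hn
    (univ.image π) (univ_nonempty.image _) 0 (by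
      have := card_image_le (s := univ) (f := π)
      rw [card_univ, cP] at this
      have := Nat.mul_le_mul_right q (this.trans (Nat.sub_le _ _))
      nlinarith)
  have := key _ l rfl l0 fun a => (l1 a).trans (le_trans
    (b := ((2 : ℝ) ^ k * (2 ^ (2 * (k * 1)) * (2 * q ^ 2) ^ 0)) ^ 3) (by gcongr) (le_of_eq (by ring)))
  rw [show Z l = univ from eq_univ_of_forall fun φ => mem_filter.2 ⟨mem_univ _,
    (X_dvd_Gs h _ _ _).1 (l2 _ (mem_image_of_mem _ (mem_univ φ)))⟩, card_univ, cP] at this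
  omega

theorem large_q (hp : p.Prime) (q1 : 1 ≤ q) (hζ : IsPrimitiveRoot ζ p)
    (hω : ω ^ q = 1) (hx : 2 ≤ x) (hy : y ≠ 0) (hy' : y ^ q ≤ (2 * x) ^ (p - 1))
    (h : Bin q P M) (H : Sy q x y N D P M ζ ω n w π) (hw : Function.Injective w) {e m g : ℕ}
    (hn : ∀ a c, n a c ≤ e) (n0 : m ≠ 0) (n1 : m ≤ p - 1) (n2 : p - 1 ≤ m * g)
    (n3 : q ^ m < Fintype.card A) (n4 : 2 * D * (p - 1) ≤ q * m) (n5 : 2 * (k * e) ≤ q) :
    x ≤ 288 * 36 ^ g := by
  classical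
  obtain ⟨E, -, hE⟩ := exists_subset_card_eq (s := (univ : Finset (K →ₐ[ℚ] ℂ))) (n := m) (by
    rwa [card_univ, AlgHom.card, rank_eq hp])
  obtain ⟨a, b, hab, e1⟩ := Fintype.exists_ne_map_eq_of_card_lt
    (fun (a : A) (φ : E) => π φ a) (by simpa [hE] using n3)
  have q0 : (0 : ℝ) < q := by positivity
  have h1 := runge_raw hp q1 hζ hx hy h (H.comp ![a, b]) (fun i => hn _) (l := ![1, -1]) (A0 := 6)
    (by norm_num) (fun σ => (nb_Gs h q1 (Complex.norm_eq_one_of_pow_eq_one hω (by omega))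
      (fun i => hn _) σ (Λ := 1) fun i => by fin_cases i <;> simp).mono (by
        have e3 := ((pow_le_pow_right₀ (le_add_of_nonneg_right (inv_nonneg.2 q0.le)) n5).trans
          Real.one_add_inv_pow_le_exp).trans Real.exp_one_lt_three.le
        rw [one_div, Fintype.card_fin]
        push_cast
        linarith)) (L := 1) E (fun φ hφ => (X_dvd_Gs h _ _ _).2 (by
      have := congrFun e1 ⟨φ, hφ⟩
      simp only at this
      simp [this])) (by simpa [← sub_eq_add_neg, sub_ne_zero] using hw.ne hab)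
  have x2 : (2 : ℝ) ≤ x := by exact_mod_cast hx
  have h2 : ((y : ℝ) ^ q) ^ (2 * D) ≤ (2 * x) ^ (q * m) := by
    have e : (y : ℝ) ^ q ≤ (2 * x) ^ (p - 1) := by exact_mod_cast hy'
    refine (pow_le_pow_left₀ (by positivity) e _).trans ?_
    rw [← pow_mul, mul_comm (p - 1)]
    exact pow_le_pow_right₀ (by linarith) n4
  have h3 : 1 ≤ (288 * 36 ^ g / x : ℝ) ^ (q * m) :=
    calc (1 : ℝ) ≤ (y ^ D * ((6 * (2 / x) ^ 1) ^ m * 6 ^ (m * g))) ^ (2 * q) :=
          one_le_pow₀ (h1.trans (by rw [hE]; gcongr; norm_num))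
      _ = (y ^ q) ^ (2 * D) * ((6 * (2 / x) ^ 1 * 6 ^ g) ^ 2) ^ (q * m) := by
          generalize (6 * (2 / x) ^ 1 : ℝ) = w
          generalize (6 : ℝ) = v
          ring
      _ ≤ (2 * x) ^ (q * m) * ((6 * (2 / x) ^ 1 * 6 ^ g) ^ 2) ^ (q * m) := by gcongr
      _ = _ := by
          rw [← mul_pow, show (36 : ℝ) = 6 ^ 2 by norm_num, pow_right_comm]
          congr 1
          field_simp
          ring
  rw [one_le_pow_iff_of_nonneg (by positivity) (Nat.mul_ne_zero (by omega) n0),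
    one_le_div (by positivity)] at h3
  exact_mod_cast h3

theorem fixed_pq (hp : p.Prime) (q3 : 3 ≤ q) (hζ : IsPrimitiveRoot ζ p) (hω : IsPrimitiveRoot ω q)
    (h : Bin q P M) (hN : p = 2 * N + 1) (N2 : 2 ≤ N) {n : A → Fin N → ℕ}
    (hi : Function.Injective n) (hn' : ∀ a c, n a c < q) (c1 : 2 * N * (q - 1) < Fintype.card A)
    (π : (K →ₐ[ℚ] ℂ) → A → Fin q) :
    ∃ B : ℝ, ∀ x y w, Sy q x y N (2 * N * (q - 1)) P M ζ ω n w π →
      2 ≤ x → y ≠ 0 → y ^ q ≤ (2 * x) ^ (p - 1) → x ≤ B := by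
  classical
  have q1 : 1 ≤ q := by omega
  have cP : Fintype.card (K →ₐ[ℚ] ℂ) = p - 1 := by rw [AlgHom.card, rank_eq hp]
  obtain ⟨E, hE⟩ : ∃ E, E = 2 * N * (q - 1) * (2 * N + 1) + 1 := ⟨_, rfl⟩
  have hn : ∀ a c, n a c ≤ q := fun a c => (hn' a c).le
  obtain ⟨l, l0, l1, l2⟩ := exists_int_sol (K := K) (ι := A × Fin E)
    (κ := (K →ₐ[ℚ] ℂ) × Fin (q - 1) × Fin (E + 2 * N + 1)) (fun a r =>
      ((if (π r.1 a.1 : ℕ) = r.2.1 + 1 then 1 else 0) - if (π r.1 a.1 : ℕ) = 0 then 1 else 0) *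
      coeff r.2.2 (X ^ (a.2 : ℕ) * Ph P M N (am K ζ) (n a.1))) (by
      simp only [Fintype.card_prod, cP, Fintype.card_fin, hN, Nat.add_sub_cancel]
      nlinarith [Nat.mul_le_mul_right E (Nat.succ_le_of_lt c1)])
  let g : (K →ₐ[ℚ] ℂ) → A → Polynomial ℂ := fun φ a =>
    ∑ i : Fin E, Polynomial.C (φ (l (a, i)) * ω ^ (π φ a : ℕ)) * Polynomial.X ^ (i : ℕ)
  let F : (K →ₐ[ℚ] ℂ) → ℂ⟦X⟧ := fun φ => ∑ a, (g φ a : ℂ⟦X⟧) * Ph P M N (φ (am K ζ)) (n a)
  have s1 := norm_place hp.ne_zero hζ.pow_eq_one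
  have nb := fun φ a => (nb_poly (g φ a) (rho_nonneg q)).mul (rho_nonneg q)
    (h.nc_Ph (N := N) q1 (s1 φ) (hn a))
  obtain ⟨Λ, a1, a2⟩ : ∃ A, 1 ≤ A ∧ ∀ φ, Nb nc (rho q) A (F φ) := by
    choose A hA using fun φ => (⟨_, Nb.sum (rho_nonneg q) _ fun a _ => nb φ a⟩ :
      ∃ A, Nb nc (rho q) A (F φ))
    have b := fun φ => single_le_sum (fun φ _ => (hA φ).nonneg) (mem_univ φ)
    exact ⟨1 + ∑ φ, A φ, le_add_of_nonneg_right (sum_nonneg fun φ _ => (hA φ).nonneg),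
      fun φ => (hA φ).mono (by linarith [b φ])⟩
  have f1 : ∀ φ, X ^ (E + 2 * N + 1) ∣ F φ := fun φ => X_pow_dvd_iff.2 fun j hj => by
    let S : ℕ → ℂ := fun r => ∑ a : A × Fin E, φ (l a) *
      ((if (π φ a.1 : ℕ) = r then 1 else 0) *
        coeff j (X ^ (a.2 : ℕ) * Ph P M N (φ (am K ζ)) (n a.1)))
    have e1 : ∀ r ∈ range q, S r = S 0 := fun r hr => by
      rcases r with _ | r
      · rfl
      have := congrArg φ (l2 (φ, ⟨r, by have := mem_range.1 hr; omega⟩, ⟨j, hj⟩))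
      rw [map_sum, map_zero] at this
      rw [← sub_eq_zero, ← sum_sub_distrib]
      refine (sum_congr rfl fun a _ => ?_).trans this
      have e := coeff_map (φ : K →+* ℂ) j (X ^ (a.2 : ℕ) * Ph P M N (am K ζ) (n a.1))
      rw [map_mul, map_pow, map_X, map_Ph] at e
      simp only [RingHom.coe_coe] at e
      simp only [map_mul, map_sub, apply_ite φ, map_one, map_zero, ← e]
      ring
    have e2 : coeff j (F φ) = ∑ r ∈ range q, ω ^ r * S r := by
      simp only [F, g, S, coe_sum', sum_mul, mul_sum, map_sum]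
      rw [sum_comm (s := range q), Fintype.sum_prod_type]
      refine sum_congr rfl fun a _ => sum_congr rfl fun i _ => ?_
      rw [sum_eq_single (π φ a : ℕ) (fun r _ hr => by simp [hr.symm])
        (fun k => absurd (mem_range.2 (π φ a).2) k),
        Polynomial.coe_mul, Polynomial.coe_C, Polynomial.coe_pow, Polynomial.coe_X, mul_assoc,
        coeff_C_mul, if_pos rfl]
      ring
    rw [e2, sum_congr rfl fun r hr => by rw [e1 r hr], ← sum_mul, hω.geom_sum_eq_zero (by omega),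
      zero_mul]
  obtain ⟨ψ⟩ : Nonempty (K →ₐ[ℚ] ℂ) := Fintype.card_pos_iff.1 (by omega)
  have s0 : ∀ φ : K →ₐ[ℚ] ℂ, φ (am K ζ) ≠ 0 := fun φ => norm_pos_iff.1 (by rw [s1]; exact one_pos)
  have f2 : ∃ j, coeff j (F ψ) ≠ 0 := by
    by_contra! k
    refine l0 (funext fun a => ?_)
    have hs : IsPrimitiveRoot (ψ (am K ζ)) p :=
      (hζ.map_of_injective am_inj).map_of_injective ψ.injective
    have e := congrArg (Polynomial.coeff · a.2) (ind_pow (by omega) (br_Uc h (by omega) le_rfl (s0 ψ)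
      fun i hi j hj e => hs.pow_inj (by omega) (by omega) e) n hi hn' (g ψ)
      (PowerSeries.ext k) a.1)
    simp only [g, Polynomial.finset_sum_coeff, Polynomial.coeff_C_mul_X_pow, Fin.val_inj,
      sum_ite_eq, mem_univ, if_true, Polynomial.coeff_zero] at e
    simpa [hω.ne_zero (by omega)] using e
  have j0 := Nat.find_spec f2
  have j1 : X ^ Nat.find f2 ∣ F ψ := X_pow_dvd_iff.2 fun j hj => not_not.1 (Nat.find_min f2 hj)
  generalize Nat.find f2 = j at j0 j1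
  refine ⟨2 * Λ / (‖coeff j (F ψ)‖ * rho q ^ j) +
    2 ^ (2 * N) * (q ^ 2) ^ E * Λ * 2 ^ (E + 2 * N + 1), fun x y w H hx hy hy' => ?_⟩
  have x0 : (0 : ℝ) < x := by positivity
  have ρ0 := rho_pos q1
  have ht := fun φ => norm_tp_le (N := N) (s1 φ) q1 hx
  obtain ⟨z, hz⟩ : ∃ z, z = ∑ a, (∑ i : Fin E, l (a, i) * tp q N x (am K ζ) ^ (i : ℕ)) * w a :=
    ⟨_, rfl⟩
  have va : ∀ φ : K →ₐ[ℚ] ℂ, ‖φ z‖ = ‖ev (tp q N x (φ (am K ζ))) (F φ)‖ := fun φ => by
    obtain ⟨t, t1, t2⟩ := H.2 φ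
    rw [ev_sum (ht φ) _ fun a _ => nb φ a, hz, map_sum, ← one_mul ‖_‖, ← t1, ← norm_mul, mul_sum]
    congr 1
    refine sum_congr rfl fun a _ => ?_
    rw [ev_mul (nb_poly _ ρ0.le) (h.nc_Ph q1 (s1 φ) (hn a)) (ht φ), ev_poly,
      Polynomial.eval_finset_sum, map_mul, mul_left_comm, t2, map_sum, sum_mul, sum_mul]
    refine sum_congr rfl fun i _ => ?_
    simp [tp]
    ring
  by_cases z0 : z = 0
  · have h1 := ev_lead (a2 ψ) ρ0 (ht ψ) (inv_ne_zero (mul_ne_zero (mul_ne_zero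
      (pow_ne_zero _ (Nat.cast_ne_zero.2 (by omega))) (pow_ne_zero _ (s0 ψ)))
      (Nat.cast_ne_zero.2 (by omega)))) j1 (by rw [← norm_eq_zero, ← va, z0, map_zero, norm_zero])
    rw [norm_tp (s1 ψ) q1, ← mul_div_assoc, le_div_iff₀ x0] at h1
    refine le_add_of_le_of_nonneg ?_ (by positivity)
    rw [le_div_iff₀ (by positivity)]
    linarith
  have t1 : ((q ^ 2 * x : ℕ) : K) * tp q N x (am K ζ) = am K ((ζ ^ N) ^ (p - 1)) := by
    have e : am K ζ ^ N * (am K ζ ^ N) ^ (p - 1) = 1 := by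
      rw [← pow_succ', Nat.sub_add_cancel hp.one_le, pow_right_comm, ← map_pow, hζ.pow_eq_one]
      simp
    have q0 : (q : K) ≠ 0 := Nat.cast_ne_zero.2 (by omega)
    have x1 : (x : K) ≠ 0 := Nat.cast_ne_zero.2 (by omega)
    rw [map_pow, map_pow, eq_inv_of_mul_eq_one_right e, tp]
    push_cast
    field_simp
  have t2 : ∑ a, (((q ^ 2 * x) ^ E : ℕ) * ∑ i : Fin E, l (a, i) * tp q N x (am K ζ) ^ (i : ℕ)) *
      w a = ((q ^ 2 * x) ^ E : ℕ) * z := by
    rw [hz, mul_sum]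
    exact sum_congr rfl fun a _ => mul_assoc _ _ _
  have h1 := H.pf hy (l := fun a => ((q ^ 2 * x) ^ E : ℕ) *
    ∑ i : Fin E, l (a, i) * tp q N x (am K ζ) ^ (i : ℕ)) (fun a => by
      rw [mul_sum]
      refine IsIntegral.sum _ fun i _ => ?_
      rw [mul_left_comm, Nat.cast_pow, ← pow_sub_mul_pow _ i.2.le, mul_assoc, ← mul_pow, t1]
      exact (l1 _).mul (((isIntegral_natCast _).pow _).mul ((am_int _).pow _)))
    (t2 ▸ mul_ne_zero (Nat.cast_ne_zero.2 (by positivity)) z0)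
  have h2 : pn z ≤ (Λ * (2 / x) ^ (E + 2 * N + 1)) ^ (p - 1) := by
    rw [← cP, ← card_univ, ← prod_const]
    refine prod_le_prod (fun _ _ => norm_nonneg _) fun φ _ => ?_
    rw [va, ← norm_tp (N := N) (s1 φ) q1]
    exact ev_ord (a2 φ) ρ0 (ht φ) (f1 φ)
  have h3 : (y : ℝ) ^ (2 * N * (q - 1)) ≤ ((2 * x) ^ (2 * N)) ^ (p - 1) := by
    rw [pow_right_comm]
    exact_mod_cast (Nat.pow_le_pow_right (by omega) (by
      rw [mul_comm]; exact Nat.mul_le_mul_right _ (Nat.sub_le _ _))).trans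
      ((pow_mul y q (2 * N)).le.trans (Nat.pow_le_pow_left hy' _))
  rw [t2, pn_mul, pn_nat, rank_eq hp] at h1
  have h4 := h1.trans (mul_le_mul h3 (mul_le_mul_of_nonneg_left h2 (by positivity))
    (mul_nonneg (by positivity) (pn_nonneg _)) (by positivity))
  rw [← mul_pow, ← mul_pow, one_le_pow_iff_of_nonneg (by positivity) (by omega)] at h4
  refine le_add_of_nonneg_of_le (by positivity) ?_
  rw [← one_le_div x0]
  refine h4.trans (le_of_eq ?_)
  push_cast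
  rw [div_pow]
  field_simp
  ring

end Pool.Agent.P.MP_71e30e_nt.Rk
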