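import Pool.Agent.P.MP_71e30e_nt.R0
import Pool.Agent.P.MP_71e30e_nt.H1

set_option autoImplicit false

/-! Logarithmic derivatives and recurrent sequences. -/

namespace Pool.Agent.P.MP_71e30e_nt.Rk

open Finset Cyc PowerSeries

variable {R : Type} [CommRing R] {k : ℕ}

/-- the geometric series in a power of the variable -/
noncomputable def geo (y : R) (m : ℕ) : R⟦X⟧ := mk fun n => if m ∣ n then y ^ (n / m) else 0

theorem geo_mul (y : R) {m : ℕ} (hm : m ≠ 0) : geo y m * (1 - C y * X ^ m) = 1 := by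
  ext n
  rw [mul_sub, mul_one, mul_comm, mul_assoc, map_sub, coeff_C_mul, coeff_X_pow_mul', coeff_one]
  simp only [geo, coeff_mk]
  by_cases h : m ≤ n
  · obtain ⟨j, rfl⟩ := Nat.exists_eq_add_of_le h
    rw [if_pos h, if_neg (by omega : ¬ m + j = 0), Nat.add_sub_cancel_left]
    simp only [Nat.dvd_add_right (dvd_refl m), Nat.add_div_left _ (Nat.pos_of_ne_zero hm)]
    split_ifs
    · rw [pow_succ', sub_self]
    · simp
  · rw [if_neg h, mul_zero, sub_zero]
    rcases n with _ | n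
    · simp
    · rw [if_neg fun e => h (Nat.le_of_dvd n.succ_pos e), if_neg n.succ_ne_zero]

/-- logarithmic derivative -/
def LD (f : Polynomial R) (g : R⟦X⟧) : Prop := X * (f.derivative : R⟦X⟧) = g * (f : R⟦X⟧)

theorem LD.mul {f f' : Polynomial R} {g g' : R⟦X⟧} (h : LD f g) (h' : LD f' g') :
    LD (f * f') (g + g') := by
  unfold LD at *
  rw [Polynomial.derivative_mul]
  push_cast
  linear_combination (f' : R⟦X⟧) * h + (f : R⟦X⟧) * h'

theorem LD.one : LD (1 : Polynomial R) 0 := by simp [LD]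

theorem LD.pow {f : Polynomial R} {g : R⟦X⟧} (h : LD f g) (n : ℕ) : LD (f ^ n) (n * g) := by
  induction n with
  | zero => simpa using LD.one
  | succ n ih => rw [pow_succ, Nat.cast_succ, add_mul, one_mul]; exact ih.mul h

theorem LD.prod {ι : Type} (s : Finset ι) {f : ι → Polynomial R} {g : ι → R⟦X⟧}
    (h : ∀ i, LD (f i) (g i)) : LD (∏ i ∈ s, f i) (∑ i ∈ s, g i) := by
  classical
  induction s using Finset.induction_on with
  | empty => simpa using LD.one
  | insert i s hi ih => rw [prod_insert hi, sum_insert hi]; exact (h i).mul ih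

/-- the product of the factors, as a polynomial -/
noncomputable def QP (x s : R) (e : ℕ) (m a b : Fin k → ℕ) : Polynomial R :=
  ∏ c, (Polynomial.C x - Polynomial.X ^ m c) ^ a c *
    (Polynomial.C s * Polynomial.X ^ (e * m c) * (Polynomial.C x * Polynomial.X ^ m c - 1)) ^ b c

/-- the logarithmic derivative of the quotient -/
noncomputable def LL (x x' : R) (m a b : Fin k → ℕ) : R⟦X⟧ :=
  ∑ c, C (((a c : R) - b c) * m c) * (geo x (m c) - geo x' (m c))

/-- the Wronskian -/
noncomputable def Wr (f g : Polynomial R) : Polynomial R :=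
  Polynomial.X * (f.derivative * g - f * g.derivative)

theorem map_QP {S : Type} [CommRing S] (f : R →+* S) (x s : R) (e : ℕ) (m a b : Fin k → ℕ) :
    (QP x s e m a b).map f = QP (f x) (f s) e m a b := by
  simp [QP, Polynomial.map_prod]

theorem map_Wr {S : Type} [CommRing S] (φ : R →+* S) (f g : Polynomial R) :
    (Wr f g).map φ = Wr (f.map φ) (g.map φ) := by
  simp [Wr, Polynomial.derivative_map]

theorem deg_QP (x s : R) (e : ℕ) {m a b : Fin k → ℕ} {E : ℕ} (h : ∀ c, m c ≤ E ∧ a c + b c ≤ 1) :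
    (QP x s e m a b).natDegree ≤ (e + 1) * (k * E) := by
  refine (Polynomial.natDegree_prod_le _ _).trans ((sum_le_card_nsmul _ _ ((e + 1) * E)
    fun c _ => ?_).trans (by simp [mul_left_comm]))
  have h1 : (Polynomial.C x - Polynomial.X ^ m c).natDegree ≤ (e + 1) * E := by
    have := (h c).1
    compute_degree!
    nlinarith
  have h2 : (Polynomial.C s * Polynomial.X ^ (e * m c) *
      (Polynomial.C x * Polynomial.X ^ m c - 1)).natDegree ≤ (e + 1) * E := by
    have := (h c).1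
    compute_degree!
    nlinarith
  refine Polynomial.natDegree_mul_le.trans ((add_le_add (Polynomial.natDegree_pow_le_of_le _ h1)
    (Polynomial.natDegree_pow_le_of_le _ h2)).trans ?_)
  rw [← add_mul]
  exact mul_le_of_le_one_left' (h c).2

theorem wr_QP {x x' : R} (hx : x * x' = 1) (s : R) {m : Fin k → ℕ} (hm : ∀ c, m c ≠ 0)
    (a b : Fin k → ℕ) : (Wr (QP x s 0 m a b) (QP x s 0 m b a) : R⟦X⟧) =
      (QP x s 0 m a b * QP x s 0 m b a : Polynomial R) * LL x x' m a b := by
  have hx' : (C x : R⟦X⟧) * C x' = 1 := by rw [← map_mul, hx, map_one]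
  have e : ∀ c, (X : R⟦X⟧) * X ^ (m c - 1) = X ^ m c := fun c => mul_pow_sub_one (hm c) _
  have h := fun a b : Fin k → ℕ => LD.prod univ fun c => LD.mul (LD.pow
    (f := Polynomial.C x - Polynomial.X ^ m c) (g := (m c : R⟦X⟧) * (1 - geo x' (m c))) (by
      simp only [LD, map_sub, Polynomial.derivative_C, Polynomial.derivative_X_pow]
      push_cast
      rw [map_natCast]
      linear_combination (-m c : R⟦X⟧) * e c + (m c * C x : R⟦X⟧) * geo_mul x' (hm c) +
        ((m c : R⟦X⟧) * geo x' (m c) * X ^ m c) * hx') (a c)) (LD.pow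
    (f := Polynomial.C s * Polynomial.X ^ (0 * m c) * (Polynomial.C x * Polynomial.X ^ m c - 1))
    (g := (m c : R⟦X⟧) * (1 - geo x (m c))) (by
      simp only [LD, zero_mul, pow_zero, mul_one, map_sub, Polynomial.derivative_C_mul,
        Polynomial.derivative_X_pow, Polynomial.derivative_one]
      push_cast
      rw [map_natCast]
      linear_combination (m c * C s * C x : R⟦X⟧) * e c -
        (m c * C s : R⟦X⟧) * geo_mul x (hm c)) (b c))
  have h1 := h a b
  have h2 := h b a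
  change LD (QP x s 0 m a b) _ at h1
  change LD (QP x s 0 m b a) _ at h2
  have h3 : LL x x' m a b = ∑ c, (a c * (m c * (1 - geo x' (m c))) + b c * (m c * (1 - geo x (m c))))
      - ∑ c, (b c * (m c * (1 - geo x' (m c))) + a c * (m c * (1 - geo x (m c)))) := by
    rw [LL, ← sum_sub_distrib]
    refine sum_congr rfl fun c _ => ?_
    simp only [map_mul, map_sub, map_natCast]
    ring
  unfold LD at h1 h2
  rw [h3, Wr]
  push_cast
  linear_combination (QP x s 0 m b a : R⟦X⟧) * h1 - (QP x s 0 m a b : R⟦X⟧) * h2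

/-- admissible multipliers and exponents -/
def Mu (q E : ℕ) (m a b : Fin k → ℕ) (c₀ : Fin k) : Prop :=
  Function.Injective m ∧ (∀ c, ¬ q ∣ m c) ∧ (∀ c, m c ≤ E ∧ a c + b c ≤ 1) ∧ a c₀ + b c₀ = 1 ∧
    ∀ c, a c + b c = 1 → m c₀ ≤ m c

variable {q E : ℕ} {m a b : Fin k → ℕ} {c₀ : Fin k}

theorem Mu.ne (h : Mu q E m a b c₀) (c : Fin k) : m c ≠ 0 := fun e => h.2.1 c (e ▸ dvd_zero q)

theorem Mu.symm (h : Mu q E m a b c₀) : Mu q E m b a c₀ := by
  simpa only [Mu, add_comm (b _)] using h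

theorem Mu.low (h : Mu q E m a b c₀) (x x' : R) : X ^ m c₀ ∣ LL x x' m a b := by
  refine X_pow_dvd_iff.2 fun n hn => ?_
  rw [LL, map_sum]
  refine sum_eq_zero fun c _ => ?_
  by_cases e : a c + b c = 1
  · have := h.2.2.2.2 c e
    rcases n with _ | n
    · simp [geo]
    · rw [coeff_C_mul]
      simp [geo, Nat.not_dvd_of_pos_of_lt n.succ_pos (by omega : n + 1 < m c)]
  · have := (h.2.2.1 c).2
    simp [show a c = 0 by omega, show b c = 0 by omega]

theorem Mu.coeff (h : Mu q E m a b c₀) (hq : q.Prime) {x x' : R} (hx : x * x' = 1) {j : ℕ}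
    (hj : j ∣ q) (h0 : coeff (j * m c₀) (LL x x' m a b) = 0) : m c₀ * ((x ^ j) ^ 2 - 1) = 0 := by
  rw [LL, map_sum, sum_eq_single c₀ (fun c _ hc => ?_) (by simp)] at h0
  · have e : x ^ j * x' ^ j = 1 := by rw [← mul_pow, hx, one_pow]
    simp only [geo, coeff_C_mul, map_sub, coeff_mk, dvd_mul_left, if_true,
      Nat.mul_div_cancel _ (Nat.pos_of_ne_zero (h.ne c₀))] at h0
    obtain ⟨e1, e2⟩ | ⟨e1, e2⟩ : a c₀ = 1 ∧ b c₀ = 0 ∨ a c₀ = 0 ∧ b c₀ = 1 := by
      have := h.2.2.2.1
      omega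
    · rw [e1, e2] at h0
      linear_combination x ^ j * h0 + m c₀ * e
    · rw [e1, e2] at h0
      linear_combination (-x ^ j) * h0 + m c₀ * e
  by_cases e : a c + b c = 1
  · have : ¬ m c ∣ j * m c₀ := fun d => hc (h.1 (le_antisymm (Nat.le_of_dvd
      (Nat.pos_of_ne_zero (h.ne _)) (((hq.coprime_iff_not_dvd.2 (h.2.1 c)).coprime_dvd_left
        hj).symm.dvd_of_dvd_mul_left d)) (h.2.2.2.2 c e)))
    rw [coeff_C_mul]
    simp [geo, this]
  · have := (h.2.2.1 c).2
    simp [show a c = 0 by omega, show b c = 0 by omega]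

theorem coeff_mul_low {n : ℕ} (F : R⟦X⟧) {L : R⟦X⟧} (h : X ^ n ∣ L) :
    coeff n (F * L) = coeff 0 F * coeff n L := by
  obtain ⟨L, rfl⟩ := h
  rw [mul_left_comm, coeff_X_pow_mul', coeff_X_pow_mul']
  simp

/-- a recurrent sequence -/
def Rc (D : Polynomial R) (d k : ℕ) (u : ℕ → R) : Prop :=
  ∀ n, k * d ≤ n → coeff n ((D : R⟦X⟧) ^ k * mk u) = 0

theorem van {A : Polynomial R} {d m : ℕ} (hA : A.natDegree ≤ d) {V : R⟦X⟧}
    (h : ∀ n, m ≤ n → coeff n V = 0) (n : ℕ) (hn : m + d ≤ n) : coeff n ((A : R⟦X⟧) * V) = 0 := by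
  rw [coeff_mul]
  refine sum_eq_zero fun i hi => ?_
  have := HasAntidiagonal.mem_antidiagonal.1 hi
  by_cases e : i.1 ≤ d
  · rw [h _ (by omega), mul_zero]
  · rw [Polynomial.coeff_coe, Polynomial.coeff_eq_zero_of_natDegree_lt (by omega), zero_mul]

variable {D : Polynomial R} {d : ℕ} {u : ℕ → R}

theorem Rc.succ (hD : D.natDegree ≤ d) (h : Rc D d k u) : Rc D d (k + 1) u := fun n hn => by
  rw [pow_succ', mul_assoc]
  exact van hD h n (by rwa [← Nat.succ_mul])

theorem Rc.step (hD : D.natDegree ≤ d) (h : Rc D d k u) (θ : R) :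
    Rc D d (k + 1) fun n => (n + θ) * u n := fun n hn => by
  have e : ∀ (V : R⟦X⟧) n, coeff n (X * d⁄dX R V) = n * coeff n V := fun V n => by
    rcases n with _ | n
    · simp
    · rw [coeff_succ_X_mul, coeff_derivative, mul_comm, Nat.cast_succ]
  have e1 : (mk fun n => (n + θ) * u n) = X * d⁄dX R (PowerSeries.mk u) + C θ * PowerSeries.mk u := by
    ext n
    rw [map_add, e, coeff_C_mul, coeff_mk, coeff_mk, add_mul]
  have e2 : (D : R⟦X⟧) * d⁄dX R ((D : R⟦X⟧) ^ k) = k * D ^ k * D.derivative := by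
    rw [Derivation.leibniz_pow, derivative_coe]
    rcases k with _ | k
    · simp
    · simp only [smul_eq_mul, nsmul_eq_mul, Nat.add_sub_cancel]
      ring
  have e3 : (D : R⟦X⟧) ^ (k + 1) * (mk fun n => (n + θ) * u n) =
      (D : R⟦X⟧) * (X * d⁄dX R ((D : R⟦X⟧) ^ k * PowerSeries.mk u)) + ((Polynomial.C θ * D -
        Polynomial.C (k : R) * (Polynomial.X * D.derivative) : Polynomial R) : R⟦X⟧) *
        ((D : R⟦X⟧) ^ k * PowerSeries.mk u) := by
    rw [e1, Derivation.leibniz]
    simp only [smul_eq_mul]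
    push_cast
    rw [map_natCast]
    linear_combination (-X * mk u) * e2
  rw [Nat.succ_mul] at hn
  rw [e3, map_add, van hD (fun n hn => by rw [e, h n hn, mul_zero]) n hn, van ?_ h n hn, add_zero]
  refine (Polynomial.natDegree_sub_le _ _).trans (max_le
    ((Polynomial.natDegree_C_mul_le _ _).trans hD) ((Polynomial.natDegree_C_mul_le _ _).trans ?_))
  refine Polynomial.natDegree_le_iff_coeff_eq_zero.2 fun j hj => ?_
  obtain ⟨j, rfl⟩ := Nat.exists_eq_succ_of_ne_zero (by omega : j ≠ 0)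
  rw [Polynomial.coeff_X_mul, Polynomial.coeff_derivative,
    Polynomial.coeff_eq_zero_of_natDegree_lt (by omega), zero_mul]

theorem Rc.prod (hD : D.natDegree ≤ d) (h : Rc D d k u) {ι : Type} (s : Finset ι) (θ : ι → R) :
    Rc D d (k + s.card) fun n => (∏ i ∈ s, (n + θ i)) * u n := by
  classical
  induction s using Finset.induction_on with
  | empty => simpa using h
  | insert i s hi ih => simpa [prod_insert hi, hi, mul_assoc, ← add_assoc] using ih.step hD (θ i)

theorem Rc.shift (hD : D.natDegree ≤ d) {V : R⟦X⟧} {s : ℕ}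
    (h : ∀ n, s + d ≤ n → coeff n ((D : R⟦X⟧) * V) = 0) : Rc D d 1 fun n => coeff (n + s) V := fun n hn => by
  have e := h (n + s) (by omega)
  rw [eq_X_pow_mul_shift_add_trunc s V, mul_add, map_add, van hD (m := s) (V := trunc s V) (fun j hj => by
    rw [Polynomial.coeff_coe, coeff_trunc, if_neg (by omega)]) _ (by omega), add_zero,
    mul_left_comm, coeff_X_pow_mul] at e
  rwa [pow_one]

theorem run_zero [IsDomain R] (D0 : D ≠ 0) (hD : D.natDegree ≤ d) {ι : Type} [Fintype ι]
    {θ : ι → R} (hθ : Function.Injective θ) {u : ι → ℕ → R} {γ : R} (hu : ∀ i, Rc D d 1 (u i))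
    (hγ : Rc D d 1 fun _ => γ) (h : ∀ n < (1 + Fintype.card ι) * d, ∃ ψ : ι → R, ∑ i, ψ i = γ ∧
      ∀ i, (n + θ i) * ψ i = u i n) {n : ℕ} {i : ι} (hn : n + θ i = 0) : u i n = 0 := by
  classical
  let f : ℕ → R := fun n => ∑ i, (∏ j ∈ univ.erase i, (n + θ j)) * u i n - (∏ j, (n + θ j)) * γ
  have h1 : mk f = ∑ i, mk (fun n => (∏ j ∈ univ.erase i, (n + θ j)) * u i n) -
      mk fun n => (∏ j, (n + θ j)) * γ := by
    ext n
    simp [f]
  have h2 : (D : R⟦X⟧) ^ (1 + Fintype.card ι) * mk f = 0 := by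
    ext n
    by_cases hn : n < (1 + Fintype.card ι) * d
    · refine X_pow_dvd_iff.1 (Dvd.dvd.mul_left (X_pow_dvd_iff.2 fun n hn => ?_) _) n hn
      obtain ⟨ψ, e1, e2⟩ := h n hn
      simp only [coeff_mk, f, ← e1, ← e2, mul_sum, ← mul_assoc, prod_erase_mul _ _ (mem_univ _),
        sub_self]
    · rw [h1, mul_sub, mul_sum, map_sub, map_sum, sum_eq_zero fun i _ => ?_, map_zero, zero_sub,
        neg_eq_zero]
      · exact hγ.prod hD univ θ n (not_lt.1 hn)
      have := ((hu i).prod hD (univ.erase i) θ).succ hD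
      rw [add_assoc, card_erase_add_one (mem_univ i)] at this
      exact this n (not_lt.1 hn)
  have h3 := congrArg (coeff n) ((mul_eq_zero.1 h2).resolve_left
    (pow_ne_zero _ (by simpa using D0)))
  simp only [coeff_mk, f, map_zero] at h3
  rw [prod_eq_zero (mem_univ i) hn, zero_mul, sub_zero, sum_eq_single i (fun j _ hj => by
    rw [prod_eq_zero (mem_erase.2 ⟨hj.symm, mem_univ i⟩) hn, zero_mul]) (by simp)] at h3
  exact (mul_eq_zero.1 h3).resolve_left (prod_ne_zero_iff.2 fun j hj e =>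
    ne_of_mem_erase hj (hθ (add_left_cancel (e.trans hn.symm))))

end Pool.Agent.P.MP_71e30e_nt.Rk
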