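import Pool.Agent.P.MP_71e30e_nt.R4

set_option autoImplicit false

/-! The congruence for the base modulo the exponent. -/

namespace Pool.Agent.P.MP_71e30e_nt.Rk

open Finset Cyc Polynomial NumberField

variable {k q E : ℕ} {m a b : Fin k → ℕ} {c₀ : Fin k}

theorem exists_run (p : ℕ) {I l : ℕ} (hq : (I + 2) * l < q) : ∃ r, 1 ≤ r ∧ r + l ≤ (I + 2) * l + 1 ∧
    ∀ n < l, ∀ i ≤ I, ¬ q ∣ r + n + i * p := by
  by_contra! h
  have b : ∀ t : Fin (I + 2), t * l + l ≤ (I + 2) * l := fun t => by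
    rw [← Nat.succ_mul]
    exact Nat.mul_le_mul_right _ t.2
  choose n hn i hi e using fun t : Fin (I + 2) => h (t * l + 1) (by omega) (by have := b t; omega)
  have key : ∀ s t : Fin (I + 2), s < t → i s ≠ i t := fun s t hst k => by
    have h1 := Nat.dvd_sub (e t) (e s)
    have h2 : s * l + l ≤ t * l := by
      rw [← Nat.succ_mul]
      exact Nat.mul_le_mul_right _ hst
    have := hn s
    have := hn t
    have := b t
    rw [k] at h1
    have := Nat.le_of_dvd (by omega) h1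
    omega
  obtain ⟨s, t, hst, k⟩ := Fintype.exists_ne_map_eq_of_card_lt
    (fun t => (⟨i t, Nat.lt_succ_of_le (hi t)⟩ : Fin (I + 1))) (by simp)
  have k' : i s = i t := congrArg Fin.val k
  exact (lt_or_gt_of_ne hst).elim (fun c => key s t c k') fun c => key t s c k'.symm

theorem comb [Fact q.Prime] {p δ : ℕ} (hp : (p : ZMod q) ≠ 0) {x x' : ZMod q} (hx : x * x' = 1)
    (h : Mu q E m a b c₀) {G W Ψ : (ZMod q)[X]} (G0 : G.coeff 0 ≠ 0) (dG : G.natDegree ≤ δ)
    (dW : W.natDegree ≤ δ) (hL : (W : PowerSeries (ZMod q)) = G * LL x x' m a b)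
    (hΨ : X * derivative Ψ + G ^ (q - 1) * W = W ^ q)
    (hc : Ψ = 0 ∨ ∃ I γ, (I + 2) * ((I + 2) * (δ + 2)) < p ∧ (I + 2) * ((I + 2) * (δ + 2)) < q ∧
      ∀ r < p, ∑ i : Fin (I + 1), Ψ.coeff (r + i * p) = γ) : x ^ 2 = 1 := by
  have hq : q.Prime := Fact.out
  have m0 : (m c₀ : ZMod q) ≠ 0 := fun e => h.2.1 _ ((ZMod.natCast_eq_zero_iff _ _).1 e)
  obtain ⟨L, eL⟩ : ∃ L, L = LL x x' m a b := ⟨_, rfl⟩
  have h1 := h.low x x'
  have h2 := fun j => h.coeff hq hx (j := j)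
  rw [← eL] at hL h1 h2
  have key : ∀ n, ¬ q ∣ n → n * Ψ.coeff n +
      PowerSeries.coeff n ((expand _ q G : PowerSeries (ZMod q)) * L) = 0 := fun n hn => by
    have e := congrArg (coeff · n) hΨ
    rw [← ZMod.expand_card W] at e
    simp only [coeff_add, coeff_expand hq.pos, if_neg hn] at e
    obtain ⟨j, rfl⟩ := Nat.exists_eq_succ_of_ne_zero (fun k => hn (k ▸ dvd_zero q) : n ≠ 0)
    rw [coeff_X_mul, coeff_derivative, ← coeff_coe (G ^ (q - 1) * W), Polynomial.coe_mul, hL,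
      ← mul_assoc, ← Polynomial.coe_mul, ← pow_succ, Nat.sub_add_cancel hq.one_le, ← ZMod.expand_card] at e
    rw [← e, Nat.cast_succ, mul_comm]
  rcases hc with rfl | ⟨I, γ, c1, c2, cs⟩
  · have e := key _ (h.2.1 c₀)
    rw [coeff_mul_low _ h1, coeff_coe, coeff_expand hq.pos] at e
    have := h2 1 (one_dvd _) (by simpa [G0] using e)
    simpa [m0, sub_eq_zero] using this
  obtain ⟨r, r1, r2, r3⟩ := exists_run p c2
  have l0 : I + 2 ≤ (I + 2) * (δ + 2) := Nat.le_mul_of_pos_right _ (by omega)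
  have l1 : (I + 2) * (δ + 2) ≤ (I + 2) * ((I + 2) * (δ + 2)) := Nat.le_mul_of_pos_left _ (by omega)
  let T : ℕ → (ZMod q)[X] := fun s => expand _ q (PowerSeries.trunc (s / q + 1) G)
  have dD : (G * (1 - X)).natDegree ≤ δ + 2 :=
    natDegree_mul_le.trans (add_le_add dG (by compute_degree!))
  have a1 : Function.Injective fun i : Fin (I + 1) => ((r + i * p : ℕ) : ZMod q) := fun i j e => by
    simp only [Nat.cast_add, Nat.cast_mul, add_right_inj, mul_left_inj' hp] at e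
    rw [ZMod.natCast_eq_natCast_iff', Nat.mod_eq_of_lt (by omega), Nat.mod_eq_of_lt (by omega)] at e
    exact Fin.ext e
  have a2 : ∀ s, Rc (G * (1 - X)) (δ + 2) 1 fun n =>
      PowerSeries.coeff (n + s) (-((T s : PowerSeries _) * L)) := fun s =>
    Rc.shift dD fun n hn => by
      have e : ((G * (1 - X) : (ZMod q)[X]) : PowerSeries (ZMod q)) * -(T s * L) =
          (-(T s * ((1 - X) * W)) : (ZMod q)[X]) := by
        push_cast
        rw [hL]
        ring
      rw [e, coeff_coe, coeff_eq_zero_of_natDegree_lt]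
      rw [natDegree_neg]
      refine (natDegree_mul_le.trans (add_le_add (b := s) ?_ (natDegree_mul_le.trans
        (add_le_add (b := 1) (by compute_degree!) dW)))).trans_lt (by omega)
      rw [natDegree_expand]
      exact (Nat.mul_le_mul_right _ (Nat.le_of_lt_succ (PowerSeries.natDegree_trunc_lt _ _))).trans
        (Nat.div_mul_le_self _ _)
  have a3 : Rc (G * (1 - X)) (δ + 2) 1 fun _ => γ := fun n hn => by
    have e : ((G * (1 - X) : (ZMod q)[X]) : PowerSeries (ZMod q)) ^ 1 *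
        PowerSeries.mk (fun _ => γ) = (C γ * G : (ZMod q)[X]) := by
      have : (PowerSeries.mk fun _ => γ) = PowerSeries.C γ * PowerSeries.mk 1 := by
        ext
        simp
      push_cast
      rw [this]
      linear_combination (PowerSeries.C γ * G) * PowerSeries.mk_one_mul_one_sub_eq_one (ZMod q)
    rw [e, coeff_coe, coeff_eq_zero_of_natDegree_lt ((natDegree_C_mul_le _ _).trans_lt (by omega))]
  have a4 : ∀ s n, n < q * (s / q + 1) → PowerSeries.coeff n ((expand _ q G : PowerSeries _) * L) =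
      PowerSeries.coeff n ((T s : PowerSeries _) * L) := fun s n lt => by
    obtain ⟨g, hg⟩ : X ^ (s / q + 1) ∣ G - PowerSeries.trunc (s / q + 1) G :=
      X_pow_dvd_iff.2 fun j hj => by simp [PowerSeries.coeff_trunc, hj]
    have e := congrArg (expand _ q) hg
    rw [map_sub, map_mul, map_pow, expand_X, ← pow_mul, sub_eq_iff_eq_add] at e
    rw [e, Polynomial.coe_add, add_mul, map_add, Polynomial.coe_mul, Polynomial.coe_pow, coe_X,
      mul_assoc, PowerSeries.coeff_X_pow_mul', if_neg (by omega), zero_add]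
  have a5 := Nat.le_mul_of_pos_right q (Nat.pos_of_ne_zero (h.ne c₀))
  have a6 : q * m c₀ - r + r = q * m c₀ := by omega
  have z := run_zero (mul_ne_zero (fun e => G0 (by simp [e]))
    fun e => by simpa using congrArg (coeff · 0) e) dD a1 (fun i => a2 (r + i * p)) a3 (fun n hn => by
      rw [Fintype.card_fin, show 1 + (I + 1) = I + 2 by ring] at hn
      refine ⟨fun i => Ψ.coeff (r + n + i * p), cs _ (by omega), fun i => ?_⟩
      have e := key _ (r3 n hn i (by omega))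
      rw [a4 (r + i * p) _ (by
        by_contra! k
        have := Nat.lt_mul_div_succ (r + i * p) hq.pos
        exact r3 (q * ((r + i * p) / q + 1) - (r + i * p)) (by omega) i (by omega)
          ⟨(r + i * p) / q + 1, by omega⟩)] at e
      rw [map_neg, show n + (r + i * p) = r + n + i * p by ring]
      push_cast at e ⊢
      linear_combination e)
    (n := q * m c₀ - r) (i := 0) (by
      rw [Fin.val_zero, zero_mul, add_zero, ← Nat.cast_add, a6, Nat.cast_mul, ZMod.natCast_self,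
        zero_mul])
  rw [Fin.val_zero, zero_mul, add_zero, a6] at z
  simp only [T] at z
  rw [Nat.div_eq_of_lt (by omega), zero_add, PowerSeries.trunc_one_left, expand_C, coe_C, map_neg,
    PowerSeries.coeff_C_mul, coeff_coe, neg_eq_zero, mul_eq_zero, or_iff_right G0, mul_comm] at z
  have := h2 q dvd_rfl (mul_comm q _ ▸ z)
  simpa [m0, sub_eq_zero] using this

theorem dvd_of_map {f : ℤ[X]} (h : f.map (Int.castRingHom (ZMod q)) = 0) :
    C (q : ℤ) ∣ f :=
  (C_dvd_iff_dvd_coeff _ _).2 fun i => (ZMod.intCast_zmod_eq_zero_iff_dvd _ q).1 (by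
    simpa using congrArg (coeff · i) h)

theorem exists_psi (hq : q.Prime) (f g : ℤ[X]) : ∃ Ψ : ℤ[X],
    expand ℤ q f * g ^ q - expand ℤ q g * f ^ q = C (q : ℤ) * Ψ ∧
    X * derivative (Ψ.map (Int.castRingHom (ZMod q))) + ((f * g).map (Int.castRingHom _)) ^ (q - 1) *
      (Wr f g).map (Int.castRingHom _) = (Wr f g).map (Int.castRingHom _) ^ q := by
  have := Fact.mk hq
  obtain ⟨Ψ, h⟩ := dvd_of_map (q := q) (f := expand ℤ q f * g ^ q - expand ℤ q g * f ^ q) (by
    simp [map_expand, ZMod.expand_card, mul_comm])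
  refine ⟨Ψ, h, ?_⟩
  have e : derivative Ψ = expand ℤ q (derivative f) * X ^ (q - 1) * g ^ q +
      expand ℤ q f * g ^ (q - 1) * derivative g - expand ℤ q (derivative g) * X ^ (q - 1) * f ^ q -
      expand ℤ q g * f ^ (q - 1) * derivative f := by
    apply mul_left_cancel₀ (C_ne_zero.2 (Nat.cast_ne_zero.2 hq.ne_zero : (q : ℤ) ≠ 0))
    rw [← derivative_C_mul, ← h]
    simp only [map_sub, derivative_mul, derivative_expand, derivative_pow, map_natCast]
    ring
  rw [derivative_map, e, ← ZMod.expand_card, map_Wr, Wr]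
  simp only [Polynomial.map_sub, Polynomial.map_add, Polynomial.map_mul, Polynomial.map_pow, map_X,
    map_expand, map_mul, map_sub, expand_X, ← derivative_map]
  generalize f.map (Int.castRingHom (ZMod q)) = f, g.map (Int.castRingHom (ZMod q)) = g
  rw [ZMod.expand_card f, ZMod.expand_card g]
  obtain ⟨r, rfl⟩ := Nat.exists_eq_succ_of_ne_zero hq.ne_zero
  simp only [Nat.succ_sub_one, pow_succ, mul_pow]
  ring

variable {K : Type} [Field K] [NumberField K] {p : ℕ} [IsCyclotomicExtension {p} ℚ K] {ξ : 𝓞 K}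

theorem rd (hp : p.Prime) (hξ : IsPrimitiveRoot ξ p) {f : ℤ[X]} {N : ℤ} (d : f.natDegree < p - 1)
    (h : (N : 𝓞 K) ∣ aeval ξ f) : C N ∣ f := by
  obtain ⟨c, e⟩ := red hp hξ d.le h
  have e1 := e (p - 1) (by omega)
  rw [coeff_eq_zero_of_natDegree_lt d, zero_sub, dvd_neg] at e1
  refine (C_dvd_iff_dvd_coeff _ _).2 fun i => ?_
  by_cases hi : i < p
  · simpa using dvd_add (e i hi) e1
  · rw [coeff_eq_zero_of_natDegree_lt (by omega)]
    exact dvd_zero _

theorem cls (hp : p.Prime) (hξ : IsPrimitiveRoot ξ p) {f : ℤ[X]} {N : ℤ} {I : ℕ}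
    (d : f.natDegree < I * p) (h : (N : 𝓞 K) ∣ aeval ξ f) :
    ∃ γ : ℤ, ∀ r < p, N ∣ ∑ i : Fin I, f.coeff (r + i * p) - γ := by
  have s : ∀ (g : ℕ → 𝓞 K) I, ∑ j ∈ range (I * p), g j =
      ∑ r ∈ range p, ∑ i ∈ range I, g (r + i * p) := fun g I => by
    induction I with
    | zero => simp
    | succ I ih =>
      rw [Nat.succ_mul, sum_range_add, ih]
      simp [sum_range_succ, sum_add_distrib, add_comm]
  obtain ⟨c, hc⟩ := red hp hξ (N := N)
    (f := ∑ r ∈ range p, monomial r (∑ i ∈ range I, f.coeff (r + i * p)))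
    (natDegree_sum_le_of_forall_le _ _ fun r hr => (natDegree_monomial_le _).trans
      (Nat.le_sub_one_of_lt (mem_range.1 hr))) (by
      rw [aeval_eq_sum_range' d, s] at h
      simpa [sum_mul, pow_add, pow_mul', hξ.pow_eq_one] using h)
  refine ⟨c, fun r hr => ?_⟩
  rw [Fin.sum_univ_eq_sum_range fun i => f.coeff (r + i * p)]
  simpa [coeff_monomial, hr] using hc r hr

theorem sq_half (hp : p.Prime) (hq : q.Prime) (hpq : p ≠ q) (hξ : IsPrimitiveRoot ξ p)
    {A B a b : 𝓞 K} {u : K} (hu : u ^ q * am K B = am K A)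
    (ha : (q : 𝓞 K) ∣ a ^ q - A) (hb : (q : 𝓞 K) ∣ b ^ q - B) :
    (q : 𝓞 K) ^ 2 ∣ B ^ (q - 1) * (A * b ^ q - B * a ^ q) := by
  have e : B ^ q = B ^ (q - 1) * B := by rw [← pow_succ, Nat.sub_add_cancel hq.one_le]
  have h1 : (u * am K B) ^ q = am K (A * B ^ (q - 1)) := by
    rw [mul_pow, ← map_pow, e, map_mul, map_mul, ← hu]
    ring
  obtain ⟨w, hw⟩ := am_surj (IsIntegral.of_pow hq.pos (h1 ▸ am_int _))
  rw [← hw, ← map_pow] at h1
  have h2 : (w * b) ^ q - (B * a) ^ q = B ^ (q - 1) * (A * b ^ q - B * a ^ q) := by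
    rw [mul_pow, mul_pow, am_inj h1, e]
    ring
  have h3 := dvd_sub_pow_of_dvd_sub (reduced hp hq hpq hξ (a := w * b) (b := B * a) (by
    rw [h2]
    refine Dvd.dvd.mul_left ?_ _
    convert dvd_sub (hb.mul_left A) (ha.mul_left B) using 1
    ring)) 1
  rwa [pow_one, h2] at h3

theorem psi_dvd (hp : p.Prime) (hq : q.Prime) (hpq : p ≠ q) (hξ : IsPrimitiveRoot ξ p)
    {f g Ψ : ℤ[X]} (h : expand ℤ q f * g ^ q - expand ℤ q g * f ^ q = C (q : ℤ) * Ψ) {u : K}
    (u0 : u ≠ 0) (hu : u ^ q * am K (aeval (ξ ^ q) g) = am K (aeval (ξ ^ q) f))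
    (hc : IsCoprime (aeval (ξ ^ q) f) (aeval (ξ ^ q) g)) : (q : 𝓞 K) ∣ aeval ξ Ψ := by
  have := Fact.mk hq
  have e2 : ∀ f : ℤ[X], (q : 𝓞 K) ∣ aeval ξ f ^ q - aeval (ξ ^ q) f := fun f => by
    simpa [expand_aeval] using map_dvd (aeval ξ) (dvd_of_map (q := q) (f := f ^ q - expand ℤ q f) (by
      simp [map_expand, ZMod.expand_card]))
  have d1 := sq_half hp hq hpq hξ hu (e2 _) (e2 _)
  have d2 := sq_half hp hq hpq hξ (u := u⁻¹) (by
    rw [← hu, ← mul_assoc, ← mul_pow, inv_mul_cancel₀ u0, one_pow, one_mul]) (e2 g) (e2 f)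
  obtain ⟨s, t, hst⟩ := hc.pow (m := q - 1) (n := q - 1)
  have e := congrArg (aeval ξ) h
  simp only [map_sub, map_mul, map_pow, expand_aeval, map_natCast] at e
  rw [← mul_dvd_mul_iff_left (Nat.cast_ne_zero.2 hq.ne_zero : (q : 𝓞 K) ≠ 0), ← sq, ← e]
  convert dvd_sub (d1.mul_left t) (d2.mul_left s) using 1
  linear_combination (aeval (ξ ^ q) g * aeval ξ f ^ q - aeval (ξ ^ q) f * aeval ξ g ^ q) * hst

theorem deg_Wr {R : Type} [CommRing R] {f g : R[X]} {d : ℕ} (hf : f.natDegree ≤ d)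
    (hg : g.natDegree ≤ d) : (Wr f g).natDegree ≤ 2 * d := by
  have e : ∀ f : R[X], f.natDegree ≤ d → (X * derivative f).natDegree ≤ d := fun f hf =>
    natDegree_le_iff_coeff_eq_zero.2 fun j hj => by
      obtain ⟨j, rfl⟩ := Nat.exists_eq_succ_of_ne_zero (by omega : j ≠ 0)
      rw [coeff_X_mul, coeff_derivative, coeff_eq_zero_of_natDegree_lt (by omega), zero_mul]
  rw [Wr, mul_sub, ← mul_assoc, mul_left_comm, two_mul]
  exact (natDegree_sub_le _ _).trans (max_le (natDegree_mul_le.trans (add_le_add (e _ hf) hg))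
    (natDegree_mul_le.trans (add_le_add hf (e _ hg))))

theorem QP_zero {R : Type} [CommRing R] {x s : R} (hx : IsUnit x) (hs : IsUnit s)
    (hm : ∀ c, m c ≠ 0) (a b : Fin k → ℕ) : IsUnit ((QP x s 0 m a b).coeff 0) := by
  rw [coeff_zero_eq_eval_zero, QP, eval_prod]
  exact IsUnit.prod_iff.2 fun c _ => by simpa [hm c] using (hx.pow _).mul (hs.neg.pow _)

theorem first_stage (hp : p.Prime) (hq : q.Prime) (hpq : p ≠ q) (hξ : IsPrimitiveRoot ξ p)
    (h : Mu q E m a b c₀) {x : ℤ} {u : K} (u0 : u ≠ 0)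
    (hu : u ^ q * am K (aeval (ξ ^ q) (QP x 1 0 m b a)) = am K (aeval (ξ ^ q) (QP x 1 0 m a b)))
    (hc : IsCoprime (aeval (ξ ^ q) (QP x 1 0 m a b)) (aeval (ξ ^ q) (QP x 1 0 m b a))) {J δ : ℕ}
    (hδ : k * E ≤ δ) (hJ : q < J * p) (hb : 100 * J ^ 2 * δ ^ 4 < p - 1) :
    ∃ t : ℤ, (t = 0 ∨ t = 1 ∨ t = -1) ∧ (q : ℤ) ∣ x - t := by
  have := Fact.mk hq
  by_cases x0 : (x : ZMod q) = 0
  · exact ⟨0, by simp, by simpa [ZMod.intCast_zmod_eq_zero_iff_dvd] using x0⟩
  have d1 := (deg_QP x 1 0 h.2.2.1).trans (by simpa using hδ : _ ≤ δ)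
  have d2 := (deg_QP x 1 0 h.symm.2.2.1).trans (by simpa using hδ : _ ≤ δ)
  obtain ⟨Ψ, h1, h2⟩ := exists_psi hq (QP x 1 0 m a b) (QP x 1 0 m b a)
  have h3 := psi_dvd hp hq hpq hξ h1 u0 hu hc
  have dΨ : Ψ.natDegree ≤ 2 * δ * q := by
    rw [← natDegree_C_mul (Nat.cast_ne_zero.2 hq.ne_zero : (q : ℤ) ≠ 0), ← h1]
    have e : ∀ f g : ℤ[X], f.natDegree ≤ δ → g.natDegree ≤ δ →
        (expand ℤ q f * g ^ q).natDegree ≤ 2 * δ * q := fun f g hf hg => by
      refine natDegree_mul_le.trans ?_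
      rw [natDegree_expand]
      nlinarith [natDegree_pow_le_of_le q hg, Nat.mul_le_mul_right q hf]
    exact (natDegree_sub_le _ _).trans (max_le (e _ _ d1 d2) (e _ _ d2 d1))
  have δ0 : 1 ≤ δ := (Nat.mul_pos c₀.pos ((Nat.pos_of_ne_zero (h.ne c₀)).trans_le
    (h.2.2.1 c₀).1)).trans_le hδ
  have J0 : 1 ≤ J := Nat.pos_of_ne_zero (by rintro rfl; simp at hJ)
  have h4 := comb (p := p) (δ := 2 * δ) (fun e => hpq ((Nat.prime_dvd_prime_iff_eq hq hp).1
    ((ZMod.natCast_eq_zero_iff _ _).1 e)).symm) (mul_inv_cancel₀ x0) h (by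
      rw [Polynomial.map_mul, map_QP, map_QP, mul_coeff_zero]
      exact ((QP_zero (Ne.isUnit x0) (by simp) h.ne _ _).mul
        (QP_zero (Ne.isUnit x0) (by simp) h.ne _ _)).ne_zero)
    (natDegree_map_le.trans (natDegree_mul_le.trans (by omega)))
    (natDegree_map_le.trans (deg_Wr d1 d2)) (by
      rw [map_Wr, Polynomial.map_mul, map_QP, map_QP]
      exact wr_QP (mul_inv_cancel₀ x0) _ h.ne a b) h2 (by
      obtain ⟨I, hI⟩ : ∃ I, I + 1 = 2 * δ * J := ⟨2 * δ * J - 1, 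
        Nat.sub_add_cancel (Nat.mul_pos (by omega) J0)⟩
      have i1 : I + 2 ≤ 3 * δ * J := by nlinarith [Nat.mul_pos δ0 J0]
      have i2 : 2 * δ * ((I + 2) * ((I + 2) * (2 * δ + 2))) < p - 1 :=
        lt_of_le_of_lt (le_trans (b := 2 * δ * (3 * δ * J * (3 * δ * J * (4 * δ)))) (by
          gcongr; omega) (by nlinarith [Nat.zero_le (J ^ 2 * δ ^ 4)])) hb
      by_cases c : (I + 2) * ((I + 2) * (2 * δ + 2)) < q
      · obtain ⟨γ, hγ⟩ := cls hp hξ (N := q) (I := I + 1) (dΨ.trans_lt (by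
          rw [hI, mul_assoc _ J]; gcongr)) (by simpa using h3)
        refine Or.inr ⟨I, γ, by nlinarith [Nat.sub_le p 1], c, fun r hr => ?_⟩
        simpa [sub_eq_zero] using (ZMod.intCast_zmod_eq_zero_iff_dvd _ q).2 (hγ r hr)
      · obtain ⟨g, rfl⟩ := rd hp hξ (N := q) (dΨ.trans_lt (lt_of_le_of_lt
          (Nat.mul_le_mul_left _ (not_lt.1 c)) i2)) (by simpa using h3)
        simp)
  rcases sq_eq_one_iff.1 h4 with e | e
  · exact ⟨1, by simp, (ZMod.intCast_zmod_eq_zero_iff_dvd _ q).1 (by simp [e])⟩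
  · exact ⟨-1, by simp, (ZMod.intCast_zmod_eq_zero_iff_dvd _ q).1 (by simp [e])⟩

end Pool.Agent.P.MP_71e30e_nt.Rk
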