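import Pool.Agent.P.MP_71e30e_nt.R5
import Pool.Agent.P.MP_71e30e_nt.R1

set_option autoImplicit false

/-! The congruence for the base modulo the square of the exponent. -/

namespace Pool.Agent.P.MP_71e30e_nt.Rk

open Finset Cyc Polynomial NumberField

variable {k q E p x y : ℕ} {m a b : Fin k → ℕ} {c₀ : Fin k}

section Ring

variable {O : Type} [CommRing O]

theorem aeval_QP (hp : p ≠ 0) {ζ : O} (hζ : ζ ^ p = 1) (s : ℤ) (e : ℕ) (m a b : Fin k → ℕ) :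
    aeval ζ (QP (x : ℤ) s e m a b) = (∏ c, (s * ζ ^ ((e + 1) * m c)) ^ b c) *
      (PP x (fun c => ζ ^ m c) a * PP x (fun c => (ζ ^ m c) ^ (p - 1)) b) := by
  simp only [QP, PP, map_prod, ← prod_mul_distrib]
  refine prod_congr rfl fun c _ => ?_
  have e1 : ζ ^ m c * (ζ ^ m c) ^ (p - 1) = 1 := by
    rw [mul_pow_sub_one hp, pow_right_comm, hζ, one_pow]
  rw [mul_left_comm, ← mul_pow]
  simp only [map_mul, map_pow, map_sub, aeval_X, eq_intCast, map_intCast, map_natCast, map_one,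
    Int.cast_natCast, add_mul, one_mul, pow_add]
  congr 2
  linear_combination (s * ζ ^ (e * m c)) * e1

theorem cop_PP [IsDomain O] (hp : p.Prime) {ζ : O} (hζ : IsPrimitiveRoot ζ p)
    (hc : IsCoprime (p : ℤ) ((x : ℤ) - 1)) {ξ η : Fin k → O} (hξ : ∀ c, ξ c ^ p = 1)
    (hη : ∀ c, η c ^ p = 1) (h : ∀ c d, ξ c = η d → a c = 0 ∨ b d = 0) :
    IsCoprime (PP x ξ a) (PP x η b) :=
  IsCoprime.prod_left fun c _ => IsCoprime.prod_right fun d _ => by
    by_cases e : ξ c = η d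
    · rcases h c d e with k | k <;> simp [k, isCoprime_one_left, isCoprime_one_right]
    · exact (cop_roots hp hζ hc (hξ c) (hη d) e).pow

theorem unit_fac (hp : p ≠ 0) {ζ : O} (hζ : ζ ^ p = 1) {s : ℤ} (hs : s ^ 2 = 1) (n b : Fin k → ℕ) :
    (∏ c, (s * ζ ^ n c) ^ b c) ^ (2 * p) = 1 := by
  rw [← prod_pow]
  refine prod_eq_one fun c _ => ?_
  rw [pow_right_comm, mul_pow, pow_mul, ← Int.cast_pow, hs, mul_comm 2, pow_right_comm ζ, pow_mul,
    hζ]
  simp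

theorem cop_QP [IsDomain O] (hp : p.Prime) {ζ : O} (hζ : IsPrimitiveRoot ζ p)
    (hc : IsCoprime (p : ℤ) ((x : ℤ) - 1)) (h : Mu q E m a b c₀) (hE : 2 * E < p) :
    IsCoprime (aeval ζ (QP (x : ℤ) 1 0 m a b)) (aeval ζ (QP (x : ℤ) 1 0 m b a)) := by
  have u := fun b => IsUnit.of_pow_eq_one (unit_fac hp.ne_zero hζ.pow_eq_one (one_pow 2)
    (fun c => (0 + 1) * m c) b) (mul_ne_zero two_ne_zero hp.ne_zero)
  have r : ∀ c, (ζ ^ m c) ^ p = 1 := fun c => by rw [pow_right_comm, hζ.pow_eq_one, one_pow]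
  have r' : ∀ c, ((ζ ^ m c) ^ (p - 1)) ^ p = 1 := fun c => by rw [pow_right_comm, r, one_pow]
  have l := fun c => (h.2.2.1 c).1
  have e1 : ∀ {ζ : O}, IsPrimitiveRoot ζ p → ∀ c d, ζ ^ m c = ζ ^ m d → c = d := fun hζ c d e =>
    h.1 (hζ.pow_inj (by have := l c; omega) (by have := l d; omega) e)
  have e2 : ∀ c d, ζ ^ m c ≠ (ζ ^ m d) ^ (p - 1) := fun c d e => by
    have := Nat.le_of_dvd (by have := h.ne c; omega) (hζ.dvd_of_pow_eq_one (m c + m d) (by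
      rw [pow_add, e, pow_sub_one_mul hp.ne_zero, r]))
    have := l c
    have := l d
    omega
  rw [aeval_QP hp.ne_zero hζ.pow_eq_one, aeval_QP hp.ne_zero hζ.pow_eq_one,
    isCoprime_mul_unit_left_left (u _), isCoprime_mul_unit_left_right (u _)]
  refine ((cop_PP hp hζ hc r r fun c d e => ?_).mul_right
    (cop_PP hp hζ hc r r' fun c d e => absurd e (e2 c d))).mul_left
    ((cop_PP hp hζ hc r' r fun c d e => absurd e.symm (e2 d c)).mul_right
      (cop_PP hp hζ hc r' r' fun c d e => ?_))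
  · obtain rfl := e1 hζ c d e
    have := (h.2.2.1 c).2
    omega
  · obtain rfl := e1 (prim_inv hp hζ) c d (by simpa only [pow_right_comm ζ] using e)
    have := (h.2.2.1 c).2
    omega

theorem cop_q [IsDomain O] (hp : p.Prime) (h : ∑ i ∈ range p, x ^ i = y ^ q)
    (hy : IsCoprime (q : ℤ) y) {ξ : Fin k → O} (hξ : ∀ c, IsPrimitiveRoot (ξ c) p) (a : Fin k → ℕ) :
    IsCoprime (q : O) (PP x ξ a) := IsCoprime.prod_right fun c _ => by
  have h1 : IsCoprime (q : O) y := by simpa using hy.map (Int.castRingHom O)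
  have h2 := dvd_prod_of_mem (fun μ => (x : O) - μ) ((mem_primitiveRoots hp.pos).2 (hξ c))
  rw [prod_roots hp (hξ c), show ∑ i ∈ range p, (x : O) ^ i = y ^ q by
    exact_mod_cast congrArg (Nat.cast : ℕ → O) h] at h2
  exact (h1.pow_right.of_isCoprime_of_dvd_right h2).pow_right

/-- expansion to the first order -/
def Nl (x z σ : O) : Prop := x ^ 2 ∣ z - (1 + x * σ)

theorem Nl.mul {x z σ z' σ' : O} (h : Nl x z σ) (h' : Nl x z' σ') : Nl x (z * z') (σ + σ') :=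
  (dvd_add (dvd_add (h.mul_right z') (h'.mul_left (1 + x * σ))) (dvd_mul_right _ (σ * σ'))).trans
    (dvd_of_eq (by ring))

theorem Nl.pow (x σ : O) (n : ℕ) : Nl x ((1 + x * σ) ^ n) (n * σ) := by
  induction n with
  | zero => simp [Nl]
  | succ n ih => rw [pow_succ, Nat.cast_succ, add_mul, one_mul]; exact ih.mul (by simp [Nl])

theorem Nl.prod {ι : Type} (s : Finset ι) {x : O} {z σ : ι → O} (h : ∀ i, Nl x (z i) (σ i)) :
    Nl x (∏ i ∈ s, z i) (∑ i ∈ s, σ i) := by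
  classical
  induction s using Finset.induction_on with
  | empty => simp [Nl]
  | insert i s hi ih => rw [prod_insert hi, sum_insert hi]; exact (h i).mul ih

theorem nil_QP {ζ η : O} (hζ : ζ * η = 1) (x : ℤ) (m a b : Fin k → ℕ) :
    Nl (x : O) ((∏ c, (-η ^ m c) ^ (a c + b c)) * aeval ζ (QP x 1 1 m a b))
      (∑ c, (a c * -η ^ m c + b c * -ζ ^ m c)) := by
  rw [QP, map_prod, ← prod_mul_distrib]
  refine Nl.prod _ fun c => ?_
  have e : ζ ^ m c * η ^ m c = 1 := by rw [← mul_pow, hζ, one_pow]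
  convert (Nl.pow (x : O) _ (a c)).mul (Nl.pow (x : O) _ (b c)) using 1
  rw [map_mul, map_pow, map_pow, pow_add, mul_mul_mul_comm, ← mul_pow, ← mul_pow]
  simp only [map_mul, map_pow, map_sub, aeval_X, eq_intCast, map_intCast, map_one, one_mul]
  congr 2
  · linear_combination e
  · linear_combination (1 - x * ζ ^ m c) * e

end Ring

/-- the admissible normalisations -/
def Tn (t s : ℤ) (e : ℕ) : Prop := t = 0 ∧ s = 1 ∧ e = 1 ∨ t ^ 2 = 1 ∧ s = -t ∧ e = 0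

theorem Tn.sq {t s : ℤ} {e : ℕ} (h : Tn t s e) : s ^ 2 = 1 ∧ e ≤ 1 := by
  rcases h with ⟨-, rfl, rfl⟩ | ⟨h, rfl, rfl⟩ <;> simp [*]

theorem Tn.dvd {t s : ℤ} {e : ℕ} (h : Tn t s e) (x : ℤ) (m a b : Fin k → ℕ) :
    C (x - t) ∣ QP x s e m a b - QP x s e m b a := by
  rw [← Ideal.mem_span_singleton, ← Ideal.Quotient.eq]
  simp only [QP, map_prod (Ideal.Quotient.mk _)]
  refine prod_congr rfl fun c _ => ?_
  have : Ideal.Quotient.mk (Ideal.span {C (x - t)}) (C x - X ^ m c) =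
      Ideal.Quotient.mk _ (C s * X ^ (e * m c) * (C x * X ^ m c - 1)) := by
    rw [Ideal.Quotient.eq, Ideal.mem_span_singleton]
    refine ⟨1 - C s * X ^ (e * m c) * X ^ m c, ?_⟩
    rcases h with ⟨rfl, rfl, rfl⟩ | ⟨h, rfl, rfl⟩
    · simp only [map_one, one_mul, sub_zero]
      ring
    · have := congrArg C h
      simp only [map_pow, map_one, map_neg, map_sub, zero_mul, pow_zero] at this ⊢
      linear_combination (X ^ m c) * this
  simp only [map_mul _ (_ ^ a c), map_mul _ (_ ^ b c), map_pow _ _ (a c), map_pow _ _ (b c), this,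
    mul_comm]

variable {K : Type} [Field K] [NumberField K] [IsCyclotomicExtension {p} ℚ K] {ξ : 𝓞 K} {w : K}

theorem theta (hp : p ≠ 0) (hq : Odd q) (hξ : ξ ^ p = 1)
    (r : Rel p q x (fun c => (ξ ^ q) ^ m c) a b w) {s : ℤ} (hs : s ^ 2 = 1) (e : ℕ) :
    ∃ η : 𝓞 K, η ^ (2 * p) = 1 ∧ (am K η * w) ^ q * am K (aeval (ξ ^ q) (QP (x : ℤ) s e m b a)) =
      am K (aeval (ξ ^ q) (QP (x : ℤ) s e m a b)) := by
  have hζ : (ξ ^ q) ^ p = 1 := by rw [pow_right_comm, hξ, one_pow]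
  have u := unit_fac hp hξ hs fun c => (e + 1) * m c
  have e1 : ∀ b : Fin k → ℕ, ∏ c, (s * (ξ ^ q) ^ ((e + 1) * m c)) ^ b c =
      (∏ c, (s * ξ ^ ((e + 1) * m c)) ^ b c) ^ q := fun b => by
    obtain ⟨j, rfl⟩ := hq
    rw [← prod_pow]
    refine prod_congr rfl fun c _ => ?_
    rw [pow_right_comm _ (b c), mul_pow _ _ (2 * j + 1), pow_right_comm ξ, ← Int.cast_pow, pow_succ s,
      pow_mul s, hs, one_pow, one_mul]
  rw [aeval_QP hp hζ, aeval_QP hp hζ, e1, e1]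
  have u1 := u a
  have u2 := u b
  generalize ∏ c, (s * ξ ^ ((e + 1) * m c)) ^ a c = U, ∏ c, (s * ξ ^ ((e + 1) * m c)) ^ b c = V at *
  refine ⟨V * U ^ (2 * p - 1), by rw [mul_pow, u2, pow_right_comm, u1, one_pow, one_mul], ?_⟩
  rw [map_mul _ (V ^ q), ← r, map_mul _ (U ^ q), mul_comm (PP _ _ b), ← mul_assoc, ← mul_assoc,
    map_pow, map_pow, ← mul_pow, ← mul_pow, mul_right_comm, ← map_mul, mul_assoc V,
    pow_sub_one_mul (by omega), u1, mul_one]

theorem rel_norm (hp : p ≠ 0) (hq : q ≠ 0) (hx : 2 ≤ x) {ξ : Fin k → 𝓞 K} (hξ : ∀ c, ξ c ^ p = 1)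
    (r : Rel p q x ξ a b w) (φ : K →ₐ[ℚ] ℂ) : ‖φ w‖ = 1 := by
  have n := fun a => norm_PP hp hx (ξ := fun c => φ (am K (ξ c)))
    (fun c => by rw [← map_pow, ← map_pow, hξ, map_one, map_one]) a
  have r1 := congrArg φ r
  simp only [PP, map_mul, map_pow, map_prod, map_sub, map_natCast] at r1 n
  have r2 := congrArg norm r1
  rw [norm_mul, norm_mul, norm_mul, (n a).1, (n b).1, mul_left_eq_self₀, norm_pow] at r2
  exact (pow_eq_one_iff_of_nonneg (norm_nonneg _) hq).1 (r2.resolve_right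
    (mul_ne_zero (norm_ne_zero_iff.2 (n a).2) (norm_ne_zero_iff.2 (n b).2)))

theorem sq_norm (hp : p.Prime) (hq : q.Prime) (hpq : p ≠ q) (hξ : IsPrimitiveRoot ξ p)
    {f g : ℤ[X]} (h : C (q : ℤ) ∣ f - g) {u : K}
    (hu : u ^ q * am K (aeval (ξ ^ q) g) = am K (aeval (ξ ^ q) f))
    (hc : IsCoprime (q : 𝓞 K) (aeval (ξ ^ q) g)) :
    (q : 𝓞 K) ^ 2 ∣ aeval (ξ ^ q) f - aeval (ξ ^ q) g := by
  have := Fact.mk hq
  have e1 : (q : 𝓞 K) ∣ aeval ξ g ^ q - aeval (ξ ^ q) g := by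
    simpa [expand_aeval] using map_dvd (aeval ξ) (dvd_of_map (q := q) (f := g ^ q - expand ℤ q g) (by
      simp [map_expand, ZMod.expand_card]))
  have e2 : (q : 𝓞 K) ∣ aeval (ξ ^ q) f - aeval (ξ ^ q) g := by
    simpa using map_dvd (aeval (ξ ^ q)) h
  have d := sq_half hp hq hpq hξ hu (a := aeval ξ g) (by simpa using dvd_sub e1 e2) e1
  obtain ⟨c, e3⟩ := e1
  rw [← sub_mul] at d
  refine IsCoprime.dvd_of_dvd_mul_right (IsCoprime.pow_left ?_)
    (hc.pow.dvd_of_dvd_mul_left d)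
  rw [eq_add_of_sub_eq' e3]
  exact hc.add_mul_left_right c

theorem cop_y (hp : p.Prime) (hp2 : p ≠ 2) (hq : q.Prime) (hpq : p ≠ q)
    (h : ∑ i ∈ range p, x ^ i = y ^ q) {t : ℤ} (e1 : t = 0 ∨ t = 1 ∨ t = -1)
    (e2 : (q : ℤ) ∣ x - t) : IsCoprime (q : ℤ) y := by
  rw [(Nat.prime_iff_prime_int.1 hq).coprime_iff_not_dvd]
  intro k
  have a1 : ((∑ i ∈ range p, x ^ i : ℕ) : ZMod q) = 0 := by
    rw [h, ZMod.natCast_eq_zero_iff]
    exact (Int.natCast_dvd_natCast.1 k).pow hq.ne_zero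
  have a2 : (x : ZMod q) = t := by
    simpa [sub_eq_zero] using (ZMod.intCast_zmod_eq_zero_iff_dvd _ q).2 e2
  have := Fact.mk hq
  simp only [Nat.cast_sum, Nat.cast_pow, a2] at a1
  rcases e1 with rfl | rfl | rfl
  · simp [zero_geom_sum, hp.ne_zero] at a1
  · exact hpq ((Nat.prime_dvd_prime_iff_eq hq hp).1 (by
      simpa [ZMod.natCast_eq_zero_iff] using a1)).symm
  · simp [neg_one_geom_sum, Nat.not_even_iff_odd.2 (hp.odd_of_ne_two hp2)] at a1

theorem cop_N (hp : p.Prime) (h : ∑ i ∈ range p, x ^ i = y ^ q) (hy : IsCoprime (q : ℤ) y)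
    (hξ : IsPrimitiveRoot ξ p) (hm : ∀ c, IsPrimitiveRoot (ξ ^ m c) p) {s : ℤ} (hs : s ^ 2 = 1)
    (e : ℕ) (a b : Fin k → ℕ) : IsCoprime (q : 𝓞 K) (aeval ξ (QP (x : ℤ) s e m a b)) := by
  rw [aeval_QP hp.ne_zero hξ.pow_eq_one, isCoprime_mul_unit_left_right (IsUnit.of_pow_eq_one
    (unit_fac hp.ne_zero hξ.pow_eq_one hs _ _) (mul_ne_zero two_ne_zero hp.ne_zero))]
  exact (cop_q hp h hy hm a).mul_right (cop_q hp h hy (fun c => prim_inv hp (hm c)) b)

theorem congr_two (hp : p.Prime) (hp2 : p ≠ 2) (hq : q.Prime) (hq2 : q ≠ 2) (hpq : p ≠ q)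
    (hξ : IsPrimitiveRoot ξ p) (h : Mu q E m a b c₀) (hx : 2 ≤ x)
    (h1 : ∑ i ∈ range p, x ^ i = y ^ q) (r : Rel p q x (fun c => (ξ ^ q) ^ m c) a b w) {J δ : ℕ}
    (hδ : k * E ≤ δ) (hJ : q < J * p) (hb : 100 * J ^ 2 * δ ^ 4 < p - 1) :
    ∃ t s e, Tn t s e ∧ (q : ℤ) ^ 2 ∣ x - t ∧ IsCoprime (q : ℤ) y := by
  have pq := Nat.prime_iff_prime_int.1 hq
  have hζ := hξ.pow_of_coprime q ((Nat.coprime_primes hq hp).2 hpq.symm)
  have od := hq.odd_of_ne_two hq2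
  have E1 : E ≤ δ := (Nat.le_mul_of_pos_left _ c₀.pos).trans hδ
  have δ0 : 1 ≤ δ := ((Nat.pos_of_ne_zero (h.ne c₀)).trans_le (h.2.2.1 c₀).1).trans_le E1
  have J0 : 1 ≤ J := Nat.pos_of_ne_zero (by rintro rfl; simp at hJ)
  have δ1 : 100 * δ < p - 1 := lt_of_le_of_lt (by
    rw [mul_assoc]
    exact Nat.mul_le_mul_left _ ((Nat.le_self_pow (by norm_num) δ).trans
      (Nat.le_mul_of_pos_left _ (by positivity)))) hb
  have hm : ∀ c, IsPrimitiveRoot ((ξ ^ q) ^ m c) p := fun c => hζ.pow_of_coprime _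
    (Nat.coprime_of_lt_prime (h.ne c) (by have := (h.2.2.1 c).1; omega) hp).symm
  obtain ⟨φ⟩ : Nonempty (K →ₐ[ℚ] ℂ) := Fintype.card_pos_iff.1 (by
    rw [AlgHom.card, rank_eq hp]; omega)
  obtain ⟨η, e1, e2⟩ := theta hp.ne_zero od hξ.pow_eq_one r (one_pow 2) 0
  obtain ⟨t, ht, e3⟩ := first_stage hp hq hpq hξ h (mul_ne_zero (fun k => by
      have := congrArg (am K) e1
      rw [map_pow, k, zero_pow (by omega), map_one] at this
      exact zero_ne_one this) fun k => by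
        simpa [k] using rel_norm hp.ne_zero hq.ne_zero hx (fun c => (hm c).pow_eq_one) r φ) e2
    (cop_QP hp hζ (not_dvd_sub hp hp2 hq.two_le h1) h (by omega)) hδ hJ hb
  have hy := cop_y hp hp2 hq hpq h1 ht e3
  have sq : ∀ s e, Tn t s e → (q : 𝓞 K) ^ 2 ∣ aeval (ξ ^ q) (QP (x : ℤ) s e m a b) -
      aeval (ξ ^ q) (QP (x : ℤ) s e m b a) := fun s e T => by
    obtain ⟨η, -, e2⟩ := theta hp.ne_zero od hξ.pow_eq_one r T.sq.1 e
    exact sq_norm hp hq hpq hξ ((map_dvd C e3).trans (T.dvd _ m a b)) e2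
      (cop_N hp h1 hy hζ hm T.sq.1 e b a)
  have ab : ((a c₀ : ℤ) - b c₀) ^ 2 = 1 := by
    obtain ⟨e1, e2⟩ | ⟨e1, e2⟩ : a c₀ = 1 ∧ b c₀ = 0 ∨ a c₀ = 0 ∧ b c₀ = 1 := by
      have := h.2.2.2.1
      omega
    all_goals simp [e1, e2]
  by_cases t0 : t = 0
  · subst t0
    refine ⟨0, 1, 1, Or.inl ⟨rfl, rfl, rfl⟩, ?_, hy⟩
    obtain ⟨ζ, hz⟩ : ∃ ζ, ζ = ξ ^ q := ⟨_, rfl⟩
    rw [← hz] at hζ sq
    have z : ζ * ζ ^ (p - 1) = 1 := by rw [mul_pow_sub_one hp.ne_zero, hζ.pow_eq_one]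
    have n1 := nil_QP z x m a b
    have n2 := nil_QP z x m b a
    simp only [add_comm (b _)] at n2
    have x2 : (q : 𝓞 K) ^ 2 ∣ ((x : ℤ) : 𝓞 K) ^ 2 := pow_dvd_pow_of_dvd (by
      simpa using map_dvd (Int.castRingHom (𝓞 K)) e3) 2
    have d := (dvd_sub (((sq 1 1 (Or.inl ⟨rfl, rfl, rfl⟩)).mul_left
      (∏ c, (-(ζ ^ (p - 1)) ^ m c) ^ (a c + b c)))) (x2.trans (dvd_sub n1 n2))).mul_left (ζ ^ E)
    have d1 := rd hp hζ (N := q ^ 2) (f := ∑ c, (monomial (E + m c) (x * ((a c : ℤ) - b c)) -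
        monomial (E - m c) (x * ((a c : ℤ) - b c)))) (lt_of_le_of_lt
      (natDegree_sum_le_of_forall_le _ _ (n := 2 * E) fun c _ => (natDegree_sub_le _ _).trans (by
        have := (h.2.2.1 c).1
        exact max_le ((natDegree_monomial_le _).trans (by omega))
          ((natDegree_monomial_le _).trans (by omega)))) (by omega)) (by
      push_cast at d ⊢
      convert d using 1
      rw [mul_sub (∏ _, _), sub_sub_sub_comm, sub_sub_cancel, sub_sub_cancel,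
        add_sub_add_left_eq_sub, ← mul_sub, ← sum_sub_distrib, mul_sum, mul_sum, map_sum]
      refine sum_congr rfl fun c _ => ?_
      have e : ζ ^ m c * (ζ ^ (p - 1)) ^ m c = 1 := by rw [← mul_pow, z, one_pow]
      have e' := pow_sub_mul_pow ζ (h.2.2.1 c).1
      simp only [map_sub, aeval_monomial, map_mul, map_natCast, pow_add]
      linear_combination (x * (a c - b c) * ζ ^ (E - m c) : 𝓞 K) * e -
        (x * (a c - b c) * (ζ ^ (p - 1)) ^ m c : 𝓞 K) * e')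
    have d2 := (C_dvd_iff_dvd_coeff _ _).1 d1 (E + m c₀)
    rw [finset_sum_coeff, sum_eq_single c₀ (fun c _ hc => by
      have := h.ne c₀
      rw [coeff_sub, coeff_monomial, coeff_monomial, if_neg fun e => hc (h.1 (by omega)),
        if_neg (by omega), sub_zero]) (by simp), coeff_sub, coeff_monomial, coeff_monomial,
      if_pos rfl, if_neg (by have := h.ne c₀; omega), sub_zero] at d2
    have := d2.mul_right ((a c₀ : ℤ) - b c₀)
    rwa [mul_assoc, ← pow_two, ab, mul_one, ← sub_zero (x : ℤ)] at this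
  have t2 : t ^ 2 = 1 := by rcases ht with rfl | rfl | rfl <;> simp at t0 ⊢
  have T : Tn t (-t) 0 := Or.inr ⟨t2, rfl, rfl⟩
  refine ⟨t, _, _, T, ?_, hy⟩
  have d1 := rd hp hζ (N := q ^ 2) (f := QP (x : ℤ) (-t) 0 m a b - QP (x : ℤ) (-t) 0 m b a)
    (((natDegree_sub_le _ _).trans (max_le (deg_QP _ _ _ h.2.2.1)
      (deg_QP _ _ _ h.symm.2.2.1))).trans_lt (by omega)) (by simpa using sq _ _ T)
  let ψ := Int.castRingHom (ZMod (q ^ 2))
  have un : ∀ z : ℤ, ¬ (q : ℤ) ∣ z → IsUnit (ψ z) := fun z hz => by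
    obtain ⟨u, v, e⟩ := (pq.coprime_iff_not_dvd.2 hz).pow_left (m := 2)
    have := congrArg ψ e
    rw [map_add, map_mul, map_mul, map_one, show ψ (q ^ 2) = 0 from
      (ZMod.intCast_zmod_eq_zero_iff_dvd _ _).2 (by simp), mul_zero, zero_add] at this
    exact IsUnit.of_mul_eq_one_right _ this
  have tq : ¬ (q : ℤ) ∣ t := fun k => pq.not_dvd_one (t2 ▸ k.pow two_ne_zero)
  have ux := un x fun k => tq (by simpa using dvd_sub k e3)
  obtain ⟨x', hx'⟩ := ux.exists_right_inv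
  have d2 : QP (ψ x) (ψ (-t)) 0 m a b = QP (ψ x) (ψ (-t)) 0 m b a := by
    obtain ⟨g, hg⟩ := d1
    rw [← map_QP, ← map_QP, ← sub_eq_zero, ← Polynomial.map_sub, hg, Polynomial.map_mul, map_C,
      show ψ (q ^ 2) = 0 from (ZMod.intCast_zmod_eq_zero_iff_dvd _ _).2 (by simp), C_0, zero_mul]
  have d3 := congrArg (PowerSeries.coeff (m c₀)) (wr_QP hx' (ψ (-t)) h.ne a b)
  have u1 := QP_zero ux (un (-t) (by simpa using tq)) h.ne b a
  rw [coeff_mul_low _ (h.low _ _), d2, Wr, mul_comm (derivative _), sub_self, mul_zero, coeff_coe,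
    coeff_coe, coeff_zero, mul_coeff_zero, eq_comm, (u1.mul u1).mul_right_eq_zero] at d3
  have d4 := h.coeff hq hx' (one_dvd q) (by rwa [one_mul])
  rw [← map_natCast ψ, (un _ (by exact_mod_cast h.2.1 c₀)).mul_right_eq_zero, pow_one] at d4
  have d5 : (q : ℤ) ^ 2 ∣ (x - t) * (x + t) := by
    have := (ZMod.intCast_zmod_eq_zero_iff_dvd (x ^ 2 - 1) (q ^ 2)).1 (by simpa [ψ] using d4)
    rw [show ((x : ℤ) - t) * (x + t) = x ^ 2 - 1 by linear_combination -t2]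
    exact_mod_cast this
  refine pq.pow_dvd_of_dvd_mul_right 2 (fun k => ?_) d5
  rcases pq.dvd_or_dvd (a := 2) (b := t) ((dvd_sub k e3).trans (dvd_of_eq (by ring))) with k | k
  exacts [hq2 ((Nat.prime_dvd_prime_iff_eq hq Nat.prime_two).1 (by exact_mod_cast k)), tq k]

end Pool.Agent.P.MP_71e30e_nt.Rk
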