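import Pool.Agent.P.MP_71e30e_nt.R6

set_option autoImplicit false

/-! The zero estimate modulo powers of the exponent. -/

namespace Pool.Agent.P.MP_71e30e_nt.Rk

open Finset Cyc Polynomial IsUltrametricDist

variable {k q E : ℕ} {m a b : Fin k → ℕ} {c₀ : Fin k}

theorem wr_dvd (hq : q.Prime) {b : ℕ} {A B N₁ N₂ : ℤ[X]} (hA : ¬ C (q : ℤ) ∣ A)
    (hN : ¬ C (q : ℤ) ∣ N₂) (h : C (q : ℤ) ^ b ∣ A ^ q * N₂ + B ^ q * N₁) :
    C (q : ℤ) ^ b ∣ C (q : ℤ) * (N₁ * N₂) * (derivative A * B - A * derivative B) +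
      A * B * (N₁ * derivative N₂ - N₂ * derivative N₁) := by
  have pC := prime_C_iff.2 (Nat.prime_iff_prime_int.1 hq)
  have h1 : C (q : ℤ) ^ b ∣ derivative (A ^ q * N₂ + B ^ q * N₁) := by
    obtain ⟨e, he⟩ := h
    rw [he, ← C_pow, derivative_C_mul]
    exact dvd_mul_right _ _
  refine pC.pow_dvd_of_dvd_mul_left (a := A ^ q * N₂) _ (fun k => (pC.dvd_or_dvd k).elim
    (fun k => hA (pC.dvd_of_dvd_pow k)) hN) ?_
  convert dvd_sub (h1.mul_left (A * B * N₁ * N₂)) (h.mul_left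
    (C (q : ℤ) * A * derivative B * N₁ * N₂ + A * B * N₂ * derivative N₁)) using 1
  obtain ⟨r, rfl⟩ := Nat.exists_eq_succ_of_ne_zero hq.ne_zero
  simp only [derivative_add, derivative_mul, derivative_pow, Nat.succ_sub_one]
  rw [pow_succ, pow_succ]
  ring

variable {L : Type} [NormedField L] [IsUltrametricDist L]

theorem taylor_le {β : L} (hβ : ‖β‖ ≤ 1) {f : L[X]} {c : ℝ} (h : ∀ i, ‖f.coeff i‖ ≤ c) (n : ℕ) :
    ‖(taylor β f).coeff n‖ ≤ c := by
  have c0 := (norm_nonneg _).trans (h 0)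
  rw [taylor_coeff, eval_eq_sum_range]
  refine norm_sum_le_of_forall_le_of_nonneg c0 fun i _ => ?_
  rw [hasseDeriv_coeff, norm_mul, norm_mul, norm_pow]
  exact (mul_le_of_le_one_right (by positivity) (pow_le_one₀ (norm_nonneg _) hβ)).trans
    ((mul_le_of_le_one_left (norm_nonneg _) (norm_natCast_le_one L _)).trans (h _))

theorem gauss_w (hq : q.Prime) (h0 : 0 < ‖(q : L)‖) (h1 : ‖(q : L)‖ < 1)
    (hn : ∀ z : ℤ, ‖(z : L)‖ < 1 → (q : ℤ) ∣ z) {α : L} (hα : ‖α‖ ≤ 1) {A B N₁ N₂ : ℤ[X]}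
    (hA : ¬ C (q : ℤ) ∣ A) (hB : ¬ C (q : ℤ) ∣ B) (hN : ¬ C (q : ℤ) ∣ N₂) {I b s : ℕ}
    (dA : A.natDegree ≤ I) (dB : B.natDegree ≤ I) (h : C (q : ℤ) ^ b ∣ A ^ q * N₂ + B ^ q * N₁)
    (r0 : aeval α (N₁ * N₂) = 0) (r1 : ‖(q : L)‖ ^ s ≤ ‖aeval α (derivative (N₁ * N₂))‖) :
    b ≤ s * (2 * I + 1) := by
  let τ : ℤ[X] →+* L[X] := (taylorAlgHom α).toRingHom.comp (mapRingHom (Int.castRingHom L))
  have τ0 : ∀ f, τ f = taylor α (f.map (Int.castRingHom L)) := fun f => rfl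
  have t0 : ∀ f, (τ f).coeff 0 = aeval α f := fun f => by
    rw [τ0, taylor_coeff_zero, eval_map, aeval_def, algebraMap_int_eq]
  have t1 : ∀ f, τ (derivative f) = derivative (τ f) := fun f => by
    simp [τ0, taylor_apply, derivative_comp, derivative_map]
  have t2 : ∀ f i, ‖(τ f).coeff i‖ ≤ 1 := fun f => taylor_le hα fun i => by
    simpa using norm_intCast_le_one L _
  obtain ⟨ρ, hρ⟩ : ∃ ρ, ρ = ‖aeval α (derivative (N₁ * N₂))‖ := ⟨_, rfl⟩
  have ρ1 : ρ ≤ 1 := by rw [hρ, ← t0]; exact t2 _ _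
  rw [← hρ] at r1
  have ρ0 : 0 < ρ := (pow_pos h0 s).trans_le r1
  let v := NormedField.toAbsoluteValue L
  have na : IsNonarchimedean v := isNonarchimedean_norm
  let g : ℤ[X] → ℝ := fun f => (τ f).gaussNorm v ρ
  have g0 : ∀ f, 0 ≤ g f := fun f => gaussNorm_nonneg v _ ρ0.le
  have ge : ∀ f i, ‖(τ f).coeff i‖ * ρ ^ i ≤ g f := fun f => le_gaussNorm v _ ρ0.le
  have gx : ∀ f, ∃ i, g f = ‖(τ f).coeff i‖ * ρ ^ i := fun f => exists_eq_gaussNorm v ρ _
  have gm : ∀ f f', g (f * f') = g f * g f' := fun f f' => by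
    simp only [g, map_mul, gaussNorm_mul na ρ0]
  have gs : ∀ f f', g (f - f') ≤ max (g f) (g f') := fun f f' => by
    obtain ⟨i, e⟩ := gx (f - f')
    rw [e, map_sub, coeff_sub, sub_eq_add_neg]
    refine (mul_le_mul_of_nonneg_right (norm_add_le_max _ _) (by positivity)).trans ?_
    rw [max_mul_of_nonneg _ _ (by positivity), norm_neg]
    exact max_le_max (ge _ _) (ge _ _)
  have g1 : ∀ f, g f ≤ 1 := fun f => by
    obtain ⟨i, e⟩ := gx f
    exact e.trans_le (mul_le_one₀ (t2 _ _) (by positivity) (pow_le_one₀ ρ0.le ρ1))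
  have gq : ∀ n, g (C (q : ℤ) ^ n) = ‖(q : L)‖ ^ n := fun n => by
    simp only [g, τ0, ← C_pow, map_C, taylor_C, gaussNorm_C]
    simp [v, NormedField.toAbsoluteValue]
  have gd : ∀ f, ρ * g (derivative f) ≤ g f := fun f => by
    obtain ⟨i, e⟩ := gx (derivative f)
    refine le_trans ?_ (ge f (i + 1))
    rw [e, t1, coeff_derivative, norm_mul, mul_left_comm, ← pow_succ', ← Nat.cast_succ]
    gcongr
    exact mul_le_of_le_one_right (norm_nonneg _) (norm_natCast_le_one L _)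
  have gl : ∀ f, ¬ C (q : ℤ) ∣ f → f.natDegree ≤ I → ρ ^ I ≤ g f := fun f hf d => by
    obtain ⟨i, e⟩ := exists_eq_gaussNorm v 1 (τ f)
    have e1 : 1 ≤ ‖(τ f).coeff i‖ := not_lt.1 fun k => hf ((C_dvd_iff_dvd_coeff _ _).2 fun j =>
      hn _ (lt_of_le_of_lt (by
        have := taylor_le (β := -α) (by rwa [norm_neg]) (f := τ f) (c := ‖(τ f).coeff i‖)
          (fun j => by
            have := le_gaussNorm v (τ f) zero_le_one j
            rwa [e, one_pow, one_pow, mul_one, mul_one] at this) j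
        nth_rw 1 [τ0] at this
        simpa [taylor_taylor] using this) k))
    have e2 : i ≤ I := (le_natDegree_of_ne_zero fun k => by
      rw [k, norm_zero] at e1; linarith).trans (by
        rw [τ0, natDegree_taylor]; exact natDegree_map_le.trans d)
    exact (pow_le_pow_of_le_one ρ0.le ρ1 e2).trans
      ((le_mul_of_one_le_left (by positivity) e1).trans (ge f i))
  have gH : g (N₁ * N₂) ≤ ρ ^ 2 := by
    obtain ⟨i, e⟩ := gx (N₁ * N₂)
    rw [e]
    rcases i with _ | _ | i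
    · rw [t0, r0, norm_zero, zero_mul]
      positivity
    · have := t0 (derivative (N₁ * N₂))
      rw [t1, coeff_derivative, Nat.cast_zero, zero_add, zero_add, mul_one] at this
      rw [zero_add, this, ← hρ, pow_one, sq]
    · exact (mul_le_of_le_one_left (by positivity) (t2 _ _)).trans
        (pow_le_pow_of_le_one ρ0.le ρ1 (by omega))
  have gW : ρ ≤ g (N₁ * derivative N₂ - N₂ * derivative N₁) := by
    refine le_trans (le_of_eq ?_) (ge _ 0)
    rw [map_mul, mul_eq_zero] at r0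
    rw [t0, hρ, derivative_mul]
    rcases r0 with e | e <;> simp [e, mul_comm]
  obtain ⟨W, hW⟩ := wr_dvd hq hA hN h
  have a1 := gl A hA dA
  have a2 := gl B hB dB
  have a3 : ρ * g (derivative A * B - A * derivative B) ≤ g A * g B := by
    refine (mul_le_mul_of_nonneg_left (gs _ _) ρ0.le).trans ?_
    rw [mul_max_of_nonneg _ _ ρ0.le, gm, gm, ← mul_assoc, mul_left_comm ρ]
    exact max_le (mul_le_mul_of_nonneg_right (gd A) (g0 B)) (mul_le_mul_of_nonneg_left (gd B) (g0 A))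
  have a4 := gs (C (q : ℤ) ^ b * W) (C (q : ℤ) ^ 1 * (N₁ * N₂) *
    (derivative A * B - A * derivative B))
  nth_rw 1 [← hW] at a4
  have gq1 := gq 1
  rw [pow_one, pow_one] at gq1
  rw [pow_one, add_sub_cancel_left, gm, gm, gm, gm, gm _ (N₁ * N₂), gq, gq1] at a4
  have a5 : 0 < g A * g B := mul_pos ((pow_pos ρ0 I).trans_le a1) ((pow_pos ρ0 I).trans_le a2)
  have a6 := (mul_le_mul_of_nonneg_left gW a5.le).trans a4
  rcases le_max_iff.1 a6 with e | e
  · refine (pow_le_pow_iff_right_of_lt_one₀ h0 h1).1 (le_trans ?_ (e.trans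
      (mul_le_of_le_one_right (by positivity) (g1 W))))
    rw [pow_mul, pow_succ, two_mul, pow_add]
    have := pow_le_pow_left₀ (by positivity) r1 I
    gcongr <;> linarith [g0 A]
  · have a7 : ‖(q : L)‖ * g (N₁ * N₂) * g (derivative A * B - A * derivative B) ≤
        ‖(q : L)‖ * (g A * g B * ρ) := by
      rw [mul_assoc]
      refine mul_le_mul_of_nonneg_left ((mul_le_mul_of_nonneg_right gH (g0 _)).trans ?_) h0.le
      rw [sq, mul_assoc, mul_comm]
      gcongr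
    nlinarith [mul_pos a5 ρ0]

theorem norm_pow_sub {u w : L} (hu : ‖u‖ ≤ 1) (hw : ‖w‖ ≤ 1) (n : ℕ) : ‖u ^ n - w ^ n‖ ≤ ‖u - w‖ := by
  rw [← (Commute.all u w).geom_sum₂_mul, norm_mul]
  refine mul_le_of_le_one_left (norm_nonneg _) (norm_sum_le_of_forall_le_of_nonneg zero_le_one
    fun i _ => ?_)
  rw [norm_mul, norm_pow, norm_pow]
  exact mul_le_one₀ (pow_le_one₀ (norm_nonneg _) hu) (by positivity) (pow_le_one₀ (norm_nonneg _) hw)

theorem norm_int_ge (hq : q.Prime) (hn : ∀ z : ℤ, ‖(z : L)‖ < 1 → (q : ℤ) ∣ z) {z : ℤ} {i j : ℕ}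
    (h : ¬ (q : ℤ) ^ (i + 1) ∣ z) (hj : i ≤ j) : ‖(q : L)‖ ^ j ≤ ‖(z : L)‖ := by
  obtain ⟨n, w, h1, rfl⟩ := WfDvdMonoid.max_power_factor (a₀ := z) (fun k => h (k ▸ dvd_zero _))
    (Nat.prime_iff_prime_int.1 hq).irreducible
  have := not_lt.1 fun k => h ((pow_dvd_pow (q : ℤ) (k : i < n)).mul_right w)
  push_cast
  rw [norm_mul, norm_pow]
  exact (pow_le_pow_of_le_one (norm_nonneg _) (norm_natCast_le_one L _) (by omega)).trans
    (le_mul_of_one_le_right (by positivity) (not_lt.1 (mt (hn w) h1)))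

theorem root_bound (hq : q.Prime) (hn : ∀ z : ℤ, ‖(z : L)‖ < 1 → (q : ℤ) ∣ z)
    (h : Mu q E m a b c₀) {x s : ℤ} {e v : ℕ} (hs : s ^ 2 = 1) (he : e ≤ 1) (v0 : 1 ≤ v)
    (v1 : ¬ (q : ℤ) ^ (v + 1) ∣ x) (v2 : ∀ n ≠ 0, ¬ (q : ℤ) ^ (v + n + 1) ∣ x ^ n - 1) {α : L}
    (hα : α ^ m c₀ = x) : ‖α‖ ≤ 1 ∧ aeval α (QP x s e m a b * QP x s e m b a) = 0 ∧
      ‖(q : L)‖ ^ (7 * v * (k * E)) ≤ ‖aeval α (derivative (QP x s e m a b * QP x s e m b a))‖ := by
  have x1 := norm_intCast_le_one L x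
  have α1 : ‖α‖ ≤ 1 := by rwa [← hα, norm_pow, pow_le_one_iff_of_nonneg (norm_nonneg _) (h.ne _)] at x1
  have q1 := norm_natCast_le_one L q
  have mo : ∀ {i j}, j ≤ i → ‖(q : L)‖ ^ i ≤ ‖(q : L)‖ ^ j := pow_le_pow_of_le_one (norm_nonneg _) q1
  have l := fun c => (h.2.2.1 c).1
  have E0 : 1 ≤ E := (Nat.pos_of_ne_zero (h.ne c₀)).trans_le (l _)
  have x2 := norm_int_ge hq hn v1 le_rfl
  have b0 : ∀ {z : L}, ‖(q : L)‖ ^ v ≤ ‖z‖ → ∀ j ≤ E, ‖(q : L)‖ ^ (v * E) ≤ ‖z ^ j‖ :=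
    fun hz j hj => by
      rw [norm_pow]
      exact (mo (Nat.mul_le_mul_left v hj)).trans ((pow_mul _ _ _).trans_le (by gcongr))
  have b1 := b0 (z := α) (x2.trans (by
    rw [← hα, norm_pow]; exact pow_le_of_le_one (norm_nonneg _) α1 (h.ne _)))
  have αm : ∀ c, ‖α ^ m c‖ ≤ 1 := fun c => by rw [norm_pow]; exact pow_le_one₀ (norm_nonneg _) α1
  let F : Fin k → ℤ[X] := fun c => C x - X ^ m c
  let G : Fin k → ℤ[X] := fun c => C s * X ^ (e * m c) * (C x * X ^ m c - 1)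
  have bG : ∀ c, ‖(q : L)‖ ^ (4 * v * E) ≤ ‖aeval α (G c)‖ := fun c => by
    have e1 := norm_pow_sub (u := x * α ^ m c) (w := 1) (by
      rw [norm_mul]; exact mul_le_one₀ x1 (norm_nonneg _) (αm c)) norm_one.le (m c₀)
    have e2 := norm_int_ge hq hn (v2 (m c₀ + m c) (by have := h.ne c; omega))
      (j := v + 2 * E) (by have := l c; have := l c₀; omega)
    have e3 : ‖(s : L)‖ = 1 := by
      rw [← pow_eq_one_iff_of_nonneg (norm_nonneg _) two_ne_zero, ← norm_pow, ← Int.cast_pow, hs]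
      simp
    rw [mul_pow, pow_right_comm, hα, one_pow, ← pow_add] at e1
    push_cast at e2
    simp only [G, map_mul, map_sub, map_pow, aeval_X, eq_intCast, map_intCast, map_one, norm_mul,
      e3, one_mul]
    refine (mo (by nlinarith : v * E + (v + 2 * E) ≤ _)).trans ((pow_add _ _ _).trans_le ?_)
    exact mul_le_mul (b1 _ ((mul_le_of_le_one_left' he).trans (l c))) (e2.trans e1) (by positivity)
      (norm_nonneg _)
  have bF : ∀ c ≠ c₀, a c + b c = 1 → ‖(q : L)‖ ^ (3 * v * E) ≤ ‖aeval α (F c)‖ := fun c hc e => by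
    obtain ⟨j, hj⟩ := Nat.exists_eq_add_of_le (h.2.2.2.2 c e)
    have e1 := norm_pow_sub (αm c) x1 (m c₀)
    have e2 := norm_int_ge hq hn (v2 j fun k => hc (h.1 (by omega)))
      (j := v + E) (by have := l c; omega)
    rw [pow_right_comm, hα, norm_sub_rev (α ^ _)] at e1
    nth_rw 1 [hj] at e1
    rw [pow_add, ← mul_sub_one, norm_mul] at e1
    push_cast at e2
    simp only [F, map_sub, map_pow, aeval_X, eq_intCast, map_intCast]
    refine (mo (by nlinarith : v * E + (v + E) ≤ _)).trans ((pow_add _ _ _).trans_le ?_)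
    exact (mul_le_mul (b0 x2 _ (l _)) e2 (by positivity) (norm_nonneg _)).trans e1
  have e1 : QP x s e m a b * QP x s e m b a =
      F c₀ * (G c₀ * ∏ c ∈ univ.erase c₀, (F c * G c) ^ (a c + b c)) := by
    rw [← mul_assoc, ← pow_one (F c₀ * G c₀), ← h.2.2.2.1, mul_prod_erase _
      (fun c => (F c * G c) ^ (a c + b c)) (mem_univ c₀), QP, QP, ← prod_mul_distrib]
    exact prod_congr rfl fun c _ => by simp only [F, G, mul_pow, pow_add]; ring
  have e2 : aeval α (F c₀) = 0 := by simp [F, hα]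
  have e3 : ‖(q : L)‖ ^ (7 * v * E * (univ.erase c₀).card) ≤
      ‖aeval α (∏ c ∈ univ.erase c₀, (F c * G c) ^ (a c + b c))‖ := by
    rw [pow_mul, ← prod_const, map_prod, norm_prod]
    refine prod_le_prod (fun _ _ => by positivity) fun c hc => ?_
    by_cases e : a c + b c = 1
    · rw [e, pow_one, map_mul, norm_mul, show 7 * v * E = 3 * v * E + 4 * v * E by ring, pow_add]
      exact mul_le_mul (bF c (ne_of_mem_erase hc) e) (bG c) (by positivity) (norm_nonneg _)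
    · have := (h.2.2.1 c).2
      simpa [show a c + b c = 0 by omega] using pow_le_one₀ (norm_nonneg _) q1
  have e4 : ‖(q : L)‖ ^ (v * E) ≤ ‖aeval α (derivative (F c₀))‖ := by
    have := not_lt.1 (mt (hn (m c₀)) (by exact_mod_cast h.2.1 c₀))
    simp only [F, map_sub, derivative_C, derivative_X_pow, zero_sub, map_neg, norm_neg, map_mul,
      map_natCast, map_pow, aeval_X, norm_mul]
    exact (b1 _ ((Nat.sub_le _ _).trans (l _))).trans
      (le_mul_of_one_le_left (norm_nonneg _) (by simpa using this))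
  refine ⟨α1, by rw [e1, map_mul, e2, zero_mul], ?_⟩
  have e5 := card_erase_add_one (mem_univ c₀)
  rw [card_univ, Fintype.card_fin] at e5
  rw [e1, derivative_mul, map_add, map_mul, map_mul _ (F c₀), e2, zero_mul, add_zero, map_mul,
    norm_mul, norm_mul]
  refine (mo (j := v * E + (4 * v * E + 7 * v * E * (univ.erase c₀).card)) ?_).trans ?_
  · generalize (univ.erase c₀).card = n at e5
    rw [← e5]
    nlinarith [Nat.zero_le (v * E)]
  · rw [pow_add, pow_add]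
    exact mul_le_mul e4 (mul_le_mul (bG _) e3 (by positivity) (norm_nonneg _)) (by positivity)
      (norm_nonneg _)

theorem Tn.val (hq : q.Prime) (hq2 : q ≠ 2) {x t s : ℤ} {e v : ℕ} (T : Tn t s e) (v0 : 1 ≤ v)
    (h : (q : ℤ) ^ v ∣ x - t) (h' : ¬ (q : ℤ) ^ (v + 1) ∣ x - t) :
    ¬ (q : ℤ) ^ (v + 1) ∣ x ∧ ∀ n ≠ 0, ¬ (q : ℤ) ^ (v + n + 1) ∣ x ^ n - 1 := by
  have pq := Nat.prime_iff_prime_int.1 hq
  have h1 := (dvd_pow_self _ (by omega)).trans h
  rcases T with ⟨rfl, -⟩ | ⟨t2, -⟩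
  · rw [sub_zero] at h1 h'
    exact ⟨h', fun n hn k => pq.not_dvd_one (by
      simpa using dvd_sub (h1.pow hn) ((dvd_pow_self _ (by omega)).trans k))⟩
  have hx : ¬ (q : ℤ) ∣ x := fun k => pq.not_dvd_one (t2 ▸ Dvd.dvd.pow (by
    simpa using dvd_sub k h1) two_ne_zero)
  refine ⟨fun k => hx ((dvd_pow_self _ (by omega)).trans k), fun n hn k => ?_⟩
  have k1 := k.trans (sub_dvd_pow_sub_pow _ _ 2)
  rw [show (1 : ℤ) ^ 2 = t ^ (n * 2) by rw [pow_mul', t2, one_pow, one_pow], ← pow_mul,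
    pow_dvd_iff_le_emultiplicity,
    Int.emultiplicity_pow_sub_pow hq (hq.odd_of_ne_two hq2) h1 hx,
    emultiplicity_eq_coe.2 ⟨h, h'⟩, add_assoc, Nat.cast_add,
    ENat.add_le_add_iff_left (ENat.coe_ne_top v), ← pow_dvd_iff_le_emultiplicity] at k1
  have := Nat.le_of_dvd (by omega) k1
  have := Nat.pow_le_pow_left hq.two_le (n + 1)
  have := n.lt_two_pow_self
  rw [pow_succ 2] at *
  omega

theorem wronsk (hq : q.Prime) (hq2 : q ≠ 2) (h : Mu q E m a b c₀) {x t s : ℤ} {e v : ℕ}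
    (T : Tn t s e) (v0 : 1 ≤ v) (v1 : (q : ℤ) ^ v ∣ x - t) (v2 : ¬ (q : ℤ) ^ (v + 1) ∣ x - t)
    {A B : ℤ[X]} (hA : ¬ C (q : ℤ) ∣ A) (hB : ¬ C (q : ℤ) ∣ B)
    (hN : ¬ C (q : ℤ) ∣ QP x s e m b a) {I n : ℕ} (dA : A.natDegree ≤ I) (dB : B.natDegree ≤ I)
    (d : C (q : ℤ) ^ n ∣ A ^ q * QP x s e m b a + B ^ q * QP x s e m a b) :
    n ≤ v * (7 * (k * E) * (2 * I + 1)) := by
  have := Fact.mk hq
  have e1 : ∀ z : ℤ, ‖(z : PadicAlgCl q)‖ < 1 ↔ (q : ℤ) ∣ z := fun z => by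
    rw [← Padic.norm_intCast_lt_one_iff, ← PadicAlgCl.norm_extends, map_intCast]
  obtain ⟨α, hα⟩ := IsAlgClosed.exists_pow_nat_eq (x : PadicAlgCl q) (Nat.pos_of_ne_zero (h.ne c₀))
  obtain ⟨w1, w2⟩ := T.val hq hq2 v0 v1 v2
  obtain ⟨a1, a2, a3⟩ := root_bound hq (fun z => (e1 z).1) h T.sq.1 T.sq.2 v0 w1 w2 hα
  exact (gauss_w hq (norm_pos_iff.2 (Nat.cast_ne_zero.2 hq.ne_zero)) (by simpa using (e1 q).2 dvd_rfl)
    (fun z => (e1 z).1) a1 hA hB hN dA dB d a2 a3).trans (le_of_eq (by ring))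

end Pool.Agent.P.MP_71e30e_nt.Rk
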