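import Pool.Agent.P.MP_71e30e_nt.R7
import Pool.Agent.P.MP_71e30e_nt.R3
import Pool.Agent.P.MP_71e30e_nt.HL

set_option autoImplicit false

/-! The lower bound for the solution. -/

namespace Pool.Agent.P.MP_71e30e_nt.Rk

open Finset Polynomial NumberField Cyc

variable {q t D : ℕ} {κ : ℤ} {N n : ℤ[X]}

/-- the approximation of order `r` to the root of a quotient -/
def Gm (q : ℕ) (κ : ℤ) (r b D : ℕ) (N n Γ : ℤ[X]) : Prop := Γ.natDegree ≤ r * D ∧
  C (q : ℤ) ∣ Γ - N ^ r ∧ C (q : ℤ) ^ b ∣ Γ ^ q * N - N ^ (r * q) * (N + C κ * n)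

theorem exists_gm (hq : q.Prime) (hq2 : q ≠ 2) (hκ : (q : ℤ) ^ (t + 2) ∣ κ) {r b : ℕ}
    (hb : b ≤ fv t (r + 1)) (N0 : N ≠ 0) (dN : N.natDegree ≤ D) (dn : n.natDegree ≤ D) :
    ∃ Γ, Gm q κ r b D N n Γ := by
  obtain ⟨s, e, h1, h2, h3, h4⟩ := exists_trunc_root hq hq2 hκ r
  let H : ℕ → ℤ[X] → ℤ[X] := fun D s => ∑ j ∈ range (D + 1), C (s.coeff j) * n ^ j * N ^ (D - j)
  let ι := algebraMap ℤ[X] (FractionRing ℤ[X])
  have ι1 : Function.Injective ι := IsFractionRing.injective _ _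
  have ι0 : ι N ≠ 0 := (map_ne_zero_iff _ ι1).2 N0
  have hH : ∀ D s, s.natDegree ≤ D → ι (H D s) = ι N ^ D * aeval (ι n / ι N) s := fun D s h => by
    rw [aeval_eq_sum_range' (Nat.lt_succ_of_le h), map_sum, mul_sum]
    refine sum_congr rfl fun j hj => ?_
    rw [← pow_sub_mul_pow _ (mem_range_succ_iff.1 hj), div_pow]
    simp
    field_simp
  refine ⟨H r s, natDegree_sum_le_of_forall_le _ _ fun j hj => ?_, ?_,
    (pow_dvd_pow _ hb).trans ⟨H (r * q + 1) e, ι1 ?_⟩⟩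
  · rw [mul_assoc]
    refine (natDegree_C_mul_le _ _).trans (natDegree_mul_le.trans ((add_le_add
      (natDegree_pow_le_of_le _ dn) (natDegree_pow_le_of_le _ dN)).trans ?_))
    rw [← add_mul, Nat.add_sub_cancel' (mem_range_succ_iff.1 hj)]
  · have c := (C_dvd_iff_dvd_coeff _ _).1 h3
    have : N ^ r = ∑ j ∈ range (r + 1), C (coeff 1 j) * n ^ j * N ^ (r - j) := by
      simp [coeff_one]
    rw [this, ← sum_sub_distrib]
    refine dvd_sum fun j _ => ?_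
    rw [← sub_mul, ← sub_mul, ← C_sub, ← coeff_sub]
    exact ((map_dvd C (c j)).mul_right _).mul_right _
  · rw [map_sub, map_mul, map_pow, hH _ _ h1, map_mul _ _ (H _ _), hH _ _ h2, mul_pow, ← map_pow _ s,
      h4]
    simp
    field_simp
    ring

theorem gm_zero (hq : q.Prime) (hq2 : q ≠ 2) {r b : ℕ} {A B Γ : ℤ[X]} (hN : ¬ C (q : ℤ) ∣ N)
    (g : Gm q κ r (b + 1) D N n Γ) (hAB : ¬ (C (q : ℤ) ∣ A ∧ C (q : ℤ) ∣ B))
    (h : C (q : ℤ) ^ (b + 1) ∣ A * N ^ r + B * Γ) : ¬ C (q : ℤ) ∣ A ∧ ¬ C (q : ℤ) ∣ B ∧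
      C (q : ℤ) ^ (b + 1) ∣ A ^ q * N + B ^ q * (N + C κ * n) := by
  have pC := prime_C_iff.2 (Nat.prime_iff_prime_int.1 hq)
  have h1 : C (q : ℤ) ∣ A + B := by
    refine (pC.dvd_or_dvd (a := N ^ r) ?_).resolve_left fun k => hN (pC.dvd_of_dvd_pow k)
    convert dvd_sub ((dvd_pow_self _ b.succ_ne_zero).trans h) (g.2.1.mul_left B) using 1
    ring
  refine ⟨fun k => hAB ⟨k, (dvd_add_right k).1 h1⟩, fun k => hAB ⟨(dvd_add_left k).1 h1, k⟩,
    pC.pow_dvd_of_dvd_mul_left (a := N ^ (r * q)) _ (fun k => hN (pC.dvd_of_dvd_pow k)) ?_⟩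
  have h2 := h.trans (Odd.add_dvd_pow_add_pow _ _ (hq.odd_of_ne_two hq2))
  convert dvd_sub (h2.mul_left N) (g.2.2.mul_left (B ^ q)) using 1
  ring

variable {K : Type} [Field K] [NumberField K] {p : ℕ} [IsCyclotomicExtension {p} ℚ K] {ξ : 𝓞 K}

theorem lower_core (hp : p.Prime) (hq : q.Prime) (hq2 : q ≠ 2) (hpq : p ≠ q)
    (hξ : IsPrimitiveRoot ξ p) (D0 : 1 ≤ D) (dN : N.natDegree ≤ D) (dn : n.natDegree ≤ D)
    (hg : IsCoprime (q : 𝓞 K) (aeval ξ N)) (k2 : (q : ℤ) ^ (t + 2) ∣ κ) {ϑ : K}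
    {I : Ideal (𝓞 K)} {y : ℕ} (hI : Ideal.absNorm I = y) (hc : Cl I ϑ) (hy : IsCoprime (q : ℤ) y)
    (h : ϑ ^ q * am K (aeval ξ N) = am K (aeval ξ (N + C κ * n)))
    (h1 : ∀ φ : K →ₐ[ℚ] ℂ, ‖φ ϑ‖ ≤ 1) {j m R : ℕ} (hj : m = j + 1)
    (hW : ¬ C (q : ℤ) ∣ N → ∀ A B b, ¬ C (q : ℤ) ∣ A → ¬ C (q : ℤ) ∣ B → A.natDegree ≤ 16 * m * D →
      B.natDegree ≤ 16 * m * D → C (q : ℤ) ^ b ∣ A ^ q * N + B ^ q * (N + C κ * n) →
        b ≤ (t + 2) * R) (hm : 16 * m * D + (4 * R + 4) * D < p - 1) :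
    (q ^ j) ^ (p - 1) ≤ y * (32 * m * D) ^ (p - 1) := by
  have pq := Nat.prime_iff_prime_int.1 hq
  have q0 : (q : 𝓞 K) ≠ 0 := Nat.cast_ne_zero.2 hq.ne_zero
  have y0 : y ≠ 0 := by
    rintro rfl
    exact pq.not_unit (isCoprime_zero_right.1 hy)
  have hy' : IsCoprime (q : 𝓞 K) y := by simpa using hy.map (Int.castRingHom (𝓞 K))
  obtain ⟨θ, hθ⟩ := am_surj (hc _ (Ideal.absNorm_mem I))
  rw [hI, map_natCast] at hθ
  have ev : ∀ {b : ℕ} {f : ℤ[X]}, C (q : ℤ) ^ b ∣ f → (q : 𝓞 K) ^ b ∣ aeval ξ f := fun k => by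
    simpa using map_dvd (aeval ξ) k
  have hN : ¬ C (q : ℤ) ∣ N := fun k => pq.not_dvd_one (by
    simpa using (C_dvd_iff_dvd_coeff _ _).1 (rd hp hξ (f := 1) (N := q) (by simp; omega)
      (by simpa using (hg.isUnit_of_dvd (by simpa using ev (b := 1) (by simpa using k))).dvd)) 0)
  have N0 : N ≠ 0 := fun k => hN (k ▸ dvd_zero _)
  obtain ⟨g, hg'⟩ : ∃ g, g = aeval ξ N := ⟨_, rfl⟩
  have h2 : θ ^ q * g = y ^ q * (g + κ * aeval ξ n) := by
    apply am_inj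
    rw [map_mul, map_pow, hθ, mul_pow, mul_assoc, hg', h]
    simp
  rw [← hg'] at hg
  have h3 : (q : 𝓞 K) ∣ θ - y := reduced hp hq hpq hξ (hg.dvd_of_dvd_mul_left (by
    have : (q : 𝓞 K) ∣ κ := by
      simpa using map_dvd (Int.castRingHom (𝓞 K)) ((dvd_pow_self _ (by omega)).trans k2)
    exact (this.mul_right (y ^ q * aeval ξ n)).trans (dvd_of_eq (by linear_combination -h2))))
  have lf : ∀ {r b Γ}, Gm q κ r (b + 1) D N n Γ →
      (q : 𝓞 K) ^ b ∣ θ * g ^ r - y * aeval ξ Γ := fun {r b Γ} g1 => by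
    obtain ⟨c1, a1⟩ := ev (b := 1) (by simpa using g1.2.1)
    have a3 := ev g1.2.2
    simp only [map_sub, map_pow, pow_one, ← hg'] at a1
    simp only [map_sub, map_mul, map_pow, map_add, ← hg', eq_intCast, map_intCast] at a3
    refine lift_root (hq.odd_of_ne_two hq2) ?_ (hy'.mul_right ?_)
      (hg.pow_left.dvd_of_dvd_mul_left ((a3.mul_left (-y ^ q)).trans
        (dvd_of_eq (by linear_combination (-g ^ (r * q)) * h2))))
    · exact (dvd_sub (h3.mul_right (g ^ r)) (dvd_mul_right _ (y * c1))).trans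
        (dvd_of_eq (by linear_combination y * a1))
    · rw [eq_add_of_sub_eq' a1]
      exact hg.pow_right.add_mul_left_right _
  have nz : ∀ A B : ℤ[X], (A ≠ 0 ∨ B ≠ 0) → A.natDegree ≤ 16 * m * D → B.natDegree ≤ 16 * m * D →
      y * aeval ξ A + aeval ξ B * θ ≠ 0 := fun A B hAB dA dB e => by
    obtain ⟨j, A, B, rfl, rfl, c⟩ := exists_content hq hAB
    rw [← C_pow, natDegree_C_mul (pow_ne_zero _ pq.ne_zero)] at dA dB
    have e' : y * aeval ξ A + aeval ξ B * θ = 0 := by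
      apply mul_left_cancel₀ (pow_ne_zero j q0)
      simp only [map_mul, map_pow, map_natCast] at e
      linear_combination e
    have b : (t + 2) * R + 1 + 1 ≤ fv t (4 * R + 4 + 1) := by
      unfold fv
      have : (t + 2) * R = t * R + 2 * R := by ring
      have : t * (4 * R + 4 + 1) = 4 * (t * R) + 5 * t := by ring
      omega
    obtain ⟨Γ, g1⟩ := exists_gm hq hq2 k2 b N0 dN dn
    have := rd hp hξ (N := q ^ ((t + 2) * R + 1)) (f := A * N ^ (4 * R + 4) + B * Γ)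
      (((natDegree_add_le _ _).trans (max_le (natDegree_mul_le.trans
        (add_le_add dA (natDegree_pow_le_of_le _ dN))) (natDegree_mul_le.trans
          (add_le_add dB g1.1)))).trans_lt hm) (by
        push_cast
        exact hy'.pow_left.dvd_of_dvd_mul_left (((lf g1).mul_left (-aeval ξ B)).trans
          (dvd_of_eq (by
            simp only [map_add, map_mul, map_pow, ← hg']
            linear_combination (-g ^ (4 * R + 4)) * e'))))
    rw [C_pow] at this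
    obtain ⟨a1, a2, a3⟩ := gm_zero hq hq2 hN
      ⟨g1.1, g1.2.1, (pow_dvd_pow _ (Nat.le_succ _)).trans g1.2.2⟩ c this
    have := hW hN A B _ a1 a2 dA dB a3
    omega
  have b : 4 * m + 1 ≤ fv t (8 * m + 1) := by
    unfold fv
    omega
  obtain ⟨Γ, g1⟩ := exists_gm hq hq2 k2 b N0 dN dn
  obtain ⟨c, d, cd, A, B, hA, hB, hAB, dA, dB, e⟩ := small_pair (I := 16 * m * D) (b := 4 * m)
    (M := q ^ (3 * m + 1)) hq.ne_zero (σ := X) (by simp) (by simp) g1.1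
    (natDegree_pow_le_of_le _ dN) (by
      refine lt_of_le_of_lt ?_ (Nat.pow_lt_pow_left (Nat.lt_succ_self _)
        (by nlinarith [Nat.mul_pos (by omega : 0 < m) D0]))
      rw [← pow_mul, ← pow_mul]
      exact Nat.pow_le_pow_right hq.pos (by nlinarith [Nat.mul_le_mul_left m D0]))
  obtain ⟨Z, hZ⟩ : (q : 𝓞 K) ^ (4 * m) ∣ y * aeval ξ A + aeval ξ B * θ :=
    (hg.pow (n := 8 * m)).dvd_of_dvd_mul_left ((dvd_add ((ev e).mul_left y) ((lf g1).mul_left (aeval ξ B))).trans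
      (dvd_of_eq (by simp only [map_add, map_mul, map_pow, ← hg']; ring)))
  obtain ⟨z, hz⟩ : ∃ z, z = am K (aeval ξ A) + am K (aeval ξ B) * ϑ := ⟨_, rfl⟩
  have z1 : y * z = q ^ (4 * m) * am K Z := by
    have := congrArg (am K) hZ
    simp only [map_add, map_mul, map_pow, map_natCast, hθ] at this
    rw [hz]
    linear_combination this
  have qK : (q : K) ^ (4 * m) ≠ 0 := pow_ne_zero _ (Nat.cast_ne_zero.2 hq.ne_zero)
  have z2 : Cl I (z / q ^ (4 * m)) := fun a ha => by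
    obtain ⟨s, s', e⟩ := hy.pow_left (m := 4 * m)
    have e' : (s : K) * q ^ (4 * m) + s' * y = 1 := by exact_mod_cast congrArg (Int.cast : ℤ → K) e
    have : am K a * (z / q ^ (4 * m)) = s * (am K (a * aeval ξ A) + am K (aeval ξ B) * (am K a * ϑ))
        + s' * am K (a * Z) := by
      rw [map_mul, map_mul, mul_div_assoc', div_eq_iff qK]
      linear_combination (-am K a * z) * e' + s' * am K a * z1 + s * q ^ (4 * m) * am K a * hz
    rw [this]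
    exact ((isIntegral_intCast _).mul ((am_int _).add ((am_int _).mul (hc a ha)))).add
      ((isIntegral_intCast _).mul (am_int _))
  have z3 := z2.pf (fun k => y0 (by rw [← hI, k]; simp)) (div_ne_zero (fun k => nz A B hAB dA dB (by
    rw [k, mul_zero, eq_comm, mul_eq_zero, or_iff_right qK, map_eq_zero_iff _ am_inj] at z1
    rw [hZ, z1, mul_zero])) qK)
  have z4 : pn z = (q ^ (4 * m) : ℕ) ^ (p - 1) * pn (z / q ^ (4 * m)) := by
    rw [← rank_eq (K := K) hp, ← pn_nat, ← pn_mul, Nat.cast_pow, mul_div_cancel₀ _ qK]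
  have z5 : pn z ≤ ((32 * m * D * q ^ (3 * m + 1) : ℕ) : ℝ) ^ (p - 1) := by
    rw [← rank_eq (K := K) hp, ← AlgHom.card ℚ K ℂ, ← card_univ, ← prod_const]
    refine prod_le_prod (fun _ _ => norm_nonneg _) fun φ _ => ?_
    have bd : ∀ c : Fin (16 * m * D) → ℤ, (∀ i, |c i| ≤ (q ^ (3 * m + 1) : ℕ)) →
        ‖φ (am K (aeval ξ (∑ i, C (c i) * X ^ (i : ℕ))))‖ ≤ 16 * m * D * q ^ (3 * m + 1) :=
      fun c hc => by
        rw [map_sum, map_sum, map_sum]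
        refine (norm_sum_le _ _).trans ((sum_le_card_nsmul _ _ ((q : ℝ) ^ (3 * m + 1)) fun i _ =>
          ?_).trans (by simp))
        simp only [map_mul, map_pow, aeval_X, eq_intCast, map_intCast, norm_mul, norm_pow,
          norm_place hp.ne_zero hξ.pow_eq_one φ, one_pow, mul_one, Complex.norm_intCast]
        exact_mod_cast hc i
    have a1 := bd c fun i => (cd i).1
    have a2 := bd d fun i => (cd i).2
    rw [← hA] at a1
    rw [← hB] at a2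
    rw [hz, map_add, map_mul]
    refine (norm_add_le _ _).trans ?_
    rw [norm_mul]
    have := mul_le_of_le_one_right (norm_nonneg (φ (am K (aeval ξ B)))) (h1 φ)
    push_cast
    linarith
  have z6 : (((q ^ (4 * m)) ^ (p - 1) : ℕ) : ℝ) ≤
      (y * (32 * m * D * q ^ (3 * m + 1)) ^ (p - 1) : ℕ) := by
    rw [hI] at z3
    rw [Nat.cast_pow, Nat.cast_mul, Nat.cast_pow (_ * _)]
    refine (le_mul_of_one_le_right (by positivity) z3).trans ?_
    rw [mul_left_comm, ← z4]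
    exact mul_le_mul_of_nonneg_left z5 (by positivity)
  rw [Nat.cast_le, show 4 * m = j + (3 * m + 1) by omega, pow_add, mul_pow, mul_pow _ _ (p - 1),
    ← mul_assoc] at z6
  exact Nat.le_of_mul_le_mul_right z6 (pow_pos (pow_pos hq.pos _) _)

theorem exists_mu (hp : p.Prime) (hq : q.Prime) (hξ : IsPrimitiveRoot ξ p) {x y v k : ℕ}
    (s : Sol K p q x y v) (hk : q ^ v < 2 ^ k) (hE : k ^ 2 < p) : ∃ (m a b : Fin k → ℕ) (c₀ : Fin k)
      (w : K), Mu q (k ^ 2) m a b c₀ ∧ Rel p q x (fun c => ξ ^ m c) a b w := by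
  obtain ⟨g, g0, g1, g2⟩ : ∃ g, g ≠ 0 ∧ g ≤ k ∧ ∀ c < k, ¬ q ∣ c * g + 1 := by
    have k0 : k ≠ 0 := by rintro rfl; simp [hq.ne_zero] at hk
    by_cases c : q ≤ k
    · exact ⟨q, hq.ne_zero, c, fun i _ e =>
        hq.not_dvd_one ((Nat.dvd_add_right (dvd_mul_left _ _)).1 e)⟩
    · exact ⟨1, one_ne_zero, by omega, fun i hi => Nat.not_dvd_of_pos_of_lt (by omega) (by omega)⟩
  have l : ∀ c : Fin k, c * g + 1 ≤ k ^ 2 := fun c => by
    nlinarith [Nat.mul_le_mul c.2 g1, Nat.pos_of_ne_zero g0]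
  have hm : ∀ c : Fin k, IsPrimitiveRoot (ξ ^ (c * g + 1)) p := fun c => hξ.pow_of_coprime _
    (Nat.coprime_of_lt_prime (by omega) ((l c).trans_lt hE) hp).symm
  obtain ⟨f, hf⟩ := s.2.2 k _ hm
  obtain ⟨a, b, hab, e⟩ := Fintype.exists_ne_map_eq_of_card_lt
    (fun a : Fin k → Fin 2 => f fun c => a c) (by simpa using hk)
  obtain ⟨w, r⟩ := hf _ _ e
  obtain ⟨c₀, h1, h2⟩ := exists_min_image (univ.filter fun c => a c ≠ b c) id
    ((Function.ne_iff.1 hab).imp fun c hc => by simpa using hc)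
  refine ⟨fun c => c * g + 1, fun c => a c - b c, fun c => b c - a c, c₀, w,
    ⟨fun c d e => Fin.ext (Nat.eq_of_mul_eq_mul_right (Nat.pos_of_ne_zero g0)
      (Nat.add_right_cancel e)), fun c => g2 c c.2, fun c => ⟨l c, by dsimp only; omega⟩, ?_,
      fun c hc => ?_⟩, ?_⟩
  · have := Fin.val_ne_of_ne (mem_filter.1 h1).2
    dsimp only
    omega
  · have : c₀ ≤ c := h2 c (mem_filter.2 ⟨mem_univ c, fun e => by simp [e] at hc⟩)
    exact Nat.succ_le_succ (Nat.mul_le_mul_right g this)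
  · have e1 : ∀ (ξ : Fin k → 𝓞 K) (a b : Fin k → Fin 2), PP x ξ (fun c => a c) =
        PP x ξ (fun c => a c - b c) * PP x ξ fun c => min (a c) (b c) := fun ξ a b => by
      simp only [PP, ← prod_mul_distrib, ← pow_add, Nat.sub_add_min_cancel]
    unfold Rel at r ⊢
    rw [e1 _ a b, e1 _ b a, e1 _ a b, e1 _ b a] at r
    simp only [min_comm (b _ : ℕ), map_mul] at r ⊢
    apply mul_right_cancel₀ (mul_ne_zero (PP_ne hp s.1 hm fun c => min (a c) (b c))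
      (PP_ne hp s.1 (fun c => prim_inv hp (hm c)) fun c => min (a c) (b c)))
    linear_combination r

theorem lower (hp : p.Prime) (hp2 : p ≠ 2) (hq : q.Prime) (hq2 : q ≠ 2) (hpq : p ≠ q)
    (hξ : IsPrimitiveRoot ξ p) {x y v k J j m : ℕ} (s : Sol K p q x y v) (hk : q ^ v < 2 ^ k)
    (hJ : q < J * p) (hb : 100 * J ^ 2 * (k ^ 3) ^ 4 < p - 1) (hj : m = j + 1)
    (hm : 4000 * m * (k ^ 3) ^ 3 < p - 1) :
    (q ^ j) ^ (p - 1) ≤ y ^ (2 * k) * (64 * m * k ^ 3) ^ (p - 1) := by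
  have pq := Nat.prime_iff_prime_int.1 hq
  have hζ := hξ.pow_of_coprime q ((Nat.coprime_primes hq hp).2 hpq.symm)
  have k0 : 1 ≤ k := Nat.pos_of_ne_zero (by rintro rfl; simp [hq.ne_zero] at hk)
  obtain ⟨δ, hδ⟩ : ∃ δ, δ = k ^ 3 := ⟨_, rfl⟩
  have e0 : k * k ^ 2 = δ := by rw [hδ]; ring
  rw [← hδ] at hb hm ⊢
  have δ0 : k ^ 2 ≤ δ := e0 ▸ Nat.le_mul_of_pos_left _ k0
  have δ1 : 1 ≤ δ := (Nat.one_le_pow _ _ k0).trans δ0
  have δ2 : m * δ ≤ m * δ ^ 2 := Nat.mul_le_mul_left _ (Nat.le_self_pow two_ne_zero _)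
  have δ3 : m * δ ^ 2 ≤ m * δ ^ 3 := Nat.mul_le_mul_left _ (Nat.pow_le_pow_right δ1 (by omega))
  have δ4 : δ ≤ m * δ := Nat.le_mul_of_pos_left _ (by omega)
  have δ5 : δ ^ 2 ≤ m * δ ^ 2 := Nat.le_mul_of_pos_left _ (by omega)
  rw [mul_assoc] at hm
  obtain ⟨μ, a, b, c₀, w, h, r⟩ := exists_mu hp hq hζ s hk (by omega)
  obtain ⟨t, σ, e, T, h1, hy⟩ := congr_two hp hp2 hq hq2 hpq hξ h s.1 s.2.1 r e0.le hJ hb
  have hμ : ∀ c, IsPrimitiveRoot ((ξ ^ q) ^ μ c) p := fun c => hζ.pow_of_coprime _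
    (Nat.coprime_of_lt_prime (h.ne c) (by have := (h.2.2.1 c).1; omega) hp).symm
  obtain ⟨η, e1, e2⟩ := theta hp.ne_zero (hq.odd_of_ne_two hq2) hξ.pow_eq_one r T.sq.1 e
  obtain ⟨I, i1, i2⟩ := den hp hp2 hq.two_le s.1 s.2.1 hμ 1
  have k1 : (x : ℤ) - t ≠ 0 := by
    have := s.1
    rcases T with ⟨rfl, -⟩ | ⟨t2, -⟩
    · omega
    · rcases sq_eq_one_iff.1 t2 with rfl | rfl <;> omega
  obtain ⟨u, z, z1, z2⟩ := WfDvdMonoid.max_power_factor k1 pq.irreducible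
  obtain ⟨u, rfl⟩ : ∃ t, u = t + 2 := ⟨u - 2, by
    have := (pow_dvd_pow_iff pq.ne_zero pq.not_unit).1 (pq.pow_dvd_of_dvd_mul_right _ z1 (z2 ▸ h1))
    omega⟩
  obtain ⟨n, hn⟩ := T.dvd x μ a b
  have d : ∀ {a b c₀}, Mu q (k ^ 2) μ a b c₀ → (QP (x : ℤ) σ e μ a b).natDegree ≤ 2 * δ := fun h =>
    (deg_QP _ _ _ h.2.2.1).trans (Nat.mul_le_mul (Nat.succ_le_succ T.sq.2) e0.le)
  have dn : n.natDegree ≤ 2 * δ := by
    rw [← natDegree_C_mul k1, ← hn]
    exact (natDegree_sub_le _ _).trans (max_le (d h) (d h.symm))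
  rw [sub_eq_iff_eq_add'] at hn
  have := lower_core hp hq hq2 hpq hζ (by omega) (d h.symm) dn
    (cop_N hp s.2.1 hy hζ hμ T.sq.1 e b a) (z2 ▸ dvd_mul_right _ z) i1
    ((i2 a b w (fun c => by have := (h.2.2.1 c).2; omega) (fun c => by have := (h.2.2.1 c).2; omega)
      r).int_mul (am_int η)) (by exact_mod_cast hy.pow_right) (hn ▸ e2) (fun φ => by
      rw [map_mul, norm_mul, norm_place (by have := hp.pos; omega) e1, rel_norm hp.ne_zero
        hq.ne_zero s.1 (fun c => (hμ c).pow_eq_one) r, one_mul]) hj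
    (fun hN A B _ hA hB dA dB f => wronsk hq hq2 h T (by omega) (z2 ▸ dvd_mul_right _ z) (by
      rw [z2, pow_succ, mul_dvd_mul_iff_left (pow_ne_zero _ pq.ne_zero)]
      exact z1) hA hB hN dA dB (hn ▸ f)) (by rw [e0]; nlinarith)
  rwa [mul_one, show 32 * m * (2 * δ) = 64 * m * δ by ring] at this

end Pool.Agent.P.MP_71e30e_nt.Rk
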