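import Pool.Agent.P.MP_71e30e_nt.R8
import Pool.Agent.P.MP_71e30e_nt.H9

set_option autoImplicit false

/-! Finiteness for prime length when the rank of the relative class group is small. -/

namespace Pool.Agent.P.MP_71e30e_nt.Rk

open Finset NumberField Cyc

variable {K : Type} [Field K] [NumberField K] {p q x y v : ℕ} [IsCyclotomicExtension {p} ℚ K]

theorem exists_data (K : Type) [Field K] [NumberField K] [IsCyclotomicExtension {p} ℚ K]
    (hp : p.Prime) (hq : q.Prime) : ∃ (ζ : 𝓞 K) (ω : ℂ) (P M : PowerSeries ℤ),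
      IsPrimitiveRoot ζ p ∧ IsPrimitiveRoot ω q ∧ Bin q P M := by
  have : NeZero p := ⟨hp.ne_zero⟩
  obtain ⟨P, M, h⟩ := exists_bin hq.ne_zero
  exact ⟨_, _, P, M, (IsCyclotomicExtension.zeta_spec p ℚ K).toInteger_isPrimitiveRoot,
    Complex.isPrimitiveRoot_exp q hq.ne_zero, h⟩

theorem Sol.size (s : Sol K p q x y v) (hp : p.Prime) (hq : q.Prime) :
    2 ≤ y ∧ y ^ q ≤ (2 * x) ^ (p - 1) := by
  obtain ⟨hx, h1, -⟩ := s
  refine ⟨?_, ?_⟩
  · have h4 := single_le_sum (f := fun i => x ^ i) (fun _ _ => Nat.zero_le _) (mem_range.2 hp.one_lt)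
    rw [h1, pow_one] at h4
    by_contra! k
    have := Nat.pow_le_pow_left (Nat.le_of_lt_succ k) q
    rw [one_pow] at this
    omega
  · rw [← h1]
    simpa [Nat.sub_add_cancel hp.one_le] using geom_le (by omega : 1 ≤ x) (p - 1)

theorem Sol.exp_le (s : Sol K p q x y v) (hp : p.Prime) (hq : q.Prime) {g : ℕ}
    (h : x ≤ 288 * 36 ^ g) : q ≤ (10 + 6 * g) * (p - 1) := by
  obtain ⟨y0, y1⟩ := s.size hp hq
  rw [← Nat.pow_le_pow_iff_right one_lt_two, pow_mul, pow_add, pow_mul]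
  refine (Nat.pow_le_pow_left y0 q).trans (y1.trans (Nat.pow_le_pow_left ?_ _))
  have := Nat.pow_le_pow_left (by norm_num : 36 ≤ 2 ^ 6) g
  omega

theorem huge_q (hp : p.Prime) (hq : q.Prime) (p5 : 5 ≤ p) (s : Sol K p q x y v)
    (hv : 4 * (v + 1) < p) : q < 64 * ((v + 1) * p) ^ 2 := by
  by_contra! c
  obtain ⟨ζ, ω, P, M, hζ, hω, hB⟩ := exists_data K hp hq
  obtain ⟨y0, y1⟩ := s.size hp hq
  have s1 := Nat.sqrt_le q
  have s2 : 8 * ((v + 1) * p) ≤ q.sqrt := Nat.le_sqrt'.2 (by linarith [mul_pow 8 ((v + 1) * p) 2])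
  have s3 := Nat.lt_succ_sqrt' q
  generalize q.sqrt = e at *
  obtain ⟨S, w, π, h1, h2, h3⟩ := exists_fibre hp (by omega) hq.two_le hζ hω hB s
    (k := 2 * (v + 1)) (by omega) (le_refl (e + 1)) (m := q + 1) (by omega) (by
      rw [pow_mul, pow_succ]
      exact Nat.mul_le_mul (Nat.pow_le_pow_left s3.le _) s3)
  have e1 : 8 * ((v + 1) * p) * e ≤ q := (Nat.mul_le_mul_right _ s2).trans s1
  have e2 : (v + 1) * (p - 1) * e ≤ (v + 1) * p * e := by gcongr; omega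
  have e3 : (v + 1) * 1 * e ≤ (v + 1) * p * e := by gcongr; omega
  have := s.exp_le hp hq (large_q hp hq.one_le hζ hω.pow_eq_one s.1 (by omega) y1 hB h2 h3
    (e := e) (m := 1) (g := p - 1) (fun a c => Nat.le_of_lt_succ (a.1 c).2) one_ne_zero (by omega)
    (by omega) (by simpa using h1) (by linarith) (by linarith))
  have e4 : p ≤ (v + 1) * p := Nat.le_mul_of_pos_left _ v.succ_pos
  nlinarith [Nat.sub_le p 1, Nat.pow_le_pow_left e4 2]

theorem big_q (hp : p.Prime) (hq : q.Prime) {b : ℕ} (hb : q < 2 ^ b) (s : Sol K p q x y v)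
    (hv : 4 * b * (v + 1) < p) : q < 64 * b * p := by
  by_contra! c
  obtain ⟨ζ, ω, P, M, hζ, hω, hB⟩ := exists_data K hp hq
  obtain ⟨y0, y1⟩ := s.size hp hq
  have b0 : 0 < b := Nat.pos_of_ne_zero (by rintro rfl; have := hq.pos; simp at hb; omega)
  have n0 : v + 1 ≤ (p - 1) / (4 * b) := (Nat.le_div_iff_mul_le (by omega)).2 (by
    rw [mul_comm]; omega)
  have n1 := Nat.mul_div_le (p - 1) (4 * b)
  have n2 := Nat.lt_mul_div_succ (p - 1) (by omega : 0 < 4 * b)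
  generalize (p - 1) / (4 * b) = n at *
  have e0 : b * v ≤ b * n := Nat.mul_le_mul_left _ (by omega)
  have e1 : n ≤ b * n := Nat.le_mul_of_pos_left _ b0
  have e2 : b ≤ b * n := Nat.le_mul_of_pos_right _ (by omega)
  have e3 : p ≤ b * p := Nat.le_mul_of_pos_left _ b0
  obtain ⟨S, w, π, h1, h2, h3⟩ := exists_fibre hp (by nlinarith) hq.two_le hζ hω hB s
    (k := b * (v + n)) (by nlinarith [Nat.sub_add_cancel hp.one_le]) (le_refl 2) (m := 2 ^ (b * n))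
    (by positivity) (by
      rw [mul_add, pow_add, pow_mul 2 b v]
      exact Nat.mul_le_mul_right _ (Nat.pow_le_pow_left hb.le _))
  have := s.exp_le hp hq (large_q hp hq.one_le hζ hω.pow_eq_one s.1 (by omega) y1 hB h2 h3
    (e := 1) (m := n) (g := 8 * b) (fun a c => Nat.le_of_lt_succ (a.1 c).2) (by omega) (by nlinarith)
    (by nlinarith) (lt_of_lt_of_le (b := 2 ^ (b * n)) (by
      rw [pow_mul]; exact Nat.pow_lt_pow_left hb (by omega)) (by simpa using h1))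
    (le_trans (b := 8 * (b * n) * p) (Nat.mul_le_mul (by nlinarith) (Nat.sub_le _ _))
      (by nlinarith [Nat.mul_le_mul_right n c])) (by nlinarith [Nat.sub_le p 1]))
  nlinarith [Nat.sub_le p 1, Nat.mul_le_mul_left (10 + 6 * (8 * b)) (Nat.sub_le p 1), hp.pos]

theorem big_p (hp : p.Prime) (hq : q.Prime) (hq2 : q ≠ 2) (hpq : p ≠ q) {l b : ℕ} (l1 : p < 2 ^ l)
    (l2 : 10000 * (400 * l * (v + 1)) ^ 101 ≤ p) (hb : q < 2 ^ b) (b1 : b ≤ 10 * l)
    (s : Sol K p q x y v) : False := by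
  obtain ⟨ζ, ω, P, M, hζ, hω, hB⟩ := exists_data K hp hq
  obtain ⟨y0, y1⟩ := s.size hp hq
  have l0 : 1 ≤ l := Nat.pos_of_ne_zero (by rintro rfl; have := hp.pos; simp at l1; omega)
  have b0 : 0 < b := Nat.pos_of_ne_zero (by rintro rfl; have := hq.pos; simp at hb; omega)
  obtain ⟨U, hU⟩ : ∃ U, U = l * (v + 1) := ⟨_, rfl⟩
  obtain ⟨V, hV⟩ : ∃ V, V = 400 * U := ⟨_, rfl⟩
  rw [mul_assoc 400, ← hU, ← hV] at l2
  have u0 : l ≤ U := hU ▸ Nat.le_mul_of_pos_right _ v.succ_pos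
  have u1 : b * (v + 1) ≤ 10 * U := by rw [hU, ← mul_assoc]; exact Nat.mul_le_mul_right _ b1
  have V1 : 1 ≤ V := by omega
  have w : ∀ i ≤ 101, V ^ i ≤ V ^ 101 := fun i hi => Nat.pow_le_pow_right V1 hi
  have v1 := w 1 (by norm_num)
  rw [pow_one] at v1
  have q1 := big_q hp hq hb s (by rw [mul_assoc]; omega)
  have k2 : q ^ (v + 1) ≤ 2 ^ (b * (v + 1)) := pow_mul 2 b _ ▸ Nat.pow_le_pow_left hb.le _
  generalize b * (v + 1) = k at u1 k2
  have k1 := (Nat.pow_lt_pow_right hq.one_lt v.lt_succ_self).trans_le k2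
  have kV : k ≤ V := by omega
  have V91 := Nat.one_le_pow 91 V V1
  obtain ⟨j, hj⟩ : ∃ j, V ^ 92 = j + 1 := ⟨V ^ 92 - 1, by have := Nat.one_le_pow 92 V V1; omega⟩
  have a1 : V ^ 92 * (k ^ 3) ^ 3 ≤ V ^ 101 :=
    (Nat.mul_le_mul_left _ (Nat.pow_le_pow_left (Nat.pow_le_pow_left kV 3) 3)).trans (by ring_nf; rfl)
  have h1 := lower hp (by omega) hq hq2 hpq hζ s k1 q1 (by
    have : (64 * b) ^ 2 * (k ^ 3) ^ 4 ≤ (2 * V) ^ 2 * (V ^ 3) ^ 4 := by
      have : 64 * b ≤ 2 * V := by omega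
      gcongr
    have := w 14 (by norm_num)
    have : (2 * V) ^ 2 * (V ^ 3) ^ 4 = 4 * V ^ 14 := by ring
    rw [mul_assoc]
    omega) hj (by rw [mul_assoc]; omega)
  have h2 : 2 ^ (40 * q * V ^ 90) ≤ 2 * x := by
    have k0 : k ≠ 0 := by rintro rfl; simp [hq.ne_zero] at k1
    have e1 := (Nat.pow_le_pow_left h1 q).trans ((mul_pow _ _ _).le.trans
      (Nat.mul_le_mul_right _ ((pow_right_comm _ _ _).le.trans (Nat.pow_le_pow_left y1 _))))
    rw [pow_right_comm, pow_right_comm _ (p - 1) q, pow_right_comm _ (p - 1), ← mul_pow,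
      Nat.pow_le_pow_iff_left (by omega)] at e1
    have e2 : 2 ^ (40 * V ^ 90 * (2 * k)) * (64 * V ^ 92 * k ^ 3) ≤ q ^ j := by
      have a2 : V ^ 92 * k ^ 3 ≤ V ^ 92 * (k ^ 3) ^ 3 :=
        Nat.mul_le_mul_left _ (Nat.le_self_pow three_ne_zero _)
      refine le_trans (Nat.mul_le_mul_left _ (le_trans (by rw [mul_assoc]; omega) l1.le)) ?_
      rw [← pow_add]
      refine (Nat.pow_le_pow_right two_pos ?_).trans (Nat.pow_le_pow_left hq.two_le _)
      have a3 : V ^ 90 * (40 * k) ≤ V ^ 91 :=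
        (Nat.mul_le_mul_left _ (by omega)).trans_eq (pow_succ V 90).symm
      have a4 : V ^ 91 * 400 ≤ V ^ 92 :=
        (Nat.mul_le_mul_left _ (by omega)).trans_eq (pow_succ V 91).symm
      have a5 : V ≤ V ^ 91 := Nat.le_self_pow (by norm_num) V
      have : 40 * V ^ 90 * (2 * k) = 2 * (V ^ 90 * (40 * k)) := by ring
      omega
    have e3 := (Nat.pow_le_pow_left e2 q).trans e1
    rw [mul_pow, ← pow_mul, mul_right_comm _ (2 * k), pow_mul, mul_right_comm] at e3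
    exact (Nat.pow_le_pow_iff_left (by omega)).1
      (Nat.le_of_mul_le_mul_right e3 (pow_pos (by positivity) _))
  by_cases c : q ≤ V
  · have := w 9 (by norm_num)
    have := w 30 (by norm_num)
    refine ub_small hp hq hpq hζ hω (by omega) y1 hB s (m := 2 * l) (by omega) ?_ c
      (by rw [mul_assoc, ← hU]; omega) (by rw [← pow_mul]; change V ^ 30 < _; omega)
      (by rwa [← pow_mul])
    rw [two_mul, pow_add]
    exact Nat.mul_le_mul (by omega) l1.le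
  · obtain ⟨S, u, π, a2, a3, -⟩ := exists_fibre hp (by omega) hq.two_le hζ hω hB s (k := k + l + 1)
      (by omega) (le_refl 2) (m := 2 * p * q) (by have := hq.pos; have := hp.pos; positivity) (by
        rw [pow_succ, pow_add]
        nlinarith [Nat.mul_le_mul k2 l1.le, pow_succ q v])
    have a4 : 16 * (k + l + 1) ≤ V := by omega
    have := (Nat.pow_le_pow_left a4 2).trans (w 2 (by norm_num))
    exact ub_multi hp hq hpq hζ hω s.1 (by omega) y1 hB a3 (fun a b e => Subtype.ext (funext fun c =>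
      Fin.ext (congrFun e c))) (fun a c => Nat.le_of_lt_succ (a.1 c).2) (by simpa using a2)
      (by simpa using card_le_univ S) (by omega) (by omega) (le_trans
      (Nat.pow_le_pow_right two_pos (Nat.mul_le_mul_left _ ((Nat.pow_le_pow_left a4 6).trans
        (Nat.pow_le_pow_right V1 (by norm_num))))) h2) (by omega)

theorem small_v (hv : (v + 1) ^ 200 ≤ p) : v = 0 ∨ 1 ≤ v ∧ 64 * (v + 1) ≤ p := by
  refine (Nat.eq_zero_or_pos v).imp_right fun h => ⟨h, le_trans ?_ ((Nat.pow_le_pow_right v.succ_pos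
    (by norm_num : 6 + 1 ≤ 200)).trans hv)⟩
  exact Nat.mul_le_mul_right _ (Nat.pow_le_pow_left (Nat.succ_le_succ h) 6)

theorem fixed_bound (K : Type) [Field K] [NumberField K] [IsCyclotomicExtension {p} ℚ K]
    (hp : p.Prime) (hq : q.Prime) (p5 : 5 ≤ p) (hq2 : q ≠ 2) (hv : (v + 1) ^ 200 ≤ p) :
    ∃ B : ℕ, ∀ x y, Sol K p q x y v → x ≤ B := by
  classical
  obtain ⟨ζ, ω, P, M, hζ, hω, hB⟩ := exists_data K hp hq
  obtain ⟨N, hN⟩ := hp.odd_of_ne_two (by omega)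
  have q3 : 3 ≤ q := by have := hq.two_le; omega
  have c1 : q ^ v * (2 * N * (q - 1) + 1) ≤ q ^ N := by
    obtain ⟨r, rfl⟩ : ∃ r, q = r + 1 := ⟨q - 1, by omega⟩
    have e : ∀ n, 2 ≤ n → 2 * n * r < (r + 1) ^ n := fun n hn => by
      clear * - hn q3
      induction n, hn using Nat.le_induction with
      | base => zify; nlinarith [sq_nonneg ((r : ℤ) - 1), (by exact_mod_cast q3 : (3 : ℤ) ≤ r + 1)]
      | succ n hn ih =>
        rw [pow_succ]
        nlinarith [Nat.mul_le_mul ih.le q3]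
    rcases small_v hv with rfl | ⟨v0, v1⟩
    · simpa using e N (by omega)
    · obtain ⟨n, rfl⟩ : ∃ n, N = v + (n + 1) := ⟨N - v - 1, by omega⟩
      rw [pow_add, pow_succ, Nat.add_sub_cancel]
      have := Nat.mul_le_mul (e n (by omega)) q3
      clear hv
      exact Nat.mul_le_mul_left _ (by nlinarith [Nat.mul_le_mul_right r (by omega : v + 1 ≤ n)])
  have h : ∀ z : Σ S : Finset (Fin N → Fin q), (K →ₐ[ℚ] ℂ) → S → Fin q, ∃ B : ℝ,
      2 * N * (q - 1) < z.1.card → ∀ x y w, Sy q x y N (2 * N * (q - 1)) P M ζ ω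
        (fun (a : z.1) c => a.1 c) w z.2 → 2 ≤ x → y ≠ 0 → y ^ q ≤ (2 * x) ^ (p - 1) → x ≤ B :=
    fun z => by
      by_cases c : 2 * N * (q - 1) < z.1.card
      · exact (fixed_pq hp q3 hζ hω hB hN (by omega) (fun a b e => Subtype.ext (funext fun c =>
          Fin.ext (congrFun e c))) (fun a c => (a.1 c).2) (by simpa using c) z.2).imp fun _ h _ => h
      · exact ⟨0, fun k => absurd k c⟩
  choose B h using h
  obtain ⟨B', h'⟩ := (Set.finite_range B).bddAbove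
  refine ⟨⌈B'⌉₊, fun x y s => ?_⟩
  obtain ⟨y0, y1⟩ := s.size hp hq
  obtain ⟨S, w, π, h1, h2, -⟩ := exists_fibre hp (by omega) hq.two_le hζ hω hB s (k := N)
    (by omega) (E := q) (e := q - 1) (by omega) (Nat.succ_ne_zero _) c1
  exact_mod_cast ((h ⟨S, π⟩ h1 x y w h2 s.1 (by omega) y1).trans (h' ⟨_, rfl⟩)).trans
    (Nat.le_ceil _)

theorem prime_bound : ∃ A : ℕ, ∀ q x p y v : ℕ, q.Prime → p.Prime → 5 ≤ p → p ≠ q → 2 ≤ x →
    ∑ i ∈ range p, x ^ i = y ^ q → (v + 1) ^ 200 ≤ p →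
    (q ≠ 2 → Sol (CyclotomicField p ℚ) p q x y v) → x < (A * q) ^ A := by
  obtain ⟨A1, h1⟩ := two_scales
  obtain ⟨a, ha⟩ := poly_le_exp (2 * (10000 * 400 ^ 101) ^ 3) 303
  have h2 : ∀ s : ℕ × ℕ × ℕ, ∃ B : ℕ, ∀ x y, s.1.Prime → s.2.1.Prime → 5 ≤ s.1 → s.2.1 ≠ 2 →
      (s.2.2 + 1) ^ 200 ≤ s.1 → Sol (CyclotomicField s.1 ℚ) s.1 s.2.1 x y s.2.2 → x ≤ B :=
    fun ⟨p, q, v⟩ => by
      by_cases c : p.Prime ∧ q.Prime ∧ 5 ≤ p ∧ q ≠ 2 ∧ (v + 1) ^ 200 ≤ p
      · have := cyc c.1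
        obtain ⟨B, h⟩ := fixed_bound (CyclotomicField p ℚ) c.1 c.2.1 c.2.2.1 c.2.2.2.1 c.2.2.2.2
        exact ⟨B, fun x y _ _ _ _ _ => h x y⟩
      · exact ⟨0, fun _ _ a b d e f => absurd ⟨a, b, d, e, f⟩ c⟩
  choose B hB using h2
  obtain ⟨A2, h2⟩ := ((Set.finite_Iic (2 ^ a, 64 * (2 ^ a * 2 ^ a) ^ 2, 2 ^ a)).image B).bddAbove
  refine ⟨A1 + (A2 + 1) + 1, fun q x p y v hq hp p5 hpq hx h hv hs => ?_⟩
  have q1 := hq.one_le
  obtain ⟨m, hm⟩ := hp.odd_of_ne_two (by omega)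
  by_cases hq2 : q = 2
  · subst hq2
    refine Comp.bd_mono q1 (h1 2 x p q1 (by omega) (by omega) ⟨![1, 1], (x - 1) * y, by simp,
      ⟨0, by simp⟩, ⟨m + 1, by simp; omega⟩, ?_⟩) (by omega)
    simp only [Fin.prod_univ_two, Matrix.cons_val_zero, Matrix.cons_val_one, pow_one]
    rw [Comp.pow_sub_one_eq (by omega) p, h]
    ring
  have := cyc hp
  have s := hs hq2
  have v1 : 4 * (v + 1) < p := by have := small_v hv; omega
  have q2 := huge_q hp hq p5 s v1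
  have l1 : p < 2 ^ (Nat.log 2 p + 1) := Nat.lt_pow_succ_log_self one_lt_two p
  have l2 : 2 ^ (Nat.log 2 p + 1) ≤ 2 * p := by
    rw [pow_succ']
    exact Nat.mul_le_mul_left _ (Nat.pow_log_le_self 2 hp.ne_zero)
  have l0 : 1 ≤ Nat.log 2 p + 1 := Nat.le_add_left _ _
  generalize Nat.log 2 p + 1 = l at l0 l1 l2
  by_cases hl : a ≤ l
  · have l3 := (ha l hl).trans l2
    rw [mul_assoc, Nat.mul_le_mul_left_iff two_pos, show 303 = 101 * 3 by norm_num, pow_mul l,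
      ← mul_pow] at l3
    refine (big_p hp hq hq2 hpq l1 ?_ (b := 10 * l) (q2.trans_le ?_) le_rfl s).elim
    · rw [mul_pow, mul_pow 400, ← mul_assoc, ← mul_assoc]
      generalize 10000 * 400 ^ 101 * l ^ 101 = c at l3
      rw [← Nat.pow_le_pow_iff_left (n := 600) (by omega), mul_pow, show c ^ 600 = (c ^ 3) ^ 200 from
        pow_mul c 3 200, show ((v + 1) ^ 101) ^ 600 = ((v + 1) ^ 200) ^ 303 by
          rw [← pow_mul, ← pow_mul]]
      refine (Nat.mul_le_mul (Nat.pow_le_pow_left l3 _) (Nat.pow_le_pow_left hv _)).trans ?_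
      rw [← pow_add]
      exact Nat.pow_le_pow_right hp.pos (by norm_num)
    · refine le_trans (b := 2 ^ (6 * l) * (2 ^ l * 2 ^ l) ^ 2) ?_ (le_of_eq (by ring))
      gcongr
      · exact Nat.pow_le_pow_right two_pos (by omega : 6 ≤ 6 * l)
      · omega
  · have p1 : p ≤ 2 ^ a := l1.le.trans (Nat.pow_le_pow_right two_pos (by omega))
    have := (hB (p, q, v) x y hp hq p5 hq2 hv s).trans (h2 ⟨(p, q, v), ⟨p1, q2.le.trans
      (Nat.mul_le_mul_left _ (Nat.pow_le_pow_left (Nat.mul_le_mul (by omega) p1) 2)),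
        (by omega : v ≤ 2 ^ a)⟩, rfl⟩)
    refine Comp.bd_mono q1 (A := A2 + 1) (lt_of_lt_of_le (by nlinarith)
      (Nat.le_self_pow (by omega) _)) (by omega)

theorem rank_finite : {s : ℕ × ℕ × ℕ × ℕ | 2 ≤ s.1 ∧ 5 ≤ s.2.2.1 ∧ s.2.2.1.Prime ∧ 2 ≤ s.2.2.2 ∧
    (∃ r k : ℕ, r.Prime ∧ r ∣ s.2.2.2 ∧ r ≠ s.2.2.1 ∧ (k + 1) ^ 200 ≤ s.2.2.1 ∧
      Nat.card {c : ClassGroup (𝓞 (CyclotomicField s.2.2.1 ℚ)) // c ^ r = 1} ≤ r ^ k * Nat.card
        {c : ClassGroup (𝓞 (maximalRealSubfield (CyclotomicField s.2.2.1 ℚ))) // c ^ r = 1}) ∧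
    ∑ i ∈ range s.2.2.1, s.1 ^ i = s.2.1 ^ s.2.2.2}.Finite := by
  obtain ⟨A, hA⟩ := prime_bound
  obtain ⟨X, hX⟩ := Comp.bounded_of A
  refine (Comp.finite_of_bound (fun x _ => x ≤ X) (X + 1)
    fun q x n y hq _ _ h _ => lt_of_lt_of_le (by nlinarith [hq.pos])
      (Nat.le_self_pow (by omega) _)).subset ?_
  rintro ⟨x, y, n, q⟩ ⟨hx, hn, hp, hq, ⟨r, k, hr, ⟨s, rfl⟩, h1, h2, h3⟩, h⟩
  dsimp only at hx hn hp hq h1 h2 h3 h
  have h4 : ∑ i ∈ range n, x ^ i = (y ^ s) ^ r := by rw [h, ← pow_mul, mul_comm]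
  have := cyc hp
  exact ⟨hx, by dsimp only; omega, hq, (hX r x n _ hr hx (by omega) h4 (hA r x n _ k hr hp hn h1.symm
    hx h4 h2 fun h5 => sol_of_rank hp (by omega) hr h5 h1 h3 hx h4)).1, h⟩

end Pool.Agent.P.MP_71e30e_nt.Rk
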