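import Pool.Agent.P.MP_71e30e_nt.H9

set_option autoImplicit false

namespace Pool.Agent.P.MP_71e30e_nt.VariantClassNumber

/-- The equation `1 + x + ... + x^(n-1) = y^q` has only finitely many solutions x, y, n, q with
`n ≥ 5` prime such that some prime factor of `q` divides neither `n` nor the class number of the
`n`-th cyclotomic field. -/
theorem result : {s : ℕ × ℕ × ℕ × ℕ | 2 ≤ s.1 ∧ 5 ≤ s.2.2.1 ∧ s.2.2.1.Prime ∧ 2 ≤ s.2.2.2 ∧
    (∃ r : ℕ, r.Prime ∧ r ∣ s.2.2.2 ∧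
      ¬ r ∣ s.2.2.1 * NumberField.classNumber (CyclotomicField s.2.2.1 ℚ)) ∧
    ∑ i ∈ Finset.range s.2.2.1, s.1 ^ i = s.2.1 ^ s.2.2.2}.Finite :=
  Pool.Agent.P.MP_71e30e_nt.Cyc.class_finite.subset
    fun _ h => ⟨h.1, Nat.le_of_succ_le h.2.1, h.2.2.2.1, fun _ => h.2.2.2.2.1, h.2.2.2.2.2⟩

end Pool.Agent.P.MP_71e30e_nt.VariantClassNumber
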