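import Pool.Agent.P.MP_71e30e_nt.Near

set_option autoImplicit false

theorem Pool.Agent.P.MP_71e30e_nt.VariantNearPower.result (q : ℕ) (hq : 3 ≤ q) :
    ∃ k : ℕ, ∀ (x y n z s : ℕ) (a : ℤ), 1 ≤ s → 3 ≤ n →
      (s : ℤ) ^ q * x = (z : ℤ) ^ q + a → (a.natAbs + s + 1) ^ k ≤ z →
        ∑ i ∈ Finset.range n, x ^ i ≠ y ^ q :=
  Pool.Agent.P.MP_71e30e_nt.near_power q hq
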